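import Pool.Agent.H359R3.Top

set_option autoImplicit false

namespace Pool.H359R3

open MeasureTheory Set Filter Topology
open scoped ENNReal symmDiff

theorem unif_cg : @Filter.IsCountablyGenerated (Aut × Aut) (@uniformity Aut unif) := by
  show Filter.IsCountablyGenerated (Filter.comap (fun p : Aut × Aut => (iot p.1, iot p.2))
    (uniformity (ℕ → MeasuredSets lam × MeasuredSets lam)))
  infer_instance

theorem symm_pre (T : Aut) (s t : Set ℝ) (hs : MeasurableSet s) (ht : MeasurableSet t) :
    lam.real ((T.1.symm ⁻¹' s) ∆ t) = lam.real (s ∆ (T.1 ⁻¹' t)) := by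
  rw [← mp_real T.2 ((T.1.symm.measurable hs).symmDiff ht), preimage_symmDiff]
  congr 2
  ext x
  simp

/-- convergence in the uniform structure -/
theorem tendsto_unif {β : Type*} (l : Filter β) (T : β → Aut) (S : Aut)
    (h : ∀ i, Tendsto (fun b => lam.real (((T b).1 ⁻¹' AA i) ∆ (S.1 ⁻¹' AA i))) l (𝓝 0)) :
    Tendsto T l (@nhds Aut unif.toTopologicalSpace S) := by
  have hall := tend_all l (fun b => (T b).1) S.1 (fun b => (T b).2) S.2 (range AA) AA_gen (by
    rintro _ ⟨i, rfl⟩
    exact h i)
  rw [show (@nhds Aut unif.toTopologicalSpace S) = Filter.comap iot (𝓝 (iot S)) from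
    nhds_induced iot S, Filter.tendsto_comap_iff, tendsto_pi_nhds]
  intro i
  refine Filter.Tendsto.prodMk_nhds ?_ ?_
  · rw [tendsto_iff_dist_tendsto_zero]
    exact h i
  · rw [tendsto_iff_dist_tendsto_zero]
    have h1 := hall (S.1.symm ⁻¹' AA i) (S.1.symm.measurable (AA_meas i))
    refine h1.congr fun b => ?_
    show _ = lam.real (((T b).1.symm ⁻¹' AA i) ∆ (S.1.symm ⁻¹' AA i))
    rw [symm_pre (T b) _ _ (AA_meas i) (S.1.symm.measurable (AA_meas i)), symmDiff_comm]
    congr 2
    ext x
    simp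

theorem of_tendsto_unif {β : Type*} (l : Filter β) (T : β → Aut) (S : Aut)
    (h : Tendsto T l (@nhds Aut unif.toTopologicalSpace S)) (s : Set ℝ) (hs : MeasurableSet s) :
    Tendsto (fun b => lam.real (((T b).1 ⁻¹' s) ∆ (S.1 ⁻¹' s))) l (𝓝 0) := by
  refine tend_all l (fun b => (T b).1) S.1 (fun b => (T b).2) S.2 (range AA) AA_gen ?_ s hs
  rintro _ ⟨i, rfl⟩
  rw [show (@nhds Aut unif.toTopologicalSpace S) = Filter.comap iot (𝓝 (iot S)) from
    nhds_induced iot S, Filter.tendsto_comap_iff, tendsto_pi_nhds] at h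
  have h1 := (continuous_fst.tendsto _).comp (h i)
  rw [tendsto_iff_dist_tendsto_zero] at h1
  exact h1

theorem unif_complete : @CompleteSpace Aut unif := by
  let _ := unif
  have := unif_cg
  refine UniformSpace.complete_of_cauchySeq_tendsto fun T hT => ?_
  have hc : CauchySeq (fun n => iot (T n)) := by
    have : UniformContinuous iot := uniformContinuous_comap
    exact this.comp_cauchySeq hT
  have := measuredSets_complete lam
  have h1 : ∀ i, CauchySeq (fun n => (iot (T n) i).1) := by
    intro i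
    have : UniformContinuous (fun z : ℕ → MeasuredSets lam × MeasuredSets lam => (z i).1) :=
      uniformContinuous_fst.comp (Pi.uniformContinuous_proj _ i)
    exact this.comp_cauchySeq hc
  have h2 : ∀ i, CauchySeq (fun n => (iot (T n) i).2) := by
    intro i
    have : UniformContinuous (fun z : ℕ → MeasuredSets lam × MeasuredSets lam => (z i).2) :=
      uniformContinuous_snd.comp (Pi.uniformContinuous_proj _ i)
    exact this.comp_cauchySeq hc
  choose B hB using fun i => cauchySeq_tendsto_of_complete (h1 i)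
  choose B' hB' using fun i => cauchySeq_tendsto_of_complete (h2 i)
  obtain ⟨g, hg, hgmp, hgt⟩ := limit_map (fun n => (T n).1) (fun n => (T n).2) (fun i => (B i : Set ℝ))
    (fun i => (B i).2) (fun i => by
      have := hB i
      rw [tendsto_iff_dist_tendsto_zero] at this
      exact this)
  obtain ⟨g', hg', hgmp', hgt'⟩ := limit_map (fun n => (T n).1.symm) (fun n => (T n).symm_mp)
    (fun i => (B' i : Set ℝ)) (fun i => (B' i).2) (fun i => by
      have := hB' i
      rw [tendsto_iff_dist_tendsto_zero] at this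
      exact this)
  have hae : ∀ i, lam.real ((g ⁻¹' (g' ⁻¹' AA i)) ∆ AA i) = 0 := by
    intro i
    have hm : MeasurableSet (g' ⁻¹' AA i) := hg' (AA_meas i)
    have t1 := hgt _ hm
    have t2 : Tendsto (fun n => lam.real (((T n).1 ⁻¹' (g' ⁻¹' AA i)) ∆ AA i)) atTop (𝓝 0) := by
      refine (hgt' _ (AA_meas i)).congr fun n => ?_
      rw [symm_pre (T n) _ _ (AA_meas i) hm, symmDiff_comm]
    have t3 : Tendsto (fun _ : ℕ => lam.real ((g ⁻¹' (g' ⁻¹' AA i)) ∆ AA i)) atTop (𝓝 0) := by
      refine squeeze0 (fun _ => measureReal_nonneg) (fun n => ?_) (add_tend t1 t2)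
      have := real_symmDiff_tri (g ⁻¹' (g' ⁻¹' AA i)) ((T n).1 ⁻¹' (g' ⁻¹' AA i)) (AA i)
      rwa [symmDiff_comm (g ⁻¹' (g' ⁻¹' AA i)) ((T n).1 ⁻¹' (g' ⁻¹' AA i))] at this
    exact tendsto_nhds_unique tendsto_const_nhds t3
  have hae2 : ∀ᵐ x ∂lam, g' (g x) = x := by
    have h3 : ∀ᵐ x ∂lam, ∀ i, ¬ (x ∈ (g ⁻¹' (g' ⁻¹' AA i)) ∆ AA i) := by
      rw [ae_all_iff]
      intro i
      rw [ae_iff]
      simp only [not_not]
      have := hae i
      rw [measureReal_def, ENNReal.toReal_eq_zero_iff] at this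
      exact this.resolve_right (measure_ne_top _ _)
    filter_upwards [h3] with x hx
    apply AA_sep
    intro i
    have := hx i
    rw [Set.mem_symmDiff] at this
    simp only [mem_preimage] at this
    tauto
  have hXm : MeasurableSet {x | g' (g x) = x} :=
    measurableSet_eq_fun (hg'.comp hg) measurable_id
  obtain ⟨e, he⟩ := realize g hg hgmp {x | g' (g x) = x} hXm (by
    rw [ae_iff] at hae2
    exact hae2) (by
    intro x hx y hy hxy
    have hx' : g' (g x) = x := hx
    have hy' : g' (g y) = y := hy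
    rw [← hx', ← hy', hxy])
  refine ⟨e, ?_⟩
  refine tendsto_unif atTop T e fun i => ?_
  refine (hgt _ (AA_meas i)).congr fun n => ?_
  refine measureReal_congr ?_
  refine EventuallyEq.symmDiff (ae_eq_refl _) ?_
  filter_upwards [he] with x hx
  show (g x ∈ AA i) = (e.1 x ∈ AA i)
  rw [hx]

end Pool.H359R3
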