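import Mathlib

set_option autoImplicit false
set_option linter.unusedSectionVars false
set_option linter.unusedVariables false

/-!
Permutation valued cocycles and random perturbations.
-/

namespace Pool.H359R3.MX

open MeasureTheory Set Filter Topology
open scoped ENNReal

variable {X : Type*} {n : ℕ}

/-- the cocycle of a permutation valued function -/
def coc (T : X → X) (φ : X → Equiv.Perm (Fin n)) : ℕ → X → Equiv.Perm (Fin n)
  | 0, _ => 1
  | (d + 1), x => φ (T^[d] x) * coc T φ d x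

theorem coc_zero (T : X → X) (φ : X → Equiv.Perm (Fin n)) (x : X) : coc T φ 0 x = 1 := rfl

theorem coc_succ (T : X → X) (φ : X → Equiv.Perm (Fin n)) (d : ℕ) (x : X) :
    coc T φ (d + 1) x = φ (T^[d] x) * coc T φ d x := rfl

theorem coc_add (T : X → X) (φ : X → Equiv.Perm (Fin n)) (a b : ℕ) (x : X) :
    coc T φ (a + b) x = coc T φ a (T^[b] x) * coc T φ b x := by
  induction a with
  | zero => rw [Nat.zero_add, coc_zero, one_mul]
  | succ a ih =>
    rw [Nat.add_right_comm, coc_succ, ih, coc_succ, Function.iterate_add_apply, mul_assoc]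

theorem coc_congr (T : X → X) (φ ψ : X → Equiv.Perm (Fin n)) (d : ℕ) (x : X)
    (h : ∀ j < d, φ (T^[j] x) = ψ (T^[j] x)) : coc T φ d x = coc T ψ d x := by
  induction d with
  | zero => rfl
  | succ d ih =>
    rw [coc_succ, coc_succ, ih (fun j hj => h j (by omega)), h d (by omega)]

/-- skew map -/
def sk (T : X → X) (φ : X → Equiv.Perm (Fin n)) (p : X × Fin n) : X × Fin n := (T p.1, φ p.1 p.2)

theorem sk_iter (T : X → X) (φ : X → Equiv.Perm (Fin n)) (d : ℕ) (p : X × Fin n) :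
    (sk T φ)^[d] p = (T^[d] p.1, coc T φ d p.1 p.2) := by
  induction d with
  | zero => rfl
  | succ d ih =>
    rw [Function.iterate_succ_apply', ih, Function.iterate_succ_apply', coc_succ]
    rfl

section rand

variable {C : Type*} [Fintype C] [DecidableEq C]

open Classical in
/-- perturbation by `σ` on `A` -/
noncomputable def pert (φ0 : X → Equiv.Perm (Fin n)) (A : Set X) (q : X → C)
    (σ : C → Equiv.Perm (Fin n)) (x : X) : Equiv.Perm (Fin n) :=
  if x ∈ A then φ0 x * σ (q x) else φ0 x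

theorem pert_same (φ0 : X → Equiv.Perm (Fin n)) (A : Set X) (q : X → C)
    (σ : C → Equiv.Perm (Fin n)) (c : C) (τ : Equiv.Perm (Fin n)) (x : X) (h : ¬ (x ∈ A ∧ q x = c)) :
    pert φ0 A q (σ * Pi.mulSingle c τ) x = pert φ0 A q σ x := by
  unfold pert
  by_cases hx : x ∈ A
  · rw [if_pos hx, if_pos hx]
    have hc : q x ≠ c := fun hc => h ⟨hx, hc⟩
    rw [Pi.mul_apply, Pi.mulSingle_eq_of_ne hc, mul_one]
  · rw [if_neg hx, if_neg hx]

theorem pert_hit (φ0 : X → Equiv.Perm (Fin n)) (A : Set X) (q : X → C)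
    (σ : C → Equiv.Perm (Fin n)) (c : C) (τ : Equiv.Perm (Fin n)) (x : X) (hx : x ∈ A) (hc : q x = c) :
    pert φ0 A q (σ * Pi.mulSingle c τ) x = (φ0 x * σ c) * τ := by
  unfold pert
  rw [if_pos hx, Pi.mul_apply, hc, Pi.mulSingle_eq_same, mul_assoc]

theorem coc_same (T : X → X) (φ0 : X → Equiv.Perm (Fin n)) (A : Set X) (q : X → C)
    (σ : C → Equiv.Perm (Fin n)) (c : C) (τ : Equiv.Perm (Fin n)) (d : ℕ) (x : X)
    (h : ∀ j < d, ¬ (T^[j] x ∈ A ∧ q (T^[j] x) = c)) :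
    coc T (pert φ0 A q (σ * Pi.mulSingle c τ)) d x = coc T (pert φ0 A q σ) d x :=
  coc_congr _ _ _ _ _ (fun j hj => pert_same _ _ _ _ _ _ _ (h j hj))

theorem coc_hit (T : X → X) (φ0 : X → Equiv.Perm (Fin n)) (A : Set X) (q : X → C)
    (σ : C → Equiv.Perm (Fin n)) (c : C) (d : ℕ) (x : X) (j : ℕ) (hj : j < d)
    (hA : T^[j] x ∈ A) (hc : q (T^[j] x) = c)
    (h : ∀ j' < d, j' ≠ j → ¬ (T^[j'] x ∈ A ∧ q (T^[j'] x) = c)) :
    ∃ P Q : Equiv.Perm (Fin n), ∀ τ : Equiv.Perm (Fin n),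
      coc T (pert φ0 A q (σ * Pi.mulSingle c τ)) d x = P * τ * Q := by
  obtain ⟨e, rfl⟩ : ∃ e, d = e + (j + 1) := ⟨d - (j + 1), by omega⟩
  refine ⟨coc T (pert φ0 A q σ) e (T^[j + 1] x) * (φ0 (T^[j] x) * σ c), coc T (pert φ0 A q σ) j x, fun τ => ?_⟩
  rw [coc_add, coc_succ, pert_hit _ _ _ _ _ _ _ hA hc, coc_same T φ0 A q σ c τ j x, coc_same T φ0 A q σ c τ e _]
  · group
  · intro i hi
    rw [← Function.iterate_add_apply]
    exact h _ (by omega) (by omega)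
  · intro i hi
    exact h _ (by omega) (by omega)

theorem sum_perm (h : Fin n → ℝ) (b : Fin n) :
    (n : ℝ) * ∑ τ : Equiv.Perm (Fin n), h (τ b) = (Fintype.card (Equiv.Perm (Fin n)) : ℝ) * ∑ a, h a := by
  have h1 : ∀ b', ∑ τ : Equiv.Perm (Fin n), h (τ b') = ∑ τ : Equiv.Perm (Fin n), h (τ b) := by
    intro b'
    rw [← Equiv.sum_comp (Equiv.mulRight (Equiv.swap b b'))]
    apply Finset.sum_congr rfl
    intro τ _
    simp [Equiv.Perm.mul_apply]
  have h2 : ∑ b' : Fin n, ∑ τ : Equiv.Perm (Fin n), h (τ b') = (n : ℝ) * ∑ τ : Equiv.Perm (Fin n), h (τ b) := by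
    rw [Finset.sum_congr rfl (fun b' _ => h1 b')]
    simp
  rw [← h2, Finset.sum_comm]
  rw [Finset.sum_congr rfl (fun τ _ => Equiv.sum_comp τ h)]
  simp

/-- fibre average -/
noncomputable def bar (g : X → Fin n → ℝ) (x : X) : ℝ := (1 / (n : ℝ)) * ∑ a, g x a

/-- the deviation -/
noncomputable def dev (T : X → X) (g : X → Fin n → ℝ) (d : ℕ) (φ : X → Equiv.Perm (Fin n)) (x : X) : ℝ :=
  (1 / (n : ℝ)) * ∑ a, g (T^[d] x) (coc T φ d x a) * g x a - bar g (T^[d] x) * bar g x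

theorem bar_nonneg (g : X → Fin n → ℝ) (hg0 : ∀ x a, 0 ≤ g x a) (x : X) : 0 ≤ bar g x := by
  unfold bar
  have : 0 ≤ ∑ a, g x a := Finset.sum_nonneg (fun a _ => hg0 x a)
  positivity

theorem bar_le (g : X → Fin n → ℝ) (hg1 : ∀ x a, g x a ≤ 1) (x : X) : bar g x ≤ 1 := by
  unfold bar
  have h1 : ∑ a, g x a ≤ ∑ a : Fin n, (1 : ℝ) := Finset.sum_le_sum (fun a _ => hg1 x a)
  rw [Finset.sum_const, Finset.card_univ, Fintype.card_fin, nsmul_eq_mul, mul_one] at h1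
  rcases Nat.eq_zero_or_pos n with h | h
  · subst h
    simp
  · have : (0 : ℝ) < n := by exact_mod_cast h
    rw [one_div, inv_mul_le_iff₀ this]
    linarith

theorem dev_abs (T : X → X) (g : X → Fin n → ℝ) (hg0 : ∀ x a, 0 ≤ g x a) (hg1 : ∀ x a, g x a ≤ 1)
    (d : ℕ) (φ : X → Equiv.Perm (Fin n)) (x : X) : |dev T g d φ x| ≤ 1 := by
  have h1 := bar_nonneg (fun x a => g (T^[d] x) (coc T φ d x a) * g x a)
    (fun x a => mul_nonneg (hg0 _ _) (hg0 _ _)) x
  have h2 := bar_le (fun x a => g (T^[d] x) (coc T φ d x a) * g x a)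
    (fun x a => mul_le_one₀ (hg1 _ _) (hg0 _ _) (hg1 _ _)) x
  have h3 := bar_nonneg g hg0 x
  have h4 := bar_le g hg1 x
  have h5 := bar_nonneg g hg0 (T^[d] x)
  have h6 := bar_le g hg1 (T^[d] x)
  have h7 : 0 ≤ bar g (T^[d] x) * bar g x := mul_nonneg h5 h3
  have h8 : bar g (T^[d] x) * bar g x ≤ 1 := mul_le_one₀ h6 h3 h4
  have h9 : dev T g d φ x = bar (fun x a => g (T^[d] x) (coc T φ d x a) * g x a) x - bar g (T^[d] x) * bar g x := rfl
  rw [h9, abs_le]
  constructor <;> linarith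

/-- averaging over the value on a cell hit exactly once kills the deviation -/
theorem dev_kill [NeZero n] (T : X → X) (g : X → Fin n → ℝ) (φ0 : X → Equiv.Perm (Fin n)) (A : Set X) (q : X → C)
    (σ : C → Equiv.Perm (Fin n)) (c : C) (d : ℕ) (x : X) (j : ℕ) (hj : j < d)
    (hA : T^[j] x ∈ A) (hc : q (T^[j] x) = c)
    (h : ∀ j' < d, j' ≠ j → ¬ (T^[j'] x ∈ A ∧ q (T^[j'] x) = c)) :
    ∑ τ : Equiv.Perm (Fin n), dev T g d (pert φ0 A q (σ * Pi.mulSingle c τ)) x = 0 := by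
  obtain ⟨P, Q, hPQ⟩ := coc_hit T φ0 A q σ c d x j hj hA hc h
  have hn : (0 : ℝ) < n := by exact_mod_cast NeZero.pos n
  unfold dev
  rw [Finset.sum_sub_distrib, Finset.sum_const, ← Finset.mul_sum, Finset.sum_comm]
  have h1 : ∀ a : Fin n, (n : ℝ) * ∑ τ : Equiv.Perm (Fin n),
      g (T^[d] x) (coc T (pert φ0 A q (σ * Pi.mulSingle c τ)) d x a) * g x a =
      ((Fintype.card (Equiv.Perm (Fin n)) : ℝ) * ∑ a', g (T^[d] x) a') * g x a := by
    intro a
    rw [← Finset.sum_mul, ← mul_assoc]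
    congr 1
    have h2 := sum_perm (fun b => g (T^[d] x) (P b)) (Q a)
    have h3 : ∑ a', g (T^[d] x) (P a') = ∑ a', g (T^[d] x) a' := Equiv.sum_comp P (fun b => g (T^[d] x) b)
    rw [h3] at h2
    rw [← h2]
    congr 1
    apply Finset.sum_congr rfl
    intro τ _
    rw [hPQ τ]
    rfl
  have h4 : (n : ℝ) * ∑ a : Fin n, ∑ τ : Equiv.Perm (Fin n),
      g (T^[d] x) (coc T (pert φ0 A q (σ * Pi.mulSingle c τ)) d x a) * g x a =
      ((Fintype.card (Equiv.Perm (Fin n)) : ℝ) * ∑ a', g (T^[d] x) a') * ∑ a, g x a := by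
    rw [Finset.mul_sum, Finset.sum_congr rfl (fun a _ => h1 a), ← Finset.mul_sum]
  unfold bar
  rw [Finset.card_univ, nsmul_eq_mul]
  have h5 : ∑ a : Fin n, ∑ τ : Equiv.Perm (Fin n),
      g (T^[d] x) (coc T (pert φ0 A q (σ * Pi.mulSingle c τ)) d x a) * g x a =
      (1 / (n : ℝ)) * (((Fintype.card (Equiv.Perm (Fin n)) : ℝ) * ∑ a', g (T^[d] x) a') * ∑ a, g x a) := by
    rw [← h4]
    field_simp
  rw [h5]
  ring

theorem dev_same (T : X → X) (g : X → Fin n → ℝ) (φ0 : X → Equiv.Perm (Fin n)) (A : Set X) (q : X → C)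
    (σ : C → Equiv.Perm (Fin n)) (c : C) (τ : Equiv.Perm (Fin n)) (d : ℕ) (x : X)
    (h : ∀ j < d, ¬ (T^[j] x ∈ A ∧ q (T^[j] x) = c)) :
    dev T g d (pert φ0 A q (σ * Pi.mulSingle c τ)) x = dev T g d (pert φ0 A q σ) x := by
  unfold dev
  rw [coc_same T φ0 A q σ c τ d x h]

/-- decorrelation -/
theorem dev_orth [NeZero n] (T : X → X) (g : X → Fin n → ℝ) (φ0 : X → Equiv.Perm (Fin n)) (A : Set X) (q : X → C)
    (d : ℕ) (x x' : X) (j : ℕ) (hj : j < d) (hA : T^[j] x ∈ A)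
    (h : ∀ j' < d, j' ≠ j → q (T^[j'] x) ≠ q (T^[j] x))
    (h' : ∀ j' < d, q (T^[j'] x') ≠ q (T^[j] x)) :
    ∑ σ : C → Equiv.Perm (Fin n), dev T g d (pert φ0 A q σ) x * dev T g d (pert φ0 A q σ) x' = 0 := by
  set c := q (T^[j] x) with hc
  have h1 : ∀ τ : Equiv.Perm (Fin n),
      ∑ σ : C → Equiv.Perm (Fin n), dev T g d (pert φ0 A q σ) x * dev T g d (pert φ0 A q σ) x' =
      ∑ σ : C → Equiv.Perm (Fin n), dev T g d (pert φ0 A q (σ * Pi.mulSingle c τ)) x * dev T g d (pert φ0 A q σ) x' := by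
    intro τ
    rw [← Equiv.sum_comp (Equiv.mulRight (Pi.mulSingle c τ : C → Equiv.Perm (Fin n)))]
    apply Finset.sum_congr rfl
    intro σ _
    rw [Equiv.coe_mulRight]
    rw [dev_same T g φ0 A q σ c τ d x' (fun j' hj' hh => h' j' hj' hh.2)]
  have h2 : ∑ τ : Equiv.Perm (Fin n),
      ∑ σ : C → Equiv.Perm (Fin n), dev T g d (pert φ0 A q σ) x * dev T g d (pert φ0 A q σ) x' = 0 := by
    rw [Finset.sum_congr rfl (fun τ _ => h1 τ), Finset.sum_comm]
    apply Finset.sum_eq_zero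
    intro σ _
    rw [← Finset.sum_mul, dev_kill T g φ0 A q σ c d x j hj hA hc.symm (fun j' hj' hne hh => h j' hj' hne hh.2), zero_mul]
  rw [Finset.sum_const, nsmul_eq_mul] at h2
  rcases mul_eq_zero.1 h2 with h3 | h3
  · exfalso
    have : (Finset.univ : Finset (Equiv.Perm (Fin n))).card ≠ 0 := by
      rw [Finset.card_univ]
      exact Fintype.card_ne_zero
    exact this (by exact_mod_cast h3)
  · exact h3

end rand

end Pool.H359R3.MX
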