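import Mathlib
import Pool.Agent.H359R3.MX1

set_option autoImplicit false
set_option linter.unusedSectionVars false
set_option linter.unusedVariables false

/-!
Second moment bound for random perturbations of permutation valued functions.
-/

namespace Pool.H359R3.MX

open MeasureTheory Set Filter Topology
open scoped ENNReal

variable {X : Type*} [MeasurableSpace X] {n : ℕ}

/-- measurability of a permutation valued function -/
def Ms (φ : X → Equiv.Perm (Fin n)) : Prop := ∀ a, Measurable fun x => φ x a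

theorem meas_unc {β : Type*} [MeasurableSpace β] (g : X → Fin n → β) (hg : ∀ a, Measurable fun x => g x a) :
    Measurable (fun p : X × Fin n => g p.1 p.2) :=
  measurable_from_prod_countable_left hg

theorem coc_ms (T : X → X) (hT : Measurable T) (φ : X → Equiv.Perm (Fin n)) (hφ : Ms φ) (d : ℕ) :
    Ms (coc T φ d) := by
  induction d with
  | zero => intro a; exact measurable_const
  | succ d ih =>
    intro a
    have h1 := meas_unc (fun x => φ x) hφ
    exact h1.comp ((hT.iterate d).prodMk (ih a))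

theorem pert_ms {C : Type*} [Fintype C] [DecidableEq C] [MeasurableSpace C] [MeasurableSingletonClass C]
    (φ0 : X → Equiv.Perm (Fin n)) (h0 : Ms φ0) (A : Set X) (hA : MeasurableSet A) (q : X → C) (hq : Measurable q)
    (σ : C → Equiv.Perm (Fin n)) : Ms (pert φ0 A q σ) := by
  classical
  intro a
  have h1 := meas_unc (fun x => φ0 x) h0
  have h2 : (fun x => pert φ0 A q σ x a) = fun x => if x ∈ A then φ0 x (σ (q x) a) else φ0 x a := by
    funext x
    unfold pert
    split_ifs <;> rfl
  rw [h2]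
  refine Measurable.ite hA ?_ (h0 a)
  exact h1.comp (measurable_id.prodMk ((measurable_of_countable (fun c => σ c a)).comp hq))

theorem bar_meas (g : X → Fin n → ℝ) (hg : ∀ a, Measurable fun x => g x a) : Measurable (bar g) := by
  unfold bar
  exact (Finset.measurable_sum _ (fun a _ => hg a)).const_mul _

theorem cor_meas (T : X → X) (hT : Measurable T) (g : X → Fin n → ℝ) (hg : ∀ a, Measurable fun x => g x a)
    (φ : X → Equiv.Perm (Fin n)) (hφ : Ms φ) (d : ℕ) (a : Fin n) :
    Measurable (fun x => g (T^[d] x) (coc T φ d x a)) :=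
  (meas_unc g hg).comp ((hT.iterate d).prodMk (coc_ms T hT φ hφ d a))

theorem dev_meas (T : X → X) (hT : Measurable T) (g : X → Fin n → ℝ) (hg : ∀ a, Measurable fun x => g x a)
    (φ : X → Equiv.Perm (Fin n)) (hφ : Ms φ) (d : ℕ) : Measurable (dev T g d φ) := by
  unfold dev
  refine Measurable.sub ?_ ?_
  · refine Measurable.const_mul (Finset.measurable_sum _ (fun a _ => ?_)) _
    exact (cor_meas T hT g hg φ hφ d a).mul (hg a)
  · exact ((bar_meas g hg).comp (hT.iterate d)).mul (bar_meas g hg)

variable (μ : Measure X) [IsProbabilityMeasure μ]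

theorem integrable_of_abs_le {f : X → ℝ} (hf : Measurable f) (B : ℝ) (h : ∀ x, |f x| ≤ B) : Integrable f μ :=
  Integrable.of_bound hf.aestronglyMeasurable B (Eventually.of_forall (fun x => by rw [Real.norm_eq_abs]; exact h x))

/-- the set of good pairs -/
def Good {C : Type*} (T : X → X) (A : Set X) (q : X → C) (d : ℕ) : Set (X × X) :=
  {p | ∃ j < d, T^[j] p.1 ∈ A ∧ (∀ j' < d, j' ≠ j → q (T^[j'] p.1) ≠ q (T^[j] p.1)) ∧
    (∀ j' < d, q (T^[j'] p.2) ≠ q (T^[j] p.1))}

theorem second_moment {C : Type*} [Fintype C] [DecidableEq C] [MeasurableSpace C] [MeasurableSingletonClass C]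
    [NeZero n] (T : X → X) (hT : Measurable T) (g : X → Fin n → ℝ) (hg : ∀ a, Measurable fun x => g x a)
    (hg0 : ∀ x a, 0 ≤ g x a) (hg1 : ∀ x a, g x a ≤ 1)
    (φ0 : X → Equiv.Perm (Fin n)) (h0 : Ms φ0) (A : Set X) (hA : MeasurableSet A) (q : X → C) (hq : Measurable q)
    (d : ℕ) (W : Set (X × X)) (hW : MeasurableSet W) (hWG : (Good T A q d)ᶜ ⊆ W) :
    ∑ σ : C → Equiv.Perm (Fin n), (∫ x, dev T g d (pert φ0 A q σ) x ∂μ) ^ 2 ≤
      (Fintype.card (C → Equiv.Perm (Fin n)) : ℝ) * (μ.prod μ).real W := by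
  classical
  have hm : ∀ σ, Measurable (dev T g d (pert φ0 A q σ)) := fun σ =>
    dev_meas T hT g hg _ (pert_ms φ0 h0 A hA q hq σ) d
  have hab := fun (σ : C → Equiv.Perm (Fin n)) (x : X) => dev_abs T g hg0 hg1 d (pert φ0 A q σ) x
  have h1 : ∀ σ, (∫ x, dev T g d (pert φ0 A q σ) x ∂μ) ^ 2 =
      ∫ p : X × X, dev T g d (pert φ0 A q σ) p.1 * dev T g d (pert φ0 A q σ) p.2 ∂(μ.prod μ) := by
    intro σ
    rw [sq, ← integral_prod_mul]
  rw [Finset.sum_congr rfl (fun σ _ => h1 σ), ← integral_finset_sum]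
  · have h2 : ∀ p : X × X, ∑ σ : C → Equiv.Perm (Fin n),
        dev T g d (pert φ0 A q σ) p.1 * dev T g d (pert φ0 A q σ) p.2 ≤
        W.indicator (fun _ => (Fintype.card (C → Equiv.Perm (Fin n)) : ℝ)) p := by
      intro p
      by_cases hp : p ∈ Good T A q d
      · obtain ⟨j, hj, hjA, h3, h4⟩ := hp
        rw [dev_orth T g φ0 A q d p.1 p.2 j hj hjA h3 h4]
        apply indicator_nonneg
        intro _ _
        positivity
      · rw [indicator_of_mem (hWG hp)]
        calc ∑ σ : C → Equiv.Perm (Fin n),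
            dev T g d (pert φ0 A q σ) p.1 * dev T g d (pert φ0 A q σ) p.2 ≤
            ∑ σ : C → Equiv.Perm (Fin n), (1 : ℝ) := by
              apply Finset.sum_le_sum
              intro σ _
              have h5 := hab σ p.1
              have h6 := hab σ p.2
              calc _ ≤ |dev T g d (pert φ0 A q σ) p.1 * dev T g d (pert φ0 A q σ) p.2| := le_abs_self _
                _ = |dev T g d (pert φ0 A q σ) p.1| * |dev T g d (pert φ0 A q σ) p.2| := abs_mul _ _
                _ ≤ 1 := mul_le_one₀ h5 (abs_nonneg _) h6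
          _ = _ := by rw [Finset.sum_const, Finset.card_univ, nsmul_eq_mul, mul_one]
    calc _ ≤ ∫ p, W.indicator (fun _ => (Fintype.card (C → Equiv.Perm (Fin n)) : ℝ)) p ∂(μ.prod μ) := by
          apply integral_mono
          · refine integrable_of_abs_le _ (Finset.measurable_sum _ (fun σ _ =>
              ((hm σ).comp measurable_fst).mul ((hm σ).comp measurable_snd)))
              (Fintype.card (C → Equiv.Perm (Fin n)) : ℝ) (fun p => ?_)
            calc |∑ σ : C → Equiv.Perm (Fin n), dev T g d (pert φ0 A q σ) p.1 * dev T g d (pert φ0 A q σ) p.2| ≤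
                ∑ σ : C → Equiv.Perm (Fin n), |dev T g d (pert φ0 A q σ) p.1 * dev T g d (pert φ0 A q σ) p.2| :=
                  Finset.abs_sum_le_sum_abs _ _
              _ ≤ ∑ σ : C → Equiv.Perm (Fin n), (1 : ℝ) := by
                  apply Finset.sum_le_sum
                  intro σ _
                  rw [abs_mul]
                  exact mul_le_one₀ (hab σ p.1) (abs_nonneg _) (hab σ p.2)
              _ = _ := by rw [Finset.sum_const, Finset.card_univ, nsmul_eq_mul, mul_one]
          · exact (integrable_const _).indicator hW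
          · exact h2
      _ = _ := by
          rw [integral_indicator hW, setIntegral_const, smul_eq_mul, mul_comm]
  · intro σ _
    refine integrable_of_abs_le _ (((hm σ).comp measurable_fst).mul ((hm σ).comp measurable_snd)) 1 (fun p => ?_)
    show |dev T g d (pert φ0 A q σ) p.1 * dev T g d (pert φ0 A q σ) p.2| ≤ 1
    rw [abs_mul]
    exact mul_le_one₀ (hab σ p.1) (abs_nonneg _) (hab σ p.2)

/-- the bad set and its measure -/
theorem bad_small {C : Type*} [Fintype C] [DecidableEq C] [MeasurableSpace C] [MeasurableSingletonClass C]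
    (T : X → X) (hT : MeasurePreserving T μ μ) (A : Set X) (hA : MeasurableSet A) (q : X → C) (hq : Measurable q)
    (L : ℕ) (κ : ℝ) (hκ1 : ∀ e, 1 ≤ e → e < L → μ.real {x | q x = q (T^[e] x)} ≤ κ)
    (hκ2 : (μ.prod μ).real {p : X × X | q p.1 = q p.2} ≤ κ) (d : ℕ) (hd : d ≤ L) :
    ∃ W : Set (X × X), MeasurableSet W ∧ (Good T A q d)ᶜ ⊆ W ∧
      (μ.prod μ).real W ≤ μ.real {x | ∀ j < d, T^[j] x ∉ A} + 2 * (L : ℝ) ^ 2 * κ := by
  classical
  have hκ0 : 0 ≤ κ := le_trans measureReal_nonneg hκ2
  have hTi : ∀ j, Measurable (T^[j]) := fun j => hT.measurable.iterate j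
  let E : Set (X × X) := Prod.fst ⁻¹' {x | ∀ j < d, T^[j] x ∉ A}
  have hE0 : MeasurableSet {x | ∀ j < d, T^[j] x ∉ A} := by
    have : {x | ∀ j < d, T^[j] x ∉ A} = ⋂ j ∈ Finset.range d, (T^[j] ⁻¹' A)ᶜ := by
      ext x; simp
    rw [this]
    exact Finset.measurableSet_biInter _ (fun j _ => ((hTi j) hA).compl)
  let F : ℕ × ℕ → Set (X × X) := fun r => Prod.fst ⁻¹' {x | r.1 ≠ r.2 ∧ q (T^[r.1] x) = q (T^[r.2] x)}
  let G : ℕ × ℕ → Set (X × X) := fun r => {p | q (T^[r.1] p.1) = q (T^[r.2] p.2)}
  have hF0 : ∀ r : ℕ × ℕ, MeasurableSet {x | r.1 ≠ r.2 ∧ q (T^[r.1] x) = q (T^[r.2] x)} := by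
    intro r
    by_cases h : r.1 ≠ r.2
    · simp only [h, true_and, ne_eq, not_false_eq_true]
      exact measurableSet_eq_fun (hq.comp (hTi _)) (hq.comp (hTi _))
    · simp [h]
  have hG0 : ∀ r : ℕ × ℕ, MeasurableSet (G r) := fun r =>
    measurableSet_eq_fun ((hq.comp (hTi _)).comp measurable_fst) ((hq.comp (hTi _)).comp measurable_snd)
  let J := Finset.range L ×ˢ Finset.range L
  refine ⟨E ∪ ((⋃ r ∈ J, F r) ∪ ⋃ r ∈ J, G r), ?_, ?_, ?_⟩
  · refine (measurable_fst hE0).union ((Finset.measurableSet_biUnion _ (fun r _ => measurable_fst (hF0 r))).union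
      (Finset.measurableSet_biUnion _ (fun r _ => hG0 r)))
  · intro p hp
    by_contra hc
    rw [mem_union, mem_union, not_or, not_or] at hc
    obtain ⟨h1, h2, h3⟩ := hc
    apply hp
    have h1' : ¬ (∀ j < d, T^[j] p.1 ∉ A) := h1
    push Not at h1'
    obtain ⟨j, hj, hjA⟩ := h1'
    refine ⟨j, hj, hjA, ?_, ?_⟩
    · intro j' hj' hne heq
      apply h2
      simp only [mem_iUnion]
      refine ⟨(j', j), ?_, hne, heq⟩
      simp only [J, Finset.mem_product, Finset.mem_range]
      omega
    · intro j' hj' heq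
      apply h3
      simp only [mem_iUnion]
      refine ⟨(j, j'), ?_, heq.symm⟩
      simp only [J, Finset.mem_product, Finset.mem_range]
      omega
  · have hfst : MeasurePreserving (Prod.fst : X × X → X) (μ.prod μ) μ := measurePreserving_fst
    have e1 : (μ.prod μ).real E = μ.real {x | ∀ j < d, T^[j] x ∉ A} := by
      rw [measureReal_def, measureReal_def, hfst.measure_preimage hE0.nullMeasurableSet]
    have key : ∀ a b : ℕ, a < b → b < L → μ.real {x | q (T^[a] x) = q (T^[b] x)} ≤ κ := by
      intro a b hab hbL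
      have h4 : {x | q (T^[a] x) = q (T^[b] x)} = T^[a] ⁻¹' {x | q x = q (T^[b - a] x)} := by
        ext x
        show q (T^[a] x) = q (T^[b] x) ↔ q (T^[a] x) = q (T^[b - a] (T^[a] x))
        rw [← Function.iterate_add_apply, Nat.sub_add_cancel hab.le]
      have h5 : MeasurableSet {x | q x = q (T^[b - a] x)} := measurableSet_eq_fun hq (hq.comp (hTi _))
      rw [h4, measureReal_def, (hT.iterate a).measure_preimage h5.nullMeasurableSet, ← measureReal_def]
      exact hκ1 (b - a) (by omega) (by omega)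
    have e2 : ∀ r ∈ J, (μ.prod μ).real (F r) ≤ κ := by
      intro r hr
      simp only [J, Finset.mem_product, Finset.mem_range] at hr
      have : (μ.prod μ).real (F r) = μ.real {x | r.1 ≠ r.2 ∧ q (T^[r.1] x) = q (T^[r.2] x)} := by
        rw [measureReal_def, measureReal_def, hfst.measure_preimage (hF0 r).nullMeasurableSet]
      rw [this]
      rcases lt_trichotomy r.1 r.2 with h | h | h
      · exact le_trans (measureReal_mono (fun x hx => hx.2)) (key _ _ h hr.2)
      · have : {x | r.1 ≠ r.2 ∧ q (T^[r.1] x) = q (T^[r.2] x)} = ∅ := by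
          ext x; simp [h]
        rw [this]
        simpa using hκ0
      · refine le_trans (measureReal_mono (fun x hx => ?_)) (key _ _ h hr.1)
        exact hx.2.symm
    have e3 : ∀ r ∈ J, (μ.prod μ).real (G r) ≤ κ := by
      intro r _
      have h6 : G r = Prod.map (T^[r.1]) (T^[r.2]) ⁻¹' {p : X × X | q p.1 = q p.2} := rfl
      have h7 : MeasurableSet {p : X × X | q p.1 = q p.2} :=
        measurableSet_eq_fun (hq.comp measurable_fst) (hq.comp measurable_snd)
      have h8 : MeasurePreserving (Prod.map (T^[r.1]) (T^[r.2])) (μ.prod μ) (μ.prod μ) :=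
        (hT.iterate r.1).prod (hT.iterate r.2)
      rw [h6, measureReal_def, h8.measure_preimage h7.nullMeasurableSet, ← measureReal_def]
      exact hκ2
    have hcard : ((J.card : ℕ) : ℝ) = (L : ℝ) ^ 2 := by
      simp only [J, Finset.card_product, Finset.card_range]
      push_cast
      ring
    have e4 : (μ.prod μ).real (⋃ r ∈ J, F r) ≤ (L : ℝ) ^ 2 * κ := by
      refine le_trans (measureReal_biUnion_finset_le _ _) ?_
      refine le_trans (Finset.sum_le_sum e2) ?_
      rw [Finset.sum_const, nsmul_eq_mul, hcard]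
    have e5 : (μ.prod μ).real (⋃ r ∈ J, G r) ≤ (L : ℝ) ^ 2 * κ := by
      refine le_trans (measureReal_biUnion_finset_le _ _) ?_
      refine le_trans (Finset.sum_le_sum e3) ?_
      rw [Finset.sum_const, nsmul_eq_mul, hcard]
    calc _ ≤ (μ.prod μ).real E + (μ.prod μ).real ((⋃ r ∈ J, F r) ∪ ⋃ r ∈ J, G r) := measureReal_union_le _ _
      _ ≤ (μ.prod μ).real E + ((μ.prod μ).real (⋃ r ∈ J, F r) + (μ.prod μ).real (⋃ r ∈ J, G r)) := by
          gcongr
          exact measureReal_union_le _ _
      _ ≤ _ := by rw [e1]; linarith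

end Pool.H359R3.MX
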