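import Mathlib
import Pool.Agent.H359R3.MX2

set_option autoImplicit false
set_option linter.unusedSectionVars false
set_option linter.unusedVariables false

/-!
Existence of perturbations with small average correlations.
-/

namespace Pool.H359R3.MX

open MeasureTheory Set Filter Topology
open scoped ENNReal

variable {X : Type*} [MeasurableSpace X] {n : ℕ}

variable (μ : Measure X) [IsProbabilityMeasure μ]

/-- autocorrelation of the skew product -/
noncomputable def gam (T : X → X) (g : X → Fin n → ℝ) (φ : X → Equiv.Perm (Fin n)) (d : ℕ) : ℝ :=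
  ∫ x, bar (fun x a => g (T^[d] x) (coc T φ d x a) * g x a) x ∂μ

/-- two-time correlation -/
noncomputable def gam2 (T : X → X) (g : X → Fin n → ℝ) (φ : X → Equiv.Perm (Fin n)) (l l' : ℕ) : ℝ :=
  ∫ x, bar (fun x a => g (T^[l] x) (coc T φ l x a) * g (T^[l'] x) (coc T φ l' x a)) x ∂μ

theorem bar_int_mem (g : X → Fin n → ℝ) (hg : ∀ a, Measurable fun x => g x a)
    (hg0 : ∀ x a, 0 ≤ g x a) (hg1 : ∀ x a, g x a ≤ 1) :
    0 ≤ ∫ x, bar g x ∂μ ∧ ∫ x, bar g x ∂μ ≤ 1 := by
  refine ⟨integral_nonneg (bar_nonneg g hg0), ?_⟩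
  have h1 : ∫ x, bar g x ∂μ ≤ ∫ x, (1 : ℝ) ∂μ := by
    apply integral_mono _ (integrable_const _) (bar_le g hg1)
    refine integrable_of_abs_le μ (bar_meas g hg) 1 (fun x => ?_)
    rw [abs_of_nonneg (bar_nonneg g hg0 x)]
    exact bar_le g hg1 x
  simpa using h1

theorem int_dev (T : X → X) (hT : Measurable T) (g : X → Fin n → ℝ) (hg : ∀ a, Measurable fun x => g x a)
    (hg0 : ∀ x a, 0 ≤ g x a) (hg1 : ∀ x a, g x a ≤ 1)
    (φ : X → Equiv.Perm (Fin n)) (hφ : Ms φ) (d : ℕ) :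
    ∫ x, dev T g d φ x ∂μ = gam μ T g φ d - ∫ x, bar g (T^[d] x) * bar g x ∂μ := by
  unfold gam
  rw [← integral_sub]
  · rfl
  · refine integrable_of_abs_le μ (bar_meas _ (fun a => (cor_meas T hT g hg φ hφ d a).mul (hg a))) 1 (fun x => ?_)
    rw [abs_of_nonneg (bar_nonneg _ (fun x a => mul_nonneg (hg0 _ _) (hg0 _ _)) x)]
    exact bar_le _ (fun x a => mul_le_one₀ (hg1 _ _) (hg0 _ _) (hg1 _ _)) x
  · refine integrable_of_abs_le μ (((bar_meas g hg).comp (hT.iterate d)).mul (bar_meas g hg)) 1 (fun x => ?_)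
    rw [abs_of_nonneg (mul_nonneg (bar_nonneg g hg0 _) (bar_nonneg g hg0 x))]
    exact mul_le_one₀ (bar_le g hg1 _) (bar_nonneg g hg0 x) (bar_le g hg1 x)

theorem wm_exists [NeZero n] (T : X → X) (hT : MeasurePreserving T μ μ) (A : Set X) (hA : MeasurableSet A)
    (hhit : ∀ η : ℝ, 0 < η → ∃ l0 : ℕ, ∀ d ≥ l0, μ.real {x | ∀ j < d, T^[j] x ∉ A} ≤ η)
    (hcell : ∀ (L : ℕ) (κ : ℝ), 0 < κ → ∃ (r : ℕ) (q : X → Fin r → Bool), Measurable q ∧
      (∀ e, 1 ≤ e → e < L → μ.real {x | q x = q (T^[e] x)} ≤ κ) ∧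
      (μ.prod μ).real {p : X × X | q p.1 = q p.2} ≤ κ)
    {ι : Type*} [Fintype ι] (g : ι → X → Fin n → ℝ) (hg : ∀ i a, Measurable fun x => g i x a)
    (hg0 : ∀ i x a, 0 ≤ g i x a) (hg1 : ∀ i x a, g i x a ≤ 1)
    (hβ : ∀ i, Tendsto (fun d : ℕ => ∫ x, bar (g i) (T^[d] x) * bar (g i) x ∂μ) atTop
      (𝓝 ((∫ x, bar (g i) x ∂μ) ^ 2)))
    (φ0 : X → Equiv.Perm (Fin n)) (h0 : Ms φ0) (ε : ℝ) (hε : 0 < ε) :
    ∃ φ : X → Equiv.Perm (Fin n), Ms φ ∧ (∀ x ∉ A, φ x = φ0 x) ∧ ∃ L : ℕ, 0 < L ∧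
      ∑ i, ∑ d ∈ Finset.range L, (gam μ T (g i) φ d - (∫ x, bar (g i) x ∂μ) ^ 2) ^ 2 ≤ ε * L := by
  classical
  set K : ℝ := (Fintype.card ι : ℝ) with hK
  have hK0 : 0 ≤ K := by rw [hK]; positivity
  obtain ⟨η, hη0, hη1, hηε⟩ : ∃ η : ℝ, 0 < η ∧ η ≤ 1 ∧ 10 * K * η ≤ ε := by
    refine ⟨min 1 (ε / (10 * (K + 1))), lt_min one_pos (by positivity), min_le_left _ _, ?_⟩
    have h1 : min 1 (ε / (10 * (K + 1))) ≤ ε / (10 * (K + 1)) := min_le_right _ _
    calc 10 * K * min 1 (ε / (10 * (K + 1))) ≤ 10 * (K + 1) * (ε / (10 * (K + 1))) := by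
          gcongr
          linarith
      _ = ε := by field_simp
  obtain ⟨l0, hl0⟩ := hhit η hη0
  have h1 : ∀ i, ∃ l1 : ℕ, ∀ d ≥ l1, |(∫ x, bar (g i) (T^[d] x) * bar (g i) x ∂μ) - (∫ x, bar (g i) x ∂μ) ^ 2| ≤ η := by
    intro i
    have h2 := Metric.tendsto_atTop.1 (hβ i) η hη0
    obtain ⟨l1, hl1⟩ := h2
    refine ⟨l1, fun d hd => ?_⟩
    have h3 := hl1 d hd
    rw [Real.dist_eq] at h3
    exact h3.le
  choose l1 hl1 using h1
  set l2 := l0 + ∑ i, l1 i with hl2
  obtain ⟨L0, hL0⟩ := exists_nat_gt ((l2 : ℝ) / η)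
  set L := L0 + 1 with hL
  have hLpos : 0 < L := by omega
  have hLr : (0 : ℝ) < L := by exact_mod_cast hLpos
  have hl2L : (l2 : ℝ) ≤ η * L := by
    rw [div_lt_iff₀ hη0] at hL0
    have : (L : ℝ) = L0 + 1 := by rw [hL]; push_cast; ring
    rw [this]
    nlinarith
  obtain ⟨r, q, hq, hκ1, hκ2⟩ := hcell L (η / (2 * (L : ℝ) ^ 2)) (by positivity)
  set Ω : ℝ := (Fintype.card ((Fin r → Bool) → Equiv.Perm (Fin n)) : ℝ) with hΩ
  have hΩ0 : 0 < Ω := by
    rw [hΩ]
    exact_mod_cast Fintype.card_pos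
  have hsm : ∀ i, ∀ d ∈ Finset.range L, ∑ σ : (Fin r → Bool) → Equiv.Perm (Fin n),
      (gam μ T (g i) (pert φ0 A q σ) d - ∫ x, bar (g i) (T^[d] x) * bar (g i) x ∂μ) ^ 2 ≤
      Ω * (μ.real {x | ∀ j < d, T^[j] x ∉ A} + η) := by
    intro i d hd
    rw [Finset.mem_range] at hd
    obtain ⟨W, hW, hWG, hWm⟩ := bad_small μ T hT A hA q hq L _ hκ1 hκ2 d hd.le
    have h2 := second_moment μ T hT.measurable (g i) (hg i) (hg0 i) (hg1 i) φ0 h0 A hA q hq d W hW hWG
    have h3 : ∀ σ : (Fin r → Bool) → Equiv.Perm (Fin n), ∫ x, dev T (g i) d (pert φ0 A q σ) x ∂μ =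
        gam μ T (g i) (pert φ0 A q σ) d - ∫ x, bar (g i) (T^[d] x) * bar (g i) x ∂μ := fun σ =>
      int_dev μ T hT.measurable (g i) (hg i) (hg0 i) (hg1 i) _ (pert_ms φ0 h0 A hA q hq σ) d
    simp_rw [h3] at h2
    refine le_trans h2 ?_
    gcongr
    have h4 : 2 * (L : ℝ) ^ 2 * (η / (2 * (L : ℝ) ^ 2)) = η := by field_simp
    rw [h4] at hWm
    exact hWm
  -- sum over i and d
  have htot : ∑ σ : (Fin r → Bool) → Equiv.Perm (Fin n), ∑ i, ∑ d ∈ Finset.range L,
      (gam μ T (g i) (pert φ0 A q σ) d - ∫ x, bar (g i) (T^[d] x) * bar (g i) x ∂μ) ^ 2 ≤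
      Ω * (3 * K * η * L) := by
    rw [Finset.sum_comm]
    have h5 : ∀ i, ∑ σ : (Fin r → Bool) → Equiv.Perm (Fin n), ∑ d ∈ Finset.range L,
        (gam μ T (g i) (pert φ0 A q σ) d - ∫ x, bar (g i) (T^[d] x) * bar (g i) x ∂μ) ^ 2 ≤ Ω * (3 * η * L) := by
      intro i
      rw [Finset.sum_comm]
      refine le_trans (Finset.sum_le_sum (hsm i)) ?_
      rw [← Finset.mul_sum]
      gcongr
      rw [Finset.sum_add_distrib, Finset.sum_const, Finset.card_range, nsmul_eq_mul]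
      have h6 : ∑ d ∈ Finset.range L, μ.real {x | ∀ j < d, T^[j] x ∉ A} ≤ l2 + L * η := by
        have h7 : ∀ d ∈ Finset.range L, μ.real {x | ∀ j < d, T^[j] x ∉ A} ≤ (if d < l2 then 1 else 0) + η := by
          intro d _
          split_ifs with h
          · have : μ.real {x | ∀ j < d, T^[j] x ∉ A} ≤ 1 := measureReal_le_one
            linarith
          · have : l0 ≤ d := by
              have : l0 ≤ l2 := by rw [hl2]; omega
              omega
            have := hl0 d this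
            linarith
        refine le_trans (Finset.sum_le_sum h7) ?_
        rw [Finset.sum_add_distrib, Finset.sum_const, Finset.card_range, nsmul_eq_mul]
        have h8 : ∑ d ∈ Finset.range L, (if d < l2 then (1 : ℝ) else 0) ≤ l2 := by
          rw [← Finset.sum_filter, Finset.sum_const, nsmul_eq_mul, mul_one]
          have : (Finset.filter (fun d => d < l2) (Finset.range L)).card ≤ l2 := by
            calc _ ≤ (Finset.range l2).card := Finset.card_le_card (fun d hd => by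
                  rw [Finset.mem_filter] at hd; rw [Finset.mem_range]; exact hd.2)
              _ = l2 := Finset.card_range _
          exact_mod_cast this
        linarith
      nlinarith
    refine le_trans (Finset.sum_le_sum (fun i _ => h5 i)) ?_
    rw [Finset.sum_const, Finset.card_univ, nsmul_eq_mul]
    apply le_of_eq
    rw [hK]
    ring
  obtain ⟨σ, hσ⟩ : ∃ σ : (Fin r → Bool) → Equiv.Perm (Fin n), ∑ i, ∑ d ∈ Finset.range L,
      (gam μ T (g i) (pert φ0 A q σ) d - ∫ x, bar (g i) (T^[d] x) * bar (g i) x ∂μ) ^ 2 ≤ 3 * K * η * L := by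
    by_contra hcon
    push Not at hcon
    have h9 : ∑ σ : (Fin r → Bool) → Equiv.Perm (Fin n), (3 * K * η * L) <
        ∑ σ : (Fin r → Bool) → Equiv.Perm (Fin n), ∑ i, ∑ d ∈ Finset.range L,
      (gam μ T (g i) (pert φ0 A q σ) d - ∫ x, bar (g i) (T^[d] x) * bar (g i) x ∂μ) ^ 2 :=
      Finset.sum_lt_sum_of_nonempty Finset.univ_nonempty (fun σ _ => hcon σ)
    rw [Finset.sum_const, Finset.card_univ, nsmul_eq_mul] at h9
    linarith
  refine ⟨pert φ0 A q σ, pert_ms φ0 h0 A hA q hq σ, fun x hx => ?_, L, hLpos, ?_⟩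
  · unfold pert
    rw [if_neg hx]
  · -- the mixing part
    have hb : ∑ i, ∑ d ∈ Finset.range L,
        ((∫ x, bar (g i) (T^[d] x) * bar (g i) x ∂μ) - (∫ x, bar (g i) x ∂μ) ^ 2) ^ 2 ≤ 2 * K * η * L := by
      have h10 : ∀ i, ∑ d ∈ Finset.range L,
          ((∫ x, bar (g i) (T^[d] x) * bar (g i) x ∂μ) - (∫ x, bar (g i) x ∂μ) ^ 2) ^ 2 ≤ 2 * η * L := by
        intro i
        have h7 : ∀ d ∈ Finset.range L,
            ((∫ x, bar (g i) (T^[d] x) * bar (g i) x ∂μ) - (∫ x, bar (g i) x ∂μ) ^ 2) ^ 2 ≤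
            (if d < l2 then 1 else 0) + η := by
          intro d _
          have hc := bar_int_mem μ (g i) (hg i) (hg0 i) (hg1 i)
          have hb0 : 0 ≤ ∫ x, bar (g i) (T^[d] x) * bar (g i) x ∂μ :=
            integral_nonneg (fun x => mul_nonneg (bar_nonneg _ (hg0 i) _) (bar_nonneg _ (hg0 i) _))
          have hb1 : ∫ x, bar (g i) (T^[d] x) * bar (g i) x ∂μ ≤ 1 := by
            have h1 : ∫ x, bar (g i) (T^[d] x) * bar (g i) x ∂μ ≤ ∫ x, (1 : ℝ) ∂μ := by
              apply integral_mono _ (integrable_const _)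
                (fun x => mul_le_one₀ (bar_le _ (hg1 i) _) (bar_nonneg _ (hg0 i) x) (bar_le _ (hg1 i) x))
              refine integrable_of_abs_le μ (((bar_meas _ (hg i)).comp (hT.measurable.iterate d)).mul
                (bar_meas _ (hg i))) 1 (fun x => ?_)
              rw [abs_of_nonneg (mul_nonneg (bar_nonneg _ (hg0 i) _) (bar_nonneg _ (hg0 i) _))]
              exact mul_le_one₀ (bar_le _ (hg1 i) _) (bar_nonneg _ (hg0 i) x) (bar_le _ (hg1 i) x)
            simpa using h1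
          split_ifs with h
          · have h11 : ((∫ x, bar (g i) (T^[d] x) * bar (g i) x ∂μ) - (∫ x, bar (g i) x ∂μ) ^ 2) ^ 2 ≤ 1 := by
              rw [sq_le_one_iff_abs_le_one, abs_le]
              constructor <;> nlinarith [hc.1, hc.2, mul_self_nonneg (∫ x, bar (g i) x ∂μ)]
            linarith
          · have h12 : l1 i ≤ d := by
              have h13 : l1 i ≤ ∑ i, l1 i := Finset.single_le_sum (fun i _ => Nat.zero_le _) (Finset.mem_univ i)
              omega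
            have h14 := hl1 i d h12
            rw [zero_add]
            calc ((∫ x, bar (g i) (T^[d] x) * bar (g i) x ∂μ) - (∫ x, bar (g i) x ∂μ) ^ 2) ^ 2 =
                |(∫ x, bar (g i) (T^[d] x) * bar (g i) x ∂μ) - (∫ x, bar (g i) x ∂μ) ^ 2| ^ 2 := (sq_abs _).symm
              _ ≤ η ^ 2 := by gcongr
              _ ≤ η := by nlinarith
        refine le_trans (Finset.sum_le_sum h7) ?_
        rw [Finset.sum_add_distrib, Finset.sum_const, Finset.card_range, nsmul_eq_mul]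
        have h8 : ∑ d ∈ Finset.range L, (if d < l2 then (1 : ℝ) else 0) ≤ l2 := by
          rw [← Finset.sum_filter, Finset.sum_const, nsmul_eq_mul, mul_one]
          have : (Finset.filter (fun d => d < l2) (Finset.range L)).card ≤ l2 := by
            calc _ ≤ (Finset.range l2).card := Finset.card_le_card (fun d hd => by
                  rw [Finset.mem_filter] at hd; rw [Finset.mem_range]; exact hd.2)
              _ = l2 := Finset.card_range _
          exact_mod_cast this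
        linarith
      refine le_trans (Finset.sum_le_sum (fun i _ => h10 i)) ?_
      rw [Finset.sum_const, Finset.card_univ, nsmul_eq_mul]
      apply le_of_eq
      rw [hK]
      ring
    calc ∑ i, ∑ d ∈ Finset.range L, (gam μ T (g i) (pert φ0 A q σ) d - (∫ x, bar (g i) x ∂μ) ^ 2) ^ 2 ≤
        ∑ i, ∑ d ∈ Finset.range L, (2 * (gam μ T (g i) (pert φ0 A q σ) d -
          ∫ x, bar (g i) (T^[d] x) * bar (g i) x ∂μ) ^ 2 +
          2 * ((∫ x, bar (g i) (T^[d] x) * bar (g i) x ∂μ) - (∫ x, bar (g i) x ∂μ) ^ 2) ^ 2) := by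
          apply Finset.sum_le_sum
          intro i _
          apply Finset.sum_le_sum
          intro d _
          nlinarith [sq_nonneg ((gam μ T (g i) (pert φ0 A q σ) d -
            ∫ x, bar (g i) (T^[d] x) * bar (g i) x ∂μ) -
            ((∫ x, bar (g i) (T^[d] x) * bar (g i) x ∂μ) - (∫ x, bar (g i) x ∂μ) ^ 2))]
      _ = 2 * (∑ i, ∑ d ∈ Finset.range L, (gam μ T (g i) (pert φ0 A q σ) d -
          ∫ x, bar (g i) (T^[d] x) * bar (g i) x ∂μ) ^ 2) +
          2 * ∑ i, ∑ d ∈ Finset.range L,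
            ((∫ x, bar (g i) (T^[d] x) * bar (g i) x ∂μ) - (∫ x, bar (g i) x ∂μ) ^ 2) ^ 2 := by
          simp only [Finset.sum_add_distrib, Finset.mul_sum]
      _ ≤ 2 * (3 * K * η * L) + 2 * (2 * K * η * L) := by gcongr
      _ = (10 * K * η) * L := by ring
      _ ≤ ε * L := by gcongr

/-! from one-parameter to two-parameter averages -/

theorem bar_reindex (g : X → Fin n → ℝ) (T : X → X) (φ : X → Equiv.Perm (Fin n)) (d : ℕ) (x : X) :
    bar (fun x a => g (T^[d] x) (coc T φ d x a)) x = bar g (T^[d] x) := by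
  unfold bar
  congr 1
  exact Equiv.sum_comp (coc T φ d x) (fun b => g (T^[d] x) b)

theorem gam2_eq (T : X → X) (hT : MeasurePreserving T μ μ) (g : X → Fin n → ℝ)
    (hg : ∀ a, Measurable fun x => g x a) (φ : X → Equiv.Perm (Fin n)) (hφ : Ms φ) (l l' : ℕ) (h : l' ≤ l) :
    gam2 μ T g φ l l' = gam μ T g φ (l - l') := by
  unfold gam2 gam
  obtain ⟨e, rfl⟩ := Nat.exists_eq_add_of_le' h
  rw [Nat.add_sub_cancel]
  have h1 : (fun x => bar (fun x a => g (T^[e + l'] x) (coc T φ (e + l') x a) * g (T^[l'] x) (coc T φ l' x a)) x) =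
      fun x => bar (fun x a => g (T^[e] x) (coc T φ e x a) * g x a) (T^[l'] x) := by
    funext x
    rw [← bar_reindex (fun x a => g (T^[e] x) (coc T φ e x a) * g x a) T φ l' x]
    unfold bar
    congr 1
    apply Finset.sum_congr rfl
    intro a _
    beta_reduce
    rw [coc_add, Function.iterate_add_apply]
    rfl
  rw [h1]
  have h2 : Measurable (bar (fun x a => g (T^[e] x) (coc T φ e x a) * g x a)) :=
    bar_meas _ (fun a => (cor_meas T hT.measurable g hg φ hφ e a).mul (hg a))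
  have h3 := (hT.iterate l').map_eq
  conv_rhs => rw [← h3]
  rw [integral_map (hT.measurable.iterate l').aemeasurable h2.aestronglyMeasurable]

theorem gam2_symm (T : X → X) (g : X → Fin n → ℝ) (φ : X → Equiv.Perm (Fin n)) (l l' : ℕ) :
    gam2 μ T g φ l l' = gam2 μ T g φ l' l := by
  unfold gam2
  congr 1
  funext x
  unfold bar
  congr 1
  apply Finset.sum_congr rfl
  intro a _
  ring

theorem prod_sub_le {ι : Type*} (s : Finset ι) (u v : ι → ℝ) (hu0 : ∀ i, 0 ≤ u i) (hu1 : ∀ i, u i ≤ 1)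
    (hv0 : ∀ i, 0 ≤ v i) (hv1 : ∀ i, v i ≤ 1) : |∏ i ∈ s, u i - ∏ i ∈ s, v i| ≤ ∑ i ∈ s, |u i - v i| := by
  classical
  induction s using Finset.induction_on with
  | empty => simp
  | insert i s hi ih =>
    rw [Finset.prod_insert hi, Finset.prod_insert hi, Finset.sum_insert hi]
    have h1 : u i * ∏ i ∈ s, u i - v i * ∏ i ∈ s, v i =
        (u i - v i) * ∏ i ∈ s, u i + v i * (∏ i ∈ s, u i - ∏ i ∈ s, v i) := by ring
    have h2 : 0 ≤ ∏ i ∈ s, u i := Finset.prod_nonneg (fun i _ => hu0 i)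
    have h3 : ∏ i ∈ s, u i ≤ 1 := Finset.prod_le_one (fun i _ => hu0 i) (fun i _ => hu1 i)
    rw [h1]
    refine le_trans (abs_add_le _ _) ?_
    rw [abs_mul, abs_mul, abs_of_nonneg h2, abs_of_nonneg (hv0 i)]
    have h4 : |u i - v i| * ∏ i ∈ s, u i ≤ |u i - v i| := mul_le_of_le_one_right (abs_nonneg _) h3
    have h5 : v i * |∏ i ∈ s, u i - ∏ i ∈ s, v i| ≤ |∏ i ∈ s, u i - ∏ i ∈ s, v i| :=
      mul_le_of_le_one_left (abs_nonneg _) (hv1 i)
    linarith

theorem pair_sum (L : ℕ) (h : ℕ → ℝ) (hh : ∀ d, 0 ≤ h d) (f : ℕ → ℕ → ℝ) 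
    (h1 : ∀ l l', l' ≤ l → f l l' ≤ h (l - l')) (h2 : ∀ l l', l ≤ l' → f l l' ≤ h (l' - l)) :
    ∑ l ∈ Finset.range L, ∑ l' ∈ Finset.range L, f l l' ≤ 2 * L * ∑ d ∈ Finset.range L, h d := by
  have h3 : ∀ l ∈ Finset.range L, ∑ l' ∈ Finset.range L, f l l' ≤ 2 * ∑ d ∈ Finset.range L, h d := by
    intro l hl
    rw [Finset.mem_range] at hl
    have h4 : Finset.range L = Finset.range (l + 1 + (L - (l + 1))) := by congr 1; omega
    have e1 : ∑ l' ∈ Finset.range L, f l l' = ∑ l' ∈ Finset.range (l + 1), f l l' +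
        ∑ j ∈ Finset.range (L - (l + 1)), f l (l + 1 + j) := by
      conv_lhs => rw [h4]
      rw [Finset.sum_range_add]
    rw [e1]
    have e2 : ∑ l' ∈ Finset.range (l + 1), f l l' ≤ ∑ d ∈ Finset.range L, h d := by
      calc _ ≤ ∑ l' ∈ Finset.range (l + 1), h (l - l') := by
            apply Finset.sum_le_sum
            intro l' hl'
            rw [Finset.mem_range] at hl'
            exact h1 l l' (by omega)
        _ = ∑ d ∈ Finset.range (l + 1), h d := by
            rw [← Finset.sum_range_reflect]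
            apply Finset.sum_congr rfl
            intro j hj
            rw [Finset.mem_range] at hj
            congr 1
            omega
        _ ≤ _ := Finset.sum_le_sum_of_subset_of_nonneg (Finset.range_mono (by omega)) (fun _ _ _ => hh _)
    have e3 : ∑ j ∈ Finset.range (L - (l + 1)), f l (l + 1 + j) ≤ ∑ d ∈ Finset.range L, h d := by
      calc _ ≤ ∑ j ∈ Finset.range (L - (l + 1)), h (1 + j) := by
            apply Finset.sum_le_sum
            intro j _
            refine le_trans (h2 l (l + 1 + j) (by omega)) (le_of_eq ?_)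
            congr 1
            omega
        _ = ∑ d ∈ Finset.Ico 1 (1 + (L - (l + 1))), h d := by
            rw [Finset.sum_Ico_eq_sum_range]
            congr 2
            omega
        _ ≤ _ := Finset.sum_le_sum_of_subset_of_nonneg (fun d hd => by
            rw [Finset.mem_Ico] at hd
            rw [Finset.mem_range]
            omega) (fun _ _ _ => hh _)
    linarith
  refine le_trans (Finset.sum_le_sum h3) ?_
  rw [Finset.sum_const, Finset.card_range, nsmul_eq_mul]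
  apply le_of_eq
  ring

theorem wm_pair [NeZero n] (T : X → X) (hT : MeasurePreserving T μ μ) (A : Set X) (hA : MeasurableSet A)
    (hhit : ∀ η : ℝ, 0 < η → ∃ l0 : ℕ, ∀ d ≥ l0, μ.real {x | ∀ j < d, T^[j] x ∉ A} ≤ η)
    (hcell : ∀ (L : ℕ) (κ : ℝ), 0 < κ → ∃ (r : ℕ) (q : X → Fin r → Bool), Measurable q ∧
      (∀ e, 1 ≤ e → e < L → μ.real {x | q x = q (T^[e] x)} ≤ κ) ∧
      (μ.prod μ).real {p : X × X | q p.1 = q p.2} ≤ κ)
    {ι : Type*} [Fintype ι] (g : ι → X → Fin n → ℝ) (hg : ∀ i a, Measurable fun x => g i x a)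
    (hg0 : ∀ i x a, 0 ≤ g i x a) (hg1 : ∀ i x a, g i x a ≤ 1)
    (hβ : ∀ i, Tendsto (fun d : ℕ => ∫ x, bar (g i) (T^[d] x) * bar (g i) x ∂μ) atTop
      (𝓝 ((∫ x, bar (g i) x ∂μ) ^ 2)))
    (φ0 : X → Equiv.Perm (Fin n)) (h0 : Ms φ0) (ε : ℝ) (hε : 0 < ε) :
    ∃ φ : X → Equiv.Perm (Fin n), Ms φ ∧ (∀ x ∉ A, φ x = φ0 x) ∧ ∃ L : ℕ, 0 < L ∧
      |∑ l ∈ Finset.range L, ∑ l' ∈ Finset.range L, (∏ i, gam2 μ T (g i) φ l l' -
        ∏ i, (∫ x, bar (g i) x ∂μ) ^ 2)| ≤ ε * (L : ℝ) ^ 2 := by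
  classical
  set K : ℝ := (Fintype.card ι : ℝ) with hK
  have hK0 : 0 ≤ K := by rw [hK]; positivity
  set η := ε / (4 * (K + 1)) with hη
  have hη0 : 0 < η := by rw [hη]; positivity
  obtain ⟨φ, hφ, hφA, L, hL, hS⟩ := wm_exists μ T hT A hA hhit hcell g hg hg0 hg1 hβ φ0 h0 (η * ε / 4) (by positivity)
  refine ⟨φ, hφ, hφA, L, hL, ?_⟩
  have hLr : (0 : ℝ) < L := by exact_mod_cast hL
  set c : ι → ℝ := fun i => ∫ x, bar (g i) x ∂μ with hc
  have hc01 : ∀ i, 0 ≤ c i ∧ c i ≤ 1 := fun i => bar_int_mem μ (g i) (hg i) (hg0 i) (hg1 i)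
  set h : ℕ → ℝ := fun d => ∑ i, |gam μ T (g i) φ d - c i ^ 2| with hh
  have hg2 : ∀ i l l', 0 ≤ gam2 μ T (g i) φ l l' ∧ gam2 μ T (g i) φ l l' ≤ 1 := fun i l l' =>
    bar_int_mem μ (fun x a => g i (T^[l] x) (coc T φ l x a) * g i (T^[l'] x) (coc T φ l' x a))
      (fun a => (cor_meas T hT.measurable (g i) (hg i) φ hφ l a).mul (cor_meas T hT.measurable (g i) (hg i) φ hφ l' a))
      (fun x a => mul_nonneg (hg0 _ _ _) (hg0 _ _ _))
      (fun x a => mul_le_one₀ (hg1 _ _ _) (hg0 _ _ _) (hg1 _ _ _))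
  have hp : ∀ l l', |∏ i, gam2 μ T (g i) φ l l' - ∏ i, c i ^ 2| ≤ ∑ i, |gam2 μ T (g i) φ l l' - c i ^ 2| :=
    fun l l' => prod_sub_le _ _ _ (fun i => (hg2 i l l').1) (fun i => (hg2 i l l').2)
      (fun i => sq_nonneg _) (fun i => pow_le_one₀ (hc01 i).1 (hc01 i).2)
  have h1 : ∀ l l', l' ≤ l → |∏ i, gam2 μ T (g i) φ l l' - ∏ i, c i ^ 2| ≤ h (l - l') := by
    intro l l' hll
    refine le_trans (hp l l') (le_of_eq ?_)
    rw [hh]
    apply Finset.sum_congr rfl
    intro i _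
    rw [gam2_eq μ T hT (g i) (hg i) φ hφ l l' hll]
  have h2 : ∀ l l', l ≤ l' → |∏ i, gam2 μ T (g i) φ l l' - ∏ i, c i ^ 2| ≤ h (l' - l) := by
    intro l l' hll
    refine le_trans (hp l l') (le_of_eq ?_)
    rw [hh]
    apply Finset.sum_congr rfl
    intro i _
    rw [gam2_symm, gam2_eq μ T hT (g i) (hg i) φ hφ l' l hll]
  have h3 := pair_sum L h (fun d => Finset.sum_nonneg (fun i _ => abs_nonneg _)) _ h1 h2
  have h4 : ∑ d ∈ Finset.range L, h d ≤ (ε / 2) * L := by
    have h5 : ∀ t : ℝ, |t| ≤ η + t ^ 2 / η := by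
      intro t
      rcases le_total |t| η with h | h
      · have : 0 ≤ t ^ 2 / η := by positivity
        linarith
      · have : |t| ≤ t ^ 2 / η := by
          rw [le_div_iff₀ hη0, ← sq_abs]
          nlinarith [abs_nonneg t]
        linarith
    calc ∑ d ∈ Finset.range L, h d ≤ ∑ d ∈ Finset.range L, ∑ i : ι, (η + (gam μ T (g i) φ d - c i ^ 2) ^ 2 / η) := by
          apply Finset.sum_le_sum
          intro d _
          apply Finset.sum_le_sum
          intro i _
          exact h5 _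
      _ = K * η * L + (∑ i, ∑ d ∈ Finset.range L, (gam μ T (g i) φ d - c i ^ 2) ^ 2) / η := by
          simp only [Finset.sum_add_distrib, Finset.sum_const, Finset.card_range, Finset.card_univ, nsmul_eq_mul]
          rw [Finset.sum_comm, Finset.sum_div]
          congr 1
          · rw [hK]; ring
          · apply Finset.sum_congr rfl
            intro i _
            rw [Finset.sum_div]
      _ ≤ K * η * L + (η * ε / 4 * L) / η := by gcongr
      _ = K * η * L + ε / 4 * L := by field_simp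
      _ ≤ (ε / 2) * L := by
          have h6 : K * η ≤ ε / 4 := by
            rw [hη]
            rw [← mul_div_assoc, div_le_div_iff₀ (by positivity) (by norm_num)]
            nlinarith
          nlinarith
  calc |∑ l ∈ Finset.range L, ∑ l' ∈ Finset.range L, (∏ i, gam2 μ T (g i) φ l l' - ∏ i, c i ^ 2)| ≤
      ∑ l ∈ Finset.range L, |∑ l' ∈ Finset.range L, (∏ i, gam2 μ T (g i) φ l l' - ∏ i, c i ^ 2)| :=
        Finset.abs_sum_le_sum_abs _ _
    _ ≤ ∑ l ∈ Finset.range L, ∑ l' ∈ Finset.range L, |∏ i, gam2 μ T (g i) φ l l' - ∏ i, c i ^ 2| := by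
        apply Finset.sum_le_sum
        intro l _
        exact Finset.abs_sum_le_sum_abs _ _
    _ ≤ 2 * L * ∑ d ∈ Finset.range L, h d := h3
    _ ≤ 2 * L * ((ε / 2) * L) := by gcongr
    _ = ε * (L : ℝ) ^ 2 := by ring

end Pool.H359R3.MX
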