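import Mathlib
import Pool.Agent.H359R3.MX3

set_option autoImplicit false
set_option linter.unusedSectionVars false
set_option linter.unusedVariables false

/-!
The finite fibre averaging inequality.
-/

namespace Pool.H359R3.MX

open MeasureTheory Set Filter Topology
open scoped ENNReal

variable {X : Type*} [MeasurableSpace X] {n : ℕ}

variable (μ : Measure X) [IsProbabilityMeasure μ]

theorem sum_prod_fun {ι : Type*} [Fintype ι] [DecidableEq ι] (w : ι → Fin n → ℝ) :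
    ∑ b : ι → Fin n, ∏ i, w i (b i) = ∏ i, ∑ a, w i a := by
  rw [Finset.prod_univ_sum]
  rw [Fintype.piFinset_univ]

theorem sq_int_le {Z : Type*} [MeasurableSpace Z] (m : Measure Z) [IsProbabilityMeasure m] (f : Z → ℝ)
    (hf : Measurable f) (B : ℝ) (hB : ∀ z, |f z| ≤ B) : (∫ z, f z ∂m) ^ 2 ≤ ∫ z, f z ^ 2 ∂m := by
  set t := ∫ z, f z ∂m with ht
  have hB0 : ∀ z, 0 ≤ B := fun z => le_trans (abs_nonneg _) (hB z)
  have hi : Integrable f m := integrable_of_abs_le m hf B hB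
  have hi2 : Integrable (fun z => f z ^ 2) m := integrable_of_abs_le m (hf.pow_const 2) (B ^ 2) (fun z => by
    rw [abs_pow]
    exact pow_le_pow_left₀ (abs_nonneg _) (hB z) 2)
  have h1 : 0 ≤ ∫ z, (f z - t) ^ 2 ∂m := integral_nonneg (fun z => sq_nonneg _)
  have h2 : ∫ z, (f z - t) ^ 2 ∂m = ∫ z, f z ^ 2 ∂m - 2 * t * t + t ^ 2 := by
    have h3 : (fun z => (f z - t) ^ 2) = fun z => (f z ^ 2 - 2 * t * f z) + t ^ 2 := by
      funext z; ring
    rw [h3, integral_add, integral_sub hi2 (hi.const_mul _), integral_const_mul, ← ht]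
    · simp
    · exact hi2.sub (hi.const_mul _)
    · exact integrable_const _
  nlinarith

theorem int_comb (f g h : X → ℝ) (hf : Integrable f μ) (hg : Integrable g μ) (hh : Integrable h μ) (c k : ℝ) :
    ∫ x, (f x - c * g x - c * h x + k) ∂μ = ∫ x, f x ∂μ - c * ∫ x, g x ∂μ - c * ∫ x, h x ∂μ + k := by
  have h1 : ∫ x, (f x - c * g x - c * h x + k) ∂μ = ∫ x, (f x - c * g x - c * h x) ∂μ + ∫ x, k ∂μ := by
    apply integral_add
    · exact (hf.sub (hg.const_mul c)).sub (hh.const_mul c)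
    · exact integrable_const _
  have h2 : ∫ x, (f x - c * g x - c * h x) ∂μ = ∫ x, (f x - c * g x) ∂μ - ∫ x, c * h x ∂μ := by
    apply integral_sub
    · exact hf.sub (hg.const_mul c)
    · exact hh.const_mul c
  have h3 : ∫ x, (f x - c * g x) ∂μ = ∫ x, f x ∂μ - ∫ x, c * g x ∂μ := by
    apply integral_sub hf
    exact hg.const_mul c
  rw [h1, h2, h3, integral_const_mul, integral_const_mul]
  simp

theorem core_avg {ι : Type*} [Fintype ι] [DecidableEq ι] {Z : Type*} [MeasurableSpace Z] (m : Measure Z)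
    [IsProbabilityMeasure m] [NeZero n]
    (π : Z → X) (hπ : MeasurePreserving π m μ) (L : ℕ)
    (G : ℕ → ι → X → Fin n → ℝ) (hGm : ∀ l i a, Measurable fun x => G l i x a)
    (hG0 : ∀ l i x a, 0 ≤ G l i x a) (hG1 : ∀ l i x a, G l i x a ≤ 1)
    (R : ι → X → X) (hR : ∀ i, Measurable (R i)) (c τ ε1 : ℝ) (hc0 : 0 ≤ c) (hc1 : c ≤ 1)
    (hv : ∀ l < L, ∏ i, ∫ x, bar (G l i) x ∂μ = c)
    (hγ : ∑ l ∈ Finset.range L, ∑ l' ∈ Finset.range L,
      (∏ i, ∫ x, bar (fun x a => G l i x a * G l' i x a) x ∂μ - c ^ 2) ≤ ε1 * (L : ℝ) ^ 2)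
    (hmix : ∀ l < L, ∀ l' < L, ∀ b : ι → Fin n,
      |∫ x, ∏ i, (G l i (R i x) (b i) * G l' i (R i x) (b i)) ∂μ -
        ∏ i, ∫ x, G l i x (b i) * G l' i x (b i) ∂μ| ≤ τ)
    (hmix1 : ∀ l < L, ∀ b : ι → Fin n,
      |∫ x, ∏ i, G l i (R i x) (b i) ∂μ - ∏ i, ∫ x, G l i x (b i) ∂μ| ≤ τ)
    (a : ι → Z → Fin n) (ha : ∀ i, Measurable (a i)) :
    ∫ z, (∑ l ∈ Finset.range L, (∏ i, G l i (R i (π z)) (a i z) - c)) ^ 2 ∂m ≤
      (n : ℝ) ^ (Fintype.card ι) * (ε1 + 3 * τ) * (L : ℝ) ^ 2 := by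
  have hn : (0 : ℝ) < n := by exact_mod_cast NeZero.pos n
  have hτ0 : 0 ≤ τ ∨ L = 0 := by
    rcases Nat.eq_zero_or_pos L with h | h
    · exact Or.inr h
    · exact Or.inl (le_trans (abs_nonneg _) (hmix1 0 h (fun _ => ⟨0, NeZero.pos n⟩)))
  rcases hτ0 with hτ0 | hL0
  swap
  · subst hL0
    simp
  let D : (ι → Fin n) → X → ℝ := fun b x => ∑ l ∈ Finset.range L, (∏ i, G l i (R i x) (b i) - c)
  have hPm : ∀ (b : ι → Fin n) (l : ℕ), Measurable (fun x => ∏ i, G l i (R i x) (b i)) := fun b l =>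
    Finset.measurable_prod _ (fun i _ => (hGm l i (b i)).comp (hR i))
  have hP0 : ∀ (b : ι → Fin n) (l : ℕ) (x : X), 0 ≤ ∏ i, G l i (R i x) (b i) := fun b l x =>
    Finset.prod_nonneg (fun i _ => hG0 _ _ _ _)
  have hP1 : ∀ (b : ι → Fin n) (l : ℕ) (x : X), ∏ i, G l i (R i x) (b i) ≤ 1 := fun b l x =>
    Finset.prod_le_one (fun i _ => hG0 _ _ _ _) (fun i _ => hG1 _ _ _ _)
  have hDm : ∀ b, Measurable (D b) := fun b =>
    Finset.measurable_sum _ (fun l _ => (hPm b l).sub measurable_const)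
  have hDb : ∀ b x, |D b x| ≤ L := by
    intro b x
    calc |D b x| ≤ ∑ l ∈ Finset.range L, |∏ i, G l i (R i x) (b i) - c| := Finset.abs_sum_le_sum_abs _ _
      _ ≤ ∑ l ∈ Finset.range L, (1 : ℝ) := by
          apply Finset.sum_le_sum
          intro l _
          rw [abs_le]
          have := hP0 b l x
          have := hP1 b l x
          constructor <;> linarith
      _ = L := by simp
  have hD2i : ∀ b, Integrable (fun x => D b x ^ 2) μ := fun b =>
    integrable_of_abs_le μ ((hDm b).pow_const 2) ((L : ℝ) ^ 2) (fun x => by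
      rw [abs_pow]
      exact pow_le_pow_left₀ (abs_nonneg _) (hDb b x) 2)
  -- step 1: pass to the sum over all colourings
  have hHm : Measurable (fun x => ∑ b : ι → Fin n, D b x ^ 2) :=
    Finset.measurable_sum _ (fun b _ => (hDm b).pow_const 2)
  have hHi : Integrable (fun x => ∑ b : ι → Fin n, D b x ^ 2) μ := integrable_finsetSum _ (fun b _ => hD2i b)
  have h1 : ∫ z, (∑ l ∈ Finset.range L, (∏ i, G l i (R i (π z)) (a i z) - c)) ^ 2 ∂m ≤
      ∑ b : ι → Fin n, ∫ x, D b x ^ 2 ∂μ := by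
    have h2 : ∀ z, (∑ l ∈ Finset.range L, (∏ i, G l i (R i (π z)) (a i z) - c)) ^ 2 ≤
        ∑ b : ι → Fin n, D b (π z) ^ 2 := by
      intro z
      exact Finset.single_le_sum (f := fun b : ι → Fin n => D b (π z) ^ 2) (fun b _ => sq_nonneg _)
        (Finset.mem_univ (fun i => a i z))
    have hmz : Measurable (fun z => (∑ l ∈ Finset.range L, (∏ i, G l i (R i (π z)) (a i z) - c)) ^ 2) := by
      refine Measurable.pow_const (Finset.measurable_sum _ (fun l _ => Measurable.sub ?_ measurable_const)) 2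
      refine Finset.measurable_prod _ (fun i _ => ?_)
      exact (meas_unc (G l i) (hGm l i)).comp (((hR i).comp hπ.measurable).prodMk (ha i))
    have hHi' : Integrable (fun z => ∑ b : ι → Fin n, D b (π z) ^ 2) m :=
      hπ.integrable_comp_of_integrable hHi
    calc ∫ z, (∑ l ∈ Finset.range L, (∏ i, G l i (R i (π z)) (a i z) - c)) ^ 2 ∂m ≤
        ∫ z, ∑ b : ι → Fin n, D b (π z) ^ 2 ∂m := by
          apply integral_mono _ hHi' h2
          refine Integrable.mono' hHi' hmz.aestronglyMeasurable (Eventually.of_forall (fun z => ?_))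
          rw [Real.norm_eq_abs, abs_of_nonneg (sq_nonneg _)]
          exact h2 z
      _ = ∫ x, ∑ b : ι → Fin n, D b x ^ 2 ∂μ := by
          have h3 := hπ.map_eq
          conv_rhs => rw [← h3]
          rw [integral_map hπ.measurable.aemeasurable hHm.aestronglyMeasurable]
      _ = _ := by rw [integral_finsetSum _ (fun b _ => hD2i b)]
  -- step 2: expand
  have h4 : ∀ b : ι → Fin n, ∫ x, D b x ^ 2 ∂μ ≤ ∑ l ∈ Finset.range L, ∑ l' ∈ Finset.range L,
      ((∏ i, ∫ x, G l i x (b i) * G l' i x (b i) ∂μ) + τ - c * ((∏ i, ∫ x, G l i x (b i) ∂μ) - τ) -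
        c * ((∏ i, ∫ x, G l' i x (b i) ∂μ) - τ) + c ^ 2) := by
    intro b
    have h5 : ∀ x, D b x ^ 2 = ∑ l ∈ Finset.range L, ∑ l' ∈ Finset.range L,
        ((∏ i, (G l i (R i x) (b i) * G l' i (R i x) (b i))) - c * (∏ i, G l i (R i x) (b i)) -
          c * (∏ i, G l' i (R i x) (b i)) + c ^ 2) := by
      intro x
      rw [sq, Finset.sum_mul_sum]
      apply Finset.sum_congr rfl
      intro l _
      apply Finset.sum_congr rfl
      intro l' _
      rw [Finset.prod_mul_distrib]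
      ring
    have hPi : ∀ l, Integrable (fun x => ∏ i, G l i (R i x) (b i)) μ := fun l =>
      integrable_of_abs_le μ (hPm b l) 1 (fun x => by rw [abs_of_nonneg (hP0 b l x)]; exact hP1 b l x)
    have hPPi : ∀ l l', Integrable (fun x => ∏ i, (G l i (R i x) (b i) * G l' i (R i x) (b i))) μ := by
      intro l l'
      refine integrable_of_abs_le μ ?_ 1 (fun x => ?_)
      · exact Finset.measurable_prod _ (fun i _ => ((hGm l i (b i)).comp (hR i)).mul ((hGm l' i (b i)).comp (hR i)))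
      · rw [Finset.prod_mul_distrib, abs_of_nonneg (mul_nonneg (hP0 b l x) (hP0 b l' x))]
        exact mul_le_one₀ (hP1 b l x) (hP0 b l' x) (hP1 b l' x)
    simp_rw [h5]
    rw [integral_finsetSum]
    swap
    · intro l _
      refine integrable_finsetSum _ (fun l' _ => ?_)
      exact (((hPPi l l').sub ((hPi l).const_mul c)).sub ((hPi l').const_mul c)).add (integrable_const _)
    apply Finset.sum_le_sum
    intro l hl
    rw [integral_finsetSum]
    swap
    · intro l' _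
      exact (((hPPi l l').sub ((hPi l).const_mul c)).sub ((hPi l').const_mul c)).add (integrable_const _)
    apply Finset.sum_le_sum
    intro l' hl'
    rw [Finset.mem_range] at hl hl'
    rw [int_comb μ _ _ _ (hPPi l l') (hPi l) (hPi l')]
    have e1 := (abs_le.1 (hmix l hl l' hl' b)).2
    have e2 := (abs_le.1 (hmix1 l hl b)).1
    have e3 := (abs_le.1 (hmix1 l' hl' b)).1
    have e5 : c * ((∏ i, ∫ x, G l i x (b i) ∂μ) - τ) ≤ c * ∫ x, ∏ i, G l i (R i x) (b i) ∂μ :=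
      mul_le_mul_of_nonneg_left (by linarith) hc0
    have e6 : c * ((∏ i, ∫ x, G l' i x (b i) ∂μ) - τ) ≤ c * ∫ x, ∏ i, G l' i (R i x) (b i) ∂μ :=
      mul_le_mul_of_nonneg_left (by linarith) hc0
    linarith
  -- step 3: sum over colourings
  have hbar : ∀ (f : X → Fin n → ℝ), (∀ a, Measurable fun x => f x a) → (∀ x a, 0 ≤ f x a) → (∀ x a, f x a ≤ 1) →
      ∑ a, ∫ x, f x a ∂μ = n * ∫ x, bar f x ∂μ := by
    intro f hf h0 h1
    unfold bar
    rw [integral_const_mul, integral_finsetSum]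
    · field_simp
    · intro a _
      exact integrable_of_abs_le μ (hf a) 1 (fun x => by rw [abs_of_nonneg (h0 x a)]; exact h1 x a)
  have h6 : ∀ l l', ∑ b : ι → Fin n, ∏ i, ∫ x, G l i x (b i) * G l' i x (b i) ∂μ =
      (n : ℝ) ^ (Fintype.card ι) * ∏ i, ∫ x, bar (fun x a => G l i x a * G l' i x a) x ∂μ := by
    intro l l'
    rw [sum_prod_fun (fun i a => ∫ x, G l i x a * G l' i x a ∂μ)]
    have : ∀ i, ∑ a, ∫ x, G l i x a * G l' i x a ∂μ = n * ∫ x, bar (fun x a => G l i x a * G l' i x a) x ∂μ :=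
      fun i => hbar (fun x a => G l i x a * G l' i x a) (fun a => (hGm l i a).mul (hGm l' i a))
        (fun x a => mul_nonneg (hG0 _ _ _ _) (hG0 _ _ _ _)) (fun x a => mul_le_one₀ (hG1 _ _ _ _) (hG0 _ _ _ _) (hG1 _ _ _ _))
    rw [Finset.prod_congr rfl (fun i _ => this i), Finset.prod_mul_distrib, Finset.prod_const, Finset.card_univ]
  have h7 : ∀ l < L, ∑ b : ι → Fin n, ∏ i, ∫ x, G l i x (b i) ∂μ = (n : ℝ) ^ (Fintype.card ι) * c := by
    intro l hl
    rw [sum_prod_fun (fun i a => ∫ x, G l i x a ∂μ)]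
    have : ∀ i, ∑ a, ∫ x, G l i x a ∂μ = n * ∫ x, bar (G l i) x ∂μ :=
      fun i => hbar (G l i) (hGm l i) (hG0 l i) (hG1 l i)
    rw [Finset.prod_congr rfl (fun i _ => this i), Finset.prod_mul_distrib, Finset.prod_const, Finset.card_univ,
      hv l hl]
  have hcard : ∑ b : ι → Fin n, (1 : ℝ) = (n : ℝ) ^ (Fintype.card ι) := by
    rw [Finset.sum_const, Finset.card_univ, Fintype.card_fun, Fintype.card_fin, nsmul_eq_mul, mul_one]
    push_cast
    ring
  calc _ ≤ ∑ b : ι → Fin n, ∫ x, D b x ^ 2 ∂μ := h1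
    _ ≤ ∑ b : ι → Fin n, ∑ l ∈ Finset.range L, ∑ l' ∈ Finset.range L,
        ((∏ i, ∫ x, G l i x (b i) * G l' i x (b i) ∂μ) + τ - c * ((∏ i, ∫ x, G l i x (b i) ∂μ) - τ) -
          c * ((∏ i, ∫ x, G l' i x (b i) ∂μ) - τ) + c ^ 2) := Finset.sum_le_sum (fun b _ => h4 b)
    _ = ∑ l ∈ Finset.range L, ∑ l' ∈ Finset.range L, ∑ b : ι → Fin n,
        ((∏ i, ∫ x, G l i x (b i) * G l' i x (b i) ∂μ) + τ - c * ((∏ i, ∫ x, G l i x (b i) ∂μ) - τ) -
          c * ((∏ i, ∫ x, G l' i x (b i) ∂μ) - τ) + c ^ 2) := by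
        rw [Finset.sum_comm]
        apply Finset.sum_congr rfl
        intro l _
        rw [Finset.sum_comm]
    _ = ∑ l ∈ Finset.range L, ∑ l' ∈ Finset.range L, (n : ℝ) ^ (Fintype.card ι) *
        ((∏ i, ∫ x, bar (fun x a => G l i x a * G l' i x a) x ∂μ - c ^ 2) + (1 + 2 * c) * τ) := by
        apply Finset.sum_congr rfl
        intro l hl
        apply Finset.sum_congr rfl
        intro l' hl'
        rw [Finset.mem_range] at hl hl'
        have e1 : ∑ b : ι → Fin n,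
          ((∏ i, ∫ x, G l i x (b i) * G l' i x (b i) ∂μ) + τ - c * ((∏ i, ∫ x, G l i x (b i) ∂μ) - τ) -
          c * ((∏ i, ∫ x, G l' i x (b i) ∂μ) - τ) + c ^ 2) =
          ∑ b : ι → Fin n, (∏ i, ∫ x, G l i x (b i) * G l' i x (b i) ∂μ) -
          c * ∑ b : ι → Fin n, (∏ i, ∫ x, G l i x (b i) ∂μ) - c * ∑ b : ι → Fin n, (∏ i, ∫ x, G l' i x (b i) ∂μ) +
          (τ + 2 * c * τ + c ^ 2) * ∑ b : ι → Fin n, (1 : ℝ) := by
          simp only [Finset.mul_sum, ← Finset.sum_sub_distrib, ← Finset.sum_add_distrib]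
          apply Finset.sum_congr rfl
          intro b _
          ring
        rw [e1, h6, h7 l hl, h7 l' hl', hcard]
        ring
    _ = (n : ℝ) ^ (Fintype.card ι) * (∑ l ∈ Finset.range L, ∑ l' ∈ Finset.range L,
        (∏ i, ∫ x, bar (fun x a => G l i x a * G l' i x a) x ∂μ - c ^ 2) + (1 + 2 * c) * τ * (L : ℝ) ^ 2) := by
        rw [mul_add, Finset.mul_sum]
        simp only [mul_add, Finset.sum_add_distrib, Finset.mul_sum, Finset.sum_const, Finset.card_range, nsmul_eq_mul]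
        ring
    _ ≤ (n : ℝ) ^ (Fintype.card ι) * (ε1 * (L : ℝ) ^ 2 + 3 * τ * (L : ℝ) ^ 2) := by
        gcongr
        nlinarith
    _ = _ := by ring

/-- consequence for first moments -/
theorem core_first {ι : Type*} [Fintype ι] [DecidableEq ι] {Z : Type*} [MeasurableSpace Z] (m : Measure Z)
    [IsProbabilityMeasure m] [NeZero n]
    (π : Z → X) (hπ : MeasurePreserving π m μ) (L : ℕ)
    (G : ℕ → ι → X → Fin n → ℝ) (hGm : ∀ l i a, Measurable fun x => G l i x a)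
    (hG0 : ∀ l i x a, 0 ≤ G l i x a) (hG1 : ∀ l i x a, G l i x a ≤ 1)
    (R : ι → X → X) (hR : ∀ i, Measurable (R i)) (c τ ε1 : ℝ) (hc0 : 0 ≤ c) (hc1 : c ≤ 1)
    (hv : ∀ l < L, ∏ i, ∫ x, bar (G l i) x ∂μ = c)
    (hγ : ∑ l ∈ Finset.range L, ∑ l' ∈ Finset.range L,
      (∏ i, ∫ x, bar (fun x a => G l i x a * G l' i x a) x ∂μ - c ^ 2) ≤ ε1 * (L : ℝ) ^ 2)
    (hmix : ∀ l < L, ∀ l' < L, ∀ b : ι → Fin n,
      |∫ x, ∏ i, (G l i (R i x) (b i) * G l' i (R i x) (b i)) ∂μ -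
        ∏ i, ∫ x, G l i x (b i) * G l' i x (b i) ∂μ| ≤ τ)
    (hmix1 : ∀ l < L, ∀ b : ι → Fin n,
      |∫ x, ∏ i, G l i (R i x) (b i) ∂μ - ∏ i, ∫ x, G l i x (b i) ∂μ| ≤ τ)
    (a : ι → Z → Fin n) (ha : ∀ i, Measurable (a i)) (ε : ℝ) (hε : 0 ≤ ε)
    (hsmall : (n : ℝ) ^ (Fintype.card ι) * (ε1 + 3 * τ) ≤ ε ^ 2) :
    |∑ l ∈ Finset.range L, (∫ z, ∏ i, G l i (R i (π z)) (a i z) ∂m - c)| ≤ ε * L := by
  have h1 := core_avg μ m π hπ L G hGm hG0 hG1 R hR c τ ε1 hc0 hc1 hv hγ hmix hmix1 a ha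
  have hPm : ∀ l, Measurable (fun z => ∏ i, G l i (R i (π z)) (a i z)) := fun l =>
    Finset.measurable_prod _ (fun i _ => (meas_unc (G l i) (hGm l i)).comp (((hR i).comp hπ.measurable).prodMk (ha i)))
  have hP0 : ∀ (l : ℕ) z, 0 ≤ ∏ i, G l i (R i (π z)) (a i z) := fun l z =>
    Finset.prod_nonneg (fun i _ => hG0 _ _ _ _)
  have hP1 : ∀ (l : ℕ) z, ∏ i, G l i (R i (π z)) (a i z) ≤ 1 := fun l z =>
    Finset.prod_le_one (fun i _ => hG0 _ _ _ _) (fun i _ => hG1 _ _ _ _)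
  have hb : ∀ z, |∑ l ∈ Finset.range L, (∏ i, G l i (R i (π z)) (a i z) - c)| ≤ L := by
    intro z
    calc _ ≤ ∑ l ∈ Finset.range L, |∏ i, G l i (R i (π z)) (a i z) - c| := Finset.abs_sum_le_sum_abs _ _
      _ ≤ ∑ l ∈ Finset.range L, (1 : ℝ) := by
          apply Finset.sum_le_sum
          intro l _
          rw [abs_le]
          have := hP0 l z
          have := hP1 l z
          constructor <;> linarith
      _ = L := by simp
  have h2 := sq_int_le m (fun z => ∑ l ∈ Finset.range L, (∏ i, G l i (R i (π z)) (a i z) - c))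
    (Finset.measurable_sum _ (fun l _ => (hPm l).sub measurable_const)) L hb
  have h3 : ∫ z, ∑ l ∈ Finset.range L, (∏ i, G l i (R i (π z)) (a i z) - c) ∂m =
      ∑ l ∈ Finset.range L, (∫ z, ∏ i, G l i (R i (π z)) (a i z) ∂m - c) := by
    rw [integral_finsetSum]
    · apply Finset.sum_congr rfl
      intro l _
      rw [integral_sub]
      · simp
      · exact integrable_of_abs_le m (hPm l) 1 (fun z => by rw [abs_of_nonneg (hP0 l z)]; exact hP1 l z)
      · exact integrable_const _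
    · intro l _
      refine Integrable.sub ?_ (integrable_const _)
      exact integrable_of_abs_le m (hPm l) 1 (fun z => by rw [abs_of_nonneg (hP0 l z)]; exact hP1 l z)
  rw [h3] at h2
  have h4 : (∑ l ∈ Finset.range L, (∫ z, ∏ i, G l i (R i (π z)) (a i z) ∂m - c)) ^ 2 ≤ (ε * L) ^ 2 := by
    calc _ ≤ _ := h2
      _ ≤ _ := h1
      _ ≤ ε ^ 2 * (L : ℝ) ^ 2 := by gcongr
      _ = (ε * L) ^ 2 := by ring
  exact abs_le_of_sq_le_sq h4 (by positivity)

end Pool.H359R3.MX
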