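import Mathlib

set_option autoImplicit false

namespace Pool.H359R3.WH

open Finset

variable {n : Type*} [Fintype n] [DecidableEq n]

/-- rounding a doubly stochastic matrix -/
theorem round_ds (M : n → n → ℝ) (h0 : ∀ i j, 0 ≤ M i j) (hr : ∀ i, ∑ j, M i j = 1)
    (hc : ∀ j, ∑ i, M i j = 1) (c : n → n → ℝ) :
    ∃ σ : Equiv.Perm n, ∑ i, c i (σ i) ≤ ∑ i, ∑ j, M i j * c i j := by
  have hM : (Matrix.of M) ∈ doublyStochastic ℝ n := by
    rw [mem_doublyStochastic_iff_sum]
    exact ⟨h0, hr, hc⟩
  obtain ⟨w, hw0, hw1, hw2⟩ := exists_eq_sum_perm_of_mem_doublyStochastic hM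
  have key : ∑ i, ∑ j, M i j * c i j = ∑ σ : Equiv.Perm n, w σ * ∑ i, c i (σ i) := by
    have h1 : ∀ i j, M i j = ∑ σ : Equiv.Perm n, w σ * (if σ i = j then 1 else 0) := by
      intro i j
      have h2 := congrFun (congrFun hw2 i) j
      rw [Matrix.of_apply] at h2
      rw [← h2, Matrix.sum_apply]
      apply Finset.sum_congr rfl
      intro σ _
      simp [PEquiv.toMatrix_apply, Equiv.toPEquiv_apply, eq_comm]
    simp_rw [h1, Finset.sum_mul]
    have h3 : ∀ i, ∑ j, ∑ σ : Equiv.Perm n, w σ * (if σ i = j then (1 : ℝ) else 0) * c i j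
        = ∑ σ : Equiv.Perm n, w σ * c i (σ i) := by
      intro i
      rw [Finset.sum_comm]
      apply Finset.sum_congr rfl
      intro σ _
      simp
    simp_rw [h3, Finset.mul_sum]
    rw [Finset.sum_comm]
  rw [key]
  by_contra hcon
  push Not at hcon
  set a := ∑ σ : Equiv.Perm n, w σ * ∑ i, c i (σ i) with ha
  have h4 : ∃ σ, 0 < w σ := by
    by_contra h
    push Not at h
    have : ∑ σ, w σ ≤ 0 := Finset.sum_nonpos (fun σ _ => h σ)
    linarith
  obtain ⟨σ0, hσ0⟩ := h4
  have h5 : ∑ σ : Equiv.Perm n, w σ * a < ∑ σ : Equiv.Perm n, w σ * ∑ i, c i (σ i) := by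
    apply Finset.sum_lt_sum
    · intro σ _
      exact mul_le_mul_of_nonneg_left (hcon σ).le (hw0 σ)
    · exact ⟨σ0, mem_univ _, mul_lt_mul_of_pos_left (hcon σ0) hσ0⟩
  rw [← Finset.sum_mul, hw1, one_mul, ← ha] at h5
  exact lt_irrefl _ h5

/-- rounding a sub doubly stochastic matrix -/
theorem round_sub (W : n → n → ℝ) (h0 : ∀ i j, 0 ≤ W i j) (hr : ∀ i, ∑ j, W i j ≤ 1)
    (hc : ∀ j, ∑ i, W i j ≤ 1) (E : n → n → Prop) [DecidableRel E] (hE : ∀ i j, ¬ E i j → W i j = 0) :
    ∃ σ : Equiv.Perm n, ((univ.filter (fun i => ¬ E i (σ i))).card : ℝ) ≤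
      (Fintype.card n : ℝ) - ∑ i, ∑ j, W i j := by
  set ρ : ℝ := (Fintype.card n : ℝ) - ∑ i, ∑ j, W i j with hρ
  have hρr : ρ = ∑ i, (1 - ∑ j, W i j) := by
    rw [Finset.sum_sub_distrib, hρ]
    simp
  have hρc : ρ = ∑ j, (1 - ∑ i, W i j) := by
    rw [Finset.sum_sub_distrib, hρ, Finset.sum_comm]
    simp
  have hρ0 : 0 ≤ ρ := by
    rw [hρr]
    exact Finset.sum_nonneg (fun i _ => by linarith [hr i])
  rcases hρ0.eq_or_lt with hz | hpos
  · -- already doubly stochastic
    have hrow : ∀ i, ∑ j, W i j = 1 := by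
      intro i
      have h1 : ∑ i, (1 - ∑ j, W i j) = 0 := by rw [← hρr, ← hz]
      rw [Finset.sum_eq_zero_iff_of_nonneg (fun i _ => by linarith [hr i])] at h1
      have := h1 i (mem_univ _)
      linarith
    have hcol : ∀ j, ∑ i, W i j = 1 := by
      intro j
      have h1 : ∑ j, (1 - ∑ i, W i j) = 0 := by rw [← hρc, ← hz]
      rw [Finset.sum_eq_zero_iff_of_nonneg (fun i _ => by linarith [hc i])] at h1
      have := h1 j (mem_univ _)
      linarith
    obtain ⟨σ, hσ⟩ := round_ds W h0 hrow hcol (fun i j => if E i j then 0 else 1)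
    refine ⟨σ, ?_⟩
    have h2 : ∑ i, ∑ j, W i j * (if E i j then (0 : ℝ) else 1) = 0 := by
      apply Finset.sum_eq_zero
      intro i _
      apply Finset.sum_eq_zero
      intro j _
      split_ifs with h
      · simp
      · rw [hE i j h]; simp
    have h3 : ∑ i, (if E i (σ i) then (0 : ℝ) else 1) = ((univ.filter (fun i => ¬ E i (σ i))).card : ℝ) := by
      rw [Finset.card_filter]
      push_cast
      apply Finset.sum_congr rfl
      intro i _
      by_cases h : E i (σ i) <;> simp [h]
    rw [h3, h2] at hσ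
    linarith
  · set M : n → n → ℝ := fun i j => W i j + (1 - ∑ j, W i j) * (1 - ∑ i, W i j) / ρ with hM
    have hM0 : ∀ i j, 0 ≤ M i j := by
      intro i j
      have h1 := hr i
      have h2 := hc j
      have h3 := h0 i j
      have h4 : 0 ≤ (1 - ∑ j, W i j) * (1 - ∑ i, W i j) / ρ := by
        apply div_nonneg _ hpos.le
        apply mul_nonneg <;> linarith
      simp only [hM]
      linarith
    have hrow : ∀ i, ∑ j, M i j = 1 := by
      intro i
      simp only [hM]
      rw [Finset.sum_add_distrib, ← Finset.sum_div, ← Finset.mul_sum, ← hρc]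
      field_simp
      ring
    have hcol : ∀ j, ∑ i, M i j = 1 := by
      intro j
      simp only [hM]
      rw [Finset.sum_add_distrib, ← Finset.sum_div, ← Finset.sum_mul, ← hρr]
      field_simp
      ring
    obtain ⟨σ, hσ⟩ := round_ds M hM0 hrow hcol (fun i j => if E i j then 0 else 1)
    refine ⟨σ, ?_⟩
    have h2 : ∑ i, ∑ j, M i j * (if E i j then (0 : ℝ) else 1) ≤ ρ := by
      calc ∑ i, ∑ j, M i j * (if E i j then (0 : ℝ) else 1)
          ≤ ∑ i, ∑ j, (1 - ∑ j, W i j) * (1 - ∑ i, W i j) / ρ := by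
            apply Finset.sum_le_sum
            intro i _
            apply Finset.sum_le_sum
            intro j _
            have h4 : 0 ≤ (1 - ∑ j, W i j) * (1 - ∑ i, W i j) / ρ := by
              apply div_nonneg _ hpos.le
              apply mul_nonneg <;> linarith [hr i, hc j]
            split_ifs with h
            · simpa using h4
            · simp only [hM]
              rw [hE i j h]
              simp
        _ = ρ := by
            have : ∀ i, ∑ j, (1 - ∑ j, W i j) * (1 - ∑ i, W i j) / ρ = 1 - ∑ j, W i j := by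
              intro i
              rw [← Finset.sum_div, ← Finset.mul_sum, ← hρc]
              field_simp
            simp_rw [this]
            exact hρr.symm
    have h3 : ∑ i, (if E i (σ i) then (0 : ℝ) else 1) = ((univ.filter (fun i => ¬ E i (σ i))).card : ℝ) := by
      rw [Finset.card_filter]
      push_cast
      apply Finset.sum_congr rfl
      intro i _
      by_cases h : E i (σ i) <;> simp [h]
    rw [h3] at hσ
    linarith

end Pool.H359R3.WH
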