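import Mathlib
import Pool.Agent.H359R3.WH1

set_option autoImplicit false
set_option linter.unusedSectionVars false
set_option linter.unusedVariables false

/-!
Near perfect matching in product spaces by single digit moves.
-/

namespace Pool.H359R3.WH

open Finset

variable {R : Type} [Fintype R] [DecidableEq R] {Z : R → Type} [∀ r, Fintype (Z r)]
  [∀ r, DecidableEq (Z r)] [∀ r, Nonempty (Z r)]

theorem sum_one (r : R) (g : Z r → ℝ) :
    (Fintype.card (Z r) : ℝ) * ∑ x : (∀ r, Z r), g (x r) =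
      (Fintype.card (∀ r, Z r) : ℝ) * ∑ z, g z := by
  have h1 : ∑ x : (∀ r, Z r), g (x r) = ∑ p : Z r × (∀ j : {j // j ≠ r}, Z j), g p.1 := by
    apply Fintype.sum_equiv (Equiv.piSplitAt r Z)
    intro x
    rfl
  have h2 : (Fintype.card (∀ r, Z r) : ℝ) = (Fintype.card (Z r) : ℝ) *
      (Fintype.card (∀ j : {j // j ≠ r}, Z j) : ℝ) := by
    rw [Fintype.card_congr (Equiv.piSplitAt r Z), Fintype.card_prod]
    push_cast
    ring
  rw [h1, h2, Fintype.sum_prod_type]
  simp only [Finset.sum_const, Finset.card_univ, nsmul_eq_mul]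
  rw [← Finset.mul_sum]
  ring

theorem sum_two (r s : R) (hrs : s ≠ r) (g : Z r → ℝ) (h : Z s → ℝ) (hg : ∑ z, g z = 0) :
    ∑ x : (∀ r, Z r), g (x r) * h (x s) = 0 := by
  have h1 : ∑ x : (∀ r, Z r), g (x r) * h (x s) =
      ∑ p : Z r × (∀ j : {j // j ≠ r}, Z j), g p.1 * h (p.2 ⟨s, hrs⟩) := by
    apply Fintype.sum_equiv (Equiv.piSplitAt r Z)
    intro x
    rfl
  rw [h1, Fintype.sum_prod_type, Finset.sum_comm]
  apply Finset.sum_eq_zero
  intro p _
  show ∑ z, g z * h (p ⟨s, hrs⟩) = 0
  rw [← Finset.sum_mul, hg, zero_mul]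

/-- number of digits in `Rk` lying in `A` -/
def cn (Rk : Finset R) (A : ∀ r, Finset (Z r)) (x : ∀ r, Z r) : ℕ :=
  (Rk.filter (fun r => x r ∈ A r)).card

noncomputable def Lam (Rk : Finset R) (A : ∀ r, Finset (Z r)) : ℝ :=
  ∑ r ∈ Rk, ((A r).card : ℝ) / (Fintype.card (Z r) : ℝ)

theorem Zpos (r : R) : (0 : ℝ) < (Fintype.card (Z r) : ℝ) := by
  exact_mod_cast Fintype.card_pos

theorem variance (Rk : Finset R) (A : ∀ r, Finset (Z r)) :
    ∑ x : (∀ r, Z r), ((cn Rk A x : ℝ) - Lam Rk A) ^ 2 ≤
      (Fintype.card (∀ r, Z r) : ℝ) * Lam Rk A := by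
  set α : R → ℝ := fun r => ((A r).card : ℝ) / (Fintype.card (Z r) : ℝ) with hα
  set u : ∀ r, Z r → ℝ := fun r z => (if z ∈ A r then 1 else 0) - α r with hu
  have hsum : ∀ r, ∑ z, u r z = 0 := by
    intro r
    simp only [hu]
    rw [Finset.sum_sub_distrib]
    simp only [Finset.sum_ite_mem, Finset.univ_inter, Finset.sum_const, nsmul_eq_mul, mul_one,
      Finset.card_univ, hα]
    have := Zpos (Z := Z) r
    field_simp
    ring
  have h1 : ∀ x : (∀ r, Z r), (cn Rk A x : ℝ) - Lam Rk A = ∑ r ∈ Rk, u r (x r) := by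
    intro x
    unfold cn Lam
    simp only [hu]
    rw [Finset.sum_sub_distrib, Finset.card_filter]
    push_cast
    rfl
  simp_rw [h1, sq, Finset.sum_mul_sum]
  rw [Finset.sum_comm]
  unfold Lam
  rw [Finset.mul_sum]
  apply Finset.sum_le_sum
  intro r _
  rw [Finset.sum_comm]
  calc ∑ s ∈ Rk, ∑ x : (∀ r, Z r), u r (x r) * u s (x s)
      ≤ ∑ s ∈ Rk, (if s = r then ∑ x : (∀ r, Z r), u r (x r) * u r (x r) else 0) := by
        apply Finset.sum_le_sum
        intro s _
        by_cases h : s = r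
        · subst h
          simp
        · rw [if_neg h, sum_two r s h (u r) (u s) (hsum r)]
    _ ≤ ∑ x : (∀ r, Z r), u r (x r) * u r (x r) := by
        rw [Finset.sum_ite_eq']
        split_ifs
        exact le_rfl
    _ ≤ (Fintype.card (∀ r, Z r) : ℝ) * (((A r).card : ℝ) / (Fintype.card (Z r) : ℝ)) := by
        have h2 := sum_one (Z := Z) r (fun z => u r z * u r z)
        have hZ := Zpos (Z := Z) r
        have h3 : ∑ z, u r z * u r z ≤ (A r).card := by
          have h4 : ∀ z, u r z * u r z = (if z ∈ A r then 1 else 0) * (1 - 2 * α r) + α r ^ 2 := by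
            intro z
            simp only [hu]
            split_ifs <;> ring
          simp_rw [h4]
          rw [Finset.sum_add_distrib, ← Finset.sum_mul]
          simp only [Finset.sum_ite_mem, Finset.univ_inter, Finset.sum_const, nsmul_eq_mul, mul_one,
            Finset.card_univ]
          have h5 : (Fintype.card (Z r) : ℝ) * α r = (A r).card := by
            simp only [hα]
            field_simp
          have h6 : 0 ≤ α r := by simp only [hα]; positivity
          have h7 : (Fintype.card (Z r) : ℝ) * α r ^ 2 = (A r).card * α r := by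
            rw [sq, ← mul_assoc, h5]
          rw [h7]
          have h8 : (0 : ℝ) ≤ ((A r).card : ℝ) * α r := by positivity
          nlinarith
        have h9 : ∑ x : (∀ r, Z r), u r (x r) * u r (x r) =
            (Fintype.card (∀ r, Z r) : ℝ) * (∑ z, u r z * u r z) / (Fintype.card (Z r) : ℝ) := by
          rw [eq_div_iff hZ.ne', ← h2]
          ring
        rw [h9, mul_div_assoc]
        gcongr

/-- single digit move -/
def mv (φ : ∀ r, Equiv.Perm (Z r)) (r : R) (x : ∀ r, Z r) : ∀ r, Z r :=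
  Function.update x r (φ r (x r))

theorem mv_inj (φ : ∀ r, Equiv.Perm (Z r)) (r : R) : Function.Injective (mv (Z := Z) φ r) := by
  intro x y h
  unfold mv at h
  funext s
  by_cases hs : s = r
  · subst hs
    have := congrFun h s
    simp only [Function.update_self] at this
    exact (φ s).injective this
  · have := congrFun h s
    simpa [Function.update_of_ne hs] using this

theorem matching_aux (Rk : Finset R) (A : ∀ r, Finset (Z r)) (B : ∀ r, Finset (Z r))
    (φ : ∀ r, Equiv.Perm (Z r)) (hφ : ∀ r z, z ∈ A r ↔ φ r z ∈ B r)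
    (hAB : ∀ r z, z ∈ A r → z ∉ B r) :
    ∃ σ : Equiv.Perm (∀ r, Z r),
      ((univ.filter (fun x : (∀ r, Z r) => ¬ ∃ r ∈ Rk, x r ∈ A r ∧ σ x = mv φ r x)).card : ℝ) ≤
      (Fintype.card (∀ r, Z r) : ℝ) -
        ∑ x : (∀ r, Z r), (cn Rk A x : ℝ) / max (cn Rk A x : ℝ) ((cn Rk B x : ℝ) + 1) := by
  classical
  set m : (∀ r, Z r) → ℝ := fun x => max (cn Rk A x : ℝ) ((cn Rk B x : ℝ) + 1) with hm
  have hmpos : ∀ x, 0 < m x := by
    intro x
    have : (0 : ℝ) < (cn Rk B x : ℝ) + 1 := by positivity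
    exact lt_of_lt_of_le this (le_max_right _ _)
  set W : (∀ r, Z r) → (∀ r, Z r) → ℝ := fun x y =>
    (∑ r ∈ Rk, if x r ∈ A r ∧ mv φ r x = y then (1 : ℝ) else 0) / m x with hW
  have h0 : ∀ x y, 0 ≤ W x y := by
    intro x y
    simp only [hW]
    apply div_nonneg _ (hmpos x).le
    apply Finset.sum_nonneg
    intro r _
    split_ifs <;> norm_num
  have hrow : ∀ x, ∑ y, W x y = (cn Rk A x : ℝ) / m x := by
    intro x
    simp only [hW]
    rw [← Finset.sum_div, Finset.sum_comm]
    congr 1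
    unfold cn
    rw [Finset.card_filter]
    push_cast
    apply Finset.sum_congr rfl
    intro r _
    by_cases h : x r ∈ A r
    · simp [h]
    · simp [h]
  have hcol : ∀ y, ∑ x, W x y ≤ 1 := by
    intro y
    have h1 : ∀ x, W x y ≤ ∑ r ∈ Rk, if x r ∈ A r ∧ mv φ r x = y then (1 : ℝ) / (cn Rk B y : ℝ) else 0 := by
      intro x
      simp only [hW]
      rw [Finset.sum_div]
      apply Finset.sum_le_sum
      intro r hr
      split_ifs with h
      · obtain ⟨h2, h3⟩ := h
        have h4 : (cn Rk B y : ℝ) ≤ (cn Rk B x : ℝ) + 1 := by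
          have : cn Rk B y ≤ cn Rk B x + 1 := by
            unfold cn
            rw [← h3]
            have hsub : Rk.filter (fun s => mv φ r x s ∈ B s) ⊆
                insert r (Rk.filter (fun s => x s ∈ B s)) := by
              intro s hs
              rw [Finset.mem_filter] at hs
              rw [Finset.mem_insert]
              by_cases hsr : s = r
              · left; exact hsr
              · right
                rw [Finset.mem_filter]
                refine ⟨hs.1, ?_⟩
                have h5 := hs.2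
                unfold mv at h5
                rwa [Function.update_of_ne hsr] at h5
            exact (Finset.card_le_card hsub).trans (Finset.card_insert_le _ _)
          exact_mod_cast this
        have h5 : (0 : ℝ) < (cn Rk B y : ℝ) := by
          have : 0 < cn Rk B y := by
            unfold cn
            apply Finset.card_pos.2
            refine ⟨r, ?_⟩
            rw [Finset.mem_filter]
            refine ⟨hr, ?_⟩
            rw [← h3]
            unfold mv
            rw [Function.update_self]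
            exact (hφ r (x r)).1 h2
          exact_mod_cast this
        apply one_div_le_one_div_of_le h5
        exact h4.trans (le_max_right _ _)
      · simp
    calc ∑ x, W x y ≤ ∑ x : (∀ r, Z r), ∑ r ∈ Rk,
        (if x r ∈ A r ∧ mv φ r x = y then (1 : ℝ) / (cn Rk B y : ℝ) else 0) :=
          Finset.sum_le_sum (fun x _ => h1 x)
      _ = ∑ r ∈ Rk, ∑ x : (∀ r, Z r), (if x r ∈ A r ∧ mv φ r x = y then (1 : ℝ) / (cn Rk B y : ℝ) else 0) :=
          Finset.sum_comm
      _ ≤ ∑ r ∈ Rk, (if y r ∈ B r then (1 : ℝ) / (cn Rk B y : ℝ) else 0) := by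
          apply Finset.sum_le_sum
          intro r _
          by_cases hy : y r ∈ B r
          · rw [if_pos hy, ← Finset.sum_filter, Finset.sum_const, nsmul_eq_mul]
            have hc : (univ.filter (fun x : (∀ r, Z r) => x r ∈ A r ∧ mv φ r x = y)).card ≤ 1 := by
              rw [Finset.card_le_one]
              intro a ha b hb
              rw [Finset.mem_filter] at ha hb
              exact mv_inj φ r (ha.2.2.trans hb.2.2.symm)
            have hc' : ((univ.filter (fun x : (∀ r, Z r) => x r ∈ A r ∧ mv φ r x = y)).card : ℝ) ≤ 1 := by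
              exact_mod_cast hc
            have h6 : (0 : ℝ) ≤ 1 / (cn Rk B y : ℝ) := by positivity
            nlinarith
          · rw [if_neg hy]
            apply le_of_eq
            apply Finset.sum_eq_zero
            intro x _
            rw [if_neg]
            rintro ⟨h2, h3⟩
            apply hy
            rw [← h3]
            unfold mv
            rw [Function.update_self]
            exact (hφ r (x r)).1 h2
      _ ≤ 1 := by
          rw [← Finset.sum_filter, Finset.sum_const, nsmul_eq_mul]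
          show ((cn Rk B y : ℕ) : ℝ) * (1 / (cn Rk B y : ℝ)) ≤ 1
          rw [mul_one_div]
          exact div_self_le_one _
  obtain ⟨σ, hσ⟩ := round_sub W h0 (fun x => by
      rw [hrow x, div_le_one (hmpos x)]
      exact le_max_left _ _) hcol (fun x y => ∃ r ∈ Rk, x r ∈ A r ∧ y = mv φ r x) (by
    intro x y hxy
    simp only [hW]
    have : ∑ r ∈ Rk, (if x r ∈ A r ∧ mv φ r x = y then (1 : ℝ) else 0) = 0 := by
      apply Finset.sum_eq_zero
      intro r hr
      rw [if_neg]
      rintro ⟨h2, h3⟩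
      exact hxy ⟨r, hr, h2, h3.symm⟩
    rw [this, zero_div])
  refine ⟨σ, ?_⟩
  simp_rw [hrow] at hσ
  exact hσ

/-- The near perfect matching lemma -/
theorem matching (δ : ℝ) (hδ : 0 < δ) (hδ1 : δ ≤ 1) (Rk : Finset R) (A : ∀ r, Finset (Z r))
    (B : ∀ r, Finset (Z r))
    (φ : ∀ r, Equiv.Perm (Z r)) (hφ : ∀ r z, z ∈ A r ↔ φ r z ∈ B r)
    (hAB : ∀ r z, z ∈ A r → z ∉ B r) (hΛ : 256 / δ ^ 3 ≤ Lam Rk A) :
    ∃ σ : Equiv.Perm (∀ r, Z r),
      ((univ.filter (fun x : (∀ r, Z r) => ¬ ∃ r ∈ Rk, x r ∈ A r ∧ σ x = mv φ r x)).card : ℝ) ≤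
      δ * (Fintype.card (∀ r, Z r) : ℝ) := by
  obtain ⟨σ, hσ⟩ := matching_aux Rk A B φ hφ hAB
  refine ⟨σ, hσ.trans ?_⟩
  set Λ := Lam Rk A with hΛdef
  have hcard : ∀ r, (A r).card = (B r).card := by
    intro r
    apply Finset.card_bij (fun z _ => φ r z)
    · intro z hz
      exact (hφ r z).1 hz
    · intro a _ b _ h
      exact (φ r).injective h
    · intro b hb
      refine ⟨(φ r).symm b, ?_, by simp⟩
      rw [hφ]
      simpa using hb
  have hΛB : Lam Rk B = Λ := by
    rw [hΛdef]
    unfold Lam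
    apply Finset.sum_congr rfl
    intro r _
    rw [hcard]
  have hvA := variance Rk A
  have hvB := variance Rk B
  rw [hΛB] at hvB
  rw [← hΛdef] at hvA
  set Nn : ℝ := (Fintype.card (∀ r, Z r) : ℝ) with hNn
  have hN0 : 0 ≤ Nn := by positivity
  have hd3 : 0 < 256 / δ ^ 3 := by positivity
  have hΛpos : 0 < Λ := lt_of_lt_of_le hd3 hΛ
  -- pointwise bound
  set η := δ / 4 with hη
  have hpt : ∀ x : (∀ r, Z r), 1 - (cn Rk A x : ℝ) / max (cn Rk A x : ℝ) ((cn Rk B x : ℝ) + 1) ≤
      (((cn Rk A x : ℝ) - Λ) ^ 2 + ((cn Rk B x : ℝ) - Λ) ^ 2) / (η * Λ) ^ 2 + (2 * η + 1 / Λ) := by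
    intro x
    set a : ℝ := (cn Rk A x : ℝ) with ha
    set b : ℝ := (cn Rk B x : ℝ) with hb
    have ha0 : 0 ≤ a := by positivity
    have hb0 : 0 ≤ b := by positivity
    have hηΛ : 0 < η * Λ := by positivity
    have hmax : 0 < max a (b + 1) := lt_of_lt_of_le (by linarith) (le_max_right _ _)
    by_cases h1 : |a - Λ| ≤ η * Λ ∧ |b - Λ| ≤ η * Λ
    · have h2 := (abs_le.1 h1.1)
      have h3 := (abs_le.1 h1.2)
      have h4 : 1 - a / max a (b + 1) ≤ 2 * η + 1 / Λ := by
        rw [sub_le_iff_le_add, ← sub_le_iff_le_add', le_div_iff₀ hmax]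
        have h5 : max a (b + 1) ≤ (1 + η) * Λ + 1 := by
          apply max_le
          · linarith
          · linarith
        have h6 : 0 ≤ 1 / Λ := by positivity
        have h7 : 1 / Λ * Λ = 1 := by field_simp
        by_cases h8 : 0 ≤ 1 - (2 * η + 1 / Λ)
        · calc (1 - (2 * η + 1 / Λ)) * max a (b + 1) ≤ (1 - (2 * η + 1 / Λ)) * ((1 + η) * Λ + 1) := by gcongr
            _ ≤ (1 - η) * Λ := by
              have h9 : 0 < η := by positivity
              nlinarith [mul_pos h9 hΛpos, mul_nonneg h9.le h6, mul_pos (mul_pos h9 h9) hΛpos]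
            _ ≤ a := by linarith
        · push Not at h8
          have : (1 - (2 * η + 1 / Λ)) * max a (b + 1) ≤ 0 := by
            apply mul_nonpos_of_nonpos_of_nonneg h8.le hmax.le
          linarith
      have h5 : 0 ≤ ((a - Λ) ^ 2 + (b - Λ) ^ 2) / (η * Λ) ^ 2 := by positivity
      linarith
    · have h2 : 1 ≤ ((a - Λ) ^ 2 + (b - Λ) ^ 2) / (η * Λ) ^ 2 := by
        rw [one_le_div (by positivity)]
        rw [not_and_or] at h1
        rcases h1 with h | h
        · push Not at h
          have : (η * Λ) ^ 2 ≤ (a - Λ) ^ 2 := by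
            rw [← sq_abs (a - Λ)]
            exact pow_le_pow_left₀ hηΛ.le h.le 2
          nlinarith [sq_nonneg (b - Λ)]
        · push Not at h
          have : (η * Λ) ^ 2 ≤ (b - Λ) ^ 2 := by
            rw [← sq_abs (b - Λ)]
            exact pow_le_pow_left₀ hηΛ.le h.le 2
          nlinarith [sq_nonneg (a - Λ)]
      have h3 : 0 ≤ a / max a (b + 1) := by positivity
      have h4 : 0 ≤ 2 * η + 1 / Λ := by positivity
      linarith
  have hsum : Nn - ∑ x : (∀ r, Z r), (cn Rk A x : ℝ) / max (cn Rk A x : ℝ) ((cn Rk B x : ℝ) + 1)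
      = ∑ x : (∀ r, Z r), (1 - (cn Rk A x : ℝ) / max (cn Rk A x : ℝ) ((cn Rk B x : ℝ) + 1)) := by
    rw [Finset.sum_sub_distrib]
    simp [hNn]
  rw [hsum]
  calc ∑ x : (∀ r, Z r), (1 - (cn Rk A x : ℝ) / max (cn Rk A x : ℝ) ((cn Rk B x : ℝ) + 1))
      ≤ ∑ x : (∀ r, Z r), ((((cn Rk A x : ℝ) - Λ) ^ 2 + ((cn Rk B x : ℝ) - Λ) ^ 2) / (η * Λ) ^ 2
        + (2 * η + 1 / Λ)) := Finset.sum_le_sum (fun x _ => hpt x)
    _ = (∑ x : (∀ r, Z r), ((cn Rk A x : ℝ) - Λ) ^ 2 + ∑ x : (∀ r, Z r), ((cn Rk B x : ℝ) - Λ) ^ 2) /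
        (η * Λ) ^ 2 + Nn * (2 * η + 1 / Λ) := by
        rw [Finset.sum_add_distrib, ← Finset.sum_div, Finset.sum_add_distrib, Finset.sum_const,
          nsmul_eq_mul, Finset.card_univ]
    _ ≤ (Nn * Λ + Nn * Λ) / (η * Λ) ^ 2 + Nn * (2 * η + 1 / Λ) := by gcongr
    _ = Nn * (32 / (δ ^ 2 * Λ) + δ / 2 + 1 / Λ) := by
        rw [hη]
        field_simp
        ring
    _ ≤ Nn * (δ / 8 + δ / 2 + δ / 8) := by
        have h1 : 32 / (δ ^ 2 * Λ) ≤ δ / 8 := by
          rw [div_le_div_iff₀ (by positivity) (by norm_num)]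
          rw [div_le_iff₀ (by positivity)] at hΛ
          nlinarith
        have h2 : 1 / Λ ≤ δ / 8 := by
          rw [div_le_div_iff₀ hΛpos (by norm_num)]
          rw [div_le_iff₀ (by positivity)] at hΛ
          have h3 : δ ^ 3 ≤ δ := by nlinarith [sq_nonneg δ, mul_pos hδ hδ]
          have h4 : Λ * δ ^ 3 ≤ Λ * δ := by gcongr
          linarith
        gcongr
    _ ≤ δ * Nn := by nlinarith

end Pool.H359R3.WH
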