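import Mathlib
import Pool.Agent.H359R3.WH2

set_option autoImplicit false
set_option linter.unusedSectionVars false
set_option linter.unusedVariables false

/-!
The digit system: coprime moduli, zones and the position function.
-/

namespace Pool.H359R3.WH

open Finset

/-- the moduli `c (D + i) + 1` -/
def pm (c D i : ℕ) : ℕ := c * (D + i) + 1

theorem pm_coprime (c D i j : ℕ) (hi : i < D) (hj : j < D) (hij : i ≠ j) (hc : D.factorial ∣ c) :
    Nat.Coprime (pm c D i) (pm c D j) := by
  rw [Nat.coprime_iff_gcd_eq_one]
  by_contra hne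
  obtain ⟨q, hq, hqd⟩ := Nat.exists_prime_and_dvd hne
  have h1 : q ∣ pm c D i := hqd.trans (Nat.gcd_dvd_left _ _)
  have h2 : q ∣ pm c D j := hqd.trans (Nat.gcd_dvd_right _ _)
  have hqc : ¬ q ∣ c := by
    intro h
    have h3 : q ∣ c * (D + i) := h.mul_right _
    have h4 : q ∣ 1 := (Nat.dvd_add_right h3).1 h1
    exact hq.one_lt.ne' (Nat.dvd_one.1 h4)
  have key : ∀ a b : ℕ, a < b → b < D → q ∣ pm c D a → q ∣ pm c D b → False := by
    intro a b hab hb ha' hb'
    have h5 : pm c D b = pm c D a + c * (b - a) := by
      unfold pm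
      obtain ⟨e, rfl⟩ := Nat.exists_eq_add_of_lt hab
      have : a + e + 1 - a = e + 1 := by omega
      rw [this]
      ring
    rw [h5] at hb'
    have h6 : q ∣ c * (b - a) := (Nat.dvd_add_right ha').1 hb'
    rcases (Nat.Prime.dvd_mul hq).1 h6 with h | h
    · exact hqc h
    · have h7 : q ≤ b - a := Nat.le_of_dvd (by omega) h
      have h8 : q ∣ D.factorial := (Nat.Prime.dvd_factorial hq).2 (by omega)
      exact hqc (h8.trans hc)
  rcases lt_or_gt_of_ne hij with h | h
  · exact key i j h hj h1 h2
  · exact key j i h hi h2 h1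

theorem pm_coprime_of_dvd (c D i o : ℕ) (ho : o ∣ c) : Nat.Coprime (pm c D i) o := by
  rw [Nat.coprime_iff_gcd_eq_one]
  by_contra hne
  obtain ⟨q, hq, hqd⟩ := Nat.exists_prime_and_dvd hne
  have h1 : q ∣ pm c D i := hqd.trans (Nat.gcd_dvd_left _ _)
  have h2 : q ∣ o := hqd.trans (Nat.gcd_dvd_right _ _)
  have h3 : q ∣ c * (D + i) := (h2.trans ho).mul_right _
  have h4 : q ∣ 1 := (Nat.dvd_add_right h3).1 h1
  exact hq.one_lt.ne' (Nat.dvd_one.1 h4)

section zones

variable (p b : ℕ) [NeZero p]

/-- first zone -/
def zA : Finset (ZMod p) := univ.filter (fun z => z.val < b)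
/-- second zone -/
def zB : Finset (ZMod p) := univ.filter (fun z => b ≤ z.val ∧ z.val < 2 * b)

theorem val_add_of_lt (z : ZMod p) (k : ℕ) (h : z.val + k < p) : (z + (k : ZMod p)).val = z.val + k := by
  have h1 : (z + (k : ZMod p)) = ((z.val + k : ℕ) : ZMod p) := by
    push_cast
    rw [ZMod.natCast_zmod_val]
  rw [h1, ZMod.val_cast_of_lt h]

theorem zone_iff (hb : 3 * b ≤ p) (hb0 : 0 < b) (z : ZMod p) : z ∈ zA p b ↔ z + (b : ZMod p) ∈ zB p b := by
  unfold zA zB
  simp only [Finset.mem_filter, Finset.mem_univ, true_and]
  constructor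
  · intro h
    rw [val_add_of_lt p z b (by omega)]
    omega
  · rintro ⟨h1, h2⟩
    have h3 : z.val < p := ZMod.val_lt z
    by_contra hc
    push Not at hc
    by_cases h4 : z.val + b < p
    · rw [val_add_of_lt p z b h4] at h1 h2
      omega
    · -- wrap
      have h5 : (z + (b : ZMod p)) = ((z.val + b - p : ℕ) : ZMod p) := by
        have : ((z.val + b : ℕ) : ZMod p) = ((z.val + b - p : ℕ) : ZMod p) := by
          conv_lhs => rw [show z.val + b = (z.val + b - p) + p by omega]
          push_cast
          simp
        rw [← this]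
        push_cast
        rw [ZMod.natCast_zmod_val]
      rw [h5, ZMod.val_cast_of_lt (by omega)] at h1
      omega

theorem zone_disj (z : ZMod p) (h : z ∈ zA p b) : z ∉ zB p b := by
  unfold zA zB at *
  simp only [Finset.mem_filter, Finset.mem_univ, true_and] at *
  omega

theorem zone_next (hb : 3 * b ≤ p) (hb0 : 0 < b) (z : ZMod p) (h : z ∈ zB p b) :
    z + (b : ZMod p) ∉ zB p b := by
  intro h2
  rw [← zone_iff p b hb hb0] at h2
  exact zone_disj p b z h2 h

theorem card_zA (hb : b ≤ p) : (zA p b).card = b := by
  have h1 : (zA p b).card = (Finset.range b).card := by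
    symm
    apply Finset.card_bij (fun (i : ℕ) _ => (i : ZMod p))
    · intro i hi
      rw [Finset.mem_range] at hi
      unfold zA
      simp only [Finset.mem_filter, Finset.mem_univ, true_and]
      rw [ZMod.val_cast_of_lt (by omega)]
      exact hi
    · intro i hi j hj h
      rw [Finset.mem_range] at hi hj
      have := congrArg ZMod.val h
      rwa [ZMod.val_cast_of_lt (by omega), ZMod.val_cast_of_lt (by omega)] at this
    · intro z hz
      unfold zA at hz
      simp only [Finset.mem_filter, Finset.mem_univ, true_and] at hz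
      exact ⟨z.val, by rw [Finset.mem_range]; exact hz, by simp⟩
  rw [h1, Finset.card_range]

theorem card_zB (hb : 3 * b ≤ p) (hb0 : 0 < b) : (zB p b).card = b := by
  have hA := card_zA p b (by omega)
  have hAB : (zA p b).card = (zB p b).card := ?_
  · rw [← hAB, hA]
  apply Finset.card_bij (fun z _ => z + (b : ZMod p))
  · intro z hz
    exact (zone_iff p b hb hb0 z).1 hz
  · intro a _ a' _ h
    simpa using h
  · intro z hz
    refine ⟨z - (b : ZMod p), ?_, by ring⟩
    rw [zone_iff p b hb hb0]
    simpa using hz

/-- local position function -/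
def fz (κ : ℤ) (z : ZMod p) : ℤ := if z ∈ zB p b then κ else 0

theorem fz_shift (hb : 3 * b ≤ p) (hb0 : 0 < b) (κ : ℤ) (z : ZMod p) :
    (z ∈ zA p b → fz p b κ (z + b) - fz p b κ z = κ) ∧
    (fz p b κ (z + b) - fz p b κ z = 0 ∨ fz p b κ (z + b) - fz p b κ z = κ ∨
      fz p b κ (z + b) - fz p b κ z = -κ) ∧
    (z ∉ zA p b → z ∉ zB p b → fz p b κ (z + b) - fz p b κ z = 0) := by
  have h1 := zone_iff p b hb hb0 z
  have h2 := zone_disj p b z
  have h3 := zone_next p b hb hb0 z
  unfold fz
  by_cases hA : z ∈ zA p b
  · have hB := h2 hA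
    have hB' := h1.1 hA
    simp [hA, hB, hB']
  · by_cases hB : z ∈ zB p b
    · have := h3 hB
      simp [hA, hB, this]
    · have : z + (b : ZMod p) ∉ zB p b := fun h => hA (h1.2 h)
      simp [hA, hB, this]

theorem fz_bd (κ : ℤ) : (univ.filter (fun z : ZMod p => fz p b κ (z - 1) ≠ fz p b κ z)).card ≤ 2 := by
  have hsub : univ.filter (fun z : ZMod p => fz p b κ (z - 1) ≠ fz p b κ z) ⊆
      {(b : ZMod p), ((2 * b : ℕ) : ZMod p)} ∪ {(0 : ZMod p)} := by
    intro z hz
    simp only [Finset.mem_filter, Finset.mem_univ, true_and] at hz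
    rw [Finset.mem_union, Finset.mem_insert, Finset.mem_singleton, Finset.mem_singleton]
    by_contra hcon
    push Not at hcon
    obtain ⟨⟨h1, h2⟩, h3⟩ := hcon
    have hz0 : z.val ≠ 0 := by
      intro h
      apply h3
      exact (ZMod.val_eq_zero z).1 h
    have hzb : z.val ≠ b := by
      intro h
      apply h1
      rw [← h]
      simp
    have hz2b : z.val ≠ 2 * b := by
      intro h
      apply h2
      rw [← h]
      simp
    apply hz
    have h4 : (z - 1).val = z.val - 1 := by
      have h5 : ((z.val - 1 : ℕ) : ZMod p) = z - 1 := by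
        have : 1 ≤ z.val := by omega
        push_cast [Nat.cast_sub this]
        simp
      rw [← h5, ZMod.val_cast_of_lt]
      have := ZMod.val_lt z
      omega
    unfold fz zB
    simp only [Finset.mem_filter, Finset.mem_univ, true_and, h4]
    congr 1
    apply propext
    constructor <;> intro h <;> omega
  -- if `0` is a boundary then `b` wraps; treat separately
  have h0 : (univ.filter (fun z : ZMod p => fz p b κ (z - 1) ≠ fz p b κ z)) ⊆
      {(b : ZMod p), ((2 * b : ℕ) : ZMod p)} ∪ {(0 : ZMod p)} := hsub
  by_cases hz : (0 : ZMod p) ∈ univ.filter (fun z : ZMod p => fz p b κ (z - 1) ≠ fz p b κ z)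
  · -- then p - 1 ∈ zB or 0 ∈ zB
    simp only [Finset.mem_filter, Finset.mem_univ, true_and] at hz
    by_cases hb : (0 : ZMod p) ∈ zB p b
    · -- b ≤ 0 and 0 < 2 b : impossible
      unfold zB at hb
      simp only [Finset.mem_filter, Finset.mem_univ, true_and, ZMod.val_zero] at hb
      omega
    · have hm : (0 - 1 : ZMod p) ∈ zB p b := by
        by_contra hm
        apply hz
        unfold fz
        rw [if_neg hb, if_neg hm]
      unfold zB at hm
      simp only [Finset.mem_filter, Finset.mem_univ, true_and] at hm
      have hv : (0 - 1 : ZMod p).val = p - 1 := by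
        have hp : 0 < p := NeZero.pos p
        have h5 : ((p - 1 : ℕ) : ZMod p) = 0 - 1 := by
          push_cast [Nat.cast_sub hp]
          simp
        rw [← h5, ZMod.val_cast_of_lt (by omega)]
      rw [hv] at hm
      -- here p ≤ 2 b so that the value 2 b is not attained as a val
      have hsub2 : univ.filter (fun z : ZMod p => fz p b κ (z - 1) ≠ fz p b κ z) ⊆
          {(b : ZMod p), (0 : ZMod p)} := by
        intro z hz'
        have hz2 := hz'
        simp only [Finset.mem_filter, Finset.mem_univ, true_and] at hz'
        rw [Finset.mem_insert, Finset.mem_singleton]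
        by_contra hcon
        push Not at hcon
        obtain ⟨h1, h3⟩ := hcon
        have hz0 : z.val ≠ 0 := fun h => h3 ((ZMod.val_eq_zero z).1 h)
        have hzb : z.val ≠ b := by
          intro h
          apply h1
          rw [← h]
          simp
        apply hz'
        have h4 : (z - 1).val = z.val - 1 := by
          have h5 : ((z.val - 1 : ℕ) : ZMod p) = z - 1 := by
            have : 1 ≤ z.val := by omega
            push_cast [Nat.cast_sub this]
            simp
          rw [← h5, ZMod.val_cast_of_lt]
          have := ZMod.val_lt z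
          omega
        have hzl := ZMod.val_lt z
        unfold fz zB
        simp only [Finset.mem_filter, Finset.mem_univ, true_and, h4]
        congr 1
        apply propext
        constructor <;> intro h <;> omega
      exact (Finset.card_le_card hsub2).trans Finset.card_le_two
  · have hsub3 : univ.filter (fun z : ZMod p => fz p b κ (z - 1) ≠ fz p b κ z) ⊆
        {(b : ZMod p), ((2 * b : ℕ) : ZMod p)} := by
      intro z hz'
      have := hsub hz'
      rw [Finset.mem_union] at this
      rcases this with h | h
      · exact h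
      · rw [Finset.mem_singleton] at h
        rw [h] at hz'
        exact absurd hz' hz
    exact (Finset.card_le_card hsub3).trans Finset.card_le_two

theorem sum_window (g : ZMod p → ℕ) (x : ZMod p) (q : ℕ) :
    ∑ u ∈ Finset.range (p * q), g (x + (u : ZMod p)) = q * ∑ z, g z := by
  have h1 : ∀ x : ZMod p, ∑ u ∈ Finset.range p, g (x + (u : ZMod p)) = ∑ z, g z := by
    intro x
    apply Finset.sum_bij (fun (u : ℕ) _ => x + (u : ZMod p))
    · intro _ _; exact mem_univ _
    · intro a ha b hb h
      rw [Finset.mem_range] at ha hb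
      have h2 := add_left_cancel h
      have := congrArg ZMod.val h2
      rwa [ZMod.val_cast_of_lt ha, ZMod.val_cast_of_lt hb] at this
    · intro z _
      exact ⟨(z - x).val, by rw [Finset.mem_range]; exact ZMod.val_lt _, by simp⟩
    · intro _ _; rfl
  induction q generalizing x with
  | zero => simp
  | succ q ih =>
    rw [Nat.mul_succ, Finset.sum_range_add, ih x]
    have h2 : ∑ u ∈ Finset.range p, g (x + ((p * q + u : ℕ) : ZMod p)) = ∑ z, g z := by
      rw [← h1 x]
      apply Finset.sum_congr rfl
      intro u _
      congr 2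
      push_cast
      simp
    rw [h2]
    ring

end zones

end Pool.H359R3.WH
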