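import Mathlib
import Pool.Agent.H359R3.WH3

set_option autoImplicit false
set_option linter.unusedSectionVars false
set_option linter.unusedVariables false

/-!
The finite model: skew product with a digit group.
-/

namespace Pool.H359R3.WH

open Finset

section model

variable {R : Type} [Fintype R] [DecidableEq R] (p b κ : R → ℕ) [∀ r, NeZero (p r)]

abbrev GG : Type := ∀ r, ZMod (p r)

/-- position function -/
def aa (x : GG p) : ℤ := ∑ r, fz (p r) (b r) (κ r) (x r)

variable {X : Type} [Fintype X] [DecidableEq X] (t : Equiv.Perm X)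

def TnFun (n : ℤ) (w : GG p × X) : GG p × X :=
  (w.1 + (n : GG p), (t ^ (n + aa p b κ (w.1 + (n : GG p)) - aa p b κ w.1)) w.2)

theorem TnFun_add (m n : ℤ) (w : GG p × X) :
    TnFun p b κ t m (TnFun p b κ t n w) = TnFun p b κ t (m + n) w := by
  unfold TnFun
  have h1 : w.1 + (n : GG p) + (m : GG p) = w.1 + ((m + n : ℤ) : GG p) := by
    push_cast
    ring
  ext1
  · exact h1
  · simp only
    rw [h1, ← Equiv.Perm.mul_apply, ← zpow_add]
    congr 2
    ring

theorem TnFun_zero (w : GG p × X) : TnFun p b κ t 0 w = w := by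
  unfold TnFun
  simp

/-- the transformation -/
def T1 : Equiv.Perm (GG p × X) where
  toFun := TnFun p b κ t 1
  invFun := TnFun p b κ t (-1)
  left_inv := fun w => by rw [TnFun_add]; exact TnFun_zero p b κ t w
  right_inv := fun w => by rw [TnFun_add]; exact TnFun_zero p b κ t w

theorem T1_apply (w : GG p × X) : T1 p b κ t w = TnFun p b κ t 1 w := rfl

theorem T1_symm_apply (w : GG p × X) : (T1 p b κ t)⁻¹ w = TnFun p b κ t (-1) w := rfl

theorem T1_pow (n : ℕ) (w : GG p × X) : ((T1 p b κ t) ^ n) w = TnFun p b κ t n w := by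
  induction n with
  | zero => simp [TnFun_zero]
  | succ n ih =>
    rw [pow_succ', Equiv.Perm.mul_apply, ih, T1_apply, TnFun_add]
    congr 1
    push_cast
    ring

theorem T1_inv_pow (n : ℕ) (w : GG p × X) : ((T1 p b κ t)⁻¹ ^ n) w = TnFun p b κ t (-(n : ℤ)) w := by
  induction n with
  | zero => simp [TnFun_zero]
  | succ n ih =>
    rw [pow_succ', Equiv.Perm.mul_apply, ih, T1_symm_apply, TnFun_add]
    congr 1
    push_cast
    ring

/-- the skew map -/
def S1 (π : X → Equiv.Perm (GG p)) (s' : Equiv.Perm X) : Equiv.Perm (GG p × X) where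
  toFun := fun w => (π w.2 w.1, s' w.2)
  invFun := fun w => ((π (s'.symm w.2)).symm w.1, s'.symm w.2)
  left_inv := fun w => by simp
  right_inv := fun w => by simp

theorem S1_apply (π : X → Equiv.Perm (GG p)) (s' : Equiv.Perm X) (w : GG p × X) :
    S1 p π s' w = (π w.2 w.1, s' w.2) := rfl

/-- hypothesis package on the digits -/
structure DigOK (o : ℕ) : Prop where
  hb : ∀ r, 3 * b r ≤ p r
  hb0 : ∀ r, 0 < b r
  cop : ∀ r s, r ≠ s → Nat.Coprime (p r) (p s)
  copo : ∀ r, Nat.Coprime (p r) o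

variable {p b}

theorem exists_q {o : ℕ} (h : DigOK p b o) (r : R) :
    ∃ q : ℕ, o ∣ q ∧ (∀ s, s ≠ r → ((q : ℕ) : ZMod (p s)) = 0) ∧ ((q : ℕ) : ZMod (p r)) = (b r : ZMod (p r)) := by
  set P : ℕ := o * ∏ s ∈ univ.erase r, p s with hP
  have hco : Nat.Coprime (p r) P := by
    apply Nat.Coprime.mul_right (h.copo r)
    apply Nat.Coprime.prod_right
    intro s hs
    exact h.cop r s (Finset.ne_of_mem_erase hs).symm
  obtain ⟨q, hq1, hq2⟩ := Nat.chineseRemainder hco (b r) 0
  have hPq : P ∣ q := (Nat.modEq_zero_iff_dvd).1 hq2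
  refine ⟨q, (Dvd.intro _ rfl).trans hPq, ?_, ?_⟩
  · intro s hs
    rw [ZMod.natCast_eq_zero_iff]
    refine dvd_trans ?_ hPq
    apply Dvd.dvd.mul_left
    exact Finset.dvd_prod_of_mem p (Finset.mem_erase.2 ⟨hs, mem_univ _⟩)
  · exact (ZMod.natCast_eq_natCast_iff _ _ _).2 hq1

noncomputable def qq {o : ℕ} (h : DigOK p b o) (r : R) : ℕ := (exists_q h r).choose

theorem qq_spec {o : ℕ} (h : DigOK p b o) (r : R) : o ∣ qq h r ∧
    (∀ s, s ≠ r → ((qq h r : ℕ) : ZMod (p s)) = 0) ∧
      ((qq h r : ℕ) : ZMod (p r)) = (b r : ZMod (p r)) := (exists_q h r).choose_spec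

/-- translation of the digit `r` -/
def trn (b : R → ℕ) (r : R) : Equiv.Perm (ZMod (p r)) := Equiv.addRight (b r : ZMod (p r))

theorem add_qq {o : ℕ} (h : DigOK p b o) (r : R) (x : GG p) :
    x + ((qq h r : ℕ) : GG p) = mv (fun r => trn (p := p) b r) r x := by
  obtain ⟨_, h2, h3⟩ := qq_spec h r
  funext s
  unfold mv trn
  by_cases hs : s = r
  · subst hs
    rw [Function.update_self]
    simp [h3]
  · rw [Function.update_of_ne hs]
    simp [h2 s hs]

theorem aa_diff {o : ℕ} (h : DigOK p b o) (r : R) (x : GG p) :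
    aa p b κ (x + ((qq h r : ℕ) : GG p)) - aa p b κ x =
      fz (p r) (b r) (κ r) (x r + (b r : ZMod (p r))) - fz (p r) (b r) (κ r) (x r) := by
  unfold aa
  rw [← Finset.sum_sub_distrib]
  rw [Finset.sum_eq_single r]
  · congr 2
    obtain ⟨_, h2, h3⟩ := qq_spec h r
    simp [h3]
  · intro s _ hs
    obtain ⟨_, h2, h3⟩ := qq_spec h r
    have : (x + ((qq h r : ℕ) : GG p)) s = x s := by simp [h2 s hs]
    rw [this, sub_self]
  · intro h; exact absurd (mem_univ _) h

theorem TnFun_qq (h : DigOK p b (orderOf t)) (r : R) (w : GG p × X) :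
    TnFun p b κ t (qq h r : ℕ) w = (mv (fun r => trn (p := p) b r) r w.1,
      (t ^ (fz (p r) (b r) (κ r) (w.1 r + (b r : ZMod (p r))) - fz (p r) (b r) (κ r) (w.1 r))) w.2) := by
  unfold TnFun
  have h1 : ((((qq h r : ℕ) : ℤ)) : GG p) = ((qq h r : ℕ) : GG p) := by push_cast; rfl
  rw [h1]
  ext1
  · exact add_qq h r w.1
  · simp only
    have h2 := aa_diff κ h r w.1
    rw [add_sub_assoc, h2, zpow_add, zpow_natCast]
    have h3 : t ^ (qq h r) = 1 := orderOf_dvd_iff_pow_eq_one.1 (qq_spec h r).1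
    rw [h3, one_mul]

end model

end Pool.H359R3.WH
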