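import Mathlib
import Pool.Agent.H359R3.WH4

set_option autoImplicit false
set_option linter.unusedSectionVars false
set_option linter.unusedVariables false

/-!
Estimate of the averages in the finite model.
-/

namespace Pool.H359R3.WH

open Finset

section est

variable {R : Type} [Fintype R] [DecidableEq R] {p b : R → ℕ} (κ : R → ℕ) [∀ r, NeZero (p r)]
variable {X : Type} [Fintype X] [DecidableEq X] (t : Equiv.Perm X)
variable {Y : Type} [Fintype Y] [DecidableEq Y] (τ : Equiv.Perm Y) (y : X → Y)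
variable {Lb : Type} [DecidableEq Lb] (lab : Y → Lb)

/-- mismatch indicator -/
def ind (P : Prop) [Decidable P] : ℝ := if P then 1 else 0

theorem ind_nonneg (P : Prop) [Decidable P] : 0 ≤ ind P := by
  unfold ind; split_ifs <;> norm_num

theorem ind_le_one (P : Prop) [Decidable P] : ind P ≤ 1 := by
  unfold ind; split_ifs <;> norm_num

def vv (k : ℕ) (l : X) : ℝ :=
  ind (lab (y ((t ^ (k : ℤ)) l)) ≠ lab (y l)) + ind (lab (y ((t ^ (-(k : ℤ))) l)) ≠ lab (y l))

theorem vv_nonneg (k : ℕ) (l : X) : 0 ≤ vv t y lab k l := by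
  unfold vv
  linarith [ind_nonneg (lab (y ((t ^ (k : ℤ)) l)) ≠ lab (y l)),
    ind_nonneg (lab (y ((t ^ (-(k : ℤ))) l)) ≠ lab (y l))]

theorem vv_le_two (k : ℕ) (l : X) : vv t y lab k l ≤ 2 := by
  unfold vv
  linarith [ind_le_one (lab (y ((t ^ (k : ℤ)) l)) ≠ lab (y l)),
    ind_le_one (lab (y ((t ^ (-(k : ℤ))) l)) ≠ lab (y l))]

/-- almost period -/
def AP (L : ℕ) (ε : ℝ) (k : ℕ) : Prop :=
  ∀ z : Y, ∑ u ∈ range L, ind (lab ((τ ^ ((k : ℤ) + (u : ℤ))) z) ≠ lab ((τ ^ (u : ℤ)) z)) ≤ ε * L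

theorem AP_back (L : ℕ) (ε : ℝ) (k : ℕ) (h : AP τ lab L ε k) (z : Y) :
    ∑ u ∈ range L, ind (lab ((τ ^ ((k : ℤ) - (u : ℤ))) z) ≠ lab ((τ ^ (-(u : ℤ))) z)) ≤ ε * L := by
  have h1 := h ((τ ^ (-((L : ℤ) - 1))) z)
  rw [← Finset.sum_range_reflect] at h1
  refine le_trans (le_of_eq ?_) h1
  apply Finset.sum_congr rfl
  intro u hu
  rw [Finset.mem_range] at hu
  have h2 : ((L - 1 - u : ℕ) : ℤ) = (L : ℤ) - 1 - u := by omega
  rw [← Equiv.Perm.mul_apply, ← Equiv.Perm.mul_apply, ← zpow_add, ← zpow_add, h2]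
  have e1 : (k : ℤ) + ((L : ℤ) - 1 - u) + -((L : ℤ) - 1) = (k : ℤ) - u := by ring
  have e2 : ((L : ℤ) - 1 - u) + -((L : ℤ) - 1) = -(u : ℤ) := by ring
  rw [e1, e2]

/-- clean points -/
def clean (b : R → ℕ) (L E : ℕ) (w : GG p × X) : Prop :=
  (∀ u : ℕ, u < L → aa p b κ (w.1 + ((-(u : ℤ) : ℤ) : GG p)) = aa p b κ w.1) ∧
  (∀ e : ℤ, |e| ≤ E → y ((t ^ e) w.2) = (τ ^ e) (y w.2))

theorem window (L E : ℕ) (ε : ℝ) (k : ℕ) (hAP : AP τ lab L ε k) (hkE : k + L ≤ E) (w : GG p × X)
    (hw : clean κ t τ y b L E w) :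
    ∑ u ∈ range L, vv t y lab k (TnFun p b κ t (-(u : ℤ)) w).2 ≤ 2 * ε * L := by
  have h1 : ∀ u ∈ range L, vv t y lab k (TnFun p b κ t (-(u : ℤ)) w).2 =
      ind (lab ((τ ^ ((k : ℤ) - (u : ℤ))) (y w.2)) ≠ lab ((τ ^ (-(u : ℤ))) (y w.2))) +
      ind (lab ((τ ^ ((k : ℤ) - (u : ℤ))) ((τ ^ (-(k : ℤ))) (y w.2))) ≠
        lab ((τ ^ (-(u : ℤ))) ((τ ^ (-(k : ℤ))) (y w.2)))) := by
    intro u hu
    rw [Finset.mem_range] at hu
    have h2 : (TnFun p b κ t (-(u : ℤ)) w).2 = (t ^ (-(u : ℤ))) w.2 := by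
      unfold TnFun
      simp only
      rw [hw.1 u hu]
      congr 2
      ring
    have c1 : y ((t ^ (-(u : ℤ))) w.2) = (τ ^ (-(u : ℤ))) (y w.2) := by
      apply hw.2
      rw [abs_neg, abs_of_nonneg (by positivity)]
      omega
    have c2 : y ((t ^ ((k : ℤ) - (u : ℤ))) w.2) = (τ ^ ((k : ℤ) - (u : ℤ))) (y w.2) := by
      apply hw.2
      rw [abs_le]
      constructor <;> omega
    have c3 : y ((t ^ (-(k : ℤ) - (u : ℤ))) w.2) = (τ ^ (-(k : ℤ) - (u : ℤ))) (y w.2) := by
      apply hw.2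
      rw [abs_le]
      constructor <;> omega
    rw [h2]
    unfold vv
    rw [← Equiv.Perm.mul_apply, ← Equiv.Perm.mul_apply, ← zpow_add, ← zpow_add, c1,
      show (k : ℤ) + -(u : ℤ) = (k : ℤ) - u by ring, show -(k : ℤ) + -(u : ℤ) = -(k : ℤ) - u by ring,
      c2, c3]
    congr 1
    rw [← Equiv.Perm.mul_apply, ← Equiv.Perm.mul_apply, ← zpow_add, ← zpow_add,
      show (k : ℤ) - u + -(k : ℤ) = -(u : ℤ) by ring, show -(u : ℤ) + -(k : ℤ) = -(k : ℤ) - u by ring]
    unfold ind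
    congr 1
    apply propext
    exact ne_comm
  rw [Finset.sum_congr rfl h1, Finset.sum_add_distrib]
  have h3 := AP_back τ lab L ε k hAP (y w.2)
  have h4 := AP_back τ lab L ε k hAP ((τ ^ (-(k : ℤ))) (y w.2))
  linarith

/-- smoothing of a bounded sequence -/
theorem smooth (V : ℕ → ℝ) (h0 : ∀ n, 0 ≤ V n) (h2 : ∀ n, V n ≤ 2) (L N : ℕ) (hL : 0 < L) :
    ∑ n ∈ Finset.Icc 1 N, V n ≤ (1 / (L : ℝ)) * ∑ n ∈ Finset.Icc 1 N, ∑ u ∈ range L, V (n + u) + 2 * L := by
  have hLr : (0 : ℝ) < L := by exact_mod_cast hL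
  have h3 : ∀ u ∈ range L, ∑ n ∈ Finset.Icc 1 N, V n ≤ ∑ n ∈ Finset.Icc 1 N, V (n + u) + 2 * L := by
    intro u hu
    rw [Finset.mem_range] at hu
    have h4 : ∑ n ∈ Finset.Icc 1 N, V (n + u) = ∑ n ∈ Finset.Icc (1 + u) (N + u), V n := by
      rw [← Finset.sum_image (s := Finset.Icc 1 N) (g := fun n => n + u) (f := V)]
      · congr 1
        rw [Finset.image_add_right_Icc]
      · intro a _ b _ h
        simpa using h
    have h5 : ∑ n ∈ Finset.Icc 1 N, V n ≤ ∑ n ∈ Finset.Icc (1 + u) (N + u), V n + ∑ n ∈ Finset.Icc 1 u, V n := by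
      calc ∑ n ∈ Finset.Icc 1 N, V n ≤ ∑ n ∈ Finset.Icc (1 + u) (N + u) ∪ Finset.Icc 1 u, V n := by
            apply Finset.sum_le_sum_of_subset_of_nonneg
            · intro n hn
              rw [Finset.mem_union, Finset.mem_Icc, Finset.mem_Icc]
              rw [Finset.mem_Icc] at hn
              omega
            · intro i _ _; exact h0 i
        _ ≤ _ := by
            have := Finset.sum_union_inter (s₁ := Finset.Icc (1 + u) (N + u)) (s₂ := Finset.Icc 1 u) (f := V)
            have h6 : 0 ≤ ∑ n ∈ Finset.Icc (1 + u) (N + u) ∩ Finset.Icc 1 u, V n :=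
              Finset.sum_nonneg (fun i _ => h0 i)
            linarith
    have h7 : ∑ n ∈ Finset.Icc 1 u, V n ≤ 2 * L := by
      calc ∑ n ∈ Finset.Icc 1 u, V n ≤ ∑ n ∈ Finset.Icc 1 u, (2 : ℝ) := Finset.sum_le_sum (fun n _ => h2 n)
        _ = 2 * u := by simp; ring
        _ ≤ 2 * L := by
          have : (u : ℝ) ≤ L := by exact_mod_cast hu.le
          linarith
    rw [h4]
    linarith
  have h8 : (L : ℝ) * ∑ n ∈ Finset.Icc 1 N, V n ≤
      ∑ u ∈ range L, (∑ n ∈ Finset.Icc 1 N, V (n + u) + 2 * L) := by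
    calc (L : ℝ) * ∑ n ∈ Finset.Icc 1 N, V n = ∑ u ∈ range L, ∑ n ∈ Finset.Icc 1 N, V n := by
          rw [Finset.sum_const, Finset.card_range, nsmul_eq_mul]
      _ ≤ _ := Finset.sum_le_sum h3
  rw [Finset.sum_add_distrib, Finset.sum_const, Finset.card_range, nsmul_eq_mul, Finset.sum_comm] at h8
  rw [one_div, inv_mul_eq_div]
  rw [div_add' _ _ _ hLr.ne', le_div_iff₀ hLr]
  linarith

variable (h : DigOK p b (orderOf t)) (π : X → Equiv.Perm (GG p)) (s' : Equiv.Perm X)

/-- mismatch of the two orbits at time `-n` -/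
def mis (b : R → ℕ) (n : ℕ) (w : GG p × X) : Prop :=
  lab (y (TnFun p b κ t (-(n : ℤ)) (S1 p π s' w)).2) ≠ lab (y (TnFun p b κ t (-(n : ℤ)) w).2)

instance (b : R → ℕ) (n : ℕ) : DecidablePred (mis κ t y lab π s' b n) := fun w => by
  unfold mis; infer_instance

theorem mis_le (n : ℕ) (w : GG p × X) (r : R) (hw : S1 p π s' w = TnFun p b κ t (qq h r : ℕ) w) :
    ind (mis κ t y lab π s' b n w) ≤ vv t y lab (κ r) (TnFun p b κ t (-(n : ℤ)) w).2 := by
  by_cases hm : mis κ t y lab π s' b n w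
  · have h1 : ind (mis κ t y lab π s' b n w) = 1 := by unfold ind; rw [if_pos hm]
    rw [h1]
    unfold mis at hm
    rw [hw, TnFun_add, add_comm, ← TnFun_add] at hm
    set w' := TnFun p b κ t (-(n : ℤ)) w with hw'
    rw [TnFun_qq κ t h r w'] at hm
    simp only at hm
    obtain ⟨_, h2, _⟩ := fz_shift (p r) (b r) (h.hb r) (h.hb0 r) (κ r : ℤ) (w'.1 r)
    rcases h2 with h3 | h3 | h3
    · rw [h3] at hm
      exact absurd rfl hm
    · rw [h3] at hm
      unfold vv
      have : ind (lab (y ((t ^ ((κ r : ℕ) : ℤ)) w'.2)) ≠ lab (y w'.2)) = 1 := by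
        unfold ind; rw [if_pos hm]
      rw [this]
      linarith [ind_nonneg (lab (y ((t ^ (-((κ r : ℕ) : ℤ))) w'.2)) ≠ lab (y w'.2))]
    · rw [h3] at hm
      unfold vv
      have : ind (lab (y ((t ^ (-((κ r : ℕ) : ℤ))) w'.2)) ≠ lab (y w'.2)) = 1 := by
        unfold ind; rw [if_pos hm]
      rw [this]
      linarith [ind_nonneg (lab (y ((t ^ (((κ r : ℕ) : ℤ))) w'.2)) ≠ lab (y w'.2))]
  · have h1 : ind (mis κ t y lab π s' b n w) = 0 := by unfold ind; rw [if_neg hm]
    rw [h1]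
    exact vv_nonneg _ _ _ _ _

theorem TnFun_bij (n : ℤ) : Function.Bijective (TnFun p b κ t n : GG p × X → GG p × X) := by
  refine ⟨?_, ?_⟩
  · intro a a' ha
    have := congrArg (TnFun p b κ t (-n)) ha
    rw [TnFun_add, TnFun_add] at this
    simpa [TnFun_zero] using this
  · intro a
    refine ⟨TnFun p b κ t (-n) a, ?_⟩
    rw [TnFun_add]
    simp [TnFun_zero]

open Classical in
theorem main_est (K : Finset ℕ) (L E N : ℕ) (ε : ℝ) (hL : 0 < L) (hε : 0 ≤ ε)
    (hAP : ∀ k ∈ K, AP τ lab L ε k) (hKE : ∀ k ∈ K, k + L ≤ E) :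
    ∑ n ∈ Finset.Icc 1 N, ((univ.filter (fun w : GG p × X => mis κ t y lab π s' b n w)).card : ℝ) ≤
      N * ((univ.filter (fun w : GG p × X => ¬ ∃ r, κ r ∈ K ∧
        S1 p π s' w = TnFun p b κ t (qq h r : ℕ) w)).card : ℝ) +
      N * (2 * ε * (Fintype.card (GG p × X) : ℝ) +
        2 * ((univ.filter (fun w : GG p × X => ¬ clean κ t τ y b L E w)).card : ℝ)) +
      2 * L * (Fintype.card (GG p × X) : ℝ) := by
  set gd : GG p × X → Prop := fun w => ∃ r, κ r ∈ K ∧ S1 p π s' w = TnFun p b κ t (qq h r : ℕ) w with hgd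
  have hLr : (0 : ℝ) < L := by exact_mod_cast hL
  -- the auxiliary function
  set V : GG p × X → ℕ → ℝ := fun w n => if hw : gd w then
    vv t y lab (κ hw.choose) (TnFun p b κ t (-(n : ℤ)) w).2 else 0 with hV
  have hV0 : ∀ w n, 0 ≤ V w n := by
    intro w n
    simp only [hV]
    split_ifs
    · exact vv_nonneg _ _ _ _ _
    · exact le_rfl
  have hV2 : ∀ w n, V w n ≤ 2 := by
    intro w n
    simp only [hV]
    split_ifs
    · exact vv_le_two _ _ _ _ _
    · norm_num
  have hmis : ∀ w n, ind (mis κ t y lab π s' b n w) ≤ ind (¬ gd w) + V w n := by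
    intro w n
    by_cases hw : gd w
    · have h1 := mis_le κ t y lab h π s' n w hw.choose hw.choose_spec.2
      have h2 : V w n = vv t y lab (κ hw.choose) (TnFun p b κ t (-(n : ℤ)) w).2 := by
        simp only [hV]
        rw [dif_pos hw]
      rw [h2]
      linarith [ind_nonneg (¬ gd w)]
    · have h1 : ind (¬ gd w) = 1 := by unfold ind; rw [if_pos hw]
      rw [h1]
      linarith [ind_le_one (mis κ t y lab π s' b n w), hV0 w n]
  have hwin : ∀ w n, ∑ u ∈ range L, V w (n + u) ≤ 2 * ε * L +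
      2 * L * ind (¬ clean κ t τ y b L E (TnFun p b κ t (-(n : ℤ)) w)) := by
    intro w n
    by_cases hc : clean κ t τ y b L E (TnFun p b κ t (-(n : ℤ)) w)
    · have h1 : ind (¬ clean κ t τ y b L E (TnFun p b κ t (-(n : ℤ)) w)) = 0 := by
        unfold ind; rw [if_neg (not_not.2 hc)]
      rw [h1, mul_zero, add_zero]
      by_cases hw : gd w
      · have hk := hw.choose_spec.1
        have h2 := window κ t τ y lab L E ε (κ hw.choose) (hAP _ hk) (hKE _ hk) _ hc
        refine le_trans (le_of_eq ?_) h2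
        apply Finset.sum_congr rfl
        intro u _
        simp only [hV]
        rw [dif_pos hw, TnFun_add]
        congr 3
        push_cast
        ring
      · have h2 : ∀ u ∈ range L, V w (n + u) = 0 := by
          intro u _
          simp only [hV]
          rw [dif_neg hw]
        rw [Finset.sum_congr rfl h2]
        simp
        positivity
    · have h1 : ind (¬ clean κ t τ y b L E (TnFun p b κ t (-(n : ℤ)) w)) = 1 := by
        unfold ind; rw [if_pos hc]
      rw [h1, mul_one]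
      calc ∑ u ∈ range L, V w (n + u) ≤ ∑ u ∈ range L, (2 : ℝ) := Finset.sum_le_sum (fun u _ => hV2 w _)
        _ = 2 * L := by simp; ring
        _ ≤ _ := by
          have : 0 ≤ 2 * ε * L := by positivity
          linarith
  have hcard : ∀ (P : GG p × X → Prop) [DecidablePred P], ((univ.filter P).card : ℝ) = ∑ w : GG p × X, ind (P w) := by
    intro P _
    rw [Finset.card_filter]
    push_cast
    rfl
  have hclean : ∀ n : ℕ, ∑ w : GG p × X, ind (¬ clean κ t τ y b L E (TnFun p b κ t (-(n : ℤ)) w)) =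
      ∑ w : GG p × X, ind (¬ clean κ t τ y b L E w) := by
    intro n
    exact Function.Bijective.sum_comp (TnFun_bij κ t (-(n : ℤ))) (fun w => ind (¬ clean κ t τ y b L E w))
  set C0 := ((univ.filter (fun w : GG p × X => ¬ clean κ t τ y b L E w)).card : ℝ) with hC0
  set Zc := (Fintype.card (GG p × X) : ℝ) with hZc
  have step1 : ∑ n ∈ Finset.Icc 1 N, ((univ.filter (fun w : GG p × X => mis κ t y lab π s' b n w)).card : ℝ) ≤
      N * ((univ.filter (fun w : GG p × X => ¬ gd w)).card : ℝ) + ∑ w : GG p × X, ∑ n ∈ Finset.Icc 1 N, V w n := by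
    calc ∑ n ∈ Finset.Icc 1 N, ((univ.filter (fun w : GG p × X => mis κ t y lab π s' b n w)).card : ℝ)
        = ∑ n ∈ Finset.Icc 1 N, ∑ w : GG p × X, ind (mis κ t y lab π s' b n w) := by
          apply Finset.sum_congr rfl
          intro n _
          rw [Finset.card_filter]
          push_cast
          rfl
      _ ≤ ∑ n ∈ Finset.Icc 1 N, ∑ w : GG p × X, (ind (¬ gd w) + V w n) := by
          apply Finset.sum_le_sum; intro n _
          apply Finset.sum_le_sum; intro w _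
          exact hmis w n
      _ = N * ((univ.filter (fun w : GG p × X => ¬ gd w)).card : ℝ) + ∑ w : GG p × X, ∑ n ∈ Finset.Icc 1 N, V w n := by
          simp_rw [Finset.sum_add_distrib]
          rw [Finset.sum_const, Nat.card_Icc, nsmul_eq_mul, Nat.add_sub_cancel, hcard, Finset.sum_comm]
  have step2 : ∑ w : GG p × X, ∑ n ∈ Finset.Icc 1 N, V w n ≤ N * (2 * ε * Zc + 2 * C0) + 2 * L * Zc := by
    calc ∑ w : GG p × X, ∑ n ∈ Finset.Icc 1 N, V w n
        ≤ ∑ w : GG p × X, ((1 / (L : ℝ)) * ∑ n ∈ Finset.Icc 1 N, ∑ u ∈ range L, V w (n + u) + 2 * L) := by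
          apply Finset.sum_le_sum; intro w _
          exact smooth (V w) (hV0 w) (hV2 w) L N hL
      _ ≤ ∑ w : GG p × X, ((1 / (L : ℝ)) * ∑ n ∈ Finset.Icc 1 N, (2 * ε * L +
          2 * L * ind (¬ clean κ t τ y b L E (TnFun p b κ t (-(n : ℤ)) w))) + 2 * L) := by
          apply Finset.sum_le_sum; intro w _
          gcongr with n _
          exact hwin w n
      _ = (1 / (L : ℝ)) * ∑ n ∈ Finset.Icc 1 N, (2 * ε * L * Zc + 2 * L * C0) + 2 * L * Zc := by
          rw [Finset.sum_add_distrib, ← Finset.mul_sum, Finset.sum_comm]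
          congr 1
          · congr 1
            apply Finset.sum_congr rfl
            intro n _
            rw [Finset.sum_add_distrib, Finset.sum_const, ← Finset.mul_sum, hclean n,
              nsmul_eq_mul, Finset.card_univ, hC0, hcard]
            ring
          · rw [Finset.sum_const, nsmul_eq_mul, Finset.card_univ]
            ring
      _ = N * (2 * ε * Zc + 2 * C0) + 2 * L * Zc := by
          rw [Finset.sum_const, Nat.card_Icc, nsmul_eq_mul, Nat.add_sub_cancel]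
          field_simp
  linarith

end est

end Pool.H359R3.WH
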