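import Mathlib
import Pool.Agent.H359R3.WH5

set_option autoImplicit false
set_option linter.unusedSectionVars false
set_option linter.unusedVariables false

/-!
Counting lemmas and the extension lemma.
-/

namespace Pool.H359R3.WH

open Finset

section cnt

variable {R : Type} [Fintype R] [DecidableEq R] {p b : R → ℕ} (κ : R → ℕ) [∀ r, NeZero (p r)]
variable {X : Type} [Fintype X] [DecidableEq X] (t : Equiv.Perm X)
variable {Y : Type} [Fintype Y] [DecidableEq Y] (τ : Equiv.Perm Y) (y : X → Y)

theorem count_bd (b : R → ℕ) : ((univ.filter (fun x : GG p => aa p b κ (x + ((-1 : ℤ) : GG p)) ≠ aa p b κ x)).card : ℝ)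
    ≤ (Fintype.card (GG p) : ℝ) * ∑ r, 2 / (p r : ℝ) := by
  have h1 : univ.filter (fun x : GG p => aa p b κ (x + ((-1 : ℤ) : GG p)) ≠ aa p b κ x) ⊆
      univ.biUnion (fun r => univ.filter (fun x : GG p =>
        fz (p r) (b r) (κ r) (x r - 1) ≠ fz (p r) (b r) (κ r) (x r))) := by
    intro x hx
    rw [Finset.mem_filter] at hx
    rw [Finset.mem_biUnion]
    by_contra hcon
    push Not at hcon
    apply hx.2
    unfold aa
    apply Finset.sum_congr rfl
    intro r _
    have := hcon r (mem_univ _)
    rw [Finset.mem_filter] at this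
    push Not at this
    have h2 := this (mem_univ _)
    have h3 : (x + ((-1 : ℤ) : GG p)) r = x r - 1 := by
      rw [Pi.add_apply, Pi.intCast_apply]
      push_cast
      ring
    rw [h3]
    exact h2
  have h2 : ((univ.filter (fun x : GG p => aa p b κ (x + ((-1 : ℤ) : GG p)) ≠ aa p b κ x)).card : ℝ) ≤
      ∑ r, ((univ.filter (fun x : GG p =>
        fz (p r) (b r) (κ r) (x r - 1) ≠ fz (p r) (b r) (κ r) (x r))).card : ℝ) := by
    exact_mod_cast (Finset.card_le_card h1).trans Finset.card_biUnion_le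
  refine h2.trans ?_
  rw [Finset.mul_sum]
  apply Finset.sum_le_sum
  intro r _
  have h3 := sum_one (Z := fun r => ZMod (p r)) r
    (fun z => if fz (p r) (b r) (κ r) (z - 1) ≠ fz (p r) (b r) (κ r) z then (1 : ℝ) else 0)
  have h4 : ∑ x : GG p, (if fz (p r) (b r) (κ r) (x r - 1) ≠ fz (p r) (b r) (κ r) (x r) then (1 : ℝ) else 0)
      = ((univ.filter (fun x : GG p =>
        fz (p r) (b r) (κ r) (x r - 1) ≠ fz (p r) (b r) (κ r) (x r))).card : ℝ) := by
    rw [Finset.card_filter]; push_cast; rfl
  have h5 : ∑ z : ZMod (p r), (if fz (p r) (b r) (κ r) (z - 1) ≠ fz (p r) (b r) (κ r) z then (1 : ℝ) else 0)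
      ≤ 2 := by
    have := fz_bd (p r) (b r) (κ r : ℤ)
    have h6 : ∑ z : ZMod (p r), (if fz (p r) (b r) (κ r) (z - 1) ≠ fz (p r) (b r) (κ r) z then (1 : ℝ) else 0)
       = ((univ.filter (fun z : ZMod (p r) => fz (p r) (b r) (κ r) (z - 1) ≠ fz (p r) (b r) (κ r) z)).card : ℝ) := by
      rw [Finset.card_filter]; push_cast; rfl
    rw [h6]
    exact_mod_cast this
  rw [h4, ZMod.card] at h3
  have hp : (0 : ℝ) < (p r : ℝ) := by exact_mod_cast NeZero.pos (p r)
  rw [mul_div_assoc', le_div_iff₀ hp, mul_comm, h3]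
  gcongr

theorem count_window (b : R → ℕ) (L : ℕ) :
    ((univ.filter (fun x : GG p => ¬ ∀ u : ℕ, u < L → aa p b κ (x + ((-(u : ℤ) : ℤ) : GG p)) = aa p b κ x)).card : ℝ)
    ≤ (Fintype.card (GG p) : ℝ) * (L * ∑ r, 2 / (p r : ℝ)) := by
  set P : GG p → Prop := fun x => aa p b κ (x + ((-1 : ℤ) : GG p)) ≠ aa p b κ x with hP
  have h1 : univ.filter (fun x : GG p => ¬ ∀ u : ℕ, u < L → aa p b κ (x + ((-(u : ℤ) : ℤ) : GG p)) = aa p b κ x) ⊆
      (range L).biUnion (fun v => univ.filter (fun x : GG p => P (x + ((-(v : ℤ) : ℤ) : GG p)))) := by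
    intro x hx
    rw [Finset.mem_filter] at hx
    rw [Finset.mem_biUnion]
    by_contra hcon
    push Not at hcon
    apply hx.2
    intro u hu
    have key : ∀ u : ℕ, u ≤ L → aa p b κ (x + ((-(u : ℤ) : ℤ) : GG p)) = aa p b κ x := by
      intro u
      induction u with
      | zero => intro _; simp
      | succ u ih =>
        intro hu
        rw [← ih (by omega)]
        have h2 := hcon u (Finset.mem_range.2 (by omega))
        rw [Finset.mem_filter] at h2
        push Not at h2
        have h3 := h2 (mem_univ _)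
        simp only [hP, not_not] at h3
        rw [← h3]
        congr 1
        push_cast
        ring
    exact key u hu.le
  have h2 : ∀ v : ℕ, (univ.filter (fun x : GG p => P (x + ((-(v : ℤ) : ℤ) : GG p)))).card =
      (univ.filter P).card := by
    intro v
    apply Finset.card_bij (fun x _ => x + ((-(v : ℤ) : ℤ) : GG p))
    · intro x hx
      rw [Finset.mem_filter] at hx ⊢
      exact ⟨mem_univ _, hx.2⟩
    · intro a _ a' _ h
      simpa using h
    · intro z hz
      rw [Finset.mem_filter] at hz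
      refine ⟨z - ((-(v : ℤ) : ℤ) : GG p), ?_, by ring⟩
      rw [Finset.mem_filter]
      refine ⟨mem_univ _, ?_⟩
      have : z - ((-(v : ℤ) : ℤ) : GG p) + ((-(v : ℤ) : ℤ) : GG p) = z := by ring
      rw [this]
      exact hz.2
  have h3 : ((univ.filter (fun x : GG p => ¬ ∀ u : ℕ, u < L → aa p b κ (x + ((-(u : ℤ) : ℤ) : GG p)) = aa p b κ x)).card : ℝ)
      ≤ L * ((univ.filter P).card : ℝ) := by
    have h4 := (Finset.card_le_card h1).trans Finset.card_biUnion_le
    rw [Finset.sum_congr rfl (fun v _ => h2 v), Finset.sum_const, Finset.card_range, smul_eq_mul] at h4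
    exact_mod_cast h4
  have h5 := count_bd (p := p) κ b
  calc _ ≤ L * ((univ.filter P).card : ℝ) := h3
    _ ≤ L * ((Fintype.card (GG p) : ℝ) * ∑ r, 2 / (p r : ℝ)) := by
        apply mul_le_mul_of_nonneg_left h5 (by positivity)
    _ = _ := by ring

open Classical in
theorem count_break (E : ℕ) :
    (univ.filter (fun l : X => ¬ ∀ e : ℤ, |e| ≤ E → y ((t ^ e) l) = (τ ^ e) (y l))).card ≤
      2 * E * (univ.filter (fun l : X => y (t l) ≠ τ (y l))).card := by
  classical
  set P : X → Prop := fun l => y (t l) ≠ τ (y l) with hP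
  have h1 : univ.filter (fun l : X => ¬ ∀ e : ℤ, |e| ≤ E → y ((t ^ e) l) = (τ ^ e) (y l)) ⊆
      (Finset.Ico (-(E : ℤ)) E).biUnion (fun v => univ.filter (fun l : X => P ((t ^ v) l))) := by
    intro l hl
    rw [Finset.mem_filter] at hl
    rw [Finset.mem_biUnion]
    by_contra hcon
    push Not at hcon
    apply hl.2
    have hno : ∀ v : ℤ, -(E : ℤ) ≤ v → v < E → y (t ((t ^ v) l)) = τ (y ((t ^ v) l)) := by
      intro v hv1 hv2
      have h2 := hcon v (Finset.mem_Ico.2 ⟨hv1, hv2⟩)
      rw [Finset.mem_filter] at h2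
      push Not at h2
      have h3 := h2 (mem_univ _)
      simp only [hP, not_not] at h3
      exact h3
    have kpos : ∀ n : ℕ, n ≤ E → y ((t ^ (n : ℤ)) l) = (τ ^ (n : ℤ)) (y l) := by
      intro n
      induction n with
      | zero => intro _; simp
      | succ n ih =>
        intro hn
        have h2 := hno n (by omega) (by omega)
        rw [ih (by omega)] at h2
        push_cast
        rw [add_comm, zpow_add, zpow_add, zpow_one, zpow_one, Equiv.Perm.mul_apply,
          Equiv.Perm.mul_apply]
        exact h2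
    have kneg : ∀ n : ℕ, n ≤ E → y ((t ^ (-(n : ℤ))) l) = (τ ^ (-(n : ℤ))) (y l) := by
      intro n
      induction n with
      | zero => intro _; simp
      | succ n ih =>
        intro hn
        have h2 := hno (-((n : ℤ) + 1)) (by omega) (by omega)
        have h3 : t ((t ^ (-((n : ℤ) + 1))) l) = (t ^ (-(n : ℤ))) l := by
          rw [← Equiv.Perm.mul_apply, ← zpow_one_add]
          congr 2
          ring
        rw [h3, ih (by omega)] at h2
        push_cast
        apply τ.injective
        rw [← h2, ← Equiv.Perm.mul_apply, ← zpow_one_add]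
        congr 2
        ring
    intro e he
    rcases le_or_gt 0 e with h | h
    · obtain ⟨n, rfl⟩ := Int.eq_ofNat_of_zero_le h
      apply kpos
      rw [abs_of_nonneg h] at he
      exact_mod_cast he
    · obtain ⟨n, hn⟩ := Int.eq_ofNat_of_zero_le (show 0 ≤ -e by omega)
      have : e = -(n : ℤ) := by omega
      rw [this] at he ⊢
      apply kneg
      rw [abs_neg, abs_of_nonneg (by positivity)] at he
      exact_mod_cast he
  have h2 : ∀ v : ℤ, (univ.filter (fun l : X => P ((t ^ v) l))).card = (univ.filter P).card := by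
    intro v
    apply Finset.card_bij (fun l _ => (t ^ v) l)
    · intro x hx
      rw [Finset.mem_filter] at hx ⊢
      exact ⟨mem_univ _, hx.2⟩
    · intro a _ a' _ h
      exact (t ^ v).injective h
    · intro z hz
      rw [Finset.mem_filter] at hz
      refine ⟨(t ^ v).symm z, ?_, by simp⟩
      rw [Finset.mem_filter]
      refine ⟨mem_univ _, ?_⟩
      rw [Equiv.apply_symm_apply]
      exact hz.2
  refine (Finset.card_le_card h1).trans (Finset.card_biUnion_le.trans ?_)
  rw [Finset.sum_congr rfl (fun v _ => h2 v), Finset.sum_const, smul_eq_mul, Int.card_Ico]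
  apply le_of_eq
  congr 1
  omega

end cnt

theorem ext_perm {X Q : Type} [Fintype X] (cls : X → Q) (good : X → Prop) (f : X → X)
    (hf : ∀ l, good l → cls (f l) = cls l)
    (hinj : ∀ l l', good l → good l' → f l = f l' → l = l') :
    ∃ s' : Equiv.Perm X, (∀ l, good l → s' l = f l) ∧ ∀ l, cls (s' l) = cls l := by
  classical
  have hq : ∀ q : Q, ∃ σ : Equiv.Perm {l : X // cls l = q}, ∀ l, good l.1 → (σ l).1 = f l.1 := by
    intro q
    let P : {l : X // cls l = q} → Prop := fun l => good l.1
    let P' : {l : X // cls l = q} → Prop := fun l' => ∃ l : {l : X // cls l = q}, good l.1 ∧ f l.1 = l'.1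
    let F : {l // P l} → {l' // P' l'} := fun l => ⟨⟨f l.1.1, by rw [hf _ l.2]; exact l.1.2⟩, l.1, l.2, rfl⟩
    have hF : Function.Bijective F := by
      constructor
      · intro a a' h
        have h1 : f a.1.1 = f a'.1.1 := congrArg (fun z => z.1.1) h
        have h2 := hinj _ _ a.2 a'.2 h1
        exact Subtype.ext (Subtype.ext h2)
      · rintro ⟨l', l, hl, hfl⟩
        refine ⟨⟨l, hl⟩, ?_⟩
        exact Subtype.ext (Subtype.ext hfl)
    let e : {l // P l} ≃ {l' // P' l'} := Equiv.ofBijective F hF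
    refine ⟨e.extendSubtype, fun l hl => ?_⟩
    rw [Equiv.extendSubtype_apply_of_mem e l hl]
    rfl
  choose σ hσ using hq
  let s' : Equiv.Perm X := (Equiv.sigmaFiberEquiv cls).symm.trans
    ((Equiv.sigmaCongrRight (fun q => σ q)).trans (Equiv.sigmaFiberEquiv cls))
  have hs' : ∀ l, s' l = (σ (cls l) ⟨l, rfl⟩).1 := by
    intro l
    rfl
  refine ⟨s', fun l hl => ?_, fun l => ?_⟩
  · rw [hs']
    exact hσ (cls l) ⟨l, rfl⟩ hl
  · rw [hs']
    exact (σ (cls l) ⟨l, rfl⟩).2

end Pool.H359R3.WH
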