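import Mathlib
import Pool.Agent.H359R3.WH6

set_option autoImplicit false
set_option linter.unusedSectionVars false
set_option linter.unusedVariables false

/-!
Choice of the digits.
-/

namespace Pool.H359R3.WH

open Finset

theorem exists_digits (K' : Finset ℕ) (o : ℕ) (ho : 0 < o) (δ : ℝ) (hδ : 0 < δ) (hδ1 : δ ≤ 1) (L : ℕ) :
    ∃ (R : Type) (_ : Fintype R) (_ : DecidableEq R) (p b κ : R → ℕ), (∀ r, p r ≠ 0) ∧
      DigOK p b o ∧ (∀ r, κ r ∈ K') ∧ (∀ r, 2 * (b r : ℝ) ≤ δ * (p r : ℝ)) ∧
      ((L : ℝ) + 1) * ∑ r, 2 / (p r : ℝ) ≤ δ ∧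
      ∀ k ∈ K', 256 / δ ^ 3 ≤ ∑ r ∈ univ.filter (fun r => κ r = k), (b r : ℝ) / (p r : ℝ) := by
  set m : ℕ := ⌈2 / δ⌉₊ + 3 with hm
  have hmr : 2 / δ ≤ (m : ℝ) := by
    have := Nat.le_ceil (2 / δ)
    rw [hm]
    push_cast
    linarith
  have hm3 : 3 ≤ m := by omega
  have hm0 : (0 : ℝ) < m := by
    have : 0 < m := by omega
    exact_mod_cast this
  set d : ℕ := ⌈256 / δ ^ 3 * (2 * m)⌉₊ + 1 with hd
  have hdr : 256 / δ ^ 3 * (2 * m) ≤ (d : ℝ) := by
    have := Nat.le_ceil (256 / δ ^ 3 * (2 * (m : ℝ)))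
    rw [hd]
    push_cast
    linarith
  set D : ℕ := Fintype.card ({k // k ∈ K'} × Fin d) with hD
  set C : ℕ := 2 * m + ⌈2 * ((L : ℝ) + 1) / δ⌉₊ + 1 with hC
  have hCr : 2 * ((L : ℝ) + 1) / δ ≤ (C : ℝ) := by
    have := Nat.le_ceil (2 * ((L : ℝ) + 1) / δ)
    rw [hC]
    push_cast
    have h0 : (0 : ℝ) ≤ (m : ℝ) := hm0.le
    linarith
  have hC0 : (0 : ℝ) < C := by
    have : 0 < C := by omega
    exact_mod_cast this
  set c : ℕ := D.factorial * o * C with hc
  have hcC : C ≤ c := by
    rw [hc]
    have h1 : 0 < D.factorial * o := Nat.mul_pos (Nat.factorial_pos _) ho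
    exact Nat.le_mul_of_pos_left _ h1
  let idx : ({k // k ∈ K'} × Fin d) → ℕ := fun r => (Fintype.equivFin ({k // k ∈ K'} × Fin d) r : ℕ)
  have hidx : ∀ r, idx r < D := fun r => (Fintype.equivFin ({k // k ∈ K'} × Fin d) r).2
  have hidxi : ∀ r s, idx r = idx s → r = s := by
    intro r s h
    exact (Fintype.equivFin ({k // k ∈ K'} × Fin d)).injective (Fin.ext h)
  let p : ({k // k ∈ K'} × Fin d) → ℕ := fun r => pm c D (idx r)
  have hpD : ∀ r, C * D ≤ p r := by
    intro r
    show C * D ≤ c * (D + idx r) + 1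
    calc C * D ≤ c * D := Nat.mul_le_mul_right _ hcC
      _ ≤ c * (D + idx r) + 1 := by
        have : c * (D + idx r) = c * D + c * idx r := by ring
        omega
  have hp2m : ∀ r, 2 * m ≤ p r := by
    intro r
    have h1 : 1 ≤ D := by
      have := hidx r
      omega
    calc 2 * m ≤ C * 1 := by omega
      _ ≤ C * D := Nat.mul_le_mul_left _ h1
      _ ≤ p r := hpD r
  refine ⟨{k // k ∈ K'} × Fin d, inferInstance, inferInstance, p, fun r => p r / m,
    fun r => r.1.1, ?_, ?_, ?_, ?_, ?_, ?_⟩
  · intro r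
    have := hp2m r
    omega
  · refine ⟨?_, ?_, ?_, ?_⟩
    · intro r
      show 3 * (p r / m) ≤ p r
      calc 3 * (p r / m) ≤ m * (p r / m) := Nat.mul_le_mul_right _ hm3
        _ ≤ p r := Nat.mul_div_le _ _
    · intro r
      have := hp2m r
      exact Nat.div_pos (by omega) (by omega)
    · intro r s hrs
      apply pm_coprime c D _ _ (hidx r) (hidx s)
      · intro h
        exact hrs (hidxi r s h)
      · rw [hc, mul_assoc]
        exact Dvd.intro _ rfl
    · intro r
      apply pm_coprime_of_dvd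
      rw [hc, mul_comm D.factorial o, mul_assoc]
      exact Dvd.intro _ rfl
  · intro r
    exact r.1.2
  · intro r
    have h1 : ((p r / m : ℕ) : ℝ) ≤ (p r : ℝ) / m := Nat.cast_div_le
    have hp0 : (0 : ℝ) ≤ (p r : ℝ) := by positivity
    calc 2 * ((p r / m : ℕ) : ℝ) ≤ 2 * ((p r : ℝ) / m) := by gcongr
      _ = (2 / m) * p r := by ring
      _ ≤ δ * p r := by
        apply mul_le_mul_of_nonneg_right _ hp0
        rw [div_le_iff₀ hm0]
        rw [div_le_iff₀ hδ] at hmr
        linarith
  · by_cases hD0 : D = 0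
    · have hemp : IsEmpty ({k // k ∈ K'} × Fin d) := Fintype.card_eq_zero_iff.1 hD0
      rw [Finset.univ_eq_empty, Finset.sum_empty, mul_zero]
      exact hδ.le
    · have hDr : (0 : ℝ) < D := by
        have : 0 < D := Nat.pos_of_ne_zero hD0
        exact_mod_cast this
      have h1 : ∑ r, 2 / (p r : ℝ) ≤ 2 / C := by
        calc ∑ r, 2 / (p r : ℝ) ≤ ∑ r : ({k // k ∈ K'} × Fin d), 2 / ((C : ℝ) * D) := by
              apply Finset.sum_le_sum
              intro r _
              have h2 : ((C : ℝ) * D) ≤ (p r : ℝ) := by exact_mod_cast hpD r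
              apply div_le_div_of_nonneg_left (by norm_num) (by positivity) h2
          _ = 2 / C := by
              rw [Finset.sum_const, nsmul_eq_mul, Finset.card_univ, ← hD]
              field_simp
      calc ((L : ℝ) + 1) * ∑ r, 2 / (p r : ℝ) ≤ ((L : ℝ) + 1) * (2 / C) := by gcongr
        _ = (2 * ((L : ℝ) + 1)) / C := by ring
        _ ≤ δ := by
          rw [div_le_iff₀ hC0]
          rw [div_le_iff₀ hδ] at hCr
          linarith
  · intro k hk
    have h1 : ∀ r ∈ univ.filter (fun r : ({k // k ∈ K'} × Fin d) => r.1.1 = k),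
        1 / (2 * (m : ℝ)) ≤ ((p r / m : ℕ) : ℝ) / (p r : ℝ) := by
      intro r _
      have hp : 2 * m ≤ p r := hp2m r
      have hpr : (0 : ℝ) < p r := by
        have : 0 < p r := by omega
        exact_mod_cast this
      rw [div_le_div_iff₀ (by positivity) hpr]
      have h2 : p r ≤ (p r / m) * (2 * m) := by
        have h3 := Nat.div_add_mod (p r) m
        have h4 := Nat.mod_lt (p r) (show m > 0 by omega)
        have h5 : 1 ≤ p r / m := Nat.div_pos (by omega) (by omega)
        have h6 : m ≤ m * (p r / m) := Nat.le_mul_of_pos_right _ h5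
        have h7 : (p r / m) * (2 * m) = 2 * (m * (p r / m)) := by ring
        omega
      have h8 : (p r : ℝ) ≤ ((p r / m : ℕ) : ℝ) * (2 * m) := by exact_mod_cast h2
      linarith
    calc 256 / δ ^ 3 ≤ d * (1 / (2 * (m : ℝ))) := by
          rw [mul_one_div, le_div_iff₀ (by positivity)]
          exact hdr
      _ = ∑ r ∈ univ.filter (fun r : ({k // k ∈ K'} × Fin d) => r.1.1 = k), 1 / (2 * (m : ℝ)) := by
          rw [Finset.sum_const, nsmul_eq_mul]
          congr 1
          have : (univ.filter (fun r : ({k // k ∈ K'} × Fin d) => r.1.1 = k)).card = d := by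
            have h2 : univ.filter (fun r : ({k // k ∈ K'} × Fin d) => r.1.1 = k) =
                ({⟨k, hk⟩} : Finset {k // k ∈ K'}) ×ˢ (univ : Finset (Fin d)) := by
              ext r
              rw [Finset.mem_product, Finset.mem_filter, Finset.mem_singleton]
              constructor
              · rintro ⟨_, h⟩
                exact ⟨Subtype.ext h, mem_univ _⟩
              · rintro ⟨h, _⟩
                exact ⟨mem_univ _, by rw [h]⟩
            rw [h2, Finset.card_product]
            simp
          rw [this]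
      _ ≤ _ := Finset.sum_le_sum h1

theorem card_fst {G X : Type} [Fintype G] [Fintype X] (P : G → Prop) [DecidablePred P] :
    (univ.filter (fun w : G × X => P w.1)).card = (univ.filter P).card * Fintype.card X := by
  have : univ.filter (fun w : G × X => P w.1) = (univ.filter P) ×ˢ (univ : Finset X) := by
    ext w; simp
  rw [this, Finset.card_product, Finset.card_univ]

theorem card_snd {G X : Type} [Fintype G] [Fintype X] (P : X → Prop) [DecidablePred P] :
    (univ.filter (fun w : G × X => P w.2)).card = Fintype.card G * (univ.filter P).card := by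
  have : univ.filter (fun w : G × X => P w.2) = (univ : Finset G) ×ˢ (univ.filter P) := by
    ext w; simp
  rw [this, Finset.card_product, Finset.card_univ]

theorem card_fib {G X : Type} [Fintype G] [Fintype X] (P : G → X → Prop) [∀ x, DecidablePred (fun g => P g x)]
    [DecidablePred (fun w : G × X => P w.1 w.2)] :
    (univ.filter (fun w : G × X => P w.1 w.2)).card = ∑ x : X, (univ.filter (fun g => P g x)).card := by
  simp_rw [Finset.card_filter]
  rw [Fintype.sum_prod_type_right]
  apply Finset.sum_congr rfl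
  intro x _
  apply Finset.sum_congr rfl
  intro g _
  by_cases h : P g x <;> simp [h]

end Pool.H359R3.WH
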