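import Mathlib
import Pool.Agent.H359R3.WH7

set_option autoImplicit false
set_option linter.unusedSectionVars false
set_option linter.unusedVariables false

/-!
The finite step theorem.
-/

namespace Pool.H359R3.WH

open Finset

open Classical in
/-- counting with classical decidability -/
noncomputable def nc {α : Type} [Fintype α] (P : α → Prop) : ℝ := ((univ.filter P).card : ℝ)

theorem nc_eq {α : Type} [Fintype α] (P : α → Prop) [DecidablePred P] :
    ((univ.filter P).card : ℝ) = nc P := by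
  unfold nc
  congr!

theorem nc_nonneg {α : Type} [Fintype α] (P : α → Prop) : 0 ≤ nc P := by
  unfold nc
  positivity

theorem nc_mono {α : Type} [Fintype α] {P Q : α → Prop} (h : ∀ x, P x → Q x) : nc P ≤ nc Q := by
  classical
  unfold nc
  have : (univ.filter P).card ≤ (univ.filter Q).card :=
    Finset.card_le_card (fun x hx => by
      rw [Finset.mem_filter] at hx ⊢
      exact ⟨hx.1, h x hx.2⟩)
  exact_mod_cast this

theorem nc_or {α : Type} [Fintype α] {P Q Q' : α → Prop} (h : ∀ x, P x → Q x ∨ Q' x) :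
    nc P ≤ nc Q + nc Q' := by
  classical
  unfold nc
  have : (univ.filter P).card ≤ (univ.filter Q).card + (univ.filter Q').card := by
    refine le_trans (Finset.card_le_card (t := univ.filter Q ∪ univ.filter Q') ?_) (Finset.card_union_le _ _)
    intro x hx
    rw [Finset.mem_filter] at hx
    rw [Finset.mem_union, Finset.mem_filter, Finset.mem_filter]
    rcases h x hx.2 with h | h
    · left; exact ⟨hx.1, h⟩
    · right; exact ⟨hx.1, h⟩
  exact_mod_cast this

theorem nc_fst {G X : Type} [Fintype G] [Fintype X] (P : G → Prop) :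
    nc (fun w : G × X => P w.1) = nc P * Fintype.card X := by
  classical
  unfold nc
  have := card_fst (G := G) (X := X) P
  exact_mod_cast this

theorem nc_snd {G X : Type} [Fintype G] [Fintype X] (P : X → Prop) :
    nc (fun w : G × X => P w.2) = Fintype.card G * nc P := by
  classical
  unfold nc
  have := card_snd (G := G) (X := X) P
  exact_mod_cast this

theorem nc_fib {G X : Type} [Fintype G] [Fintype X] (P : G → X → Prop) :
    nc (fun w : G × X => P w.1 w.2) = ∑ x : X, nc (fun g => P g x) := by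
  classical
  unfold nc
  have := card_fib (G := G) (X := X) P
  exact_mod_cast this

theorem nc_bij {α α' : Type} [Fintype α] [Fintype α'] (P : α → Prop) (Q : α' → Prop) (e : α ≃ α')
    (h : ∀ x, P x ↔ Q (e x)) : nc P = nc Q := by
  classical
  unfold nc
  congr 1
  apply Finset.card_bij (fun x _ => e x)
  · intro x hx
    rw [Finset.mem_filter] at hx ⊢
    exact ⟨mem_univ _, (h x).1 hx.2⟩
  · intro a _ b _ hab
    exact e.injective hab
  · intro z hz
    rw [Finset.mem_filter] at hz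
    refine ⟨e.symm z, ?_, by simp⟩
    rw [Finset.mem_filter, h]
    simpa using hz.2

/-- the data of one stage -/
structure StageOK {Y Lb : Type} [Fintype Y] [DecidableEq Lb] (τ s : Equiv.Perm Y)
    (lab : Y → Lb) (K : Finset ℕ) (L : ℕ) (ε β : ℝ) : Prop where
  hL : 0 < L
  hAP : ∀ k ∈ K, AP τ lab L ε k
  hs : nc (fun z : Y => ¬ ∃ k ∈ K, s z = (τ ^ k) z) ≤ β * Fintype.card Y

section lem

variable {R : Type} [Fintype R] [DecidableEq R] {p b : R → ℕ} (κ : R → ℕ) [∀ r, NeZero (p r)]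
variable {X : Type} [Fintype X] [DecidableEq X] (t : Equiv.Perm X)

theorem T1_zpow (n : ℤ) (w : GG p × X) : ((T1 p b κ t) ^ n) w = TnFun p b κ t n w := by
  cases n with
  | ofNat n =>
    rw [Int.ofNat_eq_natCast, zpow_natCast]
    exact T1_pow p b κ t n w
  | negSucc n =>
    rw [zpow_negSucc, ← inv_pow, T1_inv_pow]
    congr 1

/-- almost periods of the new system -/
theorem new_AP (h : DigOK p b (orderOf t)) (δ : ℝ) (hδ : 0 ≤ δ) (hb : ∀ r, 2 * (b r : ℝ) ≤ δ * (p r : ℝ))
    (L1 : ℕ) (hL1 : ∀ r, p r ∣ L1) (r : R) :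
    AP (T1 p b κ t) (Prod.snd : GG p × X → X) L1 δ (qq h r) := by
  intro z
  have h1 : ∀ u : ℕ, ind ((((T1 p b κ t) ^ (((qq h r : ℕ) : ℤ) + (u : ℤ)) : Equiv.Perm (GG p × X)) z).2 ≠
      (((T1 p b κ t) ^ (u : ℤ) : Equiv.Perm (GG p × X)) z).2) ≤
      (((if (z.1 r + (u : ZMod (p r))) ∈ zA (p r) (b r) ∪ zB (p r) (b r) then 1 else 0 : ℕ)) : ℝ) := by
    intro u
    by_cases hm : (z.1 r + (u : ZMod (p r))) ∈ zA (p r) (b r) ∪ zB (p r) (b r)
    · rw [if_pos hm]
      push_cast
      exact ind_le_one _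
    · rw [if_neg hm]
      push_cast
      unfold ind
      rw [if_neg]
      rw [not_not, zpow_add, Equiv.Perm.mul_apply, T1_zpow, T1_zpow, TnFun_qq κ t h r]
      simp only
      rw [Finset.mem_union, not_or] at hm
      have h2 := (fz_shift (p r) (b r) (h.hb r) (h.hb0 r) (κ r : ℤ) (z.1 r + (u : ZMod (p r)))).2.2 hm.1 hm.2
      have h3 : (TnFun p b κ t (u : ℤ) z).1 r = z.1 r + (u : ZMod (p r)) := by
        unfold TnFun
        simp
      rw [h3, h2]
      simp
  obtain ⟨q, hq⟩ := hL1 r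
  have h2 := sum_window (p r) (fun w => if w ∈ zA (p r) (b r) ∪ zB (p r) (b r) then 1 else 0) (z.1 r) q
  have h3 : ∑ w : ZMod (p r), (if w ∈ zA (p r) (b r) ∪ zB (p r) (b r) then 1 else 0 : ℕ) ≤ 2 * b r := by
    rw [Finset.sum_ite_mem, Finset.univ_inter, Finset.sum_const, smul_eq_mul, mul_one]
    refine (Finset.card_union_le _ _).trans ?_
    rw [card_zA (p r) (b r) (by have := h.hb r; omega), card_zB (p r) (b r) (h.hb r) (h.hb0 r)]
    omega
  calc ∑ u ∈ range L1, ind ((((T1 p b κ t) ^ (((qq h r : ℕ) : ℤ) + (u : ℤ)) : Equiv.Perm (GG p × X)) z).2 ≠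
      (((T1 p b κ t) ^ (u : ℤ) : Equiv.Perm (GG p × X)) z).2)
      ≤ ∑ u ∈ range L1, (((if (z.1 r + (u : ZMod (p r))) ∈ zA (p r) (b r) ∪ zB (p r) (b r) then 1 else 0 : ℕ)) : ℝ) :=
        Finset.sum_le_sum (fun u _ => h1 u)
    _ = ((∑ u ∈ range (p r * q), (if (z.1 r + (u : ZMod (p r))) ∈ zA (p r) (b r) ∪ zB (p r) (b r) then 1 else 0 : ℕ) : ℕ) : ℝ) := by
        rw [hq]
        push_cast
        rfl
    _ ≤ ((q * (2 * b r) : ℕ) : ℝ) := by
        rw [h2]
        exact_mod_cast Nat.mul_le_mul_left q h3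
    _ = q * (2 * (b r : ℝ)) := by push_cast; ring
    _ ≤ q * (δ * (p r : ℝ)) := mul_le_mul_of_nonneg_left (hb r) (by positivity)
    _ = δ * L1 := by rw [hq]; push_cast; ring

end lem

theorem step {Y X Lb : Type} [Fintype Y] [DecidableEq Y] [Fintype X] [Nonempty X] [DecidableEq X] [DecidableEq Lb]
    (τ s : Equiv.Perm Y) (lab : Y → Lb) (K : Finset ℕ) (L : ℕ) (ε β : ℝ) (hε : 0 ≤ ε)
    (hst : StageOK τ s lab K L ε β) (E : ℕ) (hKE : ∀ k ∈ K, k + L ≤ E)
    (t : Equiv.Perm X) (y : X → Y)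
    (hfib : ∀ z : Y, (Fintype.card Y : ℝ) * nc (fun l => y l = z) = Fintype.card X)
    (θ : ℝ) (hθ : nc (fun l : X => y (t l) ≠ τ (y l)) ≤ θ * Fintype.card X)
    (δ : ℝ) (hδ : 0 < δ) (hδ1 : δ ≤ 1) :
    ∃ (G : Type) (_ : Fintype G) (_ : Nonempty G) (T S : Equiv.Perm (G × X)) (K1 : Finset ℕ) (L1 : ℕ),
      nc (fun w : G × X => (T w).2 ≠ t w.2) ≤ δ * Fintype.card (G × X) ∧
      nc (fun w : G × X => y (S w).2 ≠ s (y w.2)) ≤ (β + 2 * E * θ) * Fintype.card (G × X) ∧
      StageOK T S (Prod.snd : G × X → X) K1 L1 δ δ ∧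
      ∀ N : ℕ, ∑ n ∈ Icc 1 N, nc (fun w : G × X =>
        lab (y ((T⁻¹ ^ n) (S w)).2) ≠ lab (y ((T⁻¹ ^ n) w).2)) ≤
        (N * (β + 2 * E * θ + δ + 2 * ε + 2 * (δ + 2 * E * θ)) + 2 * L) * Fintype.card (G × X) := by
  classical
  -- the previous exponents
  let κ0 : Y → ℕ := fun z => if h : ∃ k ∈ K, s z = (τ ^ k) z then h.choose else 0
  have hκ0 : ∀ z, (∃ k ∈ K, s z = (τ ^ k) z) → κ0 z ∈ K ∧ s z = (τ ^ (κ0 z)) z := by
    intro z hz
    simp only [κ0, dif_pos hz]
    exact hz.choose_spec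
  let good : X → Prop := fun l => (∃ k ∈ K, s (y l) = (τ ^ k) (y l)) ∧ y ((t ^ (κ0 (y l))) l) = s (y l)
  let f : X → X := fun l => (t ^ (κ0 (y l))) l
  have hinj : ∀ l l', good l → good l' → f l = f l' → l = l' := by
    intro l l' hl hl' hff
    have h1 : s (y l) = s (y l') := by rw [← hl.2, ← hl'.2]; exact congrArg y hff
    have h2 : y l = y l' := s.injective h1
    have h3 : (t ^ (κ0 (y l))) l = (t ^ (κ0 (y l))) l' := by
      have : f l' = (t ^ (κ0 (y l))) l' := by simp only [f]; rw [h2]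
      rw [← this]
      exact hff
    exact (t ^ (κ0 (y l))).injective h3
  obtain ⟨s', hs'f, hs'c⟩ := ext_perm (fun l => (Quotient.mk (Equiv.Perm.SameCycle.setoid t) l)) good f
    (by
      intro l _
      apply Quotient.sound
      show Equiv.Perm.SameCycle t (f l) l
      have h0 : Equiv.Perm.SameCycle t l (f l) := ⟨((κ0 (y l) : ℕ) : ℤ), by simp [f]⟩
      exact h0.symm) hinj
  have hpow : ∀ l, ∃ n : ℕ, (t ^ n) l = s' l := by
    intro l
    have h1 : Equiv.Perm.SameCycle t (s' l) l := Quotient.exact (hs'c l)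
    exact h1.symm.exists_nat_pow_eq
  let κ1 : X → ℕ := fun l => if good l then κ0 (y l) else (hpow l).choose
  have hκ1 : ∀ l, s' l = (t ^ (κ1 l)) l := by
    intro l
    by_cases hl : good l
    · simp only [κ1, if_pos hl]
      exact hs'f l hl
    · simp only [κ1, if_neg hl]
      exact (hpow l).choose_spec.symm
  have hκ1g : ∀ l, good l → κ1 l ∈ K := by
    intro l hl
    simp only [κ1, if_pos hl]
    exact (hκ0 _ hl.1).1
  -- bad levels
  have hb2 : nc (fun l : X => ¬ ∀ e : ℤ, |e| ≤ E → y ((t ^ e) l) = (τ ^ e) (y l)) ≤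
      2 * E * θ * Fintype.card X := by
    have e1 := count_break t τ y E
    have e2 : nc (fun l : X => ¬ ∀ e : ℤ, |e| ≤ E → y ((t ^ e) l) = (τ ^ e) (y l)) ≤
        2 * E * nc (fun l : X => y (t l) ≠ τ (y l)) := by
      rw [← nc_eq, ← nc_eq]
      exact_mod_cast e1
    refine e2.trans ?_
    calc 2 * E * nc (fun l : X => y (t l) ≠ τ (y l))
        ≤ 2 * E * (θ * Fintype.card X) := by gcongr
      _ = _ := by ring
  have hbadX : nc (fun l : X => ¬ good l) ≤ (β + 2 * E * θ) * Fintype.card X := by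
    have hb1 : nc (fun l : X => ¬ ∃ k ∈ K, s (y l) = (τ ^ k) (y l)) ≤
        β * Fintype.card X := by
      have e1 : nc (fun l : X => ¬ ∃ k ∈ K, s (y l) = (τ ^ k) (y l)) =
          ∑ z ∈ univ.filter (fun z : Y => ¬ ∃ k ∈ K, s z = (τ ^ k) z), nc (fun l => y l = z) := by
        unfold nc
        rw [← Nat.cast_sum]
        congr 1
        rw [← Finset.card_biUnion]
        · congr 1
          ext l
          simp only [Finset.mem_filter, Finset.mem_univ, true_and, Finset.mem_biUnion]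
          constructor
          · intro h; exact ⟨y l, h, rfl⟩
          · rintro ⟨z, hz, rfl⟩; exact hz
        · intro a _ a' _ haa'
          rw [Function.onFun, Finset.disjoint_left]
          intro l hl hl'
          simp only [Finset.mem_filter, Finset.mem_univ, true_and] at hl hl'
          exact haa' (hl.symm.trans hl')
      have e2 : (Fintype.card Y : ℝ) * nc (fun l : X => ¬ ∃ k ∈ K, s (y l) = (τ ^ k) (y l)) =
          nc (fun z : Y => ¬ ∃ k ∈ K, s z = (τ ^ k) z) * Fintype.card X := by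
        rw [e1, Finset.mul_sum, Finset.sum_congr rfl (fun z _ => hfib z), Finset.sum_const, nsmul_eq_mul, nc_eq]
      have hYpos : (0 : ℝ) < Fintype.card Y := by
        obtain ⟨l0⟩ := (inferInstance : Nonempty X)
        have : Nonempty Y := ⟨y l0⟩
        exact_mod_cast Fintype.card_pos
      have e4 := hst.hs
      have e5 : (Fintype.card Y : ℝ) * nc (fun l : X => ¬ ∃ k ∈ K, s (y l) = (τ ^ k) (y l))
          ≤ (Fintype.card Y : ℝ) * (β * Fintype.card X) := by
        rw [e2]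
        calc _ ≤ (β * Fintype.card Y) * (Fintype.card X : ℝ) := by gcongr
          _ = _ := by ring
      exact le_of_mul_le_mul_left e5 hYpos
    have hu : nc (fun l : X => ¬ good l) ≤
        nc (fun l : X => ¬ ∃ k ∈ K, s (y l) = (τ ^ k) (y l)) +
        nc (fun l : X => ¬ ∀ e : ℤ, |e| ≤ E → y ((t ^ e) l) = (τ ^ e) (y l)) := by
      apply nc_or
      intro l hl
      by_contra hcon
      push Not at hcon
      obtain ⟨h1', h2'⟩ := hcon
      apply hl
      refine ⟨h1', ?_⟩
      obtain ⟨hk, hk2⟩ := hκ0 _ h1'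
      have h3 := h2' ((κ0 (y l) : ℕ) : ℤ) (by
        rw [abs_of_nonneg (by positivity)]
        have := hKE _ hk
        omega)
      rw [zpow_natCast, zpow_natCast] at h3
      rw [h3, hk2]
    linarith
  -- digits
  obtain ⟨R, _, _, p, b, κ, hp0, hdig, hκK, hbp, hsum, hLam⟩ :=
    exists_digits (univ.image κ1) (orderOf t) (orderOf_pos t) δ hδ hδ1 L
  have : ∀ r, NeZero (p r) := fun r => ⟨hp0 r⟩
  have hmatch : ∀ k ∈ univ.image κ1, ∃ σ : Equiv.Perm (GG p),
      nc (fun x : GG p => ¬ ∃ r, κ r = k ∧ x r ∈ zA (p r) (b r) ∧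
        σ x = mv (fun r => trn (p := p) b r) r x) ≤ δ * (Fintype.card (GG p) : ℝ) := by
    intro k hk
    have h1 := matching (Z := fun r => ZMod (p r)) δ hδ hδ1 (univ.filter (fun r => κ r = k))
      (fun r => zA (p r) (b r)) (fun r => zB (p r) (b r)) (fun r => trn (p := p) b r)
      (fun r z => zone_iff (p r) (b r) (hdig.hb r) (hdig.hb0 r) z)
      (fun r z hz => zone_disj (p r) (b r) z hz) (by
        refine (hLam k hk).trans (le_of_eq ?_)
        unfold Lam
        apply Finset.sum_congr rfl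
        intro r _
        rw [card_zA (p r) (b r) (by have := hdig.hb r; omega), ZMod.card])
    obtain ⟨σ, hσ⟩ := h1
    refine ⟨σ, ?_⟩
    rw [nc_eq] at hσ
    refine le_trans (nc_mono ?_) hσ
    intro x hx h
    apply hx
    obtain ⟨r, hr, h2⟩ := h
    rw [Finset.mem_filter] at hr
    exact ⟨r, hr.2, h2⟩
  choose! σ hσ using hmatch
  let π : X → Equiv.Perm (GG p) := fun l => σ (κ1 l)
  have hπ : ∀ l, nc (fun x : GG p => ¬ ∃ r, κ r = κ1 l ∧ x r ∈ zA (p r) (b r) ∧
        π l x = mv (fun r => trn (p := p) b r) r x) ≤ δ * (Fintype.card (GG p) : ℝ) :=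
    fun l => hσ (κ1 l) (Finset.mem_image_of_mem _ (mem_univ _))
  -- key identity
  have hkey : ∀ (w : GG p × X) (r : R), κ r = κ1 w.2 → w.1 r ∈ zA (p r) (b r) →
      π w.2 w.1 = mv (fun r => trn (p := p) b r) r w.1 →
      S1 p π s' w = TnFun p b κ t (qq hdig r : ℕ) w := by
    intro w r h1 h2 h3
    rw [S1_apply, TnFun_qq κ t hdig r w, h3]
    have h4 := (fz_shift (p r) (b r) (hdig.hb r) (hdig.hb0 r) (κ r : ℤ) (w.1 r)).1 h2
    rw [h4, zpow_natCast, h1, hκ1]
  have hcGX : (Fintype.card (GG p × X) : ℝ) = (Fintype.card (GG p) : ℝ) * (Fintype.card X : ℝ) := by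
    rw [Fintype.card_prod]; push_cast; rfl
  have hexc : nc (fun w : GG p × X => ¬ ∃ r, κ r = κ1 w.2 ∧
      w.1 r ∈ zA (p r) (b r) ∧ π w.2 w.1 = mv (fun r => trn (p := p) b r) r w.1) ≤
      δ * ((Fintype.card (GG p) : ℝ) * (Fintype.card X : ℝ)) := by
    rw [nc_fib (G := GG p) (X := X) (fun x l => ¬ ∃ r, κ r = κ1 l ∧
      x r ∈ zA (p r) (b r) ∧ π l x = mv (fun r => trn (p := p) b r) r x)]
    calc _ ≤ ∑ l : X, δ * (Fintype.card (GG p) : ℝ) := Finset.sum_le_sum (fun l _ => hπ l)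
      _ = δ * ((Fintype.card (GG p) : ℝ) * (Fintype.card X : ℝ)) := by
        rw [Finset.sum_const, nsmul_eq_mul, Finset.card_univ]
        ring
  have hL0 : (0 : ℝ) ≤ L := by positivity
  have hsum0 : 0 ≤ ∑ r, 2 / (p r : ℝ) := Finset.sum_nonneg (fun r _ => by positivity)
  have hsum1 : ∑ r, 2 / (p r : ℝ) ≤ δ := by nlinarith
  have hsumL : (L : ℝ) * ∑ r, 2 / (p r : ℝ) ≤ δ := by nlinarith
  refine ⟨GG p, inferInstance, inferInstance, T1 p b κ t, S1 p π s', univ.image (qq hdig), ∏ r, p r,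
    ?_, ?_, ⟨?_, ?_, ?_⟩, ?_⟩
  · -- closeness of T
    rw [hcGX]
    have h1 : nc (fun w : GG p × X => (T1 p b κ t w).2 ≠ t w.2) ≤
        nc (fun w : GG p × X => aa p b κ (w.1 + ((1 : ℤ) : GG p)) ≠ aa p b κ w.1) := by
      apply nc_mono
      intro w hw h
      apply hw
      rw [T1_apply]
      unfold TnFun
      simp only
      rw [h]
      simp
    have h2 : nc (fun x : GG p => aa p b κ (x + ((1 : ℤ) : GG p)) ≠ aa p b κ x) =
        nc (fun x : GG p => aa p b κ (x + ((-1 : ℤ) : GG p)) ≠ aa p b κ x) := by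
      apply nc_bij _ _ (Equiv.addRight ((1 : ℤ) : GG p))
      intro x
      have : (Equiv.addRight ((1 : ℤ) : GG p)) x + ((-1 : ℤ) : GG p) = x := by
        show x + ((1 : ℤ) : GG p) + ((-1 : ℤ) : GG p) = x
        push_cast; ring
      rw [this]
      exact ne_comm
    have h3 := count_bd (p := p) κ b
    rw [nc_eq] at h3
    rw [nc_fst (G := GG p) (X := X) (fun x => aa p b κ (x + ((1 : ℤ) : GG p)) ≠ aa p b κ x), h2] at h1
    calc _ ≤ _ := h1
      _ ≤ ((Fintype.card (GG p) : ℝ) * ∑ r, 2 / (p r : ℝ)) * (Fintype.card X : ℝ) := by gcongr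
      _ ≤ ((Fintype.card (GG p) : ℝ) * δ) * (Fintype.card X : ℝ) := by gcongr
      _ = _ := by ring
  · -- closeness of S
    rw [hcGX]
    have h1 : nc (fun w : GG p × X => y (S1 p π s' w).2 ≠ s (y w.2)) ≤
        nc (fun w : GG p × X => ¬ good w.2) := by
      apply nc_mono
      intro w hw h
      apply hw
      rw [S1_apply]
      simp only
      rw [hs'f _ h]
      exact h.2
    rw [nc_snd (G := GG p) (X := X) (fun l => ¬ good l)] at h1
    calc _ ≤ _ := h1
      _ ≤ (Fintype.card (GG p) : ℝ) * ((β + 2 * E * θ) * (Fintype.card X : ℝ)) := by gcongr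
      _ = _ := by ring
  · exact Finset.prod_pos (fun r _ => NeZero.pos (p r))
  · intro k hk
    rw [Finset.mem_image] at hk
    obtain ⟨r, _, rfl⟩ := hk
    exact new_AP κ t hdig δ hδ.le hbp _ (fun r => Finset.dvd_prod_of_mem p (mem_univ r)) r
  · rw [hcGX]
    refine le_trans ?_ hexc
    apply nc_mono
    intro w hw h
    apply hw
    obtain ⟨r, hr, h1, h2⟩ := h
    refine ⟨qq hdig r, Finset.mem_image_of_mem _ (mem_univ _), ?_⟩
    rw [T1_pow, hkey w r hr h1 h2]
  · intro N
    rw [hcGX]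
    have hest := main_est κ t τ y lab hdig π s' K L E N ε hst.hL hε hst.hAP hKE
    have hlhs : ∑ n ∈ Icc 1 N, nc (fun w : GG p × X =>
        lab (y (((T1 p b κ t)⁻¹ ^ n) (S1 p π s' w)).2) ≠ lab (y (((T1 p b κ t)⁻¹ ^ n) w).2)) =
        ∑ n ∈ Finset.Icc 1 N, ((univ.filter (fun w : GG p × X => mis κ t y lab π s' b n w)).card : ℝ) := by
      apply Finset.sum_congr rfl
      intro n _
      rw [nc_eq]
      congr 1
      funext w
      unfold mis
      rw [T1_inv_pow, T1_inv_pow]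
    rw [hlhs]
    refine hest.trans ?_
    rw [hcGX, nc_eq, nc_eq]
    have hg : nc (fun w : GG p × X => ¬ ∃ r, κ r ∈ K ∧
        S1 p π s' w = TnFun p b κ t (qq hdig r : ℕ) w) ≤
        (β + 2 * E * θ + δ) * ((Fintype.card (GG p) : ℝ) * (Fintype.card X : ℝ)) := by
      have h1 : nc (fun w : GG p × X => ¬ ∃ r, κ r ∈ K ∧
          S1 p π s' w = TnFun p b κ t (qq hdig r : ℕ) w) ≤
          nc (fun w : GG p × X => ¬ good w.2) +
          nc (fun w : GG p × X => ¬ ∃ r, κ r = κ1 w.2 ∧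
            w.1 r ∈ zA (p r) (b r) ∧ π w.2 w.1 = mv (fun r => trn (p := p) b r) r w.1) := by
        apply nc_or
        intro w hw
        by_contra hcon
        push Not at hcon
        obtain ⟨h1', r, hr, h3, h4⟩ := hcon
        apply hw
        refine ⟨r, ?_, hkey w r hr h3 h4⟩
        rw [hr]
        exact hκ1g _ h1'
      rw [nc_snd (G := GG p) (X := X) (fun l => ¬ good l)] at h1
      calc _ ≤ _ := h1
        _ ≤ (Fintype.card (GG p) : ℝ) * ((β + 2 * E * θ) * (Fintype.card X : ℝ)) +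
          δ * ((Fintype.card (GG p) : ℝ) * (Fintype.card X : ℝ)) := by gcongr
        _ = _ := by ring
    have hc : nc (fun w : GG p × X => ¬ clean κ t τ y b L E w) ≤
        (δ + 2 * E * θ) * ((Fintype.card (GG p) : ℝ) * (Fintype.card X : ℝ)) := by
      have h1 : nc (fun w : GG p × X => ¬ clean κ t τ y b L E w) ≤
          nc (fun w : GG p × X => ¬ ∀ u : ℕ, u < L → aa p b κ (w.1 + ((-(u : ℤ) : ℤ) : GG p)) = aa p b κ w.1)
          + nc (fun w : GG p × X => ¬ ∀ e : ℤ, |e| ≤ E → y ((t ^ e) w.2) = (τ ^ e) (y w.2)) := by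
        apply nc_or
        intro w hw
        by_contra hcon
        push Not at hcon
        exact hw ⟨hcon.1, hcon.2⟩
      rw [nc_fst (G := GG p) (X := X) (fun x => ¬ ∀ u : ℕ, u < L → aa p b κ (x + ((-(u : ℤ) : ℤ) : GG p)) = aa p b κ x),
        nc_snd (G := GG p) (X := X) (fun l => ¬ ∀ e : ℤ, |e| ≤ E → y ((t ^ e) l) = (τ ^ e) (y l))] at h1
      have h3 := count_window (p := p) κ b L
      rw [nc_eq] at h3
      calc _ ≤ _ := h1
        _ ≤ ((Fintype.card (GG p) : ℝ) * (L * ∑ r, 2 / (p r : ℝ))) * (Fintype.card X : ℝ) +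
          (Fintype.card (GG p) : ℝ) * (2 * E * θ * (Fintype.card X : ℝ)) := by
          gcongr
        _ ≤ ((Fintype.card (GG p) : ℝ) * δ) * (Fintype.card X : ℝ) +
          (Fintype.card (GG p) : ℝ) * (2 * E * θ * (Fintype.card X : ℝ)) := by gcongr
        _ = _ := by ring
    set cc : ℝ := (Fintype.card (GG p) : ℝ) * (Fintype.card X : ℝ) with hcc
    have hcc0 : 0 ≤ cc := by positivity
    calc N * nc (fun w : GG p × X => ¬ ∃ r, κ r ∈ K ∧
        S1 p π s' w = TnFun p b κ t (qq hdig r : ℕ) w) +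
        N * (2 * ε * cc +
        2 * nc (fun w : GG p × X => ¬ clean κ t τ y b L E w)) +
        2 * L * cc
        ≤ N * ((β + 2 * E * θ + δ) * cc) + N * (2 * ε * cc +
        2 * ((δ + 2 * E * θ) * cc)) + 2 * L * cc := by gcongr
      _ = _ := by ring

end Pool.H359R3.WH
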