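import Pool.Agent.H359R3.Cpl

set_option autoImplicit false

namespace Pool.H359R3

open MeasureTheory Set Filter Topology
open scoped ENNReal symmDiff

/-- the weak topology, as in the frozen statement -/
noncomputable abbrev weakTop : TopologicalSpace Aut :=
  (⨅ (A : Set ℝ) (_ : MeasurableSet A) (B : Set ℝ) (_ : MeasurableSet B),
            TopologicalSpace.induced
              (fun T : Aut => ((volume.restrict (Set.Icc (0:ℝ) 1)) ((⇑T.1) ⁻¹' A ∩ B)).toReal)
              (inferInstance : TopologicalSpace ℝ))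

theorem real_symmDiff_eq (s t : Set ℝ) (hs : MeasurableSet s) (ht : MeasurableSet t) :
    lam.real (s ∆ t) = lam.real s + lam.real t - 2 * lam.real (s ∩ t) := by
  have h1 := measureReal_inter_add_sdiff (μ := lam) (s := s) ht
  have h2 := measureReal_inter_add_sdiff (μ := lam) (s := t) hs
  rw [inter_comm t s] at h2
  have h3 : lam.real (s ∆ t) = lam.real (s \ t) + lam.real (t \ s) := by
    rw [Set.symmDiff_def, measureReal_union (disjoint_sdiff_sdiff) (ht.diff hs)]
  linarith

theorem weak_cont (A B : Set ℝ) (hA : MeasurableSet A) (hB : MeasurableSet B) :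
    @Continuous Aut ℝ weakTop _ (fun T : Aut => lam.real ((⇑T.1) ⁻¹' A ∩ B)) := by
  rw [continuous_iff_le_induced]
  refine iInf_le_of_le A (iInf_le_of_le hA (iInf_le_of_le B (iInf_le_of_le hB ?_)))
  exact le_rfl

theorem weak_eq : weakTop = unif.toTopologicalSpace := by
  apply le_antisymm
  · have hc : @Continuous Aut Aut weakTop unif.toTopologicalSpace id := by
      rw [@continuous_iff_continuousAt _ _ weakTop unif.toTopologicalSpace]
      intro T0
      have h1 : Tendsto (id : Aut → Aut) (@nhds Aut weakTop T0) (@nhds Aut unif.toTopologicalSpace T0) := by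
        refine tendsto_unif _ id T0 fun i => ?_
        have h2 := @Continuous.tendsto Aut ℝ weakTop _ _ (weak_cont (AA i) (T0.1 ⁻¹' AA i) (AA_meas i) (T0.1.measurable (AA_meas i))) T0
        rw [inter_self] at h2
        have h3 : Tendsto (fun T : Aut => lam.real (AA i) + lam.real (AA i)
            - 2 * lam.real (T.1 ⁻¹' AA i ∩ T0.1 ⁻¹' AA i)) (@nhds Aut weakTop T0)
            (𝓝 (lam.real (AA i) + lam.real (AA i) - 2 * lam.real (T0.1 ⁻¹' AA i))) :=
          (tendsto_const_nhds).sub (h2.const_mul 2)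
        rw [mp_real T0.2 (AA_meas i)] at h3
        have h4 : lam.real (AA i) + lam.real (AA i) - 2 * lam.real (AA i) = 0 := by ring
        rw [h4] at h3
        refine h3.congr fun T => ?_
        show _ = lam.real ((T.1 ⁻¹' AA i) ∆ (T0.1 ⁻¹' AA i))
        rw [real_symmDiff_eq _ _ (T.1.measurable (AA_meas i)) (T0.1.measurable (AA_meas i)),
          mp_real T.2 (AA_meas i), mp_real T0.2 (AA_meas i)]
      exact h1
    exact continuous_id_iff_le.1 hc
  · refine le_iInf fun A => le_iInf fun hA => le_iInf fun B => le_iInf fun hB => ?_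
    rw [← continuous_iff_le_induced]
    rw [@continuous_iff_continuousAt _ _ unif.toTopologicalSpace]
    intro T0
    have h1 := of_tendsto_unif (@nhds Aut unif.toTopologicalSpace T0) id T0 Filter.tendsto_id A hA
    show Tendsto _ _ _
    rw [tendsto_iff_dist_tendsto_zero]
    refine squeeze0 (fun b => dist_nonneg) (fun T => ?_) h1
    rw [Real.dist_eq]
    show |lam.real (T.1 ⁻¹' A ∩ B) - lam.real (T0.1 ⁻¹' A ∩ B)| ≤ _
    have e1 := real_symmDiff_tri (T.1 ⁻¹' A ∩ B) (T0.1 ⁻¹' A ∩ B) ∅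
    have e2 := real_symmDiff_tri (T0.1 ⁻¹' A ∩ B) (T.1 ⁻¹' A ∩ B) ∅
    simp only [← Set.bot_eq_empty, symmDiff_bot] at e1 e2
    rw [symmDiff_comm (T0.1 ⁻¹' A ∩ B)] at e2
    have e3 : lam.real ((T.1 ⁻¹' A ∩ B) ∆ (T0.1 ⁻¹' A ∩ B)) ≤ lam.real ((T.1 ⁻¹' A) ∆ (T0.1 ⁻¹' A)) := by
      refine measureReal_mono ?_
      intro x hx
      simp only [Set.mem_symmDiff, mem_inter_iff] at hx ⊢
      tauto
    have e4 : lam.real (((id T : Aut).1 ⁻¹' A) ∆ (T0.1 ⁻¹' A)) = lam.real ((T.1 ⁻¹' A) ∆ (T0.1 ⁻¹' A)) := rfl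
    rw [e4, abs_le]
    constructor <;> linarith

theorem not_meagre_univ : ¬ @IsMeagre Aut weakTop Set.univ := by
  rw [weak_eq]
  let _ := unif
  have := unif_cg
  have := unif_complete
  let _ : PseudoMetricSpace Aut := UniformSpace.pseudoMetricSpace Aut
  have : Nonempty Aut := ⟨⟨MeasurableEquiv.refl ℝ, MeasurePreserving.id _⟩⟩
  intro h
  rw [IsMeagre, compl_univ] at h
  have hd := dense_of_mem_residual h
  obtain ⟨x, hx⟩ := hd.nonempty
  exact hx

theorem compact_crit (C C' : ℕ → Set (MeasuredSets lam)) (h1 : ∀ i, IsClosed (C i))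
    (h2 : ∀ i, TotallyBounded (C i)) (h3 : ∀ i, IsClosed (C' i)) (h4 : ∀ i, TotallyBounded (C' i)) :
    @IsCompact Aut weakTop {T | ∀ i, (iot T i).1 ∈ C i ∧ (iot T i).2 ∈ C' i} := by
  rw [weak_eq]
  let _ := unif
  have := unif_complete
  have := measuredSets_complete lam
  have e : {T : Aut | ∀ i, (iot T i).1 ∈ C i ∧ (iot T i).2 ∈ C' i}
      = iot ⁻¹' (Set.univ.pi fun i => C i ×ˢ C' i) := by
    ext T
    simp
  have hui : IsUniformInducing iot := ⟨rfl⟩
  rw [e]
  have hcl : IsClosed (Set.univ.pi fun i => C i ×ˢ C' i) :=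
    isClosed_set_pi fun i _ => (h1 i).prod (h3 i)
  have hcp : IsCompact (Set.univ.pi fun i => C i ×ˢ C' i) :=
    isCompact_univ_pi fun i => ((h2 i).isCompact_of_isClosed (h1 i)).prod
      ((h4 i).isCompact_of_isClosed (h3 i))
  exact (totallyBounded_preimage hui hcp.totallyBounded).isCompact_of_isClosed
    (hcl.preimage hui.uniformContinuous.continuous)

end Pool.H359R3
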