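import Mathlib
import Pool.Agent.H359R3.Weak
import Pool.Agent.H359R3.WH8

set_option autoImplicit false
set_option linter.unusedSectionVars false
set_option linter.unusedVariables false

/-!
Realization of permutations of equal intervals.
-/

namespace Pool.H359R3.WH

open MeasureTheory Set Filter Topology
open scoped ENNReal symmDiff
open Pool.H359R3

/-- label of level `H` -/
noncomputable def fl (H : ℕ) (x : ℝ) : ℕ := ⌊x * H⌋₊

theorem fl_meas (H : ℕ) : Measurable (fl H) := by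
  unfold fl
  exact Nat.measurable_floor.comp (measurable_id.mul_const _)

theorem fl_lt (H : ℕ) (x : ℝ) (hx : x ∈ Ico (0 : ℝ) 1) (hH : 0 < H) : fl H x < H := by
  unfold fl
  rw [Nat.floor_lt (mul_nonneg hx.1 (by positivity))]
  have : (0 : ℝ) < H := by exact_mod_cast hH
  nlinarith [hx.2]

theorem fl_iff (H : ℕ) (hH : 0 < H) (x : ℝ) (hx : 0 ≤ x) (k : ℕ) :
    fl H x = k ↔ (k : ℝ) / H ≤ x ∧ x < ((k : ℝ) + 1) / H := by
  have h0 : (0 : ℝ) < H := by exact_mod_cast hH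
  unfold fl
  rw [Nat.floor_eq_iff (mul_nonneg hx h0.le), div_le_iff₀ h0, lt_div_iff₀ h0]

theorem fl_div (H m : ℕ) (hH : 0 < H) (hm : 0 < m) (x : ℝ) : fl H x = fl (H * m) x / m := by
  unfold fl
  have hmr : (m : ℝ) ≠ 0 := by
    have : m ≠ 0 := by omega
    exact_mod_cast this
  rw [← Nat.floor_div_natCast]
  congr 1
  push_cast
  field_simp

/-- the interval with label `k` -/
def Ik (H k : ℕ) : Set ℝ := Ico ((k : ℝ) / H) (((k : ℝ) + 1) / H)

theorem mem_Ik (H : ℕ) (hH : 0 < H) (k : ℕ) (hk : k < H) (x : ℝ) :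
    x ∈ Ik H k ↔ x ∈ Ico (0 : ℝ) 1 ∧ fl H x = k := by
  have h0 : (0 : ℝ) < H := by exact_mod_cast hH
  unfold Ik
  constructor
  · rintro ⟨h1, h2⟩
    have hx : 0 ≤ x := le_trans (by positivity) h1
    refine ⟨⟨hx, lt_of_lt_of_le h2 ?_⟩, ?_⟩
    · rw [div_le_one h0]
      have : k + 1 ≤ H := hk
      exact_mod_cast this
    · rw [fl_iff H hH x hx]
      exact ⟨h1, h2⟩
  · rintro ⟨h1, h2⟩
    exact (fl_iff H hH x h1.1 k).1 h2

/-- label in `Fin H` -/
noncomputable def flf (H : ℕ) [NeZero H] (x : ℝ) : Fin H := Fin.ofNat H (fl H x)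

theorem flf_val (H : ℕ) [NeZero H] (x : ℝ) (hx : x ∈ Ico (0 : ℝ) 1) : (flf H x : ℕ) = fl H x := by
  unfold flf
  rw [Fin.val_ofNat]
  exact Nat.mod_eq_of_lt (fl_lt H x hx (NeZero.pos H))

theorem flf_meas (H : ℕ) [NeZero H] : Measurable (flf H) := by
  unfold flf
  exact (measurable_of_countable (Fin.ofNat H)).comp (fl_meas H)

/-- realization of a permutation as a map -/
noncomputable def rzf (H : ℕ) [NeZero H] (σ : Equiv.Perm (Fin H)) (x : ℝ) : ℝ :=
  if x ∈ Ico (0 : ℝ) 1 then x + (((σ (flf H x) : ℕ) : ℝ) - ((flf H x : ℕ) : ℝ)) / H else x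

theorem rzf_pos (H : ℕ) [NeZero H] (σ : Equiv.Perm (Fin H)) (x : ℝ) (hx : x ∈ Ico (0 : ℝ) 1) :
    rzf H σ x = x + (((σ (flf H x) : ℕ) : ℝ) - ((flf H x : ℕ) : ℝ)) / H := by
  unfold rzf
  rw [if_pos hx]

theorem rzf_mem (H : ℕ) [NeZero H] (σ : Equiv.Perm (Fin H)) (x : ℝ) (hx : x ∈ Ico (0 : ℝ) 1) :
    rzf H σ x ∈ Ico (0 : ℝ) 1 ∧ flf H (rzf H σ x) = σ (flf H x) := by
  have hH : 0 < H := NeZero.pos H
  have h0 : (0 : ℝ) < H := by exact_mod_cast hH
  have h1 : x ∈ Ik H (flf H x : ℕ) := by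
    rw [mem_Ik H hH _ (flf H x).2, flf_val H x hx]
    exact ⟨hx, rfl⟩
  have h2 : rzf H σ x ∈ Ik H (σ (flf H x) : ℕ) := by
    unfold rzf
    rw [if_pos hx]
    unfold Ik at h1 ⊢
    have h3 := h1.1
    have h4 := h1.2
    rw [div_le_iff₀ h0] at h3
    rw [lt_div_iff₀ h0] at h4
    constructor
    · rw [div_le_iff₀ h0, add_mul, div_mul_cancel₀ _ h0.ne']
      linarith
    · rw [lt_div_iff₀ h0, add_mul, div_mul_cancel₀ _ h0.ne']
      linarith
  rw [mem_Ik H hH _ (σ (flf H x)).2] at h2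
  refine ⟨h2.1, ?_⟩
  apply Fin.ext
  rw [flf_val H _ h2.1]
  exact h2.2

theorem rzf_not_mem (H : ℕ) [NeZero H] (σ : Equiv.Perm (Fin H)) (x : ℝ) (hx : x ∉ Ico (0 : ℝ) 1) :
    rzf H σ x = x := by
  unfold rzf
  rw [if_neg hx]

theorem rzf_comp (H : ℕ) [NeZero H] (σ ρ : Equiv.Perm (Fin H)) (x : ℝ) :
    rzf H σ (rzf H ρ x) = rzf H (σ * ρ) x := by
  by_cases hx : x ∈ Ico (0 : ℝ) 1
  · obtain ⟨h1, h2⟩ := rzf_mem H ρ x hx
    rw [rzf_pos H σ _ h1, h2, rzf_pos H ρ _ hx, rzf_pos H _ _ hx, Equiv.Perm.mul_apply]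
    ring
  · rw [rzf_not_mem H ρ x hx, rzf_not_mem H σ x hx, rzf_not_mem H _ x hx]

theorem rzf_one (H : ℕ) [NeZero H] (x : ℝ) : rzf H 1 x = x := by
  unfold rzf
  split_ifs <;> simp

theorem rzf_meas (H : ℕ) [NeZero H] (σ : Equiv.Perm (Fin H)) : Measurable (rzf H σ) := by
  unfold rzf
  apply Measurable.ite measurableSet_Ico
  · apply Measurable.add measurable_id
    apply Measurable.div_const
    apply Measurable.sub
    · exact (measurable_of_countable (fun k : Fin H => ((σ k : ℕ) : ℝ))).comp (flf_meas H)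
    · exact (measurable_of_countable (fun k : Fin H => ((k : ℕ) : ℝ))).comp (flf_meas H)
  · exact measurable_id

theorem lam_eq (A : Set ℝ) (hA : MeasurableSet A) : lam A = volume (A ∩ Ico (0 : ℝ) 1) := by
  show volume.restrict (Icc (0:ℝ) 1) A = _
  rw [← Measure.restrict_congr_set (Ico_ae_eq_Icc (a := (0:ℝ)) (b := 1)), Measure.restrict_apply hA]

theorem vol_split (H : ℕ) [NeZero H] (A : Set ℝ) (hA : MeasurableSet A) :
    volume (A ∩ Ico (0 : ℝ) 1) = ∑ k : Fin H, volume (A ∩ Ik H k) := by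
  have hH : 0 < H := NeZero.pos H
  have h1 : A ∩ Ico (0 : ℝ) 1 = ⋃ k : Fin H, A ∩ Ik H k := by
    ext x
    simp only [mem_inter_iff, mem_iUnion]
    constructor
    · rintro ⟨h1, h2⟩
      refine ⟨flf H x, h1, ?_⟩
      rw [mem_Ik H hH _ (flf H x).2, flf_val H x h2]
      exact ⟨h2, rfl⟩
    · rintro ⟨k, h1, h2⟩
      rw [mem_Ik H hH _ k.2] at h2
      exact ⟨h1, h2.1⟩
  rw [h1, measure_iUnion]
  · rw [tsum_fintype]
  · intro i j hij
    rw [Function.onFun, Set.disjoint_left]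
    rintro x ⟨_, h2⟩ ⟨_, h3⟩
    rw [mem_Ik H hH _ i.2] at h2
    rw [mem_Ik H hH _ j.2] at h3
    exact hij (Fin.ext (h2.2.symm.trans h3.2))
  · intro k
    exact hA.inter measurableSet_Ico

theorem rzf_mp (H : ℕ) [NeZero H] (σ : Equiv.Perm (Fin H)) : MeasurePreserving (rzf H σ) lam lam := by
  have hH : 0 < H := NeZero.pos H
  have h0 : (0 : ℝ) < H := by exact_mod_cast hH
  refine ⟨rzf_meas H σ, ?_⟩
  ext A hA
  rw [Measure.map_apply (rzf_meas H σ) hA, lam_eq _ (rzf_meas H σ hA), lam_eq _ hA, vol_split H _ (rzf_meas H σ hA),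
    vol_split H _ hA]
  have h1 : ∀ k : Fin H, volume (rzf H σ ⁻¹' A ∩ Ik H k) = volume (A ∩ Ik H (σ k)) := by
    intro k
    have h2 : rzf H σ ⁻¹' A ∩ Ik H k =
        (fun x => x + (((σ k : ℕ) : ℝ) - ((k : ℕ) : ℝ)) / H) ⁻¹' (A ∩ Ik H (σ k)) := by
      ext x
      simp only [mem_inter_iff, mem_preimage]
      have hshift : x ∈ Ik H k ↔ x + (((σ k : ℕ) : ℝ) - ((k : ℕ) : ℝ)) / H ∈ Ik H (σ k) := by
        unfold Ik
        rw [mem_Ico, mem_Ico, div_le_iff₀ h0, lt_div_iff₀ h0, div_le_iff₀ h0, lt_div_iff₀ h0, add_mul,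
          div_mul_cancel₀ _ h0.ne']
        constructor
        · rintro ⟨h3, h4⟩; constructor <;> linarith
        · rintro ⟨h3, h4⟩; constructor <;> linarith
      rw [← hshift]
      constructor
      · rintro ⟨h3, h4⟩
        refine ⟨?_, h4⟩
        have h5 := (mem_Ik H hH _ k.2 x).1 h4
        have h6 : flf H x = k := Fin.ext (by rw [flf_val H x h5.1]; exact h5.2)
        unfold rzf at h3
        rwa [if_pos h5.1, h6] at h3
      · rintro ⟨h3, h4⟩
        refine ⟨?_, h4⟩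
        have h5 := (mem_Ik H hH _ k.2 x).1 h4
        have h6 : flf H x = k := Fin.ext (by rw [flf_val H x h5.1]; exact h5.2)
        unfold rzf
        rwa [if_pos h5.1, h6]
    rw [h2, measure_preimage_add_right]
  simp_rw [h1]
  exact Equiv.sum_comp σ (fun k : Fin H => volume (A ∩ Ik H k))

/-- realization as an automorphism -/
noncomputable def rz (H : ℕ) [NeZero H] (σ : Equiv.Perm (Fin H)) : Aut :=
  ⟨{ toFun := rzf H σ
     invFun := rzf H σ⁻¹
     left_inv := fun x => by rw [rzf_comp, inv_mul_cancel, rzf_one]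
     right_inv := fun x => by rw [rzf_comp, mul_inv_cancel, rzf_one]
     measurable_toFun := rzf_meas H σ
     measurable_invFun := rzf_meas H σ⁻¹ }, rzf_mp H σ⟩

theorem rz_apply (H : ℕ) [NeZero H] (σ : Equiv.Perm (Fin H)) (x : ℝ) : (rz H σ).1 x = rzf H σ x := rfl

theorem rz_symm_apply (H : ℕ) [NeZero H] (σ : Equiv.Perm (Fin H)) (x : ℝ) :
    (rz H σ).1.symm x = rzf H σ⁻¹ x := rfl

theorem ae_Ico : ∀ᵐ x ∂lam, x ∈ Ico (0 : ℝ) 1 := by
  rw [ae_iff]
  show lam (Ico (0 : ℝ) 1)ᶜ = 0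
  rw [lam_eq _ measurableSet_Ico.compl, compl_inter_self, measure_empty]

theorem lam_Ik (H : ℕ) [NeZero H] (k : Fin H) : lam.real (Ik H k) = 1 / H := by
  have hH : 0 < H := NeZero.pos H
  have h0 : (0 : ℝ) < H := by exact_mod_cast hH
  have h1 : Ik H k ∩ Ico (0 : ℝ) 1 = Ik H k := by
    ext x
    rw [mem_inter_iff, mem_Ik H hH _ k.2]
    tauto
  rw [measureReal_def, lam_eq _ (show MeasurableSet (Ik H k) from measurableSet_Ico), h1]
  unfold Ik
  rw [Real.volume_Ico, ENNReal.toReal_ofReal]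
  · field_simp
    ring
  · rw [sub_nonneg]
    gcongr
    linarith

/-- measure of a union of labelled intervals -/
theorem lam_lab (H : ℕ) [NeZero H] (P : Fin H → Prop) :
    lam.real {x | P (flf H x)} = nc P / H := by
  classical
  have hH : 0 < H := NeZero.pos H
  have h1 : lam.real {x | P (flf H x)} = lam.real (⋃ k ∈ Finset.univ.filter P, Ik H k) := by
    apply measureReal_congr
    filter_upwards [ae_Ico] with x hx
    apply propext
    show P (flf H x) ↔ x ∈ ⋃ k ∈ Finset.univ.filter P, Ik H k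
    simp only [mem_iUnion, Finset.mem_filter, Finset.mem_univ, true_and, exists_prop]
    constructor
    · intro h
      exact ⟨flf H x, h, by rw [mem_Ik H hH _ (flf H x).2, flf_val H x hx]; exact ⟨hx, rfl⟩⟩
    · rintro ⟨k, hk, hxk⟩
      rw [mem_Ik H hH _ k.2] at hxk
      have : flf H x = k := Fin.ext (by rw [flf_val H x hx]; exact hxk.2)
      rwa [this]
  rw [h1, measureReal_biUnion_finset]
  · rw [Finset.sum_congr rfl (fun k _ => lam_Ik H k), Finset.sum_const, nsmul_eq_mul, nc_eq]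
    ring
  · intro i _ j _ hij
    rw [Function.onFun, Set.disjoint_left]
    intro x h2 h3
    rw [mem_Ik H hH _ i.2] at h2
    rw [mem_Ik H hH _ j.2] at h3
    exact hij (Fin.ext (h2.2.symm.trans h3.2))
  · intro k _
    exact measurableSet_Ico

end Pool.H359R3.WH
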