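import Mathlib
import Pool.Agent.H359R3.WG1

set_option autoImplicit false
set_option linter.unusedSectionVars false
set_option linter.unusedVariables false

/-!
Label distance, approximation and density of interval permutations.
-/

namespace Pool.H359R3.WH

open MeasureTheory Set Filter Topology
open scoped ENNReal symmDiff
open Pool.H359R3

/-- label distance of two maps -/
noncomputable def dl (H : ℕ) (f g : ℝ → ℝ) : ℝ := lam.real {x | fl H (f x) ≠ fl H (g x)}

theorem dl_nonneg (H : ℕ) (f g : ℝ → ℝ) : 0 ≤ dl H f g := measureReal_nonneg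

theorem dl_symm (H : ℕ) (f g : ℝ → ℝ) : dl H f g = dl H g f := by
  unfold dl
  congr 1
  ext x
  exact ne_comm

theorem dl_tri (H : ℕ) (f g h : ℝ → ℝ) : dl H f h ≤ dl H f g + dl H g h := by
  unfold dl
  refine le_trans (measureReal_mono ?_) (measureReal_union_le _ _)
  intro x hx
  by_contra hc
  rw [mem_union, not_or] at hc
  apply hx
  have h1 := not_not.1 hc.1
  have h2 := not_not.1 hc.2
  exact h1.trans h2

theorem dl_mono (H m : ℕ) (hH : 0 < H) (hm : 0 < m) (f g : ℝ → ℝ) : dl H f g ≤ dl (H * m) f g := by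
  unfold dl
  refine measureReal_mono ?_
  intro x hx h
  apply hx
  rw [fl_div H m hH hm, fl_div H m hH hm (g x)]
  exact congrArg (· / m) h

theorem dl_dvd (H H' : ℕ) (hH : 0 < H) (hH' : 0 < H') (h : H ∣ H') (f g : ℝ → ℝ) : dl H f g ≤ dl H' f g := by
  obtain ⟨m, rfl⟩ := h
  exact dl_mono H m hH (Nat.pos_of_mul_pos_left hH') f g

theorem lset_meas (H : ℕ) (B : Set ℕ) : MeasurableSet {x | fl H x ∈ B} :=
  (fl_meas H) (MeasurableSet.of_discrete (s := B))

theorem lset_le (H : ℕ) (B : Set ℕ) (f g : ℝ → ℝ) :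
    lam.real ((f ⁻¹' {x | fl H x ∈ B}) ∆ (g ⁻¹' {x | fl H x ∈ B})) ≤ dl H f g := by
  unfold dl
  refine measureReal_mono ?_
  intro x hx h
  rw [Set.mem_symmDiff] at hx
  have h1 : fl H (f x) ∈ B ↔ fl H (g x) ∈ B := by
    have : fl H (f x) = fl H (g x) := h
    rw [this]
  rcases hx with ⟨h2, h3⟩ | ⟨h2, h3⟩
  · exact h3 (h1.1 h2)
  · exact h3 (h1.2 h2)

/-- approximation by label sets -/
theorem Apx (s : Set ℝ) (hs : MeasurableSet s) : ∀ H : ℕ, 0 < H → ∀ η : ℝ, 0 < η →
    ∃ m : ℕ, 0 < m ∧ ∃ B : Set ℕ, lam.real (s ∆ {x | fl (H * m) x ∈ B}) < η := by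
  refine approx_induction lam (range Iio) (by rw [← borel_eq_generateFrom_Iio]; exact BorelSpace.measurable_eq)
    (fun s => ∀ H : ℕ, 0 < H → ∀ η : ℝ, 0 < η →
      ∃ m : ℕ, 0 < m ∧ ∃ B : Set ℕ, lam.real (s ∆ {x | fl (H * m) x ∈ B}) < η) ?_ ?_ ?_ ?_ ?_ s hs
  · rintro _ ⟨a, rfl⟩ H hH η hη
    obtain ⟨m, hm⟩ := exists_nat_gt (1 / η)
    have hm0 : 0 < m := by
      rcases Nat.eq_zero_or_pos m with h | h
      · rw [h] at hm
        have : 0 < 1 / η := by positivity
        push_cast at hm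
        linarith
      · exact h
    refine ⟨m, hm0, {k | k < ⌊a * ((H * m : ℕ) : ℝ)⌋₊}, ?_⟩
    have : NeZero (H * m) := ⟨by positivity⟩
    have hn0 : (0 : ℝ) < ((H * m : ℕ) : ℝ) := by
      have : 0 < H * m := by positivity
      exact_mod_cast this
    have h1 : lam.real (Iio a ∆ {x | fl (H * m) x ∈ {k | k < ⌊a * ((H * m : ℕ) : ℝ)⌋₊}}) ≤
        lam.real {x | ((flf (H * m) x : Fin (H * m)) : ℕ) = ⌊a * ((H * m : ℕ) : ℝ)⌋₊} := by
      apply ENNReal.toReal_mono (measure_ne_top _ _)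
      apply measure_mono_ae
      filter_upwards [ae_Ico] with x hx hmem
      show ((flf (H * m) x : Fin (H * m)) : ℕ) = ⌊a * ((H * m : ℕ) : ℝ)⌋₊
      rw [flf_val _ x hx]
      have hmem' : x ∈ Iio a ∆ {x | fl (H * m) x < ⌊a * ((H * m : ℕ) : ℝ)⌋₊} := hmem
      rw [Set.mem_symmDiff] at hmem'
      rcases hmem' with ⟨h2, h3⟩ | ⟨h2, h3⟩
      · have h2' : x < a := h2
        have h3' : ¬ (fl (H * m) x < ⌊a * ((H * m : ℕ) : ℝ)⌋₊) := h3
        apply le_antisymm
        · unfold fl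
          apply Nat.floor_mono
          nlinarith
        · exact not_lt.1 h3'
      · have h3' : ¬ (x < a) := h3
        have h2' : fl (H * m) x < ⌊a * ((H * m : ℕ) : ℝ)⌋₊ := h2
        exfalso
        have : ⌊a * ((H * m : ℕ) : ℝ)⌋₊ ≤ fl (H * m) x := by
          unfold fl
          apply Nat.floor_mono
          nlinarith [not_lt.1 h3']
        omega
    refine lt_of_le_of_lt h1 ?_
    rw [lam_lab (H * m) (fun k => (k : ℕ) = ⌊a * ((H * m : ℕ) : ℝ)⌋₊)]
    have h2 : nc (fun k : Fin (H * m) => (k : ℕ) = ⌊a * ((H * m : ℕ) : ℝ)⌋₊) ≤ 1 := by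
      rw [← nc_eq]
      have : (Finset.univ.filter (fun k : Fin (H * m) => (k : ℕ) = ⌊a * ((H * m : ℕ) : ℝ)⌋₊)).card ≤ 1 := by
        rw [Finset.card_le_one]
        intro i hi j hj
        rw [Finset.mem_filter] at hi hj
        exact Fin.ext (hi.2.trans hj.2.symm)
      exact_mod_cast this
    rw [div_lt_iff₀ hn0]
    have h3 : (m : ℝ) ≤ ((H * m : ℕ) : ℝ) := by
      have : m ≤ H * m := Nat.le_mul_of_pos_left _ hH
      exact_mod_cast this
    rw [div_lt_iff₀ hη] at hm
    nlinarith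
  · intro H hH η hη
    refine ⟨1, one_pos, ∅, ?_⟩
    simpa using hη
  · intro s _ hP H hH η hη
    obtain ⟨m, hm, B, hB⟩ := hP H hH η hη
    refine ⟨m, hm, Bᶜ, ?_⟩
    convert hB using 2
    ext x
    simp only [Set.mem_symmDiff, mem_compl_iff, mem_ofPred_eq]
    tauto
  · intro s t _ _ hP hQ H hH η hη
    obtain ⟨m, hm, B, hB⟩ := hP H hH (η / 2) (by positivity)
    obtain ⟨m', hm', B', hB'⟩ := hQ (H * m) (by positivity) (η / 2) (by positivity)
    refine ⟨m * m', by positivity, {k | k / m' ∈ B} ∪ B', ?_⟩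
    have h1 : {x | fl (H * (m * m')) x ∈ {k | k / m' ∈ B} ∪ B'} =
        {x | fl (H * m) x ∈ B} ∪ {x | fl (H * m * m') x ∈ B'} := by
      ext x
      simp only [mem_union, mem_ofPred_eq]
      rw [← mul_assoc, fl_div (H * m) m' (by positivity) hm' x]
    rw [h1]
    refine lt_of_le_of_lt real_symmDiff_union ?_
    linarith
  · intro s hs hap H hH η hη
    obtain ⟨t, ht, hPt, hst⟩ := hap (η / 2) (by positivity)
    obtain ⟨m, hm, B, hB⟩ := hPt H hH (η / 2) (by positivity)
    refine ⟨m, hm, B, ?_⟩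
    refine lt_of_le_of_lt (real_symmDiff_tri s t _) ?_
    linarith

theorem Apx_multi (s : ℕ → Set ℝ) (hs : ∀ a, MeasurableSet (s a)) (n : ℕ) : ∀ H : ℕ, 0 < H → ∀ η : ℝ, 0 < η →
    ∃ m : ℕ, 0 < m ∧ ∀ a < n, ∃ B : Set ℕ, lam.real (s a ∆ {x | fl (H * m) x ∈ B}) < η := by
  induction n with
  | zero =>
    intro H _ η _
    exact ⟨1, one_pos, fun a ha => absurd ha (Nat.not_lt_zero _)⟩
  | succ n ih =>
    intro H hH η hη
    obtain ⟨m, hm, hB⟩ := ih H hH η hη
    obtain ⟨m', hm', B', hB'⟩ := Apx (s n) (hs n) (H * m) (by positivity) η hη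
    refine ⟨m * m', by positivity, fun a ha => ?_⟩
    rcases Nat.lt_succ_iff_lt_or_eq.1 ha with h | h
    · obtain ⟨B, hB1⟩ := hB a h
      refine ⟨{k | k / m' ∈ B}, ?_⟩
      have h1 : {x | fl (H * (m * m')) x ∈ {k | k / m' ∈ B}} = {x | fl (H * m) x ∈ B} := by
        ext x
        simp only [mem_ofPred_eq]
        rw [← mul_assoc, fl_div (H * m) m' (by positivity) hm' x]
      rw [h1]
      exact hB1
    · subst h
      refine ⟨B', ?_⟩
      rw [← mul_assoc]
      exact hB'

/-- transfer of closeness to all measurable sets -/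
theorem close_set (H : ℕ) (B : Set ℕ) (s : Set ℝ) (hs : MeasurableSet s) (η : ℝ)
    (hB : lam.real (s ∆ {x | fl H x ∈ B}) < η) (f g : ℝ → ℝ) (hf : MeasurePreserving f lam lam)
    (hg : MeasurePreserving g lam lam) :
    lam.real ((f ⁻¹' s) ∆ (g ⁻¹' s)) ≤ 2 * η + dl H f g := by
  have hm := lset_meas H B
  have h1 : lam.real ((f ⁻¹' s) ∆ (f ⁻¹' {x | fl H x ∈ B})) < η := by
    rw [← preimage_symmDiff, mp_real hf (hs.symmDiff hm)]
    exact hB
  have h2 : lam.real ((g ⁻¹' {x | fl H x ∈ B}) ∆ (g ⁻¹' s)) < η := by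
    rw [← preimage_symmDiff, mp_real hg (hm.symmDiff hs), symmDiff_comm]
    exact hB
  have h3 := real_symmDiff_tri (f ⁻¹' s) (f ⁻¹' {x | fl H x ∈ B}) (g ⁻¹' s)
  have h4 := real_symmDiff_tri (f ⁻¹' {x | fl H x ∈ B}) (g ⁻¹' {x | fl H x ∈ B}) (g ⁻¹' s)
  have h5 := lset_le H B f g
  linarith

/-- neighbourhoods contain label-balls -/
theorem nhds_dl (T : Aut) (O : Set Aut) (hO : O ∈ @nhds Aut unif.toTopologicalSpace T) (H : ℕ) (hH : 0 < H) :
    ∃ m : ℕ, 0 < m ∧ ∃ θ : ℝ, 0 < θ ∧ ∀ T' : Aut, dl (H * m) T'.1 T.1 < θ → T' ∈ O := by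
  by_contra hcon
  push Not at hcon
  have h1 : ∀ j : ℕ, ∃ T' : Aut, dl (H * (j + 1).factorial) T'.1 T.1 < 1 / ((j : ℝ) + 1) ∧ T' ∉ O := by
    intro j
    exact hcon _ (Nat.factorial_pos _) _ (by positivity)
  choose T' hT' hT'O using h1
  have h2 : Tendsto T' atTop (@nhds Aut unif.toTopologicalSpace T) := by
    apply tendsto_unif
    intro i
    rw [Metric.tendsto_atTop]
    intro η hη
    obtain ⟨m, hm, B, hB⟩ := Apx (AA i) (AA_meas i) H hH (η / 4) (by positivity)
    obtain ⟨N, hN⟩ := exists_nat_gt (4 / η)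
    refine ⟨max N m, fun j hj => ?_⟩
    rw [Real.dist_eq, sub_zero, abs_of_nonneg measureReal_nonneg]
    have h3 := close_set (H * m) B (AA i) (AA_meas i) (η / 4) hB (T' j).1 T.1 (T' j).2 T.2
    have h4 : dl (H * m) (T' j).1 T.1 ≤ dl (H * (j + 1).factorial) (T' j).1 T.1 := by
      apply dl_dvd
      · positivity
      · have := Nat.factorial_pos (j + 1)
        positivity
      · apply Nat.mul_dvd_mul_left
        apply Nat.dvd_factorial hm
        have := le_max_right N m
        omega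
    have h5 := hT' j
    have h6 : 1 / ((j : ℝ) + 1) ≤ η / 4 := by
      rw [div_le_div_iff₀ (by positivity) (by norm_num)]
      rw [div_lt_iff₀ hη] at hN
      have h7 : (N : ℝ) ≤ j := by exact_mod_cast (le_max_left N m).trans hj
      nlinarith
    linarith
  have h3 := h2.eventually hO
  obtain ⟨j, hj⟩ := h3.exists
  exact hT'O j hj

/-- label balls are neighbourhoods -/
theorem dl_nhds (T : Aut) (H : ℕ) (hH : 0 < H) (θ : ℝ) (hθ : 0 < θ) :
    {T' : Aut | dl H T'.1 T.1 < θ} ∈ @nhds Aut unif.toTopologicalSpace T := by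
  have : NeZero H := ⟨hH.ne'⟩
  have h1 : ∀ k ∈ (Finset.univ : Finset (Fin H)), Tendsto (fun T' : Aut => lam.real ((T'.1 ⁻¹' {x | fl H x ∈ ({(k : ℕ)} : Set ℕ)}) ∆
      (T.1 ⁻¹' {x | fl H x ∈ ({(k : ℕ)} : Set ℕ)}))) (@nhds Aut unif.toTopologicalSpace T) (𝓝 0) := by
    intro k _
    exact of_tendsto_unif _ id T Filter.tendsto_id _ (lset_meas H _)
  have h2 := tendsto_finsetSum _ h1
  rw [Finset.sum_const_zero] at h2
  have h3 := h2.eventually (gt_mem_nhds hθ)
  filter_upwards [h3] with T' hT'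
  refine lt_of_le_of_lt ?_ hT'
  unfold dl
  calc lam.real {x | fl H (T'.1 x) ≠ fl H (T.1 x)} ≤
      lam.real (⋃ k ∈ (Finset.univ : Finset (Fin H)), ((T'.1 ⁻¹' {x | fl H x ∈ ({(k : ℕ)} : Set ℕ)}) ∆
      (T.1 ⁻¹' {x | fl H x ∈ ({(k : ℕ)} : Set ℕ)}))) := by
        apply ENNReal.toReal_mono (measure_ne_top _ _)
        apply measure_mono_ae
        have ha := T'.2.quasiMeasurePreserving.ae ae_Ico
        filter_upwards [ha] with x hx hmem
        have hmem' : fl H (T'.1 x) ≠ fl H (T.1 x) := hmem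
        show x ∈ ⋃ k ∈ (Finset.univ : Finset (Fin H)), _
        simp only [mem_iUnion, Finset.mem_univ, exists_prop, true_and]
        refine ⟨⟨fl H (T'.1 x), fl_lt H _ hx hH⟩, ?_⟩
        rw [Set.mem_symmDiff]
        left
        refine ⟨?_, ?_⟩
        · show fl H (T'.1 x) ∈ ({fl H (T'.1 x)} : Set ℕ)
          exact Set.mem_singleton _
        · intro h
          have h' : fl H (T.1 x) = fl H (T'.1 x) := h
          exact hmem' h'.symm
    _ ≤ _ := measureReal_biUnion_finset_le _ _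

theorem add_lab (n : ℕ) [NeZero n] (A : Set ℝ) (hA : MeasurableSet A) (f : ℝ → ℝ)
    (hf : MeasurePreserving f lam lam) (P : Fin n → Prop) [DecidablePred P] :
    ∑ l ∈ Finset.univ.filter P, lam.real (A ∩ f ⁻¹' Ik n l) = lam.real (A ∩ {x | P (flf n (f x))}) := by
  have hn : 0 < n := NeZero.pos n
  have h1 : lam.real (A ∩ {x | P (flf n (f x))}) =
      lam.real (⋃ l ∈ Finset.univ.filter P, A ∩ f ⁻¹' Ik n l) := by
    apply measureReal_congr
    have ha := hf.quasiMeasurePreserving.ae ae_Ico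
    filter_upwards [ha] with x hx
    apply propext
    show (x ∈ A ∧ P (flf n (f x))) ↔ x ∈ ⋃ l ∈ Finset.univ.filter P, A ∩ f ⁻¹' Ik n l
    simp only [mem_iUnion, Finset.mem_filter, Finset.mem_univ, true_and, exists_prop]
    constructor
    · rintro ⟨h1, h2⟩
      refine ⟨flf n (f x), h2, h1, ?_⟩
      show f x ∈ Ik n (flf n (f x))
      rw [mem_Ik n hn _ (flf n (f x)).2, flf_val n _ hx]
      exact ⟨hx, rfl⟩
    · rintro ⟨k, hk, h1, hxk⟩
      have hxk' : f x ∈ Ik n k := hxk
      rw [mem_Ik n hn _ k.2] at hxk'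
      have : flf n (f x) = k := Fin.ext (by rw [flf_val n _ hx]; exact hxk'.2)
      rw [this]
      exact ⟨h1, hk⟩
  rw [h1, measureReal_biUnion_finset]
  · intro i _ j _ hij
    rw [Function.onFun, Set.disjoint_left]
    rintro x ⟨_, h2⟩ ⟨_, h3⟩
    have h2' : f x ∈ Ik n i := h2
    have h3' : f x ∈ Ik n j := h3
    rw [mem_Ik n hn _ i.2] at h2'
    rw [mem_Ik n hn _ j.2] at h3'
    exact hij (Fin.ext (h2'.2.symm.trans h3'.2))
  · intro k _
    exact hA.inter (hf.measurable measurableSet_Ico)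

/-- interval permutations are dense -/
theorem perm_dense (T : Aut) (H : ℕ) (hH : 0 < H) (θ : ℝ) (hθ : 0 < θ) :
    ∃ (n : ℕ) (_ : NeZero n), H ∣ n ∧ ∃ t : Equiv.Perm (Fin n), dl H (rz n t).1 T.1 < θ := by
  classical
  have hHr : (0 : ℝ) < H := by exact_mod_cast hH
  obtain ⟨m, hm, hB⟩ := Apx_multi (fun a => {x | fl H (T.1 x) = a})
    (fun a => (fl_meas H).comp T.1.measurable (MeasurableSet.singleton a)) H H hH (θ / (4 * H)) (by positivity)
  choose! B hB using hB
  have hn0 : H * m ≠ 0 := by positivity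
  have : NeZero (H * m) := ⟨hn0⟩
  have hnr : (0 : ℝ) < ((H * m : ℕ) : ℝ) := by exact_mod_cast Nat.pos_of_ne_zero hn0
  -- the approximating label function
  let α : Fin (H * m) → ℕ := fun k => if h : ∃ a < H, (k : ℕ) ∈ B a then h.choose else 0
  have hα : lam.real {x | fl H (T.1 x) ≠ α (flf (H * m) x)} ≤ θ / 4 := by
    calc lam.real {x | fl H (T.1 x) ≠ α (flf (H * m) x)} ≤
        lam.real (⋃ a ∈ Finset.range H, ({x | fl H (T.1 x) = a} ∆ {x | fl (H * m) x ∈ B a})) := by
          apply ENNReal.toReal_mono (measure_ne_top _ _)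
          apply measure_mono_ae
          have ha := T.2.quasiMeasurePreserving.ae ae_Ico
          filter_upwards [ae_Ico, ha] with x hx hTx hmem
          have hmem' : fl H (T.1 x) ≠ α (flf (H * m) x) := hmem
          show x ∈ ⋃ a ∈ Finset.range H, _
          by_contra hcon
          simp only [mem_iUnion, Finset.mem_range, exists_prop, not_exists, not_and] at hcon
          have key : ∀ a < H, (fl H (T.1 x) = a ↔ fl (H * m) x ∈ B a) := by
            intro a ha
            have h1 := hcon a ha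
            rw [Set.mem_symmDiff] at h1
            push Not at h1
            constructor
            · intro h2; exact h1.1 h2
            · intro h2; exact h1.2 h2
          have hlt := fl_lt H _ hTx hH
          have hex : ∃ a < H, ((flf (H * m) x : Fin (H * m)) : ℕ) ∈ B a := by
            refine ⟨_, hlt, ?_⟩
            rw [flf_val _ x hx]
            exact (key _ hlt).1 rfl
          apply hmem'
          simp only [α, dif_pos hex]
          have h3 := hex.choose_spec
          generalize hex.choose = c at h3 ⊢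
          rw [flf_val _ x hx] at h3
          exact (key _ h3.1).2 h3.2
      _ ≤ ∑ a ∈ Finset.range H, lam.real ({x | fl H (T.1 x) = a} ∆ {x | fl (H * m) x ∈ B a}) :=
          measureReal_biUnion_finset_le _ _
      _ ≤ ∑ a ∈ Finset.range H, θ / (4 * H) := by
          apply Finset.sum_le_sum
          intro a ha
          rw [Finset.mem_range] at ha
          exact (hB a ha).le
      _ = θ / 4 := by
          rw [Finset.sum_const, Finset.card_range, nsmul_eq_mul]
          field_simp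
  -- the doubly stochastic matrix
  let M : Fin (H * m) → Fin (H * m) → ℝ := fun k l =>
    ((H * m : ℕ) : ℝ) * lam.real (Ik (H * m) k ∩ T.1 ⁻¹' Ik (H * m) l)
  have hM0 : ∀ k l, 0 ≤ M k l := fun k l => mul_nonneg hnr.le measureReal_nonneg
  have hrow : ∀ k, ∑ l, M k l = 1 := by
    intro k
    have h1 := add_lab (H * m) (Ik (H * m) k) measurableSet_Ico T.1 T.2 (fun _ => True)
    rw [Finset.filter_true] at h1
    have h2 : Ik (H * m) k ∩ {x | True} = Ik (H * m) k := by simp
    rw [h2, lam_Ik] at h1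
    simp only [M]
    rw [← Finset.mul_sum, h1]
    field_simp
  have hcol : ∀ l, ∑ k, M k l = 1 := by
    intro l
    have h1 := add_lab (H * m) (T.1 ⁻¹' Ik (H * m) l) (T.1.measurable measurableSet_Ico) id
      (MeasurePreserving.id _) (fun _ => True)
    rw [Finset.filter_true] at h1
    have h2 : (T.1 ⁻¹' Ik (H * m) l) ∩ {x | True} = (T.1 ⁻¹' Ik (H * m) l) := by simp
    rw [h2, mp_real T.2 (show MeasurableSet (Ik (H * m) l) from measurableSet_Ico), lam_Ik] at h1
    simp only [M]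
    rw [← Finset.mul_sum]
    have h3 : ∑ k : Fin (H * m), lam.real (Ik (H * m) k ∩ T.1 ⁻¹' Ik (H * m) l) = 1 / ((H * m : ℕ) : ℝ) := by
      rw [← h1]
      apply Finset.sum_congr rfl
      intro k _
      rw [inter_comm]
      rfl
    rw [h3]
    field_simp
  obtain ⟨t, ht⟩ := round_ds M hM0 hrow hcol
    (fun k l => if (l : ℕ) / m = α k then 0 else 1 / ((H * m : ℕ) : ℝ))
  refine ⟨H * m, inferInstance, Dvd.intro _ rfl, t, ?_⟩
  have hrhs : ∑ k, ∑ l, M k l * (if (l : ℕ) / m = α k then 0 else 1 / ((H * m : ℕ) : ℝ)) ≤ θ / 4 := by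
    have h1 : ∀ k : Fin (H * m), ∑ l, M k l * (if (l : ℕ) / m = α k then 0 else 1 / ((H * m : ℕ) : ℝ)) =
        lam.real (Ik (H * m) k ∩ {x | fl H (T.1 x) ≠ α k}) := by
      intro k
      have h2 := add_lab (H * m) (Ik (H * m) k) measurableSet_Ico T.1 T.2 (fun l => ¬ ((l : ℕ) / m = α k))
      have h3 : lam.real (Ik (H * m) k ∩ {x | fl H (T.1 x) ≠ α k}) =
          lam.real (Ik (H * m) k ∩ {x | ¬ (((flf (H * m) (T.1 x) : Fin (H * m)) : ℕ) / m = α k)}) := by
        apply measureReal_congr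
        have ha := T.2.quasiMeasurePreserving.ae ae_Ico
        filter_upwards [ha] with x hTx
        apply propext
        show (x ∈ Ik (H * m) k ∧ fl H (T.1 x) ≠ α k) ↔
          (x ∈ Ik (H * m) k ∧ ¬ (((flf (H * m) (T.1 x) : Fin (H * m)) : ℕ) / m = α k))
        rw [flf_val _ _ hTx, ← fl_div H m hH hm]
      rw [h3, ← h2, Finset.sum_filter]
      apply Finset.sum_congr rfl
      intro l _
      simp only [M]
      by_cases h : (l : ℕ) / m = α k
      · simp [h]
      · simp only [h, if_false, not_false_eq_true, if_true]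
        field_simp
    rw [Finset.sum_congr rfl (fun k _ => h1 k)]
    have h4 := add_lab (H * m) {x | fl H (T.1 x) ≠ α (flf (H * m) x)} (by
      have hg : Measurable (fun x => (fl H (T.1 x), α (flf (H * m) x))) :=
        ((fl_meas H).comp T.1.measurable).prodMk ((measurable_of_countable α).comp (flf_meas _))
      exact hg (MeasurableSet.of_discrete (s := {p : ℕ × ℕ | p.1 ≠ p.2}))) id (MeasurePreserving.id _) (fun _ => True)
    rw [Finset.filter_true] at h4
    have h5 : {x | fl H (T.1 x) ≠ α (flf (H * m) x)} ∩ {x | True} = {x | fl H (T.1 x) ≠ α (flf (H * m) x)} := by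
      simp
    rw [h5] at h4
    refine le_trans (le_of_eq ?_) hα
    rw [← h4]
    apply Finset.sum_congr rfl
    intro k _
    congr 1
    ext x
    simp only [mem_inter_iff, mem_preimage, id]
    rw [mem_Ik (H * m) (Nat.pos_of_ne_zero hn0) _ k.2]
    constructor
    · rintro ⟨⟨h6, h7⟩, h8⟩
      have h9 : flf (H * m) x = k := Fin.ext (by rw [flf_val _ x h6]; exact h7)
      refine ⟨?_, h6, h7⟩
      show fl H (T.1 x) ≠ α (flf (H * m) x)
      rw [h9]
      exact h8
    · rintro ⟨h8, h6, h7⟩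
      have h9 : flf (H * m) x = k := Fin.ext (by rw [flf_val _ x h6]; exact h7)
      refine ⟨⟨h6, h7⟩, ?_⟩
      have h8' : fl H (T.1 x) ≠ α (flf (H * m) x) := h8
      rw [h9] at h8'
      exact h8'
  -- conclusion
  have h6 : dl H (rz (H * m) t).1 T.1 ≤
      lam.real {x | ¬ (((t (flf (H * m) x)) : ℕ) / m = α (flf (H * m) x))} +
      lam.real {x | fl H (T.1 x) ≠ α (flf (H * m) x)} := by
    unfold dl
    refine le_trans ?_ (measureReal_union_le _ _)
    apply ENNReal.toReal_mono (measure_ne_top _ _)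
    apply measure_mono_ae
    filter_upwards [ae_Ico] with x hx hmem
    have hmem' : fl H ((rz (H * m) t).1 x) ≠ fl H (T.1 x) := hmem
    show x ∈ {x | ¬ (((t (flf (H * m) x)) : ℕ) / m = α (flf (H * m) x))} ∪
      {x | fl H (T.1 x) ≠ α (flf (H * m) x)}
    by_contra hcon
    rw [mem_union, not_or] at hcon
    have h7 : ((t (flf (H * m) x)) : ℕ) / m = α (flf (H * m) x) := not_not.1 hcon.1
    have h8 : fl H (T.1 x) = α (flf (H * m) x) := not_not.1 hcon.2
    apply hmem'
    obtain ⟨h9, h10⟩ := rzf_mem (H * m) t x hx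
    rw [rz_apply, fl_div H m hH hm, ← flf_val _ _ h9, h10, h7, h8]
  rw [lam_lab (H * m) (fun k => ¬ ((t k : ℕ) / m = α k))] at h6
  have h7 : nc (fun k : Fin (H * m) => ¬ ((t k : ℕ) / m = α k)) / ((H * m : ℕ) : ℝ) =
      ∑ k, (if ((t k : Fin (H * m)) : ℕ) / m = α k then 0 else 1 / ((H * m : ℕ) : ℝ)) := by
    rw [← nc_eq, Finset.card_filter]
    push_cast
    rw [Finset.sum_div]
    apply Finset.sum_congr rfl
    intro k _
    by_cases h : (t k : ℕ) / m = α k <;> simp [h]
  rw [h7] at h6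
  linarith

end Pool.H359R3.WH
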