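import Mathlib
import Pool.Agent.H359R3.WG2

set_option autoImplicit false
set_option linter.unusedSectionVars false
set_option linter.unusedVariables false

/-!
Limits along a refining sequence, lifting and orbits.
-/

namespace Pool.H359R3.WH

open MeasureTheory Set Filter Topology
open scoped ENNReal symmDiff
open Pool.H359R3

theorem inv_close (H : ℕ) [NeZero H] (σ : Equiv.Perm (Fin H)) (T : Aut) :
    dl H T.1.symm (rz H σ).1.symm ≤ dl H T.1 (rz H σ).1 := by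
  have hms : MeasurableSet {z | fl H (T.1.symm z) ≠ fl H ((rz H σ).1.symm z)} := by
    have hg : Measurable (fun x => (fl H (T.1.symm x), fl H ((rz H σ).1.symm x))) :=
      ((fl_meas H).comp T.1.symm.measurable).prodMk ((fl_meas H).comp (rz H σ).1.symm.measurable)
    exact hg (MeasurableSet.of_discrete (s := {p : ℕ × ℕ | p.1 ≠ p.2}))
  unfold dl
  rw [← mp_real T.2 hms]
  apply ENNReal.toReal_mono (measure_ne_top _ _)
  apply measure_mono_ae
  have ha := T.2.quasiMeasurePreserving.ae ae_Ico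
  filter_upwards [ae_Ico, ha] with x hx hTx hmem
  have h1 : fl H (T.1.symm (T.1 x)) ≠ fl H ((rz H σ).1.symm (T.1 x)) := hmem
  show fl H (T.1 x) ≠ fl H ((rz H σ).1 x)
  intro h2
  apply h1
  rw [MeasurableEquiv.symm_apply_apply, rz_symm_apply]
  rw [rz_apply] at h2
  obtain ⟨h3, h4⟩ := rzf_mem H σ x hx
  obtain ⟨h5, h6⟩ := rzf_mem H σ⁻¹ (T.1 x) hTx
  rw [← flf_val H x hx, ← flf_val H _ h5, h6]
  have h7 : flf H (T.1 x) = σ (flf H x) := by
    apply Fin.ext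
    rw [flf_val H _ hTx, h2, ← flf_val H _ h3, h4]
  rw [h7]
  simp

/-- the limit lemma -/
theorem limit_exists (H : ℕ → ℕ) (hH : ∀ j, 0 < H j) (hdvd : ∀ m : ℕ, 0 < m → ∃ j, ∀ i ≥ j, m ∣ H i)
    (e : ℕ → Aut) (ρ : ℕ → ℝ) (hρ : Tendsto ρ atTop (𝓝 0))
    (h1 : ∀ j i, j ≤ i → dl (H j) (e i).1 (e j).1 ≤ ρ j)
    (h2 : ∀ j i, j ≤ i → dl (H j) (e i).1.symm (e j).1.symm ≤ ρ j) :
    ∃ T : Aut, ∀ j, dl (H j) T.1 (e j).1 ≤ ρ j := by
  -- general Cauchy statement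
  have hC : ∀ (f : ℕ → ℝ → ℝ) (hf : ∀ n, MeasurePreserving (f n) lam lam)
      (hfd : ∀ j i, j ≤ i → dl (H j) (f i) (f j) ≤ ρ j) (s : Set ℝ) (hs : MeasurableSet s) (η : ℝ), 0 < η →
      ∃ j, ∀ i ≥ j, lam.real ((f i ⁻¹' s) ∆ (f j ⁻¹' s)) < η := by
    intro f hf hfd s hs η hη
    obtain ⟨m, hm, B, hB⟩ := Apx s hs 1 one_pos (η / 4) (by positivity)
    obtain ⟨j0, hj0⟩ := hdvd (1 * m) (by positivity)
    have h3 := hρ.eventually (gt_mem_nhds (show (0 : ℝ) < η / 4 by positivity))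
    rw [eventually_atTop] at h3
    obtain ⟨j1, hj1⟩ := h3
    refine ⟨max j0 j1, fun i hi => ?_⟩
    have h4 := close_set (1 * m) B s hs (η / 4) hB (f i) (f (max j0 j1)) (hf i) (hf _)
    have h5 : dl (1 * m) (f i) (f (max j0 j1)) ≤ dl (H (max j0 j1)) (f i) (f (max j0 j1)) :=
      dl_dvd _ _ (by positivity) (hH _) (hj0 _ (le_max_left _ _)) _ _
    have h6 := hfd (max j0 j1) i hi
    have h7 := hj1 (max j0 j1) (le_max_right _ _)
    linarith
  let _ := unif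
  have := unif_cg
  have hcomp := unif_complete
  have hui : IsUniformInducing iot := ⟨rfl⟩
  have hcs : CauchySeq e := by
    have hc1 : CauchySeq (fun n => iot (e n)) := by
      show Cauchy (Filter.map (fun n => iot (e n)) atTop)
      rw [cauchy_pi_iff']
      intro i
      show CauchySeq (fun n => iot (e n) i)
      have c1 : CauchySeq (fun n => (iot (e n) i).1) := by
        rw [Metric.cauchySeq_iff']
        intro η hη
        exact hC (fun n => (e n).1) (fun n => (e n).2) h1 (AA i) (AA_meas i) η hη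
      have c2 : CauchySeq (fun n => (iot (e n) i).2) := by
        rw [Metric.cauchySeq_iff']
        intro η hη
        exact hC (fun n => (e n).1.symm) (fun n => (e n).symm_mp) h2 (AA i) (AA_meas i) η hη
      exact c1.prodMk c2
    have hc2 : Cauchy (Filter.map iot (Filter.map e atTop)) := hc1
    exact (hui.cauchy_map_iff).1 hc2
  obtain ⟨T, hT⟩ := cauchySeq_tendsto_of_complete hcs
  refine ⟨T, fun j => ?_⟩
  apply le_of_forall_pos_le_add
  intro η hη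
  have h3 := hT.eventually (dl_nhds T (H j) (hH j) η hη)
  obtain ⟨i, hi1, hi2⟩ := (h3.and (eventually_ge_atTop j)).exists
  have h4 := dl_tri (H j) T.1 (e i).1 (e j).1
  have h5 := h1 j i hi2
  have h6 : dl (H j) T.1 (e i).1 < η := by
    rw [dl_symm]
    exact hi1
  linarith

/-- lift of a permutation to a refinement -/
def lft (n m : ℕ) (t : Equiv.Perm (Fin n)) : Equiv.Perm (Fin (n * m)) :=
  finProdFinEquiv.symm.trans ((Equiv.prodCongr t (Equiv.refl _)).trans finProdFinEquiv)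

theorem lft_val (n m : ℕ) (t : Equiv.Perm (Fin n)) (k : Fin (n * m)) :
    ((lft n m t k : Fin (n * m)) : ℕ) = (k : ℕ) % m + m * (t k.divNat : ℕ) := by
  unfold lft
  simp [Equiv.trans_apply, finProdFinEquiv]

theorem lft_div (n m : ℕ) (hm : 0 < m) (t : Equiv.Perm (Fin n)) (k : Fin (n * m)) :
    ((lft n m t k : Fin (n * m)) : ℕ) / m = (t k.divNat : ℕ) := by
  rw [lft_val, Nat.add_mul_div_left _ _ hm, Nat.div_eq_of_lt (Nat.mod_lt _ hm), zero_add]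

theorem divNat_val (n m : ℕ) (k : Fin (n * m)) : ((k.divNat : Fin n) : ℕ) = (k : ℕ) / m := rfl

theorem rz_lft (n m : ℕ) [NeZero n] [NeZero (n * m)] (hm : 0 < m) (t : Equiv.Perm (Fin n)) (x : ℝ) :
    (rz (n * m) (lft n m t)).1 x = (rz n t).1 x := by
  rw [rz_apply, rz_apply]
  by_cases hx : x ∈ Ico (0 : ℝ) 1
  · rw [rzf_pos _ _ _ hx, rzf_pos _ _ _ hx, lft_val]
    have h1 : (flf (n * m) x).divNat = flf n x := by
      apply Fin.ext
      rw [divNat_val, flf_val _ _ hx, flf_val _ _ hx, ← fl_div n m (NeZero.pos n) hm]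
    rw [h1]
    have h2 : ((flf (n * m) x : Fin (n * m)) : ℕ) = ((flf (n * m) x : Fin (n * m)) : ℕ) % m + m * (flf n x : ℕ) := by
      have h3 := Nat.mod_add_div ((flf (n * m) x : Fin (n * m)) : ℕ) m
      have h4 : ((flf (n * m) x : Fin (n * m)) : ℕ) / m = (flf n x : ℕ) := by
        rw [← divNat_val, h1]
      rw [h4] at h3
      exact h3.symm
    have h5 : (((flf (n * m) x : Fin (n * m)) : ℕ) : ℝ) =
        (((flf (n * m) x : Fin (n * m)) : ℕ) % m : ℕ) + m * ((flf n x : ℕ) : ℝ) := by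
      exact_mod_cast h2
    have hn0 : (n : ℝ) ≠ 0 := by exact_mod_cast (NeZero.ne n)
    have hm0 : (m : ℝ) ≠ 0 := by exact_mod_cast hm.ne'
    push_cast
    push_cast at h5
    rw [h5]
    field_simp
    ring
  · rw [rzf_not_mem _ _ _ hx, rzf_not_mem _ _ _ hx]

theorem iter_mp (T : Aut) (n : ℕ) : MeasurePreserving ((T.1 : ℝ → ℝ)^[n]) lam lam := T.2.iterate n

theorem iter_symm_mp (T : Aut) (n : ℕ) : MeasurePreserving ((T.1.symm : ℝ → ℝ)^[n]) lam lam := T.symm_mp.iterate n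

/-- orbits of `T` shadow orbits of the finite model -/
theorem orb (H : ℕ) [NeZero H] (σ : Equiv.Perm (Fin H)) (T : Aut) (n : ℕ) :
    lam.real {z | flf H ((T.1.symm : ℝ → ℝ)^[n] z) ≠ (σ⁻¹ ^ n) (flf H z)} ≤ n * dl H T.1 (rz H σ).1 := by
  induction n with
  | zero => simp
  | succ n ih =>
    have hms : MeasurableSet {z | flf H (T.1.symm z) ≠ σ⁻¹ (flf H z)} := by
      have hg : Measurable (fun x => (flf H (T.1.symm x), flf H x)) :=
        ((flf_meas H).comp T.1.symm.measurable).prodMk (flf_meas H)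
      exact hg (MeasurableSet.of_discrete (s := {p : Fin H × Fin H | p.1 ≠ σ⁻¹ p.2}))
    have h1 : lam.real {z | flf H ((T.1.symm : ℝ → ℝ)^[n + 1] z) ≠ (σ⁻¹ ^ (n + 1)) (flf H z)} ≤
        lam.real {z | flf H ((T.1.symm : ℝ → ℝ)^[n] z) ≠ (σ⁻¹ ^ n) (flf H z)} +
        lam.real ((T.1.symm : ℝ → ℝ)^[n] ⁻¹' {z | flf H (T.1.symm z) ≠ σ⁻¹ (flf H z)}) := by
      refine le_trans (measureReal_mono ?_) (measureReal_union_le _ _)
      intro z hz
      by_contra hc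
      rw [mem_union, not_or] at hc
      have h2 : flf H ((T.1.symm : ℝ → ℝ)^[n] z) = (σ⁻¹ ^ n) (flf H z) := not_not.1 hc.1
      have h3 : flf H (T.1.symm ((T.1.symm : ℝ → ℝ)^[n] z)) = σ⁻¹ (flf H ((T.1.symm : ℝ → ℝ)^[n] z)) :=
        not_not.1 hc.2
      apply hz
      rw [Function.iterate_succ_apply', h3, h2, pow_succ', Equiv.Perm.mul_apply]
    have h2 : lam.real ((T.1.symm : ℝ → ℝ)^[n] ⁻¹' {z | flf H (T.1.symm z) ≠ σ⁻¹ (flf H z)}) =
        lam.real {z | flf H (T.1.symm z) ≠ σ⁻¹ (flf H z)} := mp_real (iter_symm_mp T n) hms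
    have h3 : lam.real {z | flf H (T.1.symm z) ≠ σ⁻¹ (flf H z)} ≤ dl H T.1 (rz H σ).1 := by
      refine le_trans ?_ (inv_close H σ T)
      unfold dl
      apply ENNReal.toReal_mono (measure_ne_top _ _)
      apply measure_mono_ae
      filter_upwards [ae_Ico, T.symm_mp.quasiMeasurePreserving.ae ae_Ico] with z hz hTz hmem
      have hmem' : flf H (T.1.symm z) ≠ σ⁻¹ (flf H z) := hmem
      show fl H (T.1.symm z) ≠ fl H ((rz H σ).1.symm z)
      intro h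
      apply hmem'
      apply Fin.ext
      rw [flf_val _ _ hTz, h, rz_symm_apply]
      obtain ⟨h5, h6⟩ := rzf_mem H σ⁻¹ z hz
      rw [← flf_val _ _ h5, h6]
    have hcast : ((n + 1 : ℕ) : ℝ) = (n : ℝ) + 1 := by push_cast; ring
    rw [hcast]
    linarith

/-- comparison of the displacement at time `n` with the finite model -/
theorem disp (H g : ℕ) [NeZero H] (hg : 0 < g) (Q : ℕ) (hQ : 0 < Q) (hQg : H = Q * g)
    (τ s : Equiv.Perm (Fin H)) (T S : Aut) (n : ℕ) :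
    lam.real {x | fl Q ((T.1.symm : ℝ → ℝ)^[n] (S.1 ((T.1 : ℝ → ℝ)^[n] x))) ≠ fl Q x} ≤
      2 * n * dl H T.1 (rz H τ).1 + dl H S.1 (rz H s).1 +
      nc (fun k : Fin H => ((τ⁻¹ ^ n) (s k) : ℕ) / g ≠ ((τ⁻¹ ^ n) k : ℕ) / g) / H := by
  subst hQg
  have hmsB : ∀ f : ℝ → ℝ, Measurable f → ∀ h : ℝ → ℝ, Measurable h → ∀ (F : Fin (Q * g) → Fin (Q * g)),
      MeasurableSet {z | flf (Q * g) (f z) ≠ F (flf (Q * g) (h z))} := by
    intro f hf h hh F
    have hm : Measurable (fun x => (flf (Q * g) (f x), flf (Q * g) (h x))) :=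
      ((flf_meas _).comp hf).prodMk ((flf_meas _).comp hh)
    exact hm (MeasurableSet.of_discrete (s := {p : Fin (Q * g) × Fin (Q * g) | p.1 ≠ F p.2}))
  have hTs : Measurable ((T.1.symm : ℝ → ℝ)^[n]) := (iter_symm_mp T n).measurable
  have hT : Measurable ((T.1 : ℝ → ℝ)^[n]) := (iter_mp T n).measurable
  set P : Set ℝ := {z | fl Q ((T.1.symm : ℝ → ℝ)^[n] (S.1 z)) ≠ fl Q ((T.1.symm : ℝ → ℝ)^[n] z)} with hP
  have hPm : MeasurableSet P := by
    have hg : Measurable (fun z => (fl Q ((T.1.symm : ℝ → ℝ)^[n] (S.1 z)), fl Q ((T.1.symm : ℝ → ℝ)^[n] z))) :=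
      ((fl_meas Q).comp (hTs.comp S.1.measurable)).prodMk ((fl_meas Q).comp hTs)
    exact hg (MeasurableSet.of_discrete (s := {p : ℕ × ℕ | p.1 ≠ p.2}))
  have h1 : {x | fl Q ((T.1.symm : ℝ → ℝ)^[n] (S.1 ((T.1 : ℝ → ℝ)^[n] x))) ≠ fl Q x} =
      (T.1 : ℝ → ℝ)^[n] ⁻¹' P := by
    ext x
    have hinv : (T.1.symm : ℝ → ℝ)^[n] ((T.1 : ℝ → ℝ)^[n] x) = x :=
      Function.LeftInverse.iterate T.1.symm_apply_apply n x
    show _ ↔ fl Q ((T.1.symm : ℝ → ℝ)^[n] (S.1 ((T.1 : ℝ → ℝ)^[n] x))) ≠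
      fl Q ((T.1.symm : ℝ → ℝ)^[n] ((T.1 : ℝ → ℝ)^[n] x))
    rw [hinv]
    exact Iff.rfl
  rw [h1, mp_real (iter_mp T n) hPm]
  -- bad sets
  set B1 : Set ℝ := {z | flf (Q * g) ((T.1.symm : ℝ → ℝ)^[n] z) ≠ (τ⁻¹ ^ n) (flf (Q * g) z)} with hB1
  have hB1m : MeasurableSet B1 := hmsB _ hTs id measurable_id (fun k => (τ⁻¹ ^ n) k)
  set B3 : Set ℝ := {z | fl (Q * g) (S.1 z) ≠ fl (Q * g) ((rz (Q * g) s).1 z)} with hB3
  set B4 : Set ℝ := {z | ((τ⁻¹ ^ n) (s (flf (Q * g) z)) : ℕ) / g ≠ ((τ⁻¹ ^ n) (flf (Q * g) z) : ℕ) / g} with hB4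
  have hsub : lam.real P ≤ lam.real ((B1 ∪ S.1 ⁻¹' B1) ∪ (B3 ∪ B4)) := by
    apply ENNReal.toReal_mono (measure_ne_top _ _)
    apply measure_mono_ae
    filter_upwards [ae_Ico, (iter_symm_mp T n).quasiMeasurePreserving.ae ae_Ico,
      ((iter_symm_mp T n).comp S.2).quasiMeasurePreserving.ae ae_Ico,
      S.2.quasiMeasurePreserving.ae ae_Ico] with z hz hz1 hz2 hz3 hmem
    have hmem' : fl Q ((T.1.symm : ℝ → ℝ)^[n] (S.1 z)) ≠ fl Q ((T.1.symm : ℝ → ℝ)^[n] z) := hmem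
    show z ∈ (B1 ∪ S.1 ⁻¹' B1) ∪ (B3 ∪ B4)
    by_contra hc
    simp only [mem_union, not_or] at hc
    obtain ⟨⟨c1, c2⟩, c3, c4⟩ := hc
    have d1 : flf (Q * g) ((T.1.symm : ℝ → ℝ)^[n] z) = (τ⁻¹ ^ n) (flf (Q * g) z) := not_not.1 c1
    have d2 : flf (Q * g) ((T.1.symm : ℝ → ℝ)^[n] (S.1 z)) = (τ⁻¹ ^ n) (flf (Q * g) (S.1 z)) := not_not.1 c2
    have d3 : fl (Q * g) (S.1 z) = fl (Q * g) ((rz (Q * g) s).1 z) := not_not.1 c3
    have d4 : ((τ⁻¹ ^ n) (s (flf (Q * g) z)) : ℕ) / g = ((τ⁻¹ ^ n) (flf (Q * g) z) : ℕ) / g := not_not.1 c4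
    obtain ⟨e1, e2⟩ := rzf_mem (Q * g) s z hz
    have d5 : flf (Q * g) (S.1 z) = s (flf (Q * g) z) := by
      apply Fin.ext
      rw [flf_val _ _ hz3, d3, rz_apply, ← flf_val _ _ e1, e2]
    apply hmem'
    have hz2' : (T.1.symm : ℝ → ℝ)^[n] (S.1 z) ∈ Ico (0 : ℝ) 1 := hz2
    rw [fl_div Q g hQ hg, fl_div Q g hQ hg, ← flf_val _ _ hz2', ← flf_val _ _ hz1, d1, d2, d5, d4]
  have o1 := orb (Q * g) τ T n
  have o2 : lam.real (S.1 ⁻¹' B1) = lam.real B1 := mp_real S.2 hB1m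
  have o4 : lam.real B4 = nc (fun k : Fin (Q * g) => ((τ⁻¹ ^ n) (s k) : ℕ) / g ≠ ((τ⁻¹ ^ n) k : ℕ) / g) / ((Q * g : ℕ) : ℝ) :=
    lam_lab (Q * g) (fun k => ((τ⁻¹ ^ n) (s k) : ℕ) / g ≠ ((τ⁻¹ ^ n) k : ℕ) / g)
  have u1 := measureReal_union_le (μ := lam) (B1 ∪ S.1 ⁻¹' B1) (B3 ∪ B4)
  have u2 := measureReal_union_le (μ := lam) B1 (S.1 ⁻¹' B1)
  have u3 := measureReal_union_le (μ := lam) B3 B4
  have o3 : lam.real B3 = dl (Q * g) S.1 (rz (Q * g) s).1 := rfl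
  rw [o2] at u2
  rw [o3, o4] at u3
  have o1' : lam.real B1 ≤ n * dl (Q * g) T.1 (rz (Q * g) τ).1 := o1
  linarith

end Pool.H359R3.WH
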