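import Mathlib
import Pool.Agent.H359R3.MX4
import Pool.Agent.H359R3.WG3

set_option autoImplicit false
set_option linter.unusedSectionVars false
set_option linter.unusedVariables false

/-!
Skew products over `X` with fibre the unit interval given by interval permutations, and the
open condition.
-/

namespace Pool.H359R3.MX

open MeasureTheory Set Filter Topology
open scoped ENNReal symmDiff
open Pool.H359R3 Pool.H359R3.WH

/-- `S` or its inverse -/
def pw {Z : Type*} [MeasurableSpace Z] (s : Bool) (S : Z ≃ᵐ Z) : Z ≃ᵐ Z := if s then S else S.symm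

/-- partial sums -/
def ps {k : ℕ} (n : Fin k → ℕ) (j : Fin (k + 1)) : ℕ := ∑ i : Fin k, if (i : ℕ) < (j : ℕ) then n i else 0

/-- mixing of multiplicity `k`, with preimages under `S` (`s = true`) or under `S⁻¹` -/
def MixS {Z : Type*} [MeasurableSpace Z] (s : Bool) (k : ℕ) (m : Measure Z) (S : Z ≃ᵐ Z) : Prop :=
  ∀ A : Fin (k + 1) → Set Z, (∀ j, MeasurableSet (A j)) →
    Tendsto (fun n : Fin k → ℕ => m.real (⋂ j, ((pw s S : Z → Z)^[ps n j]) ⁻¹' A j)) atTop
      (𝓝 (∏ j, m.real (A j)))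

theorem pw_mp {Z : Type*} [MeasurableSpace Z] (s : Bool) (S : Z ≃ᵐ Z) (m : Measure Z)
    (h : MeasurePreserving S m m) : MeasurePreserving (pw s S) m m := by
  cases s
  · exact MeasurePreserving.symm S h
  · exact h

theorem pw_comm {Z : Type*} [MeasurableSpace Z] (s : Bool) (S : Z ≃ᵐ Z) :
    Function.Commute (pw s S : Z → Z) (S : Z → Z) := by
  intro z
  cases s
  · show S.symm (S z) = S (S.symm z)
    rw [S.symm_apply_apply, S.apply_symm_apply]
  · rfl

variable {X : Type*} [MeasurableSpace X]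

section ext

variable (μ : Measure X) [IsProbabilityMeasure μ]

theorem pw_fst {Y : Type*} [MeasurableSpace Y] (m : Measure (X × Y)) (s : Bool) (S : (X × Y) ≃ᵐ (X × Y)) (T : X ≃ᵐ X)
    (hS : MeasurePreserving S m m) (h : ∀ᵐ z ∂m, (S z).1 = T z.1) :
    ∀ᵐ z ∂m, (pw s S z).1 = pw s T z.1 := by
  cases s
  · have h1 := (MeasurePreserving.symm S hS).quasiMeasurePreserving.ae h
    filter_upwards [h1] with z hz
    rw [S.apply_symm_apply] at hz
    show (S.symm z).1 = T.symm z.1
    rw [hz, T.symm_apply_apply]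
  · exact h

theorem iter_fst {Y : Type*} [MeasurableSpace Y] (m : Measure (X × Y)) (f : X × Y → X × Y) (t : X → X)
    (hf : MeasurePreserving f m m) (h : ∀ᵐ z ∂m, (f z).1 = t z.1) (M : ℕ) :
    ∀ᵐ z ∂m, (f^[M] z).1 = t^[M] z.1 := by
  induction M with
  | zero => exact Eventually.of_forall (fun _ => rfl)
  | succ M ih =>
    have h1 := (hf.iterate M).quasiMeasurePreserving.ae h
    filter_upwards [ih, h1] with z h2 h3
    rw [Function.iterate_succ_apply', Function.iterate_succ_apply', h3, h2]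

end ext

variable {N : ℕ} [NeZero N]

theorem rz_unc_meas (φ : X → Equiv.Perm (Fin N)) (hφ : Ms φ) :
    Measurable (fun z : X × ℝ => rzf N (φ z.1) z.2) := by
  unfold rzf
  have h1 : Measurable (fun z : X × ℝ => φ z.1 (flf N z.2)) :=
    (meas_unc (fun x => φ x) hφ).comp (measurable_fst.prodMk ((flf_meas N).comp measurable_snd))
  refine Measurable.ite (measurable_snd measurableSet_Ico) ?_ measurable_snd
  refine measurable_snd.add (Measurable.div_const (Measurable.sub ?_ ?_) _)
  · exact (measurable_of_countable (fun k : Fin N => ((k : ℕ) : ℝ))).comp h1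
  · exact (measurable_of_countable (fun k : Fin N => ((k : ℕ) : ℝ))).comp ((flf_meas N).comp measurable_snd)

theorem inv_ms (φ : X → Equiv.Perm (Fin N)) (hφ : Ms φ) : Ms (fun x => (φ x)⁻¹) := by
  intro a
  apply measurable_to_countable'
  intro b
  have : (fun x => (φ x)⁻¹ a) ⁻¹' {b} = (fun x => φ x b) ⁻¹' {a} := by
    ext x
    simp only [mem_preimage, mem_singleton_iff, Equiv.Perm.inv_eq_iff_eq]
    exact eq_comm
  rw [this]
  exact hφ b (measurableSet_singleton a)

/-- the skew product -/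
noncomputable def SK (T : X ≃ᵐ X) (φ : X → Equiv.Perm (Fin N)) (hφ : Ms φ) : (X × ℝ) ≃ᵐ (X × ℝ) where
  toFun := fun z => (T z.1, rzf N (φ z.1) z.2)
  invFun := fun w => (T.symm w.1, rzf N (φ (T.symm w.1))⁻¹ w.2)
  left_inv := fun z => by
    show (T.symm (T z.1), rzf N (φ (T.symm (T z.1)))⁻¹ (rzf N (φ z.1) z.2)) = z
    rw [T.symm_apply_apply, rzf_comp, inv_mul_cancel, rzf_one]
  right_inv := fun w => by
    show (T (T.symm w.1), rzf N (φ (T.symm w.1)) (rzf N (φ (T.symm w.1))⁻¹ w.2)) = w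
    rw [T.apply_symm_apply, rzf_comp, mul_inv_cancel, rzf_one]
  measurable_toFun := (T.measurable.comp measurable_fst).prodMk (rz_unc_meas φ hφ)
  measurable_invFun := (T.symm.measurable.comp measurable_fst).prodMk
    ((rz_unc_meas _ (inv_ms φ hφ)).comp ((T.symm.measurable.comp measurable_fst).prodMk measurable_snd))

theorem SK_apply (T : X ≃ᵐ X) (φ : X → Equiv.Perm (Fin N)) (hφ : Ms φ) (z : X × ℝ) :
    SK T φ hφ z = (T z.1, rzf N (φ z.1) z.2) := rfl

theorem SK_iter (T : X ≃ᵐ X) (φ : X → Equiv.Perm (Fin N)) (hφ : Ms φ) (l : ℕ) (z : X × ℝ) :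
    (SK T φ hφ)^[l] z = (T^[l] z.1, rzf N (coc T φ l z.1) z.2) := by
  induction l with
  | zero => rw [coc_zero, rzf_one]; rfl
  | succ l ih =>
    rw [Function.iterate_succ_apply', ih, SK_apply, Function.iterate_succ_apply', coc_succ, rzf_comp]

variable (μ : Measure X) [IsProbabilityMeasure μ]

instance lam_prob : IsProbabilityMeasure lam := by
  constructor
  rw [Measure.restrict_apply MeasurableSet.univ, univ_inter, Real.volume_Icc]
  simp

theorem SK_mp (T : X ≃ᵐ X) (hT : MeasurePreserving T μ μ) (φ : X → Equiv.Perm (Fin N)) (hφ : Ms φ) :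
    MeasurePreserving (SK T φ hφ) (μ.prod lam) (μ.prod lam) := by
  have h := MeasurePreserving.skew_product (μa := μ) (μb := μ) (μc := lam) (μd := lam) hT
    (g := fun x y => rzf N (φ x) y) (rz_unc_meas φ hφ) (Eventually.of_forall (fun x => (rzf_mp N (φ x)).map_eq))
  exact h

/-- level sets -/
def LS (N : ℕ) (A : Set (X × ℕ)) : Set (X × ℝ) := {z | (z.1, fl N z.2) ∈ A}

theorem LS_meas (N : ℕ) (A : Set (X × ℕ)) (hA : MeasurableSet A) : MeasurableSet (LS N A) :=
  (measurable_fst.prodMk ((fl_meas N).comp measurable_snd)) hA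

open Classical in
/-- indicator of a level set as a function of a label -/
noncomputable def gA (A : Set (X × ℕ)) (x : X) (a : Fin N) : ℝ := if (x, (a : ℕ)) ∈ A then 1 else 0

theorem gA_meas (A : Set (X × ℕ)) (hA : MeasurableSet A) (a : Fin N) : Measurable (fun x => gA A x a) := by
  unfold gA
  refine Measurable.ite ?_ measurable_const measurable_const
  exact (measurable_id.prodMk measurable_const) hA

theorem gA_nonneg (A : Set (X × ℕ)) (x : X) (a : Fin N) : 0 ≤ gA A x a := by
  unfold gA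
  split_ifs <;> norm_num

theorem gA_le (A : Set (X × ℕ)) (x : X) (a : Fin N) : gA A x a ≤ 1 := by
  unfold gA
  split_ifs <;> norm_num

theorem int_lab (h : Fin N → ℝ) : ∫ y, h (flf N y) ∂lam = (1 / (N : ℝ)) * ∑ a, h a := by
  have h1 : ∫ y, h (flf N y) ∂lam = ∫ a, h a ∂(lam.map (flf N)) := by
    rw [integral_map (flf_meas N).aemeasurable]
    exact (measurable_of_countable h).aestronglyMeasurable
  have : IsProbabilityMeasure (lam.map (flf N)) := Measure.isProbabilityMeasure_map (flf_meas N).aemeasurable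
  rw [h1, integral_fintype (Integrable.of_finite), Finset.mul_sum]
  apply Finset.sum_congr rfl
  intro a _
  rw [smul_eq_mul]
  congr 1
  rw [map_measureReal_apply (flf_meas N) (measurableSet_singleton a)]
  have h2 := lam_lab N (fun k => k = a)
  have h3 : nc (fun k : Fin N => k = a) = 1 := by
    rw [← nc_eq]
    norm_cast
    rw [Finset.card_eq_one]
    exact ⟨a, by ext k; simp⟩
  rw [h3] at h2
  exact h2

theorem LS_real (A : Set (X × ℕ)) (hA : MeasurableSet A) :
    (μ.prod lam).real (LS N A) = ∫ x, bar (gA (N := N) A) x ∂μ := by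
  have hm : Measurable (fun z : X × ℝ => gA A z.1 (flf N z.2)) :=
    (meas_unc (gA A) (gA_meas A hA)).comp (measurable_fst.prodMk ((flf_meas N).comp measurable_snd))
  have hy : ∀ᵐ z ∂(μ.prod lam), z.2 ∈ Ico (0:ℝ) 1 :=
    (measurePreserving_snd (μ := μ) (ν := lam)).quasiMeasurePreserving.ae ae_Ico
  have h1 : (μ.prod lam).real (LS N A) = ∫ z, gA A z.1 (flf N z.2) ∂(μ.prod lam) := by
    rw [← integral_indicator_one (LS_meas N A hA)]
    apply integral_congr_ae
    filter_upwards [hy] with z hz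
    unfold gA
    rw [flf_val N z.2 hz]
    by_cases h : (z.1, fl N z.2) ∈ A
    · rw [if_pos h, indicator_of_mem (show z ∈ LS N A from h)]
      rfl
    · rw [if_neg h, indicator_of_notMem (show z ∉ LS N A from h)]
  rw [h1, integral_prod]
  · congr 1
    funext x
    exact int_lab (fun a => gA A x a)
  · exact integrable_of_abs_le _ hm 1 (fun z => by rw [abs_of_nonneg (gA_nonneg _ _ _)]; exact gA_le _ _ _)

/-! symmetric differences -/

theorem real_inter_diff {Z : Type*} [MeasurableSpace Z] (m : Measure Z) [IsProbabilityMeasure m] {ι : Type*}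
    [Fintype ι] (E F : ι → Set Z) (hE : ∀ i, MeasurableSet (E i)) (hF : ∀ i, MeasurableSet (F i)) :
    |m.real (⋂ i, E i) - m.real (⋂ i, F i)| ≤ ∑ i, m.real (E i ∆ F i) := by
  have hsub : (⋂ i, E i) ∆ (⋂ i, F i) ⊆ ⋃ i ∈ Finset.univ, (E i ∆ F i) := by
    intro z hz
    rw [Set.mem_symmDiff] at hz
    simp only [mem_iUnion, Finset.mem_univ, exists_prop, true_and]
    by_contra hc
    push Not at hc
    have : ∀ i, (z ∈ E i ↔ z ∈ F i) := by
      intro i
      have := hc i
      rw [Set.mem_symmDiff] at this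
      tauto
    simp only [mem_iInter] at hz
    rcases hz with ⟨h1, h2⟩ | ⟨h1, h2⟩
    · exact h2 (fun i => (this i).1 (h1 i))
    · exact h2 (fun i => (this i).2 (h1 i))
  have h1 : m.real ((⋂ i, E i) ∆ (⋂ i, F i)) ≤ ∑ i, m.real (E i ∆ F i) :=
    le_trans (measureReal_mono hsub (measure_ne_top _ _)) (measureReal_biUnion_finset_le _ _)
  refine le_trans ?_ h1
  have h2 : m.real (⋂ i, E i) ≤ m.real (⋂ i, F i) + m.real ((⋂ i, E i) ∆ (⋂ i, F i)) := by
    refine le_trans (measureReal_mono (fun z hz => ?_)) (measureReal_union_le _ _)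
    by_cases h : z ∈ ⋂ i, F i
    · exact Or.inl h
    · exact Or.inr (Or.inl ⟨hz, h⟩)
  have h3 : m.real (⋂ i, F i) ≤ m.real (⋂ i, E i) + m.real ((⋂ i, E i) ∆ (⋂ i, F i)) := by
    refine le_trans (measureReal_mono (fun z hz => ?_)) (measureReal_union_le _ _)
    by_cases h : z ∈ ⋂ i, E i
    · exact Or.inl h
    · exact Or.inr (Or.inr ⟨hz, h⟩)
  rw [abs_le]
  constructor <;> linarith

theorem mp_real' {Z : Type*} [MeasurableSpace Z] {m : Measure Z} {f : Z → Z} (hf : MeasurePreserving f m m)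
    {E : Set Z} (hE : MeasurableSet E) : m.real (f ⁻¹' E) = m.real E := by
  rw [measureReal_def, measureReal_def, hf.measure_preimage hE.nullMeasurableSet]

theorem iter_diff {Z : Type*} [MeasurableSpace Z] (m : Measure Z) [IsProbabilityMeasure m]
    (f g : Z → Z) (hf : MeasurePreserving f m m) (hg : MeasurePreserving g m m) (E : Set Z) (hE : MeasurableSet E)
    (δ : ℝ) (L : ℕ) (h : ∀ j < L, m.real ((f ⁻¹' (g^[j] ⁻¹' E)) ∆ (g ⁻¹' (g^[j] ⁻¹' E))) ≤ δ) (l : ℕ) (hl : l ≤ L) :
    m.real ((f^[l] ⁻¹' E) ∆ (g^[l] ⁻¹' E)) ≤ l * δ := by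
  induction l with
  | zero => simp
  | succ l ih =>
    have e1 : f^[l + 1] ⁻¹' E = f ⁻¹' (f^[l] ⁻¹' E) := by
      rw [Function.iterate_succ, preimage_comp]
    have e2 : g^[l + 1] ⁻¹' E = g ⁻¹' (g^[l] ⁻¹' E) := by
      rw [Function.iterate_succ, preimage_comp]
    have hfE : MeasurableSet (f^[l] ⁻¹' E) := (hf.measurable.iterate l) hE
    have hgE : MeasurableSet (g^[l] ⁻¹' E) := (hg.measurable.iterate l) hE
    rw [e1, e2]
    have h1 : m.real ((f ⁻¹' (f^[l] ⁻¹' E)) ∆ (f ⁻¹' (g^[l] ⁻¹' E))) ≤ l * δ := by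
      rw [← preimage_symmDiff, mp_real' hf (hfE.symmDiff hgE)]
      exact ih (by omega)
    have h2 := h l (by omega)
    have h3 : m.real ((f ⁻¹' (f^[l] ⁻¹' E)) ∆ (g ⁻¹' (g^[l] ⁻¹' E))) ≤
        m.real ((f ⁻¹' (f^[l] ⁻¹' E)) ∆ (f ⁻¹' (g^[l] ⁻¹' E))) +
        m.real ((f ⁻¹' (g^[l] ⁻¹' E)) ∆ (g ⁻¹' (g^[l] ⁻¹' E))) :=
      le_trans (measureReal_mono (symmDiff_triangle _ _ _)) (measureReal_union_le _ _)
    push_cast
    linarith

end Pool.H359R3.MX
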