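import Mathlib
import Pool.Agent.H359R3.MX5

set_option autoImplicit false
set_option linter.unusedSectionVars false
set_option linter.unusedVariables false

/-!
The open condition: near a finite extension with small average correlations every extension is
almost mixing of multiplicity `k`, uniformly.
-/

namespace Pool.H359R3.MX

open MeasureTheory Set Filter Topology
open scoped ENNReal symmDiff
open Pool.H359R3 Pool.H359R3.WH

variable {X : Type*} [MeasurableSpace X]
variable {N : ℕ} [NeZero N]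
variable (μ : Measure X) [IsProbabilityMeasure μ]

/-- mixing for indicator functions -/
theorem mix_fun (T : X ≃ᵐ X) (s : Bool) (k : ℕ) (hmix : MixS s k μ T) (B : Fin (k + 1) → Set X)
    (hB : ∀ i, MeasurableSet (B i)) (f : Fin (k + 1) → X → ℝ) (hf : ∀ i x, f i x = (B i).indicator (fun _ => (1:ℝ)) x) :
    Tendsto (fun n : Fin k → ℕ => ∫ x, ∏ i, f i ((pw s T : X → X)^[ps n i] x) ∂μ) atTop (𝓝 (∏ i, ∫ x, f i x ∂μ)) := by
  have h1 := hmix B hB
  have h2 : ∀ i, ∫ x, f i x ∂μ = μ.real (B i) := by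
    intro i
    simp_rw [hf i]
    exact integral_indicator_one (hB i)
  have h3 : ∀ n : Fin k → ℕ, ∫ x, ∏ i, f i ((pw s T : X → X)^[ps n i] x) ∂μ =
      μ.real (⋂ j, ((pw s T : X → X)^[ps n j]) ⁻¹' B j) := by
    intro n
    have hm : MeasurableSet (⋂ j, ((pw s T : X → X)^[ps n j]) ⁻¹' B j) :=
      MeasurableSet.iInter (fun j => ((pw s T).measurable.iterate _) (hB j))
    rw [← integral_indicator_one hm]
    congr 1
    funext x
    by_cases h : x ∈ ⋂ j, ((pw s T : X → X)^[ps n j]) ⁻¹' B j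
    · rw [indicator_of_mem h]
      simp only [mem_iInter, mem_preimage] at h
      rw [Finset.prod_eq_one]
      · rfl
      · intro i _
        rw [hf i, indicator_of_mem (h i)]
    · rw [indicator_of_notMem h]
      simp only [mem_iInter, mem_preimage, not_forall] at h
      obtain ⟨i, hi⟩ := h
      apply Finset.prod_eq_zero (Finset.mem_univ i)
      rw [hf i, indicator_of_notMem hi]
  simp_rw [h2, h3]
  exact h1

theorem core_open (T : X ≃ᵐ X) (hT : MeasurePreserving T μ μ) (s : Bool) (k : ℕ) (hmix : MixS s k μ T)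
    (φ : X → Equiv.Perm (Fin N)) (hφ : Ms φ) (A : Fin (k + 1) → Set (X × ℕ)) (hA : ∀ i, MeasurableSet (A i))
    (L : ℕ) (hL : 0 < L) (ε : ℝ) (hε : 0 < ε)
    (hpair : |∑ l ∈ Finset.range L, ∑ l' ∈ Finset.range L, (∏ i, gam2 μ T (gA (N := N) (A i)) φ l l' -
        ∏ i, (∫ x, bar (gA (N := N) (A i)) x ∂μ) ^ 2)| ≤ (ε ^ 2 / (2 * (N : ℝ) ^ (k + 1))) * (L : ℝ) ^ 2) :
    ∃ δ : ℝ, 0 < δ ∧ ∃ n0 : Fin k → ℕ, ∀ S : (X × ℝ) ≃ᵐ (X × ℝ), MeasurePreserving S (μ.prod lam) (μ.prod lam) →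
      (∀ᵐ z ∂(μ.prod lam), (S z).1 = T z.1) →
      (∀ l < L, ∀ i, (μ.prod lam).real ((S ⁻¹' ((SK T φ hφ)^[l] ⁻¹' LS N (A i))) ∆
        (SK T φ hφ ⁻¹' ((SK T φ hφ)^[l] ⁻¹' LS N (A i)))) ≤ δ) →
      ∀ n ≥ n0, |(μ.prod lam).real (⋂ j, ((pw s S : X × ℝ → X × ℝ)^[ps n j]) ⁻¹' LS N (A j)) -
        ∏ j, (μ.prod lam).real (LS N (A j))| ≤ 2 * ε := by
  classical
  have hN : (0 : ℝ) < N := by exact_mod_cast NeZero.pos N
  have hLr : (0 : ℝ) < L := by exact_mod_cast hL
  set m := μ.prod lam with hm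
  let G : ℕ → Fin (k + 1) → X → Fin N → ℝ := fun l i x a => gA (A i) (T^[l] x) (coc T φ l x a)
  have hGm : ∀ l i a, Measurable fun x => G l i x a := fun l i a =>
    cor_meas T T.measurable (gA (A i)) (gA_meas (A i) (hA i)) φ hφ l a
  have hG0 : ∀ l i x a, 0 ≤ G l i x a := fun l i x a => gA_nonneg _ _ _
  have hG1 : ∀ l i x a, G l i x a ≤ 1 := fun l i x a => gA_le _ _ _
  have hG01 : ∀ l i x a, G l i x a = 0 ∨ G l i x a = 1 := by
    intro l i x a
    show gA (A i) (T^[l] x) (coc T φ l x a) = 0 ∨ gA (A i) (T^[l] x) (coc T φ l x a) = 1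
    unfold gA
    split_ifs
    · exact Or.inr rfl
    · exact Or.inl rfl
  set cc : Fin (k + 1) → ℝ := fun i => ∫ x, bar (gA (N := N) (A i)) x ∂μ with hcc
  set c : ℝ := ∏ i, cc i with hc
  have hcc01 : ∀ i, 0 ≤ cc i ∧ cc i ≤ 1 := fun i =>
    bar_int_mem μ (gA (N := N) (A i)) (gA_meas (A i) (hA i)) (gA_nonneg _) (gA_le _)
  have hc0 : 0 ≤ c := Finset.prod_nonneg (fun i _ => (hcc01 i).1)
  have hc1 : c ≤ 1 := Finset.prod_le_one (fun i _ => (hcc01 i).1) (fun i _ => (hcc01 i).2)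
  have hv : ∀ l < L, ∏ i, ∫ x, bar (G l i) x ∂μ = c := by
    intro l _
    apply Finset.prod_congr rfl
    intro i _
    have h1 : (fun x => bar (G l i) x) = fun x => bar (gA (N := N) (A i)) (T^[l] x) := by
      funext x
      exact bar_reindex (gA (A i)) T φ l x
    show ∫ x, (fun x => bar (G l i) x) x ∂μ = _
    rw [h1]
    have h3 := (hT.iterate l).map_eq
    show _ = ∫ x, bar (gA (N := N) (A i)) x ∂μ
    conv_rhs => rw [← h3]
    rw [integral_map (T.measurable.iterate l).aemeasurable (bar_meas _ (gA_meas (A i) (hA i))).aestronglyMeasurable]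
  set ε1 : ℝ := ε ^ 2 / (2 * (N : ℝ) ^ (k + 1)) with hε1
  have hγ : ∑ l ∈ Finset.range L, ∑ l' ∈ Finset.range L,
      (∏ i, ∫ x, bar (fun x a => G l i x a * G l' i x a) x ∂μ - c ^ 2) ≤ ε1 * (L : ℝ) ^ 2 := by
    have h2 := (abs_le.1 hpair).2
    rw [Finset.prod_pow] at h2
    exact h2
  -- mixing constants
  set τ : ℝ := ε1 / 3 with hτ
  have hε1pos : 0 < ε1 := by rw [hε1]; positivity
  have hτpos : 0 < τ := by rw [hτ]; positivity
  have hmixev : ∀ l l' : ℕ, ∀ b : Fin (k + 1) → Fin N, ∀ᶠ n : Fin k → ℕ in atTop,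
      |∫ x, ∏ i, (G l i ((pw s T : X → X)^[ps n i] x) (b i) * G l' i ((pw s T : X → X)^[ps n i] x) (b i)) ∂μ -
        ∏ i, ∫ x, G l i x (b i) * G l' i x (b i) ∂μ| ≤ τ := by
    intro l l' b
    have h4 := mix_fun μ T s k hmix (fun i => {x | G l i x (b i) * G l' i x (b i) = 1})
      (fun i => ((hGm l i (b i)).mul (hGm l' i (b i))) (measurableSet_singleton 1))
      (fun i x => G l i x (b i) * G l' i x (b i)) (fun i x => by
        by_cases h : G l i x (b i) * G l' i x (b i) = 1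
        · rw [indicator_of_mem (show x ∈ {x | G l i x (b i) * G l' i x (b i) = 1} from h), h]
        · rw [indicator_of_notMem (show x ∉ {x | G l i x (b i) * G l' i x (b i) = 1} from h)]
          rcases hG01 l i x (b i) with h1 | h1
          · rw [h1, zero_mul]
          · rcases hG01 l' i x (b i) with h2 | h2
            · rw [h2, mul_zero]
            · exfalso
              apply h
              rw [h1, h2, mul_one])
    have h5 := Metric.tendsto_nhds.1 h4 τ hτpos
    filter_upwards [h5] with n hn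
    rw [Real.dist_eq] at hn
    exact hn.le
  have hev : ∀ᶠ n : Fin k → ℕ in atTop, ∀ l : Fin L, ∀ l' : Fin L, ∀ b : Fin (k + 1) → Fin N,
      |∫ x, ∏ i, (G l i ((pw s T : X → X)^[ps n i] x) (b i) * G l' i ((pw s T : X → X)^[ps n i] x) (b i)) ∂μ -
        ∏ i, ∫ x, G l i x (b i) * G l' i x (b i) ∂μ| ≤ τ := by
    rw [eventually_all]
    intro l
    rw [eventually_all]
    intro l'
    rw [eventually_all]
    intro b
    exact hmixev l l' b
  obtain ⟨n0, hn0⟩ := eventually_atTop.1 hev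
  set δ : ℝ := ε / ((k + 1 : ℝ) * L) with hδ
  have hδpos : 0 < δ := by rw [hδ]; positivity
  refine ⟨δ, hδpos, n0, fun S hS hSe hclose n hn => ?_⟩
  have hsym : ∀ (l : ℕ) (i : Fin (k + 1)) (x : X) (a : Fin N), G l i x a * G l i x a = G l i x a := by
    intro l i x a
    rcases hG01 l i x a with h | h <;> rw [h] <;> norm_num
  let R : Fin (k + 1) → X → X := fun i => (pw s T : X → X)^[ps n i]
  have hR : ∀ i, Measurable (R i) := fun i => (pw s T).measurable.iterate _
  let RR : Fin (k + 1) → X × ℝ → X × ℝ := fun i => (pw s S : X × ℝ → X × ℝ)^[ps n i]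
  have hRR : ∀ i, MeasurePreserving (RR i) m m := fun i => (pw_mp s S m hS).iterate _
  have hmix2 : ∀ l < L, ∀ l' < L, ∀ b : Fin (k + 1) → Fin N,
      |∫ x, ∏ i, (G l i (R i x) (b i) * G l' i (R i x) (b i)) ∂μ -
        ∏ i, ∫ x, G l i x (b i) * G l' i x (b i) ∂μ| ≤ τ := fun l hl l' hl' b => hn0 n hn ⟨l, hl⟩ ⟨l', hl'⟩ b
  have hmix1 : ∀ l < L, ∀ b : Fin (k + 1) → Fin N,
      |∫ x, ∏ i, G l i (R i x) (b i) ∂μ - ∏ i, ∫ x, G l i x (b i) ∂μ| ≤ τ := by
    intro l hl b
    have h6 := hmix2 l hl l hl b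
    simp_rw [hsym] at h6
    exact h6
  have hfirst := core_first μ m Prod.fst measurePreserving_fst L G hGm hG0 hG1 R hR c τ ε1 hc0 hc1 hv hγ hmix2 hmix1
    (fun i z => flf N (RR i z).2) (fun i => (flf_meas N).comp (measurable_snd.comp (hRR i).measurable)) ε hε.le (by
      rw [Fintype.card_fin]
      have : ε1 + 3 * τ = 2 * ε1 := by rw [hτ]; ring
      rw [this, hε1]
      apply le_of_eq
      field_simp)
  -- the integrals are measures of intersections
  have hE : ∀ i, MeasurableSet (LS N (A i)) := fun i => LS_meas N (A i) (hA i)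
  have hy : ∀ᵐ z ∂m, z.2 ∈ Ico (0:ℝ) 1 :=
    (measurePreserving_snd (μ := μ) (ν := lam)).quasiMeasurePreserving.ae ae_Ico
  have hstep5 : ∀ l, ∫ z, ∏ i, G l i (R i z.1) (flf N (RR i z).2) ∂m =
      m.real (⋂ i, RR i ⁻¹' ((SK T φ hφ)^[l] ⁻¹' LS N (A i))) := by
    intro l
    have hmm : MeasurableSet (⋂ i, RR i ⁻¹' ((SK T φ hφ)^[l] ⁻¹' LS N (A i))) :=
      MeasurableSet.iInter (fun i => (hRR i).measurable (((SK T φ hφ).measurable.iterate l) (hE i)))
    rw [← integral_indicator_one hmm]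
    apply integral_congr_ae
    have h7 : ∀ᵐ z ∂m, ∀ i, (RR i z).1 = R i z.1 := by
      rw [ae_all_iff]
      intro i
      exact iter_fst m (pw s S) (pw s T) (pw_mp s S m hS) (pw_fst m s S T hS hSe) (ps n i)
    have h8 : ∀ᵐ z ∂m, ∀ i, (RR i z).2 ∈ Ico (0:ℝ) 1 := by
      rw [ae_all_iff]
      intro i
      exact (hRR i).quasiMeasurePreserving.ae hy
    filter_upwards [h7, h8] with z h7 h8
    have key : ∀ i, G l i (R i z.1) (flf N (RR i z).2) =
        if RR i z ∈ (SK T φ hφ)^[l] ⁻¹' LS N (A i) then 1 else 0 := by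
      intro i
      have h9 : RR i z ∈ (SK T φ hφ)^[l] ⁻¹' LS N (A i) ↔
          (T^[l] (R i z.1), ((coc T φ l (R i z.1) (flf N (RR i z).2) : Fin N) : ℕ)) ∈ A i := by
        rw [mem_preimage, SK_iter, ← h7 i]
        show ((T^[l] (RR i z).1), fl N (rzf N (coc T φ l (RR i z).1) (RR i z).2)) ∈ A i ↔ _
        obtain ⟨h10, h11⟩ := rzf_mem N (coc T φ l (RR i z).1) (RR i z).2 (h8 i)
        rw [← flf_val N _ h10, h11]
      show gA (A i) (T^[l] (R i z.1)) (coc T φ l (R i z.1) (flf N (RR i z).2)) = _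
      unfold gA
      simp only [h9]
    by_cases h : z ∈ ⋂ i, RR i ⁻¹' ((SK T φ hφ)^[l] ⁻¹' LS N (A i))
    · rw [indicator_of_mem h]
      simp only [mem_iInter, mem_preimage] at h
      rw [Finset.prod_eq_one]
      · rfl
      · intro i _
        rw [key i]
        exact if_pos (h i)
    · rw [indicator_of_notMem h]
      simp only [mem_iInter, not_forall] at h
      obtain ⟨i, hi⟩ := h
      apply Finset.prod_eq_zero (Finset.mem_univ i)
      rw [key i]
      exact if_neg hi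
  have hstep6 : ∀ l < L, |m.real (⋂ i, RR i ⁻¹' ((S : X × ℝ → X × ℝ)^[l] ⁻¹' LS N (A i))) -
      m.real (⋂ i, RR i ⁻¹' ((SK T φ hφ)^[l] ⁻¹' LS N (A i)))| ≤ ε := by
    intro l hl
    have h12 : ∀ i, m.real ((RR i ⁻¹' ((S : X × ℝ → X × ℝ)^[l] ⁻¹' LS N (A i))) ∆
        (RR i ⁻¹' ((SK T φ hφ)^[l] ⁻¹' LS N (A i)))) ≤ L * δ := by
      intro i
      rw [← preimage_symmDiff, mp_real' (hRR i)]
      · have h13 := iter_diff m S (SK T φ hφ) hS (SK_mp μ T hT φ hφ) (LS N (A i)) (hE i) δ L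
          (fun j hj => hclose j hj i) l hl.le
        refine le_trans h13 ?_
        gcongr
      · exact (((S.measurable.iterate l) (hE i))).symmDiff (((SK T φ hφ).measurable.iterate l) (hE i))
    refine le_trans (real_inter_diff m _ _
      (fun i => (hRR i).measurable ((S.measurable.iterate l) (hE i)))
      (fun i => (hRR i).measurable (((SK T φ hφ).measurable.iterate l) (hE i)))) ?_
    refine le_trans (Finset.sum_le_sum (fun i _ => h12 i)) ?_
    rw [Finset.sum_const, Finset.card_univ, Fintype.card_fin, nsmul_eq_mul, hδ]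
    apply le_of_eq
    push_cast
    field_simp
  have hstep7 : ∀ l, m.real (⋂ i, RR i ⁻¹' ((S : X × ℝ → X × ℝ)^[l] ⁻¹' LS N (A i))) =
      m.real (⋂ i, RR i ⁻¹' LS N (A i)) := by
    intro l
    have h14 : (⋂ i, RR i ⁻¹' ((S : X × ℝ → X × ℝ)^[l] ⁻¹' LS N (A i))) =
        (S : X × ℝ → X × ℝ)^[l] ⁻¹' (⋂ i, RR i ⁻¹' LS N (A i)) := by
      rw [preimage_iInter]
      congr 1
      funext i
      rw [← preimage_comp, ← preimage_comp]
      congr 1
      have h15 : Function.Commute (RR i) ((S : X × ℝ → X × ℝ)^[l]) :=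
        (pw_comm s S).iterate_iterate (ps n i) l
      exact h15.comp_eq.symm
    rw [h14, mp_real' (hS.iterate l)]
    exact MeasurableSet.iInter (fun i => (hRR i).measurable (hE i))
  have hprod : ∏ j, m.real (LS N (A j)) = c := by
    rw [hc]
    apply Finset.prod_congr rfl
    intro j _
    rw [hm, LS_real μ (A j) (hA j)]
  rw [hprod]
  set V := m.real (⋂ i, RR i ⁻¹' LS N (A i)) with hV
  have h16 : ∀ l < L, |V - ∫ z, ∏ i, G l i (R i z.1) (flf N (RR i z).2) ∂m| ≤ ε := by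
    intro l hl
    rw [hstep5, ← hstep7 l]
    exact hstep6 l hl
  have h17 : |∑ l ∈ Finset.range L, (V - ∫ z, ∏ i, G l i (R i z.1) (flf N (RR i z).2) ∂m)| ≤ ε * L := by
    refine le_trans (Finset.abs_sum_le_sum_abs _ _) ?_
    refine le_trans (Finset.sum_le_sum (fun l hl => h16 l (Finset.mem_range.1 hl))) ?_
    rw [Finset.sum_const, Finset.card_range, nsmul_eq_mul, mul_comm]
  have h18 : (L : ℝ) * (V - c) = ∑ l ∈ Finset.range L, (V - ∫ z, ∏ i, G l i (R i z.1) (flf N (RR i z).2) ∂m) +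
      ∑ l ∈ Finset.range L, (∫ z, ∏ i, G l i (R i z.1) (flf N (RR i z).2) ∂m - c) := by
    rw [← Finset.sum_add_distrib]
    have : ∀ l ∈ Finset.range L, V - ∫ z, ∏ i, G l i (R i z.1) (flf N (RR i z).2) ∂m +
        (∫ z, ∏ i, G l i (R i z.1) (flf N (RR i z).2) ∂m - c) = V - c := fun l _ => by ring
    rw [Finset.sum_congr rfl this, Finset.sum_const, Finset.card_range, nsmul_eq_mul]
  have h19 : (L : ℝ) * |V - c| ≤ (2 * ε) * L := by
    have : (L : ℝ) * |V - c| = |(L : ℝ) * (V - c)| := by rw [abs_mul, abs_of_pos hLr]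
    rw [this, h18]
    refine le_trans (abs_add_le _ _) ?_
    linarith
  have h20 : |V - c| ≤ 2 * ε := by
    by_contra hcon
    push Not at hcon
    nlinarith
  exact h20

end Pool.H359R3.MX
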