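import Mathlib
import Pool.Agent.H359R3.MX6

set_option autoImplicit false
set_option linter.unusedSectionVars false
set_option linter.unusedVariables false

/-!
Consequences of mixing on a nonatomic countably separated space.
-/

namespace Pool.H359R3.MX

open MeasureTheory Set Filter Topology
open scoped ENNReal symmDiff
open Pool.H359R3 Pool.H359R3.WH

variable {X : Type*} [MeasurableSpace X]
variable (μ : Measure X) [IsProbabilityMeasure μ]

theorem ps_zero {k : ℕ} (n : Fin k → ℕ) : ps n 0 = 0 := by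
  unfold ps
  apply Finset.sum_eq_zero
  intro i _
  rw [if_neg]
  simp

theorem ps_one {k : ℕ} (n : Fin (k + 1) → ℕ) : ps n 1 = n 0 := by
  unfold ps
  rw [Finset.sum_eq_single 0]
  · rw [if_pos]
    simp
  · intro b _ hb
    rw [if_neg]
    intro h
    apply hb
    apply Fin.ext
    have : ((1 : Fin (k + 1 + 1)) : ℕ) = 1 := by simp
    rw [this] at h
    simp only [Fin.val_zero]
    omega
  · intro h
    exact absurd (Finset.mem_univ _) h

theorem mix_one (T : X ≃ᵐ X) (hT : MeasurePreserving T μ μ) (s : Bool) (k : ℕ) (hk : 1 ≤ k) (hmix : MixS s k μ T)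
    (A B : Set X) (hA : MeasurableSet A) (hB : MeasurableSet B) :
    Tendsto (fun d : ℕ => μ.real (A ∩ (T : X → X)^[d] ⁻¹' B)) atTop (𝓝 (μ.real A * μ.real B)) := by
  obtain ⟨k, rfl⟩ : ∃ k', k = k' + 1 := ⟨k - 1, by omega⟩
  have gen : ∀ A B : Set X, MeasurableSet A → MeasurableSet B →
      Tendsto (fun d : ℕ => μ.real (A ∩ (pw s T : X → X)^[d] ⁻¹' B)) atTop (𝓝 (μ.real A * μ.real B)) := by
    intro A B hA hB
    let C : Fin (k + 1 + 1) → Set X := fun j => if j = 0 then A else if j = 1 then B else univ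
    have hC : ∀ j, MeasurableSet (C j) := by
      intro j
      simp only [C]
      split_ifs
      · exact hA
      · exact hB
      · exact MeasurableSet.univ
    have h1 := hmix C hC
    have h2 : Tendsto (fun d : ℕ => (fun _ : Fin (k + 1) => d)) atTop atTop := by
      rw [tendsto_atTop]
      intro b
      filter_upwards [eventually_ge_atTop (∑ i, b i)] with d hd i
      exact le_trans (Finset.single_le_sum (fun i _ => Nat.zero_le _) (Finset.mem_univ i)) hd
    have h3 := h1.comp h2
    have h01 : (1 : Fin (k + 1 + 1)) ≠ 0 := by simp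
    have h4 : ∏ j, μ.real (C j) = μ.real A * μ.real B := by
      rw [Fin.prod_univ_succ, Fin.prod_univ_succ]
      have e0 : C 0 = A := by simp [C]
      have e1 : C (Fin.succ 0) = B := by
        simp only [C]
        rw [if_neg (by simp), if_pos (by rfl)]
      have e2 : ∀ i : Fin k, C (Fin.succ (Fin.succ i)) = univ := by
        intro i
        simp only [C]
        rw [if_neg (by simp), if_neg]
        intro h
        have := congrArg Fin.val h
        simp at this
      rw [e0, e1, Finset.prod_eq_one]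
      · ring
      · intro i _
        rw [e2 i]
        simp
    rw [h4] at h3
    refine h3.congr (fun d => ?_)
    show μ.real (⋂ j, ((pw s T : X → X)^[ps (fun _ : Fin (k + 1) => d) j]) ⁻¹' C j) = _
    congr 1
    ext x
    simp only [mem_iInter, mem_preimage, mem_inter_iff]
    constructor
    · intro h
      have e0 := h 0
      have e1 := h 1
      rw [ps_zero] at e0
      rw [ps_one] at e1
      have c0 : C 0 = A := by simp [C]
      have c1 : C 1 = B := by simp [C]
      rw [c0] at e0
      rw [c1] at e1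
      exact ⟨e0, e1⟩
    · rintro ⟨e0, e1⟩ j
      by_cases hj0 : j = 0
      · subst hj0
        rw [ps_zero]
        have c0 : C 0 = A := by simp [C]
        rw [c0]
        exact e0
      · by_cases hj1 : j = 1
        · subst hj1
          rw [ps_one]
          have c1 : C 1 = B := by simp [C]
          rw [c1]
          exact e1
        · simp only [C]
          rw [if_neg hj0, if_neg hj1]
          exact mem_univ _
  cases s
  · have h1 := gen B A hB hA
    rw [mul_comm]
    refine h1.congr (fun d => ?_)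
    have h2 : (T : X → X)^[d] ⁻¹' (B ∩ (pw false T : X → X)^[d] ⁻¹' A) = A ∩ (T : X → X)^[d] ⁻¹' B := by
      ext x
      simp only [mem_preimage, mem_inter_iff]
      have h3 : (pw false T : X → X)^[d] ((T : X → X)^[d] x) = x := by
        have h4 : Function.LeftInverse (pw false T : X → X) (T : X → X) := fun y => T.symm_apply_apply y
        exact (h4.iterate d) x
      rw [h3]
      exact and_comm
    rw [← h2, mp_real' (hT.iterate d)]
    exact hB.inter (((pw false T).measurable.iterate d) hA)
  · exact gen A B hA hB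

section

variable (T : X → X) (hT : MeasurePreserving T μ μ)
  (hmix : ∀ A B : Set X, MeasurableSet A → MeasurableSet B →
    Tendsto (fun d : ℕ => μ.real (A ∩ T^[d] ⁻¹' B)) atTop (𝓝 (μ.real A * μ.real B)))

include hT hmix

theorem hit_of_mix (A : Set X) (hA : MeasurableSet A) (hA0 : 0 < μ.real A) (η : ℝ) (hη : 0 < η) :
    ∃ l0 : ℕ, ∀ d ≥ l0, μ.real {x | ∀ j < d, T^[j] x ∉ A} ≤ η := by
  let E : ℕ → Set X := fun d => {x | ∀ j < d, T^[j] x ∉ A}
  have hEm : ∀ d, MeasurableSet (E d) := by
    intro d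
    have : E d = ⋂ j ∈ Finset.range d, (T^[j] ⁻¹' A)ᶜ := by
      ext x; simp [E]
    rw [this]
    exact Finset.measurableSet_biInter _ (fun j _ => ((hT.measurable.iterate j) hA).compl)
  have hanti : Antitone E := fun a b hab x hx j hj => hx j (lt_of_lt_of_le hj hab)
  have hlim : Tendsto (fun d => μ (E d)) atTop (𝓝 (μ (⋂ d, E d))) :=
    tendsto_measure_iInter_atTop (fun d => (hEm d).nullMeasurableSet) hanti ⟨0, measure_ne_top _ _⟩
  have hIm : MeasurableSet (⋂ d, E d) := MeasurableSet.iInter hEm
  have h1 := hmix (⋂ d, E d) A hIm hA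
  have h2 : ∀ d, (⋂ d, E d) ∩ T^[d] ⁻¹' A = ∅ := by
    intro d
    ext x
    simp only [mem_inter_iff, mem_iInter, mem_preimage, mem_empty_iff_false, iff_false, not_and]
    intro h3
    exact h3 (d + 1) d (Nat.lt_succ_self d)
  simp_rw [h2] at h1
  rw [measureReal_empty] at h1
  have h3 := tendsto_nhds_unique h1 tendsto_const_nhds
  have h4 : μ.real (⋂ d, E d) = 0 := by
    rcases mul_eq_zero.1 h3 with h | h
    · exact h
    · exact absurd h hA0.ne'
  have hlim' : Tendsto (fun d => μ.real (E d)) atTop (𝓝 0) := by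
    have := (ENNReal.tendsto_toReal (measure_ne_top μ (⋂ d, E d))).comp hlim
    rw [← measureReal_def, h4] at this
    exact this
  obtain ⟨l0, hl0⟩ := (hlim'.eventually (gt_mem_nhds hη)).exists_forall_of_atTop
  exact ⟨l0, fun d hd => (hl0 d hd).le⟩

variable [MeasurableSpace.CountablySeparated X] [NullSingletonClass μ]

omit hT hmix in
theorem pair_cell (f : X → ℕ → Bool) (hf : Measurable f) (hfi : Function.Injective f) :
    Tendsto (fun r : ℕ => (μ.prod μ).real {p : X × X | (fun i : Fin r => f p.1 i) = (fun i : Fin r => f p.2 i)}) atTop (𝓝 0) := by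
  let E : ℕ → Set (X × X) := fun r => {p : X × X | (fun i : Fin r => f p.1 i) = (fun i : Fin r => f p.2 i)}
  have hq : ∀ r : ℕ, Measurable (fun x => (fun i : Fin r => f x i)) := fun r =>
    measurable_pi_lambda _ (fun i => (measurable_pi_apply (i : ℕ)).comp hf)
  have hEm : ∀ r, MeasurableSet (E r) := fun r =>
    measurableSet_eq_fun ((hq r).comp measurable_fst) ((hq r).comp measurable_snd)
  have hanti : Antitone E := by
    intro a b hab p hp
    have hp' : (fun i : Fin b => f p.1 i) = (fun i : Fin b => f p.2 i) := hp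
    show (fun i : Fin a => f p.1 i) = (fun i : Fin a => f p.2 i)
    funext i
    exact congrFun hp' ⟨i, lt_of_lt_of_le i.2 hab⟩
  have hlim : Tendsto (fun r => (μ.prod μ) (E r)) atTop (𝓝 ((μ.prod μ) (⋂ r, E r))) :=
    tendsto_measure_iInter_atTop (fun d => (hEm d).nullMeasurableSet) hanti ⟨0, measure_ne_top _ _⟩
  have hI : (⋂ r, E r) = {p : X × X | p.1 = p.2} := by
    ext p
    simp only [mem_iInter, mem_ofPred_eq]
    constructor
    · intro h
      apply hfi
      funext i
      exact congrFun (show (fun j : Fin (i + 1) => f p.1 j) = (fun j : Fin (i + 1) => f p.2 j) from h (i + 1)) ⟨i, Nat.lt_succ_self i⟩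
    · intro h r
      show (fun i : Fin r => f p.1 i) = (fun i : Fin r => f p.2 i)
      rw [h]
  have h0 : (μ.prod μ) (⋂ r, E r) = 0 := by
    have hIm : MeasurableSet (⋂ r, E r) := MeasurableSet.iInter hEm
    rw [Measure.prod_apply hIm]
    have : ∀ x, μ (Prod.mk x ⁻¹' (⋂ r, E r)) = 0 := by
      intro x
      rw [hI]
      have : Prod.mk x ⁻¹' {p : X × X | p.1 = p.2} = {x} := by
        ext y
        simp only [mem_preimage, mem_ofPred_eq, mem_singleton_iff]
        exact eq_comm
      rw [this]
      exact measure_singleton x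
    simp [this]
  rw [h0] at hlim
  have := (ENNReal.tendsto_toReal (ENNReal.zero_ne_top)).comp hlim
  rw [ENNReal.toReal_zero] at this
  exact this

omit hT hmix in
theorem cell_total (r : ℕ) (q : X → Fin r → Bool) (hq : Measurable q) : ∑ c, μ.real (q ⁻¹' {c}) = 1 := by
  classical
  have h1 : μ.real (⋃ c ∈ (Finset.univ : Finset (Fin r → Bool)), q ⁻¹' {c}) = ∑ c, μ.real (q ⁻¹' {c}) := by
    refine measureReal_biUnion_finset ?_ ?_ (fun _ _ => measure_ne_top _ _)
    · intro a _ b _ hab
      rw [Function.onFun, Set.disjoint_left]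
      intro x hx hx'
      exact hab (hx.symm.trans hx')
    · intro c _
      exact hq (measurableSet_singleton c)
  rw [← h1]
  have : (⋃ c ∈ (Finset.univ : Finset (Fin r → Bool)), q ⁻¹' {c}) = univ := by
    ext x
    simp
  rw [this]
  simp

omit hT hmix in
theorem cell_sq (r : ℕ) (q : X → Fin r → Bool) (hq : Measurable q) (c : Fin r → Bool) :
    μ.real (q ⁻¹' {c}) ^ 2 ≤ (μ.prod μ).real {p : X × X | q p.1 = q p.2} := by
  have h1 : (μ.prod μ).real ((q ⁻¹' {c}) ×ˢ (q ⁻¹' {c})) = μ.real (q ⁻¹' {c}) ^ 2 := by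
    rw [measureReal_prod_prod, sq]
  rw [← h1]
  refine measureReal_mono ?_ (measure_ne_top _ _)
  rintro ⟨a, b⟩ ⟨ha, hb⟩
  have ha' : q a = c := ha
  have hb' : q b = c := hb
  show q a = q b
  rw [ha', hb']

theorem fix_null (f : X → ℕ → Bool) (hf : Measurable f) (hfi : Function.Injective f) (e : ℕ) (he : 1 ≤ e) :
    μ.real {x | f x = f (T^[e] x)} = 0 := by
  classical
  set F : Set X := {x | f x = f (T^[e] x)} with hF
  have hFm : MeasurableSet F := measurableSet_eq_fun hf (hf.comp (hT.measurable.iterate e))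
  have hFix : ∀ x ∈ F, T^[e] x = x := fun x hx => (hfi hx).symm
  have hFixl : ∀ x ∈ F, ∀ l, T^[e * l] x = x := by
    intro x hx l
    rw [Function.iterate_mul]
    exact Function.iterate_fixed (hFix x hx) l
  have h01 : ∀ B : Set X, MeasurableSet B → B ⊆ F → μ.real B = 0 ∨ μ.real B = 1 := by
    intro B hB hBF
    have h1 := hmix B B hB hB
    have h2 : Tendsto (fun l : ℕ => e * l) atTop atTop := Filter.tendsto_id.const_mul_atTop' (by omega)
    have h3 := h1.comp h2
    have h4 : ∀ l : ℕ, B ∩ T^[e * l] ⁻¹' B = B := by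
      intro l
      ext x
      simp only [mem_inter_iff, mem_preimage]
      constructor
      · exact fun h => h.1
      · intro h
        refine ⟨h, ?_⟩
        rw [hFixl x (hBF h) l]
        exact h
    have h5 : Tendsto (fun l : ℕ => μ.real B) atTop (𝓝 (μ.real B * μ.real B)) := by
      refine h3.congr (fun l => ?_)
      show μ.real (B ∩ T^[e * l] ⁻¹' B) = μ.real B
      rw [h4 l]
    have h6 := tendsto_nhds_unique h5 tendsto_const_nhds
    have h7 : μ.real B * (μ.real B - 1) = 0 := by linarith
    rcases mul_eq_zero.1 h7 with h | h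
    · exact Or.inl h
    · exact Or.inr (by linarith)
  rcases h01 F hFm subset_rfl with h | h
  · exact h
  exfalso
  have hpc := pair_cell μ f hf hfi
  obtain ⟨r, hr⟩ := (hpc.eventually (gt_mem_nhds (show (0:ℝ) < 1 by norm_num))).exists
  set q : X → Fin r → Bool := fun x => (fun i : Fin r => f x i) with hq
  have hqm : Measurable q := measurable_pi_lambda _ (fun i => (measurable_pi_apply (i : ℕ)).comp hf)
  have htot := cell_total μ r q hqm
  have hcell : ∀ c, μ.real (q ⁻¹' {c}) = 0 := by
    intro c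
    have hcm : MeasurableSet (q ⁻¹' {c}) := hqm (measurableSet_singleton c)
    have h8 : μ.real (q ⁻¹' {c}) = μ.real (q ⁻¹' {c} ∩ F) := by
      have hFc : μ.real Fᶜ = 0 := by
        rw [probReal_compl_eq_one_sub hFm, h]
        ring
      have h9 : μ.real (q ⁻¹' {c}) ≤ μ.real (q ⁻¹' {c} ∩ F) + μ.real Fᶜ := by
        refine le_trans (measureReal_mono (fun x hx => ?_)) (measureReal_union_le _ _)
        by_cases hxF : x ∈ F
        · exact Or.inl ⟨hx, hxF⟩
        · exact Or.inr hxF
      have h10 : μ.real (q ⁻¹' {c} ∩ F) ≤ μ.real (q ⁻¹' {c}) := measureReal_mono inter_subset_left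
      linarith
    rcases h01 (q ⁻¹' {c} ∩ F) (hcm.inter hFm) inter_subset_right with h11 | h11
    · rw [h8, h11]
    · exfalso
      have h12 := cell_sq μ r q hqm c
      rw [h8, h11] at h12
      have h13 : (μ.prod μ).real {p : X × X | q p.1 = q p.2} < 1 := hr
      linarith
  rw [Finset.sum_eq_zero (fun c _ => hcell c)] at htot
  norm_num at htot

theorem cell_of_mix (L : ℕ) (κ : ℝ) (hκ : 0 < κ) :
    ∃ (r : ℕ) (q : X → Fin r → Bool), Measurable q ∧
      (∀ e, 1 ≤ e → e < L → μ.real {x | q x = q (T^[e] x)} ≤ κ) ∧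
      (μ.prod μ).real {p : X × X | q p.1 = q p.2} ≤ κ := by
  obtain ⟨f, hf, hfi⟩ := MeasurableSpace.measurable_injection_nat_bool_of_countablySeparated X
  have hq : ∀ r : ℕ, Measurable (fun x => (fun i : Fin r => f x i)) := fun r =>
    measurable_pi_lambda _ (fun i => (measurable_pi_apply (i : ℕ)).comp hf)
  have h1 : ∀ᶠ r : ℕ in atTop, (μ.prod μ).real {p : X × X | (fun i : Fin r => f p.1 i) = (fun i : Fin r => f p.2 i)} < κ :=
    (pair_cell μ f hf hfi).eventually (gt_mem_nhds hκ)
  have h2 : ∀ e, 1 ≤ e → ∀ᶠ r : ℕ in atTop,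
      μ.real {x | (fun i : Fin r => f x i) = (fun i : Fin r => f (T^[e] x) i)} < κ := by
    intro e he
    let E : ℕ → Set X := fun r => {x | (fun i : Fin r => f x i) = (fun i : Fin r => f (T^[e] x) i)}
    have hEm : ∀ r, MeasurableSet (E r) := fun r =>
      measurableSet_eq_fun (hq r) ((hq r).comp (hT.measurable.iterate e))
    have hanti : Antitone E := by
      intro a b hab x hx
      have hp' : (fun i : Fin b => f x i) = (fun i : Fin b => f (T^[e] x) i) := hx
      show (fun i : Fin a => f x i) = (fun i : Fin a => f (T^[e] x) i)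
      funext i
      exact congrFun hp' ⟨i, lt_of_lt_of_le i.2 hab⟩
    have hlim : Tendsto (fun r => μ (E r)) atTop (𝓝 (μ (⋂ r, E r))) :=
      tendsto_measure_iInter_atTop (fun d => (hEm d).nullMeasurableSet) hanti ⟨0, measure_ne_top _ _⟩
    have hI : (⋂ r, E r) = {x | f x = f (T^[e] x)} := by
      ext x
      simp only [mem_iInter, mem_ofPred_eq]
      constructor
      · intro h
        funext i
        exact congrFun (show (fun j : Fin (i + 1) => f x j) = (fun j : Fin (i + 1) => f (T^[e] x) j) from h (i + 1)) ⟨i, Nat.lt_succ_self i⟩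
      · intro h r
        show (fun i : Fin r => f x i) = (fun i : Fin r => f (T^[e] x) i)
        rw [← h]
    have h3 := (ENNReal.tendsto_toReal (measure_ne_top μ (⋂ r, E r))).comp hlim
    rw [← measureReal_def, hI, fix_null μ T hT hmix f hf hfi e he] at h3
    exact h3.eventually (gt_mem_nhds hκ)
  have h4 : ∀ᶠ r : ℕ in atTop, ∀ e ∈ Finset.Ico 1 L,
      μ.real {x | (fun i : Fin r => f x i) = (fun i : Fin r => f (T^[e] x) i)} < κ := by
    rw [Filter.eventually_all_finset]
    intro e he
    rw [Finset.mem_Ico] at he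
    exact h2 e he.1
  obtain ⟨r, hr1, hr2⟩ := (h1.and h4).exists
  exact ⟨r, fun x => (fun i : Fin r => f x i), hq r, fun e he1 he2 => (hr2 e (Finset.mem_Ico.2 ⟨he1, he2⟩)).le, hr1.le⟩

omit hT hmix in
theorem small_set (δ : ℝ) (hδ : 0 < δ) : ∃ A : Set X, MeasurableSet A ∧ 0 < μ.real A ∧ μ.real A ≤ δ := by
  obtain ⟨f, hf, hfi⟩ := MeasurableSpace.measurable_injection_nat_bool_of_countablySeparated X
  obtain ⟨r, hr⟩ := ((pair_cell μ f hf hfi).eventually (gt_mem_nhds (show 0 < δ ^ 2 by positivity))).exists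
  set q : X → Fin r → Bool := fun x => (fun i : Fin r => f x i) with hq
  have hqm : Measurable q := measurable_pi_lambda _ (fun i => (measurable_pi_apply (i : ℕ)).comp hf)
  have htot := cell_total μ r q hqm
  obtain ⟨c, hc⟩ : ∃ c, 0 < μ.real (q ⁻¹' {c}) := by
    by_contra hcon
    push Not at hcon
    have : ∑ c, μ.real (q ⁻¹' {c}) ≤ 0 := Finset.sum_nonpos (fun c _ => hcon c)
    linarith
  refine ⟨q ⁻¹' {c}, hqm (measurableSet_singleton c), hc, ?_⟩
  have h1 := cell_sq μ r q hqm c
  have h2 : (μ.prod μ).real {p : X × X | q p.1 = q p.2} < δ ^ 2 := hr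
  nlinarith

omit [MeasurableSpace.CountablySeparated X] [NullSingletonClass μ] in
theorem bar_mix {N : ℕ} [NeZero N] (A : Set (X × ℕ)) (hA : MeasurableSet A) :
    Tendsto (fun d : ℕ => ∫ x, bar (gA (N := N) A) (T^[d] x) * bar (gA (N := N) A) x ∂μ) atTop
      (𝓝 ((∫ x, bar (gA (N := N) A) x ∂μ) ^ 2)) := by
  classical
  have hN : (0 : ℝ) < N := by exact_mod_cast NeZero.pos N
  let B : Fin N → Set X := fun a => {x | (x, (a : ℕ)) ∈ A}
  have hB : ∀ a, MeasurableSet (B a) := fun a => (measurable_id.prodMk measurable_const) hA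
  have hg : ∀ a x, gA (N := N) A x a = (B a).indicator 1 x := by
    intro a x
    unfold gA
    by_cases h : (x, (a : ℕ)) ∈ A
    · rw [if_pos h, indicator_of_mem (show x ∈ B a from h)]; rfl
    · rw [if_neg h, indicator_of_notMem (show x ∉ B a from h)]
  have h1 : ∫ x, bar (gA (N := N) A) x ∂μ = (1 / (N : ℝ)) * ∑ a, μ.real (B a) := by
    unfold bar
    rw [integral_const_mul, integral_finsetSum]
    · congr 1
      apply Finset.sum_congr rfl
      intro a _
      simp_rw [hg a]
      exact integral_indicator_one (hB a)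
    · intro a _
      exact integrable_of_abs_le μ (gA_meas A hA a) 1 (fun x => by rw [abs_of_nonneg (gA_nonneg _ _ _)]; exact gA_le _ _ _)
  have h2 : ∀ d : ℕ, ∫ x, bar (gA (N := N) A) (T^[d] x) * bar (gA (N := N) A) x ∂μ =
      (1 / (N : ℝ)) ^ 2 * ∑ a, ∑ b, μ.real (B b ∩ T^[d] ⁻¹' B a) := by
    intro d
    have h3 : ∀ x, bar (gA (N := N) A) (T^[d] x) * bar (gA (N := N) A) x =
        (1 / (N : ℝ)) ^ 2 * ∑ a, ∑ b, (B b ∩ T^[d] ⁻¹' B a).indicator 1 x := by
      intro x
      unfold bar
      have : (1 / (N : ℝ) * ∑ a, gA (N := N) A (T^[d] x) a) * (1 / (N : ℝ) * ∑ a, gA (N := N) A x a) =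
          (1 / (N : ℝ)) ^ 2 * ((∑ a, gA (N := N) A (T^[d] x) a) * ∑ a, gA (N := N) A x a) := by ring
      rw [this, Finset.sum_mul_sum]
      congr 1
      apply Finset.sum_congr rfl
      intro a _
      apply Finset.sum_congr rfl
      intro b _
      rw [hg a, hg b]
      by_cases h4 : T^[d] x ∈ B a
      · by_cases h5 : x ∈ B b
        · rw [indicator_of_mem h4, indicator_of_mem h5, indicator_of_mem (show x ∈ B b ∩ T^[d] ⁻¹' B a from ⟨h5, h4⟩)]
          simp
        · rw [indicator_of_notMem h5, indicator_of_notMem (show x ∉ B b ∩ T^[d] ⁻¹' B a from fun h => h5 h.1), mul_zero]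
      · rw [indicator_of_notMem h4, indicator_of_notMem (show x ∉ B b ∩ T^[d] ⁻¹' B a from fun h => h4 h.2), zero_mul]
    simp_rw [h3]
    have hm : ∀ a b, MeasurableSet (B b ∩ T^[d] ⁻¹' B a) := fun a b => (hB b).inter ((hT.measurable.iterate d) (hB a))
    have hi : ∀ a b, Integrable ((B b ∩ T^[d] ⁻¹' B a).indicator (1 : X → ℝ)) μ := fun a b =>
      (integrable_const (1:ℝ)).indicator (hm a b)
    rw [integral_const_mul, integral_finsetSum _ (fun a _ => integrable_finsetSum _ (fun b _ => hi a b))]
    congr 1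
    apply Finset.sum_congr rfl
    intro a _
    rw [integral_finsetSum _ (fun b _ => hi a b)]
    apply Finset.sum_congr rfl
    intro b _
    exact integral_indicator_one (hm a b)
  have h6 : Tendsto (fun d : ℕ => (1 / (N : ℝ)) ^ 2 * ∑ a, ∑ b, μ.real (B b ∩ T^[d] ⁻¹' B a)) atTop
      (𝓝 ((1 / (N : ℝ)) ^ 2 * ∑ a, ∑ b, μ.real (B b) * μ.real (B a))) := by
    apply Tendsto.const_mul
    apply tendsto_finsetSum
    intro a _
    apply tendsto_finsetSum
    intro b _
    exact hmix (B b) (B a) (hB b) (hB a)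
  have h7 : (∫ x, bar (gA (N := N) A) x ∂μ) ^ 2 = (1 / (N : ℝ)) ^ 2 * ∑ a, ∑ b, μ.real (B b) * μ.real (B a) := by
    rw [h1, mul_pow, sq (∑ a, μ.real (B a)), Finset.sum_mul_sum]
    congr 1
    apply Finset.sum_congr rfl
    intro a _
    apply Finset.sum_congr rfl
    intro b _
    ring
  rw [h7]
  simp_rw [h2]
  exact h6

end

end Pool.H359R3.MX
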