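import Mathlib
import Pool.Agent.H359R3.MX7

set_option autoImplicit false
set_option linter.unusedSectionVars false
set_option linter.unusedVariables false

/-!
Interval permutations approximate arbitrary measure preserving maps.
-/

namespace Pool.H359R3.WH

open MeasureTheory Set Filter Topology
open scoped ENNReal symmDiff
open Pool.H359R3

/-- interval permutations are dense -/
theorem perm_dense' (f : ℝ → ℝ) (hf : MeasurePreserving f lam lam) (H : ℕ) (hH : 0 < H) (θ : ℝ) (hθ : 0 < θ) :
    ∃ (n : ℕ) (_ : NeZero n), H ∣ n ∧ ∃ t : Equiv.Perm (Fin n), dl H (rzf n t) f < θ := by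
  classical
  have hHr : (0 : ℝ) < H := by exact_mod_cast hH
  obtain ⟨m, hm, hB⟩ := Apx_multi (fun a => {x | fl H (f x) = a})
    (fun a => (fl_meas H).comp hf.measurable (MeasurableSet.singleton a)) H H hH (θ / (4 * H)) (by positivity)
  choose! B hB using hB
  have hn0 : H * m ≠ 0 := by positivity
  have : NeZero (H * m) := ⟨hn0⟩
  have hnr : (0 : ℝ) < ((H * m : ℕ) : ℝ) := by exact_mod_cast Nat.pos_of_ne_zero hn0
  -- the approximating label function
  let α : Fin (H * m) → ℕ := fun k => if h : ∃ a < H, (k : ℕ) ∈ B a then h.choose else 0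
  have hα : lam.real {x | fl H (f x) ≠ α (flf (H * m) x)} ≤ θ / 4 := by
    calc lam.real {x | fl H (f x) ≠ α (flf (H * m) x)} ≤
        lam.real (⋃ a ∈ Finset.range H, ({x | fl H (f x) = a} ∆ {x | fl (H * m) x ∈ B a})) := by
          apply ENNReal.toReal_mono (measure_ne_top _ _)
          apply measure_mono_ae
          have ha := hf.quasiMeasurePreserving.ae ae_Ico
          filter_upwards [ae_Ico, ha] with x hx hTx hmem
          have hmem' : fl H (f x) ≠ α (flf (H * m) x) := hmem
          show x ∈ ⋃ a ∈ Finset.range H, _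
          by_contra hcon
          simp only [mem_iUnion, Finset.mem_range, exists_prop, not_exists, not_and] at hcon
          have key : ∀ a < H, (fl H (f x) = a ↔ fl (H * m) x ∈ B a) := by
            intro a ha
            have h1 := hcon a ha
            rw [Set.mem_symmDiff] at h1
            push Not at h1
            constructor
            · intro h2; exact h1.1 h2
            · intro h2; exact h1.2 h2
          have hlt := fl_lt H _ hTx hH
          have hex : ∃ a < H, ((flf (H * m) x : Fin (H * m)) : ℕ) ∈ B a := by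
            refine ⟨_, hlt, ?_⟩
            rw [flf_val _ x hx]
            exact (key _ hlt).1 rfl
          apply hmem'
          simp only [α, dif_pos hex]
          have h3 := hex.choose_spec
          generalize hex.choose = c at h3 ⊢
          rw [flf_val _ x hx] at h3
          exact (key _ h3.1).2 h3.2
      _ ≤ ∑ a ∈ Finset.range H, lam.real ({x | fl H (f x) = a} ∆ {x | fl (H * m) x ∈ B a}) :=
          measureReal_biUnion_finset_le _ _
      _ ≤ ∑ a ∈ Finset.range H, θ / (4 * H) := by
          apply Finset.sum_le_sum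
          intro a ha
          rw [Finset.mem_range] at ha
          exact (hB a ha).le
      _ = θ / 4 := by
          rw [Finset.sum_const, Finset.card_range, nsmul_eq_mul]
          field_simp
  -- the doubly stochastic matrix
  let M : Fin (H * m) → Fin (H * m) → ℝ := fun k l =>
    ((H * m : ℕ) : ℝ) * lam.real (Ik (H * m) k ∩ f ⁻¹' Ik (H * m) l)
  have hM0 : ∀ k l, 0 ≤ M k l := fun k l => mul_nonneg hnr.le measureReal_nonneg
  have hrow : ∀ k, ∑ l, M k l = 1 := by
    intro k
    have h1 := add_lab (H * m) (Ik (H * m) k) measurableSet_Ico f hf (fun _ => True)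
    rw [Finset.filter_true] at h1
    have h2 : Ik (H * m) k ∩ {x | True} = Ik (H * m) k := by simp
    rw [h2, lam_Ik] at h1
    simp only [M]
    rw [← Finset.mul_sum, h1]
    field_simp
  have hcol : ∀ l, ∑ k, M k l = 1 := by
    intro l
    have h1 := add_lab (H * m) (f ⁻¹' Ik (H * m) l) (hf.measurable measurableSet_Ico) id
      (MeasurePreserving.id _) (fun _ => True)
    rw [Finset.filter_true] at h1
    have h2 : (f ⁻¹' Ik (H * m) l) ∩ {x | True} = (f ⁻¹' Ik (H * m) l) := by simp
    rw [h2, mp_real hf (show MeasurableSet (Ik (H * m) l) from measurableSet_Ico), lam_Ik] at h1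
    simp only [M]
    rw [← Finset.mul_sum]
    have h3 : ∑ k : Fin (H * m), lam.real (Ik (H * m) k ∩ f ⁻¹' Ik (H * m) l) = 1 / ((H * m : ℕ) : ℝ) := by
      rw [← h1]
      apply Finset.sum_congr rfl
      intro k _
      rw [inter_comm]
      rfl
    rw [h3]
    field_simp
  obtain ⟨t, ht⟩ := round_ds M hM0 hrow hcol
    (fun k l => if (l : ℕ) / m = α k then 0 else 1 / ((H * m : ℕ) : ℝ))
  refine ⟨H * m, inferInstance, Dvd.intro _ rfl, t, ?_⟩
  have hrhs : ∑ k, ∑ l, M k l * (if (l : ℕ) / m = α k then 0 else 1 / ((H * m : ℕ) : ℝ)) ≤ θ / 4 := by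
    have h1 : ∀ k : Fin (H * m), ∑ l, M k l * (if (l : ℕ) / m = α k then 0 else 1 / ((H * m : ℕ) : ℝ)) =
        lam.real (Ik (H * m) k ∩ {x | fl H (f x) ≠ α k}) := by
      intro k
      have h2 := add_lab (H * m) (Ik (H * m) k) measurableSet_Ico f hf (fun l => ¬ ((l : ℕ) / m = α k))
      have h3 : lam.real (Ik (H * m) k ∩ {x | fl H (f x) ≠ α k}) =
          lam.real (Ik (H * m) k ∩ {x | ¬ (((flf (H * m) (f x) : Fin (H * m)) : ℕ) / m = α k)}) := by
        apply measureReal_congr
        have ha := hf.quasiMeasurePreserving.ae ae_Ico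
        filter_upwards [ha] with x hTx
        apply propext
        show (x ∈ Ik (H * m) k ∧ fl H (f x) ≠ α k) ↔
          (x ∈ Ik (H * m) k ∧ ¬ (((flf (H * m) (f x) : Fin (H * m)) : ℕ) / m = α k))
        rw [flf_val _ _ hTx, ← fl_div H m hH hm]
      rw [h3, ← h2, Finset.sum_filter]
      apply Finset.sum_congr rfl
      intro l _
      simp only [M]
      by_cases h : (l : ℕ) / m = α k
      · simp [h]
      · simp only [h, if_false, not_false_eq_true, if_true]
        field_simp
    rw [Finset.sum_congr rfl (fun k _ => h1 k)]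
    have h4 := add_lab (H * m) {x | fl H (f x) ≠ α (flf (H * m) x)} (by
      have hg : Measurable (fun x => (fl H (f x), α (flf (H * m) x))) :=
        ((fl_meas H).comp hf.measurable).prodMk ((measurable_of_countable α).comp (flf_meas _))
      exact hg (MeasurableSet.of_discrete (s := {p : ℕ × ℕ | p.1 ≠ p.2}))) id (MeasurePreserving.id _) (fun _ => True)
    rw [Finset.filter_true] at h4
    have h5 : {x | fl H (f x) ≠ α (flf (H * m) x)} ∩ {x | True} = {x | fl H (f x) ≠ α (flf (H * m) x)} := by
      simp
    rw [h5] at h4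
    refine le_trans (le_of_eq ?_) hα
    rw [← h4]
    apply Finset.sum_congr rfl
    intro k _
    congr 1
    ext x
    simp only [mem_inter_iff, mem_preimage, id]
    rw [mem_Ik (H * m) (Nat.pos_of_ne_zero hn0) _ k.2]
    constructor
    · rintro ⟨⟨h6, h7⟩, h8⟩
      have h9 : flf (H * m) x = k := Fin.ext (by rw [flf_val _ x h6]; exact h7)
      refine ⟨?_, h6, h7⟩
      show fl H (f x) ≠ α (flf (H * m) x)
      rw [h9]
      exact h8
    · rintro ⟨h8, h6, h7⟩
      have h9 : flf (H * m) x = k := Fin.ext (by rw [flf_val _ x h6]; exact h7)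
      refine ⟨⟨h6, h7⟩, ?_⟩
      have h8' : fl H (f x) ≠ α (flf (H * m) x) := h8
      rw [h9] at h8'
      exact h8'
  -- conclusion
  have h6 : dl H (rzf (H * m) t) f ≤
      lam.real {x | ¬ (((t (flf (H * m) x)) : ℕ) / m = α (flf (H * m) x))} +
      lam.real {x | fl H (f x) ≠ α (flf (H * m) x)} := by
    unfold dl
    refine le_trans ?_ (measureReal_union_le _ _)
    apply ENNReal.toReal_mono (measure_ne_top _ _)
    apply measure_mono_ae
    filter_upwards [ae_Ico] with x hx hmem
    have hmem' : fl H (rzf (H * m) t x) ≠ fl H (f x) := hmem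
    show x ∈ {x | ¬ (((t (flf (H * m) x)) : ℕ) / m = α (flf (H * m) x))} ∪
      {x | fl H (f x) ≠ α (flf (H * m) x)}
    by_contra hcon
    rw [mem_union, not_or] at hcon
    have h7 : ((t (flf (H * m) x)) : ℕ) / m = α (flf (H * m) x) := not_not.1 hcon.1
    have h8 : fl H (f x) = α (flf (H * m) x) := not_not.1 hcon.2
    apply hmem'
    obtain ⟨h9, h10⟩ := rzf_mem (H * m) t x hx
    rw [fl_div H m hH hm, ← flf_val _ _ h9, h10, h7, h8]
  rw [lam_lab (H * m) (fun k => ¬ ((t k : ℕ) / m = α k))] at h6
  have h7 : nc (fun k : Fin (H * m) => ¬ ((t k : ℕ) / m = α k)) / ((H * m : ℕ) : ℝ) =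
      ∑ k, (if ((t k : Fin (H * m)) : ℕ) / m = α k then 0 else 1 / ((H * m : ℕ) : ℝ)) := by
    rw [← nc_eq, Finset.card_filter]
    push_cast
    rw [Finset.sum_div]
    apply Finset.sum_congr rfl
    intro k _
    by_cases h : (t k : ℕ) / m = α k <;> simp [h]
  rw [h7] at h6
  linarith

end Pool.H359R3.WH
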