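import Mathlib
import Pool.Agent.H359R3.MX8a

set_option autoImplicit false
set_option linter.unusedSectionVars false
set_option linter.unusedVariables false

/-!
Density of extensions given by interval permutations.
-/

namespace Pool.H359R3.MX

open MeasureTheory Set Filter Topology
open scoped ENNReal symmDiff
open Pool.H359R3 Pool.H359R3.WH

variable {X : Type*} [MeasurableSpace X]
variable (μ : Measure X) [IsProbabilityMeasure μ]

theorem fib_mp (T : X ≃ᵐ X) (hT : MeasurePreserving T μ μ) (S : (X × ℝ) ≃ᵐ (X × ℝ))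
    (hS : MeasurePreserving S (μ.prod lam) (μ.prod lam)) (hSe : ∀ᵐ z ∂(μ.prod lam), (S z).1 = T z.1) :
    ∀ᵐ x ∂μ, MeasurePreserving (fun y => (S (x, y)).2) lam lam := by
  have hSm : ∀ x, Measurable (fun y => (S (x, y)).2) := fun x =>
    measurable_snd.comp (S.measurable.comp (measurable_const.prodMk measurable_id))
  have key : ∀ D : Set ℝ, MeasurableSet D → ∀ᵐ x ∂μ, lam ((fun y => (S (x, y)).2) ⁻¹' D) = lam D := by
    intro D hD
    have hE0 : MeasurableSet {z : X × ℝ | (S z).2 ∈ D} := (measurable_snd.comp S.measurable) hD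
    have hm : Measurable (fun x => lam ((fun y => (S (x, y)).2) ⁻¹' D)) :=
      measurable_measure_prodMk_left (ν := lam) hE0
    refine ae_eq_of_forall_setLIntegral_eq_of_sigmaFinite hm measurable_const (fun C hC _ => ?_)
    have hTC : MeasurableSet (T.symm ⁻¹' C) := T.symm.measurable hC
    have h1 : (μ.prod lam) {z : X × ℝ | z.1 ∈ C ∧ (S z).2 ∈ D} = ∫⁻ x in C, lam ((fun y => (S (x, y)).2) ⁻¹' D) ∂μ := by
      have hEE : MeasurableSet {z : X × ℝ | z.1 ∈ C ∧ (S z).2 ∈ D} := (measurable_fst hC).inter hE0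
      rw [Measure.prod_apply hEE, ← lintegral_indicator hC]
      congr 1
      funext x
      by_cases hx : x ∈ C
      · rw [indicator_of_mem hx]
        congr 1
        ext y
        simp only [mem_preimage, mem_ofPred_eq]
        exact ⟨fun h => h.2, fun h => ⟨hx, h⟩⟩
      · rw [indicator_of_notMem hx]
        have : Prod.mk x ⁻¹' {z : X × ℝ | z.1 ∈ C ∧ (S z).2 ∈ D} = ∅ := by
          ext y
          simp only [mem_preimage, mem_ofPred_eq, mem_empty_iff_false, iff_false]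
          exact fun h => hx h.1
        rw [this, measure_empty]
    have h2 : (μ.prod lam) {z : X × ℝ | z.1 ∈ C ∧ (S z).2 ∈ D} = (μ.prod lam) (S ⁻¹' ((T.symm ⁻¹' C) ×ˢ D)) := by
      apply measure_congr
      filter_upwards [hSe] with z hz
      apply propext
      show (z.1 ∈ C ∧ (S z).2 ∈ D) ↔ (T.symm (S z).1 ∈ C ∧ (S z).2 ∈ D)
      rw [hz, T.symm_apply_apply]
    rw [← h1, h2, hS.measure_preimage (hTC.prod hD).nullMeasurableSet, Measure.prod_prod,
      (MeasurePreserving.symm T hT).measure_preimage hC.nullMeasurableSet, lintegral_const,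
      Measure.restrict_apply MeasurableSet.univ, univ_inter, mul_comm]
  have hQ : ∀ᵐ x ∂μ, ∀ q : ℚ, lam ((fun y => (S (x, y)).2) ⁻¹' (Iio (q : ℝ))) = lam (Iio (q : ℝ)) := by
    rw [ae_all_iff]
    intro q
    exact key _ measurableSet_Iio
  filter_upwards [hQ] with x hx
  refine ⟨hSm x, ?_⟩
  have : IsProbabilityMeasure (lam.map (fun y => (S (x, y)).2)) := Measure.isProbabilityMeasure_map (hSm x).aemeasurable
  refine ext_of_generate_finite (⋃ a : ℚ, {Iio (a : ℝ)}) ?_ Real.isPiSystem_Iio_rat ?_ ?_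
  · rw [← Real.borel_eq_generateFrom_Iio_rat]
    exact BorelSpace.measurable_eq
  · intro s hs
    simp only [mem_iUnion, mem_singleton_iff] at hs
    obtain ⟨q, rfl⟩ := hs
    rw [Measure.map_apply (hSm x) measurableSet_Iio]
    exact hx q
  · rw [measure_univ, measure_univ]

/-- good points at level `N` -/
def Vs (H : ℕ) (S : (X × ℝ) ≃ᵐ (X × ℝ)) (θ : ℝ) (N : ℕ) [NeZero N] : Set X :=
  {x | ∃ t : Equiv.Perm (Fin N), dl H (rzf N t) (fun y => (S (x, y)).2) < θ}

theorem Vs_mono (H : ℕ) (S : (X × ℝ) ≃ᵐ (X × ℝ)) (θ : ℝ) (n N : ℕ) [NeZero n] [NeZero N] (h : n ∣ N) :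
    Vs H S θ n ⊆ Vs H S θ N := by
  obtain ⟨m, rfl⟩ := h
  have hm : 0 < m := Nat.pos_of_mul_pos_left (NeZero.pos (n * m))
  rintro x ⟨t, ht⟩
  refine ⟨lft n m t, ?_⟩
  have : rzf (n * m) (lft n m t) = rzf n t := by
    funext y
    exact rz_lft n m hm t y
  rw [this]
  exact ht

theorem dl_meas (H : ℕ) (S : (X × ℝ) ≃ᵐ (X × ℝ)) (f : ℝ → ℝ) (hf : Measurable f) :
    Measurable (fun x => dl H f (fun y => (S (x, y)).2)) := by
  have hE : MeasurableSet {z : X × ℝ | fl H (f z.2) ≠ fl H (S z).2} := by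
    have h1 : Measurable (fun z : X × ℝ => (fl H (f z.2), fl H (S z).2)) :=
      ((fl_meas H).comp (hf.comp measurable_snd)).prodMk ((fl_meas H).comp (measurable_snd.comp S.measurable))
    exact h1 (MeasurableSet.of_discrete (s := {p : ℕ × ℕ | p.1 ≠ p.2}))
  exact (measurable_measure_prodMk_left (ν := lam) hE).ennreal_toReal

theorem Vs_meas (H : ℕ) (S : (X × ℝ) ≃ᵐ (X × ℝ)) (θ : ℝ) (N : ℕ) [NeZero N] : MeasurableSet (Vs H S θ N) := by
  have : Vs H S θ N = ⋃ t : Equiv.Perm (Fin N), {x | dl H (rzf N t) (fun y => (S (x, y)).2) < θ} := by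
    ext x
    simp only [Vs, mem_ofPred_eq, mem_iUnion]
  rw [this]
  exact MeasurableSet.iUnion (fun t => (dl_meas H S _ (rzf_meas N t)) measurableSet_Iio)

theorem fam_dense (T : X ≃ᵐ X) (hT : MeasurePreserving T μ μ) (S : (X × ℝ) ≃ᵐ (X × ℝ))
    (hS : MeasurePreserving S (μ.prod lam) (μ.prod lam)) (hSe : ∀ᵐ z ∂(μ.prod lam), (S z).1 = T z.1)
    (H : ℕ) (hH : 0 < H) (θ : ℝ) (hθ : 0 < θ) :
    ∃ (N : ℕ) (_ : NeZero N), H ∣ N ∧ ∃ φ : X → Equiv.Perm (Fin N), ∃ hφ : Ms φ,
      (μ.prod lam).real {z | fl H (SK T φ hφ z).2 ≠ fl H (S z).2} ≤ θ := by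
  classical
  have hfib := fib_mp μ T hT S hS hSe
  have hNZ : ∀ M : ℕ, NeZero (H * M.factorial) := fun M => ⟨by positivity⟩
  have hmono : Monotone (fun M : ℕ => @Vs X _ H S (θ / 2) (H * M.factorial) (hNZ M)) := by
    intro a b hab
    have := hNZ a
    have := hNZ b
    exact Vs_mono H S (θ / 2) _ _ (Nat.mul_dvd_mul_left H (Nat.factorial_dvd_factorial hab))
  have hU : μ (⋃ M : ℕ, @Vs X _ H S (θ / 2) (H * M.factorial) (hNZ M)) = 1 := by
    have h1 : ∀ᵐ x ∂μ, x ∈ ⋃ M : ℕ, @Vs X _ H S (θ / 2) (H * M.factorial) (hNZ M) := by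
      filter_upwards [hfib] with x hx
      obtain ⟨n, hn, hHn, t, ht⟩ := perm_dense' _ hx H hH (θ / 2) (by positivity)
      rw [mem_iUnion]
      refine ⟨n, ?_⟩
      have := hNZ n
      have h2 : n ∣ H * n.factorial := Dvd.dvd.mul_left (Nat.dvd_factorial (NeZero.pos n) le_rfl) H
      exact Vs_mono H S (θ / 2) n _ h2 ⟨t, ht⟩
    rw [← measure_univ (μ := μ)]
    apply measure_congr
    filter_upwards [h1] with x hx
    exact propext ⟨fun _ => trivial, fun _ => hx⟩
  have hlim := tendsto_measure_iUnion_atTop (μ := μ) hmono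
  rw [hU] at hlim
  have hlim' : Tendsto (fun M : ℕ => μ.real (@Vs X _ H S (θ / 2) (H * M.factorial) (hNZ M))) atTop (𝓝 1) := by
    have := (ENNReal.tendsto_toReal ENNReal.one_ne_top).comp hlim
    rw [ENNReal.toReal_one] at this
    exact this
  obtain ⟨M, hM⟩ := (hlim'.eventually (lt_mem_nhds (show 1 - θ / 2 < 1 by linarith))).exists
  have := hNZ M
  set N := H * M.factorial with hN
  set V := Vs H S (θ / 2) N with hV
  have hVm : MeasurableSet V := Vs_meas H S (θ / 2) N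
  let sel : (Equiv.Perm (Fin N) → Prop) → Equiv.Perm (Fin N) := fun w => if h : ∃ t, w t then h.choose else 1
  let v : X → Equiv.Perm (Fin N) → Prop := fun x t => dl H (rzf N t) (fun y => (S (x, y)).2) < θ / 2
  have hv : Measurable v := by
    apply measurable_pi_lambda
    intro t
    exact measurableSet_setOfPred.1 ((dl_meas H S _ (rzf_meas N t)) (measurableSet_Iio (a := θ / 2)))
  let φ : X → Equiv.Perm (Fin N) := fun x => sel (v x)
  have hφ : Ms φ := by
    intro a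
    exact (measurable_of_countable (fun w : Equiv.Perm (Fin N) → Prop => sel w a)).comp hv
  refine ⟨N, this, Dvd.intro _ rfl, φ, hφ, ?_⟩
  have hφV : ∀ x ∈ V, dl H (rzf N (φ x)) (fun y => (S (x, y)).2) < θ / 2 := by
    intro x hx
    have hex : ∃ t, v x t := hx
    have : φ x = hex.choose := by
      show sel (v x) = _
      simp only [sel]
      rw [dif_pos hex]
    rw [this]
    exact hex.choose_spec
  have hE : MeasurableSet {z : X × ℝ | fl H (SK T φ hφ z).2 ≠ fl H (S z).2} := by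
    have h1 : Measurable (fun z : X × ℝ => (fl H (SK T φ hφ z).2, fl H (S z).2)) :=
      ((fl_meas H).comp (measurable_snd.comp (SK T φ hφ).measurable)).prodMk
        ((fl_meas H).comp (measurable_snd.comp S.measurable))
    exact h1 (MeasurableSet.of_discrete (s := {p : ℕ × ℕ | p.1 ≠ p.2}))
  have h3 : (μ.prod lam) {z : X × ℝ | fl H (SK T φ hφ z).2 ≠ fl H (S z).2} ≤ ENNReal.ofReal (θ / 2) + μ Vᶜ := by
    rw [Measure.prod_apply hE]
    calc ∫⁻ x, lam (Prod.mk x ⁻¹' {z : X × ℝ | fl H (SK T φ hφ z).2 ≠ fl H (S z).2}) ∂μ ≤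
        ∫⁻ x, (ENNReal.ofReal (θ / 2) + Vᶜ.indicator 1 x) ∂μ := by
          apply lintegral_mono
          intro x
          by_cases hx : x ∈ V
          · have h4 := hφV x hx
            have h5 : lam (Prod.mk x ⁻¹' {z : X × ℝ | fl H (SK T φ hφ z).2 ≠ fl H (S z).2}) ≤ ENNReal.ofReal (θ / 2) := by
              rw [← ofReal_measureReal (measure_ne_top _ _)]
              apply ENNReal.ofReal_le_ofReal
              exact h4.le
            exact le_trans h5 le_self_add
          · show _ ≤ ENNReal.ofReal (θ / 2) + Vᶜ.indicator 1 x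
            rw [indicator_of_mem (show x ∈ Vᶜ from hx)]
            calc _ ≤ lam univ := measure_mono (subset_univ _)
              _ = 1 := measure_univ
              _ ≤ _ := le_add_self
      _ = ENNReal.ofReal (θ / 2) + μ Vᶜ := by
          rw [lintegral_add_left measurable_const, lintegral_const, measure_univ, mul_one,
            lintegral_indicator_one hVm.compl]
  have h6 : μ.real Vᶜ ≤ θ / 2 := by
    rw [probReal_compl_eq_one_sub hVm]
    have : 1 - θ / 2 < μ.real V := hM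
    linarith
  have h7 : μ Vᶜ ≤ ENNReal.ofReal (θ / 2) := by
    rw [← ofReal_measureReal (measure_ne_top _ _)]
    exact ENNReal.ofReal_le_ofReal h6
  have h8 : (μ.prod lam) {z : X × ℝ | fl H (SK T φ hφ z).2 ≠ fl H (S z).2} ≤ ENNReal.ofReal θ := by
    refine le_trans h3 ?_
    refine le_trans (add_le_add_right h7 _) ?_
    rw [← ENNReal.ofReal_add (by positivity) (by positivity)]
    apply ENNReal.ofReal_le_ofReal
    linarith
  exact ENNReal.toReal_le_of_le_ofReal hθ.le h8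

/-- level sets are dense -/
theorem LSApx (E : Set (X × ℝ)) (hE : MeasurableSet E) : ∀ H : ℕ, 0 < H → ∀ η : ℝ, 0 < η →
    ∃ m : ℕ, 0 < m ∧ ∃ B : Set (X × ℕ), MeasurableSet B ∧ (μ.prod lam).real (E ∆ LS (H * m) B) < η := by
  have hgen : (Prod.instMeasurableSpace : MeasurableSpace (X × ℝ)) =
      MeasurableSpace.generateFrom (image2 (· ×ˢ ·) {s : Set X | MeasurableSet s} {t : Set ℝ | MeasurableSet t}) :=
    generateFrom_prod.symm
  refine approx_induction (μ.prod lam) _ hgen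
    (fun E => ∀ H : ℕ, 0 < H → ∀ η : ℝ, 0 < η →
      ∃ m : ℕ, 0 < m ∧ ∃ B : Set (X × ℕ), MeasurableSet B ∧ (μ.prod lam).real (E ∆ LS (H * m) B) < η) ?_ ?_ ?_ ?_ ?_ E hE
  · rintro _ ⟨C, hC, D, hD, rfl⟩ H hH η hη
    obtain ⟨m, hm, B, hB⟩ := Apx D hD H hH η hη
    refine ⟨m, hm, C ×ˢ B, hC.prod (MeasurableSet.of_discrete), ?_⟩
    have h1 : (C ×ˢ D) ∆ LS (H * m) (C ×ˢ B) ⊆ univ ×ˢ (D ∆ {x | fl (H * m) x ∈ B}) := by
      rintro ⟨x, y⟩ h
      refine ⟨mem_univ _, ?_⟩
      rw [Set.mem_symmDiff] at h ⊢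
      have e1 : (x, y) ∈ C ×ˢ D ↔ x ∈ C ∧ y ∈ D := Iff.rfl
      have e2 : (x, y) ∈ LS (H * m) (C ×ˢ B) ↔ x ∈ C ∧ fl (H * m) y ∈ B := Iff.rfl
      rw [e1, e2] at h
      have e3 : y ∈ {x | fl (H * m) x ∈ B} ↔ fl (H * m) y ∈ B := Iff.rfl
      show (y ∈ D ∧ y ∉ {x | fl (H * m) x ∈ B}) ∨ (y ∈ {x | fl (H * m) x ∈ B} ∧ y ∉ D)
      rw [e3]
      tauto
    refine lt_of_le_of_lt (measureReal_mono h1 (measure_ne_top _ _)) ?_
    rw [measureReal_prod_prod]
    simpa using hB
  · intro H hH η hη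
    refine ⟨1, one_pos, ∅, MeasurableSet.empty, ?_⟩
    have : LS (H * 1) (∅ : Set (X × ℕ)) = ∅ := rfl
    rw [this]
    simpa using hη
  · intro s _ hP H hH η hη
    obtain ⟨m, hm, B, hBm, hB⟩ := hP H hH η hη
    refine ⟨m, hm, Bᶜ, hBm.compl, ?_⟩
    have : sᶜ ∆ LS (H * m) Bᶜ = s ∆ LS (H * m) B := by
      ext z
      have e2 : z ∈ LS (H * m) Bᶜ ↔ ¬ (z ∈ LS (H * m) B) := Iff.rfl
      rw [Set.mem_symmDiff, Set.mem_symmDiff, e2, mem_compl_iff]
      tauto
    rw [this]
    exact hB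
  · intro s t _ _ hP hQ H hH η hη
    obtain ⟨m, hm, B, hBm, hB⟩ := hP H hH (η / 2) (by positivity)
    obtain ⟨m', hm', B', hBm', hB'⟩ := hQ (H * m) (by positivity) (η / 2) (by positivity)
    have hdiv : Measurable (fun p : X × ℕ => (p.1, p.2 / m')) :=
      measurable_fst.prodMk ((measurable_of_countable (fun k : ℕ => k / m')).comp measurable_snd)
    refine ⟨m * m', by positivity, {p | (p.1, p.2 / m') ∈ B} ∪ B', (hdiv hBm).union hBm', ?_⟩
    have h1 : LS (H * (m * m')) ({p : X × ℕ | (p.1, p.2 / m') ∈ B} ∪ B') = LS (H * m) B ∪ LS (H * m * m') B' := by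
      ext z
      show ((z.1, fl (H * (m * m')) z.2 / m') ∈ B ∨ (z.1, fl (H * (m * m')) z.2) ∈ B') ↔
        ((z.1, fl (H * m) z.2) ∈ B ∨ (z.1, fl (H * m * m') z.2) ∈ B')
      rw [← mul_assoc, fl_div (H * m) m' (by positivity) hm' z.2]
    rw [h1]
    refine lt_of_le_of_lt (measureReal_mono (s₂ := (s ∆ LS (H * m) B) ∪ (t ∆ LS (H * m * m') B')) (fun z hz => ?_)
      (measure_ne_top _ _)) ?_
    · simp only [mem_union, Set.mem_symmDiff] at hz ⊢
      tauto
    · refine lt_of_le_of_lt (measureReal_union_le _ _) ?_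
      linarith
  · intro s hs hap H hH η hη
    obtain ⟨t, ht, hPt, hst⟩ := hap (η / 2) (by positivity)
    obtain ⟨m, hm, B, hBm, hB⟩ := hPt H hH (η / 2) (by positivity)
    refine ⟨m, hm, B, hBm, ?_⟩
    refine lt_of_le_of_lt (le_trans (measureReal_mono (symmDiff_triangle s t _) (measure_ne_top _ _))
      (measureReal_union_le _ _)) ?_
    linarith

theorem LS_lift (H m : ℕ) (hH : 0 < H) (hm : 0 < m) (B : Set (X × ℕ)) (hB : MeasurableSet B) :
    ∃ B' : Set (X × ℕ), MeasurableSet B' ∧ LS (H * m) B' = LS H B := by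
  have hdiv : Measurable (fun p : X × ℕ => (p.1, p.2 / m)) :=
    measurable_fst.prodMk ((measurable_of_countable (fun k : ℕ => k / m)).comp measurable_snd)
  refine ⟨{p | (p.1, p.2 / m) ∈ B}, hdiv hB, ?_⟩
  ext z
  show (z.1, fl (H * m) z.2 / m) ∈ B ↔ (z.1, fl H z.2) ∈ B
  rw [← fl_div H m hH hm z.2]

theorem LSApx_multi {r : ℕ} (E : Fin r → Set (X × ℝ)) (hE : ∀ i, MeasurableSet (E i)) : ∀ H : ℕ, 0 < H → ∀ η : ℝ, 0 < η →
    ∃ m : ℕ, 0 < m ∧ ∀ i, ∃ B : Set (X × ℕ), MeasurableSet B ∧ (μ.prod lam).real (E i ∆ LS (H * m) B) < η := by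
  induction r with
  | zero => intro H hH η hη; exact ⟨1, one_pos, fun i => i.elim0⟩
  | succ r ih =>
    intro H hH η hη
    obtain ⟨m, hm, h1⟩ := ih (fun i => E (Fin.castSucc i)) (fun i => hE _) H hH η hη
    obtain ⟨m', hm', B, hBm, hB⟩ := LSApx μ (E (Fin.last r)) (hE _) (H * m) (by positivity) η hη
    refine ⟨m * m', by positivity, fun i => ?_⟩
    refine Fin.lastCases ?_ (fun j => ?_) i
    · exact ⟨B, hBm, by rw [← mul_assoc]; exact hB⟩
    · obtain ⟨B1, hB1m, hB1⟩ := h1 j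
      obtain ⟨B2, hB2m, hB2⟩ := LS_lift (H * m) m' (by positivity) hm' B1 hB1m
      refine ⟨B2, hB2m, ?_⟩
      rw [← mul_assoc, hB2]
      exact hB1

end Pool.H359R3.MX
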