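import Mathlib
import Pool.Agent.H359R3.MX8

set_option autoImplicit false
set_option linter.unusedSectionVars false
set_option linter.unusedVariables false

/-!
Density and openness together.
-/

namespace Pool.H359R3.MX

open MeasureTheory Set Filter Topology
open scoped ENNReal symmDiff
open Pool.H359R3 Pool.H359R3.WH

variable {X : Type*} [MeasurableSpace X]
variable (μ : Measure X) [IsProbabilityMeasure μ]

/-- extension property -/
def IsExt {Y : Type*} [MeasurableSpace Y] (ν : Measure Y) (T : X ≃ᵐ X) (S : (X × Y) ≃ᵐ (X × Y)) : Prop :=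
  MeasurePreserving S (μ.prod ν) (μ.prod ν) ∧ ∀ᵐ z ∂(μ.prod ν), (S z).1 = T z.1

/-- skew product with measure preserving fibre maps, everywhere -/
def IsSkew {Y : Type*} [MeasurableSpace Y] (ν : Measure Y) (T : X ≃ᵐ X) (S : (X × Y) ≃ᵐ (X × Y)) : Prop :=
  ∃ Φ : X → Y ≃ᵐ Y, (∀ x, MeasurePreserving (Φ x) ν ν) ∧ Measurable (fun z : X × Y => Φ z.1 z.2) ∧
    ∀ z, S z = (T z.1, Φ z.1 z.2)

/-- the local statement -/
def CD {Y : Type*} [MeasurableSpace Y] (ν : Measure Y) (s : Bool) (k : ℕ) (T : X ≃ᵐ X) : Prop :=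
  ∀ S : (X × Y) ≃ᵐ (X × Y), IsExt μ ν T S → ∀ (r : ℕ) (E : Fin r → Set (X × Y)), (∀ i, MeasurableSet (E i)) →
    ∀ δ : ℝ, 0 < δ → ∀ A : Fin (k + 1) → Set (X × Y), (∀ i, MeasurableSet (A i)) → ∀ ε : ℝ, 0 < ε →
    ∃ S0 : (X × Y) ≃ᵐ (X × Y), IsExt μ ν T S0 ∧ IsSkew ν T S0 ∧ (∀ i, (μ.prod ν).real ((S ⁻¹' E i) ∆ (S0 ⁻¹' E i)) < δ) ∧
      ∃ J : Set (Set (X × Y)), J.Finite ∧ (∀ F ∈ J, MeasurableSet F) ∧ ∃ δ' : ℝ, 0 < δ' ∧ ∃ n0 : Fin k → ℕ,
        ∀ S' : (X × Y) ≃ᵐ (X × Y), IsExt μ ν T S' →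
          (∀ F ∈ J, (μ.prod ν).real ((S' ⁻¹' F) ∆ (S0 ⁻¹' F)) ≤ δ') →
          ∀ n ≥ n0, |(μ.prod ν).real (⋂ j, ((pw s S' : X × Y → X × Y)^[ps n j]) ⁻¹' A j) -
            ∏ j, (μ.prod ν).real (A j)| ≤ ε

theorem diff_tri {Z : Type*} [MeasurableSpace Z] (m : Measure Z) [IsProbabilityMeasure m] (A B C : Set Z) :
    m.real (A ∆ C) ≤ m.real (A ∆ B) + m.real (B ∆ C) :=
  le_trans (measureReal_mono (symmDiff_triangle _ _ _) (measure_ne_top _ _)) (measureReal_union_le _ _)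

theorem lab_diff {N H : ℕ} [NeZero N] (T : X ≃ᵐ X) (S : (X × ℝ) ≃ᵐ (X × ℝ))
    (hSe : ∀ᵐ z ∂(μ.prod lam), (S z).1 = T z.1)
    (φ : X → Equiv.Perm (Fin N)) (hφ : Ms φ) (C : Set (X × ℕ)) (θ : ℝ)
    (h : (μ.prod lam).real {z | fl H (SK T φ hφ z).2 ≠ fl H (S z).2} ≤ θ) :
    (μ.prod lam).real ((S ⁻¹' LS H C) ∆ (SK T φ hφ ⁻¹' LS H C)) ≤ θ := by
  refine le_trans ?_ h
  apply ENNReal.toReal_mono (measure_ne_top _ _)
  apply measure_mono_ae
  filter_upwards [hSe] with z hz hmem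
  show fl H (SK T φ hφ z).2 ≠ fl H (S z).2
  intro heq
  have h1 : S z ∈ LS H C ↔ SK T φ hφ z ∈ LS H C := by
    show ((S z).1, fl H (S z).2) ∈ C ↔ ((SK T φ hφ z).1, fl H (SK T φ hφ z).2) ∈ C
    rw [hz, heq, SK_apply]
  have h2 : z ∈ (S ⁻¹' LS H C) ∆ (SK T φ hφ ⁻¹' LS H C) := hmem
  rw [Set.mem_symmDiff] at h2
  rcases h2 with ⟨h3, h4⟩ | ⟨h3, h4⟩
  · exact h4 (h1.1 h3)
  · exact h4 (h1.2 h3)

theorem pert_diff {N : ℕ} [NeZero N] (T : X ≃ᵐ X) (φ φ0 : X → Equiv.Perm (Fin N)) (hφ : Ms φ) (hφ0 : Ms φ0)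
    (Q : Set X) (hQ : MeasurableSet Q) (h : ∀ x ∉ Q, φ x = φ0 x) (E : Set (X × ℝ)) :
    (μ.prod lam).real ((SK T φ0 hφ0 ⁻¹' E) ∆ (SK T φ hφ ⁻¹' E)) ≤ μ.real Q := by
  have h1 : (SK T φ0 hφ0 ⁻¹' E) ∆ (SK T φ hφ ⁻¹' E) ⊆ Q ×ˢ univ := by
    intro z hz
    by_contra hc
    have hzQ : z.1 ∉ Q := fun h => hc ⟨h, mem_univ _⟩
    have h2 : SK T φ0 hφ0 z = SK T φ hφ z := by
      rw [SK_apply, SK_apply, h _ hzQ]
    rw [Set.mem_symmDiff, mem_preimage, mem_preimage, h2] at hz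
    tauto
  refine le_trans (measureReal_mono h1 (measure_ne_top _ _)) ?_
  rw [measureReal_prod_prod]
  simp

theorem core_dense [MeasurableSpace.CountablySeparated X] [NullSingletonClass μ]
    (T : X ≃ᵐ X) (hT : MeasurePreserving T μ μ) (s : Bool) (k : ℕ) (hk : 1 ≤ k) (hmix : MixS s k μ T) :
    CD μ lam s k T := by
  classical
  intro S hS r E hE δ hδ A hA ε hε
  obtain ⟨hSm, hSe⟩ := hS
  have hmix1 := fun (A B : Set X) (hA : MeasurableSet A) (hB : MeasurableSet B) =>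
    mix_one μ T hT s k hk hmix A B hA hB
  have hkr : (0 : ℝ) < (k : ℝ) + 1 := by positivity
  -- approximate the test sets
  obtain ⟨m1, hm1, hB⟩ := LSApx_multi μ A hA 1 one_pos (ε / (4 * (k + 1))) (by positivity)
  rw [one_mul] at hB
  choose B hBm hB using hB
  obtain ⟨m2, hm2, hC⟩ := LSApx_multi μ E hE m1 hm1 (δ / 8) (by positivity)
  choose C hCm hC using hC
  obtain ⟨N, hNZ, hdvd, φ0, hφ0, hlab⟩ := fam_dense μ T hT S hSm hSe (m1 * m2) (by positivity) (δ / 4) (by positivity)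
  have hNr : (0 : ℝ) < N := by exact_mod_cast NeZero.pos N
  obtain ⟨m3, hm3⟩ := hdvd
  have hm3pos : 0 < m3 := by
    rcases Nat.eq_zero_or_pos m3 with h | h
    · exfalso
      rw [h, mul_zero] at hm3
      exact (NeZero.ne N) hm3
    · exact h
  have hlift : ∀ j, ∃ B' : Set (X × ℕ), MeasurableSet B' ∧ LS N B' = LS m1 (B j) := by
    intro j
    obtain ⟨B', h1, h2⟩ := LS_lift m1 (m2 * m3) hm1 (by positivity) (B j) (hBm j)
    refine ⟨B', h1, ?_⟩
    rw [hm3, mul_assoc]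
    exact h2
  choose B' hB'm hB' using hlift
  obtain ⟨Q, hQ, hQ0, hQδ⟩ := small_set μ (δ / 4) (by positivity)
  set ε0 := ε / 4 with hε0
  have hε0pos : 0 < ε0 := by rw [hε0]; positivity
  obtain ⟨φ, hφ, hφQ, L, hL, hpair⟩ := wm_pair μ T hT Q hQ (hit_of_mix μ T hT hmix1 Q hQ hQ0)
    (cell_of_mix μ T hT hmix1) (fun i : Fin (k + 1) => gA (N := N) (B' i)) (fun i => gA_meas (B' i) (hB'm i))
    (fun i => gA_nonneg _) (fun i => gA_le _) (fun i => bar_mix μ T hT hmix1 (B' i) (hB'm i)) φ0 hφ0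
    (ε0 ^ 2 / (2 * (N : ℝ) ^ (k + 1))) (by positivity)
  obtain ⟨δ', hδ', n0, hopen⟩ := core_open μ T hT s k hmix φ hφ B' hB'm L hL ε0 hε0pos hpair
  refine ⟨SK T φ hφ, ⟨SK_mp μ T hT φ hφ, Eventually.of_forall (fun z => rfl)⟩,
    ⟨fun x => (rz N (φ x)).1, fun x => (rz N (φ x)).2, rz_unc_meas φ hφ, fun z => rfl⟩, ?_, ?_⟩
  · intro i
    have hLm : MeasurableSet (LS (m1 * m2) (C i)) := LS_meas _ _ (hCm i)
    have e1 : (μ.prod lam).real ((S ⁻¹' E i) ∆ (S ⁻¹' LS (m1 * m2) (C i))) < δ / 8 := by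
      rw [← preimage_symmDiff, mp_real' hSm ((hE i).symmDiff hLm)]
      exact hC i
    have e2 := lab_diff μ T S hSe φ0 hφ0 (C i) (δ / 4) hlab
    have e3 := pert_diff μ T φ φ0 hφ hφ0 Q hQ hφQ (LS (m1 * m2) (C i))
    have e4 : (μ.prod lam).real ((SK T φ hφ ⁻¹' LS (m1 * m2) (C i)) ∆ (SK T φ hφ ⁻¹' E i)) < δ / 8 := by
      rw [← preimage_symmDiff, mp_real' (SK_mp μ T hT φ hφ) (hLm.symmDiff (hE i)), symmDiff_comm]
      exact hC i
    have e5 := diff_tri (μ.prod lam) (S ⁻¹' E i) (S ⁻¹' LS (m1 * m2) (C i)) (SK T φ hφ ⁻¹' E i)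
    have e6 := diff_tri (μ.prod lam) (S ⁻¹' LS (m1 * m2) (C i)) (SK T φ0 hφ0 ⁻¹' LS (m1 * m2) (C i)) (SK T φ hφ ⁻¹' E i)
    have e7 := diff_tri (μ.prod lam) (SK T φ0 hφ0 ⁻¹' LS (m1 * m2) (C i)) (SK T φ hφ ⁻¹' LS (m1 * m2) (C i))
      (SK T φ hφ ⁻¹' E i)
    linarith
  · refine ⟨⋃ l ∈ Finset.range L, ⋃ i ∈ (Finset.univ : Finset (Fin (k + 1))), {(SK T φ hφ)^[l] ⁻¹' LS N (B' i)}, ?_, ?_, δ', hδ', n0, ?_⟩
    · refine Set.Finite.biUnion (Finset.finite_toSet _) (fun l _ => Set.Finite.biUnion (Finset.finite_toSet _) (fun i _ => Set.finite_singleton _))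
    · intro F hF
      simp only [mem_iUnion, mem_singleton_iff, exists_prop] at hF
      obtain ⟨l, _, i, _, rfl⟩ := hF
      exact ((SK T φ hφ).measurable.iterate l) (LS_meas N _ (hB'm i))
    · intro S' hS' hclose n hn
      have h1 := hopen S' hS'.1 hS'.2 (fun l hl i => hclose _ (by
        simp only [mem_iUnion, mem_singleton_iff, exists_prop]
        exact ⟨l, Finset.mem_range.2 hl, i, Finset.mem_univ i, rfl⟩)) n hn
      simp_rw [hB'] at h1
      have hmpi : ∀ j, MeasurePreserving ((pw s S' : X × ℝ → X × ℝ)^[ps n j]) (μ.prod lam) (μ.prod lam) := fun j =>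
        (pw_mp s S' _ hS'.1).iterate _
      have hLB : ∀ j, MeasurableSet (LS m1 (B j)) := fun j => LS_meas _ _ (hBm j)
      have h2 : |(μ.prod lam).real (⋂ j, ((pw s S' : X × ℝ → X × ℝ)^[ps n j]) ⁻¹' A j) -
          (μ.prod lam).real (⋂ j, ((pw s S' : X × ℝ → X × ℝ)^[ps n j]) ⁻¹' LS m1 (B j))| ≤ ε / 4 := by
        refine le_trans (real_inter_diff _ _ _ (fun j => (hmpi j).measurable (hA j))
          (fun j => (hmpi j).measurable (hLB j))) ?_
        have h3 : ∀ j ∈ (Finset.univ : Finset (Fin (k + 1))),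
            (μ.prod lam).real ((((pw s S' : X × ℝ → X × ℝ)^[ps n j]) ⁻¹' A j) ∆
            (((pw s S' : X × ℝ → X × ℝ)^[ps n j]) ⁻¹' LS m1 (B j))) ≤ ε / (4 * (k + 1)) := by
          intro j _
          rw [← preimage_symmDiff, mp_real' (hmpi j) ((hA j).symmDiff (hLB j))]
          exact (hB j).le
        refine le_trans (Finset.sum_le_sum h3) ?_
        rw [Finset.sum_const, Finset.card_univ, Fintype.card_fin, nsmul_eq_mul]
        apply le_of_eq
        push_cast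
        field_simp
      have h4 : |∏ j, (μ.prod lam).real (A j) - ∏ j, (μ.prod lam).real (LS m1 (B j))| ≤ ε / 4 := by
        refine le_trans (prod_sub_le _ _ _ (fun j => measureReal_nonneg) (fun j => measureReal_le_one)
          (fun j => measureReal_nonneg) (fun j => measureReal_le_one)) ?_
        have h3 : ∀ j ∈ (Finset.univ : Finset (Fin (k + 1))),
            |(μ.prod lam).real (A j) - (μ.prod lam).real (LS m1 (B j))| ≤ ε / (4 * (k + 1)) := by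
          intro j _
          have h5 := real_inter_diff (μ.prod lam) (ι := Unit) (fun _ => A j) (fun _ => LS m1 (B j))
            (fun _ => hA j) (fun _ => hLB j)
          simp only [iInter_const, Finset.univ_unique, Finset.sum_singleton] at h5
          exact le_trans h5 (hB j).le
        refine le_trans (Finset.sum_le_sum h3) ?_
        rw [Finset.sum_const, Finset.card_univ, Fintype.card_fin, nsmul_eq_mul]
        apply le_of_eq
        push_cast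
        field_simp
      have h6 := abs_le.1 h1
      have h7 := abs_le.1 h2
      have h8 := abs_le.1 h4
      rw [abs_le]
      rw [hε0] at h6
      constructor
      · linarith [h6.1, h7.1, h8.2]
      · linarith [h6.2, h7.2, h8.1]

end Pool.H359R3.MX
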