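import Mathlib
import Pool.Agent.H359R3.MX9

set_option autoImplicit false
set_option linter.unusedSectionVars false
set_option linter.unusedVariables false

/-!
Isomorphism theorem: a nonatomic standard probability space is Borel isomorphic, measure
preservingly, to the line with Lebesgue measure on the unit interval.
-/

namespace Pool.H359R3.MX

open MeasureTheory Set Filter Topology ProbabilityTheory
open scoped ENNReal symmDiff
open Pool.H359R3 Pool.H359R3.WH

section cdf

variable (ν : Measure ℝ) [IsProbabilityMeasure ν] [NullSingletonClass ν]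

theorem cdf_cont : Continuous (cdf ν) := by
  rw [continuous_iff_continuousAt]
  intro x
  rw [(monotone_cdf ν).continuousAt_iff_leftLim_eq_rightLim]
  have h1 : (cdf ν).measure {x} = 0 := by
    rw [measure_cdf]
    exact measure_singleton x
  rw [StieltjesFunction.measure_singleton, ENNReal.ofReal_eq_zero] at h1
  have h2 : Function.leftLim (cdf ν) x ≤ cdf ν x := (monotone_cdf ν).leftLim_le le_rfl
  have h3 : Function.rightLim (cdf ν) x = cdf ν x := (cdf ν).rightLim_eq x
  rw [h3]
  linarith

theorem flat_null (q : ℝ) : ν {x | q < x ∧ cdf ν x = cdf ν q} = 0 := by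
  have hsub : {x | q < x ∧ cdf ν x = cdf ν q} ⊆
      {sSup {x | q < x ∧ cdf ν x = cdf ν q}} ∪ ⋃ r : ℚ, (if cdf ν r = cdf ν q then Ioc q (r : ℝ) else ∅) := by
    intro x hx
    by_cases hmax : ∃ y, x < y ∧ q < y ∧ cdf ν y = cdf ν q
    · obtain ⟨y, hxy, hqy, hy⟩ := hmax
      obtain ⟨r, hxr, hry⟩ := exists_rat_btwn hxy
      right
      rw [mem_iUnion]
      refine ⟨r, ?_⟩
      have h1 : cdf ν r = cdf ν q := by
        apply le_antisymm
        · rw [← hy]
          exact monotone_cdf ν hry.le
        · exact monotone_cdf ν (hx.1.trans hxr).le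
      rw [if_pos h1]
      exact ⟨hx.1, hxr.le⟩
    · left
      rw [mem_singleton_iff]
      push Not at hmax
      apply le_antisymm
      · apply le_csSup _ hx
        refine ⟨x, fun y hy => ?_⟩
        by_contra hc
        push Not at hc
        exact hmax y hc hy.1 hy.2
      · apply csSup_le ⟨x, hx⟩
        intro y hy
        by_contra hc
        push Not at hc
        exact hmax y hc hy.1 hy.2
  refine measure_mono_null hsub ?_
  rw [measure_union_null_iff, measure_iUnion_null_iff]
  refine ⟨measure_singleton _, fun r => ?_⟩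
  split_ifs with h
  · have h1 := (cdf ν).measure_Ioc q r
    rw [measure_cdf, h, sub_self, ENNReal.ofReal_zero] at h1
    exact h1
  · exact measure_empty

theorem cdf_map : MeasurePreserving (cdf ν) ν lam := by
  have hmeas : Measurable (cdf ν) := (monotone_cdf ν).measurable
  refine ⟨hmeas, ?_⟩
  have : IsProbabilityMeasure (ν.map (cdf ν)) := Measure.isProbabilityMeasure_map hmeas.aemeasurable
  have hlamIic : ∀ t : ℝ, 0 ≤ t → t ≤ 1 → lam (Iic t) = ENNReal.ofReal t := by
    intro t h0 h1
    rw [Measure.restrict_apply measurableSet_Iic]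
    have : Iic t ∩ Icc (0:ℝ) 1 = Icc 0 t := by
      ext x
      simp only [mem_inter_iff, mem_Iic, mem_Icc]
      constructor
      · rintro ⟨h2, h3, _⟩; exact ⟨h3, h2⟩
      · rintro ⟨h2, h3⟩; exact ⟨h3, h2, h3.trans h1⟩
    rw [this, Real.volume_Icc, sub_zero]
  have hmid : ∀ t : ℝ, 0 < t → t < 1 → ν {x | cdf ν x ≤ t} = ENNReal.ofReal t := by
    intro t h0 h1
    have hlo : ∃ a, cdf ν a ≤ t := ((tendsto_cdf_atBot ν).eventually (ge_mem_nhds h0)).exists
    have hhi : ∃ b, t ≤ cdf ν b := ((tendsto_cdf_atTop ν).eventually (le_mem_nhds h1)).exists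
    obtain ⟨c, hc⟩ := mem_range_of_exists_le_of_exists_ge (cdf_cont ν) hlo hhi
    have h2 : {x | cdf ν x ≤ t} = Iic c ∪ {x | c < x ∧ cdf ν x = cdf ν c} := by
      ext x
      simp only [mem_union, mem_Iic, mem_ofPred_eq]
      constructor
      · intro hx
        rcases le_or_gt x c with h | h
        · exact Or.inl h
        · refine Or.inr ⟨h, le_antisymm ?_ (monotone_cdf ν h.le)⟩
          rw [hc]; exact hx
      · rintro (h | ⟨_, h⟩)
        · rw [← hc]; exact monotone_cdf ν h
        · rw [h, hc]
    rw [h2]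
    have h3 : ν (Iic c ∪ {x | c < x ∧ cdf ν x = cdf ν c}) = ν (Iic c) := by
      apply le_antisymm
      · refine le_trans (measure_union_le _ _) ?_
        rw [flat_null ν c, add_zero]
      · exact measure_mono subset_union_left
    rw [h3, ← ofReal_cdf, hc]
  apply Measure.ext_of_Iic
  intro t
  rw [Measure.map_apply hmeas measurableSet_Iic]
  show ν {x | cdf ν x ≤ t} = lam (Iic t)
  rcases lt_trichotomy t 0 with ht | ht | ht
  · have h1 : {x | cdf ν x ≤ t} = ∅ := by
      ext x
      simp only [mem_ofPred_eq, mem_empty_iff_false, iff_false, not_le]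
      exact lt_of_lt_of_le ht (cdf_nonneg ν x)
    have h2 : Iic t ∩ Icc (0:ℝ) 1 = ∅ := by
      ext x
      simp only [mem_inter_iff, mem_Iic, mem_Icc, mem_empty_iff_false, iff_false]
      rintro ⟨h3, h4, _⟩
      linarith
    rw [h1, Measure.restrict_apply measurableSet_Iic, h2, measure_empty, measure_empty]
  · subst ht
    rw [hlamIic 0 le_rfl zero_le_one, ENNReal.ofReal_zero]
    refine le_antisymm ?_ zero_le
    apply ENNReal.le_of_forall_pos_le_add
    intro ε hε _
    rw [zero_add]
    have hε' : (0:ℝ) < min (ε : ℝ) (1 / 2) := lt_min (by exact_mod_cast hε) (by norm_num)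
    calc ν {x | cdf ν x ≤ 0} ≤ ν {x | cdf ν x ≤ min (ε : ℝ) (1 / 2)} :=
          measure_mono (fun x hx => le_trans hx hε'.le)
      _ = ENNReal.ofReal (min (ε : ℝ) (1 / 2)) := hmid _ hε' (lt_of_le_of_lt (min_le_right _ _) (by norm_num))
      _ ≤ ENNReal.ofReal (ε : ℝ) := ENNReal.ofReal_le_ofReal (min_le_left _ _)
      _ = ε := ENNReal.ofReal_coe_nnreal
  · rcases lt_or_ge t 1 with h1 | h1
    · rw [hmid t ht h1, hlamIic t ht.le h1.le]
    · have h2 : {x | cdf ν x ≤ t} = univ := by
        ext x
        simp only [mem_ofPred_eq, mem_univ, iff_true]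
        exact le_trans (cdf_le_one ν x) h1
      have h3 : Iic t ∩ Icc (0:ℝ) 1 = Icc 0 1 := by
        ext x
        simp only [mem_inter_iff, mem_Iic, mem_Icc]
        constructor
        · exact fun h => h.2
        · exact fun h => ⟨h.2.trans h1, h⟩
      rw [h2, measure_univ, Measure.restrict_apply measurableSet_Iic, h3, Real.volume_Icc]
      simp

end cdf

variable {Y : Type*} [MeasurableSpace Y] [StandardBorelSpace Y] (ν : Measure Y) [IsProbabilityMeasure ν]

theorem realize_gen (N0 : Set Y) (hN0m : MeasurableSet N0) (hN0 : ν N0 = 0) (hN0c : ¬ N0.Countable)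
    (T : Y → ℝ) (hT : Measurable T) (hmp : MeasurePreserving T ν lam)
    (X0 : Set Y) (hX0 : MeasurableSet X0) (hX0c : ν X0ᶜ = 0) (hinj : InjOn T X0) :
    ∃ e : Y ≃ᵐ ℝ, MeasurePreserving e ν lam := by
  classical
  let X1 : Set Y := X0 ∩ N0ᶜ ∩ T ⁻¹' (Icc (0:ℝ) 1)
  have hX1m : MeasurableSet X1 := (hX0.inter hN0m.compl).inter (hT measurableSet_Icc)
  have hI : lam (Icc (0:ℝ) 1)ᶜ = 0 := by
    rw [Measure.restrict_apply measurableSet_Icc.compl]
    simp
  have hX1c : ν X1ᶜ = 0 := by
    have : X1ᶜ ⊆ X0ᶜ ∪ N0 ∪ T ⁻¹' (Icc (0:ℝ) 1)ᶜ := by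
      intro x hx
      by_contra h
      apply hx
      simp only [mem_union, mem_compl_iff, not_or, not_not, mem_preimage] at h
      exact ⟨⟨h.1.1, h.1.2⟩, h.2⟩
    refine measure_mono_null this ?_
    rw [measure_union_null_iff, measure_union_null_iff]
    refine ⟨⟨hX0c, hN0⟩, ?_⟩
    rw [hmp.measure_preimage measurableSet_Icc.compl.nullMeasurableSet]
    exact hI
  let f : X1 → ℝ := fun x => T x
  have hf : Measurable f := hT.comp measurable_subtype_coe
  have hfi : Function.Injective f := by
    intro x y h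
    exact Subtype.ext (hinj x.2.1.1 y.2.1.1 h)
  have : StandardBorelSpace X1 := hX1m.standardBorel
  have hemb : MeasurableEmbedding f := hf.measurableEmbedding hfi
  have hY1m : MeasurableSet (range f) := hemb.measurableSet_range
  have : StandardBorelSpace ((X1)ᶜ : Set Y) := hX1m.compl.standardBorel
  have : StandardBorelSpace ((range f)ᶜ : Set ℝ) := hY1m.compl.standardBorel
  have hn1 : ¬ Countable ((X1)ᶜ : Set Y) := by
    intro hc
    have h1 : (X1ᶜ : Set Y).Countable := hc
    have h2 : N0 ⊆ X1ᶜ := by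
      intro x hx h
      exact h.1.2 hx
    exact hN0c (h1.mono h2)
  have hn2 : ¬ Countable ((range f)ᶜ : Set ℝ) := by
    intro hc
    have h1 : ((range f)ᶜ : Set ℝ).Countable := hc
    have h2 : (Ioo (1:ℝ) 2).Countable := h1.mono (by
      intro x hx
      rw [mem_compl_iff]
      rintro ⟨y, rfl⟩
      have h3 : f y ≤ 1 := y.2.2.2
      have h4 : 1 < f y := hx.1
      linarith)
    have := h2.measure_zero (volume : Measure ℝ)
    rw [Real.volume_Ioo] at this
    norm_num at this
  let e1 : X1 ≃ᵐ range f :=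
    { toEquiv := Equiv.ofInjective f hfi
      measurable_toFun := hf.subtype_mk
      measurable_invFun := by
        intro u hu
        have h1 : (Equiv.ofInjective f hfi).symm ⁻¹' u = Subtype.val ⁻¹' (f '' u) := by
          ext y
          constructor
          · intro hy
            refine ⟨_, hy, ?_⟩
            exact Equiv.apply_ofInjective_symm hfi y
          · rintro ⟨x, hx, hxy⟩
            have : y = Equiv.ofInjective f hfi x := Subtype.ext hxy.symm
            rw [this]
            simpa using hx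
        show MeasurableSet ((Equiv.ofInjective f hfi).symm ⁻¹' u)
        rw [h1]
        exact measurable_subtype_coe (hemb.measurableSet_image' hu) }
  let e2 : ((X1)ᶜ : Set Y) ≃ᵐ ((range f)ᶜ : Set ℝ) :=
    PolishSpace.measurableEquivOfNotCountable hn1 hn2
  let e : Y ≃ᵐ ℝ := (MeasurableEquiv.sumCompl hX1m).symm.trans
    ((MeasurableEquiv.sumCongr e1 e2).trans (MeasurableEquiv.sumCompl hY1m))
  have he : ∀ x ∈ X1, e x = T x := by
    intro x hx
    show (MeasurableEquiv.sumCompl hY1m) ((MeasurableEquiv.sumCongr e1 e2)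
      ((MeasurableEquiv.sumCompl hX1m).symm x)) = T x
    have h1 : (MeasurableEquiv.sumCompl hX1m).symm x = Sum.inl ⟨x, hx⟩ := by
      rw [MeasurableEquiv.symm_apply_eq]
      rfl
    rw [h1]
    rfl
  have hae : ∀ᵐ x ∂ν, e x = T x := by
    rw [ae_iff]
    refine measure_mono_null (fun x hx => ?_) hX1c
    intro hx1
    exact hx (he x hx1)
  refine ⟨e, e.measurable, ?_⟩
  rw [Measure.map_congr hae]
  exact hmp.map_eq

theorem not_countable_of_prob [NullSingletonClass ν] : ¬ Countable Y := by
  intro h
  have h1 : (univ : Set Y).Countable := countable_univ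
  have h2 := h1.measure_zero ν
  rw [measure_univ] at h2
  exact one_ne_zero h2

theorem real_not_countable : ¬ Countable ℝ := by
  intro h
  have h1 : (univ : Set ℝ).Countable := countable_univ
  exact Cardinal.not_countable_real h1

theorem exists_null [NullSingletonClass ν] : ∃ N0 : Set Y, MeasurableSet N0 ∧ ν N0 = 0 ∧ ¬ N0.Countable := by
  have hprod : ¬ Countable (ℝ × ℝ) := by
    intro h
    apply real_not_countable
    exact Function.Injective.countable (f := fun x : ℝ => (x, (0:ℝ))) (fun a b h => congrArg Prod.fst h)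
  let e := PolishSpace.measurableEquivOfNotCountable (not_countable_of_prob ν) hprod
  let A : ℝ → Set Y := fun i => e ⁻¹' ({i} ×ˢ univ)
  have hA : ∀ i, MeasurableSet (A i) := fun i => e.measurable ((measurableSet_singleton i).prod MeasurableSet.univ)
  have hdisj : Pairwise (Function.onFun Disjoint A) := by
    intro i j hij
    rw [Function.onFun, Set.disjoint_left]
    rintro y ⟨h1, _⟩ ⟨h2, _⟩
    exact hij (h1.symm.trans h2)
  have h1 := Measure.countable_meas_pos_of_disjoint_iUnion (μ := ν) hA hdisj
  obtain ⟨i, hi⟩ : ∃ i, ν (A i) = 0 := by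
    by_contra hcon
    push Not at hcon
    have h2 : {i : ℝ | 0 < ν (A i)} = univ := by
      ext i
      simp only [mem_ofPred_eq, mem_univ, iff_true]
      exact pos_iff_ne_zero.2 (hcon i)
    rw [h2] at h1
    exact Cardinal.not_countable_real h1
  refine ⟨A i, hA i, hi, ?_⟩
  intro hc
  apply Cardinal.not_countable_real
  have h3 : ((fun t : ℝ => e.symm (i, t)) ⁻¹' (A i)).Countable :=
    hc.preimage (fun a b h => by
      have := e.symm.injective h
      exact congrArg Prod.snd this)
  refine h3.mono (fun t _ => ?_)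
  show e (e.symm (i, t)) ∈ ({i} ×ˢ univ : Set (ℝ × ℝ))
  rw [e.apply_symm_apply]
  exact ⟨rfl, mem_univ _⟩

/-- isomorphism theorem -/
theorem exists_iso [NullSingletonClass ν] : ∃ e : Y ≃ᵐ ℝ, MeasurePreserving e ν lam := by
  obtain ⟨N0, hN0m, hN0, hN0c⟩ := exists_null ν
  let e1 : Y ≃ᵐ ℝ := PolishSpace.measurableEquivOfNotCountable (not_countable_of_prob ν) real_not_countable
  set ν1 : Measure ℝ := ν.map e1 with hν1
  have : IsProbabilityMeasure ν1 := Measure.isProbabilityMeasure_map e1.measurable.aemeasurable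
  have : NullSingletonClass ν1 := by
    refine ⟨fun x => ?_⟩
    rw [hν1, e1.map_apply]
    have : e1 ⁻¹' {x} = {e1.symm x} := by
      ext y
      simp only [mem_preimage, mem_singleton_iff]
      constructor
      · intro h; rw [← h, e1.symm_apply_apply]
      · intro h; rw [h, e1.apply_symm_apply]
    rw [this]
    exact measure_singleton _
  have hmp1 : MeasurePreserving e1 ν ν1 := ⟨e1.measurable, rfl⟩
  have hmp : MeasurePreserving (cdf ν1 ∘ e1) ν lam := (cdf_map ν1).comp hmp1
  have hcm : Measurable (cdf ν1) := (monotone_cdf ν1).measurable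
  set Bad : Set ℝ := ⋃ q : ℚ, {x | (q : ℝ) < x ∧ cdf ν1 x = cdf ν1 q} with hBad
  have hBadm : MeasurableSet Bad := MeasurableSet.iUnion (fun q =>
    measurableSet_Ioi.inter (hcm (measurableSet_singleton _)))
  have hBad0 : ν1 Bad = 0 := by
    rw [hBad, measure_iUnion_null_iff]
    exact fun q => flat_null ν1 q
  refine realize_gen ν N0 hN0m hN0 hN0c (cdf ν1 ∘ e1) hmp.measurable hmp (e1 ⁻¹' Badᶜ) (e1.measurable hBadm.compl) ?_ ?_
  · rw [← preimage_compl, compl_compl, hmp1.measure_preimage hBadm.nullMeasurableSet]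
    exact hBad0
  · have key : ∀ x y : ℝ, x < y → y ∉ Bad → cdf ν1 x ≠ cdf ν1 y := by
      intro x y hxy hy heq
      obtain ⟨q, hq1, hq2⟩ := exists_rat_btwn hxy
      apply hy
      rw [hBad, mem_iUnion]
      refine ⟨q, hq2, ?_⟩
      apply le_antisymm
      · rw [← heq]
        exact monotone_cdf ν1 hq1.le
      · exact monotone_cdf ν1 hq2.le
    intro a ha b hb hab
    have hab' : cdf ν1 (e1 a) = cdf ν1 (e1 b) := hab
    rcases lt_trichotomy (e1 a) (e1 b) with h | h | h
    · exact absurd hab' (key _ _ h hb)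
    · exact e1.injective h
    · exact absurd hab'.symm (key _ _ h ha)

end Pool.H359R3.MX
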