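import Mathlib
import Pool.Agent.H359R3.MX10

set_option autoImplicit false
set_option linter.unusedSectionVars false
set_option linter.unusedVariables false

/-!
Infinite measure: the half line, interval exchanges given by permutations of the natural numbers.
-/

namespace Pool.H359R3.IX

open MeasureTheory Set Filter Topology
open scoped ENNReal symmDiff
open Pool.H359R3 Pool.H359R3.WH

/-- Lebesgue measure on the half line -/
noncomputable abbrev mu : Measure ℝ := volume.restrict (Set.Ici (0:ℝ))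

/-- measure preserving Borel automorphisms -/
abbrev Au : Type := {e : ℝ ≃ᵐ ℝ // MeasurePreserving (⇑e) mu mu}

theorem mem_Ik' (K : ℕ) (hK : 0 < K) (k : ℕ) (x : ℝ) : x ∈ Ik K k ↔ 0 ≤ x ∧ fl K x = k := by
  have h0 : (0 : ℝ) < K := by exact_mod_cast hK
  unfold Ik
  constructor
  · rintro ⟨h1, h2⟩
    have hx : 0 ≤ x := le_trans (by positivity) h1
    exact ⟨hx, (fl_iff K hK x hx k).2 ⟨h1, h2⟩⟩
  · rintro ⟨h1, h2⟩
    exact (fl_iff K hK x h1 k).1 h2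

noncomputable def rpf (K : ℕ) (σ : Equiv.Perm ℕ) (x : ℝ) : ℝ :=
  if 0 ≤ x then x + (((σ (fl K x) : ℕ) : ℝ) - ((fl K x : ℕ) : ℝ)) / K else x

theorem rpf_pos (K : ℕ) (σ : Equiv.Perm ℕ) (x : ℝ) (hx : 0 ≤ x) :
    rpf K σ x = x + (((σ (fl K x) : ℕ) : ℝ) - ((fl K x : ℕ) : ℝ)) / K := if_pos hx

theorem rpf_neg (K : ℕ) (σ : Equiv.Perm ℕ) (x : ℝ) (hx : ¬ 0 ≤ x) : rpf K σ x = x := if_neg hx

theorem shift_Ik (K : ℕ) (hK : 0 < K) (a b : ℕ) (x : ℝ) :
    x ∈ Ik K a ↔ x + ((b : ℝ) - (a : ℝ)) / K ∈ Ik K b := by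
  have h0 : (0 : ℝ) < K := by exact_mod_cast hK
  unfold Ik
  rw [mem_Ico, mem_Ico, div_le_iff₀ h0, lt_div_iff₀ h0, div_le_iff₀ h0, lt_div_iff₀ h0, add_mul,
    div_mul_cancel₀ _ h0.ne']
  constructor
  · rintro ⟨h3, h4⟩; constructor <;> linarith
  · rintro ⟨h3, h4⟩; constructor <;> linarith

theorem rpf_mem (K : ℕ) (hK : 0 < K) (σ : Equiv.Perm ℕ) (x : ℝ) (hx : 0 ≤ x) :
    0 ≤ rpf K σ x ∧ fl K (rpf K σ x) = σ (fl K x) := by
  have h1 : x ∈ Ik K (fl K x) := (mem_Ik' K hK _ x).2 ⟨hx, rfl⟩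
  rw [shift_Ik K hK _ (σ (fl K x)), ← rpf_pos K σ x hx] at h1
  exact (mem_Ik' K hK _ _).1 h1

theorem rpf_comp (K : ℕ) (hK : 0 < K) (σ ρ : Equiv.Perm ℕ) (x : ℝ) :
    rpf K σ (rpf K ρ x) = rpf K (σ * ρ) x := by
  by_cases hx : 0 ≤ x
  · obtain ⟨h1, h2⟩ := rpf_mem K hK ρ x hx
    rw [rpf_pos K σ _ h1, h2, rpf_pos K ρ _ hx, rpf_pos K _ _ hx, Equiv.Perm.mul_apply]
    ring
  · rw [rpf_neg K ρ x hx, rpf_neg K σ x hx, rpf_neg K _ x hx]

theorem rpf_one (K : ℕ) (x : ℝ) : rpf K 1 x = x := by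
  unfold rpf
  split_ifs <;> simp

theorem rpf_meas (K : ℕ) (σ : Equiv.Perm ℕ) : Measurable (rpf K σ) := by
  unfold rpf
  apply Measurable.ite measurableSet_Ici
  · apply Measurable.add measurable_id
    apply Measurable.div_const
    apply Measurable.sub
    · exact (measurable_of_countable (fun k : ℕ => ((σ k : ℕ) : ℝ))).comp (fl_meas K)
    · exact (measurable_of_countable (fun k : ℕ => ((k : ℕ) : ℝ))).comp (fl_meas K)
  · exact measurable_id

theorem mu_split (K : ℕ) (hK : 0 < K) (A : Set ℝ) (hA : MeasurableSet A) :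
    mu A = ∑' k : ℕ, volume (A ∩ Ik K k) := by
  rw [Measure.restrict_apply hA]
  have h1 : A ∩ Ici (0 : ℝ) = ⋃ k : ℕ, A ∩ Ik K k := by
    ext x
    simp only [mem_inter_iff, mem_iUnion]
    constructor
    · rintro ⟨h1, h2⟩
      exact ⟨fl K x, h1, (mem_Ik' K hK _ x).2 ⟨h2, rfl⟩⟩
    · rintro ⟨k, h1, h2⟩
      exact ⟨h1, ((mem_Ik' K hK _ x).1 h2).1⟩
  rw [h1, measure_iUnion]
  · intro i j hij
    rw [Function.onFun, Set.disjoint_left]
    rintro x ⟨_, h2⟩ ⟨_, h3⟩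
    rw [mem_Ik' K hK] at h2 h3
    exact hij (h2.2.symm.trans h3.2)
  · intro k
    exact hA.inter measurableSet_Ico

theorem rpf_mp (K : ℕ) (hK : 0 < K) (σ : Equiv.Perm ℕ) : MeasurePreserving (rpf K σ) mu mu := by
  refine ⟨rpf_meas K σ, ?_⟩
  ext A hA
  rw [Measure.map_apply (rpf_meas K σ) hA, mu_split K hK _ (rpf_meas K σ hA), mu_split K hK _ hA]
  have h1 : ∀ k : ℕ, volume (rpf K σ ⁻¹' A ∩ Ik K k) = volume (A ∩ Ik K (σ k)) := by
    intro k
    have h2 : rpf K σ ⁻¹' A ∩ Ik K k =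
        (fun x => x + (((σ k : ℕ) : ℝ) - ((k : ℕ) : ℝ)) / K) ⁻¹' (A ∩ Ik K (σ k)) := by
      ext x
      simp only [mem_inter_iff, mem_preimage]
      rw [← shift_Ik K hK k (σ k) x]
      constructor
      · rintro ⟨h3, h4⟩
        refine ⟨?_, h4⟩
        have h5 := (mem_Ik' K hK _ x).1 h4
        rwa [rpf_pos K σ x h5.1, h5.2] at h3
      · rintro ⟨h3, h4⟩
        refine ⟨?_, h4⟩
        have h5 := (mem_Ik' K hK _ x).1 h4
        rwa [rpf_pos K σ x h5.1, h5.2]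
    rw [h2, measure_preimage_add_right]
  simp_rw [h1]
  exact Equiv.tsum_eq σ (fun k : ℕ => volume (A ∩ Ik K k))

/-- realization as an automorphism; `K + 1` cells per unit -/
noncomputable def rp (K : ℕ) (hK : 0 < K) (σ : Equiv.Perm ℕ) : Au :=
  ⟨{ toFun := rpf K σ
     invFun := rpf K σ⁻¹
     left_inv := fun x => by rw [rpf_comp K hK, inv_mul_cancel, rpf_one]
     right_inv := fun x => by rw [rpf_comp K hK, mul_inv_cancel, rpf_one]
     measurable_toFun := rpf_meas K σ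
     measurable_invFun := rpf_meas K σ⁻¹ }, rpf_mp K hK σ⟩

theorem rp_apply (K : ℕ) (hK : 0 < K) (σ : Equiv.Perm ℕ) (x : ℝ) : (rp K hK σ).1 x = rpf K σ x := rfl

theorem rp_symm_apply (K : ℕ) (hK : 0 < K) (σ : Equiv.Perm ℕ) (x : ℝ) :
    (rp K hK σ).1.symm x = rpf K σ⁻¹ x := rfl

theorem ae_nonneg : ∀ᵐ x ∂mu, (0:ℝ) ≤ x := by
  rw [ae_iff]
  have : {a : ℝ | ¬ 0 ≤ a} = (Ici (0:ℝ))ᶜ := by ext x; simp
  rw [this, Measure.restrict_apply measurableSet_Ici.compl, compl_inter_self, measure_empty]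

theorem mu_Ik (K : ℕ) (hK : 0 < K) (k : ℕ) : mu (Ik K k) = ENNReal.ofReal (1 / K) := by
  have h0 : (0 : ℝ) < K := by exact_mod_cast hK
  have h1 : Ik K k ∩ Ici (0:ℝ) = Ik K k := by
    ext x
    rw [mem_inter_iff, mem_Ik' K hK]
    simp only [mem_Ici]
    tauto
  rw [Measure.restrict_apply (show MeasurableSet (Ik K k) from measurableSet_Ico), h1]
  unfold Ik
  rw [Real.volume_Ico]
  congr 1
  field_simp
  ring

theorem mu_Ico (N : ℕ) : mu (Ico (0:ℝ) N) = ENNReal.ofReal N := by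
  have h1 : Ico (0:ℝ) N ∩ Ici (0:ℝ) = Ico (0:ℝ) N := by
    ext x
    simp only [mem_inter_iff, mem_Ico, mem_Ici]
    tauto
  rw [Measure.restrict_apply measurableSet_Ico, h1, Real.volume_Ico, sub_zero]

/-- measure of a finite union of cells -/
theorem mu_cells (K : ℕ) (hK : 0 < K) (B : Finset ℕ) :
    mu {x | 0 ≤ x ∧ fl K x ∈ B} = ENNReal.ofReal ((B.card : ℝ) / K) := by
  have h1 : {x : ℝ | 0 ≤ x ∧ fl K x ∈ B} = ⋃ k ∈ B, Ik K k := by
    ext x
    simp only [mem_ofPred_eq, mem_iUnion, exists_prop]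
    constructor
    · rintro ⟨h1, h2⟩
      exact ⟨fl K x, h2, (mem_Ik' K hK _ x).2 ⟨h1, rfl⟩⟩
    · rintro ⟨k, hk, hx⟩
      rw [mem_Ik' K hK] at hx
      exact ⟨hx.1, hx.2 ▸ hk⟩
  rw [h1, measure_biUnion_finset]
  · rw [Finset.sum_congr rfl (fun k _ => mu_Ik K hK k), Finset.sum_const, nsmul_eq_mul,
      ← ENNReal.ofReal_natCast, ← ENNReal.ofReal_mul (by positivity)]
    congr 1
    ring
  · intro i _ j _ hij
    rw [Function.onFun, Set.disjoint_left]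
    intro x h2 h3
    rw [mem_Ik' K hK] at h2 h3
    exact hij (h2.2.symm.trans h3.2)
  · intro k _
    exact measurableSet_Ico

end Pool.H359R3.IX
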