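import Mathlib
import Pool.Agent.H359R3.IX1

set_option autoImplicit false
set_option linter.unusedSectionVars false
set_option linter.unusedVariables false

/-!
Infinite measure: the weak topology on the automorphism group.
-/

namespace Pool.H359R3.IX

open MeasureTheory Set Filter Topology
open scoped ENNReal symmDiff
open Pool.H359R3 Pool.H359R3.WH

section gen

variable {X : Type*} [MeasurableSpace X] (μ : Measure X)

/-- the weak topology -/
noncomputable abbrev wt : TopologicalSpace {e : X ≃ᵐ X // MeasurePreserving (⇑e) μ μ} :=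
  ⨅ (A : Set X) (B : Set X) (_ : MeasurableSet A) (_ : MeasurableSet B) (_ : μ A < ∞) (_ : μ B < ∞),
    TopologicalSpace.induced
      (fun T : {e : X ≃ᵐ X // MeasurePreserving (⇑e) μ μ} => μ (symmDiff (T.1 ⁻¹' A) B)) inferInstance

variable {μ}

theorem sd_tri (s t u : Set X) : μ (s ∆ u) ≤ μ (s ∆ t) + μ (t ∆ u) := by
  refine le_trans (measure_mono ?_) (measure_union_le _ _)
  intro x hx
  simp only [Set.mem_symmDiff, mem_union] at hx ⊢
  tauto

theorem mp_symm (T : {e : X ≃ᵐ X // MeasurePreserving (⇑e) μ μ}) :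
    MeasurePreserving (⇑T.1.symm) μ μ := MeasurePreserving.symm T.1 T.2

theorem pre_sd {f : X → X} (hf : MeasurePreserving f μ μ) (s t : Set X) (hs : MeasurableSet s)
    (ht : MeasurableSet t) : μ ((f ⁻¹' s) ∆ (f ⁻¹' t)) = μ (s ∆ t) := by
  rw [← preimage_symmDiff, hf.measure_preimage (hs.symmDiff ht).nullMeasurableSet]

theorem symm_sd (T : {e : X ≃ᵐ X // MeasurePreserving (⇑e) μ μ}) (s t : Set X) (hs : MeasurableSet s)
    (ht : MeasurableSet t) : μ ((T.1.symm ⁻¹' s) ∆ t) = μ (s ∆ (T.1 ⁻¹' t)) := by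
  rw [← pre_sd T.2 _ _ (T.1.symm.measurable hs) ht]
  congr 2
  ext x
  simp

theorem symm_sd' (T : {e : X ≃ᵐ X // MeasurePreserving (⇑e) μ μ}) (s t : Set X) (hs : MeasurableSet s)
    (ht : MeasurableSet t) : μ ((T.1.symm ⁻¹' s) ∆ t) = μ ((T.1 ⁻¹' t) ∆ s) := by
  rw [symm_sd T s t hs ht, symmDiff_comm]

theorem wt_cont (A B : Set X) (hA : MeasurableSet A) (hB : MeasurableSet B) (hA' : μ A < ∞) (hB' : μ B < ∞) :
    @Continuous _ ℝ≥0∞ (wt μ) _ (fun T : {e : X ≃ᵐ X // MeasurePreserving (⇑e) μ μ} => μ ((T.1 ⁻¹' A) ∆ B)) := by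
  rw [continuous_iff_le_induced]
  exact iInf_le_of_le A (iInf_le_of_le B (iInf_le_of_le hA (iInf_le_of_le hB
    (iInf_le_of_le hA' (iInf_le_of_le hB' le_rfl)))))

/-- data: a countable dense family of sets of finite measure -/
structure DF (μ : Measure X) where
  C : ℕ → Set X
  meas : ∀ i, MeasurableSet (C i)
  fin : ∀ i, μ (C i) < ∞
  dense : ∀ A, MeasurableSet A → μ A < ∞ → ∀ ε : ℝ≥0∞, 0 < ε → ∃ i, μ (A ∆ C i) < ε

theorem exists_DF (μ : Measure X) [SigmaFinite μ] [MeasurableSpace.CountablyGenerated X] : Nonempty (DF μ) := by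
  obtain ⟨𝒜, hc, hd⟩ := exists_countable_measureDense (μ := μ)
  have hne : ∃ s ∈ 𝒜, μ s < ∞ := by
    obtain ⟨t, ht, hlt⟩ := hd.approx ∅ MeasurableSet.empty (by simp) 1 one_pos
    refine ⟨t, ht, ?_⟩
    have : (∅ : Set X) ∆ t = t := by ext x; simp [Set.mem_symmDiff]
    rw [this] at hlt
    exact lt_of_lt_of_le hlt le_top
  have hc' : ({s | s ∈ 𝒜 ∧ μ s < ∞} : Set (Set X)).Countable := hc.mono (fun s hs => hs.1)
  obtain ⟨D, hD⟩ := hc'.exists_eq_range (by obtain ⟨s, h1, h2⟩ := hne; exact ⟨s, h1, h2⟩)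
  have hD' : ∀ i, D i ∈ 𝒜 ∧ μ (D i) < ∞ := by
    intro i
    have : D i ∈ {s | s ∈ 𝒜 ∧ μ s < ∞} := by rw [hD]; exact mem_range_self i
    exact this
  refine ⟨⟨D, fun i => hd.measurable _ (hD' i).1, fun i => (hD' i).2, ?_⟩⟩
  intro A hA hA' ε hε
  obtain ⟨δ, hδ, hδε⟩ : ∃ δ : ℝ, 0 < δ ∧ ENNReal.ofReal δ ≤ ε := by
    by_cases h : ε = ∞
    · exact ⟨1, one_pos, by rw [h]; exact le_top⟩
    · exact ⟨ε.toReal, ENNReal.toReal_pos hε.ne' h, by rw [ENNReal.ofReal_toReal h]⟩
  obtain ⟨t, ht, hlt⟩ := hd.approx A hA hA'.ne δ hδ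
  have hfin : μ t < ∞ := by
    have h1 : t ⊆ A ∪ (A ∆ t) := by
      intro x hx
      by_cases h : x ∈ A
      · exact Or.inl h
      · exact Or.inr (Or.inr ⟨hx, h⟩)
    refine lt_of_le_of_lt (le_trans (measure_mono h1) (measure_union_le _ _)) ?_
    exact ENNReal.add_lt_top.2 ⟨hA', lt_of_lt_of_le hlt le_top⟩
  have : t ∈ range D := by rw [← hD]; exact ⟨ht, hfin⟩
  obtain ⟨i, rfl⟩ := this
  exact ⟨i, lt_of_lt_of_le hlt hδε⟩

/-- convergence of preimages on a dense family implies convergence on all sets of finite measure -/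
theorem tend_all' (F : DF μ) {β : Type*} (l : Filter β) (f : β → X → X) (g : X → X)
    (hf : ∀ b, MeasurePreserving (f b) μ μ) (hg : MeasurePreserving g μ μ)
    (h : ∀ i, Tendsto (fun b => μ ((f b ⁻¹' F.C i) ∆ (g ⁻¹' F.C i))) l (𝓝 0)) (s : Set X)
    (hs : MeasurableSet s) (hs' : μ s < ∞) :
    Tendsto (fun b => μ ((f b ⁻¹' s) ∆ (g ⁻¹' s))) l (𝓝 0) := by
  rw [ENNReal.tendsto_nhds_zero]
  intro ε hε
  obtain ⟨i, hi⟩ := F.dense s hs hs' (ε / 3) (ENNReal.div_pos hε.ne' (by simp))
  filter_upwards [ENNReal.tendsto_nhds_zero.1 (h i) (ε / 3) (ENNReal.div_pos hε.ne' (by simp))] with b hb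
  refine le_trans (sd_tri _ (f b ⁻¹' F.C i) _) ?_
  refine le_trans (add_le_add le_rfl (sd_tri _ (g ⁻¹' F.C i) _)) ?_
  rw [pre_sd (hf b) _ _ hs (F.meas i), pre_sd hg _ _ (F.meas i) hs, symmDiff_comm (F.C i) s]
  refine le_trans (add_le_add hi.le (add_le_add hb hi.le)) ?_
  rw [← add_assoc, ENNReal.add_thirds]

/-- a measurable set as an element of the measure algebra -/
def mkM (μ : Measure X) (s : Set X) (hs : MeasurableSet s) : MeasuredSets μ := ⟨s, hs⟩

theorem edist_mkM (s t : Set X) (hs : MeasurableSet s) (ht : MeasurableSet t) :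
    edist (mkM μ s hs) (mkM μ t ht) = μ (s ∆ t) := rfl

/-- the basic embedding of the automorphism group -/
noncomputable def io (F : DF μ) (T : {e : X ≃ᵐ X // MeasurePreserving (⇑e) μ μ}) (i : ℕ) :
    MeasuredSets μ × MeasuredSets μ :=
  (mkM μ (T.1 ⁻¹' F.C i) (T.1.measurable (F.meas i)),
    mkM μ (T.1.symm ⁻¹' F.C i) (T.1.symm.measurable (F.meas i)))

noncomputable abbrev un (F : DF μ) : UniformSpace {e : X ≃ᵐ X // MeasurePreserving (⇑e) μ μ} :=
  UniformSpace.comap (io F) inferInstance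

theorem un_cg (F : DF μ) : @Filter.IsCountablyGenerated _
    (@uniformity {e : X ≃ᵐ X // MeasurePreserving (⇑e) μ μ} (un F)) := by
  show Filter.IsCountablyGenerated (Filter.comap
    (fun p : {e : X ≃ᵐ X // MeasurePreserving (⇑e) μ μ} × {e : X ≃ᵐ X // MeasurePreserving (⇑e) μ μ} =>
      (io F p.1, io F p.2))
    (uniformity (ℕ → MeasuredSets μ × MeasuredSets μ)))
  infer_instance

theorem edist_tend {β : Type*} {E : Type*} [PseudoEMetricSpace E] (l : Filter β) (f : β → E) (a : E) :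
    Tendsto f l (𝓝 a) ↔ Tendsto (fun b => edist (f b) a) l (𝓝 0) := tendsto_iff_edist_tendsto_0

/-- convergence in the uniform structure -/
theorem tendsto_un (F : DF μ) {β : Type*} (l : Filter β)
    (T : β → {e : X ≃ᵐ X // MeasurePreserving (⇑e) μ μ}) (S : {e : X ≃ᵐ X // MeasurePreserving (⇑e) μ μ})
    (h : ∀ i, Tendsto (fun b => μ (((T b).1 ⁻¹' F.C i) ∆ (S.1 ⁻¹' F.C i))) l (𝓝 0)) :
    Tendsto T l (@nhds _ (un F).toTopologicalSpace S) := by
  have hall := tend_all' F l (fun b => (T b).1) S.1 (fun b => (T b).2) S.2 h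
  rw [show (@nhds _ (un F).toTopologicalSpace S) = Filter.comap (io F) (𝓝 (io F S)) from
    nhds_induced (io F) S, Filter.tendsto_comap_iff, tendsto_pi_nhds]
  intro i
  refine Filter.Tendsto.prodMk_nhds ?_ ?_
  · rw [edist_tend]
    exact h i
  · rw [edist_tend]
    have hS := S.1.symm.measurable (F.meas i)
    have h1 := hall (S.1.symm ⁻¹' F.C i) hS (by
      rw [(mp_symm S).measure_preimage (F.meas i).nullMeasurableSet]; exact F.fin i)
    refine h1.congr fun b => ?_
    show _ = μ (((T b).1.symm ⁻¹' F.C i) ∆ (S.1.symm ⁻¹' F.C i))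
    rw [symm_sd (T b) _ _ (F.meas i) hS, symmDiff_comm]
    congr 2
    ext x
    simp

theorem of_tendsto_un (F : DF μ) {β : Type*} (l : Filter β)
    (T : β → {e : X ≃ᵐ X // MeasurePreserving (⇑e) μ μ}) (S : {e : X ≃ᵐ X // MeasurePreserving (⇑e) μ μ})
    (h : Tendsto T l (@nhds _ (un F).toTopologicalSpace S)) (s : Set X) (hs : MeasurableSet s) (hs' : μ s < ∞) :
    Tendsto (fun b => μ (((T b).1 ⁻¹' s) ∆ (S.1 ⁻¹' s))) l (𝓝 0) := by
  refine tend_all' F l (fun b => (T b).1) S.1 (fun b => (T b).2) S.2 ?_ s hs hs'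
  intro i
  rw [show (@nhds _ (un F).toTopologicalSpace S) = Filter.comap (io F) (𝓝 (io F S)) from
    nhds_induced (io F) S, Filter.tendsto_comap_iff, tendsto_pi_nhds] at h
  have h1 := (continuous_fst.tendsto _).comp (h i)
  rw [edist_tend] at h1
  exact h1

theorem tend_of_sd {β : Type*} (l : Filter β) (s : β → Set X) (t B : Set X) (ht : μ (t ∆ B) < ∞)
    (h : Tendsto (fun b => μ (s b ∆ t)) l (𝓝 0)) :
    Tendsto (fun b => μ (s b ∆ B)) l (𝓝 (μ (t ∆ B))) := by
  have h1 : Tendsto (fun b => μ (t ∆ B) + μ (s b ∆ t)) l (𝓝 (μ (t ∆ B))) := by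
    have := (tendsto_const_nhds (x := μ (t ∆ B))).add h
    rwa [add_zero] at this
  have h2 : Tendsto (fun b => μ (t ∆ B) - μ (s b ∆ t)) l (𝓝 (μ (t ∆ B))) := by
    have := ENNReal.Tendsto.sub (tendsto_const_nhds (x := μ (t ∆ B))) h (Or.inl ht.ne)
    rwa [tsub_zero] at this
  refine tendsto_of_tendsto_of_tendsto_of_le_of_le h2 h1 ?_ ?_
  · intro b
    show μ (t ∆ B) - μ (s b ∆ t) ≤ μ (s b ∆ B)
    rw [tsub_le_iff_right]
    have := sd_tri (μ := μ) t (s b) B
    rw [symmDiff_comm t (s b), add_comm] at this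
    exact this
  · intro b
    show μ (s b ∆ B) ≤ μ (t ∆ B) + μ (s b ∆ t)
    have := sd_tri (μ := μ) (s b) t B
    rwa [add_comm] at this

theorem sd_lt_top (A B : Set X) (hA : μ A < ∞) (hB : μ B < ∞) : μ (A ∆ B) < ∞ := by
  refine lt_of_le_of_lt (le_trans (measure_mono ?_) (measure_union_le A B)) (ENNReal.add_lt_top.2 ⟨hA, hB⟩)
  intro x hx
  rw [Set.mem_symmDiff] at hx
  rcases hx with h | h
  · exact Or.inl h.1
  · exact Or.inr h.1

theorem wt_eq (F : DF μ) : wt μ = (un F).toTopologicalSpace := by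
  apply le_antisymm
  · have hc : @Continuous _ _ (wt μ) (un F).toTopologicalSpace
        (id : {e : X ≃ᵐ X // MeasurePreserving (⇑e) μ μ} → {e : X ≃ᵐ X // MeasurePreserving (⇑e) μ μ}) := by
      rw [@continuous_iff_continuousAt _ _ (wt μ) (un F).toTopologicalSpace]
      intro T0
      have h1 : Tendsto (id : {e : X ≃ᵐ X // MeasurePreserving (⇑e) μ μ} → _) (@nhds _ (wt μ) T0)
          (@nhds _ (un F).toTopologicalSpace T0) := by
        refine tendsto_un F _ id T0 fun i => ?_
        have h2 := @Continuous.tendsto _ ℝ≥0∞ (wt μ) _ _ (wt_cont (F.C i) (T0.1 ⁻¹' F.C i) (F.meas i)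
          (T0.1.measurable (F.meas i)) (F.fin i) (by
            rw [T0.2.measure_preimage (F.meas i).nullMeasurableSet]; exact F.fin i)) T0
        simpa using h2
      exact h1
    exact continuous_id_iff_le.1 hc
  · refine le_iInf fun A => le_iInf fun B => le_iInf fun hA => le_iInf fun hB =>
      le_iInf fun hA' => le_iInf fun hB' => ?_
    rw [← continuous_iff_le_induced]
    rw [@continuous_iff_continuousAt _ _ (un F).toTopologicalSpace]
    intro T0
    have h1 := of_tendsto_un F (@nhds _ (un F).toTopologicalSpace T0) id T0 Filter.tendsto_id A hA hA'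
    exact tend_of_sd _ _ _ B (sd_lt_top _ _ (by
            rw [T0.2.measure_preimage hA.nullMeasurableSet]; exact hA') hB') h1

theorem un_sc (F : DF μ) : @SecondCountableTopology _ (un F).toTopologicalSpace := by
  let φ : {e : X ≃ᵐ X // MeasurePreserving (⇑e) μ μ} → (ℕ × ℕ → ℝ≥0∞) :=
    fun T p => μ ((T.1 ⁻¹' F.C p.1) ∆ F.C p.2)
  have key : (un F).toTopologicalSpace = TopologicalSpace.induced φ inferInstance := by
    apply le_antisymm
    · rw [← continuous_iff_le_induced]
      rw [← wt_eq F]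
      refine @continuous_pi _ _ _ (wt μ) _ _ ?_
      intro p
      exact wt_cont _ _ (F.meas _) (F.meas _) (F.fin _) (F.fin _)
    · have hc : @Continuous _ _ (TopologicalSpace.induced φ inferInstance) (un F).toTopologicalSpace
          (id : {e : X ≃ᵐ X // MeasurePreserving (⇑e) μ μ} → {e : X ≃ᵐ X // MeasurePreserving (⇑e) μ μ}) := by
        rw [@continuous_iff_continuousAt _ _ (TopologicalSpace.induced φ inferInstance) (un F).toTopologicalSpace]
        intro T0
        have h1 : Tendsto (id : {e : X ≃ᵐ X // MeasurePreserving (⇑e) μ μ} → _)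
            (@nhds _ (TopologicalSpace.induced φ inferInstance) T0)
            (@nhds _ (un F).toTopologicalSpace T0) := by
          refine tendsto_un F _ id T0 fun i => ?_
          rw [ENNReal.tendsto_nhds_zero]
          intro ε hε
          have hε3 : 0 < ε / 3 := ENNReal.div_pos hε.ne' (by simp)
          obtain ⟨j, hj⟩ := F.dense (T0.1 ⁻¹' F.C i) (T0.1.measurable (F.meas i)) (by
            rw [T0.2.measure_preimage (F.meas i).nullMeasurableSet]; exact F.fin i) (ε / 3) hε3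
          have h2 : Tendsto φ (@nhds _ (TopologicalSpace.induced φ inferInstance) T0) (𝓝 (φ T0)) := by
            rw [nhds_induced]
            exact tendsto_comap
          have h3 := (tendsto_pi_nhds.1 h2) (i, j)
          have h4 : ∀ᶠ T in (@nhds _ (TopologicalSpace.induced φ inferInstance) T0), φ T (i, j) < ε / 3 :=
            h3.eventually (gt_mem_nhds hj)
          filter_upwards [h4] with T hT
          refine le_trans (sd_tri _ (F.C j) _) ?_
          have h5 : μ ((T.1 ⁻¹' F.C i) ∆ F.C j) < ε / 3 := hT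
          rw [symmDiff_comm] at hj
          refine le_trans (add_le_add h5.le hj.le) ?_
          calc ε / 3 + ε / 3 ≤ ε / 3 + ε / 3 + ε / 3 := le_self_add
            _ = ε := ENNReal.add_thirds ε
        exact h1
      exact continuous_id_iff_le.1 hc
  rw [key]
  exact TopologicalSpace.secondCountableTopology_induced _ _ φ

end gen

end Pool.H359R3.IX
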