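import Mathlib
import Pool.Agent.H359R3.IX2

set_option autoImplicit false
set_option linter.unusedSectionVars false
set_option linter.unusedVariables false

/-!
Infinite measure: completeness of the automorphism group of the half line.
-/

namespace Pool.H359R3.IX

open MeasureTheory Set Filter Topology
open scoped ENNReal symmDiff
open Pool.H359R3 Pool.H359R3.WH

/-- point realization -/
theorem realize_inf (T : ℝ → ℝ) (hT : Measurable T) (hmp : MeasurePreserving T mu mu)
    (X : Set ℝ) (hX : MeasurableSet X) (hX1 : mu Xᶜ = 0) (hinj : InjOn T X) :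
    ∃ e : Au, ∀ᵐ x ∂mu, e.1 x = T x := by
  classical
  let X1 : Set ℝ := X ∩ (Ici (0:ℝ)) ∩ T ⁻¹' (Ici (0:ℝ))
  have hX1m : MeasurableSet X1 := (hX.inter measurableSet_Ici).inter (hT measurableSet_Ici)
  have hI : mu (Ici (0:ℝ))ᶜ = 0 := by
    rw [Measure.restrict_apply measurableSet_Ici.compl, compl_inter_self, measure_empty]
  have hX1c : mu X1ᶜ = 0 := by
    have : X1ᶜ ⊆ Xᶜ ∪ (Ici (0:ℝ))ᶜ ∪ T ⁻¹' (Ici (0:ℝ))ᶜ := by
      intro x hx
      by_contra h
      apply hx
      simp only [mem_union, mem_compl_iff, not_or, not_not, mem_preimage] at h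
      exact ⟨⟨h.1.1, h.1.2⟩, h.2⟩
    refine measure_mono_null this ?_
    rw [measure_union_null_iff, measure_union_null_iff]
    refine ⟨⟨hX1, hI⟩, ?_⟩
    rw [hmp.measure_preimage measurableSet_Ici.compl.nullMeasurableSet]
    exact hI
  let f : X1 → ℝ := fun x => T x
  have hf : Measurable f := hT.comp measurable_subtype_coe
  have hfi : Function.Injective f := by
    intro x y h
    exact Subtype.ext (hinj x.2.1.1 y.2.1.1 h)
  have : StandardBorelSpace X1 := hX1m.standardBorel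
  have hemb : MeasurableEmbedding f := hf.measurableEmbedding hfi
  have hY1m : MeasurableSet (range f) := hemb.measurableSet_range
  have : StandardBorelSpace ((X1)ᶜ : Set ℝ) := hX1m.compl.standardBorel
  have : StandardBorelSpace ((range f)ᶜ : Set ℝ) := hY1m.compl.standardBorel
  have hbig : ∀ Z : Set ℝ, Z ⊆ Ici (0:ℝ) → ¬ Countable (Zᶜ : Set ℝ) := by
    intro Z hZ hc
    have h1 : (Zᶜ : Set ℝ).Countable := hc
    have h2 : (Ioo (-1:ℝ) 0).Countable := h1.mono (by
      intro x hx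
      rw [mem_compl_iff]
      intro h
      have := hZ h
      have h3 := hx.2
      rw [mem_Ici] at this
      linarith)
    have := h2.measure_zero (volume : Measure ℝ)
    rw [Real.volume_Ioo] at this
    norm_num at this
  have hn1 : ¬ Countable ((X1)ᶜ : Set ℝ) := hbig X1 (fun x hx => hx.1.2)
  have hn2 : ¬ Countable ((range f)ᶜ : Set ℝ) := hbig (range f) (by
    rintro _ ⟨x, rfl⟩
    exact x.2.2)
  let e1 : X1 ≃ᵐ range f :=
    { toEquiv := Equiv.ofInjective f hfi
      measurable_toFun := hf.subtype_mk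
      measurable_invFun := by
        intro u hu
        have h1 : (Equiv.ofInjective f hfi).symm ⁻¹' u = Subtype.val ⁻¹' (f '' u) := by
          ext y
          constructor
          · intro hy
            refine ⟨_, hy, ?_⟩
            exact Equiv.apply_ofInjective_symm hfi y
          · rintro ⟨x, hx, hxy⟩
            have : y = Equiv.ofInjective f hfi x := Subtype.ext hxy.symm
            rw [this]
            simpa using hx
        show MeasurableSet ((Equiv.ofInjective f hfi).symm ⁻¹' u)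
        rw [h1]
        exact measurable_subtype_coe (hemb.measurableSet_image' hu) }
  let e2 : ((X1)ᶜ : Set ℝ) ≃ᵐ ((range f)ᶜ : Set ℝ) :=
    PolishSpace.measurableEquivOfNotCountable hn1 hn2
  let e : ℝ ≃ᵐ ℝ := (MeasurableEquiv.sumCompl hX1m).symm.trans
    ((MeasurableEquiv.sumCongr e1 e2).trans (MeasurableEquiv.sumCompl hY1m))
  have he : ∀ x ∈ X1, e x = T x := by
    intro x hx
    show (MeasurableEquiv.sumCompl hY1m) ((MeasurableEquiv.sumCongr e1 e2)
      ((MeasurableEquiv.sumCompl hX1m).symm x)) = T x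
    have h1 : (MeasurableEquiv.sumCompl hX1m).symm x = Sum.inl ⟨x, hx⟩ := by
      rw [MeasurableEquiv.symm_apply_eq]
      rfl
    rw [h1]
    rfl
  have hae : ∀ᵐ x ∂mu, e x = T x := by
    rw [ae_iff]
    refine measure_mono_null (fun x hx => ?_) hX1c
    intro hx1
    exact hx (he x hx1)
  refine ⟨⟨e, e.measurable, ?_⟩, hae⟩
  rw [Measure.map_congr hae]
  exact hmp.map_eq

/-- the unit layers -/
abbrev Z (n : ℕ) : Set ℝ := Ik 1 n

theorem Z_meas (n : ℕ) : MeasurableSet (Z n) := measurableSet_Ico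

theorem mem_Z (n : ℕ) (x : ℝ) : x ∈ Z n ↔ 0 ≤ x ∧ fl 1 x = n := mem_Ik' 1 one_pos n x

theorem mu_Z (n : ℕ) : mu (Z n) = 1 := by
  rw [show Z n = Ik 1 n from rfl, mu_Ik 1 one_pos n]
  simp

theorem mu_sum (A : Set ℝ) (hA : MeasurableSet A) : mu A = ∑' n, mu (A ∩ Z n) := by
  rw [mu_split 1 one_pos A hA]
  congr 1
  funext n
  rw [Measure.restrict_apply (hA.inter (Z_meas n))]
  congr 1
  ext x
  simp only [mem_inter_iff, mem_Z, mem_Ici]
  tauto

theorem tail_small (Y : ℕ → Set ℝ) (hY : ∀ n, MeasurableSet (Y n)) (hmono : Monotone Y)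
    (hc : mu (⋃ n, Y n)ᶜ = 0) (s : Set ℝ) (hs : MeasurableSet s) (hs' : mu s < ∞) :
    Tendsto (fun n => mu (s \ Y n)) atTop (𝓝 0) := by
  have h1 := tendsto_measure_iInter_atTop (μ := mu) (s := fun n => s \ Y n)
    (fun n => (hs.diff (hY n)).nullMeasurableSet) (fun a b hab => sdiff_subset_sdiff_right (hmono hab))
    ⟨0, (lt_of_le_of_lt (measure_mono sdiff_subset) hs').ne⟩
  have h2 : mu (⋂ n, s \ Y n) = 0 := by
    refine measure_mono_null ?_ hc
    intro x hx
    rw [mem_iInter] at hx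
    simp only [mem_compl_iff, mem_iUnion, not_exists]
    exact fun n => (hx n).2
  rwa [h2] at h1

theorem add0 {β : Type*} {l : Filter β} {f g : β → ℝ≥0∞} (hf : Tendsto f l (𝓝 0))
    (hg : Tendsto g l (𝓝 0)) : Tendsto (fun b => f b + g b) l (𝓝 0) := by
  have := hf.add hg
  rwa [add_zero] at this

theorem sq0 {β : Type*} {l : Filter β} {f g : β → ℝ≥0∞} (h : ∀ b, f b ≤ g b)
    (hg : Tendsto g l (𝓝 0)) : Tendsto f l (𝓝 0) :=
  tendsto_of_tendsto_of_tendsto_of_le_of_le tendsto_const_nhds hg (fun _ => zero_le) h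

/-- the limit on one layer -/
theorem layer_map (f : ℕ → ℝ → ℝ) (hf : ∀ k, MeasurePreserving (f k) mu mu) (n : ℕ) (B : ℕ → Set ℝ)
    (E : Set ℝ) (hB : ∀ i, MeasurableSet (B i)) (hE : MeasurableSet E)
    (hBt : ∀ i, Tendsto (fun k => mu ((f k ⁻¹' (AA i ∩ Z n)) ∆ B i)) atTop (𝓝 0))
    (hEt : Tendsto (fun k => mu ((f k ⁻¹' Z n) ∆ E)) atTop (𝓝 0)) :
    ∃ g : ℝ → ℝ, Measurable g ∧ (∀ s, MeasurableSet s → mu (g ⁻¹' s ∩ E) = mu (s ∩ Z n)) ∧
      ∀ s, MeasurableSet s → Tendsto (fun k => mu ((f k ⁻¹' (s ∩ Z n)) ∆ (g ⁻¹' s ∩ E))) atTop (𝓝 0) := by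
  classical
  let g : ℝ → ℝ := fun x => e0.symm (fun i => decide (x ∈ B i))
  have hg : Measurable g := by
    apply e0.symm.measurable.comp
    apply measurable_pi_lambda
    intro i
    apply measurable_to_bool
    have : (fun x => decide (x ∈ B i)) ⁻¹' {true} = B i := by ext x; simp
    rw [this]
    exact hB i
  have hgA : ∀ i, g ⁻¹' AA i = B i := by
    intro i
    ext x
    simp [g, AA]
  let C : Set (Set ℝ) := {s | MeasurableSet s ∧
    Tendsto (fun k => mu ((f k ⁻¹' (s ∩ Z n)) ∆ (g ⁻¹' s ∩ E))) atTop (𝓝 0)}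
  have hAC : ∀ i, AA i ∈ C := by
    intro i
    refine ⟨AA_meas i, ?_⟩
    rw [hgA]
    refine sq0 (fun k => ?_) (add0 (hBt i) hEt)
    refine le_trans (measure_mono ?_) (measure_union_le _ _)
    intro x hx
    simp only [Set.mem_symmDiff, mem_union, mem_inter_iff, mem_preimage] at hx ⊢
    tauto
  have hmeas : ∀ s ∈ C, mu (g ⁻¹' s ∩ E) = mu (s ∩ Z n) := by
    rintro s ⟨hs, hs'⟩
    have hfin : mu (s ∩ Z n) < ∞ := lt_of_le_of_lt (measure_mono inter_subset_right) (by rw [mu_Z]; exact ENNReal.one_lt_top)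
    have h1 : ∀ k, mu (f k ⁻¹' (s ∩ Z n)) = mu (s ∩ Z n) := fun k =>
      (hf k).measure_preimage (hs.inter (Z_meas n)).nullMeasurableSet
    apply le_antisymm
    · have h2 : ∀ k, mu (g ⁻¹' s ∩ E) ≤ mu (s ∩ Z n) + mu ((f k ⁻¹' (s ∩ Z n)) ∆ (g ⁻¹' s ∩ E)) := by
        intro k
        have := sd_tri (μ := mu) (g ⁻¹' s ∩ E) (f k ⁻¹' (s ∩ Z n)) ∅
        simp only [← Set.bot_eq_empty, symmDiff_bot] at this
        rw [h1, symmDiff_comm, add_comm] at this
        exact this
      have h3 : Tendsto (fun k => mu (s ∩ Z n) + mu ((f k ⁻¹' (s ∩ Z n)) ∆ (g ⁻¹' s ∩ E))) atTop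
          (𝓝 (mu (s ∩ Z n))) := by
        have := (tendsto_const_nhds (x := mu (s ∩ Z n))).add hs'
        rwa [add_zero] at this
      exact ge_of_tendsto' h3 h2
    · have h2 : ∀ k, mu (s ∩ Z n) ≤ mu (g ⁻¹' s ∩ E) + mu ((f k ⁻¹' (s ∩ Z n)) ∆ (g ⁻¹' s ∩ E)) := by
        intro k
        have := sd_tri (μ := mu) (f k ⁻¹' (s ∩ Z n)) (g ⁻¹' s ∩ E) ∅
        simp only [← Set.bot_eq_empty, symmDiff_bot] at this
        rw [h1, add_comm] at this
        exact this
      have h3 : Tendsto (fun k => mu (g ⁻¹' s ∩ E) + mu ((f k ⁻¹' (s ∩ Z n)) ∆ (g ⁻¹' s ∩ E))) atTop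
          (𝓝 (mu (g ⁻¹' s ∩ E))) := by
        have := (tendsto_const_nhds (x := mu (g ⁻¹' s ∩ E))).add hs'
        rwa [add_zero] at this
      exact ge_of_tendsto' h3 h2
  have huniv : (univ : Set ℝ) ∈ C := by
    refine ⟨MeasurableSet.univ, ?_⟩
    simpa using hEt
  have hgen : (inferInstance : MeasurableSpace ℝ) = MeasurableSpace.generateFrom C := by
    apply le_antisymm
    · refine le_trans (le_of_eq AA_gen) ?_
      apply MeasurableSpace.generateFrom_mono
      rintro _ ⟨i, rfl⟩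
      exact hAC i
    · apply MeasurableSpace.generateFrom_le
      exact fun s hs => hs.1
  have hfinE : IsFiniteMeasure (mu.restrict E) := by
    refine ⟨?_⟩
    rw [Measure.restrict_apply_univ]
    have := hmeas univ huniv
    simp only [preimage_univ, univ_inter] at this
    rw [this, mu_Z]
    exact ENNReal.one_lt_top
  have hfinZ : IsFiniteMeasure (mu.restrict (Z n)) := by
    refine ⟨?_⟩
    rw [Measure.restrict_apply_univ, mu_Z]
    exact ENNReal.one_lt_top
  have hmap : Measure.map g (mu.restrict E) = mu.restrict (Z n) := by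
    have hfm : IsFiniteMeasure (Measure.map g (mu.restrict E)) := Measure.isFiniteMeasure_map _ _
    refine ext_of_generate_finite C hgen ?_ ?_ ?_
    · rintro s ⟨hs, hs'⟩ t ⟨ht, ht'⟩ _
      refine ⟨hs.inter ht, ?_⟩
      refine sq0 (fun b => ?_) (add0 hs' ht')
      refine le_trans (measure_mono ?_) (measure_union_le _ _)
      intro x hx
      simp only [Set.mem_symmDiff, mem_union, mem_inter_iff, mem_preimage] at hx ⊢
      tauto
    · intro s hs
      rw [Measure.map_apply hg hs.1, Measure.restrict_apply (hg hs.1), Measure.restrict_apply hs.1]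
      exact hmeas s hs
    · rw [Measure.map_apply hg MeasurableSet.univ, Measure.restrict_apply (hg MeasurableSet.univ),
        Measure.restrict_apply MeasurableSet.univ]
      exact hmeas univ huniv
  have hms : ∀ s, MeasurableSet s → mu (g ⁻¹' s ∩ E) = mu (s ∩ Z n) := by
    intro s hs
    rw [← Measure.restrict_apply (hg hs), ← Measure.restrict_apply hs, ← Measure.map_apply hg hs, hmap]
  refine ⟨g, hg, hms, ?_⟩
  refine approx_induction (mu.restrict (Z n)) (range AA) AA_gen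
    (fun s => Tendsto (fun k => mu ((f k ⁻¹' (s ∩ Z n)) ∆ (g ⁻¹' s ∩ E))) atTop (𝓝 0)) ?_ ?_ ?_ ?_ ?_
  · rintro _ ⟨i, rfl⟩
    exact (hAC i).2
  · simp
  · intro s hs hs'
    refine sq0 (fun b => ?_) (add0 hs' hEt)
    refine le_trans (measure_mono ?_) (measure_union_le _ _)
    intro x hx
    simp only [Set.mem_symmDiff, mem_union, mem_inter_iff, mem_preimage, mem_compl_iff] at hx ⊢
    tauto
  · intro s t _ _ hs' ht'
    refine sq0 (fun b => ?_) (add0 hs' ht')
    refine le_trans (measure_mono ?_) (measure_union_le _ _)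
    intro x hx
    simp only [Set.mem_symmDiff, mem_union, mem_inter_iff, mem_preimage] at hx ⊢
    tauto
  · intro s hs hap
    rw [ENNReal.tendsto_nhds_zero]
    intro ε hε
    obtain ⟨δ, hδ, hδε⟩ : ∃ δ : ℝ, 0 < δ ∧ ENNReal.ofReal δ ≤ ε / 3 := by
      have h3 : 0 < ε / 3 := ENNReal.div_pos hε.ne' (by simp)
      by_cases h : ε / 3 = ∞
      · exact ⟨1, one_pos, by rw [h]; exact le_top⟩
      · exact ⟨(ε / 3).toReal, ENNReal.toReal_pos h3.ne' h, by rw [ENNReal.ofReal_toReal h]⟩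
    obtain ⟨t, ht, hPt, hst⟩ := hap δ hδ
    have hst' : mu ((s ∆ t) ∩ Z n) ≤ ε / 3 := by
      rw [← Measure.restrict_apply (hs.symmDiff ht)]
      refine le_trans ?_ hδε
      rw [measureReal_def] at hst
      rw [← ENNReal.ofReal_toReal (measure_ne_top (mu.restrict (Z n)) (s ∆ t))]
      exact ENNReal.ofReal_le_ofReal hst.le
    filter_upwards [ENNReal.tendsto_nhds_zero.1 hPt (ε / 3) (ENNReal.div_pos hε.ne' (by simp))] with k hk
    refine le_trans (sd_tri _ (f k ⁻¹' (t ∩ Z n)) _) ?_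
    refine le_trans (add_le_add le_rfl (sd_tri _ (g ⁻¹' t ∩ E) _)) ?_
    have h1 : mu ((f k ⁻¹' (s ∩ Z n)) ∆ (f k ⁻¹' (t ∩ Z n))) ≤ ε / 3 := by
      rw [pre_sd (hf k) _ _ (hs.inter (Z_meas n)) (ht.inter (Z_meas n))]
      refine le_trans (measure_mono ?_) hst'
      intro x hx
      simp only [Set.mem_symmDiff, mem_inter_iff] at hx ⊢
      tauto
    have h2 : mu ((g ⁻¹' t ∩ E) ∆ (g ⁻¹' s ∩ E)) ≤ ε / 3 := by
      have h3 : (g ⁻¹' t ∩ E) ∆ (g ⁻¹' s ∩ E) = g ⁻¹' (s ∆ t) ∩ E := by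
        ext x
        simp only [Set.mem_symmDiff, mem_inter_iff, mem_preimage]
        tauto
      rw [h3, hms _ (hs.symmDiff ht)]
      exact hst'
    refine le_trans (add_le_add h1 (add_le_add hk h2)) ?_
    rw [← add_assoc, ENNReal.add_thirds]

/-- the limit of the point maps -/
theorem limit_map' (f : ℕ → ℝ → ℝ) (hf : ∀ k, MeasurePreserving (f k) mu mu)
    (hlim : ∀ s, MeasurableSet s → mu s < ∞ → ∃ B, MeasurableSet B ∧
      Tendsto (fun k => mu ((f k ⁻¹' s) ∆ B)) atTop (𝓝 0))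
    (E : ℕ → Set ℝ) (hE : ∀ n, MeasurableSet (E n))
    (hEt : ∀ n, Tendsto (fun k => mu ((f k ⁻¹' Z n) ∆ E n)) atTop (𝓝 0))
    (hcov : mu (⋃ n, E n)ᶜ = 0) :
    ∃ g : ℝ → ℝ, Measurable g ∧ MeasurePreserving g mu mu ∧
      ∀ s, MeasurableSet s → mu s < ∞ → Tendsto (fun k => mu ((f k ⁻¹' s) ∆ (g ⁻¹' s))) atTop (𝓝 0) := by
  classical
  have hfinAZ : ∀ i n, mu (AA i ∩ Z n) < ∞ := fun i n =>
    lt_of_le_of_lt (measure_mono inter_subset_right) (by rw [mu_Z]; exact ENNReal.one_lt_top)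
  choose B hB hBt using fun n i => hlim (AA i ∩ Z n) ((AA_meas i).inter (Z_meas n)) (hfinAZ i n)
  choose gg hgg hggm hggt using fun n => layer_map f hf n (B n) (E n) (hB n) (hE n) (hBt n) (hEt n)
  have hdisj : ∀ n m, n ≠ m → mu (E n ∩ E m) = 0 := by
    intro n m hnm
    have h1 : ∀ k, mu (E n ∩ E m) ≤ mu ((f k ⁻¹' Z n) ∆ E n) + mu ((f k ⁻¹' Z m) ∆ E m) := by
      intro k
      refine le_trans (measure_mono ?_) (measure_union_le _ _)
      intro x hx
      simp only [Set.mem_symmDiff, mem_union, mem_inter_iff, mem_preimage] at hx ⊢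
      by_cases h1 : f k x ∈ Z n
      · right
        right
        refine ⟨hx.2, fun h2 => ?_⟩
        rw [mem_Z] at h1 h2
        exact hnm (h1.2.symm.trans h2.2)
      · left; right
        exact ⟨hx.1, h1⟩
    have h2 := add0 (hEt n) (hEt m)
    exact le_antisymm (ge_of_tendsto' h2 h1) zero_le
  let p : ℕ → ℝ → Prop := fun n x => x ∈ E n ∨ x ∈ (⋃ n, E n)ᶜ
  have hp : ∀ x, ∃ n, p n x := by
    intro x
    by_cases h : x ∈ ⋃ n, E n
    · obtain ⟨n, hn⟩ := mem_iUnion.1 h
      exact ⟨n, Or.inl hn⟩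
    · exact ⟨0, Or.inr h⟩
  let g : ℝ → ℝ := fun x => gg (Nat.find (hp x)) x
  have hpm : ∀ n, MeasurableSet {x | p n x} := fun n => (hE n).union (MeasurableSet.iUnion hE).compl
  have hg : Measurable g := Measurable.find hgg hpm hp
  have hae : ∀ᵐ x ∂mu, (∃ n, x ∈ E n) ∧ ∀ n m, n ≠ m → ¬ (x ∈ E n ∧ x ∈ E m) := by
    have h1 : ∀ᵐ x ∂mu, ∀ n m, n ≠ m → ¬ (x ∈ E n ∧ x ∈ E m) := by
      rw [ae_all_iff]; intro n
      rw [ae_all_iff]; intro m
      by_cases hnm : n = m
      · exact Eventually.of_forall (fun x h => absurd hnm h)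
      · rw [ae_iff]
        refine measure_mono_null (fun x hx => ?_) (hdisj n m hnm)
        simp only [mem_ofPred_eq, not_forall, not_not] at hx
        exact hx.2
    have h2 : ∀ᵐ x ∂mu, ∃ n, x ∈ E n := by
      rw [ae_iff]
      refine measure_mono_null (fun x hx => ?_) hcov
      simp only [mem_compl_iff, mem_iUnion]
      exact hx
    filter_upwards [h1, h2] with x h1 h2
    exact ⟨h2, h1⟩
  have hgae : ∀ᵐ x ∂mu, ∀ n, x ∈ E n → g x = gg n x := by
    filter_upwards [hae] with x hx n hn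
    have h1 : Nat.find (hp x) = n := by
      by_contra hne
      have h2 := Nat.find_spec (hp x)
      rcases h2 with h2 | h2
      · exact hx.2 _ _ hne ⟨h2, hn⟩
      · exact h2 (mem_iUnion.2 ⟨n, hn⟩)
    show gg (Nat.find (hp x)) x = gg n x
    rw [h1]
  have hmp : MeasurePreserving g mu mu := by
    refine ⟨hg, ?_⟩
    ext s hs
    rw [Measure.map_apply hg hs]
    have h1 : mu (g ⁻¹' s) = mu (⋃ n, (g ⁻¹' s ∩ E n)) := by
      apply measure_congr
      filter_upwards [hae] with x hx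
      apply propext
      show x ∈ g ⁻¹' s ↔ x ∈ ⋃ n, (g ⁻¹' s ∩ E n)
      rw [← inter_iUnion]
      constructor
      · intro h
        exact ⟨h, mem_iUnion.2 hx.1⟩
      · exact fun h => h.1
    rw [h1, measure_iUnion₀]
    · rw [mu_sum s hs]
      congr 1
      funext n
      rw [← hggm n s hs]
      apply measure_congr
      filter_upwards [hgae] with x hx
      apply propext
      show (g x ∈ s ∧ x ∈ E n) ↔ (gg n x ∈ s ∧ x ∈ E n)
      constructor
      · rintro ⟨h1, h2⟩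
        rw [hx n h2] at h1
        exact ⟨h1, h2⟩
      · rintro ⟨h1, h2⟩
        rw [← hx n h2] at h1
        exact ⟨h1, h2⟩
    · intro n m hnm
      show mu _ = 0
      refine measure_mono_null ?_ (hdisj n m hnm)
      rintro x ⟨⟨_, h1⟩, ⟨_, h2⟩⟩
      exact ⟨h1, h2⟩
    · intro n
      exact ((hg hs).inter (hE n)).nullMeasurableSet
  refine ⟨g, hg, hmp, ?_⟩
  intro s hs hs'
  rw [ENNReal.tendsto_nhds_zero]
  intro ε hε
  have h3 : 0 < ε / 3 := ENNReal.div_pos hε.ne' (by simp)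
  have t1 := tail_small (fun N => ⋃ n ∈ Finset.range N, Z n)
    (fun N => Finset.measurableSet_biUnion _ (fun n _ => Z_meas n))
    (fun a b hab => by
      intro x hx
      simp only [mem_iUnion, Finset.mem_range, exists_prop] at hx ⊢
      obtain ⟨n, h1, h2⟩ := hx
      exact ⟨n, lt_of_lt_of_le h1 hab, h2⟩) (by
      have := ae_nonneg
      rw [ae_iff] at this
      refine measure_mono_null (fun x hx => ?_) this
      intro h0
      apply hx
      simp only [mem_iUnion, Finset.mem_range, exists_prop]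
      exact ⟨fl 1 x + 1, fl 1 x, by omega, (mem_Z _ x).2 ⟨h0, rfl⟩⟩) s hs hs'
  have t2 := tail_small (fun N => ⋃ n ∈ Finset.range N, E n)
    (fun N => Finset.measurableSet_biUnion _ (fun n _ => hE n))
    (fun a b hab => by
      intro x hx
      simp only [mem_iUnion, Finset.mem_range, exists_prop] at hx ⊢
      obtain ⟨n, h1, h2⟩ := hx
      exact ⟨n, lt_of_lt_of_le h1 hab, h2⟩) (by
      refine measure_mono_null (fun x hx => ?_) hcov
      intro h0
      apply hx
      obtain ⟨n, hn⟩ := mem_iUnion.1 h0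
      simp only [mem_iUnion, Finset.mem_range, exists_prop]
      exact ⟨n + 1, n, by omega, hn⟩) (g ⁻¹' s) (hg hs) (by
        rw [hmp.measure_preimage hs.nullMeasurableSet]; exact hs')
  obtain ⟨N, hN1, hN2⟩ := ((ENNReal.tendsto_nhds_zero.1 t1 (ε / 3) h3).and
    (ENNReal.tendsto_nhds_zero.1 t2 (ε / 3) h3)).exists
  have h5 : Tendsto (fun k => ∑ n ∈ Finset.range N, mu ((f k ⁻¹' (s ∩ Z n)) ∆ (gg n ⁻¹' s ∩ E n)))
      atTop (𝓝 0) := by
    have := tendsto_finsetSum (Finset.range N) (fun n _ => hggt n s hs)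
    simpa using this
  filter_upwards [ENNReal.tendsto_nhds_zero.1 h5 (ε / 3) h3] with k hk
  have hsub : mu ((f k ⁻¹' s) ∆ (g ⁻¹' s)) ≤ mu ((f k ⁻¹' (s \ ⋃ n ∈ Finset.range N, Z n)) ∪
      ((g ⁻¹' s) \ ⋃ n ∈ Finset.range N, E n) ∪
      ⋃ n ∈ Finset.range N, ((f k ⁻¹' (s ∩ Z n)) ∆ (gg n ⁻¹' s ∩ E n))) := by
    apply measure_mono_ae
    filter_upwards [hgae] with x hx hx'
    have hx' : x ∈ (f k ⁻¹' s) ∆ (g ⁻¹' s) := hx'
    show x ∈ ((f k ⁻¹' (s \ ⋃ n ∈ Finset.range N, Z n)) ∪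
      ((g ⁻¹' s) \ ⋃ n ∈ Finset.range N, E n) ∪
      ⋃ n ∈ Finset.range N, ((f k ⁻¹' (s ∩ Z n)) ∆ (gg n ⁻¹' s ∩ E n)))
    rcases hx' with ⟨h1, h2⟩ | ⟨h1, h2⟩
    · by_cases h4 : f k x ∈ ⋃ n ∈ Finset.range N, Z n
      · right
        simp only [mem_iUnion, exists_prop] at h4 ⊢
        obtain ⟨n, hn, hnx⟩ := h4
        refine ⟨n, hn, Or.inl ⟨⟨h1, hnx⟩, ?_⟩⟩
        rintro ⟨h6, h7⟩
        apply h2
        show g x ∈ s
        rw [hx n h7]
        exact h6
      · exact Or.inl (Or.inl ⟨h1, h4⟩)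
    · by_cases h4 : x ∈ ⋃ n ∈ Finset.range N, E n
      · right
        simp only [mem_iUnion, exists_prop] at h4 ⊢
        obtain ⟨n, hn, hnx⟩ := h4
        refine ⟨n, hn, Or.inr ⟨⟨?_, hnx⟩, ?_⟩⟩
        · show gg n x ∈ s
          rw [← hx n hnx]
          exact h1
        · intro h6
          exact h2 h6.1
      · exact Or.inl (Or.inr ⟨h1, h4⟩)
  refine le_trans hsub (le_trans (measure_union_le _ _) ?_)
  refine le_trans (add_le_add (measure_union_le _ _) (measure_biUnion_finset_le _ _)) ?_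
  have h6 : mu (f k ⁻¹' (s \ ⋃ n ∈ Finset.range N, Z n)) ≤ ε / 3 := by
    rw [(hf k).measure_preimage (hs.diff (Finset.measurableSet_biUnion _ (fun n _ => Z_meas n))).nullMeasurableSet]
    exact hN1
  refine le_trans (add_le_add (add_le_add h6 hN2) hk) ?_
  rw [ENNReal.add_thirds]

end Pool.H359R3.IX
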