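import Mathlib
import Pool.Agent.H359R3.IX3

set_option autoImplicit false
set_option linter.unusedSectionVars false
set_option linter.unusedVariables false

/-!
Infinite measure: completeness of the automorphism group of the half line, second part.
-/

namespace Pool.H359R3.IX

open MeasureTheory Set Filter Topology
open scoped ENNReal symmDiff
open Pool.H359R3 Pool.H359R3.WH

section gen

variable {X : Type*} [MeasurableSpace X] {μ : Measure X}

/-- Cauchy sequences of preimages converge in the measure algebra -/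
theorem lim_of_cauchy (F : DF μ) (f : ℕ → X → X) (hf : ∀ k, MeasurePreserving (f k) μ μ)
    (h : ∀ i, ∀ ε : ℝ≥0∞, 0 < ε → ∃ N, ∀ m ≥ N, ∀ n ≥ N, μ ((f m ⁻¹' F.C i) ∆ (f n ⁻¹' F.C i)) < ε)
    (s : Set X) (hs : MeasurableSet s) (hs' : μ s < ∞) :
    ∃ B, MeasurableSet B ∧ Tendsto (fun k => μ ((f k ⁻¹' s) ∆ B)) atTop (𝓝 0) := by
  have := measuredSets_complete μ
  have hc : CauchySeq (fun k => mkM μ (f k ⁻¹' s) ((hf k).measurable hs)) := by
    rw [EMetric.cauchySeq_iff]
    intro ε hε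
    have h3 : 0 < ε / 3 := ENNReal.div_pos hε.ne' (by simp)
    obtain ⟨i, hi⟩ := F.dense s hs hs' (ε / 3) h3
    obtain ⟨N, hN⟩ := h i (ε / 3) h3
    refine ⟨N, fun m hm n hn => ?_⟩
    rw [edist_mkM]
    refine lt_of_le_of_lt (sd_tri _ (f m ⁻¹' F.C i) _) ?_
    refine lt_of_le_of_lt (add_le_add le_rfl (sd_tri _ (f n ⁻¹' F.C i) _)) ?_
    rw [pre_sd (hf m) _ _ hs (F.meas i), pre_sd (hf n) _ _ (F.meas i) hs, symmDiff_comm (F.C i) s]
    calc μ (s ∆ F.C i) + (μ ((f m ⁻¹' F.C i) ∆ (f n ⁻¹' F.C i)) + μ (s ∆ F.C i))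
        < ε / 3 + (ε / 3 + ε / 3) :=
          ENNReal.add_lt_add hi (ENNReal.add_lt_add (hN m hm n hn) hi)
      _ = ε := by rw [← add_assoc, ENNReal.add_thirds]
  obtain ⟨B, hB⟩ := cauchySeq_tendsto_of_complete hc
  refine ⟨B, B.2, ?_⟩
  rw [edist_tend] at hB
  exact hB

end gen

theorem pair_inverse (g g' : ℝ → ℝ) (hg : MeasurePreserving g mu mu) (hg' : MeasurePreserving g' mu mu)
    (h : ∀ A, MeasurableSet A → mu A < ∞ → mu ((g ⁻¹' (g' ⁻¹' A)) ∆ A) = 0) :
    ∀ᵐ x ∂mu, g' (g x) = x := by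
  have h1 : ∀ᵐ x ∂mu, ∀ n : ℕ, ¬ (x ∈ (g ⁻¹' (g' ⁻¹' (Z n))) ∆ (Z n)) := by
    rw [ae_all_iff]
    intro n
    rw [ae_iff]
    simp only [not_not]
    exact h _ (Z_meas n) (by rw [mu_Z]; exact ENNReal.one_lt_top)
  have h2 : ∀ᵐ x ∂mu, ∀ n i : ℕ, ¬ (x ∈ (g ⁻¹' (g' ⁻¹' (AA i ∩ Z n))) ∆ (AA i ∩ Z n)) := by
    rw [ae_all_iff]
    intro n
    rw [ae_all_iff]
    intro i
    rw [ae_iff]
    simp only [not_not]
    exact h _ ((AA_meas i).inter (Z_meas n))
      (lt_of_le_of_lt (measure_mono inter_subset_right) (by rw [mu_Z]; exact ENNReal.one_lt_top))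
  filter_upwards [h1, h2, ae_nonneg] with x h1 h2 h3
  have h4 : x ∈ Z (fl 1 x) := (mem_Z _ x).2 ⟨h3, rfl⟩
  have h5 := h1 (fl 1 x)
  have h6 := h2 (fl 1 x)
  apply AA_sep
  intro i
  have h7 := h6 i
  rw [Set.mem_symmDiff] at h5 h7
  simp only [mem_preimage, mem_inter_iff] at h5 h7
  tauto

theorem un_complete (F : DF mu) : @CompleteSpace _ (un F) := by
  let _ := un F
  have := un_cg F
  refine UniformSpace.complete_of_cauchySeq_tendsto fun T hT => ?_
  have hc : CauchySeq (fun n => io F (T n)) := by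
    have : UniformContinuous (io F) := uniformContinuous_comap
    exact this.comp_cauchySeq hT
  have h1 : ∀ i, CauchySeq (fun n => (io F (T n) i).1) := by
    intro i
    have : UniformContinuous (fun z : ℕ → MeasuredSets mu × MeasuredSets mu => (z i).1) :=
      uniformContinuous_fst.comp (Pi.uniformContinuous_proj _ i)
    exact this.comp_cauchySeq hc
  have h2 : ∀ i, CauchySeq (fun n => (io F (T n) i).2) := by
    intro i
    have : UniformContinuous (fun z : ℕ → MeasuredSets mu × MeasuredSets mu => (z i).2) :=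
      uniformContinuous_snd.comp (Pi.uniformContinuous_proj _ i)
    exact this.comp_cauchySeq hc
  have L1 := lim_of_cauchy F (fun k => (T k).1) (fun k => (T k).2) (by
    intro i ε hε
    obtain ⟨N, hN⟩ := EMetric.cauchySeq_iff.1 (h1 i) ε hε
    exact ⟨N, fun m hm n hn => hN m hm n hn⟩)
  have L2 := lim_of_cauchy F (fun k => (T k).1.symm) (fun k => mp_symm (T k)) (by
    intro i ε hε
    obtain ⟨N, hN⟩ := EMetric.cauchySeq_iff.1 (h2 i) ε hε
    exact ⟨N, fun m hm n hn => hN m hm n hn⟩)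
  have hZfin : ∀ n, mu (Z n) < ∞ := fun n => by rw [mu_Z]; exact ENNReal.one_lt_top
  choose E hE hEt using fun n => L1 (Z n) (Z_meas n) (hZfin n)
  choose E' hE' hEt' using fun n => L2 (Z n) (Z_meas n) (hZfin n)
  -- the layers of the limit cover everything
  have cover : ∀ (f f' : ℕ → ℝ → ℝ) (hf : ∀ k, MeasurePreserving (f k) mu mu)
      (hf' : ∀ k, MeasurePreserving (f' k) mu mu) (hff : ∀ k x, f' k (f k x) = x)
      (E E' : ℕ → Set ℝ) (hE : ∀ n, MeasurableSet (E n)) (hE' : ∀ n, MeasurableSet (E' n))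
      (hEt : ∀ n, Tendsto (fun k => mu ((f k ⁻¹' Z n) ∆ E n)) atTop (𝓝 0))
      (hEt' : ∀ n, Tendsto (fun k => mu ((f' k ⁻¹' Z n) ∆ E' n)) atTop (𝓝 0)),
      mu (⋃ n, E n)ᶜ = 0 := by
    intro f f' hf hf' hff E E' hE hE' hEt hEt'
    have hE'fin : ∀ m, mu (E' m) < ∞ := by
      intro m
      obtain ⟨k, hk⟩ := (ENNReal.tendsto_nhds_zero.1 (hEt' m) 1 one_pos).exists
      have h3 := sd_tri (μ := mu) (E' m) (f' k ⁻¹' Z m) ∅
      simp only [← Set.bot_eq_empty, symmDiff_bot] at h3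
      rw [symmDiff_comm, (hf' k).measure_preimage (Z_meas m).nullMeasurableSet, mu_Z] at h3
      exact lt_of_le_of_lt (le_trans h3 (add_le_add hk le_rfl)) (by norm_num)
    have hYm : ∀ N : ℕ, MeasurableSet (⋃ n ∈ Finset.range N, Z n) := fun N =>
      Finset.measurableSet_biUnion _ (fun n _ => Z_meas n)
    have step : ∀ m N, mu (Z m \ ⋃ n ∈ Finset.range N, E n) ≤ mu (E' m \ ⋃ n ∈ Finset.range N, Z n) := by
      intro m N
      have h4 : ∀ k, mu (Z m \ ⋃ n ∈ Finset.range N, E n) ≤ mu (E' m \ ⋃ n ∈ Finset.range N, Z n) +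
          (mu ((f' k ⁻¹' Z m) ∆ E' m) + ∑ n ∈ Finset.range N, mu ((f k ⁻¹' Z n) ∆ E n)) := by
        intro k
        have h5 : Z m \ ⋃ n ∈ Finset.range N, E n ⊆ (f k ⁻¹' ((f' k ⁻¹' Z m) \ ⋃ n ∈ Finset.range N, Z n)) ∪
            ⋃ n ∈ Finset.range N, ((f k ⁻¹' Z n) ∆ E n) := by
          rintro x ⟨hx1, hx2⟩
          by_cases h6 : f k x ∈ ⋃ n ∈ Finset.range N, Z n
          · right
            simp only [mem_iUnion, exists_prop] at h6 hx2 ⊢
            obtain ⟨n, hn, hnx⟩ := h6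
            exact ⟨n, hn, Or.inl ⟨hnx, fun h => hx2 ⟨n, hn, h⟩⟩⟩
          · left
            refine ⟨?_, h6⟩
            show f' k (f k x) ∈ Z m
            rw [hff]
            exact hx1
        refine le_trans (measure_mono h5) (le_trans (measure_union_le _ _) ?_)
        rw [(hf k).measure_preimage (((hf' k).measurable (Z_meas m)).diff (hYm N)).nullMeasurableSet,
          ← add_assoc]
        refine add_le_add ?_ (measure_biUnion_finset_le _ _)
        refine le_trans (measure_mono ?_) (measure_union_le _ _)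
        rintro x ⟨hx1, hx2⟩
        by_cases h6 : x ∈ E' m
        · exact Or.inl ⟨h6, hx2⟩
        · exact Or.inr (Or.inl ⟨hx1, h6⟩)
      have h5 : Tendsto (fun k => ∑ n ∈ Finset.range N, mu ((f k ⁻¹' Z n) ∆ E n)) atTop (𝓝 0) := by
        have := tendsto_finsetSum (Finset.range N) (fun n _ => hEt n)
        simpa using this
      have h6 := (tendsto_const_nhds (x := mu (E' m \ ⋃ n ∈ Finset.range N, Z n))).add (add0 (hEt' m) h5)
      rw [add_zero] at h6
      exact ge_of_tendsto' h6 h4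
    have hnull : ∀ m, mu (Z m \ ⋃ n, E n) = 0 := by
      intro m
      have t1 := tail_small (fun N => ⋃ n ∈ Finset.range N, Z n) hYm
        (fun a b hab => by
          intro x hx
          simp only [mem_iUnion, Finset.mem_range, exists_prop] at hx ⊢
          obtain ⟨n, h1, h2⟩ := hx
          exact ⟨n, lt_of_lt_of_le h1 hab, h2⟩) (by
          have := ae_nonneg
          rw [ae_iff] at this
          refine measure_mono_null (fun x hx => ?_) this
          intro h0
          apply hx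
          simp only [mem_iUnion, Finset.mem_range, exists_prop]
          exact ⟨fl 1 x + 1, fl 1 x, by omega, (mem_Z _ x).2 ⟨h0, rfl⟩⟩) (E' m) (hE' m) (hE'fin m)
      refine le_antisymm (ge_of_tendsto' t1 (fun N => ?_)) zero_le
      refine le_trans (measure_mono ?_) (step m N)
      rintro x ⟨hx1, hx2⟩
      refine ⟨hx1, fun h => hx2 ?_⟩
      simp only [mem_iUnion, exists_prop] at h ⊢
      obtain ⟨n, _, h⟩ := h
      exact ⟨n, h⟩
    rw [← nonpos_iff_eq_zero]
    have h7 : mu (⋃ n, E n)ᶜ ≤ mu (⋃ m, Z m \ ⋃ n, E n) := by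
      apply measure_mono_ae
      filter_upwards [ae_nonneg] with x hx hx'
      have hx' : x ∈ (⋃ n, E n)ᶜ := hx'
      show x ∈ (⋃ m, Z m \ ⋃ n, E n)
      rw [mem_iUnion]
      exact ⟨fl 1 x, (mem_Z _ x).2 ⟨hx, rfl⟩, hx'⟩
    refine le_trans h7 (le_of_eq ?_)
    rw [measure_iUnion_null_iff]
    exact hnull
  have hcov := cover (fun k => (T k).1) (fun k => (T k).1.symm) (fun k => (T k).2) (fun k => mp_symm (T k))
    (fun k x => (T k).1.symm_apply_apply x) E E' hE hE' hEt hEt'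
  have hcov' := cover (fun k => (T k).1.symm) (fun k => (T k).1) (fun k => mp_symm (T k)) (fun k => (T k).2)
    (fun k x => (T k).1.apply_symm_apply x) E' E hE' hE hEt' hEt
  obtain ⟨g, hg, hgmp, hgt⟩ := limit_map' (fun k => (T k).1) (fun k => (T k).2) L1 E hE hEt hcov
  obtain ⟨g', hg', hgmp', hgt'⟩ := limit_map' (fun k => (T k).1.symm) (fun k => mp_symm (T k)) L2 E' hE' hEt' hcov'
  have hae2 : ∀ᵐ x ∂mu, g' (g x) = x := by
    refine pair_inverse g g' hgmp hgmp' ?_
    intro A hA hA'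
    have hm : MeasurableSet (g' ⁻¹' A) := hg' hA
    have t1 := hgt _ hm (by rw [hgmp'.measure_preimage hA.nullMeasurableSet]; exact hA')
    have t2 : Tendsto (fun n => mu (((T n).1 ⁻¹' (g' ⁻¹' A)) ∆ A)) atTop (𝓝 0) := by
      refine (hgt' _ hA hA').congr fun n => ?_
      exact symm_sd' (T n) _ _ hA hm
    have t3 : Tendsto (fun _ : ℕ => mu ((g ⁻¹' (g' ⁻¹' A)) ∆ A)) atTop (𝓝 0) := by
      refine sq0 (fun n => ?_) (add0 t1 t2)
      have := sd_tri (μ := mu) (g ⁻¹' (g' ⁻¹' A)) ((T n).1 ⁻¹' (g' ⁻¹' A)) A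
      rwa [symmDiff_comm (g ⁻¹' (g' ⁻¹' A)) ((T n).1 ⁻¹' (g' ⁻¹' A))] at this
    exact tendsto_nhds_unique tendsto_const_nhds t3
  have hXm : MeasurableSet {x | g' (g x) = x} :=
    measurableSet_eq_fun (hg'.comp hg) measurable_id
  obtain ⟨e, he⟩ := realize_inf g hg hgmp {x | g' (g x) = x} hXm (by
    rw [ae_iff] at hae2
    exact hae2) (by
    intro x hx y hy hxy
    have hx' : g' (g x) = x := hx
    have hy' : g' (g y) = y := hy
    rw [← hx', ← hy', hxy])
  refine ⟨e, ?_⟩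
  refine tendsto_un F atTop T e fun i => ?_
  refine (hgt _ (F.meas i) (F.fin i)).congr fun n => ?_
  refine measure_congr ?_
  refine EventuallyEq.symmDiff (ae_eq_refl _) ?_
  filter_upwards [he] with x hx
  show (g x ∈ F.C i) = (e.1 x ∈ F.C i)
  rw [hx]

end Pool.H359R3.IX
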