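import Mathlib
import Pool.Agent.H359R3.IX4

set_option autoImplicit false
set_option linter.unusedSectionVars false
set_option linter.unusedVariables false

/-!
Infinite measure: label distances and neighbourhoods.
-/

namespace Pool.H359R3.IX

open MeasureTheory Set Filter Topology
open scoped ENNReal symmDiff
open Pool.H359R3 Pool.H359R3.WH

/-- label distance of two maps on an initial segment -/
noncomputable def dN (N K : ℕ) (f g : ℝ → ℝ) : ℝ≥0∞ := mu {x | x < (N : ℝ) ∧ fl K (f x) ≠ fl K (g x)}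

theorem dN_symm (N K : ℕ) (f g : ℝ → ℝ) : dN N K f g = dN N K g f := by
  unfold dN
  congr 1
  ext x
  show (_ ∧ _ ≠ _) ↔ (_ ∧ _ ≠ _)
  rw [ne_comm]

theorem dN_tri (N K : ℕ) (f g h : ℝ → ℝ) : dN N K f h ≤ dN N K f g + dN N K g h := by
  unfold dN
  refine le_trans (measure_mono ?_) (measure_union_le _ _)
  rintro x ⟨h0, hx⟩
  by_contra hc
  rw [mem_union, not_or] at hc
  apply hx
  have h1 : fl K (f x) = fl K (g x) := by
    by_contra h
    exact hc.1 ⟨h0, h⟩
  have h2 : fl K (g x) = fl K (h x) := by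
    by_contra h
    exact hc.2 ⟨h0, h⟩
  exact h1.trans h2

theorem dN_mono (N N' K m : ℕ) (hN : N ≤ N') (hK : 0 < K) (hm : 0 < m) (f g : ℝ → ℝ) :
    dN N K f g ≤ dN N' (K * m) f g := by
  unfold dN
  refine measure_mono ?_
  rintro x ⟨h0, hx⟩
  refine ⟨lt_of_lt_of_le h0 (by exact_mod_cast hN), fun h => ?_⟩
  apply hx
  rw [fl_div K m hK hm, fl_div K m hK hm (g x)]
  exact congrArg (· / m) h

theorem dN_dvd (N N' K K' : ℕ) (hN : N ≤ N') (hK : 0 < K) (hK' : 0 < K') (h : K ∣ K') (f g : ℝ → ℝ) :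
    dN N K f g ≤ dN N' K' f g := by
  obtain ⟨m, rfl⟩ := h
  exact dN_mono N N' K m hN hK (Nat.pos_of_mul_pos_left hK') f g

/-- finite unions of cells -/
def cs (K : ℕ) (B : Finset ℕ) : Set ℝ := {x | 0 ≤ x ∧ fl K x ∈ B}

theorem cs_meas (K : ℕ) (B : Finset ℕ) : MeasurableSet (cs K B) :=
  measurableSet_Ici.inter ((fl_meas K) (MeasurableSet.of_discrete (s := (B : Set ℕ))))

theorem mu_cs (K : ℕ) (hK : 0 < K) (B : Finset ℕ) : mu (cs K B) = ENNReal.ofReal ((B.card : ℝ) / K) :=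
  mu_cells K hK B

theorem cs_fin (K : ℕ) (hK : 0 < K) (B : Finset ℕ) : mu (cs K B) < ∞ := by
  rw [mu_cs K hK]; exact ENNReal.ofReal_lt_top

theorem cs_refine (K m : ℕ) (hK : 0 < K) (hm : 0 < m) (B : Finset ℕ) : ∃ B' : Finset ℕ, cs K B = cs (K * m) B' := by
  classical
  refine ⟨B.biUnion (fun b => Finset.Ico (b * m) (b * m + m)), ?_⟩
  ext x
  show (0 ≤ x ∧ fl K x ∈ B) ↔ (0 ≤ x ∧ fl (K * m) x ∈ _)
  rw [fl_div K m hK hm, Finset.mem_biUnion]
  constructor
  · rintro ⟨h1, h2⟩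
    refine ⟨h1, _, h2, ?_⟩
    rw [Finset.mem_Ico]
    have := Nat.div_add_mod (fl (K * m) x) m
    have h3 := Nat.mod_lt (fl (K * m) x) hm
    rw [mul_comm] at this
    omega
  · rintro ⟨h1, b, hb, h2⟩
    refine ⟨h1, ?_⟩
    rw [Finset.mem_Ico] at h2
    have : fl (K * m) x / m = b := by
      apply Nat.div_eq_of_lt_le h2.1
      rw [add_mul, one_mul]
      exact h2.2
    rw [this]
    exact hb

theorem ofReal_small (ε : ℝ≥0∞) (hε : 0 < ε) : ∃ δ : ℝ, 0 < δ ∧ ENNReal.ofReal δ ≤ ε := by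
  by_cases h : ε = ∞
  · exact ⟨1, one_pos, by rw [h]; exact le_top⟩
  · exact ⟨ε.toReal, ENNReal.toReal_pos hε.ne' h, by rw [ENNReal.ofReal_toReal h]⟩

/-- approximation by label sets, inside a segment -/
theorem ApxN (N : ℕ) (s : Set ℝ) (hs : MeasurableSet s) : ∀ H : ℕ, 0 < H → ∀ η : ℝ≥0∞, 0 < η →
    ∃ m : ℕ, 0 < m ∧ ∃ B : Set ℕ, mu ((s ∆ {x | fl (H * m) x ∈ B}) ∩ Iio (N : ℝ)) < η := by
  have hfin : IsFiniteMeasure (mu.restrict (Iio (N : ℝ))) := by
    refine ⟨?_⟩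
    rw [Measure.restrict_apply_univ, Measure.restrict_apply measurableSet_Iio]
    have : Iio (N:ℝ) ∩ Ici 0 = Ico (0:ℝ) N := by ext x; simp [and_comm]
    rw [this, Real.volume_Ico]
    exact ENNReal.ofReal_lt_top
  refine approx_induction (mu.restrict (Iio (N : ℝ))) (range Iio)
    (by rw [← borel_eq_generateFrom_Iio]; exact BorelSpace.measurable_eq)
    (fun s => ∀ H : ℕ, 0 < H → ∀ η : ℝ≥0∞, 0 < η →
      ∃ m : ℕ, 0 < m ∧ ∃ B : Set ℕ, mu ((s ∆ {x | fl (H * m) x ∈ B}) ∩ Iio (N : ℝ)) < η) ?_ ?_ ?_ ?_ ?_ s hs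
  · rintro _ ⟨a, rfl⟩ H hH η hη
    obtain ⟨δ, hδ, hδη⟩ := ofReal_small η hη
    obtain ⟨m, hm⟩ := exists_nat_gt (1 / δ)
    have hm0 : 0 < m := by
      rcases Nat.eq_zero_or_pos m with h | h
      · rw [h] at hm
        have : 0 < 1 / δ := by positivity
        push_cast at hm
        linarith
      · exact h
    refine ⟨m, hm0, {k | k < ⌊a * ((H * m : ℕ) : ℝ)⌋₊}, ?_⟩
    have hn : 0 < H * m := by positivity
    have hn0 : (0 : ℝ) < ((H * m : ℕ) : ℝ) := by exact_mod_cast hn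
    have h1 : mu ((Iio a ∆ {x | fl (H * m) x ∈ {k | k < ⌊a * ((H * m : ℕ) : ℝ)⌋₊}}) ∩ Iio (N : ℝ)) ≤
        mu (cs (H * m) {⌊a * ((H * m : ℕ) : ℝ)⌋₊}) := by
      apply measure_mono_ae
      filter_upwards [ae_nonneg] with x hx hmem
      show 0 ≤ x ∧ fl (H * m) x ∈ ({⌊a * ((H * m : ℕ) : ℝ)⌋₊} : Finset ℕ)
      refine ⟨hx, ?_⟩
      rw [Finset.mem_singleton]
      have hmem' : x ∈ Iio a ∆ {x | fl (H * m) x < ⌊a * ((H * m : ℕ) : ℝ)⌋₊} := hmem.1
      rw [Set.mem_symmDiff] at hmem'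
      rcases hmem' with ⟨h2, h3⟩ | ⟨h2, h3⟩
      · have h2' : x < a := h2
        have h3' : ¬ (fl (H * m) x < ⌊a * ((H * m : ℕ) : ℝ)⌋₊) := h3
        apply le_antisymm
        · unfold fl
          apply Nat.floor_mono
          nlinarith
        · exact not_lt.1 h3'
      · have h3' : ¬ (x < a) := h3
        have h2' : fl (H * m) x < ⌊a * ((H * m : ℕ) : ℝ)⌋₊ := h2
        exfalso
        have : ⌊a * ((H * m : ℕ) : ℝ)⌋₊ ≤ fl (H * m) x := by
          unfold fl
          apply Nat.floor_mono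
          nlinarith [not_lt.1 h3']
        omega
    refine lt_of_le_of_lt h1 (lt_of_lt_of_le ?_ hδη)
    rw [mu_cs _ hn, Finset.card_singleton]
    rw [ENNReal.ofReal_lt_ofReal_iff hδ]
    push_cast
    have h3 : (m : ℝ) ≤ (H : ℝ) * m := by
      have h4 : m ≤ H * m := Nat.le_mul_of_pos_left _ hH
      exact_mod_cast h4
    have hmr : (0 : ℝ) < m := by exact_mod_cast hm0
    rw [div_lt_iff₀ (by nlinarith)]
    rw [div_lt_iff₀ hδ] at hm
    nlinarith
  · intro H hH η hη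
    refine ⟨1, one_pos, ∅, ?_⟩
    simpa using hη
  · intro s _ hP H hH η hη
    obtain ⟨m, hm, B, hB⟩ := hP H hH η hη
    refine ⟨m, hm, Bᶜ, ?_⟩
    convert hB using 2
    ext x
    simp only [Set.mem_symmDiff, mem_compl_iff, mem_ofPred_eq, mem_inter_iff]
    tauto
  · intro s t _ _ hP hQ H hH η hη
    obtain ⟨m, hm, B, hB⟩ := hP H hH (η / 2) (ENNReal.half_pos hη.ne')
    obtain ⟨m', hm', B', hB'⟩ := hQ (H * m) (by positivity) (η / 2) (ENNReal.half_pos hη.ne')
    refine ⟨m * m', by positivity, {k | k / m' ∈ B} ∪ B', ?_⟩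
    have h1 : {x | fl (H * (m * m')) x ∈ {k | k / m' ∈ B} ∪ B'} =
        {x | fl (H * m) x ∈ B} ∪ {x | fl (H * m * m') x ∈ B'} := by
      ext x
      simp only [mem_union, mem_ofPred_eq]
      rw [← mul_assoc, fl_div (H * m) m' (by positivity) hm' x]
    rw [h1]
    calc _ ≤ mu (((s ∆ {x | fl (H * m) x ∈ B}) ∩ Iio (N : ℝ)) ∪ ((t ∆ {x | fl (H * m * m') x ∈ B'}) ∩ Iio (N : ℝ))) := by
          apply measure_mono
          intro x hx
          simp only [Set.mem_symmDiff, mem_union, mem_inter_iff, mem_ofPred_eq] at hx ⊢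
          tauto
      _ ≤ _ := measure_union_le _ _
      _ < η / 2 + η / 2 := ENNReal.add_lt_add hB hB'
      _ = η := ENNReal.add_halves η
  · intro s hs hap H hH η hη
    obtain ⟨δ, hδ, hδη⟩ := ofReal_small (η / 2) (ENNReal.half_pos hη.ne')
    obtain ⟨t, ht, hPt, hst⟩ := hap δ hδ
    obtain ⟨m, hm, B, hB⟩ := hPt H hH (η / 2) (ENNReal.half_pos hη.ne')
    refine ⟨m, hm, B, ?_⟩
    have hst0 : mu ((s ∆ t) ∩ Iio (N : ℝ)) ≠ ∞ := by
      rw [← Measure.restrict_apply (hs.symmDiff ht)]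
      exact measure_ne_top _ _
    have hst' : mu ((s ∆ t) ∩ Iio (N : ℝ)) ≤ η / 2 := by
      rw [← Measure.restrict_apply (hs.symmDiff ht)]
      refine le_trans ?_ hδη
      rw [measureReal_def] at hst
      rw [← ENNReal.ofReal_toReal (measure_ne_top (mu.restrict (Iio (N : ℝ))) (s ∆ t))]
      exact ENNReal.ofReal_le_ofReal hst.le
    calc _ ≤ mu (((s ∆ t) ∩ Iio (N : ℝ)) ∪ ((t ∆ {x | fl (H * m) x ∈ B}) ∩ Iio (N : ℝ))) := by
          apply measure_mono
          intro x hx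
          simp only [Set.mem_symmDiff, mem_union, mem_inter_iff, mem_ofPred_eq] at hx ⊢
          tauto
      _ ≤ _ := measure_union_le _ _
      _ < η / 2 + η / 2 := ENNReal.add_lt_add_of_le_of_lt hst0 hst' hB
      _ = η := ENNReal.add_halves η

theorem Iio_mono_meas : ∀ n : ℕ, MeasurableSet (Iio (n : ℝ)) := fun _ => measurableSet_Iio

theorem Iio_cover : (⋃ n : ℕ, Iio (n : ℝ)) = univ := by
  ext x
  simp only [mem_iUnion, mem_Iio, mem_univ, iff_true]
  exact exists_nat_gt x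

theorem tail_Iio (s : Set ℝ) (hs : MeasurableSet s) (hs' : mu s < ∞) :
    Tendsto (fun n : ℕ => mu (s \ Iio (n : ℝ))) atTop (𝓝 0) :=
  tail_small (fun n => Iio (n : ℝ)) Iio_mono_meas
    (fun a b hab => Iio_subset_Iio (by exact_mod_cast hab)) (by rw [Iio_cover]; simp) s hs hs'

/-- approximation of finite measure sets by finite unions of cells -/
theorem ApxI (s : Set ℝ) (hs : MeasurableSet s) (hs' : mu s < ∞) (H : ℕ) (hH : 0 < H) (η : ℝ≥0∞) (hη : 0 < η) :
    ∃ m : ℕ, 0 < m ∧ ∃ B : Finset ℕ, mu (s ∆ cs (H * m) B) < η := by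
  classical
  obtain ⟨N, hN⟩ := ((tail_Iio s hs hs').eventually (gt_mem_nhds (ENNReal.half_pos hη.ne'))).exists
  obtain ⟨m, hm, B, hB⟩ := ApxN N s hs H hH (η / 2) (ENNReal.half_pos hη.ne')
  refine ⟨m, hm, (Finset.range (N * (H * m))).filter (fun k => k ∈ B), ?_⟩
  have hn : 0 < H * m := by positivity
  have hn0 : (0 : ℝ) < ((H * m : ℕ) : ℝ) := by exact_mod_cast hn
  calc _ ≤ mu ((s \ Iio (N : ℝ)) ∪ ((s ∆ {x | fl (H * m) x ∈ B}) ∩ Iio (N : ℝ))) := by
        apply measure_mono_ae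
        filter_upwards [ae_nonneg] with x hx hmem
        have hmem' : x ∈ s ∆ cs (H * m) ((Finset.range (N * (H * m))).filter (fun k => k ∈ B)) := hmem
        show x ∈ ((s \ Iio (N : ℝ)) ∪ ((s ∆ {x | fl (H * m) x ∈ B}) ∩ Iio (N : ℝ)))
        have key : (fl (H * m) x < N * (H * m)) ↔ x < N := by
          unfold fl
          rw [Nat.floor_lt (by positivity), Nat.cast_mul N (H * m)]
          constructor
          · intro h
            exact lt_of_mul_lt_mul_right h hn0.le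
          · intro h
            exact mul_lt_mul_of_pos_right h hn0
        rw [Set.mem_symmDiff] at hmem'
        unfold cs at hmem'
        simp only [mem_ofPred_eq, Finset.mem_filter, Finset.mem_range, key] at hmem'
        simp only [mem_union, Set.mem_sdiff, mem_Iio, Set.mem_symmDiff, mem_inter_iff, mem_ofPred_eq]
        tauto
    _ ≤ _ := measure_union_le _ _
    _ < η / 2 + η / 2 := ENNReal.add_lt_add hN hB
    _ = η := ENNReal.add_halves η

theorem half_sd (f g : ℝ → ℝ) (hf : MeasurePreserving f mu mu) (hg : MeasurePreserving g mu mu)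
    (A : Set ℝ) (hA : MeasurableSet A) (hA' : mu A < ∞) :
    mu ((f ⁻¹' A) ∆ (g ⁻¹' A)) = 2 * mu ((g ⁻¹' A) \ (f ⁻¹' A)) := by
  have h1 : mu ((f ⁻¹' A) \ (g ⁻¹' A)) = mu ((g ⁻¹' A) \ (f ⁻¹' A)) := by
    have e1 := measure_sdiff_add_inter (μ := mu) (f ⁻¹' A) (hg.measurable hA)
    have e2 := measure_sdiff_add_inter (μ := mu) (g ⁻¹' A) (hf.measurable hA)
    rw [hf.measure_preimage hA.nullMeasurableSet] at e1
    rw [hg.measure_preimage hA.nullMeasurableSet, inter_comm] at e2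
    have hfin : mu ((f ⁻¹' A) ∩ (g ⁻¹' A)) ≠ ∞ :=
      (lt_of_le_of_lt (measure_mono inter_subset_left) (by rw [hf.measure_preimage hA.nullMeasurableSet]; exact hA')).ne
    exact (ENNReal.add_left_inj hfin).1 (e1.trans e2.symm)
  rw [Set.symmDiff_def, measure_union disjoint_sdiff_sdiff ((hg.measurable hA).diff (hf.measurable hA)), h1, two_mul]

/-- label closeness controls preimages of cell sets -/
theorem cs_close (N K : ℕ) (B : Finset ℕ) (hK : 0 < K) (f g : ℝ → ℝ) (hf : MeasurePreserving f mu mu)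
    (hg : MeasurePreserving g mu mu) :
    mu ((f ⁻¹' cs K B) ∆ (g ⁻¹' cs K B)) ≤ 2 * (mu ((g ⁻¹' cs K B) \ Iio (N : ℝ)) + dN N K f g) := by
  rw [half_sd f g hf hg _ (cs_meas K B) (cs_fin K hK B)]
  refine mul_le_mul_right ?_ 2
  unfold dN
  refine le_trans (measure_mono_ae (t := ((g ⁻¹' cs K B) \ Iio (N : ℝ)) ∪ {x | x < (N : ℝ) ∧ fl K (f x) ≠ fl K (g x)}) ?_)
    (measure_union_le _ _)
  have ha := hf.quasiMeasurePreserving.ae ae_nonneg
  filter_upwards [ha] with x hx hmem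
  have hmem' : x ∈ (g ⁻¹' cs K B) \ (f ⁻¹' cs K B) := hmem
  show x ∈ ((g ⁻¹' cs K B) \ Iio (N : ℝ)) ∪ {x | x < (N : ℝ) ∧ fl K (f x) ≠ fl K (g x)}
  by_cases h : x < (N : ℝ)
  · right
    refine ⟨h, fun h2 => ?_⟩
    apply hmem'.2
    refine ⟨hx, ?_⟩
    show fl K (f x) ∈ B
    rw [h2]
    exact hmem'.1.2
  · left
    exact ⟨hmem'.1, h⟩

/-- neighbourhoods contain label-balls -/
theorem nhds_dN (F : DF mu) (T : Au) (O : Set Au) (hO : O ∈ @nhds Au (un F).toTopologicalSpace T) (H : ℕ) (hH : 0 < H) :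
    ∃ N m : ℕ, 0 < m ∧ ∃ θ : ℝ≥0∞, 0 < θ ∧ ∀ T' : Au, dN N (H * m) T'.1 T.1 < θ → T' ∈ O := by
  by_contra hcon
  push Not at hcon
  have h1 : ∀ j : ℕ, ∃ T' : Au, dN j (H * (j + 1).factorial) T'.1 T.1 < ((j : ℝ≥0∞) + 1)⁻¹ ∧ T' ∉ O := by
    intro j
    exact hcon j _ (Nat.factorial_pos _) _ (ENNReal.inv_pos.2 (by finiteness))
  choose T' hT' hT'O using h1
  have h2 : Tendsto T' atTop (@nhds Au (un F).toTopologicalSpace T) := by
    apply tendsto_un F
    intro i
    rw [ENNReal.tendsto_nhds_zero]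
    intro η hη
    have h3 : 0 < η / 3 := ENNReal.div_pos hη.ne' (by simp)
    have h6 : 0 < η / 3 / 2 := ENNReal.half_pos h3.ne'
    have h12 : 0 < η / 3 / 2 / 2 := ENNReal.half_pos h6.ne'
    obtain ⟨m, hm, B, hB⟩ := ApxI (F.C i) (F.meas i) (F.fin i) H hH (η / 3) h3
    have hK : 0 < H * m := by positivity
    have t1 := tail_Iio (T.1 ⁻¹' cs (H * m) B) (T.1.measurable (cs_meas _ _)) (by
      rw [T.2.measure_preimage (cs_meas _ _).nullMeasurableSet]; exact cs_fin _ hK _)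
    have t2 : Tendsto (fun j : ℕ => ((j : ℝ≥0∞) + 1)⁻¹) atTop (𝓝 0) := by
      have := (ENNReal.tendsto_inv_nat_nhds_zero).comp (tendsto_add_atTop_nat 1)
      refine this.congr fun j => ?_
      simp
    filter_upwards [t1.eventually (gt_mem_nhds h12), t2.eventually (gt_mem_nhds h12), eventually_ge_atTop m] with j hj1 hj2 hj3
    refine le_trans (sd_tri _ ((T' j).1 ⁻¹' cs (H * m) B) _) ?_
    refine le_trans (add_le_add le_rfl (sd_tri _ (T.1 ⁻¹' cs (H * m) B) _)) ?_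
    rw [pre_sd (T' j).2 _ _ (F.meas i) (cs_meas _ _), pre_sd T.2 _ _ (cs_meas _ _) (F.meas i),
      symmDiff_comm (cs (H * m) B) (F.C i)]
    have h5 : mu (((T' j).1 ⁻¹' cs (H * m) B) ∆ (T.1 ⁻¹' cs (H * m) B)) ≤ η / 3 := by
      refine le_trans (cs_close j (H * m) B hK _ _ (T' j).2 T.2) ?_
      have h7 : dN j (H * m) (T' j).1 T.1 ≤ η / 3 / 2 / 2 := by
        refine le_trans (dN_dvd j j (H * m) (H * (j + 1).factorial) le_rfl hK (by
          have := Nat.factorial_pos (j + 1)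
          positivity) (Nat.mul_dvd_mul_left _ (Nat.dvd_factorial hm (by omega))) _ _) ?_
        exact ((hT' j).trans hj2).le
      calc _ ≤ 2 * (η / 3 / 2 / 2 + η / 3 / 2 / 2) := mul_le_mul_right (add_le_add hj1.le h7) 2
        _ = η / 3 := by rw [ENNReal.add_halves, two_mul, ENNReal.add_halves]
    refine le_trans (add_le_add hB.le (add_le_add h5 hB.le)) ?_
    rw [← add_assoc, ENNReal.add_thirds]
  have h3 := h2.eventually hO
  obtain ⟨j, hj⟩ := h3.exists
  exact hT'O j hj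

/-- label balls are neighbourhoods -/
theorem dN_nhds (F : DF mu) (T : Au) (N K : ℕ) (hK : 0 < K) (θ : ℝ≥0∞) (hθ : 0 < θ) :
    {T' : Au | dN N K T'.1 T.1 < θ} ∈ @nhds Au (un F).toTopologicalSpace T := by
  have hYm : MeasurableSet (cs 1 (Finset.range N)) := cs_meas _ _
  have hTY : mu (T.1.symm ⁻¹' cs 1 (Finset.range N)) < ∞ := by
    rw [(mp_symm T).measure_preimage hYm.nullMeasurableSet]; exact cs_fin 1 one_pos _
  obtain ⟨N', hN'⟩ := ((tail_Iio _ (T.1.symm.measurable hYm) hTY).eventually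
    (gt_mem_nhds (ENNReal.half_pos hθ.ne'))).exists
  have h1 : ∀ k ∈ Finset.range (N' * K), Tendsto (fun T' : Au => mu ((T'.1 ⁻¹' cs K {k}) ∆ (T.1 ⁻¹' cs K {k})))
      (@nhds Au (un F).toTopologicalSpace T) (𝓝 0) := by
    intro k _
    exact of_tendsto_un F _ id T Filter.tendsto_id _ (cs_meas _ _) (cs_fin K hK _)
  have h2 := tendsto_finsetSum _ h1
  rw [Finset.sum_const_zero] at h2
  have h3 := h2.eventually (gt_mem_nhds (ENNReal.half_pos hθ.ne'))
  filter_upwards [h3] with T' hT'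
  have hK0 : (0 : ℝ) < K := by exact_mod_cast hK
  calc dN N K T'.1 T.1 ≤ mu ((T.1 ⁻¹' ((T.1.symm ⁻¹' cs 1 (Finset.range N)) \ Iio (N' : ℝ))) ∪
        ⋃ k ∈ Finset.range (N' * K), ((T'.1 ⁻¹' cs K {k}) ∆ (T.1 ⁻¹' cs K {k}))) := by
        unfold dN
        apply measure_mono_ae
        have ha := T.2.quasiMeasurePreserving.ae ae_nonneg
        filter_upwards [ae_nonneg, ha] with x hx0 hx hmem
        have hmem' : x < (N : ℝ) ∧ fl K (T'.1 x) ≠ fl K (T.1 x) := hmem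
        show x ∈ (T.1 ⁻¹' ((T.1.symm ⁻¹' cs 1 (Finset.range N)) \ Iio (N' : ℝ))) ∪
          ⋃ k ∈ Finset.range (N' * K), ((T'.1 ⁻¹' cs K {k}) ∆ (T.1 ⁻¹' cs K {k}))
        by_cases h4 : T.1 x < N'
        · right
          simp only [mem_iUnion, Finset.mem_range, exists_prop]
          refine ⟨fl K (T.1 x), ?_, Or.inr ⟨⟨hx, Finset.mem_singleton_self _⟩, ?_⟩⟩
          · unfold fl
            rw [Nat.floor_lt (by positivity)]
            push_cast
            nlinarith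
          · rintro ⟨h5, h6⟩
            rw [Finset.mem_singleton] at h6
            exact hmem'.2 h6
        · left
          refine ⟨?_, h4⟩
          show T.1.symm (T.1 x) ∈ cs 1 (Finset.range N)
          rw [T.1.symm_apply_apply]
          refine ⟨hx0, ?_⟩
          rw [Finset.mem_range]
          unfold fl
          rw [Nat.floor_lt (by positivity)]
          simpa using hmem'.1
    _ ≤ _ := measure_union_le _ _
    _ ≤ mu ((T.1.symm ⁻¹' cs 1 (Finset.range N)) \ Iio (N' : ℝ)) +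
        ∑ k ∈ Finset.range (N' * K), mu ((T'.1 ⁻¹' cs K {k}) ∆ (T.1 ⁻¹' cs K {k})) := by
        refine add_le_add (le_of_eq ?_) (measure_biUnion_finset_le _ _)
        exact T.2.measure_preimage ((T.1.symm.measurable hYm).diff measurableSet_Iio).nullMeasurableSet
    _ < θ / 2 + θ / 2 := ENNReal.add_lt_add hN' hT'
    _ = θ := ENNReal.add_halves θ

end Pool.H359R3.IX
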