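import Mathlib
import Pool.Agent.H359R3.IX5

set_option autoImplicit false
set_option linter.unusedSectionVars false
set_option linter.unusedVariables false

/-!
Infinite measure: interval permutations of finite order are dense.
-/

namespace Pool.H359R3.IX

open MeasureTheory Set Filter Topology
open scoped ENNReal symmDiff
open Pool.H359R3 Pool.H359R3.WH

theorem inj_round {n : Type*} [Fintype n] [DecidableEq n] (S : Finset n) (hS : S.card < Fintype.card n)
    (W0 : n → n → ℝ) (h0 : ∀ i j, 0 ≤ W0 i j) (hsupp : ∀ i, i ∉ S → ∀ j, W0 i j = 0)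
    (hr : ∀ i, ∑ j, W0 i j ≤ 1) (hc : ∀ j, ∑ i, W0 i j ≤ 1)
    (E : n → n → Prop) [DecidableRel E] (hE : ∀ i j, ¬ E i j → W0 i j = 0) :
    ∃ σ : Equiv.Perm n, ((S.filter (fun i => ¬ E i (σ i))).card : ℝ) ≤ S.card - ∑ i, ∑ j, W0 i j := by
  set t := ∑ i, ∑ j, W0 i j with ht
  have htS : t = ∑ i ∈ S, ∑ j, W0 i j := by
    rw [ht]
    symm
    apply Finset.sum_subset (Finset.subset_univ S)
    intro i _ hi
    exact Finset.sum_eq_zero (fun j _ => hsupp i hi j)
  have htle : t ≤ S.card := by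
    rw [htS]
    calc _ ≤ ∑ i ∈ S, (1 : ℝ) := Finset.sum_le_sum (fun i _ => hr i)
      _ = S.card := by simp
  have hSn : (S.card : ℝ) < Fintype.card n := by exact_mod_cast hS
  set D : ℝ := Fintype.card n - t with hD
  have hD0 : 0 < D := by rw [hD]; linarith
  let c : n → ℝ := fun j => ∑ i, W0 i j
  have hcS : ∀ j, c j = ∑ i ∈ S, W0 i j := by
    intro j
    symm
    apply Finset.sum_subset (Finset.subset_univ S)
    intro i _ hi
    exact hsupp i hi j
  have hct : ∑ j, c j = t := by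
    simp only [c]
    rw [Finset.sum_comm]
  have hc1 : ∀ j, 0 ≤ 1 - c j := fun j => by linarith [hc j]
  let W : n → n → ℝ := fun i j => if i ∈ S then W0 i j else (1 - c j) / D
  have hrow : ∀ i, i ∉ S → ∑ j, W i j = 1 := by
    intro i hi
    simp only [W, if_neg hi]
    rw [← Finset.sum_div, Finset.sum_sub_distrib, hct]
    simp only [Finset.sum_const, Finset.card_univ, nsmul_eq_mul, mul_one]
    rw [← hD, div_self hD0.ne']
  have hsplit : ∀ g : n → ℝ, ∑ i, g i = ∑ i ∈ S, g i + ∑ i ∈ Sᶜ, g i := fun g => (Finset.sum_add_sum_compl S g).symm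
  have hcard : (((Sᶜ : Finset n)).card : ℝ) = Fintype.card n - S.card := by
    rw [Finset.card_compl, Nat.cast_sub (Finset.card_le_univ S)]
  obtain ⟨σ, hσ⟩ := round_sub W (by
      intro i j
      simp only [W]
      split_ifs
      · exact h0 i j
      · exact div_nonneg (hc1 j) hD0.le) (by
      intro i
      by_cases hi : i ∈ S
      · simp only [W, if_pos hi]
        exact hr i
      · rw [hrow i hi]) (by
      intro j
      rw [hsplit]
      have e1 : ∑ i ∈ S, W i j = c j := by
        rw [hcS]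
        apply Finset.sum_congr rfl
        intro i hi
        simp only [W, if_pos hi]
      have e2 : ∑ i ∈ Sᶜ, W i j = (Fintype.card n - S.card) * ((1 - c j) / D) := by
        rw [← hcard, ← nsmul_eq_mul, ← Finset.sum_const]
        apply Finset.sum_congr rfl
        intro i hi
        rw [Finset.mem_compl] at hi
        simp only [W, if_neg hi]
      rw [e1, e2]
      have e3 : ((Fintype.card n : ℝ) - S.card) * ((1 - c j) / D) ≤ 1 - c j := by
        rw [mul_div_assoc', div_le_iff₀ hD0, mul_comm]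
        apply mul_le_mul_of_nonneg_left _ (hc1 j)
        rw [hD]
        linarith
      linarith) (fun i j => i ∉ S ∨ E i j) (by
      intro i j hij
      push Not at hij
      simp only [W, if_pos hij.1]
      exact hE i j hij.2)
  refine ⟨σ, ?_⟩
  have e1 : ∑ i, ∑ j, W i j = t + (Fintype.card n - S.card) := by
    rw [hsplit, htS]
    congr 1
    · apply Finset.sum_congr rfl
      intro i hi
      simp only [W, if_pos hi]
    · rw [← hcard]
      calc ∑ i ∈ Sᶜ, ∑ j, W i j = ∑ i ∈ Sᶜ, (1 : ℝ) := by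
            apply Finset.sum_congr rfl
            intro i hi
            rw [Finset.mem_compl] at hi
            exact hrow i hi
        _ = _ := by simp
  rw [e1] at hσ
  have e2 : S.filter (fun i => ¬ E i (σ i)) ⊆ Finset.univ.filter (fun i => ¬ (i ∉ S ∨ E i (σ i))) := by
    intro i hi
    rw [Finset.mem_filter] at hi ⊢
    refine ⟨Finset.mem_univ _, ?_⟩
    push Not
    exact hi
  have e3 : ((S.filter (fun i => ¬ E i (σ i))).card : ℝ) ≤
      ((Finset.univ.filter (fun i => ¬ (i ∉ S ∨ E i (σ i)))).card : ℝ) := by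
    exact_mod_cast Finset.card_le_card e2
  linarith

theorem ApxI_multi (s : ℕ → Set ℝ) (hs : ∀ a, MeasurableSet (s a)) (hs' : ∀ a, mu (s a) < ∞) (n : ℕ) :
    ∀ H : ℕ, 0 < H → ∀ η : ℝ≥0∞, 0 < η →
    ∃ m : ℕ, 0 < m ∧ ∀ a < n, ∃ B : Finset ℕ, mu (s a ∆ cs (H * m) B) < η := by
  induction n with
  | zero =>
    intro H _ η _
    exact ⟨1, one_pos, fun a ha => absurd ha (Nat.not_lt_zero _)⟩
  | succ n ih =>
    intro H hH η hη
    obtain ⟨m, hm, hB⟩ := ih H hH η hη
    obtain ⟨m', hm', B', hB'⟩ := ApxI (s n) (hs n) (hs' n) (H * m) (by positivity) η hη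
    refine ⟨m * m', by positivity, fun a ha => ?_⟩
    rcases Nat.lt_succ_iff_lt_or_eq.1 ha with h | h
    · obtain ⟨B, hB1⟩ := hB a h
      obtain ⟨B2, hB2⟩ := cs_refine (H * m) m' (by positivity) hm' B
      refine ⟨B2, ?_⟩
      rw [← mul_assoc, ← hB2]
      exact hB1
    · subst h
      refine ⟨B', ?_⟩
      rw [← mul_assoc]
      exact hB'

theorem fl_lt_iff (K N : ℕ) (hK : 0 < K) (x : ℝ) (hx : 0 ≤ x) : fl K x < N * K ↔ x < N := by
  have hn0 : (0 : ℝ) < (K : ℝ) := by exact_mod_cast hK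
  unfold fl
  rw [Nat.floor_lt (by positivity), Nat.cast_mul]
  constructor
  · intro h
    exact lt_of_mul_lt_mul_right h hn0.le
  · intro h
    exact mul_lt_mul_of_pos_right h hn0

theorem real_Ik (K : ℕ) (hK : 0 < K) (k : ℕ) : mu.real (Ik K k) = 1 / K := by
  rw [measureReal_def, mu_Ik K hK, ENNReal.toReal_ofReal (by positivity)]

theorem sum_cells_le (K : ℕ) (hK : 0 < K) (n : ℕ) (A : Set ℝ) (hA : MeasurableSet A) (hA' : mu A < ∞)
    (f : ℝ → ℝ) (hf : Measurable f) : ∑ b : Fin n, mu.real (A ∩ f ⁻¹' Ik K b) ≤ mu.real A := by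
  have h1 : (↑(Finset.univ : Finset (Fin n)) : Set (Fin n)).PairwiseDisjoint (fun b : Fin n => A ∩ f ⁻¹' Ik K b) := by
    intro i _ j _ hij
    rw [Function.onFun, Set.disjoint_left]
    rintro x ⟨_, h2⟩ ⟨_, h3⟩
    have h2' := (mem_Ik' K hK _ _).1 h2
    have h3' := (mem_Ik' K hK _ _).1 h3
    exact hij (Fin.ext (h2'.2.symm.trans h3'.2))
  have h2 : ∀ b ∈ (Finset.univ : Finset (Fin n)), MeasurableSet (A ∩ f ⁻¹' Ik K b) := by
    intro b _
    exact hA.inter (hf measurableSet_Ico)
  have h3 : ∀ b ∈ (Finset.univ : Finset (Fin n)), mu (A ∩ f ⁻¹' Ik K b) ≠ ∞ := by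
    intro b _
    exact (lt_of_le_of_lt (measure_mono inter_subset_left) hA').ne
  rw [← measureReal_biUnion_finset h1 h2 h3]
  apply measureReal_mono _ hA'.ne
  intro x hx
  simp only [mem_iUnion] at hx
  obtain ⟨_, _, h, _⟩ := hx
  exact h

theorem perm_dense_inf (T : Au) (N K0 : ℕ) (hK0 : 0 < K0) (θ : ℝ≥0∞) (hθ : 0 < θ) :
    ∃ (K : ℕ) (_ : 0 < K) (σ : Equiv.Perm ℕ) (M : ℕ), K0 ∣ K ∧ 0 < M ∧ σ ^ M = 1 ∧
      dN N K0 (rpf K σ) T.1 < θ := by
  classical
  obtain ⟨δ, hδ, hδθ⟩ := ofReal_small θ hθ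
  set Y : Set ℝ := cs 1 (Finset.range N) with hY
  have hYm : MeasurableSet Y := cs_meas _ _
  have hmemY : ∀ x, x ∈ Y ↔ 0 ≤ x ∧ x < N := by
    intro x
    rw [hY]
    show (0 ≤ x ∧ fl 1 x ∈ Finset.range N) ↔ _
    rw [Finset.mem_range]
    constructor
    · rintro ⟨h1, h2⟩
      exact ⟨h1, (fl_lt_iff 1 N one_pos x h1).1 (by simpa using h2)⟩
    · rintro ⟨h1, h2⟩
      exact ⟨h1, by simpa using (fl_lt_iff 1 N one_pos x h1).2 h2⟩
  have hYfin : mu Y < ∞ := cs_fin 1 one_pos _
  have hYreal : mu.real Y = N := by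
    rw [measureReal_def, hY, mu_cs 1 one_pos, ENNReal.toReal_ofReal (by positivity)]
    simp
  have hTY : mu (T.1.symm ⁻¹' Y) < ∞ := by
    rw [(mp_symm T).measure_preimage hYm.nullMeasurableSet]; exact hYfin
  obtain ⟨N', hN'1, hN'2⟩ := (((tail_Iio _ (T.1.symm.measurable hYm) hTY).eventually
    (gt_mem_nhds (show 0 < ENNReal.ofReal (δ / 8) by rw [ENNReal.ofReal_pos]; positivity))).and (eventually_ge_atTop (N + 1))).exists
  have hN' : mu (Y \ T.1 ⁻¹' Iio (N' : ℝ)) ≤ ENNReal.ofReal (δ / 8) := by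
    rw [← T.2.measure_preimage ((T.1.symm.measurable hYm).diff measurableSet_Iio).nullMeasurableSet] at hN'1
    refine le_trans (le_of_eq ?_) hN'1.le
    congr 1
    ext x
    simp
  have hN'0 : 0 < N' := by omega
  let Dc : ℕ → Set ℝ := fun c => Y ∩ T.1 ⁻¹' cs K0 {c}
  have hDcm : ∀ c, MeasurableSet (Dc c) := fun c => hYm.inter (T.1.measurable (cs_meas _ _))
  obtain ⟨m, hm, hB⟩ := ApxI_multi Dc hDcm (fun c => lt_of_le_of_lt (measure_mono inter_subset_left) hYfin)
    (N' * K0) K0 hK0 (ENNReal.ofReal (δ / (8 * (N' * K0)))) (by rw [ENNReal.ofReal_pos]; positivity)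
  choose! B hB using hB
  have hK : 0 < K0 * m := by positivity
  set K := K0 * m with hKdef
  have hKr : (0 : ℝ) < K := by exact_mod_cast hK
  let α : ℕ → ℕ := fun a => if h : ∃ c < N' * K0, a ∈ B c then h.choose else 0
  set Bad : Set ℝ := {x | x ∈ Y ∧ ¬ (T.1 x < N' ∧ fl K0 (T.1 x) = α (fl K x))} with hBad
  have hBadm : MeasurableSet Bad := by
    rw [hBad]
    refine hYm.inter (MeasurableSet.compl (MeasurableSet.inter (T.1.measurable measurableSet_Iio) ?_))
    have hg : Measurable (fun x => (fl K0 (T.1 x), α (fl K x))) :=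
      ((fl_meas K0).comp T.1.measurable).prodMk ((measurable_of_countable α).comp (fl_meas _))
    exact hg (MeasurableSet.of_discrete (s := {p : ℕ × ℕ | p.1 = p.2}))
  have hBadle : mu Bad ≤ ENNReal.ofReal (δ / 4) := by
    calc mu Bad ≤ mu ((Y \ T.1 ⁻¹' Iio (N' : ℝ)) ∪ ⋃ c ∈ Finset.range (N' * K0), (Dc c ∆ cs K (B c))) := by
          apply measure_mono_ae
          have ha := T.2.quasiMeasurePreserving.ae ae_nonneg
          filter_upwards [ha] with x hTx hmem
          have hmem' : x ∈ Y ∧ ¬ (T.1 x < N' ∧ fl K0 (T.1 x) = α (fl K x)) := hmem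
          show x ∈ ((Y \ T.1 ⁻¹' Iio (N' : ℝ)) ∪ ⋃ c ∈ Finset.range (N' * K0), (Dc c ∆ cs K (B c)))
          by_contra hcon
          rw [mem_union, not_or] at hcon
          obtain ⟨hc1, hc2⟩ := hcon
          have hlt : T.1 x < N' := by
            by_contra h
            exact hc1 ⟨hmem'.1, h⟩
          simp only [mem_iUnion, Finset.mem_range, exists_prop, not_exists, not_and] at hc2
          have hx0 := ((hmemY x).1 hmem'.1).1
          have key : ∀ c < N' * K0, (fl K0 (T.1 x) = c ↔ fl K x ∈ B c) := by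
            intro c hc
            have h1 := hc2 c hc
            rw [Set.mem_symmDiff] at h1
            push Not at h1
            constructor
            · intro h2
              exact (h1.1 ⟨hmem'.1, hTx, by show fl K0 (T.1 x) ∈ ({c} : Finset ℕ); rw [h2]; exact Finset.mem_singleton_self _⟩).2
            · intro h2
              have := (h1.2 ⟨hx0, h2⟩).2.2
              rwa [Finset.mem_singleton] at this
          have hcl : fl K0 (T.1 x) < N' * K0 := (fl_lt_iff K0 N' hK0 _ hTx).2 hlt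
          have hex : ∃ c < N' * K0, fl K x ∈ B c := ⟨_, hcl, (key _ hcl).1 rfl⟩
          apply hmem'.2
          refine ⟨hlt, ?_⟩
          simp only [α, dif_pos hex]
          have h3 := hex.choose_spec
          generalize hex.choose = c at h3 ⊢
          exact (key _ h3.1).2 h3.2
      _ ≤ _ := measure_union_le _ _
      _ ≤ ENNReal.ofReal (δ / 8) + ∑ c ∈ Finset.range (N' * K0), ENNReal.ofReal (δ / (8 * (N' * K0))) := by
          refine add_le_add hN' (le_trans (measure_biUnion_finset_le _ _) (Finset.sum_le_sum fun c hc => ?_))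
          rw [Finset.mem_range] at hc
          exact (hB c hc).le
      _ = ENNReal.ofReal (δ / 8) + ENNReal.ofReal (δ / 8) := by
          congr 1
          rw [Finset.sum_const, Finset.card_range, nsmul_eq_mul, ← ENNReal.ofReal_natCast,
            ← ENNReal.ofReal_mul (by positivity)]
          congr 1
          push_cast
          have h1 : (0 : ℝ) < N' := by exact_mod_cast hN'0
          have h2 : (0 : ℝ) < K0 := by exact_mod_cast hK0
          field_simp
      _ = ENNReal.ofReal (δ / 4) := by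
          rw [← ENNReal.ofReal_add (by positivity) (by positivity)]
          congr 1
          ring
  have hBadfin : mu Bad ≠ ∞ := (lt_of_le_of_lt hBadle ENNReal.ofReal_lt_top).ne
  have hBadreal : mu.real Bad ≤ δ / 4 := by
    rw [measureReal_def]
    exact ENNReal.toReal_le_of_le_ofReal (by positivity) hBadle
  -- the matrix
  let n := N' * K
  let S : Finset (Fin n) := Finset.univ.filter (fun a => (a : ℕ) < N * K)
  let W0 : Fin n → Fin n → ℝ := fun a b => if (a : ℕ) < N * K ∧ (b : ℕ) / m = α a then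
    K * mu.real (Ik K a ∩ T.1 ⁻¹' Ik K b) else 0
  have hNKn : N * K < n := by
    have : N < N' := by omega
    exact Nat.mul_lt_mul_of_pos_right this hK
  have hScard : S.card = N * K := by
    have : S = Finset.Iio (⟨N * K, hNKn⟩ : Fin n) := by
      ext a
      simp only [S, Finset.mem_filter, Finset.mem_univ, true_and, Finset.mem_Iio, Fin.lt_def]
    rw [this, Fin.card_Iio]
  have hM0 : ∀ a b : Fin n, 0 ≤ (K : ℝ) * mu.real (Ik K a ∩ T.1 ⁻¹' Ik K b) :=
    fun a b => mul_nonneg hKr.le measureReal_nonneg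
  have hIkfin : ∀ a : ℕ, mu (Ik K a) < ∞ := fun a => by rw [mu_Ik K hK]; exact ENNReal.ofReal_lt_top
  have hIkm : ∀ a : ℕ, MeasurableSet (Ik K a) := fun a => measurableSet_Ico
  have hrow : ∀ a : Fin n, ∑ b : Fin n, (K : ℝ) * mu.real (Ik K a ∩ T.1 ⁻¹' Ik K b) ≤ 1 := by
    intro a
    rw [← Finset.mul_sum]
    have h1 := sum_cells_le K hK n (Ik K a) (hIkm a) (hIkfin a) T.1 T.1.measurable
    rw [real_Ik K hK] at h1
    calc _ ≤ (K : ℝ) * (1 / K) := mul_le_mul_of_nonneg_left h1 hKr.le
      _ = 1 := by field_simp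
  have hcol : ∀ b : Fin n, ∑ a : Fin n, (K : ℝ) * mu.real (Ik K a ∩ T.1 ⁻¹' Ik K b) ≤ 1 := by
    intro b
    rw [← Finset.mul_sum]
    have h2 : mu (T.1 ⁻¹' Ik K b) < ∞ := by
      rw [T.2.measure_preimage (hIkm b).nullMeasurableSet]; exact hIkfin b
    have h1 := sum_cells_le K hK n (T.1 ⁻¹' Ik K b) (T.1.measurable (hIkm b)) h2 id measurable_id
    have h3 : mu.real (T.1 ⁻¹' Ik K b) = 1 / K := by
      rw [measureReal_def, T.2.measure_preimage (hIkm b).nullMeasurableSet, ← measureReal_def, real_Ik K hK]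
    rw [h3] at h1
    calc _ ≤ (K : ℝ) * (1 / K) := by
          apply mul_le_mul_of_nonneg_left _ hKr.le
          refine le_trans (le_of_eq ?_) h1
          apply Finset.sum_congr rfl
          intro a _
          rw [inter_comm]
          rfl
      _ = 1 := by field_simp
  have hW00 : ∀ a b, 0 ≤ W0 a b := by
    intro a b
    simp only [W0]
    split_ifs
    · exact hM0 a b
    · exact le_rfl
  have hWle : ∀ a b, W0 a b ≤ (K : ℝ) * mu.real (Ik K a ∩ T.1 ⁻¹' Ik K b) := by
    intro a b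
    simp only [W0]
    split_ifs
    · exact le_rfl
    · exact hM0 a b
  obtain ⟨t, ht⟩ := inj_round S (by rw [hScard, Fintype.card_fin]; exact hNKn) W0 hW00 (by
      intro a ha b
      simp only [W0]
      rw [if_neg]
      rintro ⟨h1, _⟩
      apply ha
      simp only [S, Finset.mem_filter, Finset.mem_univ, true_and]
      exact h1) (fun a => le_trans (Finset.sum_le_sum (fun b _ => hWle a b)) (hrow a))
      (fun b => le_trans (Finset.sum_le_sum (fun a _ => hWle a b)) (hcol b))
      (fun a b => (b : ℕ) / m = α a) (by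
      intro a b hab
      simp only [W0]
      rw [if_neg]
      rintro ⟨_, h2⟩
      exact hab h2)
  -- total mass
  have htot : (K : ℝ) * (N - δ / 4) ≤ ∑ a, ∑ b, W0 a b := by
    obtain ⟨Pf, hPf⟩ : ∃ Pf : Finset (Fin n × Fin n), ∀ p, p ∈ Pf ↔ ((p.1 : ℕ) < N * K ∧ (p.2 : ℕ) / m = α p.1) :=
      ⟨Finset.univ.filter (fun p => (p.1 : ℕ) < N * K ∧ (p.2 : ℕ) / m = α p.1), fun p => by
        rw [Finset.mem_filter]
        exact ⟨fun h => h.2, fun h => ⟨Finset.mem_univ _, h⟩⟩⟩
    have h1 : ∑ a, ∑ b, W0 a b = ∑ p ∈ Pf, (K : ℝ) * mu.real (Ik K p.1 ∩ T.1 ⁻¹' Ik K p.2) := by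
      rw [← Fintype.sum_prod_type' (f := W0), ← Finset.sum_subset (Finset.subset_univ Pf)]
      · apply Finset.sum_congr rfl
        intro p hp
        exact if_pos ((hPf p).1 hp)
      · intro p _ hp
        exact if_neg (fun h => hp ((hPf p).2 h))
    rw [h1, ← Finset.mul_sum]
    apply mul_le_mul_of_nonneg_left _ hKr.le
    have g1 : (↑Pf : Set (Fin n × Fin n)).PairwiseDisjoint
        (fun p : Fin n × Fin n => Ik K p.1 ∩ T.1 ⁻¹' Ik K p.2) := by
      intro p _ q _ hpq
      rw [Function.onFun, Set.disjoint_left]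
      rintro x ⟨h1, h2⟩ ⟨h3, h4⟩
      have h1' := (mem_Ik' K hK _ _).1 h1
      have h2' := (mem_Ik' K hK _ _).1 h2
      have h3' := (mem_Ik' K hK _ _).1 h3
      have h4' := (mem_Ik' K hK _ _).1 h4
      exact hpq (Prod.ext (Fin.ext (h1'.2.symm.trans h3'.2)) (Fin.ext (h2'.2.symm.trans h4'.2)))
    have g2 : ∀ p ∈ Pf, MeasurableSet (Ik K p.1 ∩ T.1 ⁻¹' Ik K p.2) := by
      intro p _
      exact (hIkm _).inter (T.1.measurable (hIkm _))
    have g3 : ∀ p ∈ Pf, mu (Ik K p.1 ∩ T.1 ⁻¹' Ik K p.2) ≠ ∞ := by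
      intro p _
      exact (lt_of_le_of_lt (measure_mono inter_subset_left) (hIkfin _)).ne
    rw [← measureReal_biUnion_finset g1 g2 g3]
    have h2 : mu.real Y - mu.real Bad ≤ mu.real (Y \ Bad) := le_measureReal_sdiff hBadfin
    rw [hYreal] at h2
    have h3 : mu.real (Y \ Bad) ≤ mu.real (⋃ p ∈ Pf, (Ik K p.1 ∩ T.1 ⁻¹' Ik K p.2)) := by
      rw [measureReal_def, measureReal_def]
      apply ENNReal.toReal_mono
      · refine (lt_of_le_of_lt (measure_mono (t := Y) ?_) hYfin).ne
        intro x hx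
        simp only [mem_iUnion, exists_prop] at hx
        obtain ⟨p, hp, hx1, _⟩ := hx
        have hp1 := ((hPf p).1 hp).1
        have h4 := (mem_Ik' K hK _ _).1 hx1
        rw [hmemY]
        refine ⟨h4.1, ?_⟩
        rw [← fl_lt_iff K N hK x h4.1, h4.2]
        exact hp1
      · have hcore : ∀ x : ℝ, 0 ≤ T.1 x → x ∈ Y \ Bad → x ∈ ⋃ p ∈ Pf, (Ik K p.1 ∩ T.1 ⁻¹' Ik K p.2) := by
          rintro x hTx ⟨hx1, hx2⟩
          have hx3 : T.1 x < N' ∧ fl K0 (T.1 x) = α (fl K x) := by
            by_contra h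
            exact hx2 ⟨hx1, h⟩
          obtain ⟨hx0, hxN⟩ := (hmemY x).1 hx1
          have h5 : fl K x < N * K := (fl_lt_iff K N hK x hx0).2 hxN
          have h6 : fl K (T.1 x) < N' * K := (fl_lt_iff K N' hK _ hTx).2 hx3.1
          have h7 : fl K (T.1 x) / m = α (fl K x) := by
            have h8 := fl_div K0 m hK0 hm (T.1 x)
            rw [← hKdef] at h8
            rw [← h8]
            exact hx3.2
          simp only [mem_iUnion, exists_prop]
          exact ⟨(⟨fl K x, lt_trans h5 hNKn⟩, ⟨fl K (T.1 x), h6⟩), (hPf _).2 ⟨h5, h7⟩,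
            (mem_Ik' K hK _ _).2 ⟨hx0, rfl⟩, (mem_Ik' K hK _ _).2 ⟨hTx, rfl⟩⟩
        apply measure_mono_ae
        have ha := T.2.quasiMeasurePreserving.ae ae_nonneg
        filter_upwards [ha] with x hTx hmem
        exact hcore x hTx hmem
    linarith
  have hbadcard : ((S.filter (fun a => ¬ (t a : ℕ) / m = α a)).card : ℝ) ≤ K * (δ / 4) := by
    refine le_trans ht ?_
    rw [hScard]
    push_cast
    nlinarith
  refine ⟨K, hK, t.extendDomain Fin.equivSubtype, orderOf t, Dvd.intro _ rfl, orderOf_pos t, ?_, ?_⟩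
  · rw [← Equiv.Perm.extendDomain_pow, pow_orderOf_eq_one, Equiv.Perm.extendDomain_one]
  · set σ := t.extendDomain Fin.equivSubtype with hσ
    have hσv : ∀ a : ℕ, ∀ h : a < n, σ a = (t ⟨a, h⟩ : ℕ) := by
      intro a h
      rw [hσ, Equiv.Perm.extendDomain_apply_subtype t Fin.equivSubtype (b := a) h]
      rfl
    let Bb : Finset ℕ := Finset.image (fun a : Fin n => (a : ℕ)) (S.filter (fun a : Fin n => ¬ (t a : ℕ) / m = α a))
    have hBbcard : Bb.card ≤ (S.filter (fun a : Fin n => ¬ (t a : ℕ) / m = α a)).card := Finset.card_image_le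
    have hBbmem : ∀ a : Fin n, (a : ℕ) < N * K → ¬ (t a : ℕ) / m = α a → (a : ℕ) ∈ Bb := by
      intro a h1 h2
      exact Finset.mem_image.2 ⟨a, Finset.mem_filter.2 ⟨Finset.mem_filter.2 ⟨Finset.mem_univ _, h1⟩, h2⟩, rfl⟩
    calc dN N K0 (rpf K σ) T.1 ≤ mu (cs K Bb ∪ Bad) := by
          unfold dN
          apply measure_mono_ae
          filter_upwards [ae_nonneg] with x hx0 hmem
          have hmem' : x < (N : ℝ) ∧ fl K0 (rpf K σ x) ≠ fl K0 (T.1 x) := hmem
          show x ∈ cs K Bb ∪ Bad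
          by_contra hcon
          rw [mem_union, not_or] at hcon
          obtain ⟨hc1, hc2⟩ := hcon
          have hxY : x ∈ Y := (hmemY x).2 ⟨hx0, hmem'.1⟩
          have h5 : fl K x < N * K := (fl_lt_iff K N hK x hx0).2 hmem'.1
          have h6 : fl K x < n := lt_trans h5 hNKn
          have h7 : T.1 x < N' ∧ fl K0 (T.1 x) = α (fl K x) := by
            by_contra h
            exact hc2 ⟨hxY, h⟩
          have h8 : (t ⟨fl K x, h6⟩ : ℕ) / m = α (fl K x) := by
            by_contra h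
            apply hc1
            exact ⟨hx0, hBbmem ⟨fl K x, h6⟩ h5 h⟩
          apply hmem'.2
          rw [h7.2, fl_div K0 m hK0 hm, ← hKdef, (rpf_mem K hK σ x hx0).2, hσv _ h6, h8]
      _ ≤ _ := measure_union_le _ _
      _ ≤ ENNReal.ofReal (δ / 4) + ENNReal.ofReal (δ / 4) := by
          refine add_le_add ?_ hBadle
          rw [mu_cs K hK]
          apply ENNReal.ofReal_le_ofReal
          rw [div_le_iff₀ hKr]
          refine le_trans ?_ (le_trans hbadcard (le_of_eq (mul_comm _ _)))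
          exact_mod_cast hBbcard
      _ < ENNReal.ofReal δ := by
          rw [← ENNReal.ofReal_add (by positivity) (by positivity), ENNReal.ofReal_lt_ofReal_iff hδ]
          linarith
      _ ≤ θ := hδθ

end Pool.H359R3.IX
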