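import Mathlib
import Pool.Agent.H359R3.IX2

set_option autoImplicit false
set_option linter.unusedSectionVars false
set_option linter.unusedVariables false

/-!
Composition and inversion of automorphisms are continuous in the weak topology.
-/

namespace Pool.H359R3.IX

open MeasureTheory Set Filter Topology
open scoped ENNReal symmDiff
open Pool.H359R3 Pool.H359R3.WH

section gen

variable {X : Type*} [MeasurableSpace X] {μ : Measure X}

/-- composition -/
def mulA (S T : {e : X ≃ᵐ X // MeasurePreserving (⇑e) μ μ}) : {e : X ≃ᵐ X // MeasurePreserving (⇑e) μ μ} :=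
  ⟨T.1.trans S.1, S.2.comp T.2⟩

def invA (T : {e : X ≃ᵐ X // MeasurePreserving (⇑e) μ μ}) : {e : X ≃ᵐ X // MeasurePreserving (⇑e) μ μ} :=
  ⟨T.1.symm, mp_symm T⟩

def oneA : {e : X ≃ᵐ X // MeasurePreserving (⇑e) μ μ} := ⟨MeasurableEquiv.refl X, MeasurePreserving.id _⟩

def powA (T : {e : X ≃ᵐ X // MeasurePreserving (⇑e) μ μ}) : ℕ → {e : X ≃ᵐ X // MeasurePreserving (⇑e) μ μ}
  | 0 => oneA
  | (k + 1) => mulA T (powA T k)

theorem powA_apply (T : {e : X ≃ᵐ X // MeasurePreserving (⇑e) μ μ}) (k : ℕ) (x : X) :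
    (powA T k).1 x = (T.1 : X → X)^[k] x := by
  induction k with
  | zero => rfl
  | succ k ih =>
    rw [Function.iterate_succ_apply', ← ih]
    rfl

theorem tend_mul (F : DF μ) {β : Type*} (l : Filter β)
    (S T : β → {e : X ≃ᵐ X // MeasurePreserving (⇑e) μ μ}) (S0 T0 : {e : X ≃ᵐ X // MeasurePreserving (⇑e) μ μ})
    (hS : Tendsto S l (@nhds _ (un F).toTopologicalSpace S0))
    (hT : Tendsto T l (@nhds _ (un F).toTopologicalSpace T0)) :
    Tendsto (fun b => mulA (S b) (T b)) l (@nhds _ (un F).toTopologicalSpace (mulA S0 T0)) := by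
  apply tendsto_un F
  intro i
  have hSm := S0.1.measurable (F.meas i)
  have hSf : μ (S0.1 ⁻¹' F.C i) < ∞ := by
    rw [S0.2.measure_preimage (F.meas i).nullMeasurableSet]; exact F.fin i
  have t1 := of_tendsto_un F l S S0 hS (F.C i) (F.meas i) (F.fin i)
  have t2 := of_tendsto_un F l T T0 hT (S0.1 ⁻¹' F.C i) hSm hSf
  have t3 : Tendsto (fun b => μ (((S b).1 ⁻¹' F.C i) ∆ (S0.1 ⁻¹' F.C i)) +
      μ (((T b).1 ⁻¹' (S0.1 ⁻¹' F.C i)) ∆ (T0.1 ⁻¹' (S0.1 ⁻¹' F.C i)))) l (𝓝 0) := by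
    have := t1.add t2
    rwa [add_zero] at this
  refine tendsto_of_tendsto_of_tendsto_of_le_of_le tendsto_const_nhds t3 (fun _ => zero_le) (fun b => ?_)
  show μ (((T b).1 ⁻¹' ((S b).1 ⁻¹' F.C i)) ∆ (T0.1 ⁻¹' (S0.1 ⁻¹' F.C i))) ≤ _
  refine le_trans (sd_tri _ ((T b).1 ⁻¹' (S0.1 ⁻¹' F.C i)) _) ?_
  rw [pre_sd (T b).2 _ _ ((S b).1.measurable (F.meas i)) hSm]

theorem tend_inv (F : DF μ) {β : Type*} (l : Filter β)
    (T : β → {e : X ≃ᵐ X // MeasurePreserving (⇑e) μ μ}) (T0 : {e : X ≃ᵐ X // MeasurePreserving (⇑e) μ μ})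
    (hT : Tendsto T l (@nhds _ (un F).toTopologicalSpace T0)) :
    Tendsto (fun b => invA (T b)) l (@nhds _ (un F).toTopologicalSpace (invA T0)) := by
  apply tendsto_un F
  intro i
  have hSm := T0.1.symm.measurable (F.meas i)
  have hSf : μ (T0.1.symm ⁻¹' F.C i) < ∞ := by
    rw [(mp_symm T0).measure_preimage (F.meas i).nullMeasurableSet]; exact F.fin i
  have t2 := of_tendsto_un F l T T0 hT (T0.1.symm ⁻¹' F.C i) hSm hSf
  refine t2.congr fun b => ?_
  show _ = μ (((T b).1.symm ⁻¹' F.C i) ∆ (T0.1.symm ⁻¹' F.C i))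
  rw [symm_sd (T b) _ _ (F.meas i) hSm, symmDiff_comm]
  congr 2
  ext x
  simp

theorem tend_pow (F : DF μ) {β : Type*} (l : Filter β)
    (T : β → {e : X ≃ᵐ X // MeasurePreserving (⇑e) μ μ}) (T0 : {e : X ≃ᵐ X // MeasurePreserving (⇑e) μ μ})
    (hT : Tendsto T l (@nhds _ (un F).toTopologicalSpace T0)) (k : ℕ) :
    Tendsto (fun b => powA (T b) k) l (@nhds _ (un F).toTopologicalSpace (powA T0 k)) := by
  induction k with
  | zero =>
    let _ : TopologicalSpace {e : X ≃ᵐ X // MeasurePreserving (⇑e) μ μ} := (un F).toTopologicalSpace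
    exact tendsto_const_nhds
  | succ k ih => exact tend_mul F l T _ T0 _ hT ih

theorem cont_pow (F : DF μ) (k : ℕ) : @Continuous _ _ (un F).toTopologicalSpace (un F).toTopologicalSpace
    (fun T : {e : X ≃ᵐ X // MeasurePreserving (⇑e) μ μ} => powA T k) := by
  rw [@continuous_iff_continuousAt _ _ (un F).toTopologicalSpace (un F).toTopologicalSpace]
  intro T0
  exact tend_pow F _ id T0 Filter.tendsto_id k

/-- topologically indistinguishable automorphisms agree modulo null sets -/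
theorem sd_of_insep (F : DF μ) (S T : {e : X ≃ᵐ X // MeasurePreserving (⇑e) μ μ})
    (h : @Inseparable _ (un F).toTopologicalSpace S T) (A : Set X) (hA : MeasurableSet A) (hA' : μ A < ∞) :
    μ ((S.1 ⁻¹' A) ∆ (T.1 ⁻¹' A)) = 0 := by
  have h1 : Tendsto (fun _ : ℕ => S) atTop (@nhds _ (un F).toTopologicalSpace T) := by
    have h0 : @nhds _ (un F).toTopologicalSpace S = @nhds _ (un F).toTopologicalSpace T := h
    rw [← h0]
    let _ : TopologicalSpace {e : X ≃ᵐ X // MeasurePreserving (⇑e) μ μ} := (un F).toTopologicalSpace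
    exact tendsto_const_nhds
  have h2 := of_tendsto_un F atTop _ T h1 A hA hA'
  exact tendsto_nhds_unique tendsto_const_nhds h2

end gen

end Pool.H359R3.IX
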