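import Mathlib
import Pool.Agent.H359R3.IX6
import Pool.Agent.H359R3.IX8

set_option autoImplicit false
set_option linter.unusedSectionVars false
set_option linter.unusedVariables false

/-!
Skew permutations over digits.
-/

namespace Pool.H359R3.IX

open MeasureTheory Set Filter Topology
open scoped ENNReal symmDiff Fin.NatCast
open Pool.H359R3 Pool.H359R3.WH

/-- skew permutation of `ℕ × Fin L` -/
def midp (L : ℕ) [NeZero L] (φ : Fin L → Equiv.Perm ℕ) : Equiv.Perm (ℕ × Fin L) where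
  toFun p := (φ p.2 p.1, p.2 + 1)
  invFun p := ((φ (p.2 - 1))⁻¹ p.1, p.2 - 1)
  left_inv p := by simp
  right_inv p := by simp

/-- transfer to `ℕ` -/
def sk (L : ℕ) [NeZero L] (m : Equiv.Perm (ℕ × Fin L)) : Equiv.Perm ℕ := (Nat.divModEquiv L).symm.permCongr m

theorem sk_apply (L : ℕ) [NeZero L] (m : Equiv.Perm (ℕ × Fin L)) (a : ℕ) :
    sk L m a = (Nat.divModEquiv L).symm (m (a / L, (a : Fin L))) := rfl

theorem sk_div (L : ℕ) [NeZero L] (m : Equiv.Perm (ℕ × Fin L)) (a : ℕ) :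
    sk L m a / L = (m (a / L, (a : Fin L))).1 := by
  have h : (Nat.divModEquiv L) (sk L m a) = m (a / L, (a : Fin L)) := by
    rw [sk_apply, Equiv.apply_symm_apply]
  exact congrArg Prod.fst h

theorem sk_mod (L : ℕ) [NeZero L] (m : Equiv.Perm (ℕ × Fin L)) (a : ℕ) :
    ((sk L m a : ℕ) : Fin L) = (m (a / L, (a : Fin L))).2 := by
  have h : (Nat.divModEquiv L) (sk L m a) = m (a / L, (a : Fin L)) := by
    rw [sk_apply, Equiv.apply_symm_apply]
  exact congrArg Prod.snd h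

theorem sk_mul (L : ℕ) [NeZero L] (m m' : Equiv.Perm (ℕ × Fin L)) : sk L (m * m') = sk L m * sk L m' := by
  ext a
  rw [Equiv.Perm.mul_apply]
  unfold sk
  rw [Equiv.permCongr_apply, Equiv.permCongr_apply, Equiv.permCongr_apply, Equiv.symm_symm,
    Equiv.apply_symm_apply, Equiv.Perm.mul_apply]

theorem sk_one (L : ℕ) [NeZero L] : sk L (1 : Equiv.Perm (ℕ × Fin L)) = 1 := by
  ext a
  unfold sk
  rw [Equiv.permCongr_apply, Equiv.Perm.one_apply, Equiv.symm_symm, Equiv.symm_apply_apply, Equiv.Perm.one_apply]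

theorem sk_pow (L : ℕ) [NeZero L] (m : Equiv.Perm (ℕ × Fin L)) (k : ℕ) : sk L (m ^ k) = sk L m ^ k := by
  induction k with
  | zero => rw [pow_zero, pow_zero, sk_one]
  | succ k ih => rw [pow_succ, pow_succ, sk_mul, ih]

/-- lift -/
def lf (L : ℕ) [NeZero L] (σ : Equiv.Perm ℕ) : Equiv.Perm ℕ := sk L (Equiv.prodCongr σ (Equiv.refl (Fin L)))

theorem lf_mul (L : ℕ) [NeZero L] (σ τ : Equiv.Perm ℕ) : lf L (σ * τ) = lf L σ * lf L τ := by
  unfold lf
  rw [← sk_mul]
  rfl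

theorem lf_one (L : ℕ) [NeZero L] : lf L 1 = 1 := by
  unfold lf
  have h : Equiv.prodCongr (1 : Equiv.Perm ℕ) (Equiv.refl (Fin L)) = 1 := by
    ext1 p
    rfl
  rw [h, sk_one]

theorem lf_pow (L : ℕ) [NeZero L] (σ : Equiv.Perm ℕ) (k : ℕ) : lf L (σ ^ k) = lf L σ ^ k := by
  induction k with
  | zero => rw [pow_zero, pow_zero, lf_one]
  | succ k ih => rw [pow_succ, pow_succ, lf_mul, ih]

theorem rpf_lf (K L : ℕ) [NeZero L] (hK : 0 < K) (σ : Equiv.Perm ℕ) (x : ℝ) :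
    rpf (K * L) (lf L σ) x = rpf K σ x := by
  have hL : 0 < L := NeZero.pos L
  by_cases hx : 0 ≤ x
  · rw [rpf_pos _ _ x hx, rpf_pos _ _ x hx]
    set a := fl (K * L) x with ha
    have h1 : fl K x = a / L := fl_div K L hK hL x
    have h2 : lf L σ a / L = σ (a / L) := sk_div L _ a
    have h3 : ((lf L σ a : ℕ) : Fin L) = (a : Fin L) := sk_mod L _ a
    have h4 : lf L σ a % L = a % L := by
      have := congrArg Fin.val h3
      rwa [Fin.val_natCast, Fin.val_natCast] at this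
    have h5 := Nat.div_add_mod (lf L σ a) L
    have h6 := Nat.div_add_mod a L
    rw [h2, h4] at h5
    have h7 : ((lf L σ a : ℕ) : ℝ) = (L : ℝ) * ((σ (a / L) : ℕ) : ℝ) + ((a % L : ℕ) : ℝ) := by
      rw [← h5]; push_cast; ring
    have h8 : ((a : ℕ) : ℝ) = (L : ℝ) * ((a / L : ℕ) : ℝ) + ((a % L : ℕ) : ℝ) := by
      have := congrArg (fun z : ℕ => (z : ℝ)) h6
      push_cast at this
      linarith
    rw [h1, h7]
    have hKr : (K : ℝ) ≠ 0 := by
      have : K ≠ 0 := by omega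
      exact_mod_cast this
    have hLr : (L : ℝ) ≠ 0 := by
      have : L ≠ 0 := by omega
      exact_mod_cast this
    have h9 : (L : ℝ) * ((σ (a / L) : ℕ) : ℝ) + ((a % L : ℕ) : ℝ) - (a : ℝ) =
        (L : ℝ) * (((σ (a / L) : ℕ) : ℝ) - ((a / L : ℕ) : ℝ)) := by
      rw [h8]
      have : (((L : ℝ) * ((a / L : ℕ) : ℝ) + ((a % L : ℕ) : ℝ))) = (a : ℝ) := h8.symm
      linarith [h8]
    rw [h9]
    push_cast
    field_simp
  · rw [rpf_neg _ _ x hx, rpf_neg _ _ x hx]

theorem rpf_sk (K L : ℕ) [NeZero L] (hK : 0 < K) (m : Equiv.Perm (ℕ × Fin L)) (x : ℝ) (hx : 0 ≤ x) :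
    fl K (rpf (K * L) (sk L m) x) = (m (fl K x, ((fl (K * L) x : ℕ) : Fin L))).1 := by
  have hL : 0 < L := NeZero.pos L
  have hKL : 0 < K * L := by positivity
  rw [fl_div K L hK hL, (rpf_mem (K * L) hKL _ x hx).2, sk_div, ← fl_div K L hK hL]

theorem mid_pow {A : Type*} [AddCommMonoid A] (ψ : A → Equiv.Perm ℕ) (h0 : ψ 0 = 1)
    (hψ : ∀ u v, ψ (u + v) = ψ u * ψ v) (L : ℕ) [NeZero L] (s : Fin L → A) (k : ℕ) (q : ℕ) (r : Fin L) :
    ((midp L (fun r => ψ (s r))) ^ k) (q, r) =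
      (ψ (∑ i ∈ Finset.range k, s (r + (i : Fin L))) q, r + (k : Fin L)) := by
  induction k with
  | zero => simp [h0]
  | succ k ih =>
    rw [pow_succ', Equiv.Perm.mul_apply, ih, Finset.sum_range_succ, add_comm (∑ i ∈ Finset.range k, s (r + (i : Fin L))), hψ]
    show (ψ (s (r + (k : Fin L))) (ψ _ q), r + (k : Fin L) + 1) = _
    rw [Equiv.Perm.mul_apply]
    push_cast
    rw [add_assoc]

theorem mid_powL {A : Type*} [AddCommMonoid A] (ψ : A → Equiv.Perm ℕ) (h0 : ψ 0 = 1)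
    (hψ : ∀ u v, ψ (u + v) = ψ u * ψ v) (L : ℕ) [NeZero L] (s : Fin L → A) :
    (sk L (midp L (fun r => ψ (s r)))) ^ L = lf L (ψ (∑ j, s j)) := by
  rw [← sk_pow]
  unfold lf
  congr 1
  ext1 ⟨q, r⟩
  rw [mid_pow ψ h0 hψ]
  have h1 : ∑ i ∈ Finset.range L, s (r + (i : Fin L)) = ∑ j, s j := by
    rw [← Fin.sum_univ_eq_sum_range (fun i => s (r + (i : Fin L))) L]
    rw [← Equiv.sum_comp (Equiv.addLeft r) s]
    apply Finset.sum_congr rfl
    intro i _
    rw [Equiv.coe_addLeft, Fin.cast_val_eq_self]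
  rw [h1]
  have h2 : ((L : ℕ) : Fin L) = 0 := Fin.natCast_self L
  rw [h2, add_zero]
  rfl

/-- closeness, one exceptional digit -/
theorem sk_close1 (N K L : ℕ) [NeZero L] (hK : 0 < K) (m : Equiv.Perm (ℕ × Fin L)) (σ : Equiv.Perm ℕ)
    (h : ∀ q r, r ≠ 0 → (m (q, r)).1 = σ q) :
    dN N K (rpf (K * L) (sk L m)) (rpf K σ) ≤ ENNReal.ofReal ((N : ℝ) / L) := by
  classical
  have hL : 0 < L := NeZero.pos L
  have hKL : 0 < K * L := by positivity
  let B : Finset ℕ := Finset.image (fun k => k * L) (Finset.range (N * K))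
  have hBcard : B.card ≤ N * K := by
    refine le_trans Finset.card_image_le ?_
    rw [Finset.card_range]
  calc dN N K (rpf (K * L) (sk L m)) (rpf K σ) ≤ mu (cs (K * L) B) := by
        unfold dN
        apply measure_mono_ae
        filter_upwards [ae_nonneg] with x hx hmem
        have hmem' : x < (N : ℝ) ∧ fl K (rpf (K * L) (sk L m) x) ≠ fl K (rpf K σ x) := hmem
        refine ⟨hx, ?_⟩
        have h1 : ((fl (K * L) x : ℕ) : Fin L) = 0 := by
          by_contra hne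
          apply hmem'.2
          rw [rpf_sk K L hK m x hx, h _ _ hne, (rpf_mem K hK σ x hx).2]
        have h2 : fl (K * L) x % L = 0 := by
          have := congrArg Fin.val h1
          rwa [Fin.val_natCast] at this
        refine Finset.mem_image.2 ⟨fl (K * L) x / L, ?_, ?_⟩
        · rw [Finset.mem_range, ← fl_div K L hK hL]
          exact (fl_lt_iff K N hK x hx).2 hmem'.1
        · exact Nat.div_mul_cancel (Nat.dvd_of_mod_eq_zero h2)
    _ ≤ _ := by
        rw [mu_cs _ hKL]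
        apply ENNReal.ofReal_le_ofReal
        have hKr : (0 : ℝ) < K := by exact_mod_cast hK
        have hLr : (0 : ℝ) < L := by exact_mod_cast hL
        push_cast
        rw [div_le_div_iff₀ (by positivity) hLr]
        have : (B.card : ℝ) ≤ (N : ℝ) * K := by exact_mod_cast hBcard
        nlinarith

/-- closeness, sum over digits -/
theorem sk_close2 (N K K' L : ℕ) [NeZero L] (hK : 0 < K) (hK' : 0 < K') (hdvd : K ∣ K') (m : Equiv.Perm (ℕ × Fin L))
    (φ : Fin L → Equiv.Perm ℕ) (h : ∀ q r, (m (q, r)).1 = φ r q) (g : ℝ → ℝ) :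
    dN N K (rpf (K' * L) (sk L m)) g ≤ ∑ r, dN N K (rpf K' (φ r)) g := by
  obtain ⟨c, rfl⟩ := hdvd
  have hc : 0 < c := Nat.pos_of_mul_pos_left hK'
  refine le_trans (measure_mono_ae (t := ⋃ r ∈ (Finset.univ : Finset (Fin L)),
    {x | x < (N : ℝ) ∧ fl K (rpf (K * c) (φ r) x) ≠ fl K (g x)}) ?_) (measure_biUnion_finset_le _ _)
  filter_upwards [ae_nonneg] with x hx hmem
  have hmem' : x < (N : ℝ) ∧ fl K (rpf (K * c * L) (sk L m) x) ≠ fl K (g x) := hmem
  show x ∈ ⋃ r ∈ (Finset.univ : Finset (Fin L)), {x | x < (N : ℝ) ∧ fl K (rpf (K * c) (φ r) x) ≠ fl K (g x)}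
  simp only [mem_iUnion, Finset.mem_univ, exists_prop, true_and]
  refine ⟨((fl (K * c * L) x : ℕ) : Fin L), hmem'.1, ?_⟩
  have h1 : fl K (rpf (K * c * L) (sk L m) x) = fl K (rpf (K * c) (φ ((fl (K * c * L) x : ℕ) : Fin L)) x) := by
    rw [fl_div K c hK hc, rpf_sk (K * c) L hK' m x hx, h, fl_div K c hK hc (rpf (K * c) _ x),
      (rpf_mem (K * c) hK' _ x hx).2]
  rw [← h1]
  exact hmem'.2

theorem rpf_pow (K : ℕ) (hK : 0 < K) (σ : Equiv.Perm ℕ) (k : ℕ) (x : ℝ) :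
    (rpf K σ)^[k] x = rpf K (σ ^ k) x := by
  induction k with
  | zero => rw [pow_zero, rpf_one]; rfl
  | succ k ih => rw [Function.iterate_succ_apply', ih, rpf_comp K hK, pow_succ']

/-- integer powers -/
noncomputable def zpA (T : Au) : ℤ → Au
  | Int.ofNat k => powA T k
  | Int.negSucc k => powA (invA T) (k + 1)

theorem zpA_rp (K : ℕ) (hK : 0 < K) (σ : Equiv.Perm ℕ) (c : ℤ) (x : ℝ) :
    (zpA (rp K hK σ) c).1 x = rpf K (σ ^ c) x := by
  cases c with
  | ofNat k =>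
    show (powA (rp K hK σ) k).1 x = _
    rw [powA_apply]
    show (rpf K σ)^[k] x = _
    rw [rpf_pow K hK, Int.ofNat_eq_natCast, zpow_natCast]
  | negSucc k =>
    show (powA (invA (rp K hK σ)) (k + 1)).1 x = _
    rw [powA_apply]
    show (rpf K σ⁻¹)^[k + 1] x = _
    rw [rpf_pow K hK, zpow_negSucc, inv_pow]

theorem tend_zpA (F : DF mu) {β : Type*} (l : Filter β) (T : β → Au) (T0 : Au)
    (hT : Tendsto T l (@nhds _ (un F).toTopologicalSpace T0)) (c : ℤ) :
    Tendsto (fun b => zpA (T b) c) l (@nhds _ (un F).toTopologicalSpace (zpA T0 c)) := by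
  cases c with
  | ofNat k => exact tend_pow F l T T0 hT k
  | negSucc k => exact tend_pow F l _ _ (tend_inv F l T T0 hT) (k + 1)

/-- finite order interval permutations are dense, with prescribed divisibility -/
theorem dens (F : DF mu) (T : Au) (O : Set Au) (hO : O ∈ @nhds Au (un F).toTopologicalSpace T) (H : ℕ) (hH : 0 < H) :
    ∃ (K : ℕ) (hK : 0 < K) (σ : Equiv.Perm ℕ) (M : ℕ), H ∣ K ∧ 0 < M ∧ σ ^ M = 1 ∧ rp K hK σ ∈ O := by
  obtain ⟨N, m, hm, θ, hθ, h1⟩ := nhds_dN F T O hO H hH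
  obtain ⟨K, hK, σ, M, h2, h3, h4, h5⟩ := perm_dense_inf T N (H * m) (by positivity) θ hθ
  exact ⟨K, hK, σ, M, (Dvd.intro _ rfl).trans h2, h3, h4, h1 _ h5⟩

end Pool.H359R3.IX
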