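import Mathlib
import Pool.Agent.H359R3.IX7
import Pool.Agent.H359R3.IX9

set_option autoImplicit false
set_option linter.unusedSectionVars false
set_option linter.unusedVariables false

/-!
Generic infinite measure preserving automorphisms have roots.
-/

namespace Pool.H359R3.IX

open MeasureTheory Set Filter Topology
open scoped ENNReal symmDiff Fin.NatCast
open Pool.H359R3 Pool.H359R3.WH

theorem psi_add (σ : Equiv.Perm ℕ) : ∀ u v : ℤ, σ ^ (u + v) = σ ^ u * σ ^ v := fun u v => zpow_add σ u v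

theorem powA_rp (K : ℕ) (hK : 0 < K) (σ : Equiv.Perm ℕ) (k : ℕ) : powA (rp K hK σ) k = rp K hK (σ ^ k) := by
  apply Subtype.ext
  apply MeasurableEquiv.ext
  funext x
  rw [powA_apply]
  show (rpf K σ)^[k] x = rpf K (σ ^ k) x
  exact rpf_pow K hK σ k x

theorem rp_lf (K L : ℕ) [NeZero L] (hK : 0 < K) (hKL : 0 < K * L) (σ : Equiv.Perm ℕ) :
    rp (K * L) hKL (lf L σ) = rp K hK σ := by
  apply Subtype.ext
  apply MeasurableEquiv.ext
  funext x
  exact rpf_lf K L hK σ x

theorem root_of_rp (K : ℕ) (hK : 0 < K) (σ : Equiv.Perm ℕ) (n : ℕ) [NeZero n] (hKn : 0 < K * n) (s : Fin n → ℤ)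
    (hs : ∑ j, s j = 1) :
    powA (rp (K * n) hKn (sk n (midp n (fun r => σ ^ s r)))) n = rp K hK σ := by
  rw [powA_rp, mid_powL (fun z : ℤ => σ ^ z) (zpow_zero σ) (psi_add σ) n s, hs]
  simp only [zpow_one]
  exact rp_lf K n hK hKn σ

theorem sum_single (L : ℕ) [NeZero L] (a b : ℤ) :
    ∑ r : Fin L, (a + (if r = 0 then b else 0)) = L * a + b := by
  rw [Finset.sum_add_distrib]
  simp

theorem roots_inf (F : DF mu) (n : ℕ) (hn : 0 < n) :
    {T : Au | ∃ S : Au, @Inseparable _ (un F).toTopologicalSpace T (powA S n)} ∈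
      @residual Au (un F).toTopologicalSpace := by
  classical
  have : NeZero n := ⟨hn.ne'⟩
  let us : UniformSpace Au := un F
  have := un_cg F
  have := un_complete F
  have := un_sc F
  let pm : PseudoMetricSpace Au := UniformSpace.pseudoMetricSpace Au
  have hcont : Continuous (fun T : Au => powA T n) := cont_pow F n
  have hdense : ∀ U : Set Au, IsOpen U → U.Nonempty →
      ∃ (K : ℕ) (hK : 0 < K) (σ : Equiv.Perm ℕ), rp K hK σ ∈ U := by
    rintro U hU ⟨T, hT⟩
    obtain ⟨K, hK, σ, _, _, _, _, h⟩ := dens F T U (hU.mem_nhds hT) 1 one_pos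
    exact ⟨K, hK, σ, h⟩
  have main := baire_image (E := Au) (F := Au) (fun T => powA T n) hcont univ univ isOpen_univ ?_ ?_
  · refine Filter.mem_of_superset main ?_
    rintro y ⟨x, _, hx⟩
    exact ⟨x, Metric.inseparable_iff.2 hx⟩
  · intro U hU _ hne
    rw [inter_univ] at hne ⊢
    obtain ⟨S0, hS0⟩ := hne
    obtain ⟨N, m, hm, θ, hθ, h1⟩ := nhds_dN F S0 U (hU.mem_nhds hS0) 1 one_pos
    have hm1 : 0 < 1 * m := by rw [one_mul]; exact hm
    obtain ⟨δ0, hδ0, hδθ⟩ := ofReal_small (θ / 2) (ENNReal.half_pos hθ.ne')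
    obtain ⟨K, hK, ς, q, h2, hq, hςq, h3⟩ := perm_dense_inf S0 N (1 * m) hm1 (θ / 2) (ENNReal.half_pos hθ.ne')
    -- choose the length
    obtain ⟨j, hj⟩ := exists_nat_gt ((N : ℝ) / δ0)
    set L := n * j + 1 with hL
    have hLp : 0 < L := by omega
    have : NeZero L := ⟨hLp.ne'⟩
    have hcop : Nat.Coprime n L := by
      rw [hL]
      simp
    have hLsmall : ENNReal.ofReal ((N : ℝ) / L) < ENNReal.ofReal δ0 := by
      rw [ENNReal.ofReal_lt_ofReal_iff hδ0]
      have h4 : (j : ℝ) ≤ L := by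
        have : j ≤ L := by
          rw [hL]
          have := Nat.le_mul_of_pos_left j hn
          omega
        exact_mod_cast this
      have hLr : (0 : ℝ) < L := by exact_mod_cast hLp
      rw [div_lt_iff₀ hδ0] at hj
      rw [div_lt_iff₀ hLr]
      nlinarith
    let s : Fin L → ℤ := fun r => 1 + (if r = 0 then ((q : ℤ) - 1) * L else 0)
    have hs : ∑ r, s r = q * L := by
      simp only [s]
      rw [sum_single]
      ring
    set σ2 : Equiv.Perm ℕ := sk L (midp L (fun r => ς ^ s r)) with hσ2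
    have hσ2L : σ2 ^ L = 1 := by
      rw [hσ2, mid_powL (fun z : ℤ => ς ^ z) (zpow_zero ς) (psi_add ς) L s, hs]
      have e1 : ς ^ (q : ℤ) = 1 := by rw [zpow_natCast, hςq]
      have e2 : ς ^ ((q : ℤ) * L) = 1 := by
        rw [zpow_mul, e1, one_zpow]
      rw [e2, lf_one]
    set K2 := K * L with hK2
    have hK2p : 0 < K2 := by positivity
    have hS2U : rp K2 hK2p σ2 ∈ U := by
      apply h1
      refine lt_of_le_of_lt (dN_tri N (1 * m) _ (rpf K ς) _) ?_
      have h5 : dN N (1 * m) (rp K2 hK2p σ2).1 (rpf K ς) < ENNReal.ofReal δ0 := by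
        refine lt_of_le_of_lt (dN_dvd N N (1 * m) K le_rfl hm1 hK h2 _ _) ?_
        refine lt_of_le_of_lt (sk_close1 N K L hK (midp L (fun r => ς ^ s r)) ς ?_) hLsmall
        intro a r hr
        show (ς ^ s r) a = ς a
        simp only [s, if_neg hr, add_zero, zpow_one]
      calc _ < ENNReal.ofReal δ0 + θ / 2 := ENNReal.add_lt_add h5 h3
        _ ≤ θ / 2 + θ / 2 := add_le_add hδθ le_rfl
        _ = θ := ENNReal.add_halves θ
    -- the new target
    obtain ⟨a, b, hab⟩ := Nat.isCoprime_iff_coprime.2 hcop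
    set ρ : Equiv.Perm ℕ := σ2 ^ n with hρ
    have hρa : ρ ^ a = σ2 := by
      rw [hρ, ← zpow_natCast σ2 n, ← zpow_mul]
      have : (n : ℤ) * a = 1 + L * (-b) := by linarith
      rw [this, zpow_add, zpow_one, zpow_mul, zpow_natCast, hσ2L, one_zpow, mul_one]
    have hρL : ρ ^ (L : ℤ) = 1 := by
      rw [hρ, zpow_natCast, ← pow_mul, mul_comm, pow_mul, hσ2L, one_pow]
    let s' : Fin n → ℤ := fun r => a + (if r = 0 then b * L else 0)
    have hs' : ∑ r, s' r = 1 := by
      simp only [s']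
      rw [sum_single]
      linarith
    have hρs : ∀ r, ρ ^ s' r = σ2 := by
      intro r
      simp only [s']
      split_ifs
      · rw [zpow_add, hρa, mul_comm b, zpow_mul, hρL, one_zpow, mul_one]
      · rw [add_zero, hρa]
    obtain ⟨N3, m3, hm3, θ3, hθ3, h6⟩ := nhds_dN F (rp K2 hK2p σ2) U (hU.mem_nhds hS2U) K2 hK2p
    have hK3 : 0 < K2 * m3 := by positivity
    obtain ⟨δ, hδ, hδθ3⟩ := ofReal_small θ3 hθ3
    have hnr : (0 : ℝ) < n := by exact_mod_cast hn
    have hδ' : 0 < ENNReal.ofReal (δ / (n + 1)) := by rw [ENNReal.ofReal_pos]; positivity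
    let V : Set Au := {T | ∀ r : Fin n, dN N3 (K2 * m3) (zpA T (s' r)).1 (rpf K2 σ2) < ENNReal.ofReal (δ / (n + 1))}
    have hV : V ∈ 𝓝 (rp K2 hK2p ρ) := by
      have h7 : ∀ r : Fin n, ∀ᶠ T in 𝓝 (rp K2 hK2p ρ),
          dN N3 (K2 * m3) (zpA T (s' r)).1 (rpf K2 σ2) < ENNReal.ofReal (δ / (n + 1)) := by
        intro r
        have h8 := tend_zpA F (𝓝 (rp K2 hK2p ρ)) id (rp K2 hK2p ρ) Filter.tendsto_id (s' r)
        have h9 := h8.eventually (dN_nhds F (zpA (rp K2 hK2p ρ) (s' r)) N3 (K2 * m3) hK3 _ hδ')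
        filter_upwards [h9] with T hT
        have h10 : ((zpA (rp K2 hK2p ρ) (s' r)).1 : ℝ → ℝ) = rpf K2 σ2 := by
          funext x
          rw [zpA_rp, hρs]
        rw [← h10]
        exact hT
      exact Filter.eventually_all.2 h7
    refine ⟨rp K2 hK2p ρ, ?_⟩
    have hsub : interior V ⊆ closure ((fun T => powA T n) '' U) := by
      intro T' hT'
      rw [mem_closure_iff_nhds]
      intro W hW
      have h11 : interior V ∩ W ∈ 𝓝 T' := Filter.inter_mem (isOpen_interior.mem_nhds hT') hW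
      obtain ⟨K4, hK4, σ4, M4, hd4, _, _, h12⟩ := dens F T' _ h11 (K2 * m3) hK3
      have hK4n : 0 < K4 * n := by positivity
      refine ⟨rp K4 hK4 σ4, h12.2, rp (K4 * n) hK4n (sk n (midp n (fun r => σ4 ^ s' r))), ?_,
        root_of_rp K4 hK4 σ4 n hK4n s' hs'⟩
      apply h6
      have h13 : rp K4 hK4 σ4 ∈ V := interior_subset h12.1
      refine lt_of_le_of_lt (sk_close2 N3 (K2 * m3) K4 n hK3 hK4 hd4 (midp n (fun r => σ4 ^ s' r))
        (fun r => σ4 ^ s' r) (fun _ _ => rfl) _) ?_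
      have h14 : ∀ r ∈ (Finset.univ : Finset (Fin n)), dN N3 (K2 * m3) (rpf K4 (σ4 ^ s' r)) (rpf K2 σ2) ≤
          ENNReal.ofReal (δ / (n + 1)) := by
        intro r _
        have h15 := (h13 r).le
        have h16 : ((zpA (rp K4 hK4 σ4) (s' r)).1 : ℝ → ℝ) = rpf K4 (σ4 ^ s' r) := by
          funext x
          rw [zpA_rp]
        rw [h16] at h15
        exact h15
      calc _ ≤ ∑ r : Fin n, ENNReal.ofReal (δ / (n + 1)) := Finset.sum_le_sum h14
        _ = ENNReal.ofReal (n * (δ / (n + 1))) := by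
            rw [Finset.sum_const, Finset.card_univ, Fintype.card_fin, nsmul_eq_mul, ← ENNReal.ofReal_natCast,
              ← ENNReal.ofReal_mul (by positivity)]
        _ < ENNReal.ofReal δ := by
            rw [ENNReal.ofReal_lt_ofReal_iff hδ, mul_div_assoc', div_lt_iff₀ (by positivity)]
            nlinarith
        _ ≤ θ3 := hδθ3
    exact mem_interior.2 ⟨interior V, hsub, isOpen_interior, mem_interior_iff_mem_nhds.2 hV⟩
  · rw [dense_iff_inter_open]
    intro W hW hne
    obtain ⟨K, hK, σ, h⟩ := hdense W hW hne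
    have hKn : 0 < K * n := by positivity
    refine ⟨rp K hK σ, h, rp (K * n) hKn (sk n (midp n (fun r => σ ^ ((fun r : Fin n => (0 : ℤ) + (if r = 0 then 1 else 0)) r)))),
      ⟨mem_univ _, mem_univ _⟩, root_of_rp K hK σ n hKn _ (by rw [sum_single]; ring)⟩

end Pool.H359R3.IX
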