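import Mathlib
import Pool.Agent.H359R3.IX10

set_option autoImplicit false
set_option linter.unusedSectionVars false
set_option linter.unusedVariables false

/-!
Generic infinite measure preserving automorphisms commute with a nontrivial involution.
-/

namespace Pool.H359R3.IX

open MeasureTheory Set Filter Topology
open scoped ENNReal symmDiff Fin.NatCast
open Pool.H359R3 Pool.H359R3.WH

theorem mulA_rp (K : ℕ) (hK : 0 < K) (σ τ : Equiv.Perm ℕ) : mulA (rp K hK σ) (rp K hK τ) = rp K hK (σ * τ) := by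
  apply Subtype.ext
  apply MeasurableEquiv.ext
  funext x
  exact rpf_comp K hK σ τ x

theorem rp_one (K : ℕ) (hK : 0 < K) : rp K hK 1 = oneA := by
  apply Subtype.ext
  apply MeasurableEquiv.ext
  funext x
  exact rpf_one K x

theorem lf_comm (L : ℕ) [NeZero L] (σ : Equiv.Perm ℕ) (φ : Fin L → Equiv.Perm ℕ) (h : ∀ r, σ * φ r = φ r * σ) :
    lf L σ * sk L (midp L φ) = sk L (midp L φ) * lf L σ := by
  unfold lf
  rw [← sk_mul, ← sk_mul]
  congr 1
  ext1 ⟨q, r⟩
  show (σ (φ r q), r + 1) = (φ r (σ q), r + 1)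
  have := congrArg (fun π : Equiv.Perm ℕ => π q) (h r)
  simp only [Equiv.Perm.mul_apply] at this
  rw [this]

/-- the pairs used for the category argument -/
def DD : Set (Au × Au) := {p | ∃ (K : ℕ) (hK : 0 < K) (σ τ : Equiv.Perm ℕ) (M : ℕ), 0 < M ∧ σ ^ M = 1 ∧
  τ * τ = 1 ∧ σ * τ = τ * σ ∧ p = (rp K hK σ, rp K hK τ)}

theorem pair_mem (K : ℕ) (hK : 0 < K) (hK2 : 0 < K * 2) (σ : Equiv.Perm ℕ) (M : ℕ) (hM : 0 < M) (hσ : σ ^ M = 1)
    (s : Fin 2 → ℤ) (hs : ∑ r, s r = 0) :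
    (rp K hK σ, rp (K * 2) hK2 (sk 2 (midp 2 (fun r => σ ^ s r)))) ∈ DD := by
  refine ⟨K * 2, hK2, lf 2 σ, sk 2 (midp 2 (fun r => σ ^ s r)), M, hM, ?_, ?_, ?_, ?_⟩
  · rw [← lf_pow, hσ, lf_one]
  · rw [← pow_two, mid_powL (fun z : ℤ => σ ^ z) (zpow_zero σ) (psi_add σ) 2 s, hs]
    simp only [zpow_zero]
    exact lf_one 2
  · exact lf_comm 2 σ _ (fun r => (Commute.self_zpow σ (s r)).eq)
  · rw [rp_lf K 2 hK hK2 σ]

theorem flip_nontriv (K : ℕ) (hK2 : 0 < K * 2) (φ : Fin 2 → Equiv.Perm ℕ) :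
    mu (((rp (K * 2) hK2 (sk 2 (midp 2 φ))).1 ⁻¹' cs (K * 2) {0}) ∆ cs (K * 2) {0}) ≠ 0 := by
  have h1 : cs (K * 2) {0} ⊆ (((rp (K * 2) hK2 (sk 2 (midp 2 φ))).1 ⁻¹' cs (K * 2) {0}) ∆ cs (K * 2) {0}) := by
    intro x hx
    refine Or.inr ⟨hx, ?_⟩
    rintro ⟨h2, h3⟩
    have hx2 : fl (K * 2) x = 0 := Finset.mem_singleton.1 hx.2
    have h4 : fl (K * 2) (rpf (K * 2) (sk 2 (midp 2 φ)) x) = 0 := Finset.mem_singleton.1 h3
    rw [(rpf_mem (K * 2) hK2 _ x hx.1).2, hx2] at h4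
    have h5 := sk_mod 2 (midp 2 φ) 0
    rw [h4] at h5
    have h6 : (midp 2 φ (0 / 2, ((0 : ℕ) : Fin 2))).2 = ((0 : ℕ) : Fin 2) + 1 := rfl
    rw [h6] at h5
    exact absurd h5 (by decide)
  intro h0
  have h2 := measure_mono_null h1 h0
  rw [mu_cs _ hK2, ENNReal.ofReal_eq_zero, Finset.card_singleton] at h2
  have : (0 : ℝ) < ((1 : ℕ) : ℝ) / ((K * 2 : ℕ) : ℝ) := by
    have : (0 : ℝ) < ((K * 2 : ℕ) : ℝ) := by exact_mod_cast hK2
    positivity
  linarith

theorem invol_inf (F : DF mu) :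
    {T : Au | ∃ J : Au, @Inseparable _ (un F).toTopologicalSpace (mulA T J) (mulA J T) ∧
      @Inseparable _ (un F).toTopologicalSpace (mulA J J) oneA ∧
      ∃ A, MeasurableSet A ∧ mu A < ∞ ∧ mu ((J.1 ⁻¹' A) ∆ A) ≠ 0} ∈
      @residual Au (un F).toTopologicalSpace := by
  classical
  let us : UniformSpace Au := un F
  have := un_cg F
  have := un_complete F
  have := un_sc F
  let pm : PseudoMetricSpace Au := UniformSpace.pseudoMetricSpace Au
  have hmul : Continuous (fun p : Au × Au => mulA p.1 p.2) := by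
    rw [continuous_iff_continuousAt]
    intro p
    exact tend_mul F (𝓝 p) (fun p => p.1) (fun p => p.2) p.1 p.2 (continuous_fst.tendsto p) (continuous_snd.tendsto p)
  let O : Set (Au × Au) := ⋃ (A : Set ℝ) (_ : MeasurableSet A) (_ : mu A < ∞), {p | mu ((p.2.1 ⁻¹' A) ∆ A) ≠ 0}
  have hO : IsOpen O := by
    refine isOpen_iUnion fun A => isOpen_iUnion fun hA => isOpen_iUnion fun hA' => ?_
    have hc : Continuous (fun T : Au => mu ((T.1 ⁻¹' A) ∆ A)) := by
      have h := wt_cont (μ := mu) A A hA hA hA' hA'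
      rw [wt_eq F] at h
      exact h
    exact (isOpen_compl_singleton (x := (0 : ℝ≥0∞))).preimage (hc.comp continuous_snd)
  have main := baire_image (E := Au × Au) (F := Au) Prod.fst continuous_fst DD O hO ?_ ?_
  · refine Filter.mem_of_superset main ?_
    rintro y ⟨p, ⟨hp1, hp2⟩, hy⟩
    have hyi : Inseparable y p.1 := Metric.inseparable_iff.2 hy
    obtain ⟨x, hx, hxp⟩ := mem_closure_iff_seq_limit.1 hp1
    have h1 : Tendsto (fun n => (x n).1) atTop (𝓝 p.1) := (continuous_fst.tendsto p).comp hxp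
    have h2 : Tendsto (fun n => (x n).2) atTop (𝓝 p.2) := (continuous_snd.tendsto p).comp hxp
    refine ⟨p.2, ?_, ?_, ?_⟩
    · have t1 := (hmul.tendsto (p.1, p.2)).comp (h1.prodMk_nhds h2)
      have t2 := (hmul.tendsto (p.2, p.1)).comp (h2.prodMk_nhds h1)
      have t3 : ((fun p : Au × Au => mulA p.1 p.2) ∘ fun n => ((x n).1, (x n).2)) =
          ((fun p : Au × Au => mulA p.1 p.2) ∘ fun n => ((x n).2, (x n).1)) := by
        funext n
        obtain ⟨K, hK, σ, τ, M, _, _, _, hc, hxe⟩ := hx n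
        show mulA (x n).1 (x n).2 = mulA (x n).2 (x n).1
        rw [hxe]
        show mulA (rp K hK σ) (rp K hK τ) = mulA (rp K hK τ) (rp K hK σ)
        rw [mulA_rp, mulA_rp, hc]
      rw [t3] at t1
      have t4 : Inseparable (mulA p.1 p.2) (mulA p.2 p.1) := tendsto_nhds_unique_inseparable t1 t2
      have t5 : Inseparable (mulA y p.2) (mulA p.1 p.2) := by
        have : Continuous (fun T : Au => mulA T p.2) := hmul.comp (continuous_id.prodMk continuous_const)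
        exact hyi.map this
      have t6 : Inseparable (mulA p.2 y) (mulA p.2 p.1) := by
        have : Continuous (fun T : Au => mulA p.2 T) := hmul.comp (continuous_const.prodMk continuous_id)
        exact hyi.map this
      exact (t5.trans t4).trans t6.symm
    · have t1 := (hmul.tendsto (p.2, p.2)).comp (h2.prodMk_nhds h2)
      have t3 : ((fun p : Au × Au => mulA p.1 p.2) ∘ fun n => ((x n).2, (x n).2)) = fun _ => oneA := by
        funext n
        obtain ⟨K, hK, σ, τ, M, _, _, hτ, _, hxe⟩ := hx n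
        show mulA (x n).2 (x n).2 = oneA
        rw [hxe]
        show mulA (rp K hK τ) (rp K hK τ) = oneA
        rw [mulA_rp, hτ, rp_one]
      rw [t3] at t1
      exact tendsto_nhds_unique_inseparable t1 tendsto_const_nhds
    · simp only [O, mem_iUnion] at hp2
      obtain ⟨A, hA, hA', h⟩ := hp2
      exact ⟨A, hA, hA', h⟩
  · rintro U hU _ ⟨_, hpU, K, hK, σ, τ, M, hM, hσM, hττ, hστ, rfl⟩
    obtain ⟨u, v, huo, hu, hvo, hv, huv⟩ := mem_nhds_prod_iff'.1 (hU.mem_nhds hpU)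
    obtain ⟨N1, m1, hm1, θ1, hθ1, g1⟩ := nhds_dN F (rp K hK σ) u (huo.mem_nhds hu) K hK
    have : NeZero m1 := ⟨hm1.ne'⟩
    set K1 := K * m1 with hK1
    have hK1p : 0 < K1 := by positivity
    set σ1 := lf m1 σ with hσ1
    set τ1 := lf m1 τ with hτ1
    have e1 : rp K1 hK1p σ1 = rp K hK σ := rp_lf K m1 hK hK1p σ
    have e2 : rp K1 hK1p τ1 = rp K hK τ := rp_lf K m1 hK hK1p τ
    have hσ1M : σ1 ^ M = 1 := by rw [hσ1, ← lf_pow, hσM, lf_one]
    have hτ1 : τ1 * τ1 = 1 := by rw [hτ1, ← lf_mul, hττ, lf_one]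
    have hcomm : Commute σ1 τ1 := by
      show σ1 * τ1 = τ1 * σ1
      rw [hσ1, ← lf_mul, hστ, lf_mul]
    obtain ⟨δ1, hδ1, hδθ1⟩ := ofReal_small θ1 hθ1
    obtain ⟨j, hj⟩ := exists_nat_gt ((N1 : ℝ) / δ1)
    set L := M * (j + 1) with hL
    have hLp : 0 < L := by positivity
    have : NeZero L := ⟨hLp.ne'⟩
    have hLsmall : ENNReal.ofReal ((N1 : ℝ) / L) < ENNReal.ofReal δ1 := by
      rw [ENNReal.ofReal_lt_ofReal_iff hδ1]
      have h4 : (j : ℝ) ≤ L := by
        have : j ≤ L := by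
          rw [hL]
          have := Nat.le_mul_of_pos_left (j + 1) hM
          omega
        exact_mod_cast this
      have hLr : (0 : ℝ) < L := by exact_mod_cast hLp
      rw [div_lt_iff₀ hδ1] at hj
      rw [div_lt_iff₀ hLr]
      nlinarith
    let ψ : ℕ × ℕ → Equiv.Perm ℕ := fun z => σ1 ^ z.1 * τ1 ^ z.2
    have hψ0 : ψ 0 = 1 := by
      show σ1 ^ 0 * τ1 ^ 0 = 1
      simp
    have hψ : ∀ a b, ψ (a + b) = ψ a * ψ b := by
      intro a b
      show σ1 ^ (a.1 + b.1) * τ1 ^ (a.2 + b.2) = σ1 ^ a.1 * τ1 ^ a.2 * (σ1 ^ b.1 * τ1 ^ b.2)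
      rw [pow_add, pow_add, mul_assoc, mul_assoc, ← mul_assoc (σ1 ^ b.1), ← mul_assoc (τ1 ^ a.2),
        (hcomm.pow_pow b.1 a.2).eq]
    let s : Fin L → ℕ × ℕ := fun r => (1, if r = 0 then 1 else 0)
    have hs : ∑ r, s r = (L, 1) := by
      apply Prod.ext
      · rw [Prod.fst_sum]
        simp [s]
      · rw [Prod.snd_sum]
        simp [s]
    set σ2 : Equiv.Perm ℕ := sk L (midp L (fun r => ψ (s r))) with hσ2
    have hσ2L : σ2 ^ L = lf L τ1 := by
      rw [hσ2, mid_powL ψ hψ0 hψ L s, hs]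
      congr 1
      show σ1 ^ L * τ1 ^ 1 = τ1
      rw [hL, pow_mul, hσ1M, one_pow, one_mul, pow_one]
    set K2 := K1 * L with hK2
    have hK2p : 0 < K2 := by positivity
    have hT2u : rp K2 hK2p σ2 ∈ u := by
      apply g1
      refine lt_of_lt_of_le (lt_of_le_of_lt ?_ hLsmall) hδθ1
      have e3 : ((rp K hK σ).1 : ℝ → ℝ) = rpf K1 σ1 := by
        rw [← e1]
        rfl
      rw [e3]
      refine sk_close1 N1 K1 L hK1p (midp L (fun r => ψ (s r))) σ1 ?_
      intro a r hr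
      show (σ1 ^ 1 * τ1 ^ (if r = 0 then 1 else 0)) a = σ1 a
      rw [if_neg hr, pow_one, pow_zero, mul_one]
    obtain ⟨N2, m2, hm2, θ2, hθ2, g2⟩ := nhds_dN F (rp K hK τ) v (hvo.mem_nhds hv) K1 hK1p
    have hK3 : 0 < K1 * m2 := by positivity
    obtain ⟨δ, hδ, hδθ2⟩ := ofReal_small θ2 hθ2
    have hδ' : 0 < ENNReal.ofReal (δ / 3) := by rw [ENNReal.ofReal_pos]; positivity
    have hzz : ∀ c : ℤ, c = L ∨ c = -L → ((zpA (rp K2 hK2p σ2) c).1 : ℝ → ℝ) = (rp K hK τ).1 := by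
      intro c hc
      have e4 : σ2 ^ c = lf L τ1 := by
        rcases hc with rfl | rfl
        · rw [zpow_natCast, hσ2L]
        · rw [zpow_neg, zpow_natCast, hσ2L]
          rw [inv_eq_iff_mul_eq_one, ← lf_mul, hτ1, lf_one]
      funext x
      rw [zpA_rp, e4]
      have e5 : rp K2 hK2p (lf L τ1) = rp K hK τ := by
        rw [← e2]
        exact rp_lf K1 L hK1p hK2p τ1
      rw [← e5]
      rfl
    let s' : Fin 2 → ℤ := fun r => if r = 0 then L else -L
    have hs' : ∑ r, s' r = 0 := by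
      rw [Fin.sum_univ_two]
      simp [s']
    have hs'c : ∀ r, s' r = L ∨ s' r = -L := by
      intro r
      simp only [s']
      split_ifs
      · exact Or.inl rfl
      · exact Or.inr rfl
    let V : Set Au := {T | ∀ r : Fin 2, dN N2 (K1 * m2) (zpA T (s' r)).1 (rp K hK τ).1 < ENNReal.ofReal (δ / 3)} ∩ u
    have hV : V ∈ 𝓝 (rp K2 hK2p σ2) := by
      refine Filter.inter_mem ?_ (huo.mem_nhds hT2u)
      have h7 : ∀ r : Fin 2, ∀ᶠ T in 𝓝 (rp K2 hK2p σ2),
          dN N2 (K1 * m2) (zpA T (s' r)).1 (rp K hK τ).1 < ENNReal.ofReal (δ / 3) := by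
        intro r
        have h8 := tend_zpA F (𝓝 (rp K2 hK2p σ2)) id (rp K2 hK2p σ2) Filter.tendsto_id (s' r)
        have h9 := h8.eventually (dN_nhds F (zpA (rp K2 hK2p σ2) (s' r)) N2 (K1 * m2) hK3 _ hδ')
        filter_upwards [h9] with T hT
        rw [← hzz (s' r) (hs'c r)]
        exact hT
      exact Filter.eventually_all.2 h7
    refine ⟨rp K2 hK2p σ2, ?_⟩
    have hsub : interior V ⊆ closure (Prod.fst '' (U ∩ DD)) := by
      intro T' hT'
      rw [mem_closure_iff_nhds]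
      intro W hW
      have h11 : interior V ∩ W ∈ 𝓝 T' := Filter.inter_mem (isOpen_interior.mem_nhds hT') hW
      obtain ⟨K4, hK4, σ4, M4, hd4, hM4, hσ4, h12⟩ := dens F T' _ h11 (K1 * m2) hK3
      have hK42 : 0 < K4 * 2 := by positivity
      have h13 : rp K4 hK4 σ4 ∈ V := interior_subset h12.1
      refine ⟨rp K4 hK4 σ4, h12.2, (rp K4 hK4 σ4, rp (K4 * 2) hK42 (sk 2 (midp 2 (fun r => σ4 ^ s' r)))),
        ⟨huv ⟨h13.2, ?_⟩, pair_mem K4 hK4 hK42 σ4 M4 hM4 hσ4 s' hs'⟩, rfl⟩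
      apply g2
      refine lt_of_le_of_lt (sk_close2 N2 (K1 * m2) K4 2 hK3 hK4 hd4 (midp 2 (fun r => σ4 ^ s' r))
        (fun r => σ4 ^ s' r) (fun _ _ => rfl) _) ?_
      have h14 : ∀ r ∈ (Finset.univ : Finset (Fin 2)), dN N2 (K1 * m2) (rpf K4 (σ4 ^ s' r)) (rp K hK τ).1 ≤
          ENNReal.ofReal (δ / 3) := by
        intro r _
        have h15 := (h13.1 r).le
        have h16 : ((zpA (rp K4 hK4 σ4) (s' r)).1 : ℝ → ℝ) = rpf K4 (σ4 ^ s' r) := by
          funext x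
          rw [zpA_rp]
        rw [h16] at h15
        exact h15
      calc _ ≤ ∑ r : Fin 2, ENNReal.ofReal (δ / 3) := Finset.sum_le_sum h14
        _ = ENNReal.ofReal (2 * (δ / 3)) := by
            rw [Finset.sum_const, Finset.card_univ, Fintype.card_fin, nsmul_eq_mul, ← ENNReal.ofReal_natCast,
              ← ENNReal.ofReal_mul (by positivity)]
            norm_num
        _ < ENNReal.ofReal δ := by
            rw [ENNReal.ofReal_lt_ofReal_iff hδ]
            linarith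
        _ ≤ θ2 := hδθ2
    exact mem_interior.2 ⟨interior V, hsub, isOpen_interior, mem_interior_iff_mem_nhds.2 hV⟩
  · rw [dense_iff_inter_open]
    rintro W hW ⟨T, hT⟩
    obtain ⟨K, hK, σ, M, _, hM, hσ, h⟩ := dens F T W (hW.mem_nhds hT) 1 one_pos
    have hK2 : 0 < K * 2 := by positivity
    refine ⟨rp K hK σ, h, (rp K hK σ, rp (K * 2) hK2 (sk 2 (midp 2 (fun r => σ ^ (fun _ => (0 : ℤ)) r)))), ⟨?_, ?_⟩, rfl⟩
    · simp only [O, mem_iUnion]
      exact ⟨cs (K * 2) {0}, cs_meas _ _, cs_fin _ hK2 _, flip_nontriv K hK2 _⟩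
    · exact pair_mem K hK hK2 σ M hM hσ (fun _ => 0) (by simp)

end Pool.H359R3.IX
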