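import Mathlib
import Pool.Agent.H359R3.IX11

set_option autoImplicit false
set_option linter.unusedSectionVars false
set_option linter.unusedVariables false

/-!
Factors from commuting involutions; the statements for a general space.
-/

namespace Pool.H359R3.IX

open MeasureTheory Set Filter Topology
open scoped ENNReal symmDiff
open Pool.H359R3 Pool.H359R3.WH

section gen

variable {X : Type*} [mX : MeasurableSpace X] (μ : Measure X)

/-- Borel automorphisms preserving the measure -/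
abbrev PMAut : Type _ := {e : X ≃ᵐ X // MeasurePreserving (⇑e) μ μ}

/-- The weak topology: the coarsest topology for which `T ↦ μ (T⁻¹ A Δ B)` and `T ↦ μ (T A Δ B)` are
continuous for all measurable sets `A`, `B` of finite measure. -/
noncomputable abbrev weakTop : TopologicalSpace (PMAut μ) :=
  ⨅ (A : Set X) (B : Set X) (_ : MeasurableSet A) (_ : MeasurableSet B) (_ : μ A < ∞) (_ : μ B < ∞),
    TopologicalSpace.induced (fun T : PMAut μ => μ (symmDiff ((⇑T.1) ⁻¹' A) B)) inferInstance ⊓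
    TopologicalSpace.induced (fun T : PMAut μ => μ (symmDiff ((⇑T.1) '' A) B)) inferInstance

theorem weakTop_eq : weakTop μ = wt μ := by
  have himg : ∀ (A B : Set X), MeasurableSet A → MeasurableSet B →
      (fun T : PMAut μ => μ (symmDiff ((⇑T.1) '' A) B)) = (fun T : PMAut μ => μ (symmDiff ((⇑T.1) ⁻¹' B) A)) := by
    intro A B hA hB
    funext T
    have h1 : (⇑T.1) '' A = T.1.symm ⁻¹' A := T.1.toEquiv.image_eq_preimage_symm A
    rw [h1]
    exact symm_sd' T A B hA hB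
  apply le_antisymm
  · refine le_iInf fun A => le_iInf fun B => le_iInf fun hA => le_iInf fun hB => le_iInf fun hA' =>
      le_iInf fun hB' => ?_
    exact iInf_le_of_le A (iInf_le_of_le B (iInf_le_of_le hA (iInf_le_of_le hB (iInf_le_of_le hA'
      (iInf_le_of_le hB' inf_le_left)))))
  · refine le_iInf fun A => le_iInf fun B => le_iInf fun hA => le_iInf fun hB => le_iInf fun hA' =>
      le_iInf fun hB' => le_inf ?_ ?_
    · exact iInf_le_of_le A (iInf_le_of_le B (iInf_le_of_le hA (iInf_le_of_le hB (iInf_le_of_le hA'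
        (iInf_le_of_le hB' le_rfl)))))
    · rw [himg A B hA hB]
      exact iInf_le_of_le B (iInf_le_of_le A (iInf_le_of_le hB (iInf_le_of_le hA (iInf_le_of_le hB'
        (iInf_le_of_le hA' le_rfl)))))

variable {μ}

/-- a factor: an invariant (mod null sets) sub-sigma-algebra on which the measure is sigma-finite -/
def IsFactor {X : Type*} {mX : MeasurableSpace X} {μ : Measure X} (T : PMAut μ) (𝓕 : MeasurableSpace X) : Prop :=
  𝓕 ≤ mX ∧
  (∀ s, MeasurableSet[𝓕] s → ∃ t, MeasurableSet[𝓕] t ∧ μ (symmDiff ((⇑T.1) ⁻¹' s) t) = 0) ∧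
  (∀ s, MeasurableSet[𝓕] s → ∃ t, MeasurableSet[𝓕] t ∧ μ (symmDiff s ((⇑T.1) ⁻¹' t)) = 0) ∧
  ∃ U : ℕ → Set X, (∀ n, MeasurableSet[𝓕] (U n) ∧ μ (U n) < ∞) ∧ ⋃ n, U n = univ

/-- sets invariant under `J` modulo null sets -/
@[reducible] def invAlg (J : PMAut μ) : MeasurableSpace X where
  MeasurableSet' := fun s => MeasurableSet[mX] s ∧ μ ((J.1 ⁻¹' s) ∆ s) = 0
  measurableSet_empty := ⟨MeasurableSet.empty, by simp⟩
  measurableSet_compl := by
    rintro s ⟨hs, hs'⟩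
    refine ⟨hs.compl, ?_⟩
    rw [← hs']
    congr 1
    ext x
    simp only [Set.mem_symmDiff, mem_preimage, mem_compl_iff]
    tauto
  measurableSet_iUnion := by
    intro f hf
    refine ⟨MeasurableSet.iUnion (fun n => (hf n).1), ?_⟩
    have : (J.1 ⁻¹' (⋃ n, f n)) ∆ (⋃ n, f n) ⊆ ⋃ n, ((J.1 ⁻¹' f n) ∆ f n) := by
      intro x hx
      rw [Set.mem_symmDiff] at hx
      simp only [mem_preimage, mem_iUnion] at hx ⊢
      rcases hx with ⟨⟨n, h4⟩, h5⟩ | ⟨⟨n, h4⟩, h5⟩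
      · exact ⟨n, Or.inl ⟨h4, fun h => h5 ⟨n, h⟩⟩⟩
      · exact ⟨n, Or.inr ⟨h4, fun h => h5 ⟨n, h⟩⟩⟩
    refine measure_mono_null this ?_
    rw [measure_iUnion_null_iff]
    exact fun n => (hf n).2

theorem factor_of_invol [SigmaFinite μ] (T J : PMAut μ) (h1 : ∀ᵐ x ∂μ, T.1 (J.1 x) = J.1 (T.1 x))
    (h2 : ∀ᵐ x ∂μ, J.1 (J.1 x) = x) (h3 : ∃ A, MeasurableSet A ∧ μ ((J.1 ⁻¹' A) ∆ A) ≠ 0) :
    ∃ 𝓕 : MeasurableSpace X, IsFactor T 𝓕 ∧
      ∃ s, MeasurableSet[mX] s ∧ ∀ t, MeasurableSet[𝓕] t → μ (symmDiff s t) ≠ 0 := by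
  have hmem : ∀ s, MeasurableSet[invAlg J] s ↔ (MeasurableSet s ∧ μ ((J.1 ⁻¹' s) ∆ s) = 0) := fun s => Iff.rfl
  have h1' : ∀ᵐ x ∂μ, T.1.symm (J.1 x) = J.1 (T.1.symm x) := by
    have := (mp_symm T).quasiMeasurePreserving.ae h1
    filter_upwards [this] with x hx
    rw [T.1.apply_symm_apply] at hx
    rw [← hx, T.1.symm_apply_apply]
  have inv : ∀ (f : X → X), MeasurePreserving f μ μ → (∀ᵐ x ∂μ, f (J.1 x) = J.1 (f x)) →
      ∀ s, MeasurableSet[invAlg J] s → MeasurableSet[invAlg J] (f ⁻¹' s) := by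
    intro f hf hc s hs
    rw [hmem] at hs ⊢
    refine ⟨hf.measurable hs.1, ?_⟩
    have h4 : μ ((f ⁻¹' (J.1 ⁻¹' s)) ∆ (f ⁻¹' s)) = 0 := by
      rw [pre_sd hf _ _ (J.1.measurable hs.1) hs.1]
      exact hs.2
    rw [← h4]
    apply measure_congr
    refine EventuallyEq.symmDiff ?_ (ae_eq_refl _)
    filter_upwards [hc] with x hx
    apply propext
    show f (J.1 x) ∈ s ↔ J.1 (f x) ∈ s
    rw [hx]
  refine ⟨invAlg J, ⟨fun s hs => hs.1, ?_, ?_, ?_⟩, ?_⟩
  · intro s hs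
    exact ⟨_, inv T.1 T.2 h1 s hs, by simp⟩
  · intro s hs
    refine ⟨_, inv T.1.symm (mp_symm T) h1' s hs, ?_⟩
    have : (⇑T.1) ⁻¹' ((⇑T.1.symm) ⁻¹' s) = s := by
      ext x
      simp
    rw [this]
    simp
  · refine ⟨fun n => spanningSets μ n ∪ J.1 ⁻¹' spanningSets μ n, fun n => ⟨?_, ?_⟩, ?_⟩
    · rw [hmem]
      have hm := measurableSet_spanningSets μ n
      refine ⟨hm.union (J.1.measurable hm), ?_⟩
      have h4 : ∀ᵐ x ∂μ, ¬ (x ∈ (J.1 ⁻¹' (spanningSets μ n ∪ J.1 ⁻¹' spanningSets μ n)) ∆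
          (spanningSets μ n ∪ J.1 ⁻¹' spanningSets μ n)) := by
        filter_upwards [h2] with x hx
        rw [Set.mem_symmDiff]
        simp only [mem_preimage, mem_union]
        rw [hx]
        tauto
      rw [ae_iff] at h4
      simpa using h4
    · refine lt_of_le_of_lt (measure_union_le _ _) ?_
      rw [J.2.measure_preimage (measurableSet_spanningSets μ n).nullMeasurableSet]
      exact ENNReal.add_lt_top.2 ⟨measure_spanningSets_lt_top μ n, measure_spanningSets_lt_top μ n⟩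
    · rw [eq_univ_iff_forall]
      intro x
      have : x ∈ ⋃ n, spanningSets μ n := by rw [iUnion_spanningSets]; exact mem_univ x
      obtain ⟨n, hn⟩ := mem_iUnion.1 this
      exact mem_iUnion.2 ⟨n, Or.inl hn⟩
  · obtain ⟨A, hA, hA'⟩ := h3
    refine ⟨A, hA, fun t ht h0 => hA' ?_⟩
    rw [hmem] at ht
    have e1 := sd_tri (μ := μ) (J.1 ⁻¹' A) (J.1 ⁻¹' t) A
    have e2 := sd_tri (μ := μ) (J.1 ⁻¹' t) t A
    have h0' : μ (A ∆ t) = 0 := h0
    rw [pre_sd J.2 _ _ hA ht.1, h0', zero_add] at e1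
    rw [ht.2, symmDiff_comm t A, h0', zero_add] at e2
    exact le_antisymm (e1.trans e2) zero_le

end gen

/-- measure preserving maps of the half line with equal preimages agree almost everywhere -/
theorem ae_of_sd (f g : ℝ → ℝ) (hf : MeasurePreserving f mu mu) (hg : MeasurePreserving g mu mu)
    (h : ∀ A, MeasurableSet A → mu A < ∞ → mu ((f ⁻¹' A) ∆ (g ⁻¹' A)) = 0) :
    ∀ᵐ x ∂mu, f x = g x := by
  have h1 : ∀ᵐ x ∂mu, ∀ n : ℕ, ¬ (x ∈ (f ⁻¹' (Z n)) ∆ (g ⁻¹' (Z n))) := by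
    rw [ae_all_iff]
    intro n
    rw [ae_iff]
    simp only [not_not]
    exact h _ (Z_meas n) (by rw [mu_Z]; exact ENNReal.one_lt_top)
  have h2 : ∀ᵐ x ∂mu, ∀ n i : ℕ, ¬ (x ∈ (f ⁻¹' (AA i ∩ Z n)) ∆ (g ⁻¹' (AA i ∩ Z n))) := by
    rw [ae_all_iff]
    intro n
    rw [ae_all_iff]
    intro i
    rw [ae_iff]
    simp only [not_not]
    exact h _ ((AA_meas i).inter (Z_meas n))
      (lt_of_le_of_lt (measure_mono inter_subset_right) (by rw [mu_Z]; exact ENNReal.one_lt_top))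
  have h3 := hf.quasiMeasurePreserving.ae ae_nonneg
  filter_upwards [h1, h2, h3] with x h1 h2 h3
  have h4 : f x ∈ Z (fl 1 (f x)) := (mem_Z _ _).2 ⟨h3, rfl⟩
  have h5 := h1 (fl 1 (f x))
  have h6 := h2 (fl 1 (f x))
  apply AA_sep
  intro i
  have h7 := h6 i
  rw [Set.mem_symmDiff] at h5 h7
  simp only [mem_preimage, mem_inter_iff] at h5 h7
  tauto

/-- the generic statement on the half line -/
theorem model_main (n : ℕ) (hn : 0 < n) :
    {T : Au | (∃ J : Au, (∀ᵐ x ∂mu, T.1 (J.1 x) = J.1 (T.1 x)) ∧ (∀ᵐ x ∂mu, J.1 (J.1 x) = x) ∧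
        ∃ A, MeasurableSet A ∧ mu ((J.1 ⁻¹' A) ∆ A) ≠ 0) ∧
      ∃ S : Au, ∀ᵐ x ∂mu, (S.1 : ℝ → ℝ)^[n] x = T.1 x} ∈ @residual Au (weakTop mu) := by
  obtain ⟨F⟩ := exists_DF mu
  rw [weakTop_eq, wt_eq F]
  refine Filter.mem_of_superset (Filter.inter_mem (invol_inf F) (roots_inf F n hn)) ?_
  rintro T ⟨⟨J, h1, h2, A, hA, _, hAJ⟩, S, hS⟩
  refine ⟨⟨J, ?_, ?_, A, hA, hAJ⟩, S, ?_⟩
  · exact ae_of_sd (mulA T J).1 (mulA J T).1 (mulA T J).2 (mulA J T).2 (fun B hB hB' => sd_of_insep F _ _ h1 B hB hB')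
  · exact ae_of_sd (mulA J J).1 (oneA (μ := mu)).1 (mulA J J).2 (oneA (μ := mu)).2
      (fun B hB hB' => sd_of_insep F _ _ h2 B hB hB')
  · have := ae_of_sd T.1 (powA S n).1 T.2 (powA S n).2 (fun B hB hB' => sd_of_insep F _ _ hS B hB hB')
    filter_upwards [this] with x hx
    rw [hx, powA_apply]

end Pool.H359R3.IX
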