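import Mathlib
import Pool.Agent.H359R3.IX3

set_option autoImplicit false
set_option linter.unusedSectionVars false
set_option linter.unusedVariables false

/-!
Isomorphism theorem: an infinite sigma-finite nonatomic standard measure space is isomorphic to the
half line.
-/

namespace Pool.H359R3.IX

open MeasureTheory Set Filter Topology
open scoped ENNReal symmDiff
open Pool.H359R3 Pool.H359R3.WH

variable {X : Type*} [MeasurableSpace X] [StandardBorelSpace X] (μ : Measure X)

theorem not_countable_of_inf [NullSingletonClass μ] (hμ : μ univ = ∞) : ¬ Countable X := by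
  intro h
  have h1 : (univ : Set X).Countable := countable_univ
  have h2 := h1.measure_zero μ
  rw [hμ] at h2
  exact ENNReal.top_ne_zero h2

theorem exists_null' [SigmaFinite μ] [NullSingletonClass μ] (hμ : μ univ = ∞) :
    ∃ N0 : Set X, MeasurableSet N0 ∧ μ N0 = 0 ∧ ¬ N0.Countable := by
  have hprod : ¬ Countable (ℝ × ℝ) := by
    intro h
    apply real_not_countable
    exact Function.Injective.countable (f := fun x : ℝ => (x, (0:ℝ))) (fun a b h => congrArg Prod.fst h)
  let e := PolishSpace.measurableEquivOfNotCountable (not_countable_of_inf μ hμ) hprod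
  let A : ℝ → Set X := fun i => e ⁻¹' ({i} ×ˢ univ)
  have hA : ∀ i, MeasurableSet (A i) := fun i => e.measurable ((measurableSet_singleton i).prod MeasurableSet.univ)
  have hdisj : Pairwise (Function.onFun Disjoint A) := by
    intro i j hij
    rw [Function.onFun, Set.disjoint_left]
    rintro y ⟨h1, _⟩ ⟨h2, _⟩
    exact hij (h1.symm.trans h2)
  have h1 := Measure.countable_meas_pos_of_disjoint_iUnion (μ := μ) hA hdisj
  obtain ⟨i, hi⟩ : ∃ i, μ (A i) = 0 := by
    by_contra hcon
    push Not at hcon
    have h2 : {i : ℝ | 0 < μ (A i)} = univ := by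
      ext i
      simp only [mem_ofPred_eq, mem_univ, iff_true]
      exact pos_iff_ne_zero.2 (hcon i)
    rw [h2] at h1
    exact Cardinal.not_countable_real h1
  refine ⟨A i, hA i, hi, ?_⟩
  intro hc
  apply Cardinal.not_countable_real
  have h3 : ((fun t : ℝ => e.symm (i, t)) ⁻¹' (A i)).Countable :=
    hc.preimage (fun a b h => by
      have := e.symm.injective h
      exact congrArg Prod.snd this)
  refine h3.mono (fun t _ => ?_)
  show e (e.symm (i, t)) ∈ ({i} ×ˢ univ : Set (ℝ × ℝ))
  rw [e.apply_symm_apply]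
  exact ⟨rfl, mem_univ _⟩

theorem realize_gen' (N0 : Set X) (hN0m : MeasurableSet N0) (hN0 : μ N0 = 0) (hN0c : ¬ N0.Countable)
    (T : X → ℝ) (hT : Measurable T) (hmp : MeasurePreserving T μ mu)
    (X0 : Set X) (hX0 : MeasurableSet X0) (hX0c : μ X0ᶜ = 0) (hinj : InjOn T X0) :
    ∃ e : X ≃ᵐ ℝ, MeasurePreserving e μ mu := by
  classical
  let X1 : Set X := X0 ∩ N0ᶜ ∩ T ⁻¹' (Ici (0:ℝ))
  have hX1m : MeasurableSet X1 := (hX0.inter hN0m.compl).inter (hT measurableSet_Ici)
  have hI : mu (Ici (0:ℝ))ᶜ = 0 := by
    rw [Measure.restrict_apply measurableSet_Ici.compl, compl_inter_self, measure_empty]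
  have hX1c : μ X1ᶜ = 0 := by
    have : X1ᶜ ⊆ X0ᶜ ∪ N0 ∪ T ⁻¹' (Ici (0:ℝ))ᶜ := by
      intro x hx
      by_contra h
      apply hx
      simp only [mem_union, mem_compl_iff, not_or, not_not, mem_preimage] at h
      exact ⟨⟨h.1.1, h.1.2⟩, h.2⟩
    refine measure_mono_null this ?_
    rw [measure_union_null_iff, measure_union_null_iff]
    refine ⟨⟨hX0c, hN0⟩, ?_⟩
    rw [hmp.measure_preimage measurableSet_Ici.compl.nullMeasurableSet]
    exact hI
  let f : X1 → ℝ := fun x => T x
  have hf : Measurable f := hT.comp measurable_subtype_coe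
  have hfi : Function.Injective f := by
    intro x y h
    exact Subtype.ext (hinj x.2.1.1 y.2.1.1 h)
  have : StandardBorelSpace X1 := hX1m.standardBorel
  have hemb : MeasurableEmbedding f := hf.measurableEmbedding hfi
  have hY1m : MeasurableSet (range f) := hemb.measurableSet_range
  have : StandardBorelSpace ((X1)ᶜ : Set X) := hX1m.compl.standardBorel
  have : StandardBorelSpace ((range f)ᶜ : Set ℝ) := hY1m.compl.standardBorel
  have hn1 : ¬ Countable ((X1)ᶜ : Set X) := by
    intro hc
    have h1 : (X1ᶜ : Set X).Countable := hc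
    have h2 : N0 ⊆ X1ᶜ := by
      intro x hx h
      exact h.1.2 hx
    exact hN0c (h1.mono h2)
  have hn2 : ¬ Countable ((range f)ᶜ : Set ℝ) := by
    intro hc
    have h1 : ((range f)ᶜ : Set ℝ).Countable := hc
    have h2 : (Ioo (-1:ℝ) 0).Countable := h1.mono (by
      intro x hx
      rw [mem_compl_iff]
      rintro ⟨y, rfl⟩
      have h3 : 0 ≤ f y := y.2.2
      have h4 : f y < 0 := hx.2
      linarith)
    have := h2.measure_zero (volume : Measure ℝ)
    rw [Real.volume_Ioo] at this
    norm_num at this
  let e1 : X1 ≃ᵐ range f :=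
    { toEquiv := Equiv.ofInjective f hfi
      measurable_toFun := hf.subtype_mk
      measurable_invFun := by
        intro u hu
        have h1 : (Equiv.ofInjective f hfi).symm ⁻¹' u = Subtype.val ⁻¹' (f '' u) := by
          ext y
          constructor
          · intro hy
            refine ⟨_, hy, ?_⟩
            exact Equiv.apply_ofInjective_symm hfi y
          · rintro ⟨x, hx, hxy⟩
            have : y = Equiv.ofInjective f hfi x := Subtype.ext hxy.symm
            rw [this]
            simpa using hx
        show MeasurableSet ((Equiv.ofInjective f hfi).symm ⁻¹' u)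
        rw [h1]
        exact measurable_subtype_coe (hemb.measurableSet_image' hu) }
  let e2 : ((X1)ᶜ : Set X) ≃ᵐ ((range f)ᶜ : Set ℝ) :=
    PolishSpace.measurableEquivOfNotCountable hn1 hn2
  let e : X ≃ᵐ ℝ := (MeasurableEquiv.sumCompl hX1m).symm.trans
    ((MeasurableEquiv.sumCongr e1 e2).trans (MeasurableEquiv.sumCompl hY1m))
  have he : ∀ x ∈ X1, e x = T x := by
    intro x hx
    show (MeasurableEquiv.sumCompl hY1m) ((MeasurableEquiv.sumCongr e1 e2)
      ((MeasurableEquiv.sumCompl hX1m).symm x)) = T x
    have h1 : (MeasurableEquiv.sumCompl hX1m).symm x = Sum.inl ⟨x, hx⟩ := by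
      rw [MeasurableEquiv.symm_apply_eq]
      rfl
    rw [h1]
    rfl
  have hae : ∀ᵐ x ∂μ, e x = T x := by
    rw [ae_iff]
    refine measure_mono_null (fun x hx => ?_) hX1c
    intro hx1
    exact hx (he x hx1)
  refine ⟨e, e.measurable, ?_⟩
  rw [Measure.map_congr hae]
  exact hmp.map_eq

end Pool.H359R3.IX
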