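import Mathlib
import Pool.Agent.H359R3.IX13

set_option autoImplicit false
set_option linter.unusedSectionVars false
set_option linter.unusedVariables false

/-!
Isomorphism theorem, construction of the map.
-/

namespace Pool.H359R3.IX

open MeasureTheory Set Filter Topology
open scoped ENNReal symmDiff
open Pool.H359R3 Pool.H359R3.WH

/-- the affine image of Lebesgue measure on the unit interval -/
theorem affine_lam (t m : ℝ) (hm : 0 < m) (A : Set ℝ) (hA : MeasurableSet A) :
    ENNReal.ofReal m * lam ((fun u => t + m * u) ⁻¹' A) = volume (A ∩ Ico t (t + m)) := by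
  have hmeas : Measurable (fun u : ℝ => t + m * u) := by fun_prop
  rw [lam_eq _ (hmeas hA)]
  have h1 : (fun u => t + m * u) ⁻¹' A ∩ Ico (0:ℝ) 1 =
      (fun u => m * u) ⁻¹' ((fun y => t + y) ⁻¹' (A ∩ Ico t (t + m))) := by
    ext u
    simp only [mem_inter_iff, mem_preimage, mem_Ico]
    constructor
    · rintro ⟨h1, h2, h3⟩
      refine ⟨h1, ?_, ?_⟩
      · nlinarith
      · nlinarith
    · rintro ⟨h1, h2, h3⟩
      refine ⟨h1, ?_, ?_⟩
      · by_contra h
        nlinarith [not_le.1 h]
      · by_contra h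
        nlinarith [not_lt.1 h]
  rw [h1, Real.volume_preimage_mul_left hm.ne', measure_preimage_add, ← mul_assoc,
    ← ENNReal.ofReal_mul hm.le, abs_of_pos (inv_pos.2 hm), mul_inv_cancel₀ hm.ne', ENNReal.ofReal_one, one_mul]

theorem exists_iso_inf {X : Type*} [MeasurableSpace X] [StandardBorelSpace X] (μ : Measure X) [SigmaFinite μ]
    [NullSingletonClass μ] (hμ : μ univ = ∞) : ∃ e : X ≃ᵐ ℝ, MeasurePreserving e μ mu := by
  classical
  obtain ⟨N0, hN0m, hN0, hN0c⟩ := exists_null' μ hμ
  let S : ℕ → Set X := disjointed (spanningSets μ)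
  have hSm : ∀ n, MeasurableSet (S n) := fun n => MeasurableSet.disjointed (measurableSet_spanningSets μ) n
  have hSfin : ∀ n, μ (S n) < ∞ := fun n => lt_of_le_of_lt (measure_mono (disjointed_subset _ n))
    (measure_spanningSets_lt_top μ n)
  have hSdisj : Pairwise (Function.onFun Disjoint S) := disjoint_disjointed _
  have hSU : ⋃ n, S n = univ := by rw [iUnion_disjointed, iUnion_spanningSets]
  let m : ℕ → ℝ := fun n => (μ (S n)).toReal
  have hm0 : ∀ n, 0 ≤ m n := fun n => ENNReal.toReal_nonneg
  have hmof : ∀ n, ENNReal.ofReal (m n) = μ (S n) := fun n => ENNReal.ofReal_toReal (hSfin n).ne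
  let t : ℕ → ℝ := fun n => ∑ k ∈ Finset.range n, m k
  have htsucc : ∀ n, t (n + 1) = t n + m n := fun n => Finset.sum_range_succ _ _
  have htmono : Monotone t := monotone_nat_of_le_succ (fun n => by rw [htsucc]; linarith [hm0 n])
  have ht0 : t 0 = 0 := rfl
  have hsum : ∑' n, μ (S n) = ∞ := by
    rw [← measure_iUnion hSdisj hSm, hSU, hμ]
  have htunb : ∀ x : ℝ, ∃ n, x < t n := by
    intro x
    by_contra hcon
    push Not at hcon
    have h1 : ∑' n, μ (S n) ≤ ENNReal.ofReal x := by
      rw [ENNReal.tsum_eq_iSup_nat]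
      apply iSup_le
      intro n
      calc ∑ k ∈ Finset.range n, μ (S k) = ∑ k ∈ Finset.range n, ENNReal.ofReal (m k) := by
            apply Finset.sum_congr rfl
            intro k _
            rw [hmof]
        _ = ENNReal.ofReal (t n) := by
            rw [← ENNReal.ofReal_sum_of_nonneg (fun k _ => hm0 k)]
        _ ≤ ENNReal.ofReal x := ENNReal.ofReal_le_ofReal (hcon n)
    rw [hsum, top_le_iff] at h1
    exact ENNReal.ofReal_ne_top h1
  -- the pieces
  have hpiece : ∀ n, ∃ e : X → ℝ, Measurable e ∧ (μ (S n) ≠ 0 → Function.Injective e) ∧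
      ∀ A, MeasurableSet A → μ (e ⁻¹' A ∩ S n) = μ (S n) * lam A := by
    intro n
    by_cases h : μ (S n) = 0
    · refine ⟨fun _ => 0, measurable_const, fun h' => absurd h h', ?_⟩
      intro A hA
      rw [h, zero_mul]
      exact measure_mono_null inter_subset_right h
    · let P : Measure X := (μ (S n))⁻¹ • μ.restrict (S n)
      have hP : IsProbabilityMeasure P := by
        refine ⟨?_⟩
        show (μ (S n))⁻¹ * μ.restrict (S n) univ = 1
        rw [Measure.restrict_apply_univ, ENNReal.inv_mul_cancel h (hSfin n).ne]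
      have hPn : NullSingletonClass P := by
        refine ⟨fun x => ?_⟩
        show (μ (S n))⁻¹ * μ.restrict (S n) {x} = 0
        rw [measure_singleton, mul_zero]
      obtain ⟨e, he⟩ := Pool.H359R3.MX.exists_iso P
      refine ⟨e, e.measurable, fun _ => e.injective, ?_⟩
      intro A hA
      have h1 : P (e ⁻¹' A) = lam A := he.measure_preimage hA.nullMeasurableSet
      rw [← h1]
      show μ (e ⁻¹' A ∩ S n) = μ (S n) * ((μ (S n))⁻¹ * μ.restrict (S n) (e ⁻¹' A))
      rw [← mul_assoc, ENNReal.mul_inv_cancel h (hSfin n).ne, one_mul, Measure.restrict_apply (e.measurable hA)]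
  choose e he heinj hemp using hpiece
  let p : ℕ → X → Prop := fun n x => x ∈ S n
  have hpm : ∀ n, MeasurableSet {x | p n x} := hSm
  have hp : ∀ x, ∃ n, p n x := by
    intro x
    have : x ∈ ⋃ n, S n := by rw [hSU]; exact mem_univ x
    exact mem_iUnion.1 this
  let f : ℕ → X → ℝ := fun n x => t n + m n * e n x
  have hf : ∀ n, Measurable (f n) := fun n => ((he n).const_mul (m n)).const_add (t n)
  let T : X → ℝ := fun x => f (Nat.find (hp x)) x
  have hT : Measurable T := Measurable.find hf hpm hp
  have hTS : ∀ n x, x ∈ S n → T x = f n x := by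
    intro n x hx
    have h1 : Nat.find (hp x) = n := by
      by_contra hne
      exact (Set.disjoint_left.1 (hSdisj hne)) (Nat.find_spec (hp x)) hx
    show f (Nat.find (hp x)) x = f n x
    rw [h1]
  have hIdisj : Pairwise (Function.onFun Disjoint (fun n => Ico (t n) (t (n + 1)))) :=
    htmono.pairwise_disjoint_on_Ico_succ
  have hIU : ⋃ n, Ico (t n) (t (n + 1)) = Ici 0 := by
    ext x
    simp only [mem_iUnion, mem_Ico, mem_Ici]
    constructor
    · rintro ⟨n, h1, _⟩
      refine le_trans ?_ h1
      rw [← ht0]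
      exact htmono (Nat.zero_le n)
    · intro hx
      have hex : ∃ n, x < t n := htunb x
      have h1 := Nat.find_spec hex
      have h2 : Nat.find hex ≠ 0 := by
        intro h0
        rw [h0, ht0] at h1
        linarith
      obtain ⟨k, hk⟩ := Nat.exists_eq_succ_of_ne_zero h2
      refine ⟨k, ?_, ?_⟩
      · have := Nat.find_min hex (show k < Nat.find hex by omega)
        exact not_lt.1 this
      · rw [hk] at h1
        exact h1
  have hmp : MeasurePreserving T μ mu := by
    refine ⟨hT, ?_⟩
    ext A hA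
    rw [Measure.map_apply hT hA]
    have h1 : μ (T ⁻¹' A) = ∑' n, μ (T ⁻¹' A ∩ S n) := by
      rw [← measure_iUnion]
      · rw [← inter_iUnion, hSU, inter_univ]
      · intro i j hij
        exact (hSdisj hij).mono inter_subset_right inter_subset_right
      · exact fun n => (hT hA).inter (hSm n)
    have h2 : mu A = ∑' n, volume (A ∩ Ico (t n) (t (n + 1))) := by
      rw [Measure.restrict_apply hA, ← hIU, inter_iUnion, measure_iUnion]
      · intro i j hij
        exact (hIdisj hij).mono inter_subset_right inter_subset_right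
      · exact fun n => hA.inter measurableSet_Ico
    rw [h1, h2]
    congr 1
    funext n
    have h3 : T ⁻¹' A ∩ S n = (e n) ⁻¹' ((fun u => t n + m n * u) ⁻¹' A) ∩ S n := by
      ext x
      simp only [mem_inter_iff, mem_preimage]
      constructor
      · rintro ⟨h4, h5⟩
        rw [hTS n x h5] at h4
        exact ⟨h4, h5⟩
      · rintro ⟨h4, h5⟩
        rw [hTS n x h5]
        exact ⟨h4, h5⟩
    have hmeas : Measurable (fun u : ℝ => t n + m n * u) := by fun_prop
    rw [h3, hemp n _ (hmeas hA)]
    rcases (hm0 n).eq_or_lt with h0 | hpos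
    · have h5 : μ (S n) = 0 := by rw [← hmof, ← h0, ENNReal.ofReal_zero]
      rw [h5, zero_mul, htsucc, ← h0, add_zero, Ico_self, inter_empty, measure_empty]
    · rw [htsucc, ← affine_lam (t n) (m n) hpos A hA, hmof]
  -- the good set
  let G : ℕ → Set X := fun n => if μ (S n) = 0 then ∅ else (e n) ⁻¹' Ico (0:ℝ) 1 ∩ S n
  have hGm : ∀ n, MeasurableSet (G n) := by
    intro n
    simp only [G]
    split_ifs
    · exact MeasurableSet.empty
    · exact ((he n) measurableSet_Ico).inter (hSm n)
  have hG0 : ∀ n, μ (S n \ G n) = 0 := by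
    intro n
    simp only [G]
    split_ifs with h
    · rw [sdiff_empty]
      exact h
    · have h1 : S n \ ((e n) ⁻¹' Ico (0:ℝ) 1 ∩ S n) = (e n) ⁻¹' (Ico (0:ℝ) 1)ᶜ ∩ S n := by
        ext x
        simp only [Set.mem_sdiff, mem_inter_iff, mem_preimage, mem_compl_iff]
        tauto
      rw [h1, hemp n _ measurableSet_Ico.compl, lam_eq _ measurableSet_Ico.compl, compl_inter_self, measure_empty,
        mul_zero]
  refine realize_gen' μ N0 hN0m hN0 hN0c T hT hmp (⋃ n, G n) (MeasurableSet.iUnion hGm) ?_ ?_
  · have h1 : (⋃ n, G n)ᶜ ⊆ ⋃ n, (S n \ G n) := by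
      intro x hx
      obtain ⟨n, hn⟩ := hp x
      refine mem_iUnion.2 ⟨n, hn, fun h => hx (mem_iUnion.2 ⟨n, h⟩)⟩
    refine measure_mono_null h1 ?_
    rw [measure_iUnion_null_iff]
    exact hG0
  · intro x hx y hy hxy
    obtain ⟨n, hn⟩ := mem_iUnion.1 hx
    obtain ⟨k, hk⟩ := mem_iUnion.1 hy
    have key : ∀ n x, x ∈ G n → μ (S n) ≠ 0 ∧ x ∈ S n ∧ 0 < m n ∧ T x ∈ Ico (t n) (t (n + 1)) := by
      intro n x hx
      simp only [G] at hx
      split_ifs at hx with h
      · exact absurd hx (notMem_empty x)
      · have hpos : 0 < m n := ENNReal.toReal_pos h (hSfin n).ne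
        refine ⟨h, hx.2, hpos, ?_⟩
        rw [hTS n x hx.2]
        have h1 : 0 ≤ e n x := hx.1.1
        have h2 : e n x < 1 := hx.1.2
        show t n ≤ t n + m n * e n x ∧ t n + m n * e n x < t (n + 1)
        rw [htsucc]
        constructor
        · nlinarith
        · nlinarith
    obtain ⟨a1, a2, a3, a4⟩ := key n x hn
    obtain ⟨b1, b2, b3, b4⟩ := key k y hk
    have hnk : n = k := by
      by_contra hne
      rw [hxy] at a4
      exact (Set.disjoint_left.1 (hIdisj hne)) a4 b4
    subst hnk
    rw [hTS n x a2, hTS n y b2] at hxy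
    have hxy' : t n + m n * e n x = t n + m n * e n y := hxy
    have h5 : e n x = e n y := mul_left_cancel₀ a3.ne' (by linarith)
    exact heinj n a1 h5

end Pool.H359R3.IX
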