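import Mathlib
import Pool.Agent.H359R3.IX12
import Pool.Agent.H359R3.IX14

set_option autoImplicit false
set_option linter.unusedSectionVars false
set_option linter.unusedVariables false

/-!
Transport of the generic statement from the half line to a general space.
-/

namespace Pool.H359R3.IX

open MeasureTheory Set Filter Topology
open scoped ENNReal symmDiff
open Pool.H359R3 Pool.H359R3.WH

section tr

variable {X : Type*} [MeasurableSpace X] {μ : Measure X} (e : X ≃ᵐ ℝ) (he : MeasurePreserving e μ mu)

/-- conjugation -/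
def cj (T : PMAut μ) : Au :=
  ⟨e.symm.trans (T.1.trans e), (he.comp T.2).comp (MeasurePreserving.symm e he)⟩

/-- conjugation back -/
def bk (T : Au) : PMAut μ :=
  ⟨e.trans (T.1.trans e.symm), ((MeasurePreserving.symm e he).comp T.2).comp he⟩

theorem cj_bk (T : Au) : cj e he (bk e he T) = T := by
  apply Subtype.ext
  apply MeasurableEquiv.ext
  funext x
  show e (e.symm (T.1 (e (e.symm x)))) = T.1 x
  rw [e.apply_symm_apply, e.apply_symm_apply]

theorem cj_fun (T : PMAut μ) (A B : Set ℝ) (hA : MeasurableSet A) (hB : MeasurableSet B) :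
    mu (((cj e he T).1 ⁻¹' A) ∆ B) = μ ((T.1 ⁻¹' (e ⁻¹' A)) ∆ (e ⁻¹' B)) := by
  rw [← he.measure_preimage (((cj e he T).1.measurable hA).symmDiff hB).nullMeasurableSet]
  congr 1
  ext x
  simp only [mem_preimage, Set.mem_symmDiff]
  have : (cj e he T).1 (e x) = e (T.1 x) := by
    show e (T.1 (e.symm (e x))) = e (T.1 x)
    rw [e.symm_apply_apply]
  rw [this]

theorem wt_ind : wt μ = TopologicalSpace.induced (cj e he) (wt mu) := by
  apply le_antisymm
  · rw [← continuous_iff_le_induced]
    have : @Continuous _ _ (wt μ) (wt mu) (cj e he) := by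
      unfold wt
      rw [continuous_iInf_rng]; intro A
      rw [continuous_iInf_rng]; intro B
      rw [continuous_iInf_rng]; intro hA
      rw [continuous_iInf_rng]; intro hB
      rw [continuous_iInf_rng]; intro hA'
      rw [continuous_iInf_rng]; intro hB'
      rw [continuous_induced_rng]
      have h := wt_cont (μ := μ) (e ⁻¹' A) (e ⁻¹' B) (e.measurable hA) (e.measurable hB)
        (by rw [he.measure_preimage hA.nullMeasurableSet]; exact hA')
        (by rw [he.measure_preimage hB.nullMeasurableSet]; exact hB')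
      refine (congrArg (fun g => @Continuous _ ℝ≥0∞ (wt μ) _ g) ?_).mp h
      funext T
      exact (cj_fun e he T A B hA hB).symm
    exact this
  · refine le_iInf fun A => le_iInf fun B => le_iInf fun hA => le_iInf fun hB =>
      le_iInf fun hA' => le_iInf fun hB' => ?_
    rw [← continuous_iff_le_induced]
    have hsy := MeasurePreserving.symm e he
    have h := wt_cont (μ := mu) (e.symm ⁻¹' A) (e.symm ⁻¹' B) (e.symm.measurable hA) (e.symm.measurable hB)
        (by rw [hsy.measure_preimage hA.nullMeasurableSet]; exact hA')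
        (by rw [hsy.measure_preimage hB.nullMeasurableSet]; exact hB')
    have h2 : @Continuous _ _ (TopologicalSpace.induced (cj e he) (wt mu)) (wt mu) (cj e he) :=
      continuous_induced_dom
    have h3 := @Continuous.comp _ _ _ (TopologicalSpace.induced (cj e he) (wt mu)) (wt mu) _ _ _ h h2
    refine (congrArg (fun g => @Continuous _ ℝ≥0∞ (TopologicalSpace.induced (cj e he) (wt mu)) _ g) ?_).mp h3
    funext T
    show mu (((cj e he T).1 ⁻¹' (e.symm ⁻¹' A)) ∆ (e.symm ⁻¹' B)) = μ ((T.1 ⁻¹' A) ∆ B)
    rw [cj_fun e he T _ _ (e.symm.measurable hA) (e.symm.measurable hB)]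
    congr 2
    · ext x; simp
    · ext x; simp

theorem transport (R : Set Au) (hR : R ∈ @residual Au (weakTop mu)) :
    (cj e he) ⁻¹' R ∈ @residual (PMAut μ) (weakTop μ) := by
  rw [weakTop_eq] at hR ⊢
  have hc : @Continuous _ _ (wt μ) (wt mu) (cj e he) := by
    rw [wt_ind e he]
    exact continuous_induced_dom
  have ho : @IsOpenMap _ _ (wt μ) (wt mu) (cj e he) := by
    intro U hU
    rw [wt_ind e he] at hU
    obtain ⟨V, hV, rfl⟩ := hU
    rw [image_preimage_eq_of_subset]
    · exact hV
    · intro T _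
      exact ⟨bk e he T, cj_bk e he T⟩
  exact @tendsto_residual_of_isOpenMap _ _ (wt μ) (wt mu) (cj e he) hc ho R hR

end tr

/-- the general statement -/
theorem general_main {X : Type*} [mX : MeasurableSpace X] [StandardBorelSpace X] (μ : Measure X) [SigmaFinite μ]
    [NullSingletonClass μ] (hμ : μ univ = ∞) :
    {T : PMAut μ | (∃ 𝓕 : MeasurableSpace X, IsFactor T 𝓕 ∧
        ∃ s, MeasurableSet[mX] s ∧ ∀ t, MeasurableSet[𝓕] t → μ (symmDiff s t) ≠ 0) ∧
      ∀ n : ℕ, 2 ≤ n → ∃ S : PMAut μ, ∀ᵐ x ∂μ, (S.1 : X → X)^[n] x = T.1 x} ∈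
      @residual (PMAut μ) (weakTop μ) := by
  obtain ⟨e, he⟩ := exists_iso_inf μ hμ
  have h : ∀ n : ℕ, _ := fun n => transport e he _ (model_main (n + 1) (Nat.succ_pos n))
  have h2 := (countable_iInter_mem (l := @residual (PMAut μ) (weakTop μ))).2 h
  refine Filter.mem_of_superset h2 ?_
  intro T hT
  rw [mem_iInter] at hT
  have hcj : ∀ x, (cj e he T).1 (e x) = e (T.1 x) := by
    intro x
    show e (T.1 (e.symm (e x))) = e (T.1 x)
    rw [e.symm_apply_apply]
  have hbk : ∀ (S : Au) x, e ((bk e he S).1 x) = S.1 (e x) := by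
    intro S x
    show e (e.symm (S.1 (e x))) = S.1 (e x)
    rw [e.apply_symm_apply]
  refine ⟨?_, fun n hn => ?_⟩
  · obtain ⟨⟨J, h1, h2, A, hA, hAJ⟩, _⟩ := hT 0
    refine factor_of_invol T (bk e he J) ?_ ?_ ⟨e ⁻¹' A, e.measurable hA, ?_⟩
    · filter_upwards [he.quasiMeasurePreserving.ae h1] with x hx
      apply e.injective
      rw [← hcj, hbk, hx, hbk, hcj]
    · filter_upwards [he.quasiMeasurePreserving.ae h2] with x hx
      apply e.injective
      rw [hbk, hbk, hx]
    · intro h0
      apply hAJ
      rw [← he.measure_preimage ((J.1.measurable hA).symmDiff hA).nullMeasurableSet, ← h0]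
      congr 1
      ext x
      simp only [mem_preimage, Set.mem_symmDiff, hbk]
  · obtain ⟨_, S, hS⟩ := hT (n - 1)
    have e1 : n - 1 + 1 = n := by omega
    rw [e1] at hS
    refine ⟨bk e he S, ?_⟩
    have hit : ∀ k x, e (((bk e he S).1 : X → X)^[k] x) = (S.1 : ℝ → ℝ)^[k] (e x) := by
      intro k x
      induction k with
      | zero => rfl
      | succ k ih => rw [Function.iterate_succ_apply', Function.iterate_succ_apply', hbk, ih]
    filter_upwards [he.quasiMeasurePreserving.ae hS] with x hx
    apply e.injective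
    rw [hit, hx, hcj]

end Pool.H359R3.IX
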