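import Mathlib
import Pool.Agent.H359R3.IX10

set_option autoImplicit false
set_option linter.unusedSectionVars false
set_option linter.unusedVariables false

/-!
Suspension flows over interval exchanges of the half line.
-/

namespace Pool.H359R3.IX

open MeasureTheory Set Filter Topology
open scoped ENNReal symmDiff
open Pool.H359R3 Pool.H359R3.WH

/-- point of the cell `i` with fibre coordinate `u` -/
noncomputable def pt (K : ℕ) (i : ℕ) (u : ℝ) : ℝ := ((i : ℝ) + u) / K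

theorem pt_nonneg (K i : ℕ) (u : ℝ) (hu : 0 ≤ u) : 0 ≤ pt K i u := by unfold pt; positivity

theorem pt_mul (K : ℕ) (hK : 0 < K) (i : ℕ) (u : ℝ) : pt K i u * K = i + u := by
  unfold pt
  have h0 : (K : ℝ) ≠ 0 := by exact_mod_cast hK.ne'
  field_simp

theorem fl_pt (K : ℕ) (hK : 0 < K) (i : ℕ) (u : ℝ) (h0 : 0 ≤ u) (h1 : u < 1) : fl K (pt K i u) = i := by
  unfold fl
  rw [pt_mul K hK, Nat.floor_eq_iff (by positivity)]
  constructor <;> linarith

theorem fr_pt (K : ℕ) (hK : 0 < K) (i : ℕ) (u : ℝ) (h0 : 0 ≤ u) (h1 : u < 1) :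
    Int.fract (pt K i u * K) = u := by
  rw [pt_mul K hK, Int.fract_eq_iff]
  exact ⟨h0, h1, (i : ℤ), by push_cast; ring⟩

theorem exists_pt (K : ℕ) (hK : 0 < K) (x : ℝ) (hx : 0 ≤ x) :
    ∃ (i : ℕ) (u : ℝ), 0 ≤ u ∧ u < 1 ∧ x = pt K i u := by
  have h0 : (0 : ℝ) < K := by exact_mod_cast hK
  have h1 : ((fl K x : ℕ) : ℝ) = ((⌊x * K⌋ : ℤ) : ℝ) := by
    unfold fl
    exact natCast_floor_eq_intCast_floor (by positivity)
  refine ⟨fl K x, Int.fract (x * K), Int.fract_nonneg _, Int.fract_lt_one _, ?_⟩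
  unfold pt
  rw [h1, Int.floor_add_fract, mul_div_assoc, div_self h0.ne', mul_one]

/-- suspension flow -/
noncomputable def ps (K : ℕ) (σ : Equiv.Perm ℕ) (t x : ℝ) : ℝ :=
  if 0 ≤ x then pt K ((σ ^ ⌊Int.fract (x * K) + t⌋) (fl K x)) (Int.fract (Int.fract (x * K) + t)) else x

theorem ps_pt (K : ℕ) (hK : 0 < K) (σ : Equiv.Perm ℕ) (t : ℝ) (i : ℕ) (u : ℝ) (h0 : 0 ≤ u) (h1 : u < 1) :
    ps K σ t (pt K i u) = pt K ((σ ^ ⌊u + t⌋) i) (Int.fract (u + t)) := by
  unfold ps
  rw [if_pos (pt_nonneg K i u h0), fl_pt K hK i u h0 h1, fr_pt K hK i u h0 h1]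

theorem ps_neg (K : ℕ) (σ : Equiv.Perm ℕ) (t x : ℝ) (hx : ¬ 0 ≤ x) : ps K σ t x = x := if_neg hx

theorem ps_comp (K : ℕ) (hK : 0 < K) (σ : Equiv.Perm ℕ) (s t x : ℝ) :
    ps K σ s (ps K σ t x) = ps K σ (s + t) x := by
  by_cases hx : 0 ≤ x
  · obtain ⟨i, u, h0, h1, rfl⟩ := exists_pt K hK x hx
    rw [ps_pt K hK σ t i u h0 h1, ps_pt K hK σ s _ _ (Int.fract_nonneg _) (Int.fract_lt_one _),
      ps_pt K hK σ (s + t) i u h0 h1]
    have e1 : Int.fract (u + t) + s = (u + (s + t)) - ((⌊u + t⌋ : ℤ) : ℝ) := by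
      unfold Int.fract
      ring
    rw [e1, Int.floor_sub_intCast, Int.fract_sub_intCast, ← Equiv.Perm.mul_apply, ← zpow_add,
      sub_add_cancel]
  · rw [ps_neg K σ t x hx, ps_neg K σ s x hx, ps_neg K σ _ x hx]

theorem ps_zero (K : ℕ) (hK : 0 < K) (σ : Equiv.Perm ℕ) (x : ℝ) : ps K σ 0 x = x := by
  by_cases hx : 0 ≤ x
  · obtain ⟨i, u, h0, h1, rfl⟩ := exists_pt K hK x hx
    rw [ps_pt K hK σ 0 i u h0 h1, add_zero, Int.floor_eq_zero_iff.2 ⟨h0, h1⟩, zpow_zero,
      Int.fract_eq_self.2 ⟨h0, h1⟩, Equiv.Perm.one_apply]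
  · rw [ps_neg K σ 0 x hx]

theorem ps_int (K : ℕ) (hK : 0 < K) (σ : Equiv.Perm ℕ) (n : ℤ) (x : ℝ) :
    ps K σ n x = rpf K (σ ^ n) x := by
  by_cases hx : 0 ≤ x
  · obtain ⟨i, u, h0, h1, rfl⟩ := exists_pt K hK x hx
    rw [ps_pt K hK σ n i u h0 h1, Int.floor_add_intCast, Int.floor_eq_zero_iff.2 ⟨h0, h1⟩, zero_add,
      Int.fract_add_intCast, Int.fract_eq_self.2 ⟨h0, h1⟩, rpf_pos K _ _ hx, fl_pt K hK i u h0 h1]
    unfold pt
    have hK0 : (K : ℝ) ≠ 0 := by exact_mod_cast hK.ne'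
    field_simp
    ring
  · rw [ps_neg K σ n x hx, rpf_neg K _ x hx]

theorem ps_meas (K : ℕ) (σ : Equiv.Perm ℕ) (t : ℝ) : Measurable (ps K σ t) := by
  unfold ps pt
  apply Measurable.ite measurableSet_Ici
  · apply Measurable.div_const
    apply Measurable.add
    · have h1 : Measurable (fun x : ℝ => ((⌊Int.fract (x * K) + t⌋ : ℤ), fl K x)) :=
        (Int.measurable_floor.comp ((measurable_fract.comp (measurable_id.mul_const _)).add_const t)).prodMk
          (fl_meas K)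
      exact (measurable_of_countable (fun z : ℤ × ℕ => (((σ ^ z.1) z.2 : ℕ) : ℝ))).comp h1
    · exact measurable_fract.comp ((measurable_fract.comp (measurable_id.mul_const _)).add_const t)
  · exact measurable_id

theorem split_Ico (A : Set ℝ) (hA : MeasurableSet A) (a b c : ℝ) (h1 : a ≤ b) (h2 : b ≤ c) :
    volume (A ∩ Ico a c) = volume (A ∩ Ico a b) + volume (A ∩ Ico b c) := by
  rw [← Ico_union_Ico_eq_Ico h1 h2, inter_union_distrib_left, measure_union _ (hA.inter measurableSet_Ico)]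
  rw [Set.disjoint_left]
  rintro x ⟨_, h3⟩ ⟨_, h4⟩
  exact absurd h3.2 (not_lt.2 h4.1)

theorem ps_mp_small (K : ℕ) (hK : 0 < K) (σ : Equiv.Perm ℕ) (r : ℝ) (hr0 : 0 ≤ r) (hr1 : r < 1) :
    MeasurePreserving (ps K σ r) mu mu := by
  have hK0 : (0 : ℝ) < K := by exact_mod_cast hK
  refine ⟨ps_meas K σ r, ?_⟩
  ext A hA
  have hB := ps_meas K σ r hA
  rw [Measure.map_apply (ps_meas K σ r) hA, mu_split K hK _ hB, mu_split K hK _ hA]
  have hdiv : ∀ a b : ℝ, a ≤ b → a / K ≤ b / K := fun a b h => div_le_div_of_nonneg_right h hK0.le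
  have h1 : ∀ i : ℕ, volume (ps K σ r ⁻¹' A ∩ Ik K i) =
      volume (A ∩ Ico (((i : ℝ) + r) / K) (((i : ℝ) + 1) / K)) +
      volume (A ∩ Ico (((σ i : ℕ) : ℝ) / K) ((((σ i : ℕ) : ℝ) + r) / K)) := by
    intro i
    unfold Ik
    rw [split_Ico _ hB ((i : ℝ) / K) (((i : ℝ) + 1 - r) / K) (((i : ℝ) + 1) / K)
      (hdiv _ _ (by linarith)) (hdiv _ _ (by linarith))]
    congr 1
    · have h2 : ps K σ r ⁻¹' A ∩ Ico ((i : ℝ) / K) (((i : ℝ) + 1 - r) / K) =
          (fun x => x + r / K) ⁻¹' (A ∩ Ico (((i : ℝ) + r) / K) (((i : ℝ) + 1) / K)) := by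
        ext x
        simp only [mem_inter_iff, mem_preimage, mem_Ico]
        have e1 : (((i : ℝ) + r) / K ≤ x + r / K ∧ x + r / K < ((i : ℝ) + 1) / K) ↔
            ((i : ℝ) / K ≤ x ∧ x < ((i : ℝ) + 1 - r) / K) := by
          rw [div_le_iff₀ hK0, lt_div_iff₀ hK0, div_le_iff₀ hK0, lt_div_iff₀ hK0, add_mul,
            div_mul_cancel₀ _ hK0.ne']
          constructor
          · rintro ⟨h3, h4⟩; constructor <;> linarith
          · rintro ⟨h3, h4⟩; constructor <;> linarith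
        rw [e1]
        refine and_congr_left fun h3 => ?_
        have e2 : ps K σ r x = x + r / K := by
          have e3 : x = pt K i (x * K - i) := by
            unfold pt
            field_simp
            ring
          have h4 : (i : ℝ) ≤ x * K := by have := h3.1; rwa [div_le_iff₀ hK0] at this
          have h5 : x * K < (i : ℝ) + 1 - r := by have := h3.2; rwa [lt_div_iff₀ hK0] at this
          conv_lhs => rw [e3]
          rw [ps_pt K hK σ r i _ (by linarith) (by linarith),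
            Int.floor_eq_zero_iff.2 ⟨by linarith, by linarith⟩,
            Int.fract_eq_self.2 ⟨by linarith, by linarith⟩, zpow_zero, Equiv.Perm.one_apply]
          unfold pt
          field_simp
          ring
        rw [e2]
      rw [h2, measure_preimage_add_right]
    · have h2 : ps K σ r ⁻¹' A ∩ Ico (((i : ℝ) + 1 - r) / K) (((i : ℝ) + 1) / K) =
          (fun x => x + (((σ i : ℕ) : ℝ) - i + r - 1) / K) ⁻¹'
            (A ∩ Ico (((σ i : ℕ) : ℝ) / K) ((((σ i : ℕ) : ℝ) + r) / K)) := by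
        ext x
        simp only [mem_inter_iff, mem_preimage, mem_Ico]
        have e1 : (((σ i : ℕ) : ℝ) / K ≤ x + (((σ i : ℕ) : ℝ) - i + r - 1) / K ∧
            x + (((σ i : ℕ) : ℝ) - i + r - 1) / K < (((σ i : ℕ) : ℝ) + r) / K) ↔
            (((i : ℝ) + 1 - r) / K ≤ x ∧ x < ((i : ℝ) + 1) / K) := by
          rw [div_le_iff₀ hK0, lt_div_iff₀ hK0, div_le_iff₀ hK0, lt_div_iff₀ hK0, add_mul,
            div_mul_cancel₀ _ hK0.ne']
          constructor
          · rintro ⟨h3, h4⟩; constructor <;> linarith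
          · rintro ⟨h3, h4⟩; constructor <;> linarith
        rw [e1]
        refine and_congr_left fun h3 => ?_
        have e2 : ps K σ r x = x + (((σ i : ℕ) : ℝ) - i + r - 1) / K := by
          have e3 : x = pt K i (x * K - i) := by
            unfold pt
            field_simp
            ring
          have h4 : (i : ℝ) + 1 - r ≤ x * K := by have := h3.1; rwa [div_le_iff₀ hK0] at this
          have h5 : x * K < (i : ℝ) + 1 := by have := h3.2; rwa [lt_div_iff₀ hK0] at this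
          have h6 : ⌊x * K - i + r⌋ = 1 := by
            rw [Int.floor_eq_iff]
            push_cast
            constructor <;> linarith
          conv_lhs => rw [e3]
          rw [ps_pt K hK σ r i _ (by linarith) (by linarith)]
          unfold Int.fract
          rw [h6, zpow_one]
          unfold pt
          field_simp
          push_cast
          ring
        rw [e2]
      rw [h2, measure_preimage_add_right]
  simp_rw [h1]
  rw [ENNReal.tsum_add, Equiv.tsum_eq σ (fun j : ℕ => volume (A ∩ Ico ((j : ℝ) / K) (((j : ℝ) + r) / K))),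
    add_comm, ← ENNReal.tsum_add]
  congr 1
  funext j
  unfold Ik
  rw [split_Ico _ hA ((j : ℝ) / K) (((j : ℝ) + r) / K) (((j : ℝ) + 1) / K)
      (hdiv _ _ (by linarith)) (hdiv _ _ (by linarith))]

theorem ps_mp (K : ℕ) (hK : 0 < K) (σ : Equiv.Perm ℕ) (t : ℝ) : MeasurePreserving (ps K σ t) mu mu := by
  have h1 : ps K σ t = ps K σ (Int.fract t) ∘ rpf K (σ ^ ⌊t⌋) := by
    funext x
    rw [Function.comp_apply, ← ps_int K hK, ps_comp K hK, Int.fract_add_floor]
  rw [h1]
  exact (ps_mp_small K hK σ _ (Int.fract_nonneg t) (Int.fract_lt_one t)).comp (rpf_mp K hK _)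

/-- the flow as automorphisms -/
noncomputable def FL (K : ℕ) (hK : 0 < K) (σ : Equiv.Perm ℕ) (t : ℝ) : Au :=
  ⟨{ toFun := ps K σ t
     invFun := ps K σ (-t)
     left_inv := fun x => by rw [ps_comp K hK, neg_add_cancel, ps_zero K hK]
     right_inv := fun x => by rw [ps_comp K hK, add_neg_cancel, ps_zero K hK]
     measurable_toFun := ps_meas K σ t
     measurable_invFun := ps_meas K σ (-t) }, ps_mp K hK σ t⟩

theorem au_ext (S T : Au) (h : ∀ x, S.1 x = T.1 x) : S = T := by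
  apply Subtype.ext
  apply MeasurableEquiv.ext
  funext x
  exact h x

theorem FL_add (K : ℕ) (hK : 0 < K) (σ : Equiv.Perm ℕ) (s t : ℝ) :
    FL K hK σ (s + t) = mulA (FL K hK σ s) (FL K hK σ t) :=
  au_ext _ _ fun x => (ps_comp K hK σ s t x).symm

theorem FL_zero (K : ℕ) (hK : 0 < K) (σ : Equiv.Perm ℕ) : FL K hK σ 0 = oneA :=
  au_ext _ _ fun x => ps_zero K hK σ x

theorem FL_neg (K : ℕ) (hK : 0 < K) (σ : Equiv.Perm ℕ) (t : ℝ) :
    invA (FL K hK σ t) = FL K hK σ (-t) :=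
  au_ext _ _ fun x => rfl

theorem FL_int (K : ℕ) (hK : 0 < K) (σ : Equiv.Perm ℕ) (n : ℤ) :
    FL K hK σ n = rp K hK (σ ^ n) :=
  au_ext _ _ fun x => ps_int K hK σ n x

theorem FL_pow (K : ℕ) (hK : 0 < K) (σ : Equiv.Perm ℕ) (s : ℝ) (k : ℕ) :
    powA (FL K hK σ s) k = FL K hK σ (k * s) := by
  induction k with
  | zero =>
    rw [Nat.cast_zero, zero_mul, FL_zero]
    rfl
  | succ k ih =>
    show mulA _ (powA _ k) = _
    rw [ih, ← FL_add]
    congr 1
    push_cast
    ring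

theorem FL_zp (K : ℕ) (hK : 0 < K) (σ : Equiv.Perm ℕ) (s : ℝ) (k : ℤ) :
    zpA (FL K hK σ s) k = FL K hK σ (k * s) := by
  cases k with
  | ofNat k =>
    show powA (FL K hK σ s) k = _
    rw [FL_pow]
    simp
  | negSucc k =>
    show powA (invA (FL K hK σ s)) (k + 1) = _
    rw [FL_neg, FL_pow]
    congr 1
    push_cast
    ring

end Pool.H359R3.IX
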