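import Mathlib
import Pool.Agent.H359R3.IX16

set_option autoImplicit false
set_option linter.unusedSectionVars false
set_option linter.unusedVariables false

/-!
Continuity of suspension flows; flows over exchanges close to the identity.
-/

namespace Pool.H359R3.IX

open MeasureTheory Set Filter Topology
open scoped ENNReal symmDiff
open Pool.H359R3 Pool.H359R3.WH

theorem edge_small (K N : ℕ) (hK : 0 < K) (ε : ℝ) (h0 : 0 ≤ ε) :
    mu {x | x < (N : ℝ) ∧ 1 - ε ≤ Int.fract (x * K)} ≤ ENNReal.ofReal (N * ε) := by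
  have hK0 : (0 : ℝ) < K := by exact_mod_cast hK
  calc mu {x | x < (N : ℝ) ∧ 1 - ε ≤ Int.fract (x * K)}
      ≤ mu (⋃ k ∈ Finset.range (N * K), Ico (((k : ℝ) + 1 - ε) / K) (((k : ℝ) + 1) / K)) := by
        apply measure_mono_ae
        filter_upwards [ae_nonneg] with x hx hmem
        have hmem' : x < (N : ℝ) ∧ 1 - ε ≤ Int.fract (x * K) := hmem
        obtain ⟨i, u, h3, h4, rfl⟩ := exists_pt K hK x hx
        rw [fr_pt K hK i u h3 h4] at hmem'
        show pt K i u ∈ ⋃ k ∈ Finset.range (N * K), Ico (((k : ℝ) + 1 - ε) / K) (((k : ℝ) + 1) / K)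
        simp only [mem_iUnion, Finset.mem_range, exists_prop, mem_Ico]
        refine ⟨i, ?_, ?_, ?_⟩
        · have := (fl_lt_iff K N hK _ hx).2 hmem'.1
          rwa [fl_pt K hK i u h3 h4] at this
        · unfold pt
          exact div_le_div_of_nonneg_right (by linarith) hK0.le
        · unfold pt
          exact div_lt_div_of_pos_right (by linarith) hK0
    _ ≤ ∑ k ∈ Finset.range (N * K), mu (Ico (((k : ℝ) + 1 - ε) / K) (((k : ℝ) + 1) / K)) :=
        measure_biUnion_finset_le _ _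
    _ ≤ ∑ k ∈ Finset.range (N * K), ENNReal.ofReal (ε / K) := by
        apply Finset.sum_le_sum
        intro k _
        refine le_trans ((Measure.le_iff'.1 Measure.restrict_le_self) _) ?_
        rw [Real.volume_Ico]
        apply ENNReal.ofReal_le_ofReal
        apply le_of_eq
        field_simp
        ring
    _ = _ := by
        rw [Finset.sum_const, Finset.card_range, nsmul_eq_mul, ← ENNReal.ofReal_natCast,
          ← ENNReal.ofReal_mul (by positivity)]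
        congr 1
        push_cast
        field_simp

theorem ps_close (N K m : ℕ) (hK : 0 < K) (hm : 0 < m) (σ : Equiv.Perm ℕ) (h : ℝ) (h0 : 0 ≤ h) :
    dN N (K * m) (ps K σ h) id ≤ ENNReal.ofReal (N * (h * m)) := by
  have hm0 : (0 : ℝ) < m := by exact_mod_cast hm
  refine le_trans (measure_mono_ae (t := {x | x < (N : ℝ) ∧ 1 - h * m ≤ Int.fract (x * ((K * m : ℕ) : ℝ))}) ?_)
    (edge_small (K * m) N (by positivity) (h * m) (by positivity))
  filter_upwards [ae_nonneg] with x hx hmem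
  have hmem' : x < (N : ℝ) ∧ fl (K * m) (ps K σ h x) ≠ fl (K * m) (id x) := hmem
  show x < (N : ℝ) ∧ 1 - h * m ≤ Int.fract (x * ((K * m : ℕ) : ℝ))
  refine ⟨hmem'.1, ?_⟩
  by_contra hc
  push Not at hc
  apply hmem'.2
  obtain ⟨i, u, h3, h4, rfl⟩ := exists_pt K hK x hx
  have e1 : ∀ v : ℝ, pt K i v * ((K * m : ℕ) : ℝ) = i * m + v * m := by
    intro v
    rw [Nat.cast_mul, ← mul_assoc, pt_mul K hK, add_mul]
  have e2 : u + h < 1 := by
    by_contra hcc
    push Not at hcc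
    have h5 : ⌊(i : ℝ) * m + u * m⌋ < (i : ℤ) * m + m := by
      rw [Int.floor_lt]
      push_cast
      nlinarith
    have h6 : ((⌊(i : ℝ) * m + u * m⌋ : ℤ) : ℝ) ≤ (i : ℝ) * m + m - 1 := by
      have := Int.le_sub_one_of_lt h5
      exact_mod_cast this
    rw [e1] at hc
    unfold Int.fract at hc
    nlinarith
  show fl (K * m) (ps K σ h (pt K i u)) = fl (K * m) (pt K i u)
  rw [ps_pt K hK σ h i u h3 h4, Int.floor_eq_zero_iff.2 ⟨by linarith, e2⟩, zpow_zero,
    Int.fract_eq_self.2 ⟨by linarith, e2⟩, Equiv.Perm.one_apply]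
  unfold fl
  rw [e1, e1]
  rw [e1] at hc
  have ha : 0 ≤ (i : ℝ) * m + u * m := by positivity
  have h7 : ((⌊(i : ℝ) * m + u * m⌋₊ : ℕ) : ℝ) = ((⌊(i : ℝ) * m + u * m⌋ : ℤ) : ℝ) :=
    natCast_floor_eq_intCast_floor ha
  rw [Nat.floor_eq_iff (by positivity), h7]
  have h8 := Int.floor_le ((i : ℝ) * m + u * m)
  unfold Int.fract at hc
  constructor
  · nlinarith
  · nlinarith

theorem FL_small (F : DF mu) (K : ℕ) (hK : 0 < K) (σ : Equiv.Perm ℕ) :
    Tendsto (fun h => FL K hK σ h) (𝓝 0) (@nhds Au (un F).toTopologicalSpace oneA) := by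
  intro O hO
  have hO2 : {T : Au | T ∈ O ∧ invA T ∈ O} ∈ @nhds Au (un F).toTopologicalSpace oneA := by
    refine Filter.inter_mem hO ?_
    have h1 := tend_inv F (@nhds Au (un F).toTopologicalSpace oneA) id oneA Filter.tendsto_id
    have e : invA (oneA : Au) = oneA := au_ext _ _ (fun x => rfl)
    rw [e] at h1
    exact h1 hO
  obtain ⟨N, m, hm, θ, hθ, h1⟩ := nhds_dN F oneA _ hO2 K hK
  obtain ⟨δ0, hδ0, hδθ⟩ := ofReal_small θ hθ
  have hm0 : (0 : ℝ) < m := by exact_mod_cast hm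
  have hδ : 0 < δ0 / ((N + 1) * m) := by positivity
  rw [mem_map, Metric.mem_nhds_iff]
  refine ⟨δ0 / ((N + 1) * m), hδ, ?_⟩
  intro h hh
  rw [Metric.mem_ball, dist_zero_right, Real.norm_eq_abs] at hh
  have key : ∀ g : ℝ, 0 ≤ g → g < δ0 / ((N + 1) * m) → FL K hK σ g ∈ O ∧ invA (FL K hK σ g) ∈ O := by
    intro g g0 g1
    have h2 : dN N (K * m) (ps K σ g) id < θ := by
      rw [lt_div_iff₀ (by positivity)] at g1
      have g3 : (N : ℝ) * (g * m) < δ0 := by
        have : 0 ≤ g * m := by positivity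
        nlinarith
      exact lt_of_le_of_lt (ps_close N K m hK hm σ g g0)
        (lt_of_lt_of_le ((ENNReal.ofReal_lt_ofReal_iff hδ0).2 g3) hδθ)
    exact h1 (FL K hK σ g) h2
  show FL K hK σ h ∈ O
  rcases le_total 0 h with h0 | h0
  · exact (key h h0 (by rwa [abs_of_nonneg h0] at hh)).1
  · have := (key (-h) (by linarith) (by rwa [abs_of_nonpos h0] at hh)).2
    rwa [FL_neg, neg_neg] at this

theorem FL_cont (F : DF mu) (K : ℕ) (hK : 0 < K) (σ : Equiv.Perm ℕ) :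
    @Continuous ℝ Au _ (un F).toTopologicalSpace (fun t => FL K hK σ t) := by
  rw [@continuous_iff_continuousAt _ _ _ (un F).toTopologicalSpace]
  intro t0
  have h1 : Tendsto (fun t : ℝ => t - t0) (𝓝 t0) (𝓝 0) := by
    have h0 : Continuous (fun t : ℝ => t - t0) := by fun_prop
    have h := h0.tendsto t0
    rwa [sub_self] at h
  have h2 : Tendsto (fun t : ℝ => FL K hK σ (t - t0)) (𝓝 t0) (@nhds Au (un F).toTopologicalSpace oneA) :=
    (FL_small F K hK σ).comp h1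
  have h3 : Tendsto (fun _ : ℝ => FL K hK σ t0) (𝓝 t0) (@nhds Au (un F).toTopologicalSpace (FL K hK σ t0)) := by
    let _ : TopologicalSpace Au := (un F).toTopologicalSpace
    exact tendsto_const_nhds
  have h4 := tend_mul F (𝓝 t0) _ _ _ _ h2 h3
  have e1 : mulA oneA (FL K hK σ t0) = FL K hK σ t0 := au_ext _ _ fun x => rfl
  rw [e1] at h4
  refine h4.congr fun t => ?_
  show mulA (FL K hK σ (t - t0)) (FL K hK σ t0) = FL K hK σ t
  rw [← FL_add, sub_add_cancel]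

theorem susp_dN (N K0 c : ℕ) (hK0 : 0 < K0) (hc : 0 < c) (σ : Equiv.Perm ℕ) (r : ℝ) (hr0 : 0 ≤ r) (hr1 : r < 1) :
    dN N K0 (ps (K0 * c) σ r) id ≤ dN N K0 (rpf (K0 * c) σ) id := by
  have hK : 0 < K0 * c := by positivity
  refine measure_mono_ae ?_
  filter_upwards [ae_nonneg] with x hx hmem
  have hmem' : x < (N : ℝ) ∧ fl K0 (ps (K0 * c) σ r x) ≠ fl K0 (id x) := hmem
  show x < (N : ℝ) ∧ fl K0 (rpf (K0 * c) σ x) ≠ fl K0 (id x)
  refine ⟨hmem'.1, fun h => hmem'.2 ?_⟩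
  obtain ⟨i, u, h3, h4, rfl⟩ := exists_pt (K0 * c) hK x hx
  rw [fl_div K0 c hK0 hc, (rpf_mem (K0 * c) hK σ _ hx).2, id_eq, fl_div K0 c hK0 hc (pt (K0 * c) i u),
    fl_pt (K0 * c) hK i u h3 h4] at h
  rw [ps_pt (K0 * c) hK σ r i u h3 h4, fl_div K0 c hK0 hc,
    fl_pt (K0 * c) hK _ _ (Int.fract_nonneg _) (Int.fract_lt_one _), id_eq,
    fl_div K0 c hK0 hc (pt (K0 * c) i u), fl_pt (K0 * c) hK i u h3 h4]
  rcases lt_or_ge (u + r) 1 with h5 | h5
  · rw [Int.floor_eq_zero_iff.2 ⟨by linarith, h5⟩, zpow_zero, Equiv.Perm.one_apply]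
  · have h6 : ⌊u + r⌋ = 1 := by
      rw [Int.floor_eq_iff]
      push_cast
      constructor <;> linarith
    rw [h6, zpow_one, h]

theorem susp_close (N K0 c : ℕ) (hK0 : 0 < K0) (hc : 0 < c) (σ : Equiv.Perm ℕ) (r : ℝ) (hr0 : 0 ≤ r) (hr1 : r < 1)
    (C : Set ℝ) (hC : MeasurableSet C) (B : Finset ℕ) :
    mu ((ps (K0 * c) σ r ⁻¹' C) ∆ C) ≤ 2 * mu (C ∆ cs K0 B) +
      2 * (mu (cs K0 B \ Iio (N : ℝ)) + dN N K0 (rpf (K0 * c) σ) id) := by
  have hK : 0 < K0 * c := by positivity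
  have h1 := sd_tri (μ := mu) (ps (K0 * c) σ r ⁻¹' C) (ps (K0 * c) σ r ⁻¹' cs K0 B) C
  have h2 := sd_tri (μ := mu) (ps (K0 * c) σ r ⁻¹' cs K0 B) (cs K0 B) C
  have h3 := cs_close N K0 B hK0 (ps (K0 * c) σ r) id (ps_mp _ hK σ r) (MeasurePreserving.id mu)
  have h4 := susp_dN N K0 c hK0 hc σ r hr0 hr1
  rw [pre_sd (ps_mp _ hK σ r) _ _ hC (cs_meas K0 B)] at h1
  rw [symmDiff_comm (cs K0 B) C] at h2
  calc mu ((ps (K0 * c) σ r ⁻¹' C) ∆ C) ≤ mu (C ∆ cs K0 B) +
        (mu ((ps (K0 * c) σ r ⁻¹' cs K0 B) ∆ cs K0 B) + mu (C ∆ cs K0 B)) := h1.trans (add_le_add le_rfl h2)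
    _ ≤ mu (C ∆ cs K0 B) +
        (2 * (mu (cs K0 B \ Iio (N : ℝ)) + dN N K0 (rpf (K0 * c) σ) id) + mu (C ∆ cs K0 B)) := by
        refine add_le_add le_rfl (add_le_add (h3.trans ?_) le_rfl)
        exact mul_le_mul_right (add_le_add le_rfl h4) 2
    _ = _ := by rw [two_mul (mu (C ∆ cs K0 B))]; ring

end Pool.H359R3.IX
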