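import Mathlib
import Pool.Agent.H359R3.IX7
import Pool.Agent.H359R3.IX17

set_option autoImplicit false
set_option linter.unusedSectionVars false
set_option linter.unusedVariables false

/-!
Category lemma for spaces of continuous paths; neighbourhoods in path spaces.
-/

namespace Pool.H359R3.IX

open MeasureTheory Set Filter Topology
open scoped ENNReal symmDiff
open Pool.H359R3 Pool.H359R3.WH

theorem flow_baire {A : Type*} [UniformSpace A] [CompleteSpace A] [SecondCountableTopology A]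
    [(uniformity A).IsCountablyGenerated] (D : Set C(ℝ, A))
    (h1 : ∀ U : Set C(ℝ, A), IsOpen U → (U ∩ D).Nonempty →
      (interior (closure ((fun φ : C(ℝ, A) => φ 1) '' (U ∩ D)))).Nonempty)
    (h2 : Dense ((fun φ : C(ℝ, A) => φ 1) '' D)) :
    {y : A | ∃ φ ∈ closure D, Inseparable y (φ 1)} ∈ residual A := by
  let pE : PseudoMetricSpace C(ℝ, A) := UniformSpace.pseudoMetricSpace C(ℝ, A)
  have key : Continuous (fun φ : C(ℝ, A) => φ 1) := continuous_eval_const (1 : ℝ)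
  let pA : PseudoMetricSpace A := UniformSpace.pseudoMetricSpace A
  have main := baire_image (E := C(ℝ, A)) (F := A) (fun φ => φ 1) key D univ isOpen_univ
    (fun U hU _ hne => h1 U hU hne) (by rw [univ_inter]; exact h2)
  refine Filter.mem_of_superset main ?_
  rintro y ⟨φ, hφ, hy⟩
  exact ⟨φ, hφ.1, Metric.inseparable_iff.2 hy⟩

theorem nhds_path {A : Type*} [UniformSpace A] (U : Set C(ℝ, A)) (hU : IsOpen U) (φ0 : C(ℝ, A)) (h0 : φ0 ∈ U) :
    ∃ (R : ℕ) (V : Set (A × A)), V ∈ uniformity A ∧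
      ∀ φ : C(ℝ, A), (∀ t : ℝ, |t| ≤ R → (φ0 t, φ t) ∈ V) → φ ∈ U := by
  obtain ⟨W, hW, hWU⟩ := UniformSpace.mem_nhds_iff.1 (hU.mem_nhds h0)
  obtain ⟨K, V, hK, hV, hKV⟩ := (ContinuousMap.mem_compactConvergence_entourage_iff W).1 hW
  obtain ⟨r, hr⟩ := hK.isBounded.subset_closedBall (0 : ℝ)
  obtain ⟨R, hR⟩ := exists_nat_ge r
  refine ⟨R, V, hV, fun φ hφ => hWU ?_⟩
  apply hKV
  intro x hx
  apply hφ
  have := hr hx
  rw [Metric.mem_closedBall, dist_zero_right, Real.norm_eq_abs] at this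
  exact this.trans hR

theorem un_basis {X : Type*} [MeasurableSpace X] {μ : Measure X} (F : DF μ)
    (V : Set ({e : X ≃ᵐ X // MeasurePreserving (⇑e) μ μ} × {e : X ≃ᵐ X // MeasurePreserving (⇑e) μ μ}))
    (hV : V ∈ @uniformity _ (un F)) :
    ∃ (n : ℕ) (ε : ℝ≥0∞), 0 < ε ∧ ∀ S T : {e : X ≃ᵐ X // MeasurePreserving (⇑e) μ μ},
      (∀ i < n, μ ((S.1 ⁻¹' F.C i) ∆ (T.1 ⁻¹' F.C i)) < ε ∧
        μ ((S.1.symm ⁻¹' F.C i) ∆ (T.1.symm ⁻¹' F.C i)) < ε) → (S, T) ∈ V := by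
  by_contra hcon
  push Not at hcon
  have h1 : ∀ n : ℕ, ∃ p : {e : X ≃ᵐ X // MeasurePreserving (⇑e) μ μ} × {e : X ≃ᵐ X // MeasurePreserving (⇑e) μ μ},
      (∀ i < n, μ ((p.1.1 ⁻¹' F.C i) ∆ (p.2.1 ⁻¹' F.C i)) < ((n : ℝ≥0∞) + 1)⁻¹ ∧
        μ ((p.1.1.symm ⁻¹' F.C i) ∆ (p.2.1.symm ⁻¹' F.C i)) < ((n : ℝ≥0∞) + 1)⁻¹) ∧ p ∉ V := by
    intro n
    obtain ⟨S, T, h2, h3⟩ := hcon n ((n : ℝ≥0∞) + 1)⁻¹ (ENNReal.inv_pos.2 (by finiteness))
    exact ⟨(S, T), h2, h3⟩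
  choose p hp hpV using h1
  have ht : Tendsto p atTop (@uniformity _ (un F)) := by
    have e0 : @uniformity _ (un F) = Filter.comap
      (fun p : {e : X ≃ᵐ X // MeasurePreserving (⇑e) μ μ} × {e : X ≃ᵐ X // MeasurePreserving (⇑e) μ μ} =>
      (io F p.1, io F p.2)) (uniformity (ℕ → MeasuredSets μ × MeasuredSets μ)) := rfl
    rw [e0, tendsto_comap_iff, Pi.uniformity, tendsto_iInf]
    intro i
    rw [tendsto_comap_iff, uniformity_basis_edist.tendsto_right_iff]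
    intro ε hε
    have h4 : Tendsto (fun n : ℕ => ((n : ℝ≥0∞) + 1)⁻¹) atTop (𝓝 0) := by
      have := ENNReal.tendsto_inv_nat_nhds_zero.comp (tendsto_add_atTop_nat 1)
      refine this.congr fun n => ?_
      simp
    filter_upwards [h4.eventually (gt_mem_nhds hε), eventually_gt_atTop i] with n hn hi
    obtain ⟨h5, h6⟩ := hp n i hi
    show edist (io F (p n).1 i) (io F (p n).2 i) < ε
    rw [Prod.edist_eq, max_lt_iff]
    exact ⟨lt_trans h5 hn, lt_trans h6 hn⟩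
  obtain ⟨n, hn⟩ := (ht.eventually hV).exists
  exact hpV n hn

end Pool.H359R3.IX
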