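import Mathlib
import Pool.Agent.H359R3.IX18

set_option autoImplicit false
set_option linter.unusedSectionVars false
set_option linter.unusedVariables false

/-!
Powers of interval exchanges in an open set form a somewhere dense set.
-/

namespace Pool.H359R3.IX

open MeasureTheory Set Filter Topology
open scoped ENNReal symmDiff Fin.NatCast
open Pool.H359R3 Pool.H359R3.WH

theorem roots_step (F : DF mu) (n : ℕ) (hn : 0 < n) (K0 : ℕ) (hK0 : 0 < K0) (U : Set Au)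
    (hU : @IsOpen Au (un F).toTopologicalSpace U) (hne : U.Nonempty) :
    (@interior Au (un F).toTopologicalSpace (@closure Au (un F).toTopologicalSpace
      {T | ∃ (K : ℕ) (hK : 0 < K) (σ : Equiv.Perm ℕ), K0 ∣ K ∧ rp K hK σ ∈ U ∧
        T = rp K hK (σ ^ n)})).Nonempty := by
  classical
  have : NeZero n := ⟨hn.ne'⟩
  let us : UniformSpace Au := un F
  obtain ⟨S0, hS0⟩ := hne
  obtain ⟨N, m, hm, θ, hθ, h1⟩ := nhds_dN F S0 U (hU.mem_nhds hS0) 1 one_pos
  have hm1 : 0 < 1 * m := by rw [one_mul]; exact hm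
  obtain ⟨δ0, hδ0, hδθ⟩ := ofReal_small (θ / 2) (ENNReal.half_pos hθ.ne')
  obtain ⟨K, hK, ς, q, h2, hq, hςq, h3⟩ := perm_dense_inf S0 N (1 * m) hm1 (θ / 2) (ENNReal.half_pos hθ.ne')
  -- choose the length
  obtain ⟨j, hj⟩ := exists_nat_gt ((N : ℝ) / δ0)
  set L := n * j + 1 with hL
  have hLp : 0 < L := by omega
  have : NeZero L := ⟨hLp.ne'⟩
  have hcop : Nat.Coprime n L := by
    rw [hL]
    simp
  have hLsmall : ENNReal.ofReal ((N : ℝ) / L) < ENNReal.ofReal δ0 := by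
    rw [ENNReal.ofReal_lt_ofReal_iff hδ0]
    have h4 : (j : ℝ) ≤ L := by
      have : j ≤ L := by
        rw [hL]
        have := Nat.le_mul_of_pos_left j hn
        omega
      exact_mod_cast this
    have hLr : (0 : ℝ) < L := by exact_mod_cast hLp
    rw [div_lt_iff₀ hδ0] at hj
    rw [div_lt_iff₀ hLr]
    nlinarith
  let s : Fin L → ℤ := fun r => 1 + (if r = 0 then ((q : ℤ) - 1) * L else 0)
  have hs : ∑ r, s r = q * L := by
    simp only [s]
    rw [sum_single]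
    ring
  set σ2 : Equiv.Perm ℕ := sk L (midp L (fun r => ς ^ s r)) with hσ2
  have hσ2L : σ2 ^ L = 1 := by
    rw [hσ2, mid_powL (fun z : ℤ => ς ^ z) (zpow_zero ς) (psi_add ς) L s, hs]
    have e1 : ς ^ (q : ℤ) = 1 := by rw [zpow_natCast, hςq]
    have e2 : ς ^ ((q : ℤ) * L) = 1 := by
      rw [zpow_mul, e1, one_zpow]
    rw [e2, lf_one]
  set K2 := K * L with hK2
  have hK2p : 0 < K2 := by positivity
  have hS2U : rp K2 hK2p σ2 ∈ U := by
    apply h1
    refine lt_of_le_of_lt (dN_tri N (1 * m) _ (rpf K ς) _) ?_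
    have h5 : dN N (1 * m) (rp K2 hK2p σ2).1 (rpf K ς) < ENNReal.ofReal δ0 := by
      refine lt_of_le_of_lt (dN_dvd N N (1 * m) K le_rfl hm1 hK h2 _ _) ?_
      refine lt_of_le_of_lt (sk_close1 N K L hK (midp L (fun r => ς ^ s r)) ς ?_) hLsmall
      intro a r hr
      show (ς ^ s r) a = ς a
      simp only [s, if_neg hr, add_zero, zpow_one]
    calc _ < ENNReal.ofReal δ0 + θ / 2 := ENNReal.add_lt_add h5 h3
      _ ≤ θ / 2 + θ / 2 := add_le_add hδθ le_rfl
      _ = θ := ENNReal.add_halves θ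
  -- the new target
  obtain ⟨a, b, hab⟩ := Nat.isCoprime_iff_coprime.2 hcop
  set ρ : Equiv.Perm ℕ := σ2 ^ n with hρ
  have hρa : ρ ^ a = σ2 := by
    rw [hρ, ← zpow_natCast σ2 n, ← zpow_mul]
    have : (n : ℤ) * a = 1 + L * (-b) := by linarith
    rw [this, zpow_add, zpow_one, zpow_mul, zpow_natCast, hσ2L, one_zpow, mul_one]
  have hρL : ρ ^ (L : ℤ) = 1 := by
    rw [hρ, zpow_natCast, ← pow_mul, mul_comm, pow_mul, hσ2L, one_pow]
  let s' : Fin n → ℤ := fun r => a + (if r = 0 then b * L else 0)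
  have hs' : ∑ r, s' r = 1 := by
    simp only [s']
    rw [sum_single]
    linarith
  have hρs : ∀ r, ρ ^ s' r = σ2 := by
    intro r
    simp only [s']
    split_ifs
    · rw [zpow_add, hρa, mul_comm b, zpow_mul, hρL, one_zpow, mul_one]
    · rw [add_zero, hρa]
  obtain ⟨N3, m3, hm3, θ3, hθ3, h6⟩ := nhds_dN F (rp K2 hK2p σ2) U (hU.mem_nhds hS2U) K2 hK2p
  have hK3 : 0 < K2 * m3 := by positivity
  obtain ⟨δ, hδ, hδθ3⟩ := ofReal_small θ3 hθ3
  have hnr : (0 : ℝ) < n := by exact_mod_cast hn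
  have hδ' : 0 < ENNReal.ofReal (δ / (n + 1)) := by rw [ENNReal.ofReal_pos]; positivity
  let V : Set Au := {T | ∀ r : Fin n, dN N3 (K2 * m3) (zpA T (s' r)).1 (rpf K2 σ2) < ENNReal.ofReal (δ / (n + 1))}
  have hV : V ∈ 𝓝 (rp K2 hK2p ρ) := by
    have h7 : ∀ r : Fin n, ∀ᶠ T in 𝓝 (rp K2 hK2p ρ),
        dN N3 (K2 * m3) (zpA T (s' r)).1 (rpf K2 σ2) < ENNReal.ofReal (δ / (n + 1)) := by
      intro r
      have h8 := tend_zpA F (𝓝 (rp K2 hK2p ρ)) id (rp K2 hK2p ρ) Filter.tendsto_id (s' r)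
      have h9 := h8.eventually (dN_nhds F (zpA (rp K2 hK2p ρ) (s' r)) N3 (K2 * m3) hK3 _ hδ')
      filter_upwards [h9] with T hT
      have h10 : ((zpA (rp K2 hK2p ρ) (s' r)).1 : ℝ → ℝ) = rpf K2 σ2 := by
        funext x
        rw [zpA_rp, hρs]
      rw [← h10]
      exact hT
    exact Filter.eventually_all.2 h7
  refine ⟨rp K2 hK2p ρ, ?_⟩
  have hsub : interior V ⊆ closure {T | ∃ (K : ℕ) (hK : 0 < K) (σ : Equiv.Perm ℕ), K0 ∣ K ∧ rp K hK σ ∈ U ∧
      T = rp K hK (σ ^ n)} := by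
    intro T' hT'
    rw [mem_closure_iff_nhds]
    intro W hW
    have h11 : interior V ∩ W ∈ 𝓝 T' := Filter.inter_mem (isOpen_interior.mem_nhds hT') hW
    obtain ⟨K4, hK4, σ4, M4, hd4', _, _, h12⟩ := dens F T' _ h11 (K2 * m3 * K0) (by positivity)
    have hd4 : K2 * m3 ∣ K4 := (Dvd.intro _ rfl).trans hd4'
    have hd5 : K0 ∣ K4 * n := ((Dvd.intro_left _ rfl).trans hd4').trans (Dvd.intro _ rfl)
    have hK4n : 0 < K4 * n := by positivity
    refine ⟨rp K4 hK4 σ4, h12.2, K4 * n, hK4n, sk n (midp n (fun r => σ4 ^ s' r)), hd5, ?_,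
      (root_of_rp K4 hK4 σ4 n hK4n s' hs').symm.trans (powA_rp _ _ _ _)⟩
    apply h6
    have h13 : rp K4 hK4 σ4 ∈ V := interior_subset h12.1
    refine lt_of_le_of_lt (sk_close2 N3 (K2 * m3) K4 n hK3 hK4 hd4 (midp n (fun r => σ4 ^ s' r))
      (fun r => σ4 ^ s' r) (fun _ _ => rfl) _) ?_
    have h14 : ∀ r ∈ (Finset.univ : Finset (Fin n)), dN N3 (K2 * m3) (rpf K4 (σ4 ^ s' r)) (rpf K2 σ2) ≤
        ENNReal.ofReal (δ / (n + 1)) := by
      intro r _
      have h15 := (h13 r).le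
      have h16 : ((zpA (rp K4 hK4 σ4) (s' r)).1 : ℝ → ℝ) = rpf K4 (σ4 ^ s' r) := by
        funext x
        rw [zpA_rp]
      rw [h16] at h15
      exact h15
    calc _ ≤ ∑ r : Fin n, ENNReal.ofReal (δ / (n + 1)) := Finset.sum_le_sum h14
      _ = ENNReal.ofReal (n * (δ / (n + 1))) := by
          rw [Finset.sum_const, Finset.card_univ, Fintype.card_fin, nsmul_eq_mul, ← ENNReal.ofReal_natCast,
            ← ENNReal.ofReal_mul (by positivity)]
      _ < ENNReal.ofReal δ := by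
          rw [ENNReal.ofReal_lt_ofReal_iff hδ, mul_div_assoc', div_lt_iff₀ (by positivity)]
          nlinarith
      _ ≤ θ3 := hδθ3
  exact mem_interior.2 ⟨interior V, hsub, isOpen_interior, mem_interior_iff_mem_nhds.2 hV⟩

end Pool.H359R3.IX
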