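import Mathlib
import Pool.Agent.H359R3.IX19

set_option autoImplicit false
set_option linter.unusedSectionVars false
set_option linter.unusedVariables false

/-!
Generic infinite measure preserving automorphisms embed in flows: the somewhere-density step.
-/

namespace Pool.H359R3.IX

open MeasureTheory Set Filter Topology
open scoped ENNReal symmDiff
open Pool.H359R3 Pool.H359R3.WH

/-- a fixed dense family -/
noncomputable def F0 : DF mu := (exists_DF mu).some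

noncomputable abbrev usAu : UniformSpace Au := un F0

attribute [local instance] usAu

/-- suspension flow with speed `p` as a path -/
noncomputable def fm (K : ℕ) (hK : 0 < K) (σ : Equiv.Perm ℕ) (p : ℕ) : C(ℝ, Au) :=
  ⟨fun t => FL K hK σ (p * t), (FL_cont F0 K hK σ).comp (continuous_const.mul continuous_id)⟩

theorem fm_apply (K : ℕ) (hK : 0 < K) (σ : Equiv.Perm ℕ) (p : ℕ) (t : ℝ) :
    fm K hK σ p t = FL K hK σ (p * t) := rfl

theorem fm_one (K : ℕ) (hK : 0 < K) (σ : Equiv.Perm ℕ) (p : ℕ) : fm K hK σ p 1 = rp K hK (σ ^ p) := by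
  rw [fm_apply, mul_one]
  have h := FL_int K hK σ (p : ℤ)
  rw [zpow_natCast] at h
  rw [← h]
  congr 1

theorem tri3 (P Q A0 A : Au) (C : Set ℝ) (hC : MeasurableSet C) :
    mu (((mulA A0 P).1 ⁻¹' C) ∆ ((mulA A Q).1 ⁻¹' C)) ≤
      mu ((A0.1 ⁻¹' C) ∆ C) + (mu ((P.1 ⁻¹' C) ∆ (Q.1 ⁻¹' C)) + mu ((A.1 ⁻¹' C) ∆ C)) := by
  have h1 := sd_tri (μ := mu) (P.1 ⁻¹' (A0.1 ⁻¹' C)) (P.1 ⁻¹' C) (Q.1 ⁻¹' (A.1 ⁻¹' C))
  have h2 := sd_tri (μ := mu) (P.1 ⁻¹' C) (Q.1 ⁻¹' C) (Q.1 ⁻¹' (A.1 ⁻¹' C))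
  rw [pre_sd P.2 _ _ (A0.1.measurable hC) hC] at h1
  rw [pre_sd Q.2 _ _ hC (A.1.measurable hC), symmDiff_comm C] at h2
  exact h1.trans (add_le_add le_rfl h2)

theorem fm_neg (K : ℕ) (hK : 0 < K) (σ : Equiv.Perm ℕ) (p : ℕ) (t : ℝ) :
    ((fm K hK σ p (-t)).1 : ℝ → ℝ) = (fm K hK σ p t).1.symm := by
  funext x
  show ps K σ (p * -t) x = ps K σ (-(p * t)) x
  rw [mul_neg]

theorem claimB (U : Set C(ℝ, Au)) (hU : IsOpen U) (K1 : ℕ) (hK1 : 0 < K1) (σ1 : Equiv.Perm ℕ) (p1 : ℕ)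
    (h : fm K1 hK1 σ1 p1 ∈ U) :
    ∃ (p K0 : ℕ), 0 < p ∧ 0 < K0 ∧ ∃ O : Set Au, IsOpen O ∧ O.Nonempty ∧
      ∀ (K : ℕ) (hK : 0 < K) (σ : Equiv.Perm ℕ), K0 ∣ K → rp K hK σ ∈ O → fm K hK σ p ∈ U := by
  classical
  obtain ⟨R, V, hV, hφ⟩ := nhds_path U hU _ h
  obtain ⟨n, ε, hε, hST⟩ := un_basis F0 V hV
  have red : ∀ (K : ℕ) (hK : 0 < K) (σ : Equiv.Perm ℕ) (p : ℕ),
      (∀ t : ℝ, |t| ≤ R → ∀ i < n, mu (((fm K1 hK1 σ1 p1 t).1 ⁻¹' F0.C i) ∆ ((fm K hK σ p t).1 ⁻¹' F0.C i)) < ε) →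
      fm K hK σ p ∈ U := by
    intro K hK σ p hh
    apply hφ
    intro t ht
    apply hST
    intro i hi
    refine ⟨hh t ht i hi, ?_⟩
    have h2 := hh (-t) (by rwa [abs_neg]) i hi
    rw [fm_neg, fm_neg] at h2
    exact h2
  obtain ⟨δ, hδ, hδε⟩ := ofReal_small ε hε
  set η : ℝ≥0∞ := ENNReal.ofReal (δ / 16) with hη
  have hη0 : 0 < η := by rw [hη, ENNReal.ofReal_pos]; positivity
  obtain ⟨m, hm, hB⟩ := ApxI_multi F0.C F0.meas F0.fin n 1 one_pos η hη0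
  set K0 := 1 * m with hK0
  have hK0p : 0 < K0 := by rw [hK0, one_mul]; exact hm
  choose! B hB using hB
  obtain ⟨N, hN⟩ : ∃ N : ℕ, ∀ i < n, mu (cs K0 (B i) \ Iio (N : ℝ)) < η := by
    have h1 : ∀ i ∈ Finset.range n, ∀ᶠ N : ℕ in atTop, mu (cs K0 (B i) \ Iio (N : ℝ)) < η := by
      intro i _
      exact (tail_Iio _ (cs_meas _ _) (cs_fin _ hK0p _)).eventually (gt_mem_nhds hη0)
    obtain ⟨N, hN⟩ := ((Filter.eventually_all_finset _).2 h1).exists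
    exact ⟨N, fun i hi => hN i (Finset.mem_range.2 hi)⟩
  -- near the identity
  have hG : ∀ᶠ T : Au in 𝓝 oneA, (∀ i ∈ Finset.range n, mu ((T.1 ⁻¹' F0.C i) ∆ F0.C i) < η) ∧
      dN N K0 T.1 (oneA : Au).1 < η := by
    refine Filter.Eventually.and ?_ (dN_nhds F0 oneA N K0 hK0p η hη0)
    rw [Filter.eventually_all_finset]
    intro i _
    exact (of_tendsto_un F0 (𝓝 oneA) id oneA Filter.tendsto_id (F0.C i) (F0.meas i) (F0.fin i)).eventually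
      (gt_mem_nhds hη0)
  have hG2 := (FL_small F0 K1 hK1 σ1).eventually hG
  rw [Metric.eventually_nhds_iff] at hG2
  obtain ⟨ρ, hρ, hG3⟩ := hG2
  obtain ⟨p, hp⟩ := exists_nat_gt ((p1 : ℝ) / ρ)
  have hpr : (0 : ℝ) < p := lt_of_le_of_lt (by positivity) hp
  have hp0 : 0 < p := by exact_mod_cast hpr
  have hp1 : ∀ r : ℝ, 0 ≤ r → r ≤ 1 → dist ((p1 : ℝ) * (r / p)) 0 < ρ := by
    intro r h0 h1
    rw [dist_zero_right, Real.norm_eq_abs, abs_of_nonneg (by positivity)]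
    rw [div_lt_iff₀ hρ] at hp
    rw [mul_div_assoc', div_lt_iff₀ hpr]
    have : (p1 : ℝ) * r ≤ p1 := by
      have : (0 : ℝ) ≤ p1 := by positivity
      nlinarith
    linarith
  set S1 : Au := FL K1 hK1 σ1 ((p1 : ℝ) * (1 / p)) with hS1
  have hO : ∀ᶠ S : Au in 𝓝 S1, (∀ k ∈ Finset.Icc (-((p : ℤ) * R + 1)) ((p : ℤ) * R + 1), ∀ i ∈ Finset.range n,
      mu (((zpA S k).1 ⁻¹' F0.C i) ∆ ((zpA S1 k).1 ⁻¹' F0.C i)) < η) ∧ dN N K0 S.1 S1.1 < η := by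
    refine Filter.Eventually.and ?_ (dN_nhds F0 S1 N K0 hK0p η hη0)
    rw [Filter.eventually_all_finset]
    intro k _
    rw [Filter.eventually_all_finset]
    intro i _
    exact (of_tendsto_un F0 (𝓝 S1) _ _ (tend_zpA F0 (𝓝 S1) id S1 Filter.tendsto_id k) (F0.C i) (F0.meas i)
      (F0.fin i)).eventually (gt_mem_nhds hη0)
  obtain ⟨O, hOsub, hOo, hS1O⟩ := mem_nhds_iff.1 hO
  refine ⟨p, K0, hp0, hK0p, O, hOo, ⟨S1, hS1O⟩, ?_⟩
  intro K hK σ hdvd hmem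
  obtain ⟨hk1, hk2⟩ := hOsub hmem
  apply red
  intro t ht i hi
  set k := ⌊(p : ℝ) * t⌋ with hk
  set r := Int.fract ((p : ℝ) * t) with hr
  have hr0 : 0 ≤ r := Int.fract_nonneg _
  have hr1 : r < 1 := Int.fract_lt_one _
  have hkr : (p : ℝ) * t = k + r := (Int.floor_add_fract _).symm
  have hkI : k ∈ Finset.Icc (-((p : ℤ) * R + 1)) ((p : ℤ) * R + 1) := by
    rw [abs_le] at ht
    have h1 : (p : ℝ) * t ≤ p * R := mul_le_mul_of_nonneg_left ht.2 hpr.le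
    have h2 : -((p : ℝ) * R) ≤ p * t := by nlinarith [ht.1]
    rw [Finset.mem_Icc]
    constructor
    · rw [hk, Int.le_floor]
      push_cast
      linarith
    · have h3 : (k : ℝ) ≤ p * t := Int.floor_le _
      have h4 : (k : ℝ) ≤ (((p : ℤ) * R + 1 : ℤ) : ℝ) := by
        push_cast
        linarith
      exact_mod_cast h4
  have e1 : fm K1 hK1 σ1 p1 t = mulA (FL K1 hK1 σ1 ((p1 : ℝ) * (r / p))) (zpA S1 k) := by
    rw [fm_apply, hS1, FL_zp, ← FL_add]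
    congr 1
    have : t = (k + r) / p := by rw [← hkr]; field_simp
    rw [this]
    field_simp
    ring
  have e2 : fm K hK σ p t = mulA (FL K hK σ r) (zpA (rp K hK σ) k) := by
    have e3 : rp K hK σ = FL K hK σ 1 := by
      have := FL_int K hK σ 1
      rw [zpow_one, Int.cast_one] at this
      exact this.symm
    rw [fm_apply, e3, FL_zp, ← FL_add]
    congr 1
    rw [hkr]
    ring
  rw [e1, e2]
  refine lt_of_le_of_lt (tri3 _ _ _ _ _ (F0.meas i)) ?_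
  have b1 : mu (((FL K1 hK1 σ1 ((p1 : ℝ) * (r / p))).1 ⁻¹' F0.C i) ∆ F0.C i) ≤ η :=
    ((hG3 (hp1 r hr0 hr1.le)).1 i (Finset.mem_range.2 hi)).le
  have b2 : mu (((zpA S1 k).1 ⁻¹' F0.C i) ∆ ((zpA (rp K hK σ) k).1 ⁻¹' F0.C i)) ≤ η := by
    rw [symmDiff_comm]
    exact (hk1 k hkI i (Finset.mem_range.2 hi)).le
  have b3 : mu (((FL K hK σ r).1 ⁻¹' F0.C i) ∆ F0.C i) ≤ 2 * η + 2 * (η + (η + η)) := by
    obtain ⟨c, hc⟩ := hdvd
    subst hc
    have hcp : 0 < c := Nat.pos_of_mul_pos_left hK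
    refine (susp_close N K0 c hK0p hcp σ r hr0 hr1 (F0.C i) (F0.meas i) (B i)).trans ?_
    refine add_le_add (mul_le_mul_right (hB i hi).le 2) (mul_le_mul_right (add_le_add (hN i hi).le ?_) 2)
    refine (dN_tri N K0 _ S1.1 _).trans (add_le_add hk2.le ?_)
    have h5 := hp1 1 zero_le_one le_rfl
    exact (hG3 h5).2.le
  refine lt_of_le_of_lt (add_le_add b1 (add_le_add b2 b3)) (lt_of_lt_of_le ?_ hδε)
  have e4 : η + (η + (2 * η + 2 * (η + (η + η)))) = ENNReal.ofReal (10 * (δ / 16)) := by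
    rw [ENNReal.ofReal_mul (by norm_num), ← hη, ENNReal.ofReal_ofNat]
    ring
  rw [e4, ENNReal.ofReal_lt_ofReal_iff hδ]
  linarith

end Pool.H359R3.IX
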