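import Mathlib
import Pool.Agent.H359R3.IX15
import Pool.Agent.H359R3.IX20

set_option autoImplicit false
set_option linter.unusedSectionVars false
set_option linter.unusedVariables false

/-!
Generic infinite measure preserving automorphisms embed in flows.
-/

namespace Pool.H359R3.IX

open MeasureTheory Set Filter Topology
open scoped ENNReal symmDiff
open Pool.H359R3 Pool.H359R3.WH

attribute [local instance] usAu

/-- all suspension flows -/
def DFl : Set C(ℝ, Au) := {φ | ∃ (K : ℕ) (hK : 0 < K) (σ : Equiv.Perm ℕ) (p : ℕ), φ = fm K hK σ p}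

theorem flow_inf : {T : Au | ∃ φ ∈ closure DFl, Inseparable T (φ 1)} ∈ residual Au := by
  have := un_cg F0
  have := un_complete F0
  have := un_sc F0
  apply flow_baire
  · rintro U hU ⟨φ, hφU, K1, hK1, σ1, p1, rfl⟩
    obtain ⟨p, K0, hp, hK0, O, hO, hOne, hmain⟩ := claimB U hU K1 hK1 σ1 p1 hφU
    refine (roots_step F0 p hp K0 hK0 O hO hOne).mono (interior_mono (closure_mono ?_))
    rintro T ⟨K, hK, σ, h1, h2, rfl⟩
    exact ⟨fm K hK σ p, ⟨hmain K hK σ h1 h2, K, hK, σ, p, rfl⟩, fm_one K hK σ p⟩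
  · rw [dense_iff_inter_open]
    rintro W hW ⟨T, hT⟩
    obtain ⟨K, hK, σ, _, _, _, _, h⟩ := dens F0 T W (hW.mem_nhds hT) 1 one_pos
    refine ⟨rp K hK σ, h, fm K hK σ 1, ⟨K, hK, σ, 1, rfl⟩, ?_⟩
    show fm K hK σ 1 1 = _
    rw [fm_one, pow_one]

theorem closure_flow (φ : C(ℝ, Au)) (hφ : φ ∈ closure DFl) (s t : ℝ) :
    ∀ᵐ x ∂mu, (φ (s + t)).1 x = (φ s).1 ((φ t).1 x) := by
  obtain ⟨u, hu, hle⟩ := mem_closure_iff_ultrafilter.1 hφ
  have ev : ∀ r : ℝ, Tendsto (fun ψ : C(ℝ, Au) => ψ r) (u : Filter C(ℝ, Au)) (𝓝 (φ r)) := fun r =>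
    ((continuous_eval_const r).tendsto φ).mono_left hle
  have hm := tend_mul F0 (u : Filter C(ℝ, Au)) _ _ _ _ (ev s) (ev t)
  have hD : ∀ᶠ ψ in (u : Filter C(ℝ, Au)), ψ ∈ DFl := hu
  refine ae_of_sd (φ (s + t)).1 (mulA (φ s) (φ t)).1 (φ (s + t)).2 (mulA (φ s) (φ t)).2 ?_
  intro A hA hA'
  have t1 := of_tendsto_un F0 _ _ _ (ev (s + t)) A hA hA'
  have t2 := of_tendsto_un F0 _ _ _ hm A hA hA'
  have t3 := t1.add t2
  rw [add_zero] at t3
  refine le_antisymm (ge_of_tendsto t3 ?_) zero_le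
  filter_upwards [hD] with ψ hψ
  obtain ⟨K, hK, σ, p, rfl⟩ := hψ
  have e : fm K hK σ p (s + t) = mulA (fm K hK σ p s) (fm K hK σ p t) := by
    rw [fm_apply, fm_apply, fm_apply, ← FL_add, mul_add]
  have h4 := sd_tri (μ := mu) ((φ (s + t)).1 ⁻¹' A) ((fm K hK σ p (s + t)).1 ⁻¹' A)
    ((mulA (φ s) (φ t)).1 ⁻¹' A)
  rw [symmDiff_comm ((φ (s + t)).1 ⁻¹' A) ((fm K hK σ p (s + t)).1 ⁻¹' A)] at h4
  rw [← e]
  exact h4

/-- the generic statement on the half line -/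
theorem model_flow : {T : Au | ∃ Φ : ℝ → Au, @Continuous ℝ Au _ (weakTop mu) Φ ∧
    (∀ s t : ℝ, ∀ᵐ x ∂mu, (Φ (s + t)).1 x = (Φ s).1 ((Φ t).1 x)) ∧ ∀ᵐ x ∂mu, (Φ 1).1 x = T.1 x} ∈
    @residual Au (weakTop mu) := by
  rw [weakTop_eq, wt_eq F0]
  refine Filter.mem_of_superset flow_inf ?_
  rintro T ⟨φ, hφ, hT⟩
  refine ⟨fun t => φ t, φ.continuous, closure_flow φ hφ, ?_⟩
  refine ae_of_sd (φ 1).1 T.1 (φ 1).2 T.2 (fun B hB hB' => ?_)
  rw [symmDiff_comm]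
  exact sd_of_insep F0 _ _ hT B hB hB'

/-- the general statement -/
theorem general_flow {X : Type*} [mX : MeasurableSpace X] [StandardBorelSpace X] (μ : Measure X) [SigmaFinite μ]
    [NullSingletonClass μ] (hμ : μ univ = ∞) :
    {T : PMAut μ | ∃ Φ : ℝ → PMAut μ, @Continuous ℝ (PMAut μ) _ (weakTop μ) Φ ∧
      (∀ s t : ℝ, ∀ᵐ x ∂μ, (Φ (s + t)).1 x = (Φ s).1 ((Φ t).1 x)) ∧ ∀ᵐ x ∂μ, (Φ 1).1 x = T.1 x} ∈
      @residual (PMAut μ) (weakTop μ) := by
  obtain ⟨e, he⟩ := exists_iso_inf μ hμ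
  refine Filter.mem_of_superset (transport e he _ model_flow) ?_
  rintro T ⟨Φ, h1, h2, h3⟩
  have hcj : ∀ x, (cj e he T).1 (e x) = e (T.1 x) := by
    intro x
    show e (T.1 (e.symm (e x))) = e (T.1 x)
    rw [e.symm_apply_apply]
  have hbk : ∀ (S : Au) x, e ((bk e he S).1 x) = S.1 (e x) := by
    intro S x
    show e (e.symm (S.1 (e x))) = S.1 (e x)
    rw [e.apply_symm_apply]
  refine ⟨fun t => bk e he (Φ t), ?_, ?_, ?_⟩
  · rw [weakTop_eq] at h1 ⊢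
    rw [wt_ind e he, continuous_induced_rng]
    have h4 : (cj e he ∘ fun t => bk e he (Φ t)) = Φ := by
      funext t
      exact cj_bk e he (Φ t)
    rw [h4]
    exact h1
  · intro s t
    filter_upwards [he.quasiMeasurePreserving.ae (h2 s t)] with x hx
    apply e.injective
    rw [hbk, hbk, hbk, hx]
  · filter_upwards [he.quasiMeasurePreserving.ae h3] with x hx
    apply e.injective
    rw [hbk, hx, hcj]

end Pool.H359R3.IX
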