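import Mathlib

set_option autoImplicit false

namespace Pool.H359R3

open MeasureTheory Set Filter Topology
open scoped ENNReal symmDiff

/-- Lebesgue measure on `[0,1]`. -/
noncomputable abbrev lam : Measure ℝ := volume.restrict (Set.Icc (0:ℝ) 1)

/-- measure preserving Borel automorphisms -/
abbrev Aut : Type := {e : ℝ ≃ᵐ ℝ // MeasurePreserving (⇑e) (volume.restrict (Set.Icc (0:ℝ) 1))
          (volume.restrict (Set.Icc (0:ℝ) 1))}

instance : IsProbabilityMeasure lam := ⟨by simp⟩

theorem measuredSets_complete {α : Type*} [MeasurableSpace α] (μ : Measure α) :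
    CompleteSpace (MeasuredSets μ) := by
  refine EMetric.complete_of_convergent_controlled_sequences (fun n => (2:ℝ≥0∞)⁻¹ ^ n)
    (fun n => ENNReal.pow_pos (by simp) n) ?_
  intro u hu
  let L : Set α := ⋂ N : ℕ, ⋃ n : ℕ, (u (N + n) : Set α)
  have hL : MeasurableSet L := MeasurableSet.iInter fun N => MeasurableSet.iUnion fun n => (u (N+n)).2
  obtain ⟨Lm, hLm⟩ : ∃ Lm : MeasuredSets μ, (Lm : Set α) = L := ⟨⟨L, hL⟩, rfl⟩
  refine ⟨Lm, ?_⟩
  have key : ∀ N, edist (u N) Lm ≤ ∑' k, (2:ℝ≥0∞)⁻¹ ^ (N + k) := by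
    intro N
    have hsub : ((u N : Set α) ∆ L) ⊆ ⋃ k : ℕ, ((u (N + k) : Set α) ∆ (u (N + k + 1) : Set α)) := by
      intro x hx
      by_contra hcon
      simp only [mem_iUnion, not_exists] at hcon
      have hall : ∀ k, (x ∈ (u (N + k) : Set α) ↔ x ∈ (u N : Set α)) := by
        intro k
        induction k with
        | zero => simp
        | succ k ih =>
          rw [← ih]
          have := hcon k
          rw [Set.mem_symmDiff] at this
          push Not at this
          have h2 : N + (k + 1) = N + k + 1 := by ring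
          rw [h2]
          tauto
      have hxL : x ∈ L ↔ x ∈ (u N : Set α) := by
        constructor
        · intro h
          have := mem_iInter.1 h N
          obtain ⟨n, hn⟩ := mem_iUnion.1 this
          exact (hall n).1 hn
        · intro h
          refine mem_iInter.2 fun M => mem_iUnion.2 ⟨N, ?_⟩
          have := (hall M).2 h
          rwa [add_comm] at this
      rw [Set.mem_symmDiff] at hx
      tauto
    calc edist (u N) Lm = μ ((u N : Set α) ∆ L) := by rw [MeasuredSets.edist_def, hLm]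
      _ ≤ μ (⋃ k : ℕ, ((u (N + k) : Set α) ∆ (u (N + k + 1) : Set α))) := measure_mono hsub
      _ ≤ ∑' k, μ ((u (N + k) : Set α) ∆ (u (N + k + 1) : Set α)) := measure_iUnion_le _
      _ ≤ ∑' k, (2:ℝ≥0∞)⁻¹ ^ (N + k) := by
        refine ENNReal.tsum_le_tsum fun k => ?_
        exact (hu (N+k) (N+k) (N+k+1) le_rfl (by omega)).le
  have hsum : ∀ N, ∑' k, (2:ℝ≥0∞)⁻¹ ^ (N + k) = 2 * (2:ℝ≥0∞)⁻¹ ^ N := by
    intro N
    simp_rw [pow_add]
    rw [ENNReal.tsum_mul_left, ENNReal.tsum_geometric, ENNReal.one_sub_inv_two, inv_inv, mul_comm]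
  rw [EMetric.tendsto_atTop]
  intro ε hε
  have ht : Tendsto (fun N : ℕ => 2 * (2:ℝ≥0∞)⁻¹ ^ N) atTop (𝓝 (2 * 0)) :=
    ENNReal.Tendsto.const_mul (ENNReal.tendsto_pow_atTop_nhds_zero_of_lt_one (by simp)) (Or.inr (by simp))
  rw [mul_zero] at ht
  obtain ⟨N, hN⟩ := (ht.eventually (gt_mem_nhds hε)).exists_forall_of_atTop
  refine ⟨N, fun n hn => ?_⟩
  refine lt_of_le_of_lt (key n) ?_
  rw [hsum]
  exact hN n hn

/-- induction over all measurable sets with an approximation property -/
theorem approx_induction {α : Type*} [m : MeasurableSpace α] (μ : Measure α) [IsFiniteMeasure μ]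
    (C : Set (Set α)) (hgen : m = MeasurableSpace.generateFrom C) (P : Set α → Prop)
    (hbasic : ∀ s ∈ C, P s) (hempty : P ∅) (hcompl : ∀ s, MeasurableSet s → P s → P sᶜ)
    (hunion : ∀ s t, MeasurableSet s → MeasurableSet t → P s → P t → P (s ∪ t))
    (happrox : ∀ s, MeasurableSet s →
      (∀ ε : ℝ, 0 < ε → ∃ t, MeasurableSet t ∧ P t ∧ μ.real (s ∆ t) < ε) → P s) :
    ∀ s, MeasurableSet s → P s := by
  intro s hs
  have hs' : MeasurableSet[MeasurableSpace.generateFrom C] s := hgen ▸ hs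
  refine MeasurableSpace.generateFrom_induction C (fun s _ => P s) (fun t ht _ => hbasic t ht) hempty
    (fun t ht h => hcompl t (hgen ▸ ht) h) ?_ s hs'
  intro f hf hP
  have hfm : ∀ n, MeasurableSet (f n) := fun n => hgen ▸ hf n
  have hfin : ∀ N : ℕ, MeasurableSet (⋃ n ∈ Finset.range N, f n) ∧ P (⋃ n ∈ Finset.range N, f n) := by
    intro N
    induction N with
    | zero => simpa using hempty
    | succ N ih =>
      have he : (⋃ n ∈ Finset.range (N+1), f n) = (⋃ n ∈ Finset.range N, f n) ∪ f N := by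
        rw [Finset.range_add_one]
        simp only [Finset.mem_insert, iUnion_iUnion_eq_or_left]
        rw [union_comm]
      rw [he]
      exact ⟨ih.1.union (hfm N), hunion _ _ ih.1 (hfm N) ih.2 (hP N)⟩
  refine happrox _ (MeasurableSet.iUnion hfm) fun ε hε => ?_
  have hlim : Tendsto (fun N : ℕ => μ (⋃ n ∈ Finset.range N, f n)) atTop (𝓝 (μ (⋃ n, f n))) := by
    have h1 : (⋃ n, f n) = ⋃ N : ℕ, ⋃ n ∈ Finset.range N, f n := by
      ext x
      simp only [mem_iUnion, Finset.mem_range, exists_prop]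
      constructor
      · rintro ⟨n, hn⟩
        exact ⟨n+1, n, by omega, hn⟩
      · rintro ⟨_, n, _, hn⟩
        exact ⟨n, hn⟩
    rw [h1]
    apply tendsto_measure_iUnion_atTop
    intro N M hNM x hx
    simp only [mem_iUnion, Finset.mem_range, exists_prop] at hx ⊢
    obtain ⟨n, hn, hx⟩ := hx
    exact ⟨n, lt_of_lt_of_le hn hNM, hx⟩
  have hlim' : Tendsto (fun N : ℕ => μ.real (⋃ n ∈ Finset.range N, f n)) atTop (𝓝 (μ.real (⋃ n, f n))) :=
    (ENNReal.tendsto_toReal (measure_ne_top _ _)).comp hlim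
  obtain ⟨N, hN⟩ := (hlim'.eventually (lt_mem_nhds (show μ.real (⋃ n, f n) - ε < μ.real (⋃ n, f n) by linarith))).exists
  refine ⟨_, (hfin N).1, (hfin N).2, ?_⟩
  have hsub : (⋃ n ∈ Finset.range N, f n) ⊆ ⋃ n, f n := iUnion₂_subset fun n _ => subset_iUnion f n
  rw [Set.symmDiff_def, Set.sdiff_eq_empty.2 hsub, union_empty, measureReal_sdiff hsub (hfin N).1]
  linarith

end Pool.H359R3
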