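import Mathlib
import Pool.Agent.H359R3.MX10

set_option autoImplicit false
set_option linter.unusedSectionVars false
set_option linter.unusedVariables false

/-!
Transport of the local statement to an arbitrary nonatomic standard fibre space.
-/

namespace Pool.H359R3.MX

open MeasureTheory Set Filter Topology
open scoped ENNReal symmDiff
open Pool.H359R3 Pool.H359R3.WH

variable {X : Type*} [MeasurableSpace X]
variable (μ : Measure X) [IsProbabilityMeasure μ]

/-- conjugation of an equivalence -/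
def cj {Z W : Type*} [MeasurableSpace Z] [MeasurableSpace W] (E : Z ≃ᵐ W) (S : Z ≃ᵐ Z) : W ≃ᵐ W :=
  E.symm.trans (S.trans E)

theorem cj_apply {Z W : Type*} [MeasurableSpace Z] [MeasurableSpace W] (E : Z ≃ᵐ W) (S : Z ≃ᵐ Z) (w : W) :
    cj E S w = E (S (E.symm w)) := rfl

theorem cj_pw {Z W : Type*} [MeasurableSpace Z] [MeasurableSpace W] (E : Z ≃ᵐ W) (S : Z ≃ᵐ Z) (s : Bool) (w : W) :
    pw s (cj E S) w = E (pw s S (E.symm w)) := by
  cases s
  · show (cj E S).symm w = E (S.symm (E.symm w))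
    rw [MeasurableEquiv.symm_apply_eq, cj_apply, E.symm_apply_apply, S.apply_symm_apply, E.apply_symm_apply]
  · rfl

theorem cj_iter {Z W : Type*} [MeasurableSpace Z] [MeasurableSpace W] (E : Z ≃ᵐ W) (S : Z ≃ᵐ Z) (s : Bool) (n : ℕ) (w : W) :
    (pw s (cj E S) : W → W)^[n] w = E ((pw s S : Z → Z)^[n] (E.symm w)) := by
  induction n generalizing w with
  | zero => rw [Function.iterate_zero, id, Function.iterate_zero, id, E.apply_symm_apply]
  | succ n ih =>
    rw [Function.iterate_succ_apply, ih, cj_pw, E.symm_apply_apply, Function.iterate_succ_apply]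

theorem cj_mp {Z W : Type*} [MeasurableSpace Z] [MeasurableSpace W] (E : Z ≃ᵐ W) (m : Measure Z) (m' : Measure W)
    (hE : MeasurePreserving E m m') (S : Z ≃ᵐ Z) (hS : MeasurePreserving S m m) : MeasurePreserving (cj E S) m' m' :=
  hE.comp (hS.comp (MeasurePreserving.symm E hE))

theorem CD_transport {Y Y' : Type*} [MeasurableSpace Y] [MeasurableSpace Y'] (ν : Measure Y) (ν' : Measure Y')
    [IsProbabilityMeasure ν] [IsProbabilityMeasure ν'] (e : Y ≃ᵐ Y') (he : MeasurePreserving e ν ν')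
    (s : Bool) (k : ℕ) (T : X ≃ᵐ X) (h : CD μ ν' s k T) : CD μ ν s k T := by
  classical
  let E : (X × Y) ≃ᵐ (X × Y') := MeasurableEquiv.prodCongr (MeasurableEquiv.refl X) e
  have hE1 : ∀ z, E z = (z.1, e z.2) := fun z => rfl
  have hE2 : ∀ w, E.symm w = (w.1, e.symm w.2) := fun w => rfl
  have hE : MeasurePreserving E (μ.prod ν) (μ.prod ν') := (MeasurePreserving.id μ).prod he
  have hEs : MeasurePreserving E.symm (μ.prod ν') (μ.prod ν) := MeasurePreserving.symm E hE
  have hmeas : ∀ F : Set (X × Y'), MeasurableSet F → (μ.prod ν).real (E ⁻¹' F) = (μ.prod ν').real F := by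
    intro F hF
    rw [measureReal_def, measureReal_def, hE.measure_preimage hF.nullMeasurableSet]
  have hmeas' : ∀ F : Set (X × Y), MeasurableSet F → (μ.prod ν').real (E.symm ⁻¹' F) = (μ.prod ν).real F := by
    intro F hF
    rw [measureReal_def, measureReal_def, hEs.measure_preimage hF.nullMeasurableSet]
  have hextup : ∀ S : (X × Y) ≃ᵐ (X × Y), IsExt μ ν T S → IsExt μ ν' T (cj E S) := by
    intro S hS
    refine ⟨cj_mp E _ _ hE S hS.1, ?_⟩
    filter_upwards [hEs.quasiMeasurePreserving.ae hS.2] with w hw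
    rw [cj_apply, hE1]
    show (S (E.symm w)).1 = T w.1
    rw [hw, hE2]
  have hextdn : ∀ S : (X × Y') ≃ᵐ (X × Y'), IsExt μ ν' T S → IsExt μ ν T (cj E.symm S) := by
    intro S hS
    refine ⟨cj_mp E.symm _ _ hEs S hS.1, ?_⟩
    filter_upwards [hE.quasiMeasurePreserving.ae hS.2] with w hw
    rw [cj_apply, hE2]
    show (S (E w)).1 = T w.1
    rw [hw, hE1]
  have hdiff : ∀ (S S' : (X × Y) ≃ᵐ (X × Y)) (F : Set (X × Y')), MeasurableSet F →
      (μ.prod ν').real ((cj E S ⁻¹' F) ∆ (cj E S' ⁻¹' F)) = (μ.prod ν).real ((S ⁻¹' (E ⁻¹' F)) ∆ (S' ⁻¹' (E ⁻¹' F))) := by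
    intro S S' F hF
    rw [← hmeas' _ ((S.measurable (E.measurable hF)).symmDiff (S'.measurable (E.measurable hF)))]
    rfl
  intro S hS r Es hEs' δ hδ A hA ε hε
  obtain ⟨S0, hS0, ⟨Φ, hΦ1, hΦ2, hΦ3⟩, hclose, J, hJf, hJm, δ', hδ', n0, hopen⟩ :=
    h (cj E S) (hextup S hS) r (fun i => E.symm ⁻¹' Es i) (fun i => E.symm.measurable (hEs' i)) δ hδ
      (fun j => E.symm ⁻¹' A j) (fun j => E.symm.measurable (hA j)) ε hε
  have hback : cj E (cj E.symm S0) = S0 := by
    apply MeasurableEquiv.ext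
    funext w
    show E (E.symm (S0 (E (E.symm w)))) = S0 w
    rw [E.apply_symm_apply, E.apply_symm_apply]
  have hpre : ∀ F : Set (X × Y), E ⁻¹' (E.symm ⁻¹' F) = F := by
    intro F
    ext z
    show E.symm (E z) ∈ F ↔ z ∈ F
    rw [E.symm_apply_apply]
  refine ⟨cj E.symm S0, hextdn S0 hS0, ?_, ?_, ?_⟩
  · refine ⟨fun x => cj e.symm (Φ x), fun x => cj_mp e.symm ν' ν (MeasurePreserving.symm e he) (Φ x) (hΦ1 x), ?_, ?_⟩
    · have h1 : Measurable (fun z : X × Y => Φ z.1 (e z.2)) :=
        hΦ2.comp (measurable_fst.prodMk (e.measurable.comp measurable_snd))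
      exact e.symm.measurable.comp h1
    · intro z
      show E.symm (S0 (E z)) = (T z.1, e.symm (Φ z.1 (e z.2)))
      rw [hΦ3, hE2, hE1]
  · intro i
    have h1 := hclose i
    rw [← hback, hdiff _ _ _ (E.symm.measurable (hEs' i)), hpre] at h1
    exact h1
  · refine ⟨(fun F => E ⁻¹' F) '' J, hJf.image _, ?_, δ', hδ', n0, ?_⟩
    · rintro _ ⟨F, hF, rfl⟩
      exact E.measurable (hJm F hF)
    · intro S' hS' hcl n hn
      have h2 := hopen (cj E S') (hextup S' hS') (fun F hF => by
        rw [← hback, hdiff _ _ _ (hJm F hF)]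
        exact hcl _ ⟨F, hF, rfl⟩) n hn
      have h3 : (⋂ j, ((pw s (cj E S') : X × Y' → X × Y')^[ps n j]) ⁻¹' (E.symm ⁻¹' A j)) =
          E.symm ⁻¹' (⋂ j, ((pw s S' : X × Y → X × Y)^[ps n j]) ⁻¹' A j) := by
        ext w
        simp only [mem_iInter, mem_preimage]
        have : ∀ j, (E.symm ((pw s (cj E S') : X × Y' → X × Y')^[ps n j] w) ∈ A j ↔
            ((pw s S' : X × Y → X × Y)^[ps n j]) (E.symm w) ∈ A j) := by
          intro j
          rw [cj_iter, E.symm_apply_apply]
        exact forall_congr' this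
      rw [h3, hmeas' _ (MeasurableSet.iInter (fun j => ((pw s S').measurable.iterate _) (hA j)))] at h2
      have h4 : ∏ j, (μ.prod ν').real (E.symm ⁻¹' A j) = ∏ j, (μ.prod ν).real (A j) :=
        Finset.prod_congr rfl (fun j _ => hmeas' _ (hA j))
      rw [h4] at h2
      exact h2

/-- the local statement for arbitrary nonatomic standard fibres -/
theorem CD_gen [MeasurableSpace.CountablySeparated X] [NullSingletonClass μ]
    {Y : Type*} [MeasurableSpace Y] [StandardBorelSpace Y] (ν : Measure Y) [IsProbabilityMeasure ν] [NullSingletonClass ν]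
    (T : X ≃ᵐ X) (hT : MeasurePreserving T μ μ) (s : Bool) (k : ℕ) (hk : 1 ≤ k) (hmix : MixS s k μ T) :
    CD μ ν s k T := by
  obtain ⟨e, he⟩ := exists_iso ν
  exact CD_transport μ ν lam e he s k T (core_dense μ T hT s k hk hmix)

end Pool.H359R3.MX
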