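import Mathlib
import Pool.Agent.H359R3.MX11

set_option autoImplicit false
set_option linter.unusedSectionVars false
set_option linter.unusedVariables false

/-!
General facts used to assemble residual sets of extensions.
-/

namespace Pool.H359R3.MX

open MeasureTheory Set Filter Topology
open scoped ENNReal symmDiff
open Pool.H359R3 Pool.H359R3.WH

theorem residual_of {E : Type*} [TopologicalSpace E] {I : Type*} [Countable I] (P : I → Set E)
    (h : ∀ i, ∀ O : Set E, IsOpen O → O.Nonempty → ∃ U : Set E, IsOpen U ∧ (O ∩ U).Nonempty ∧ U ⊆ P i) :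
    (⋂ i, P i) ∈ residual E := by
  rw [countable_iInter_mem]
  intro i
  refine Filter.mem_of_superset (residual_of_dense_open isOpen_interior ?_) (interior_subset (s := P i))
  rw [dense_iff_inter_open]
  intro O hO hne
  obtain ⟨U, hU, ⟨x, hx1, hx2⟩, hUP⟩ := h i O hO hne
  exact ⟨x, hx1, mem_interior.2 ⟨U, hUP, hU, hx2⟩⟩

theorem exists_D {Z : Type*} [MeasurableSpace Z] [MeasurableSpace.CountablyGenerated Z] (m : Measure Z)
    [IsProbabilityMeasure m] : ∃ D : ℕ → Set Z, (∀ i, MeasurableSet (D i)) ∧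
      ∀ A, MeasurableSet A → ∀ ε : ℝ, 0 < ε → ∃ i, m.real (A ∆ D i) < ε := by
  obtain ⟨𝒜, hc, hd⟩ := exists_countable_measureDense (μ := m)
  obtain ⟨D, hD⟩ := hc.exists_eq_range hd.nonempty
  refine ⟨D, fun i => hd.measurable _ (by rw [hD]; exact mem_range_self i), fun A hA ε hε => ?_⟩
  obtain ⟨t, ht, hlt⟩ := hd.approx A hA (measure_ne_top _ _) ε hε
  rw [hD] at ht
  obtain ⟨i, rfl⟩ := ht
  refine ⟨i, ?_⟩
  rw [measureReal_def]
  exact ENNReal.toReal_lt_of_lt_ofReal hlt

theorem mix_of_dense {Z : Type*} [MeasurableSpace Z] (m : Measure Z) [IsProbabilityMeasure m] (S : Z ≃ᵐ Z)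
    (hS : MeasurePreserving S m m) (s : Bool) (k : ℕ) (D : ℕ → Set Z) (hDm : ∀ i, MeasurableSet (D i))
    (hDd : ∀ A, MeasurableSet A → ∀ ε : ℝ, 0 < ε → ∃ i, m.real (A ∆ D i) < ε)
    (h : ∀ f : Fin (k + 1) → ℕ, ∀ p : ℕ, ∃ n0 : Fin k → ℕ, ∀ n ≥ n0,
      |m.real (⋂ j, ((pw s S : Z → Z)^[ps n j]) ⁻¹' D (f j)) - ∏ j, m.real (D (f j))| ≤ 1 / ((p : ℝ) + 1)) :
    MixS s k m S := by
  intro A hA
  rw [Metric.tendsto_nhds]
  intro ε hε
  have hk : (0 : ℝ) < (k : ℝ) + 1 := by positivity
  have h1 : ∀ j, ∃ i, m.real (A j ∆ D i) < ε / (4 * (k + 1)) := fun j => hDd (A j) (hA j) _ (by positivity)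
  choose f hf using h1
  obtain ⟨p, hp⟩ := exists_nat_one_div_lt (show 0 < ε / 4 by positivity)
  obtain ⟨n0, hn0⟩ := h f p
  filter_upwards [eventually_ge_atTop n0] with n hn
  have h2 := hn0 n hn
  have hmpi : ∀ j, MeasurePreserving ((pw s S : Z → Z)^[ps n j]) m m := fun j => (pw_mp s S _ hS).iterate _
  have h3 : |m.real (⋂ j, ((pw s S : Z → Z)^[ps n j]) ⁻¹' A j) -
      m.real (⋂ j, ((pw s S : Z → Z)^[ps n j]) ⁻¹' D (f j))| ≤ ε / 4 := by
    refine le_trans (real_inter_diff _ _ _ (fun j => (hmpi j).measurable (hA j))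
      (fun j => (hmpi j).measurable (hDm _))) ?_
    have h3 : ∀ j ∈ (Finset.univ : Finset (Fin (k + 1))),
        m.real ((((pw s S : Z → Z)^[ps n j]) ⁻¹' A j) ∆
        (((pw s S : Z → Z)^[ps n j]) ⁻¹' D (f j))) ≤ ε / (4 * (k + 1)) := by
      intro j _
      rw [← preimage_symmDiff, mp_real' (hmpi j) ((hA j).symmDiff (hDm _))]
      exact (hf j).le
    refine le_trans (Finset.sum_le_sum h3) ?_
    rw [Finset.sum_const, Finset.card_univ, Fintype.card_fin, nsmul_eq_mul]
    apply le_of_eq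
    push_cast
    field_simp
  have h4 : |∏ j, m.real (A j) - ∏ j, m.real (D (f j))| ≤ ε / 4 := by
    refine le_trans (prod_sub_le _ _ _ (fun j => measureReal_nonneg) (fun j => measureReal_le_one)
      (fun j => measureReal_nonneg) (fun j => measureReal_le_one)) ?_
    have h3 : ∀ j ∈ (Finset.univ : Finset (Fin (k + 1))),
        |m.real (A j) - m.real (D (f j))| ≤ ε / (4 * (k + 1)) := by
      intro j _
      have h5 := real_inter_diff m (ι := Unit) (fun _ => A j) (fun _ => D (f j))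
        (fun _ => hA j) (fun _ => hDm _)
      simp only [iInter_const, Finset.univ_unique, Finset.sum_singleton] at h5
      exact le_trans h5 (hf j).le
    refine le_trans (Finset.sum_le_sum h3) ?_
    rw [Finset.sum_const, Finset.card_univ, Fintype.card_fin, nsmul_eq_mul]
    apply le_of_eq
    push_cast
    field_simp
  have h6 := abs_le.1 h2
  have h7 := abs_le.1 h3
  have h8 := abs_le.1 h4
  rw [Real.dist_eq, abs_lt]
  constructor
  · linarith [h6.1, h7.1, h8.2]
  · linarith [h6.2, h7.2, h8.1]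

theorem img_eq {Z : Type*} [MeasurableSpace Z] (S : Z ≃ᵐ Z) (A : Set Z) : S '' A = S.symm ⁻¹' A :=
  S.toEquiv.image_eq_preimage_symm A

theorem img_iter {Z : Type*} [MeasurableSpace Z] (S : Z ≃ᵐ Z) (A : Set Z) (n : ℕ) :
    (S : Z → Z)^[n] '' A = (pw false S : Z → Z)^[n] ⁻¹' A := by
  have h1 : Function.LeftInverse (pw false S : Z → Z)^[n] (S : Z → Z)^[n] :=
    Function.LeftInverse.iterate (fun y => S.symm_apply_apply y) n
  have h2 : Function.RightInverse (pw false S : Z → Z)^[n] (S : Z → Z)^[n] :=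
    Function.RightInverse.iterate (fun y => S.apply_symm_apply y) n
  rw [Set.image_eq_preimage_of_inverse h1 h2]

/-- conversion between image and preimage closeness -/
theorem img_pre {Z : Type*} [MeasurableSpace Z] (m : Measure Z) (S S' : Z ≃ᵐ Z)
    (hS : MeasurePreserving S m m) (hS' : MeasurePreserving S' m m) (A : Set Z) (hA : MeasurableSet A) :
    m.real ((S ⁻¹' (S '' A)) ∆ (S' ⁻¹' (S '' A))) = m.real ((S' '' A) ∆ (S '' A)) := by
  have h1 : S ⁻¹' (S '' A) = S' ⁻¹' (S' '' A) := by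
    rw [preimage_image_eq _ S.injective, preimage_image_eq _ S'.injective]
  have hm1 : MeasurableSet (S '' A) := S.measurableSet_image.2 hA
  have hm2 : MeasurableSet (S' '' A) := S'.measurableSet_image.2 hA
  rw [h1, ← preimage_symmDiff, mp_real' hS' (hm2.symmDiff hm1)]

theorem img_pre' {Z : Type*} [MeasurableSpace Z] (m : Measure Z) (S S' : Z ≃ᵐ Z)
    (hS : MeasurePreserving S m m) (hS' : MeasurePreserving S' m m) (F : Set Z) (hF : MeasurableSet F) :
    m.real ((S' ⁻¹' F) ∆ (S ⁻¹' F)) = m.real ((S' '' (S ⁻¹' F)) ∆ (S '' (S ⁻¹' F))) := by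
  rw [← img_pre m S S' hS hS' (S ⁻¹' F) (S.measurable hF), image_preimage_eq F S.surjective, symmDiff_comm]

/-- almost everywhere equal automorphisms have almost everywhere equal images -/
theorem img_ae {Z : Type*} [MeasurableSpace Z] (m : Measure Z) (S S' : Z ≃ᵐ Z)
    (hS : MeasurePreserving S m m) (h : ∀ᵐ z ∂m, S z = S' z) (A : Set Z) : S '' A =ᵐ[m] S' '' A := by
  rw [img_eq, img_eq]
  have h1 := (MeasurePreserving.symm S hS).quasiMeasurePreserving.ae h
  filter_upwards [h1] with w hw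
  rw [S.apply_symm_apply] at hw
  have h2 : S'.symm w = S.symm w := by
    rw [MeasurableEquiv.symm_apply_eq]
    exact hw
  show (S.symm ⁻¹' A) w = (S'.symm ⁻¹' A) w
  apply propext
  show S.symm w ∈ A ↔ S'.symm w ∈ A
  rw [h2]

theorem iter_ae {Z : Type*} [MeasurableSpace Z] (m : Measure Z) (f g : Z → Z)
    (hf : MeasurePreserving f m m) (h : ∀ᵐ z ∂m, f z = g z) (n : ℕ) : ∀ᵐ z ∂m, f^[n] z = g^[n] z := by
  induction n with
  | zero => exact Eventually.of_forall (fun _ => rfl)
  | succ n ih =>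
    have h1 := (hf.iterate n).quasiMeasurePreserving.ae h
    filter_upwards [ih, h1] with z h2 h3
    rw [Function.iterate_succ_apply', Function.iterate_succ_apply', h3, h2]

theorem pw_ae {Z : Type*} [MeasurableSpace Z] (m : Measure Z) (S S' : Z ≃ᵐ Z) (s : Bool)
    (hS : MeasurePreserving S m m) (h : ∀ᵐ z ∂m, S z = S' z) : ∀ᵐ z ∂m, pw s S z = pw s S' z := by
  cases s
  · have h1 := (MeasurePreserving.symm S hS).quasiMeasurePreserving.ae h
    filter_upwards [h1] with w hw
    rw [S.apply_symm_apply] at hw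
    show S.symm w = S'.symm w
    rw [eq_comm, MeasurableEquiv.symm_apply_eq]
    exact hw
  · exact h

end Pool.H359R3.MX
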