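import Mathlib
import Pool.Agent.H359R3.MX12

set_option autoImplicit false
set_option linter.unusedSectionVars false
set_option linter.unusedVariables false

/-!
Skew products over a base given by fibre automorphisms, and convergence in measure.
-/

namespace Pool.H359R3.MX

open MeasureTheory Set Filter Topology
open scoped ENNReal symmDiff
open Pool.H359R3 Pool.H359R3.WH

theorem ps_succ {k : ℕ} (n : Fin k → ℕ) (i : Fin k) : ps n i.succ = ps n i.castSucc + n i := by
  unfold ps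
  have h1 : ∀ l : Fin k, (if (l : ℕ) < (i.succ : ℕ) then n l else 0) =
      (if (l : ℕ) < (i.castSucc : ℕ) then n l else 0) + (if l = i then n i else 0) := by
    intro l
    rw [Fin.val_succ, Fin.val_castSucc]
    by_cases h : l = i
    · subst h
      simp
    · have h2 : (l : ℕ) ≠ (i : ℕ) := fun hh => h (Fin.ext hh)
      by_cases h3 : (l : ℕ) < (i : ℕ)
      · rw [if_pos (by omega), if_pos h3, if_neg h]
        rfl
      · rw [if_neg (by omega), if_neg h3, if_neg h]
  rw [Finset.sum_congr rfl (fun l _ => h1 l), Finset.sum_add_distrib]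
  congr 1
  simp

theorem ps_gaps {k : ℕ} (N : Fin (k + 1) → ℕ) (h0 : N 0 = 0) (hmono : ∀ i : Fin k, N i.castSucc ≤ N i.succ)
    (j : Fin (k + 1)) : ps (fun i : Fin k => N i.succ - N i.castSucc) j = N j := by
  refine Fin.induction ?_ (fun i ih => ?_) j
  · rw [ps_zero, h0]
  · rw [ps_succ, ih]
    have := hmono i
    omega

variable {X Y : Type*} [MeasurableSpace X] [StandardBorelSpace X] [MeasurableSpace Y] [StandardBorelSpace Y]

/-- the skew product equivalence of fibre automorphisms -/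
noncomputable def SE (T : X ≃ᵐ X) (α : X → Y ≃ᵐ Y) (hα : Measurable (fun z : X × Y => α z.1 z.2)) :
    (X × Y) ≃ᵐ (X × Y) :=
  have hG : Measurable (fun z : X × Y => (T z.1, α z.1 z.2)) := (T.measurable.comp measurable_fst).prodMk hα
  have hinj : Function.Injective (fun z : X × Y => (T z.1, α z.1 z.2)) := by
    rintro ⟨x, y⟩ ⟨x', y'⟩ h
    have h1 : T x = T x' := congrArg Prod.fst h
    have h2 : x = x' := T.injective h1
    subst h2
    have h3 : α x y = α x y' := congrArg Prod.snd h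
    rw [(α x).injective h3]
  have hsurj : Function.Surjective (fun z : X × Y => (T z.1, α z.1 z.2)) := by
    rintro ⟨x, y⟩
    refine ⟨(T.symm x, (α (T.symm x)).symm y), ?_⟩
    show (T (T.symm x), α (T.symm x) ((α (T.symm x)).symm y)) = (x, y)
    rw [T.apply_symm_apply, (α (T.symm x)).apply_symm_apply]
  { toEquiv := Equiv.ofBijective _ ⟨hinj, hsurj⟩
    measurable_toFun := hG
    measurable_invFun := by
      intro u hu
      have hemb := hG.measurableEmbedding hinj
      have h1 : (Equiv.ofBijective (fun z : X × Y => (T z.1, α z.1 z.2)) ⟨hinj, hsurj⟩).symm ⁻¹' u =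
          (fun z : X × Y => (T z.1, α z.1 z.2)) '' u := by
        exact ((Equiv.ofBijective (fun z : X × Y => (T z.1, α z.1 z.2)) ⟨hinj, hsurj⟩).image_eq_preimage_symm u).symm
      show MeasurableSet ((Equiv.ofBijective (fun z : X × Y => (T z.1, α z.1 z.2)) ⟨hinj, hsurj⟩).symm ⁻¹' u)
      rw [h1]
      exact hemb.measurableSet_image' hu }

theorem SE_apply (T : X ≃ᵐ X) (α : X → Y ≃ᵐ Y) (hα : Measurable (fun z : X × Y => α z.1 z.2)) (z : X × Y) :
    SE T α hα z = (T z.1, α z.1 z.2) := rfl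

theorem SE_coe (T : X ≃ᵐ X) (α : X → Y ≃ᵐ Y) (hα : Measurable (fun z : X × Y => α z.1 z.2)) :
    (SE T α hα : X × Y → X × Y) = fun z => (T z.1, α z.1 z.2) := rfl

theorem SE_symm (T : X ≃ᵐ X) (α : X → Y ≃ᵐ Y) (hα : Measurable (fun z : X × Y => α z.1 z.2)) (w : X × Y) :
    (SE T α hα).symm w = (T.symm w.1, (α (T.symm w.1)).symm w.2) := by
  rw [MeasurableEquiv.symm_apply_eq, SE_apply]
  show w = (T (T.symm w.1), α (T.symm w.1) ((α (T.symm w.1)).symm w.2))
  rw [T.apply_symm_apply, (α (T.symm w.1)).apply_symm_apply]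

variable (μ : Measure X) [IsProbabilityMeasure μ] (ν : Measure Y) [IsProbabilityMeasure ν]

theorem SE_ext (T : X ≃ᵐ X) (hT : MeasurePreserving T μ μ) (α : X → Y ≃ᵐ Y)
    (hα : Measurable (fun z : X × Y => α z.1 z.2)) (hmp : ∀ x, MeasurePreserving (α x) ν ν) :
    IsExt μ ν T (SE T α hα) := by
  refine ⟨?_, Eventually.of_forall (fun z => rfl)⟩
  exact MeasurePreserving.skew_product (μa := μ) (μb := μ) (μc := ν) (μd := ν) hT
    (g := fun x y => α x y) hα (Eventually.of_forall (fun x => (hmp x).map_eq))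

/-- distance of images of a fibre set -/
noncomputable def wd (α α' : X → Y ≃ᵐ Y) (D : Set Y) (x : X) : ℝ := ν.real ((α' x '' D) ∆ (α x '' D))

/-- fibres of the symmetric difference of images of a cylinder -/
theorem fib_W (T : X ≃ᵐ X) (α α' : X → Y ≃ᵐ Y) (hα : Measurable (fun z : X × Y => α z.1 z.2))
    (hα' : Measurable (fun z : X × Y => α' z.1 z.2)) (D : Set Y) (x : X) :
    Prod.mk x ⁻¹' ((SE T α' hα' '' (univ ×ˢ D)) ∆ (SE T α hα '' (univ ×ˢ D))) =
      (α' (T.symm x) '' D) ∆ (α (T.symm x) '' D) := by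
  rw [img_eq, img_eq, img_eq, img_eq]
  ext y
  have e1 : ∀ (β : X → Y ≃ᵐ Y) (hβ : Measurable (fun z : X × Y => β z.1 z.2)),
      ((x, y) ∈ (SE T β hβ).symm ⁻¹' (univ ×ˢ D) ↔ y ∈ (β (T.symm x)).symm ⁻¹' D) := by
    intro β hβ
    rw [mem_preimage, SE_symm]
    exact ⟨fun h => h.2, fun h => ⟨mem_univ _, h⟩⟩
  rw [mem_preimage, Set.mem_symmDiff, Set.mem_symmDiff, e1, e1]

theorem W_meas (T : X ≃ᵐ X) (α α' : X → Y ≃ᵐ Y) (hα : Measurable (fun z : X × Y => α z.1 z.2))
    (hα' : Measurable (fun z : X × Y => α' z.1 z.2)) (D : Set Y) (hD : MeasurableSet D) :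
    MeasurableSet ((SE T α' hα' '' (univ ×ˢ D)) ∆ (SE T α hα '' (univ ×ˢ D))) :=
  ((SE T α' hα').measurableSet_image.2 (MeasurableSet.univ.prod hD)).symmDiff
    ((SE T α hα).measurableSet_image.2 (MeasurableSet.univ.prod hD))

theorem wd_meas (T : X ≃ᵐ X) (α α' : X → Y ≃ᵐ Y) (hα : Measurable (fun z : X × Y => α z.1 z.2))
    (hα' : Measurable (fun z : X × Y => α' z.1 z.2)) (D : Set Y) (hD : MeasurableSet D) :
    Measurable (wd ν α α' D) := by
  have h1 := (measurable_measure_prodMk_left (ν := ν) (W_meas T α α' hα hα' D hD)).ennreal_toReal.comp T.measurable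
  have h2 : wd ν α α' D = (fun x => (ν (Prod.mk x ⁻¹' ((SE T α' hα' '' (univ ×ˢ D)) ∆ (SE T α hα '' (univ ×ˢ D))))).toReal) ∘ T := by
    funext x
    show ν.real ((α' x '' D) ∆ (α x '' D)) = (ν (Prod.mk (T x) ⁻¹' _)).toReal
    rw [fib_W, T.symm_apply_apply]
    rfl
  rw [h2]
  exact h1

theorem W_int (T : X ≃ᵐ X) (hT : MeasurePreserving T μ μ) (α α' : X → Y ≃ᵐ Y) (hα : Measurable (fun z : X × Y => α z.1 z.2))
    (hα' : Measurable (fun z : X × Y => α' z.1 z.2)) (D : Set Y) (hD : MeasurableSet D) :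
    (μ.prod ν).real ((SE T α' hα' '' (univ ×ˢ D)) ∆ (SE T α hα '' (univ ×ˢ D))) = ∫ x, wd ν α α' D x ∂μ := by
  have hW := W_meas T α α' hα hα' D hD
  have hm := measurable_measure_prodMk_left (ν := ν) hW
  rw [measureReal_def, Measure.prod_apply hW, ← integral_toReal hm.aemeasurable (Eventually.of_forall (fun _ => measure_lt_top _ _))]
  have h3 := hT.map_eq
  conv_lhs => rw [← h3]
  rw [integral_map T.measurable.aemeasurable hm.ennreal_toReal.aestronglyMeasurable]
  congr 1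
  funext x
  rw [fib_W, T.symm_apply_apply]
  rfl

theorem wd_nonneg (α α' : X → Y ≃ᵐ Y) (D : Set Y) (x : X) : 0 ≤ wd ν α α' D x := measureReal_nonneg

theorem wd_le (α α' : X → Y ≃ᵐ Y) (D : Set Y) (x : X) : wd ν α α' D x ≤ 1 := measureReal_le_one

theorem wd_integrable (T : X ≃ᵐ X) (α α' : X → Y ≃ᵐ Y) (hα : Measurable (fun z : X × Y => α z.1 z.2))
    (hα' : Measurable (fun z : X × Y => α' z.1 z.2)) (D : Set Y) (hD : MeasurableSet D) :
    Integrable (wd ν α α' D) μ :=
  integrable_of_abs_le μ (wd_meas ν T α α' hα hα' D hD) 1 (fun x => by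
    rw [abs_of_nonneg (wd_nonneg ν α α' D x)]; exact wd_le ν α α' D x)

theorem W_le (T : X ≃ᵐ X) (hT : MeasurePreserving T μ μ) (α α' : X → Y ≃ᵐ Y) (hα : Measurable (fun z : X × Y => α z.1 z.2))
    (hα' : Measurable (fun z : X × Y => α' z.1 z.2)) (D : Set Y) (hD : MeasurableSet D) (ε : ℝ) (hε : 0 < ε) :
    (μ.prod ν).real ((SE T α' hα' '' (univ ×ˢ D)) ∆ (SE T α hα '' (univ ×ˢ D))) ≤
      ε + μ.real {x | ε ≤ wd ν α α' D x} := by
  rw [W_int μ ν T hT α α' hα hα' D hD]
  have hm : MeasurableSet {x | ε ≤ wd ν α α' D x} := (wd_meas ν T α α' hα hα' D hD) measurableSet_Ici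
  calc ∫ x, wd ν α α' D x ∂μ ≤ ∫ x, (ε + {x | ε ≤ wd ν α α' D x}.indicator (fun _ => (1:ℝ)) x) ∂μ := by
        apply integral_mono (wd_integrable μ ν T α α' hα hα' D hD)
          ((integrable_const _).add ((integrable_const _).indicator hm))
        intro x
        show wd ν α α' D x ≤ ε + {x | ε ≤ wd ν α α' D x}.indicator (fun _ => (1:ℝ)) x
        by_cases h : ε ≤ wd ν α α' D x
        · rw [indicator_of_mem (show x ∈ {x | ε ≤ wd ν α α' D x} from h)]
          have := wd_le ν α α' D x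
          linarith
        · rw [indicator_of_notMem (show x ∉ {x | ε ≤ wd ν α α' D x} from h)]
          push Not at h
          linarith
    _ = ε + μ.real {x | ε ≤ wd ν α α' D x} := by
        rw [integral_add (integrable_const _) ((integrable_const _).indicator hm), integral_indicator hm]
        simp

theorem W_ge (T : X ≃ᵐ X) (hT : MeasurePreserving T μ μ) (α α' : X → Y ≃ᵐ Y) (hα : Measurable (fun z : X × Y => α z.1 z.2))
    (hα' : Measurable (fun z : X × Y => α' z.1 z.2)) (D : Set Y) (hD : MeasurableSet D) (ε : ℝ) :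
    ε * μ.real {x | ε ≤ wd ν α α' D x} ≤
    (μ.prod ν).real ((SE T α' hα' '' (univ ×ˢ D)) ∆ (SE T α hα '' (univ ×ˢ D))) := by
  rw [W_int μ ν T hT α α' hα hα' D hD]
  exact mul_meas_ge_le_integral_of_nonneg (Eventually.of_forall (wd_nonneg ν α α' D))
    (wd_integrable μ ν T α α' hα hα' D hD) ε

/-- continuity of the passage from the fibre maps to the skew product -/
theorem img_cont (T : X ≃ᵐ X) (hT : MeasurePreserving T μ μ) (α : X → Y ≃ᵐ Y)
    (hα : Measurable (fun z : X × Y => α z.1 z.2)) (hmp : ∀ x, MeasurePreserving (α x) ν ν)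
    (B : Set (X × Y)) (hB : MeasurableSet B) : ∀ δ : ℝ, 0 < δ → ∃ J : Finset (Set Y), (∀ D ∈ J, MeasurableSet D) ∧
      ∃ ε : ℝ, 0 < ε ∧ ∀ (α' : X → Y ≃ᵐ Y) (hα' : Measurable (fun z : X × Y => α' z.1 z.2)),
        (∀ x, MeasurePreserving (α' x) ν ν) →
        (∀ D ∈ J, μ.real {x | ε ≤ wd ν α α' D x} < ε) →
        (μ.prod ν).real ((SE T α' hα' '' B) ∆ (SE T α hα '' B)) < δ := by
  classical
  have hgen : (Prod.instMeasurableSpace : MeasurableSpace (X × Y)) =
      MeasurableSpace.generateFrom (image2 (· ×ˢ ·) {s : Set X | MeasurableSet s} {t : Set Y | MeasurableSet t}) :=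
    generateFrom_prod.symm
  refine approx_induction (μ.prod ν) _ hgen (fun B => ∀ δ : ℝ, 0 < δ → ∃ J : Finset (Set Y), (∀ D ∈ J, MeasurableSet D) ∧
      ∃ ε : ℝ, 0 < ε ∧ ∀ (α' : X → Y ≃ᵐ Y) (hα' : Measurable (fun z : X × Y => α' z.1 z.2)),
        (∀ x, MeasurePreserving (α' x) ν ν) →
        (∀ D ∈ J, μ.real {x | ε ≤ wd ν α α' D x} < ε) →
        (μ.prod ν).real ((SE T α' hα' '' B) ∆ (SE T α hα '' B)) < δ) ?_ ?_ ?_ ?_ ?_ B hB
  · rintro _ ⟨C, hC, D, hD, rfl⟩ δ hδ
    refine ⟨{D}, fun D' hD' => by rw [Finset.mem_singleton] at hD'; rw [hD']; exact hD, δ / 2, by positivity,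
      fun α' hα' hmp' hcl => ?_⟩
    have h1 := hcl D (Finset.mem_singleton_self D)
    have h2 := W_le μ ν T hT α α' hα hα' D hD (δ / 2) (by positivity)
    have h3 : (SE T α' hα' '' (C ×ˢ D)) ∆ (SE T α hα '' (C ×ˢ D)) ⊆
        (SE T α' hα' '' (univ ×ˢ D)) ∆ (SE T α hα '' (univ ×ˢ D)) := by
      rw [img_eq, img_eq, img_eq, img_eq]
      intro w hw
      have e1 : ∀ (β : X → Y ≃ᵐ Y) (hβ : Measurable (fun z : X × Y => β z.1 z.2)) (C' : Set X),
        (w ∈ (SE T β hβ).symm ⁻¹' (C' ×ˢ D) ↔ T.symm w.1 ∈ C' ∧ (β (T.symm w.1)).symm w.2 ∈ D) := by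
        intro β hβ C'
        rw [mem_preimage, SE_symm]
        rfl
      rw [Set.mem_symmDiff, e1, e1] at hw
      rw [Set.mem_symmDiff, e1, e1]
      have := mem_univ (T.symm w.1)
      tauto
    refine lt_of_le_of_lt (measureReal_mono h3 (measure_ne_top _ _)) ?_
    linarith
  · intro δ hδ
    refine ⟨∅, by simp, 1, one_pos, fun α' hα' _ _ => ?_⟩
    simpa using hδ
  · intro s hs hP δ hδ
    obtain ⟨J, hJ, ε, hε, h⟩ := hP δ hδ
    refine ⟨J, hJ, ε, hε, fun α' hα' hmp' hcl => ?_⟩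
    have h1 := h α' hα' hmp' hcl
    have h2 : (SE T α' hα' '' sᶜ) ∆ (SE T α hα '' sᶜ) = (SE T α' hα' '' s) ∆ (SE T α hα '' s) := by
      rw [img_eq, img_eq, img_eq, img_eq, preimage_compl, preimage_compl]
      ext w
      simp only [Set.mem_symmDiff, mem_compl_iff]
      tauto
    rw [h2]
    exact h1
  · intro s t hs ht hP hQ δ hδ
    obtain ⟨J1, hJ1, ε1, hε1, h1⟩ := hP (δ / 2) (by positivity)
    obtain ⟨J2, hJ2, ε2, hε2, h2⟩ := hQ (δ / 2) (by positivity)
    have hmn : 0 < min ε1 ε2 := lt_min hε1 hε2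
    refine ⟨J1 ∪ J2, fun A hA => ?_, min ε1 ε2, hmn, fun α' hα' hmp' hcl => ?_⟩
    · rcases Finset.mem_union.1 hA with h | h
      · exact hJ1 A h
      · exact hJ2 A h
    have e1 := h1 α' hα' hmp' (fun D hD => by
      have h3 := hcl D (Finset.mem_union_left _ hD)
      refine lt_of_le_of_lt (measureReal_mono (fun x hx => ?_) (measure_ne_top _ _)) (lt_of_lt_of_le h3 (min_le_left _ _))
      have hx' : ε1 ≤ wd ν α α' D x := hx
      exact le_trans (min_le_left _ _) hx')
    have e2 := h2 α' hα' hmp' (fun D hD => by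
      have h3 := hcl D (Finset.mem_union_right _ hD)
      refine lt_of_le_of_lt (measureReal_mono (fun x hx => ?_) (measure_ne_top _ _)) (lt_of_lt_of_le h3 (min_le_right _ _))
      have hx' : ε2 ≤ wd ν α α' D x := hx
      exact le_trans (min_le_right _ _) hx')
    have h4 : (SE T α' hα' '' (s ∪ t)) ∆ (SE T α hα '' (s ∪ t)) ⊆
        ((SE T α' hα' '' s) ∆ (SE T α hα '' s)) ∪ ((SE T α' hα' '' t) ∆ (SE T α hα '' t)) := by
      rw [image_union, image_union]
      intro w hw
      simp only [mem_union, Set.mem_symmDiff] at hw ⊢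
      tauto
    refine lt_of_le_of_lt (le_trans (measureReal_mono h4 (measure_ne_top _ _)) (measureReal_union_le _ _)) ?_
    linarith
  · intro s hs hap δ hδ
    obtain ⟨t, ht, hPt, hst⟩ := hap (δ / 4) (by positivity)
    obtain ⟨J, hJ, ε, hε, h⟩ := hPt (δ / 4) (by positivity)
    refine ⟨J, hJ, ε, hε, fun α' hα' hmp' hcl => ?_⟩
    have h1 := h α' hα' hmp' hcl
    have h5 : ∀ (β : X → Y ≃ᵐ Y) (hβ : Measurable (fun z : X × Y => β z.1 z.2)),
        (∀ x, MeasurePreserving (β x) ν ν) → (μ.prod ν).real ((SE T β hβ '' s) ∆ (SE T β hβ '' t)) < δ / 4 := by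
      intro β hβ hβmp
      have hE := (SE_ext μ ν T hT β hβ hβmp).1
      rw [img_eq, img_eq, ← preimage_symmDiff, mp_real' (MeasurePreserving.symm _ hE) (hs.symmDiff ht)]
      exact hst
    have e1 := h5 α' hα' hmp'
    have e2 := h5 α hα hmp
    have e3 := diff_tri (μ.prod ν) (SE T α' hα' '' s) (SE T α' hα' '' t) (SE T α hα '' s)
    have e4 := diff_tri (μ.prod ν) (SE T α' hα' '' t) (SE T α hα '' t) (SE T α hα '' s)
    rw [symmDiff_comm (SE T α hα '' t) (SE T α hα '' s)] at e4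
    linarith

end Pool.H359R3.MX
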