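import Pool.Agent.H359R3.Weak

set_option autoImplicit false

namespace Pool.H359R3

open MeasureTheory Set Filter Topology
open scoped ENNReal symmDiff

theorem lam_Icc_real {a b : ℝ} (ha : 0 ≤ a) (hab : a ≤ b) (hb : b ≤ 1) : lam.real (Icc a b) = b - a := by
  rw [measureReal_def, Measure.restrict_apply measurableSet_Icc, Icc_inter_Icc, max_eq_left ha, min_eq_left hb,
    Real.volume_Icc, ENNReal.toReal_ofReal (by linarith)]

theorem lam_Icc_le {a b : ℝ} (hab : a ≤ b) : lam.real (Icc a b) ≤ b - a := by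
  have h : lam (Icc a b) ≤ ENNReal.ofReal (b - a) := by
    rw [← Real.volume_Icc]
    exact Measure.restrict_apply_le _ _
  rw [measureReal_def]
  exact ENNReal.toReal_le_of_le_ofReal (by linarith) h

/-- the probability integral transform -/
theorem cdf_mp (ν : Measure ℝ) [IsProbabilityMeasure ν] (hν : ∀ t, ν {t} = 0) :
    MeasurePreserving (ProbabilityTheory.cdf ν) ν lam := by
  have hmeas : Measurable (ProbabilityTheory.cdf ν) := (ProbabilityTheory.monotone_cdf ν).measurable
  refine ⟨hmeas, ?_⟩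
  have hcont : Continuous (ProbabilityTheory.cdf ν) := by
    rw [continuous_iff_continuousAt]
    intro t
    rw [continuousAt_iff_continuous_left_right]
    refine ⟨?_, (ProbabilityTheory.cdf ν).right_continuous t⟩
    rw [← continuousWithinAt_Iio_iff_Iic, (ProbabilityTheory.monotone_cdf ν).continuousWithinAt_Iio_iff_leftLim_eq]
    have h1 : (ProbabilityTheory.cdf ν).measure {t} = 0 := by
      rw [ProbabilityTheory.measure_cdf]; exact hν t
    rw [StieltjesFunction.measure_singleton, ENNReal.ofReal_eq_zero] at h1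
    have h2 := (ProbabilityTheory.monotone_cdf ν).leftLim_le (le_refl t)
    linarith
  have hivt : ∀ s : ℝ, 0 < s → s < 1 → ∃ t, ProbabilityTheory.cdf ν t = s := by
    intro s h0 h1
    have ha : ∃ a, ProbabilityTheory.cdf ν a ≤ s :=
      (((ProbabilityTheory.tendsto_cdf_atBot ν).eventually (gt_mem_nhds h0)).exists).imp fun _ h => h.le
    have hb : ∃ b, s ≤ ProbabilityTheory.cdf ν b :=
      (((ProbabilityTheory.tendsto_cdf_atTop ν).eventually (lt_mem_nhds h1)).exists).imp fun _ h => h.le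
    obtain ⟨a, ha⟩ := ha
    obtain ⟨b, hb⟩ := hb
    exact mem_range_of_exists_le_of_exists_ge hcont ⟨a, ha⟩ ⟨b, hb⟩
  have hle : ∀ s : ℝ, 0 < s → s < 1 → ν.real {t | ProbabilityTheory.cdf ν t < s} ≤ s := by
    intro s h0 h1
    obtain ⟨t, ht⟩ := hivt s h0 h1
    have : {t' | ProbabilityTheory.cdf ν t' < s} ⊆ Iic t := by
      intro t' ht'
      by_contra hc
      have := ProbabilityTheory.monotone_cdf ν (le_of_lt (not_le.1 hc))
      rw [ht] at this
      exact absurd ht' (not_lt.2 this)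
    refine (measureReal_mono this).trans ?_
    rw [← ProbabilityTheory.cdf_eq_real, ht]
  have hpr : IsProbabilityMeasure (Measure.map (ProbabilityTheory.cdf ν) ν) :=
    Measure.isProbabilityMeasure_map hmeas.aemeasurable
  refine Measure.ext_of_Iic _ _ fun s => ?_
  rw [Measure.map_apply hmeas measurableSet_Iic]
  have hreal : ν.real (ProbabilityTheory.cdf ν ⁻¹' Iic s) = lam.real (Iic s) := by
    rcases lt_or_ge s 0 with hs | hs
    · have e1 : (ProbabilityTheory.cdf ν ⁻¹' Iic s) = ∅ := by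
        ext t
        simp only [mem_preimage, mem_Iic, mem_empty_iff_false, iff_false, not_le]
        exact lt_of_lt_of_le hs (ProbabilityTheory.cdf_nonneg ν t)
      have e2 : Iic s ∩ Icc (0:ℝ) 1 = ∅ := by
        ext t
        simp only [mem_inter_iff, mem_Iic, mem_Icc, mem_empty_iff_false, iff_false, not_and, not_le]
        intro h1 h2
        linarith
      rw [e1, measureReal_def lam, Measure.restrict_apply measurableSet_Iic, e2]
      simp
    rcases le_or_gt 1 s with hs1 | hs1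
    · have e1 : (ProbabilityTheory.cdf ν ⁻¹' Iic s) = univ := by
        ext t
        simp only [mem_preimage, mem_Iic, mem_univ, iff_true]
        exact (ProbabilityTheory.cdf_le_one ν t).trans hs1
      have e2 : Iic s ∩ Icc (0:ℝ) 1 = Icc 0 1 := by
        ext t
        simp only [mem_inter_iff, mem_Iic, mem_Icc, and_iff_right_iff_imp]
        intro h1
        linarith [h1.2]
      rw [e1, measureReal_def lam, Measure.restrict_apply measurableSet_Iic, e2]
      simp
    have e2 : Iic s ∩ Icc (0:ℝ) 1 = Icc 0 s := by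
      ext t
      simp only [mem_inter_iff, mem_Iic, mem_Icc]
      constructor
      · rintro ⟨h1, h2, h3⟩; exact ⟨h2, h1⟩
      · rintro ⟨h1, h2⟩; exact ⟨h2, h1, by linarith⟩
    rw [measureReal_def lam, Measure.restrict_apply measurableSet_Iic, e2, Real.volume_Icc, sub_zero,
      ENNReal.toReal_ofReal hs]
    apply le_antisymm
    · apply le_of_forall_gt_imp_ge_of_dense
      intro s' hs'
      have hs2 : s < min s' ((1+s)/2) := lt_min hs' (by linarith)
      refine (measureReal_mono ?_).trans ((hle (min s' ((1+s)/2)) (by linarith) ?_).trans (min_le_left _ _))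
      · intro t ht
        have ht' : ProbabilityTheory.cdf ν t ≤ s := ht
        exact lt_of_le_of_lt ht' hs2
      · exact lt_of_le_of_lt (min_le_right _ _) (by linarith)
    · rcases eq_or_lt_of_le hs with h0 | h0
      · rw [← h0]; exact measureReal_nonneg
      · obtain ⟨t, ht⟩ := hivt s h0 hs1
        rw [← ht, ProbabilityTheory.cdf_eq_real]
        refine measureReal_mono ?_
        intro t' ht'
        show ProbabilityTheory.cdf ν t' ≤ ν.real (Iic t)
        rw [← ProbabilityTheory.cdf_eq_real]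
        exact ProbabilityTheory.monotone_cdf ν ht'
  rw [measureReal_def, measureReal_def] at hreal
  exact (ENNReal.toReal_eq_toReal_iff' (measure_ne_top _ _) (measure_ne_top _ _)).1 hreal

/-- binary digits -/
def DD (k : ℕ) : Set ℝ := {x | Odd ⌊x * 2 ^ (k+1)⌋}

theorem DD_meas (k : ℕ) : MeasurableSet (DD k) := by
  have h : Measurable (fun x : ℝ => ⌊x * 2 ^ (k+1)⌋) := Int.measurable_floor.comp (measurable_id.mul_const _)
  exact h (MeasurableSet.of_discrete (s := {n : ℤ | Odd n}))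

theorem floor_two (x : ℝ) : ⌊x * 2⌋ = 2 * ⌊x⌋ ∨ ⌊x * 2⌋ = 2 * ⌊x⌋ + 1 := by
  have h1 : 2 * ⌊x⌋ ≤ ⌊x * 2⌋ := by
    rw [Int.le_floor]
    push_cast
    linarith [Int.floor_le x]
  have h2 : ⌊x * 2⌋ < 2 * ⌊x⌋ + 2 := by
    rw [Int.floor_lt]
    push_cast
    linarith [Int.lt_floor_add_one x]
  omega

theorem floor_digits {x y : ℝ} (hx : x ∈ Ico (0:ℝ) 1) (hy : y ∈ Ico (0:ℝ) 1) (d : ℕ)
    (h : ∀ k < d, x ∈ DD k ↔ y ∈ DD k) : ⌊x * 2 ^ d⌋ = ⌊y * 2 ^ d⌋ := by
  induction d with
  | zero =>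
    have e1 : ⌊x * 2 ^ 0⌋ = 0 := by
      rw [Int.floor_eq_zero_iff]; simpa using hx
    have e2 : ⌊y * 2 ^ 0⌋ = 0 := by
      rw [Int.floor_eq_zero_iff]; simpa using hy
    rw [e1, e2]
  | succ d ih =>
    have ih' := ih fun k hk => h k (by omega)
    have hd := h d (by omega)
    have e1 : x * 2 ^ (d+1) = (x * 2 ^ d) * 2 := by ring
    have e2 : y * 2 ^ (d+1) = (y * 2 ^ d) * 2 := by ring
    have hd' : (Odd ⌊x * 2 ^ (d+1)⌋ ↔ Odd ⌊y * 2 ^ (d+1)⌋) := hd
    rw [e1, e2] at hd' ⊢
    have p1 := floor_two (x * 2 ^ d)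
    have p2 := floor_two (y * 2 ^ d)
    rw [Int.odd_iff, Int.odd_iff] at hd'
    omega

theorem digits_inj {x y : ℝ} (hx : x ∈ Ico (0:ℝ) 1) (hy : y ∈ Ico (0:ℝ) 1)
    (h : ∀ k, x ∈ DD k ↔ y ∈ DD k) : x = y := by
  by_contra hne
  have hpos : 0 < |x - y| := abs_pos.2 (sub_ne_zero.2 hne)
  obtain ⟨d, hd⟩ := exists_pow_lt_of_lt_one hpos (show (1/2 : ℝ) < 1 by norm_num)
  have hf := floor_digits hx hy d fun k _ => h k
  have h1 : |x * 2 ^ d - y * 2 ^ d| < 1 := Int.abs_sub_lt_one_of_floor_eq_floor hf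
  rw [← sub_mul, abs_mul, abs_of_pos (show (0:ℝ) < 2 ^ d by positivity)] at h1
  have h2 : (1/2:ℝ) ^ d * 2 ^ d = 1 := by
    rw [← mul_pow]; norm_num
  nlinarith [show (0:ℝ) < 2 ^ d by positivity]

/-- a set on which the first `d` digits are constant is small -/
theorem digits_small (a : Set ℝ) (d : ℕ)
    (h : ∀ x ∈ a, ∀ y ∈ a, ∀ k < d, x ∈ DD k ↔ y ∈ DD k) : lam.real a ≤ (1/2) ^ d := by
  have hI : lam ({x | x ∉ Ico (0:ℝ) 1}) = 0 := by
    have : MeasurableSet {x : ℝ | x ∉ Ico (0:ℝ) 1} := measurableSet_Ico.compl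
    rw [Measure.restrict_apply this]
    refine measure_mono_null (t := {(1:ℝ)}) ?_ (by simp)
    rintro x ⟨h1, h2⟩
    simp only [mem_ofPred_eq, mem_Ico, not_and, not_lt] at h1
    simp only [mem_singleton_iff]
    exact le_antisymm h2.2 (h1 h2.1)
  have hdiff : lam.real a ≤ lam.real (a ∩ Ico (0:ℝ) 1) + 0 := by
    have : a ⊆ (a ∩ Ico (0:ℝ) 1) ∪ {x | x ∉ Ico (0:ℝ) 1} := by
      intro x hx
      by_cases h1 : x ∈ Ico (0:ℝ) 1
      · exact Or.inl ⟨hx, h1⟩
      · exact Or.inr h1
    refine (measureReal_mono this).trans ((measureReal_union_le _ _).trans ?_)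
    gcongr
    rw [measureReal_def, hI]
    simp
  rw [add_zero] at hdiff
  refine hdiff.trans ?_
  rcases (a ∩ Ico (0:ℝ) 1).eq_empty_or_nonempty with he | ⟨x, hx⟩
  · rw [he]; simp
  · have hsub : a ∩ Ico (0:ℝ) 1 ⊆ Icc ((⌊x * 2 ^ d⌋ : ℝ) / 2 ^ d) ((⌊x * 2 ^ d⌋ : ℝ) / 2 ^ d + (1/2)^d) := by
      intro y hy
      have hf := floor_digits hx.2 hy.2 d (h x hx.1 y hy.1)
      have hp : (0:ℝ) < 2 ^ d := by positivity
      have h1 := Int.floor_le (y * 2 ^ d)
      have h2 := Int.lt_floor_add_one (y * 2 ^ d)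
      rw [hf]
      constructor
      · rw [div_le_iff₀ hp]; exact h1
      · have : (⌊y * 2 ^ d⌋ : ℝ) / 2 ^ d + (1/2)^d = ((⌊y * 2 ^ d⌋ : ℝ) + 1) / 2 ^ d := by
          rw [one_div, inv_pow, add_div, one_div]
        rw [this, le_div_iff₀ hp]
        exact h2.le
    refine (measureReal_mono hsub).trans ?_
    have hp : (0:ℝ) < (1/2) ^ d := by positivity
    refine (lam_Icc_le (by linarith)).trans ?_
    linarith

end Pool.H359R3
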