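import Pool.Agent.H359R3.NF1

set_option autoImplicit false

namespace Pool.H359R3

open MeasureTheory Set Filter Topology
open scoped ENNReal symmDiff

theorem perm_zpow_meas (T : ℝ ≃ᵐ ℝ) (n : ℤ) :
    Measurable (fun x => ((T.toEquiv : Equiv.Perm ℝ) ^ n) x) := by
  have hnat : ∀ (U : Equiv.Perm ℝ), Measurable (fun x => U x) → ∀ m : ℕ,
      Measurable (fun x => (U ^ m) x) := by
    intro U hU m
    induction m with
    | zero => simpa using measurable_id'
    | succ m ih =>
      have : (fun x => (U ^ (m + 1)) x) = (fun x => (U ^ m) x) ∘ (fun x => U x) := by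
        funext x
        rw [pow_succ, Equiv.Perm.mul_apply]
        rfl
      rw [this]
      exact ih.comp hU
  cases n with
  | ofNat m => 
    simp only [Int.ofNat_eq_natCast, zpow_natCast]
    exact hnat _ T.measurable m
  | negSucc m =>
    have : (fun x => ((T.toEquiv : Equiv.Perm ℝ) ^ (Int.negSucc m)) x)
        = (fun x => (((T.toEquiv : Equiv.Perm ℝ)⁻¹) ^ (m+1)) x) := by
      funext x
      rw [zpow_negSucc, inv_pow]
    rw [this]
    exact hnat _ T.symm.measurable (m+1)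

/-- enumeration of (digit, time) pairs -/
noncomputable def pidx : ℕ ≃ ℕ × ℤ := (Denumerable.eqv (ℕ × ℤ)).symm

noncomputable def zp (T : Aut) (j : ℤ) (x : ℝ) : ℝ := ((T.1.toEquiv : Equiv.Perm ℝ) ^ j) x

theorem zp_meas (T : Aut) (j : ℤ) : Measurable (zp T j) := perm_zpow_meas T.1 j

theorem zp_zero (T : Aut) (x : ℝ) : zp T 0 x = x := by simp [zp]

theorem zp_T (T : Aut) (j : ℤ) (x : ℝ) : zp T j (T.1 x) = zp T (j+1) x := by
  unfold zp
  rw [zpow_add, zpow_one]
  rfl

theorem zp_Ts (T : Aut) (j : ℤ) (x : ℝ) : zp T j (T.1.symm x) = zp T (j-1) x := by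
  have h := zp_T T (j-1) (T.1.symm x)
  rw [T.1.apply_symm_apply, sub_add_cancel] at h
  exact h.symm

def EE (T : Aut) (n : ℕ) : Set ℝ := {x | zp T (pidx n).2 x ∈ DD (pidx n).1}

theorem EE_meas (T : Aut) (n : ℕ) : MeasurableSet (EE T n) := zp_meas T _ (DD_meas _)

open Classical in
noncomputable def wd (T : Aut) (x : ℝ) (n : ℕ) : Bool := decide (x ∈ EE T n)

theorem wd_iff (T : Aut) (x : ℝ) (n : ℕ) : wd T x n = true ↔ x ∈ EE T n := by simp [wd]

theorem wd_eq_iff (T S : Aut) (x y : ℝ) (n m : ℕ) : wd T x n = wd S y m ↔ (x ∈ EE T n ↔ y ∈ EE S m) := by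
  rw [Bool.eq_iff_iff, wd_iff, wd_iff]

theorem wd_meas (T : Aut) (n : ℕ) : Measurable (fun x => wd T x n) := by
  apply measurable_to_bool
  have : (fun x => wd T x n) ⁻¹' {true} = EE T n := by
    ext x
    simp only [mem_preimage, mem_singleton_iff]
    exact wd_iff T x n
  rw [this]
  exact EE_meas T n

noncomputable def Psi (T : Aut) (x : ℝ) : ℝ := Cardinal.cantorFunction (1/3) (wd T x)

theorem Psi_meas (T : Aut) : Measurable (Psi T) := by
  unfold Psi Cardinal.cantorFunction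
  apply Measurable.tsum
  intro n
  unfold Cardinal.cantorFunctionAux
  exact (measurable_from_top (f := fun b : Bool => cond b ((1/3:ℝ)^n) 0)).comp (wd_meas T n)

theorem Psi_lt (T : Aut) (x y : ℝ) (n : ℕ) (h : ∀ k < n, wd T x k = wd T y k) (hx : wd T x n = false)
    (hy : wd T y n = true) : Psi T x < Psi T y :=
  Cardinal.increasing_cantorFunction (by norm_num) (by norm_num) h hx hy

theorem Psi_inj (T : Aut) {x y : ℝ} (hx : x ∈ Ico (0:ℝ) 1) (hy : y ∈ Ico (0:ℝ) 1)
    (h : Psi T x = Psi T y) : x = y := by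
  have h1 : wd T x = wd T y := Cardinal.cantorFunction_injective (by norm_num) (by norm_num) h
  refine digits_inj hx hy fun k => ?_
  have h2 := congrFun h1 (pidx.symm (k, 0))
  rw [wd_eq_iff] at h2
  simp only [EE, mem_ofPred_eq, Equiv.apply_symm_apply, zp_zero] at h2
  exact h2

theorem lam_compl_Ico : lam (Ico (0:ℝ) 1)ᶜ = 0 := by
  rw [Measure.restrict_apply measurableSet_Ico.compl]
  refine measure_mono_null (t := {(1:ℝ)}) ?_ (by simp)
  rintro x ⟨h1, h2⟩
  simp only [mem_compl_iff, mem_Ico, not_and, not_lt] at h1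
  simp only [mem_singleton_iff]
  exact le_antisymm h2.2 (h1 h2.1)

theorem lam_singleton (x : ℝ) : lam {x} = 0 := by
  rw [Measure.restrict_apply (measurableSet_singleton x)]
  exact measure_mono_null inter_subset_left (by simp)

noncomputable abbrev nu (T : Aut) : Measure ℝ := Measure.map (Psi T) lam

instance (T : Aut) : IsProbabilityMeasure (nu T) := Measure.isProbabilityMeasure_map (Psi_meas T).aemeasurable

theorem nu_atomless (T : Aut) (t : ℝ) : nu T {t} = 0 := by
  rw [Measure.map_apply (Psi_meas T) (measurableSet_singleton t)]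
  have hsub : Psi T ⁻¹' {t} ⊆ (Psi T ⁻¹' {t} ∩ Ico (0:ℝ) 1) ∪ (Ico (0:ℝ) 1)ᶜ := by
    intro x hx
    by_cases h : x ∈ Ico (0:ℝ) 1
    · exact Or.inl ⟨hx, h⟩
    · exact Or.inr h
  refine measure_mono_null hsub ?_
  rw [measure_union_null_iff]
  refine ⟨?_, lam_compl_Ico⟩
  refine Set.Subsingleton.measure_zero ?_ lam
  rintro x ⟨hx, hx'⟩ y ⟨hy, hy'⟩
  exact Psi_inj T hx' hy' (hx.trans hy.symm)

/-- the normalising map -/
noncomputable def Rr (T : Aut) (x : ℝ) : ℝ := ProbabilityTheory.cdf (nu T) (Psi T x)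

theorem Rr_meas (T : Aut) : Measurable (Rr T) :=
  (ProbabilityTheory.monotone_cdf (nu T)).measurable.comp (Psi_meas T)

theorem Rr_mp (T : Aut) : MeasurePreserving (Rr T) lam lam :=
  (cdf_mp (nu T) (nu_atomless T)).comp ⟨Psi_meas T, rfl⟩

theorem Rr_eq (T : Aut) (x : ℝ) : Rr T x = lam.real {z | Psi T z ≤ Psi T x} := by
  unfold Rr
  rw [ProbabilityTheory.cdf_eq_real, map_measureReal_apply (Psi_meas T) measurableSet_Iic]
  rfl

theorem exists_R (T : Aut) : ∃ R : Aut, ∀ᵐ x ∂lam, R.1 x = Rr T x := by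
  let G := ProbabilityTheory.cdf (nu T)
  let X : Set ℝ := Ico (0:ℝ) 1 ∩ ⋂ q : ℚ, (Rr T ⁻¹' {G q})ᶜ
  have hX : MeasurableSet X := measurableSet_Ico.inter
    (MeasurableSet.iInter fun q => (Rr_meas T (measurableSet_singleton _)).compl)
  refine realize (Rr T) (Rr_meas T) (Rr_mp T) X hX ?_ ?_
  · have hsub : Xᶜ ⊆ (Ico (0:ℝ) 1)ᶜ ∪ ⋃ q : ℚ, Rr T ⁻¹' {G q} := by
      intro x hx
      by_contra hc
      simp only [mem_union, mem_iUnion, not_or, not_exists, mem_compl_iff, not_not] at hc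
      exact hx ⟨hc.1, mem_iInter.2 fun q => hc.2 q⟩
    refine measure_mono_null hsub ?_
    rw [measure_union_null_iff, measure_iUnion_null_iff]
    refine ⟨lam_compl_Ico, fun q => ?_⟩
    rw [(Rr_mp T).measure_preimage (measurableSet_singleton _).nullMeasurableSet]
    exact lam_singleton _
  · have key : ∀ x ∈ X, ∀ y ∈ X, Rr T x = Rr T y → ¬ (Psi T x < Psi T y) := by
      intro x hx y hy hxy hlt
      obtain ⟨q, hq1, hq2⟩ := exists_rat_btwn hlt
      have h1 : Rr T x ≤ G q := ProbabilityTheory.monotone_cdf (nu T) hq1.le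
      have h2 : G q ≤ Rr T y := ProbabilityTheory.monotone_cdf (nu T) hq2.le
      have h3 : Rr T x = G q := le_antisymm h1 (by rw [hxy]; exact h2)
      exact (mem_iInter.1 hx.2 q) h3
    intro x hx y hy hxy
    rcases lt_trichotomy (Psi T x) (Psi T y) with h | h | h
    · exact absurd h (key x hx y hy hxy)
    · exact Psi_inj T hx.1 hy.1 h
    · exact absurd h (key y hy x hx hxy.symm)

/-- a convex set of values of `Psi` corresponds to an interval -/
theorem atom_interval (T : Aut) (a : Set ℝ) (ha : MeasurableSet a)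
    (hconv : ∀ y, y ∉ a → (∀ x ∈ a, Psi T y < Psi T x) ∨ (∀ x ∈ a, Psi T x < Psi T y)) :
    ∃ α β : ℝ, 0 ≤ α ∧ α ≤ β ∧ β ≤ 1 ∧ β - α = lam.real a ∧
      (∀ x ∈ a, α ≤ Rr T x ∧ Rr T x ≤ β) ∧ lam.real (a ∆ (Rr T ⁻¹' Icc α β)) = 0 := by
  let L : Set ℝ := {z | z ∉ a ∧ ∀ x ∈ a, Psi T z < Psi T x}
  have hdis : Disjoint L a := by
    rw [Set.disjoint_left]
    exact fun z hz hza => hz.1 hza
  have hsum : lam.real L + lam.real a ≤ 1 := by
    rw [← measureReal_union hdis ha]
    exact measureReal_le_one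
  have hin : ∀ x ∈ a, lam.real L ≤ Rr T x ∧ Rr T x ≤ lam.real L + lam.real a := by
    intro x hx
    rw [Rr_eq]
    constructor
    · refine measureReal_mono ?_
      intro z hz
      exact (hz.2 x hx).le
    · rw [← measureReal_union hdis ha]
      refine measureReal_mono ?_
      intro z hz
      by_cases hza : z ∈ a
      · exact Or.inr hza
      · refine Or.inl ⟨hza, ?_⟩
        rcases hconv z hza with h | h
        · exact h
        · exact absurd (h x hx) (not_lt.2 hz)
  refine ⟨lam.real L, lam.real L + lam.real a, measureReal_nonneg, ?_, hsum, by ring, hin, ?_⟩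
  · linarith [measureReal_nonneg (μ := lam) (s := a)]
  · have hsub : a ⊆ Rr T ⁻¹' Icc (lam.real L) (lam.real L + lam.real a) := fun x hx => hin x hx
    have hm : MeasurableSet (Rr T ⁻¹' Icc (lam.real L) (lam.real L + lam.real a)) :=
      Rr_meas T measurableSet_Icc
    rw [real_symmDiff_eq _ _ ha hm, inter_eq_left.2 hsub, mp_real (Rr_mp T) measurableSet_Icc,
      lam_Icc_real measureReal_nonneg (by linarith [measureReal_nonneg (μ := lam) (s := a)]) hsum]
    ring

/-- the cylinder sets -/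
def cyl (T : Aut) (n : ℕ) (w : Fin n → Bool) : Set ℝ := {x | ∀ k : Fin n, wd T x k = w k}

theorem cyl_meas (T : Aut) (n : ℕ) (w : Fin n → Bool) : MeasurableSet (cyl T n w) := by
  have : cyl T n w = ⋂ k : Fin n, {x | wd T x k = w k} := by
    ext x; simp [cyl]
  rw [this]
  exact MeasurableSet.iInter fun k => wd_meas T k (measurableSet_singleton (w k))

theorem cyl_conv (T : Aut) (n : ℕ) (w : Fin n → Bool) (y : ℝ) (hy : y ∉ cyl T n w) :
    (∀ x ∈ cyl T n w, Psi T y < Psi T x) ∨ (∀ x ∈ cyl T n w, Psi T x < Psi T y) := by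
  classical
  have hex : ∃ k : ℕ, ∃ hk : k < n, wd T y k ≠ w ⟨k, hk⟩ := by
    by_contra hc
    push Not at hc
    exact hy fun k => hc k.1 k.2
  obtain ⟨hk, hne⟩ := Nat.find_spec hex
  have hmin : ∀ j < Nat.find hex, ∀ hj : j < n, wd T y j = w ⟨j, hj⟩ := by
    intro j hj hjn
    by_contra hc
    exact Nat.find_min hex hj ⟨hjn, hc⟩
  have hpre : ∀ x ∈ cyl T n w, ∀ j < Nat.find hex, wd T y j = wd T x j := by
    intro x hx j hj
    have hjn : j < n := lt_trans hj hk
    rw [hmin j hj hjn]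
    exact (hx ⟨j, hjn⟩).symm
  have hx0 : ∀ x ∈ cyl T n w, wd T x (Nat.find hex) = w ⟨Nat.find hex, hk⟩ := fun x hx => hx ⟨_, hk⟩
  cases hw : w ⟨Nat.find hex, hk⟩ with
  | true =>
    left
    intro x hx
    refine Psi_lt T y x (Nat.find hex) (hpre x hx) ?_ (by rw [hx0 x hx, hw])
    rw [hw] at hne
    simpa using hne
  | false =>
    right
    intro x hx
    refine Psi_lt T x y (Nat.find hex) (fun j hj => (hpre x hx j hj).symm) (by rw [hx0 x hx, hw]) ?_
    rw [hw] at hne
    simpa using hne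

/-- uniform smallness of cylinders -/
theorem cyl_small (d : ℕ) : ∃ n : ℕ, ∀ (T : Aut) (w : Fin n → Bool), lam.real (cyl T n w) ≤ (1/2)^d := by
  obtain ⟨n, hn⟩ : ∃ n : ℕ, ∀ k < d, pidx.symm (k, 0) < n := by
    refine ⟨(Finset.range d).sup (fun k => pidx.symm (k, 0)) + 1, fun k hk => ?_⟩
    have := Finset.le_sup (f := fun k => pidx.symm (k, 0)) (Finset.mem_range.2 hk)
    exact Nat.lt_succ_of_le this
  refine ⟨n, fun T w => digits_small _ d ?_⟩
  intro x hx y hy k hk
  have h1 : wd T x (pidx.symm (k,0)) = wd T y (pidx.symm (k,0)) := by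
    rw [hx ⟨_, hn k hk⟩, hy ⟨_, hn k hk⟩]
  rw [wd_eq_iff] at h1
  simp only [EE, mem_ofPred_eq, Equiv.apply_symm_apply, zp_zero] at h1
  exact h1

/-- shift of the index -/
noncomputable def shf (c : ℤ) (n : ℕ) : ℕ := pidx.symm ((pidx n).1, (pidx n).2 + c)

theorem wd_T (T : Aut) (x : ℝ) (n : ℕ) : wd T (T.1 x) n = wd T x (shf 1 n) := by
  rw [wd_eq_iff]
  simp only [EE, shf, mem_ofPred_eq, Equiv.apply_symm_apply, zp_T]

theorem wd_Ts (T : Aut) (x : ℝ) (n : ℕ) : wd T (T.1.symm x) n = wd T x (shf (-1) n) := by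
  rw [wd_eq_iff]
  simp only [EE, shf, mem_ofPred_eq, Equiv.apply_symm_apply, zp_Ts, sub_eq_add_neg]

end Pool.H359R3
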