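import Pool.Agent.H359R3.NF2

set_option autoImplicit false

namespace Pool.H359R3

open MeasureTheory Set Filter Topology
open scoped ENNReal symmDiff

/-- words -/
noncomputable def pre (T : Aut) (n : ℕ) (x : ℝ) : Fin n → Bool := fun k => wd T x k

theorem mem_cyl_pre (T : Aut) (n : ℕ) (x : ℝ) : x ∈ cyl T n (pre T n x) := fun _ => rfl

theorem mem_cyl_iff (T : Aut) (n : ℕ) (w : Fin n → Bool) (x : ℝ) : x ∈ cyl T n w ↔ pre T n x = w :=
  ⟨fun h => funext h, fun h k => congrFun h k⟩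

theorem pre_meas (T : Aut) (n : ℕ) (W : Set (Fin n → Bool)) : MeasurableSet {x | pre T n x ∈ W} := by
  have : Measurable (pre T n) := measurable_pi_lambda _ fun k => wd_meas T k
  exact this (MeasurableSet.of_discrete (s := W))

/-- a union of cylinders is a union of intervals in the normal form -/
theorem words_interval (T : Aut) (n : ℕ) (W : Set (Fin n → Bool)) :
    ∃ a b : (Fin n → Bool) → ℝ, (∀ w, a w ∈ Icc (0:ℝ) 1) ∧ (∀ w, b w ∈ Icc (0:ℝ) 1) ∧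
      lam.real ({x | pre T n x ∈ W} ∆ (Rr T ⁻¹' ⋃ w, Icc (a w) (b w))) = 0 := by
  classical
  choose α β h0 h1 h2 h3 h4 h5 using fun w : Fin n → Bool =>
    atom_interval T (cyl T n w) (cyl_meas T n w) (fun y hy => cyl_conv T n w y hy)
  refine ⟨fun w => if w ∈ W then α w else 1, fun w => if w ∈ W then β w else 0, ?_, ?_, ?_⟩
  · intro w
    by_cases hw : w ∈ W
    · simp only [hw, if_true]
      exact ⟨h0 w, (h1 w).trans (h2 w)⟩
    · simp [hw]
  · intro w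
    by_cases hw : w ∈ W
    · simp only [hw, if_true]
      exact ⟨(h0 w).trans (h1 w), h2 w⟩
    · simp [hw]
  · have hsub : ({x | pre T n x ∈ W} ∆ (Rr T ⁻¹' ⋃ w, Icc (if w ∈ W then α w else 1) (if w ∈ W then β w else 0)))
        ⊆ ⋃ w, (cyl T n w) ∆ (Rr T ⁻¹' Icc (α w) (β w)) := by
      intro x hx
      rw [Set.mem_symmDiff] at hx
      rcases hx with ⟨hx1, hx2⟩ | ⟨hx1, hx2⟩
      · refine mem_iUnion.2 ⟨pre T n x, ?_⟩
        rw [Set.mem_symmDiff]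
        left
        refine ⟨mem_cyl_pre T n x, fun hc => hx2 ?_⟩
        refine mem_iUnion.2 ⟨pre T n x, ?_⟩
        have hx1' : pre T n x ∈ W := hx1
        simp only [hx1', if_true]
        exact hc
      · obtain ⟨w, hw⟩ := mem_iUnion.1 hx1
        by_cases hwW : w ∈ W
        · simp only [hwW, if_true] at hw
          refine mem_iUnion.2 ⟨w, ?_⟩
          rw [Set.mem_symmDiff]
          right
          refine ⟨hw, fun hc => hx2 ?_⟩
          rw [mem_cyl_iff] at hc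
          show pre T n x ∈ W
          rw [hc]; exact hwW
        · simp only [hwW, if_false] at hw
          exact absurd (hw.1.trans hw.2) (by norm_num)
    refine le_antisymm ((measureReal_mono hsub).trans ?_) measureReal_nonneg
    refine (measureReal_iUnion_fintype_le _).trans ?_
    rw [Finset.sum_eq_zero]
    intro w _
    exact h5 w

/-- a half line in the normal form is close to a union of cylinders -/
theorem half_words (T : Aut) (n : ℕ) (δ : ℝ) (hδ : ∀ w : Fin n → Bool, lam.real (cyl T n w) ≤ δ) (q : ℝ) :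
    ∃ W : Set (Fin n → Bool), lam.real ((Rr T ⁻¹' Iic q) ∆ {x | pre T n x ∈ W}) ≤ 2 * δ := by
  choose α β h0 h1 h2 h3 h4 h5 using fun w : Fin n → Bool =>
    atom_interval T (cyl T n w) (cyl_meas T n w) (fun y hy => cyl_conv T n w y hy)
  have hδ0 : 0 ≤ δ := measureReal_nonneg.trans (hδ fun _ => true)
  refine ⟨{w | β w ≤ q}, ?_⟩
  have hsub : (Rr T ⁻¹' Iic q) ∆ {x | pre T n x ∈ {w | β w ≤ q}} ⊆ Rr T ⁻¹' Icc (q - δ) (q + δ) := by
    intro x hx
    have hb := h4 (pre T n x) x (mem_cyl_pre T n x)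
    have hs := h3 (pre T n x)
    have hd := hδ (pre T n x)
    rw [Set.mem_symmDiff] at hx
    rcases hx with ⟨hx1, hx2⟩ | ⟨hx1, hx2⟩
    · have e1 : Rr T x ≤ q := hx1
      have e2 : q < β (pre T n x) := not_le.1 hx2
      exact ⟨by linarith [hb.1, hb.2], by linarith [hb.1, hb.2]⟩
    · have e1 : q < Rr T x := not_le.1 hx2
      have e2 : β (pre T n x) ≤ q := hx1
      exact absurd (hb.2.trans e2) (not_le.2 e1)
  refine (measureReal_mono hsub).trans ?_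
  rw [mp_real (Rr_mp T) measurableSet_Icc]
  refine (lam_Icc_le (by linarith)).trans ?_
  linarith

theorem Icc_symmDiff (a b a' b' : ℝ) : lam.real ((Icc a b) ∆ (Icc a' b')) ≤ |a - a'| + |b - b'| := by
  have hsub : (Icc a b) ∆ (Icc a' b') ⊆ Icc (min a a') (max a a') ∪ Icc (min b b') (max b b') := by
    intro x hx
    rw [Set.mem_symmDiff] at hx
    simp only [mem_Icc, not_and_or, not_le, mem_union, min_le_iff, le_max_iff] at hx ⊢
    rcases hx with ⟨⟨h1, h2⟩, h3 | h3⟩ | ⟨⟨h1, h2⟩, h3 | h3⟩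
    · exact Or.inl ⟨Or.inl h1, Or.inr h3.le⟩
    · exact Or.inr ⟨Or.inr h3.le, Or.inl h2⟩
    · exact Or.inl ⟨Or.inr h1, Or.inl h3.le⟩
    · exact Or.inr ⟨Or.inl h3.le, Or.inr h2⟩
  refine (measureReal_mono hsub).trans ((measureReal_union_le _ _).trans ?_)
  have e1 := lam_Icc_le (min_le_max (a := a) (b := a'))
  have e2 := lam_Icc_le (min_le_max (a := b) (b := b'))
  rw [max_sub_min_eq_abs] at e1 e2
  rw [abs_sub_comm a a', abs_sub_comm b b']
  linarith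

/-- finite unions of intervals are totally bounded -/
theorem intervals_net (ι : Type) [Fintype ι] (ε : ℝ) (hε : 0 < ε) :
    ∃ 𝓕 : Set (Set ℝ), 𝓕.Finite ∧ (∀ F ∈ 𝓕, MeasurableSet F) ∧
      ∀ a b : ι → ℝ, (∀ w, a w ∈ Icc (0:ℝ) 1) → (∀ w, b w ∈ Icc (0:ℝ) 1) →
        ∃ F ∈ 𝓕, lam.real ((⋃ w, Icc (a w) (b w)) ∆ F) < ε := by
  classical
  obtain ⟨N, hN⟩ : ∃ N : ℕ, (2 * (Fintype.card ι : ℝ) + 1) / ε < N := exists_nat_gt _
  have hNpos : (0:ℝ) < N := lt_of_le_of_lt (by positivity) hN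
  refine ⟨range (fun p : (ι → Fin (N+1)) × (ι → Fin (N+1)) =>
    ⋃ w, Icc ((p.1 w : ℕ) / (N:ℝ)) ((p.2 w : ℕ) / (N:ℝ))), finite_range _, ?_, ?_⟩
  · rintro _ ⟨p, rfl⟩
    exact MeasurableSet.iUnion fun w => measurableSet_Icc
  · intro a b ha hb
    have hround : ∀ t : ℝ, t ∈ Icc (0:ℝ) 1 → ∃ i : Fin (N+1), |t - (i : ℕ) / (N:ℝ)| ≤ 1 / N := by
      intro t ht
      have hfl : ⌊t * N⌋₊ < N + 1 := by
        rw [Nat.floor_lt (by have := ht.1; positivity)]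
        push_cast
        nlinarith [ht.2]
      refine ⟨⟨⌊t * N⌋₊, hfl⟩, ?_⟩
      have h1 := Nat.floor_le (show 0 ≤ t * N by have := ht.1; positivity)
      have h2 := Nat.lt_floor_add_one (t * N)
      have e : t - (⌊t * N⌋₊ : ℝ) / N = (t * N - ⌊t * N⌋₊) / N := by
        field_simp
      show |t - (⌊t * N⌋₊ : ℝ) / N| ≤ 1 / N
      rw [e, abs_div, abs_of_pos hNpos]
      gcongr
      rw [abs_le]
      constructor <;> linarith
    choose i hi using fun w => hround (a w) (ha w)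
    choose j hj using fun w => hround (b w) (hb w)
    refine ⟨_, ⟨(i, j), rfl⟩, ?_⟩
    have hsub : (⋃ w, Icc (a w) (b w)) ∆ (⋃ w, Icc ((i w : ℕ) / (N:ℝ)) ((j w : ℕ) / (N:ℝ)))
        ⊆ ⋃ w, (Icc (a w) (b w)) ∆ (Icc ((i w : ℕ) / (N:ℝ)) ((j w : ℕ) / (N:ℝ))) := by
      intro x hx
      simp only [Set.mem_symmDiff, mem_iUnion] at hx ⊢
      rcases hx with ⟨⟨w, hw⟩, h⟩ | ⟨⟨w, hw⟩, h⟩
      · exact ⟨w, Or.inl ⟨hw, fun hc => h ⟨w, hc⟩⟩⟩
      · exact ⟨w, Or.inr ⟨hw, fun hc => h ⟨w, hc⟩⟩⟩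
    refine lt_of_le_of_lt ((measureReal_mono hsub).trans (measureReal_iUnion_fintype_le _)) ?_
    have h1 : ∑ w : ι, lam.real ((Icc (a w) (b w)) ∆ (Icc ((i w : ℕ) / (N:ℝ)) ((j w : ℕ) / (N:ℝ))))
        ≤ ∑ _w : ι, 2 / (N:ℝ) := by
      refine Finset.sum_le_sum fun w _ => (Icc_symmDiff _ _ _ _).trans ?_
      have := hi w
      have := hj w
      have e : 2 / (N:ℝ) = 1 / N + 1 / N := by ring
      linarith
    refine lt_of_le_of_lt h1 ?_
    rw [Finset.sum_const, Finset.card_univ, nsmul_eq_mul, div_lt_iff₀ hε] at *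
    rw [mul_div_assoc', div_lt_iff₀ hNpos]
    nlinarith

/-- uniform approximation for a family of maps -/
def UA {β : Type} (f : β → ℝ → ℝ) (s : Set ℝ) : Prop :=
  ∀ ε : ℝ, 0 < ε → ∃ 𝓕 : Set (Set ℝ), 𝓕.Finite ∧ (∀ F ∈ 𝓕, MeasurableSet F) ∧
    ∀ b, ∃ F ∈ 𝓕, lam.real ((f b ⁻¹' s) ∆ F) < ε

theorem UA_all {β : Type} (f : β → ℝ → ℝ) (hf : ∀ b, MeasurePreserving (f b) lam lam)
    (h : ∀ q : ℝ, UA f (Iic q)) : ∀ s, MeasurableSet s → UA f s := by
  refine approx_induction lam (range Iic) ?_ _ ?_ ?_ ?_ ?_ ?_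
  · exact (BorelSpace.measurable_eq (α := ℝ)).trans (borel_eq_generateFrom_Iic ℝ)
  · rintro _ ⟨q, rfl⟩
    exact h q
  · intro ε hε
    refine ⟨{∅}, finite_singleton _, by simp, fun b => ⟨∅, rfl, ?_⟩⟩
    simpa using hε
  · intro s _ hs ε hε
    obtain ⟨𝓕, h1, h2, h3⟩ := hs ε hε
    refine ⟨compl '' 𝓕, h1.image _, ?_, fun b => ?_⟩
    · rintro _ ⟨F, hF, rfl⟩
      exact (h2 F hF).compl
    · obtain ⟨F, hF, hb⟩ := h3 b
      refine ⟨Fᶜ, ⟨F, hF, rfl⟩, ?_⟩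
      have : (f b ⁻¹' sᶜ) ∆ Fᶜ = (f b ⁻¹' s) ∆ F := by
        ext x
        simp only [Set.mem_symmDiff, mem_preimage, mem_compl_iff]
        tauto
      rw [this]
      exact hb
  · intro s t _ _ hs ht ε hε
    obtain ⟨𝓕, h1, h2, h3⟩ := hs (ε/2) (by positivity)
    obtain ⟨𝓖, g1, g2, g3⟩ := ht (ε/2) (by positivity)
    refine ⟨image2 (· ∪ ·) 𝓕 𝓖, h1.image2 _ g1, ?_, fun b => ?_⟩
    · rintro _ ⟨F, hF, G, hG, rfl⟩
      exact (h2 F hF).union (g2 G hG)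
    · obtain ⟨F, hF, hb⟩ := h3 b
      obtain ⟨G, hG, gb⟩ := g3 b
      refine ⟨F ∪ G, ⟨F, hF, G, hG, rfl⟩, ?_⟩
      rw [preimage_union]
      refine lt_of_le_of_lt real_symmDiff_union ?_
      linarith
  · intro s hs hap ε hε
    obtain ⟨t, ht, hP, hst⟩ := hap (ε/2) (by positivity)
    obtain ⟨𝓕, h1, h2, h3⟩ := hP (ε/2) (by positivity)
    refine ⟨𝓕, h1, h2, fun b => ?_⟩
    obtain ⟨F, hF, hb⟩ := h3 b
    refine ⟨F, hF, ?_⟩
    have e1 := real_symmDiff_tri (f b ⁻¹' s) (f b ⁻¹' t) F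
    have e2 : lam.real ((f b ⁻¹' s) ∆ (f b ⁻¹' t)) = lam.real (s ∆ t) := by
      rw [← preimage_symmDiff, mp_real (hf b) (hs.symmDiff ht)]
    linarith

theorem UA_closure {β : Type} (f : β → ℝ → ℝ) (hf : ∀ b, Measurable (f b)) (s : Set ℝ)
    (hs : MeasurableSet s) (h : UA f s) :
    TotallyBounded (closure (range fun b => mkS (f b ⁻¹' s) (hf b hs))) := by
  apply TotallyBounded.closure
  rw [Metric.totallyBounded_iff]
  intro ε hε
  obtain ⟨𝓕, h1, h2, h3⟩ := h ε hε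
  have hfin : Finite 𝓕 := h1
  refine ⟨range (fun F : 𝓕 => mkS F.1 (h2 F.1 F.2)), finite_range _, ?_⟩
  rintro _ ⟨b, rfl⟩
  obtain ⟨F, hF, hb⟩ := h3 b
  refine mem_biUnion (x := mkS F (h2 F hF)) ⟨⟨F, hF⟩, rfl⟩ ?_
  rw [Metric.mem_ball, dist_mkS]
  exact hb

/-- the conjugating automorphism -/
noncomputable def RA (T : Aut) : Aut := (exists_R T).choose

theorem RA_ae (T : Aut) : ∀ᵐ x ∂lam, (RA T).1 x = Rr T x := (exists_R T).choose_spec

/-- the normal form of `T` -/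
noncomputable def nf (T : Aut) : Aut :=
  ⟨(RA T).1.symm.trans (T.1.trans (RA T).1), (RA T).2.comp (T.2.comp (RA T).symm_mp)⟩

theorem nf_apply (T : Aut) (x : ℝ) : (nf T).1 x = (RA T).1 (T.1 ((RA T).1.symm x)) := rfl

theorem nf_symm_apply (T : Aut) (x : ℝ) : (nf T).1.symm x = (RA T).1 (T.1.symm ((RA T).1.symm x)) := rfl

theorem nf_UA (c : ℤ) (S : Aut → Aut) (hS : ∀ T x n, wd T ((S T).1 x) n = wd T x (shf c n)) (q : ℝ) :
    UA (fun T x => (RA T).1 ((S T).1 ((RA T).1.symm x))) (Iic q) := by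
  intro ε hε
  obtain ⟨d, hd⟩ := exists_pow_lt_of_lt_one (show 0 < ε / 4 by positivity) (show (1/2 : ℝ) < 1 by norm_num)
  obtain ⟨n, hn⟩ := cyl_small d
  obtain ⟨m, hm⟩ : ∃ m : ℕ, ∀ k < n, shf c k < m := by
    refine ⟨(Finset.range n).sup (shf c) + 1, fun k hk => ?_⟩
    exact Nat.lt_succ_of_le (Finset.le_sup (f := shf c) (Finset.mem_range.2 hk))
  obtain ⟨𝓕, h1, h2, h3⟩ := intervals_net (Fin m → Bool) (ε/2) (by positivity)
  refine ⟨𝓕, h1, h2, fun T => ?_⟩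
  obtain ⟨W, hW⟩ := half_words T n ((1/2)^d) (hn T) q
  let W' : Set (Fin m → Bool) := {w' | (fun k : Fin n => w' ⟨shf c k, hm k k.2⟩) ∈ W}
  obtain ⟨a, b, ha, hb, hab⟩ := words_interval T m W'
  obtain ⟨F, hF, hlt⟩ := h3 a b ha hb
  refine ⟨F, hF, ?_⟩
  have hUm : MeasurableSet (⋃ w, Icc (a w) (b w)) := MeasurableSet.iUnion fun w => measurableSet_Icc
  have hRS : MeasurableSet ((RA T).1 ⁻¹' Iic q) := (RA T).1.measurable measurableSet_Iic
  have e0 : (fun x => (RA T).1 ((S T).1 ((RA T).1.symm x))) ⁻¹' Iic q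
      = (RA T).1.symm ⁻¹' ((S T).1 ⁻¹' ((RA T).1 ⁻¹' Iic q)) := rfl
  have hSR : MeasurableSet ((S T).1 ⁻¹' ((RA T).1 ⁻¹' Iic q)) := (S T).1.measurable hRS
  -- shift
  have hshift : (S T).1 ⁻¹' {x | pre T n x ∈ W} = {x | pre T m x ∈ W'} := by
    ext x
    show pre T n ((S T).1 x) ∈ W ↔ (fun k : Fin n => pre T m x ⟨shf c k, hm k k.2⟩) ∈ W
    have : pre T n ((S T).1 x) = (fun k : Fin n => pre T m x ⟨shf c k, hm k k.2⟩) := by
      funext k
      exact hS T x k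
    rw [this]
  have step : lam.real (((RA T).1.symm ⁻¹' ((S T).1 ⁻¹' ((RA T).1 ⁻¹' Iic q))) ∆ (⋃ w, Icc (a w) (b w)))
      ≤ 2 * (1/2)^d := by
    rw [symm_pre (RA T) _ _ hSR hUm]
    have t1 := real_symmDiff_tri ((S T).1 ⁻¹' ((RA T).1 ⁻¹' Iic q)) ((S T).1 ⁻¹' {x | pre T n x ∈ W})
      ((RA T).1 ⁻¹' ⋃ w, Icc (a w) (b w))
    have t2 : lam.real (((S T).1 ⁻¹' ((RA T).1 ⁻¹' Iic q)) ∆ ((S T).1 ⁻¹' {x | pre T n x ∈ W}))
        ≤ 2 * (1/2)^d := by
      rw [← preimage_symmDiff, mp_real (S T).2 (hRS.symmDiff (pre_meas T n W))]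
      refine le_trans (le_of_eq (measureReal_congr ?_)) hW
      refine EventuallyEq.symmDiff ?_ (ae_eq_refl _)
      filter_upwards [RA_ae T] with x hx
      show ((RA T).1 x ∈ Iic q) = (Rr T x ∈ Iic q)
      rw [hx]
    have t3 : lam.real (((S T).1 ⁻¹' {x | pre T n x ∈ W}) ∆ ((RA T).1 ⁻¹' ⋃ w, Icc (a w) (b w))) = 0 := by
      rw [hshift]
      refine Eq.trans (measureReal_congr ?_) hab
      refine EventuallyEq.symmDiff (ae_eq_refl _) ?_
      filter_upwards [RA_ae T] with x hx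
      show ((RA T).1 x ∈ _) = (Rr T x ∈ _)
      rw [hx]
    linarith
  rw [e0]
  have t4 := real_symmDiff_tri ((RA T).1.symm ⁻¹' ((S T).1 ⁻¹' ((RA T).1 ⁻¹' Iic q)))
    (⋃ w, Icc (a w) (b w)) F
  linarith

/-- There is a compact set of automorphisms which meets every conjugacy class. -/
theorem main : ∃ K : Set Aut, @IsCompact Aut weakTop K ∧
    ∀ T : Aut, ∃ R S : Aut, S ∈ K ∧ ∀ x, T.1 x = R.1.symm (S.1 (R.1 x)) := by
  have u1 : ∀ s, MeasurableSet s → UA (fun T x => (nf T).1 x) s :=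
    UA_all _ (fun T => (nf T).2) (nf_UA 1 (fun T => T) (fun T x n => wd_T T x n))
  have u2 : ∀ s, MeasurableSet s → UA (fun T x => (nf T).1.symm x) s :=
    UA_all _ (fun T => (nf T).symm_mp)
      (nf_UA (-1) (fun T => ⟨T.1.symm, T.symm_mp⟩) (fun T x n => wd_Ts T x n))
  refine ⟨_, compact_crit
    (fun i => closure (range fun T => mkS ((nf T).1 ⁻¹' AA i) ((nf T).1.measurable (AA_meas i))))
    (fun i => closure (range fun T => mkS ((nf T).1.symm ⁻¹' AA i) ((nf T).1.symm.measurable (AA_meas i))))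
    (fun i => isClosed_closure) (fun i => UA_closure (fun T x => (nf T).1 x) (fun T => (nf T).1.measurable)
      (AA i) (AA_meas i) (u1 _ (AA_meas i)))
    (fun i => isClosed_closure) (fun i => UA_closure (fun T x => (nf T).1.symm x)
      (fun T => (nf T).1.symm.measurable) (AA i) (AA_meas i) (u2 _ (AA_meas i))), ?_⟩
  intro T
  refine ⟨RA T, nf T, ?_, ?_⟩
  · intro i
    exact ⟨subset_closure ⟨T, rfl⟩, subset_closure ⟨T, rfl⟩⟩
  · intro x
    simp [nf_apply]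

end Pool.H359R3
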