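import Mathlib
import Pool.Agent.H359R3.RK1

set_option autoImplicit false
set_option linter.unusedSectionVars false
set_option linter.unusedVariables false

/-!
Correlations of order `r + 1` vanish when the centralizer accumulates at a near homothety.
-/

namespace Pool.H359R3.RK

open MeasureTheory Filter Topology Pool.Agent.H716R2

section core

variable {X : Type*} [MeasurableSpace X] {μ : Measure X} [IsProbabilityMeasure μ] {r : ℕ}

/-- tuples of bounded functions -/
abbrev BT (X : Type*) [MeasurableSpace X] (r : ℕ) : Type _ := {f : Fin r → X → ℝ // ∀ i, Bd (f i)}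

noncomputable def be (μ : Measure X) (f g : BT X r) : ℝ := ∏ i, ∫ x, f.1 i x * g.1 i x ∂μ

theorem be_symm (f g : BT X r) : be μ f g = be μ g f := by
  unfold be
  apply Finset.prod_congr rfl
  intro i _
  congr 1
  funext x
  ring

noncomputable def BB (μ : Measure X) (r : ℕ) : (BT X r →₀ ℝ) →ₗ[ℝ] (BT X r →₀ ℝ) →ₗ[ℝ] ℝ :=
  Finsupp.linearCombination ℝ (fun f : BT X r =>
    (Finsupp.linearCombination ℝ (fun g : BT X r => be μ f g) : (BT X r →₀ ℝ) →ₗ[ℝ] ℝ))

theorem BB_apply (u v : BT X r →₀ ℝ) :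
    BB μ r u v = ∑ f ∈ u.support, ∑ g ∈ v.support, u f * (v g * be μ f g) := by
  unfold BB
  rw [Finsupp.linearCombination_apply, Finsupp.sum, LinearMap.sum_apply]
  apply Finset.sum_congr rfl
  intro f _
  rw [LinearMap.smul_apply, Finsupp.linearCombination_apply, Finsupp.sum, smul_eq_mul, Finset.mul_sum]
  rfl

theorem BB_symm (u v : BT X r →₀ ℝ) : BB μ r u v = BB μ r v u := by
  rw [BB_apply, BB_apply, Finset.sum_comm]
  apply Finset.sum_congr rfl
  intro f _
  apply Finset.sum_congr rfl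
  intro g _
  rw [be_symm]
  ring

theorem BB_single (u : BT X r →₀ ℝ) (g : BT X r) :
    BB μ r u (Finsupp.single g 1) = ∑ f ∈ u.support, u f * be μ f g := by
  unfold BB
  rw [Finsupp.linearCombination_apply, Finsupp.sum, LinearMap.sum_apply]
  apply Finset.sum_congr rfl
  intro f _
  rw [LinearMap.smul_apply, Finsupp.linearCombination_single, smul_eq_mul, one_smul]

theorem BB_ss (g : BT X r) : BB μ r (Finsupp.single g 1) (Finsupp.single g 1) = be μ g g := by
  unfold BB
  rw [Finsupp.linearCombination_single, LinearMap.smul_apply, Finsupp.linearCombination_single, one_smul, one_smul]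

variable {T : X ≃ᵐ X} {s : ℕ → Fin (r + 1) → ℕ}

noncomputable def ev (T : X ≃ᵐ X) (s : ℕ → Fin (r + 1) → ℕ) (n : ℕ) (v : BT X r →₀ ℝ) (x : X) : ℝ :=
  ∑ f ∈ v.support, v f * F T s n f.1 x

theorem ev_bd (n : ℕ) (v : BT X r →₀ ℝ) : Bd (ev T s n v) :=
  Bd.sum _ (fun f => (Bd.const _).mul (F_bd T s n f.2))

theorem ev_sq (hT : MeasurePreserving T μ μ) (hfact : FactSet μ T r) (hs : Spread s) (v : BT X r →₀ ℝ) :
    Tendsto (fun n => ∫ x, ev T s n v x * ev T s n v x ∂μ) atTop (𝓝 (BB μ r v v)) := by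
  rw [BB_apply]
  have e1 : ∀ n, ∫ x, ev T s n v x * ev T s n v x ∂μ =
      ∑ f ∈ v.support, ∑ g ∈ v.support, v f * (v g * ∫ x, F T s n (fun i x => f.1 i x * g.1 i x) x ∂μ) := by
    intro n
    have e2 : ∀ x, ev T s n v x * ev T s n v x =
        ∑ f ∈ v.support, ∑ g ∈ v.support, v f * (v g * F T s n (fun i x => f.1 i x * g.1 i x) x) := by
      intro x
      unfold ev
      rw [Finset.sum_mul_sum]
      apply Finset.sum_congr rfl
      intro f _
      apply Finset.sum_congr rfl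
      intro g _
      rw [← F_mul]
      ring
    simp_rw [e2]
    have hb : ∀ f g : BT X r, Bd (F T s n (fun i x => f.1 i x * g.1 i x)) := fun f g =>
      F_bd T s n (fun i => (f.2 i).mul (g.2 i))
    rw [integral_finset_sum _ (fun f _ => (Bd.sum _ (fun g =>
      (Bd.const (v f)).mul ((Bd.const (v g)).mul (hb f g)))).int)]
    apply Finset.sum_congr rfl
    intro f _
    rw [integral_finset_sum _ (fun g _ => ((Bd.const (v f)).mul ((Bd.const (v g)).mul (hb f g))).int)]
    apply Finset.sum_congr rfl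
    intro g _
    rw [integral_const_mul, integral_const_mul]
  simp_rw [e1]
  refine tendsto_finset_sum _ (fun f _ => tendsto_finset_sum _ (fun g _ => ?_))
  exact ((F_lim hT hfact hs (fun i => (f.2 i).mul (g.2 i))).const_mul _).const_mul _

theorem BB_pos (hT : MeasurePreserving T μ μ) (hfact : FactSet μ T r) (hs : Spread s) (v : BT X r →₀ ℝ) :
    0 ≤ BB μ r v v :=
  ge_of_tendsto' (ev_sq hT hfact hs v) (fun n => integral_nonneg (fun x => mul_self_nonneg _))

/-- the functional on tensors -/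
noncomputable def psi (μ : Measure X) (P : BT X r → X → ℝ) (h : X → ℝ) : (BT X r →₀ ℝ) →ₗ[ℝ] ℝ :=
  Finsupp.linearCombination ℝ (fun f : BT X r => ∫ x, h x * P f x ∂μ)

theorem psi_le (hT : MeasurePreserving T μ μ) (hfact : FactSet μ T r) (hs : Spread s) (U : Ultrafilter ℕ)
    (hU : (U : Filter ℕ) ≤ atTop) (P : BT X r → X → ℝ)
    (hP : ∀ f h, Bd h → Tendsto (fun n => Ln T s μ n f.1 h) U (𝓝 (∫ x, h x * P f x ∂μ)))
    (h : X → ℝ) (hh : Bd h) (v : BT X r →₀ ℝ) :
    psi μ P h v ≤ BB μ r v v / 2 + (∫ x, h x * h x ∂μ) / 2 := by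
  have t1 : Tendsto (fun n => ∫ x, h ((⇑T)^[s n (Fin.last r)] x) * ev T s n v x ∂μ) U (𝓝 (psi μ P h v)) := by
    have e1 : ∀ n, ∫ x, h ((⇑T)^[s n (Fin.last r)] x) * ev T s n v x ∂μ =
        ∑ f ∈ v.support, v f * Ln T s μ n f.1 h := by
      intro n
      have e2 : ∀ x, h ((⇑T)^[s n (Fin.last r)] x) * ev T s n v x =
          ∑ f ∈ v.support, v f * (h ((⇑T)^[s n (Fin.last r)] x) * F T s n f.1 x) := by
        intro x
        unfold ev
        rw [Finset.mul_sum]
        apply Finset.sum_congr rfl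
        intro f _
        ring
      simp_rw [e2]
      rw [integral_finset_sum _ (fun f _ => ((Bd.const (v f)).mul
        ((hh.comp (iter_meas T _)).mul (F_bd T s n f.2))).int)]
      apply Finset.sum_congr rfl
      intro f _
      rw [integral_const_mul]
      rfl
    simp_rw [e1]
    have e3 : psi μ P h v = ∑ f ∈ v.support, v f * ∫ x, h x * P f x ∂μ := by
      unfold psi
      rw [Finsupp.linearCombination_apply, Finsupp.sum]
      rfl
    rw [e3]
    exact tendsto_finset_sum _ (fun f _ => (hP f h hh).const_mul _)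
  have t2 := ((ev_sq hT hfact hs v).mono_left hU).div_const 2
  have t3 := t2.add_const ((∫ x, h x * h x ∂μ) / 2)
  refine le_of_tendsto_of_tendsto' t1 t3 (fun n => ?_)
  have hev := ev_bd (T := T) (s := s) n v
  have hhn := hh.comp (iter_meas T (s n (Fin.last r)))
  have e4 : ∫ x, h x * h x ∂μ = ∫ x, h ((⇑T)^[s n (Fin.last r)] x) * h ((⇑T)^[s n (Fin.last r)] x) ∂μ :=
    (ic (iter_mp hT _) (g := fun x => h x * h x) (hh.1.mul hh.1)).symm
  rw [e4, ← add_div, ← integral_add (hev.mul hev).int (hhn.mul hhn).int, ← integral_div]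
  refine integral_mono (hhn.mul hev).int (((hev.mul hev).add (hhn.mul hhn)).int.div_const 2) (fun x => ?_)
  simp only
  nlinarith [sq_nonneg (h ((⇑T)^[s n (Fin.last r)] x) - ev T s n v x)]

theorem E1 (hT : MeasurePreserving T μ μ) (hfact : FactSet μ T r) (hs : Spread s) (U : Ultrafilter ℕ)
    (hU : (U : Filter ℕ) ≤ atTop) (P : BT X r → X → ℝ)
    (hP : ∀ f h, Bd h → Tendsto (fun n => Ln T s μ n f.1 h) U (𝓝 (∫ x, h x * P f x ∂μ)))
    (h : X → ℝ) (hh : Bd h) (fl : ℕ → BT X r) (fi : BT X r) (M : ℝ)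
    (hM1 : ∀ l, be μ (fl l) (fl l) ≤ M) (hM2 : be μ fi fi ≤ M) (hM : 0 ≤ M)
    (hw : ∀ i g, Bd g → Tendsto (fun l => ∫ x, g x * (fl l).1 i x ∂μ) atTop (𝓝 (∫ x, g x * fi.1 i x ∂μ))) :
    Tendsto (fun l => ∫ x, h x * P (fl l) x ∂μ) atTop (𝓝 (∫ x, h x * P fi x ∂μ)) := by
  rw [Metric.tendsto_atTop]
  intro ε hε
  have hη : 0 < ε ^ 2 / (9 * (M + 1)) := by positivity
  obtain ⟨u, hu⟩ := riesz (BB μ r) BB_symm (BB_pos hT hfact hs) (psi μ P h) ((∫ x, h x * h x ∂μ) / 2)
    (psi_le hT hfact hs U hU P hP h hh) _ hη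
  have hbound : ∀ f : BT X r, be μ f f ≤ M →
      |(∫ x, h x * P f x ∂μ) - ∑ a ∈ u.support, u a * be μ a f| < ε / 3 := by
    intro f hf
    have h1 := hu (Finsupp.single f 1)
    have e1 : psi μ P h (Finsupp.single f 1) = ∫ x, h x * P f x ∂μ := by
      unfold psi
      rw [Finsupp.linearCombination_single, one_smul]
    rw [e1, BB_single, BB_ss] at h1
    apply abs_lt_of_sq_lt_sq _ (by positivity)
    refine lt_of_le_of_lt h1 ?_
    calc ε ^ 2 / (9 * (M + 1)) * be μ f f ≤ ε ^ 2 / (9 * (M + 1)) * M :=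
          mul_le_mul_of_nonneg_left hf hη.le
      _ < (ε / 3) ^ 2 := by
          rw [div_mul_eq_mul_div, div_lt_iff₀ (by positivity)]
          have : 0 < ε ^ 2 := by positivity
          nlinarith
  have h2 : Tendsto (fun l => ∑ a ∈ u.support, u a * be μ a (fl l)) atTop
      (𝓝 (∑ a ∈ u.support, u a * be μ a fi)) := by
    refine tendsto_finset_sum _ (fun a _ => Tendsto.const_mul _ ?_)
    exact tendsto_finset_prod _ (fun i _ => hw i (a.1 i) (a.2 i))
  obtain ⟨N, hN⟩ := Metric.tendsto_atTop.1 h2 (ε / 3) (by positivity)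
  refine ⟨N, fun l hl => ?_⟩
  have h3 := hN l hl
  have h4 := hbound (fl l) (hM1 l)
  have h5 := hbound fi hM2
  rw [Real.dist_eq] at h3 ⊢
  rw [abs_lt] at h3 h4 h5 ⊢
  constructor <;> linarith

end core

end Pool.H359R3.RK
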