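import Mathlib
import Pool.Agent.H359R3.RK2

set_option autoImplicit false
set_option linter.unusedSectionVars false
set_option linter.unusedVariables false

/-!
Multiple mixing from a near homothety in the weak closure of the centralizer.
-/

namespace Pool.H359R3.RK

open MeasureTheory Filter Topology Pool.Agent.H716R2

section core

variable {X : Type*} [MeasurableSpace X] {μ : Measure X} [IsProbabilityMeasure μ] {r : ℕ}
variable {T : X ≃ᵐ X} {s : ℕ → Fin (r + 1) → ℕ}

theorem be_nonneg (f : BT X r) : 0 ≤ be μ f f :=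
  Finset.prod_nonneg (fun i _ => integral_nonneg (fun x => mul_self_nonneg _))

theorem vanish (hT : MeasurePreserving T μ μ) (hfact : FactSet μ T r) (hr : 1 ≤ r) (hs : Spread s)
    (U : Ultrafilter ℕ) (hU : (U : Filter ℕ) ≤ atTop) (R : ℕ → X ≃ᵐ X)
    (hR : ∀ l, MeasurePreserving (R l) μ μ) (hc : ∀ l, ∀ᵐ x ∂μ, R l (T x) = T (R l x))
    (Q : (X → ℝ) → X → ℝ) (hQ : ∀ f, Bd f → Bd (Q f))
    (hQw : ∀ f g, Bd f → Bd g →
      Tendsto (fun l => ∫ x, g x * f (R l x) ∂μ) atTop (𝓝 (∫ x, g x * Q f x ∂μ)))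
    (r₁ r₂ : ℝ) (h1 : 0 < r₁) (h2 : 0 ≤ r₂) (h12 : r₂ ^ r < r₁)
    (hlo : ∀ f, Bd f → ∫ x, f x ∂μ = 0 → r₁ ^ 2 * ∫ x, f x * f x ∂μ ≤ ∫ x, Q f x * Q f x ∂μ)
    (hup : ∀ f, Bd f → ∫ x, f x ∂μ = 0 → ∫ x, Q f x * Q f x ∂μ ≤ r₂ ^ 2 * ∫ x, f x * f x ∂μ)
    (f : Fin r → X → ℝ) (hf : ∀ i, Bd (f i)) (hf0 : ∀ i, ∫ x, f i x ∂μ = 0) (h : X → ℝ) (hh : Bd h) :
    Tendsto (fun n => Ln T s μ n f h) U (𝓝 0) := by
  choose P hPb hP using (fun f : BT X r => exP (s := s) hT U f.2)
  let Qt : BT X r → BT X r := fun f => ⟨fun i => Q (f.1 i), fun i => hQ _ (f.2 i)⟩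
  let Rt : ℕ → BT X r → BT X r := fun l f =>
    ⟨fun i x => f.1 i (R l x), fun i => (f.2 i).comp (R l).measurable⟩
  have ha : ∀ (f : BT X r) (l : ℕ) (g : X → ℝ), Bd g →
      ∫ x, g x * P (Rt l f) x ∂μ = ∫ x, g x * P f (R l x) ∂μ := by
    intro f l g hg
    have t1 := hP (Rt l f) g hg
    have hg' : Bd (fun x => g ((R l).symm x)) := hg.comp (R l).symm.measurable
    have t2 := hP f _ hg'
    have e1 : ∀ n, Ln T s μ n (Rt l f).1 g = Ln T s μ n f.1 (fun x => g ((R l).symm x)) := fun n =>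
      Ln_comm hT (hR l) (hc l) n f.2 hg
    have t3 := t1.congr e1
    have e2 := tendsto_nhds_unique t3 t2
    rw [e2, ← ic (hR l) (g := fun x => g ((R l).symm x) * P f x) (hg'.1.mul (hPb f).1)]
    congr 1
    funext x
    rw [(R l).symm_apply_apply]
  have hd : ∀ (f : BT X r) (g : X → ℝ), Bd g →
      ∫ x, g x * P (Qt f) x ∂μ = ∫ x, g x * Q (P f) x ∂μ := by
    intro f g hg
    have t1 : Tendsto (fun l => ∫ x, g x * P (Rt l f) x ∂μ) atTop (𝓝 (∫ x, g x * Q (P f) x ∂μ)) :=
      (hQw (P f) g (hPb f) hg).congr (fun l => (ha f l g hg).symm)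
    have t2 : Tendsto (fun l => ∫ x, g x * P (Rt l f) x ∂μ) atTop (𝓝 (∫ x, g x * P (Qt f) x ∂μ)) := by
      refine E1 hT hfact hs U hU P hP g hg (fun l => Rt l f) (Qt f) (max (be μ f f) (be μ (Qt f) (Qt f)))
        ?_ (le_max_right _ _) (le_max_of_le_left (be_nonneg f)) (fun i g' hg' => hQw (f.1 i) g' (f.2 i) hg')
      intro l
      refine le_trans (le_of_eq ?_) (le_max_left _ _)
      unfold be
      apply Finset.prod_congr rfl
      intro i _
      exact ic (hR l) (g := fun x => f.1 i x * f.1 i x) ((f.2 i).1.mul (f.2 i).1)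
    exact tendsto_nhds_unique t2 t1
  have he : ∀ f : BT X r, ∫ x, P (Qt f) x * P (Qt f) x ∂μ = ∫ x, Q (P f) x * Q (P f) x ∂μ := by
    intro f
    have e1 := hd f _ (hPb (Qt f))
    have e2 := hd f _ (hQ _ (hPb f))
    rw [e1, ← e2]
    congr 1
    funext x
    ring
  have hz : ∀ f : BT X r, (∀ i, ∫ x, f.1 i x ∂μ = 0) → ∫ x, P f x ∂μ = 0 := by
    intro f hf
    have t1 := hP f (fun _ => 1) (Bd.const 1)
    have t2 := (F_lim hT hfact hs f.2).mono_left hU
    have e1 : ∏ i, ∫ x, f.1 i x ∂μ = 0 := Finset.prod_eq_zero (Finset.mem_univ ⟨0, hr⟩) (hf _)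
    rw [e1] at t2
    have t3 : Tendsto (fun n => Ln T s μ n f.1 (fun _ => 1)) U (𝓝 0) := by
      refine t2.congr (fun n => ?_)
      unfold Ln
      congr 1
      funext x
      rw [one_mul]
    have e2 := tendsto_nhds_unique t1 t3
    simpa using e2
  have hUB : ∀ f : BT X r, ∫ x, P f x * P f x ∂μ ≤ be μ f f := by
    intro f
    have h3 := psi_le hT hfact hs U hU P hP (P f) (hPb f) (Finsupp.single f 1)
    have e1 : psi μ P (P f) (Finsupp.single f 1) = ∫ x, P f x * P f x ∂μ := by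
      unfold psi
      rw [Finsupp.linearCombination_single, one_smul]
    rw [e1, BB_ss] at h3
    linarith
  have hq0 : ∀ g, Bd g → ∫ x, g x ∂μ = 0 → ∫ x, Q g x ∂μ = 0 := by
    intro g hg hg0
    have t1 := hQw g (fun _ => 1) hg (Bd.const 1)
    have t2 : Tendsto (fun l : ℕ => (0 : ℝ)) atTop (𝓝 (∫ x, 1 * Q g x ∂μ)) := by
      refine t1.congr (fun l => ?_)
      simp only [one_mul]
      rw [ic (hR l) hg.1, hg0]
    have e2 := tendsto_nhds_unique t2 tendsto_const_nhds
    simpa using e2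
  -- iteration
  let f0 : BT X r := ⟨f, hf⟩
  let fm : ℕ → BT X r := fun m => Qt^[m] f0
  have hfm : ∀ m, fm (m + 1) = Qt (fm m) := fun m => Function.iterate_succ_apply' _ _ _
  have c1 : ∀ m i, ∫ x, (fm m).1 i x ∂μ = 0 := by
    intro m
    induction m with
    | zero => exact hf0
    | succ m ih =>
      intro i
      rw [hfm]
      exact hq0 _ ((fm m).2 i) (ih i)
  have c2 : ∀ m, r₁ ^ (2 * m) * ∫ x, P f0 x * P f0 x ∂μ ≤ ∫ x, P (fm m) x * P (fm m) x ∂μ := by
    intro m
    induction m with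
    | zero => simp [fm]
    | succ m ih =>
      rw [hfm, he]
      have h3 := hlo _ (hPb (fm m)) (hz (fm m) (c1 m))
      calc r₁ ^ (2 * (m + 1)) * ∫ x, P f0 x * P f0 x ∂μ
          = r₁ ^ 2 * (r₁ ^ (2 * m) * ∫ x, P f0 x * P f0 x ∂μ) := by ring
        _ ≤ r₁ ^ 2 * ∫ x, P (fm m) x * P (fm m) x ∂μ := mul_le_mul_of_nonneg_left ih (by positivity)
        _ ≤ _ := h3
  have c3 : ∀ m i, ∫ x, (fm m).1 i x * (fm m).1 i x ∂μ ≤ r₂ ^ (2 * m) * ∫ x, f i x * f i x ∂μ := by
    intro m
    induction m with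
    | zero =>
      intro i
      simp [fm, f0]
    | succ m ih =>
      intro i
      rw [hfm]
      have h3 := hup _ ((fm m).2 i) (c1 m i)
      calc ∫ x, Q ((fm m).1 i) x * Q ((fm m).1 i) x ∂μ ≤ r₂ ^ 2 * ∫ x, (fm m).1 i x * (fm m).1 i x ∂μ := h3
        _ ≤ r₂ ^ 2 * (r₂ ^ (2 * m) * ∫ x, f i x * f i x ∂μ) := mul_le_mul_of_nonneg_left (ih i) (by positivity)
        _ = _ := by ring
  have c4 : ∀ m, be μ (fm m) (fm m) ≤ (r₂ ^ r) ^ (2 * m) * ∏ i, ∫ x, f i x * f i x ∂μ := by
    intro m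
    calc be μ (fm m) (fm m) ≤ ∏ i, (r₂ ^ (2 * m) * ∫ x, f i x * f i x ∂μ) :=
          Finset.prod_le_prod (fun i _ => integral_nonneg (fun x => mul_self_nonneg _)) (fun i _ => c3 m i)
      _ = _ := by
          rw [Finset.prod_mul_distrib, Finset.prod_const, Finset.card_univ, Fintype.card_fin]
          congr 1
          rw [← pow_mul, ← pow_mul]
          congr 1
          ring
  set A0 := ∫ x, P f0 x * P f0 x ∂μ with hA0
  set D0 := ∏ i, ∫ x, f i x * f i x ∂μ with hD0
  have hA0n : 0 ≤ A0 := integral_nonneg (fun x => mul_self_nonneg _)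
  have c5 : ∀ m : ℕ, A0 ≤ ((r₂ ^ r / r₁) ^ 2) ^ m * D0 := by
    intro m
    have h3 := (c2 m).trans ((hUB (fm m)).trans (c4 m))
    have h4 : 0 < r₁ ^ (2 * m) := by positivity
    have h5 : ((r₂ ^ r / r₁) ^ 2) ^ m * D0 = ((r₂ ^ r) ^ (2 * m) * D0) / r₁ ^ (2 * m) := by
      rw [← pow_mul, div_pow]
      ring
    rw [h5, le_div_iff₀ h4, mul_comm]
    exact h3
  have hlt : (r₂ ^ r / r₁) ^ 2 < 1 := by
    have h3 : r₂ ^ r / r₁ < 1 := by rwa [div_lt_one h1]
    have h4 : 0 ≤ r₂ ^ r / r₁ := by positivity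
    nlinarith
  have t5 := (tendsto_pow_atTop_nhds_zero_of_lt_one (sq_nonneg (r₂ ^ r / r₁)) hlt).mul_const D0
  rw [zero_mul] at t5
  have hA00 : A0 = 0 := le_antisymm (ge_of_tendsto' t5 c5) hA0n
  have hP0 : P f0 =ᵐ[μ] 0 := by
    have h3 := (integral_eq_zero_iff_of_nonneg (μ := μ) (f := fun x => P f0 x * P f0 x)
      (fun x => mul_self_nonneg _) ((hPb f0).mul (hPb f0)).int).1 hA00
    filter_upwards [h3] with x hx
    exact mul_self_eq_zero.1 hx
  have t6 := hP f0 h hh
  have e6 : ∫ x, h x * P f0 x ∂μ = 0 := by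
    have : (fun x => h x * P f0 x) =ᵐ[μ] fun _ => (0 : ℝ) := by
      filter_upwards [hP0] with x hx
      rw [hx]
      simp
    rw [integral_congr_ae this]
    simp
  rw [e6] at t6
  exact t6

theorem upd_prod (g : Fin (r + 1) → X → ℝ) (a : Fin (r + 1)) (h : X → ℝ) (y : Fin (r + 1) → X) :
    ∏ i, Function.update g a h i (y i) = h (y a) * ∏ i ∈ Finset.univ.erase a, g i (y i) := by
  rw [← Finset.mul_prod_erase _ _ (Finset.mem_univ a), Function.update_self]
  congr 1
  apply Finset.prod_congr rfl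
  intro i hi
  rw [Function.update_of_ne (Finset.ne_of_mem_erase hi)]

theorem upd_int (g : Fin (r + 1) → X → ℝ) (a : Fin (r + 1)) (h : X → ℝ) :
    ∏ i, ∫ x, Function.update g a h i x ∂μ = (∫ x, h x ∂μ) * ∏ i ∈ Finset.univ.erase a, ∫ x, g i x ∂μ := by
  rw [← Finset.mul_prod_erase _ _ (Finset.mem_univ a), Function.update_self]
  congr 1
  apply Finset.prod_congr rfl
  intro i hi
  rw [Function.update_of_ne (Finset.ne_of_mem_erase hi)]

theorem centre (hT : MeasurePreserving T μ μ) (hfact : FactSet μ T r) (hr : 1 ≤ r) (hs : Spread s)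
    (hv : ∀ (f : Fin r → X → ℝ), (∀ i, Bd (f i)) → (∀ i, ∫ x, f i x ∂μ = 0) → ∀ h : X → ℝ, Bd h →
      Tendsto (fun n => Ln T s μ n f h) atTop (𝓝 0)) (j : ℕ) :
    ∀ g : Fin (r + 1) → X → ℝ, (∀ i, Bd (g i)) → (∀ i : Fin r, j ≤ i → ∫ x, g i.castSucc x ∂μ = 0) →
      Tendsto (fun n => ∫ x, ∏ i, g i ((⇑T)^[s n i] x) ∂μ) atTop (𝓝 (∏ i, ∫ x, g i x ∂μ)) := by
  induction j with
  | zero =>
    intro g hg hg0
    have t1 := hv (fun i => g i.castSucc) (fun i => hg _) (fun i => hg0 i (Nat.zero_le _)) (g (Fin.last r)) (hg _)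
    have e1 : ∏ i, ∫ x, g i x ∂μ = 0 :=
      Finset.prod_eq_zero (Finset.mem_univ (Fin.castSucc ⟨0, hr⟩)) (hg0 _ (Nat.zero_le _))
    rw [e1]
    refine t1.congr (fun n => ?_)
    unfold Ln F
    congr 1
    funext x
    rw [Fin.prod_univ_castSucc, mul_comm]
  | succ j ih =>
    intro g hg hg0
    by_cases hj : j < r
    · set a : Fin (r + 1) := Fin.castSucc ⟨j, hj⟩ with ha
      set c := ∫ x, g a x ∂μ with hcdef
      have hup : ∀ h : X → ℝ, Bd h → ∀ i, Bd (Function.update g a h i) := by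
        intro h hh i
        by_cases hi : i = a
        · subst hi; rw [Function.update_self]; exact hh
        · rw [Function.update_of_ne hi]; exact hg i
      have hg1 : Bd (fun x => g a x + (-c)) := (hg a).add (Bd.const _)
      have i1 : ∫ x, (g a x + (-c)) ∂μ = 0 := by
        rw [integral_add (hg a).int (integrable_const _), integral_const]
        simp [hcdef]
      have t1 := ih (Function.update g a (fun x => g a x + (-c))) (hup _ hg1) (by
        intro i hi
        by_cases hia : i.castSucc = a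
        · rw [hia, Function.update_self]; exact i1
        · rw [Function.update_of_ne hia]
          apply hg0
          rcases Nat.lt_or_ge j (i : ℕ) with h3 | h3
          · exact h3
          · exfalso
            apply hia
            rw [ha]
            congr 1
            apply Fin.ext
            simp only
            omega)
      have t2 := fact_fun_succ (𝕜 := ℝ) hT hfact hs (Function.update g a (fun _ => 1))
        (fun i => (hup _ (Bd.const 1) i).1) (fun i => (hup _ (Bd.const 1) i).2) a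
        (fun x => by rw [Function.update_self])
      have t3 := t1.add (t2.const_mul c)
      have e3 : (∏ i, ∫ x, Function.update g a (fun x => g a x + (-c)) i x ∂μ) +
          c * ∏ i, ∫ x, Function.update g a (fun _ => 1) i x ∂μ = ∏ i, ∫ x, g i x ∂μ := by
        rw [upd_int, upd_int, i1, zero_mul, zero_add, integral_const,
          ← Finset.mul_prod_erase Finset.univ (fun i => ∫ x, g i x ∂μ) (Finset.mem_univ a)]
        simp [hcdef]
      rw [e3] at t3
      refine t3.congr (fun n => ?_)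
      have hb : ∀ h : X → ℝ, Bd h → Bd (fun x => ∏ i, Function.update g a h i ((⇑T)^[s n i] x)) := fun h hh =>
        Bd.prod Finset.univ (fun i => (hup h hh i).comp (iter_meas T _))
      rw [← integral_const_mul, ← integral_add (hb _ hg1).int ((hb _ (Bd.const 1)).int.const_mul c)]
      congr 1
      funext x
      rw [upd_prod g a _ (fun i => (⇑T)^[s n i] x), upd_prod g a _ (fun i => (⇑T)^[s n i] x),
        ← Finset.mul_prod_erase Finset.univ (fun i => g i ((⇑T)^[s n i] x)) (Finset.mem_univ a)]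
      ring
    · exact ih g hg (fun i hi => absurd i.2 (by omega))

end core

end Pool.H359R3.RK
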