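import Mathlib
import Pool.Agent.H359R3.RK3

set_option autoImplicit false
set_option linter.unusedSectionVars false
set_option linter.unusedVariables false

/-!
Multiple mixing from a near homothety in the weak closure of the centralizer: conclusion.
-/

namespace Pool.H359R3.RK

open MeasureTheory Filter Topology Pool.Agent.H716R2

section core

variable {X : Type*} [MeasurableSpace X] {μ : Measure X} [IsProbabilityMeasure μ]
variable {T : X ≃ᵐ X}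

theorem fact_step {r : ℕ} (hT : MeasurePreserving T μ μ) (hfact : FactSet μ T r) (hr : 1 ≤ r)
    (R : ℕ → X ≃ᵐ X) (hR : ∀ l, MeasurePreserving (R l) μ μ) (hc : ∀ l, ∀ᵐ x ∂μ, R l (T x) = T (R l x))
    (Q : (X → ℝ) → X → ℝ) (hQ : ∀ f, Bd f → Bd (Q f))
    (hQw : ∀ f g, Bd f → Bd g →
      Tendsto (fun l => ∫ x, g x * f (R l x) ∂μ) atTop (𝓝 (∫ x, g x * Q f x ∂μ)))
    (r₁ r₂ : ℝ) (h1 : 0 < r₁) (h2 : 0 ≤ r₂) (h12 : r₂ ^ r < r₁)
    (hlo : ∀ f, Bd f → ∫ x, f x ∂μ = 0 → r₁ ^ 2 * ∫ x, f x * f x ∂μ ≤ ∫ x, Q f x * Q f x ∂μ)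
    (hup : ∀ f, Bd f → ∫ x, f x ∂μ = 0 → ∫ x, Q f x * Q f x ∂μ ≤ r₂ ^ 2 * ∫ x, f x * f x ∂μ) :
    FactSet μ T (r + 1) := by
  intro s hs A hA
  have hind : ∀ i, Bd ((A i).indicator (fun _ => (1 : ℝ))) := by
    intro i
    refine ⟨measurable_const.indicator (hA i), 1, fun x => ?_⟩
    by_cases hx : x ∈ A i <;> simp [hx]
  have t := centre hT hfact hr hs (fun f hf hf0 h hh => by
    rw [tendsto_iff_ultrafilter]
    intro U hU
    exact vanish hT hfact hr hs U hU R hR hc Q hQ hQw r₁ r₂ h1 h2 h12 hlo hup f hf hf0 h hh) r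
    (fun i => (A i).indicator (fun _ => (1 : ℝ))) hind (fun i hi => absurd i.2 (by omega))
  have e1 : ∏ i, ∫ x, (A i).indicator (fun _ => (1 : ℝ)) x ∂μ = ∏ i, μ.real (A i) := by
    apply Finset.prod_congr rfl
    intro i _
    rw [integral_indicator_const _ (hA i)]
    simp
  rw [e1] at t
  refine t.congr (fun n => ?_)
  have e2 : ∀ x, ∏ i, (A i).indicator (fun _ => (1 : ℝ)) ((⇑T)^[s n i] x)
      = (⋂ i, (⇑T)^[s n i] ⁻¹' A i).indicator (fun _ => (1 : ℝ)) x := fun x =>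
    prod_indicator_eq T (s n) A x
  simp_rw [e2]
  rw [integral_indicator_const _ (MeasurableSet.iInter (fun i => (iter_meas T _) (hA i)))]
  simp

theorem mixK_of_factSet {k : ℕ} (h : FactSet μ T (k + 1)) : MixK μ T k := by
  intro A hA ε hε
  obtain ⟨N, hN⟩ := forall_of_spread (r := k)
    (fun t => |μ.real (⋂ i : Fin (k + 1), (⇑T)^[t i] ⁻¹' A i) - ∏ i : Fin (k + 1), μ.real (A i)| < ε)
    (fun s hs => by
      have h1 := h s hs (fun i => A i) (fun i => hA i)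
      exact (Metric.tendsto_nhds.1 h1 ε hε))
  refine ⟨N, fun m hm => ?_⟩
  have h2 := hN m hm
  rw [iInter_range_eq, Finset.prod_range]
  exact h2

theorem main {k : ℕ} (hT : MeasurePreserving T μ μ) (hmix : MixK μ T k)
    (R : ℕ → X ≃ᵐ X) (hR : ∀ l, MeasurePreserving (R l) μ μ) (hc : ∀ l, ∀ᵐ x ∂μ, R l (T x) = T (R l x))
    (Q : (X → ℝ) → X → ℝ) (hQ : ∀ f, Bd f → Bd (Q f))
    (hQw : ∀ f g, Bd f → Bd g →
      Tendsto (fun l => ∫ x, g x * f (R l x) ∂μ) atTop (𝓝 (∫ x, g x * Q f x ∂μ)))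
    (r₁ r₂ : ℝ) (h1 : 0 < r₁) (h2 : 0 ≤ r₂) (h3 : r₂ ≤ 1) (h12 : r₂ ^ (k + 1) < r₁)
    (hb : ∀ f, Bd f → ∫ x, f x ∂μ = 0 → r₁ ^ 2 * ∫ x, f x ^ 2 ∂μ ≤ ∫ x, Q f x ^ 2 ∂μ ∧
      ∫ x, Q f x ^ 2 ∂μ ≤ r₂ ^ 2 * ∫ x, f x ^ 2 ∂μ) (m : ℕ) (hm : k ≤ m) : MixK μ T m := by
  simp only [sq (_ : ℝ)] at hb
  simp only [← sq] at hb
  have hb' : ∀ f, Bd f → ∫ x, f x ∂μ = 0 → r₁ ^ 2 * ∫ x, f x * f x ∂μ ≤ ∫ x, Q f x * Q f x ∂μ ∧
      ∫ x, Q f x * Q f x ∂μ ≤ r₂ ^ 2 * ∫ x, f x * f x ∂μ := by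
    intro f hf hf0
    have := hb f hf hf0
    simpa only [sq] using this
  apply mixK_of_factSet
  induction m, hm using Nat.le_induction with
  | base => exact factSet_of_mixK hT hmix
  | succ m hm ih =>
    refine fact_step hT ih (by omega) R hR hc Q hQ hQw r₁ r₂ h1 h2 ?_ (fun f hf hf0 => (hb' f hf hf0).1)
      (fun f hf hf0 => (hb' f hf hf0).2)
    exact lt_of_le_of_lt (pow_le_pow_of_le_one h2 h3 (by omega)) h12

end core

end Pool.H359R3.RK
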