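import Mathlib
import Pool.Agent.H359R3.RK0

set_option autoImplicit false
set_option linter.unusedSectionVars false
set_option linter.unusedVariables false

/-!
Tools: approximate Riesz representation, limit operators of off-diagonal correlations.
-/

namespace Pool.H359R3.RL

open MeasureTheory Filter Topology Pool.Agent.H716R2

/-- approximate Riesz representation -/
theorem riesz {V : Type*} [AddCommGroup V] [Module ℝ V] (B : V →ₗ[ℝ] V →ₗ[ℝ] ℝ)
    (hsym : ∀ u v, B u v = B v u) (hpos : ∀ v, 0 ≤ B v v) (ψ : V →ₗ[ℝ] ℝ) (C : ℝ)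
    (hC : ∀ v, ψ v ≤ B v v / 2 + C) (η : ℝ) (hη : 0 < η) :
    ∃ u, ∀ v, (ψ v - B u v) ^ 2 ≤ η * B v v := by
  have hbdd : BddAbove (Set.range (fun v => ψ v - B v v / 2)) := by
    refine ⟨C, ?_⟩
    rintro _ ⟨v, rfl⟩
    have := hC v
    simp only
    linarith
  obtain ⟨_, ⟨u, rfl⟩, hu⟩ := exists_lt_of_lt_csSup (Set.range_nonempty _)
    (show sSup (Set.range (fun v => ψ v - B v v / 2)) - η / 2 <
      sSup (Set.range (fun v => ψ v - B v v / 2)) by linarith)
  refine ⟨u, fun v => ?_⟩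
  have key : ∀ t : ℝ, t * (ψ v - B u v) - t ^ 2 * (B v v / 2) ≤ η / 2 := by
    intro t
    have h1 := le_csSup hbdd (Set.mem_range_self (u + t • v))
    simp only [map_add, map_smul, LinearMap.add_apply, LinearMap.smul_apply, smul_eq_mul] at h1 hu
    have h2 := hsym v u
    rw [h2] at h1
    nlinarith
  rcases (hpos v).eq_or_lt with hb | hb
  · have hd : ψ v - B u v = 0 := by
      by_contra hne
      have h3 := key (η / (ψ v - B u v))
      rw [← hb, div_mul_cancel₀ _ hne] at h3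
      linarith
    rw [hd, ← hb]
    simp
  · have h3 := key ((ψ v - B u v) / B v v)
    have e : ((ψ v - B u v) / B v v) * (ψ v - B u v) - ((ψ v - B u v) / B v v) ^ 2 * (B v v / 2) =
        (ψ v - B u v) ^ 2 / (2 * B v v) := by
      field_simp
      ring
    rw [e, div_le_iff₀ (by positivity)] at h3
    linarith

section core

variable {X : Type*} [MeasurableSpace X] {μ : Measure X} [IsProbabilityMeasure μ]

/-- bounded measurable -/
def Bd (f : X → ℝ) : Prop := Measurable f ∧ ∃ C : ℝ, ∀ x, |f x| ≤ C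

theorem Bd.comp {f : X → ℝ} (hf : Bd f) {φ : X → X} (hφ : Measurable φ) : Bd (fun x => f (φ x)) :=
  ⟨hf.1.comp hφ, hf.2.imp (fun C h x => h (φ x))⟩

theorem Bd.mul {f g : X → ℝ} (hf : Bd f) (hg : Bd g) : Bd (fun x => f x * g x) := by
  obtain ⟨hf, C, hC⟩ := hf
  obtain ⟨hg, D, hD⟩ := hg
  refine ⟨hf.mul hg, C * D, fun x => ?_⟩
  rw [abs_mul]
  exact mul_le_mul (hC x) (hD x) (abs_nonneg _) ((abs_nonneg _).trans (hC x))

theorem Bd.add {f g : X → ℝ} (hf : Bd f) (hg : Bd g) : Bd (fun x => f x + g x) := by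
  obtain ⟨hf, C, hC⟩ := hf
  obtain ⟨hg, D, hD⟩ := hg
  exact ⟨hf.add hg, C + D, fun x => (abs_add_le _ _).trans (add_le_add (hC x) (hD x))⟩

theorem Bd.const (c : ℝ) : Bd (fun _ : X => c) := ⟨measurable_const, |c|, fun _ => le_rfl⟩

theorem Bd.prod {ι : Type*} (S : Finset ι) {f : ι → X → ℝ} (h : ∀ i, Bd (f i)) :
    Bd (fun x => ∏ i ∈ S, f i x) := by
  classical
  induction S using Finset.induction_on with
  | empty => simpa using Bd.const (X := X) 1
  | insert a S ha ih =>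
    simp only [Finset.prod_insert ha]
    exact (h a).mul ih

theorem Bd.sum {ι : Type*} (S : Finset ι) {f : ι → X → ℝ} (h : ∀ i, Bd (f i)) :
    Bd (fun x => ∑ i ∈ S, f i x) := by
  classical
  induction S using Finset.induction_on with
  | empty => simpa using Bd.const (X := X) 0
  | insert a S ha ih =>
    simp only [Finset.sum_insert ha]
    exact (h a).add ih

theorem Bd.int {f : X → ℝ} (hf : Bd f) : Integrable f μ := by
  obtain ⟨hf, C, hC⟩ := hf
  exact int_of_bound hf hC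

theorem ic {φ : X → X} (hφ : MeasurePreserving φ μ μ) {g : X → ℝ} (hg : Measurable g) :
    ∫ x, g (φ x) ∂μ = ∫ x, g x ∂μ := by
  have h := integral_map (μ := μ) hφ.measurable.aemeasurable (f := g) hg.aestronglyMeasurable
  rw [hφ.map_eq] at h
  exact h.symm

theorem comm_iter {T R : X ≃ᵐ X} (hT : MeasurePreserving T μ μ)
    (hc : ∀ᵐ x ∂μ, R (T x) = T (R x)) (n : ℕ) : ∀ᵐ x ∂μ, R ((⇑T)^[n] x) = (⇑T)^[n] (R x) := by
  induction n with
  | zero => exact Eventually.of_forall (fun x => rfl)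
  | succ n ih =>
    filter_upwards [hT.quasiMeasurePreserving.ae ih, hc] with x h1 h2
    rw [Function.iterate_succ_apply, Function.iterate_succ_apply, h1, h2]

variable {r : ℕ} (T : X ≃ᵐ X) (s : ℕ → Fin (r + 1) → ℕ) (a : Fin (r + 1))

/-- product of the first `r` functions along the orbit -/
def F (n : ℕ) (f : Fin r → X → ℝ) (x : X) : ℝ := ∏ i : Fin r, f i ((⇑T)^[s n (a.succAbove i)] x)

/-- correlation -/
noncomputable def Ln (μ : Measure X) (n : ℕ) (f : Fin r → X → ℝ) (h : X → ℝ) : ℝ :=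
  ∫ x, h ((⇑T)^[s n a] x) * F T s a n f x ∂μ

theorem F_bd (n : ℕ) {f : Fin r → X → ℝ} (hf : ∀ i, Bd (f i)) : Bd (F T s a n f) :=
  Bd.prod Finset.univ (fun i => (hf i).comp (iter_meas T _))

variable {T s a}

theorem exP (hT : MeasurePreserving T μ μ) (U : Ultrafilter ℕ) {f : Fin r → X → ℝ} (hf : ∀ i, Bd (f i)) :
    ∃ p : X → ℝ, Bd p ∧ ∀ h : X → ℝ, Bd h → Tendsto (fun n => Ln T s a μ n f h) U (𝓝 (∫ x, h x * p x ∂μ)) := by
  choose hfm C hC using hf
  let y : ℕ → X → ℝ := fun n x => F T s a n f ((⇑T.symm)^[s n a] x)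
  have hFm : ∀ n, Measurable (F T s a n f) := fun n => (F_bd T s a n (fun i => ⟨hfm i, C i, hC i⟩)).1
  have hy : ∀ n, Measurable (y n) := fun n => (hFm n).comp (iter_meas T.symm _)
  have hb : ∀ n x, |y n x| ≤ ∏ i, C i := by
    intro n x
    simp only [y, F, Finset.abs_prod]
    exact Finset.prod_le_prod (fun i _ => abs_nonneg _) (fun i _ => hC i _)
  obtain ⟨p, hp1, hp2, hp3⟩ := exists_wlim μ U y hy _ hb
  refine ⟨p, ⟨hp1, _, hp2⟩, fun h hh => ?_⟩
  refine (hp3 h hh.1 hh.2).congr fun n => ?_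
  have h1 := ic (iter_mp hT (s n a)) (g := fun x => h x * y n x) (hh.1.mul (hy n))
  rw [← h1]
  unfold Ln
  congr 1
  funext x
  simp only [y]
  rw [symm_iter_left]

theorem Ln_comm (hT : MeasurePreserving T μ μ) {R : X ≃ᵐ X} (hR : MeasurePreserving R μ μ)
    (hc : ∀ᵐ x ∂μ, R (T x) = T (R x)) (n : ℕ) {f : Fin r → X → ℝ} (hf : ∀ i, Bd (f i)) {h : X → ℝ} (hh : Bd h) :
    Ln T s a μ n (fun i x => f i (R x)) h = Ln T s a μ n f (fun x => h (R.symm x)) := by
  unfold Ln
  have hG : Measurable (fun x => h (R.symm ((⇑T)^[s n a] x)) * F T s a n f x) :=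
    ((hh.1.comp R.symm.measurable).comp (iter_meas T _)).mul (F_bd T s a n hf).1
  rw [← ic hR hG]
  apply integral_congr_ae
  have h1 : ∀ᵐ x ∂μ, ∀ i : Fin (r + 1), R ((⇑T)^[s n i] x) = (⇑T)^[s n i] (R x) := by
    rw [ae_all_iff]
    exact fun i => comm_iter hT hc _
  filter_upwards [h1] with x hx
  rw [← hx a, R.symm_apply_apply]
  congr 1
  unfold F
  apply Finset.prod_congr rfl
  intro i _
  simp only
  rw [← hx (a.succAbove i)]

theorem spread_cs (hs : Spread s) : Spread (fun n (i : Fin r) => s n (a.succAbove i)) := hs.succAbove a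

theorem F_lim (hT : MeasurePreserving T μ μ) (hfact : FactSet μ T r) (hs : Spread s) {f : Fin r → X → ℝ}
    (hf : ∀ i, Bd (f i)) : Tendsto (fun n => ∫ x, F T s a n f x ∂μ) atTop (𝓝 (∏ i, ∫ x, f i x ∂μ)) := by
  have h := fact_fun (𝕜 := ℝ) hT hfact (spread_cs (a := a) hs) f (fun i => (hf i).1) (fun i => (hf i).2)
  exact h

theorem F_mul (n : ℕ) (f g : Fin r → X → ℝ) (x : X) :
    F T s a n f x * F T s a n g x = F T s a n (fun i x => f i x * g i x) x := by
  unfold F
  rw [← Finset.prod_mul_distrib]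

end core

end Pool.H359R3.RL
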