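import Mathlib
import Pool.Agent.H359R3.RL2

set_option autoImplicit false
set_option linter.unusedSectionVars false
set_option linter.unusedVariables false

/-!
Symmetry of off-diagonal limits and weak limits of commuting automorphisms.
-/

namespace Pool.H359R3.RL

open MeasureTheory Filter Topology Pool.Agent.H716R2

section core

variable {X : Type*} [MeasurableSpace X] {μ : Measure X} [IsProbabilityMeasure μ] {r : ℕ}
variable {T : X ≃ᵐ X} {s : ℕ → Fin (r + 1) → ℕ}

theorem be_nonneg (f : BT X r) : 0 ≤ be μ f f :=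
  Finset.prod_nonneg (fun i _ => integral_nonneg (fun x => mul_self_nonneg _))

/-- limit of the correlations of a full tuple along an ultrafilter -/
def LimG (μ : Measure X) (T : X ≃ᵐ X) (s : ℕ → Fin (r + 1) → ℕ) (U : Ultrafilter ℕ)
    (G : Fin (r + 1) → X → ℝ) (c : ℝ) : Prop :=
  Tendsto (fun n => ∫ x, ∏ i, G i ((⇑T)^[s n i] x) ∂μ) U (𝓝 c)

theorem corr_eq (a : Fin (r + 1)) (G : Fin (r + 1) → X → ℝ) (n : ℕ) :
    ∫ x, ∏ i, G i ((⇑T)^[s n i] x) ∂μ = Ln T s a μ n (fun i => G (a.succAbove i)) (G a) := by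
  unfold Ln F
  congr 1
  funext x
  rw [Fin.prod_univ_succAbove _ a]

/-- weak limit data -/
structure WD (μ : Measure X) (T : X ≃ᵐ X) (R : ℕ → X ≃ᵐ X) (Q Qs : (X → ℝ) → X → ℝ) : Prop where
  mp : ∀ l, MeasurePreserving (R l) μ μ
  cm : ∀ l, ∀ᵐ x ∂μ, R l (T x) = T (R l x)
  bQ : ∀ f, Bd f → Bd (Q f)
  bQs : ∀ f, Bd f → Bd (Qs f)
  w : ∀ f g, Bd f → Bd g → Tendsto (fun l => ∫ x, g x * f (R l x) ∂μ) atTop (𝓝 (∫ x, g x * Q f x ∂μ))
  adj : ∀ f g, Bd f → Bd g → ∫ x, g x * Qs f x ∂μ = ∫ x, Q g x * f x ∂μ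

theorem RR (hT : MeasurePreserving T μ μ) (hfact : FactSet μ T r) (hs : Spread s)
    (U : Ultrafilter ℕ) (hU : (U : Filter ℕ) ≤ atTop) (R : ℕ → X ≃ᵐ X) (Q Qs : (X → ℝ) → X → ℝ)
    (W : WD μ T R Q Qs) (a : Fin (r + 1)) (G : Fin (r + 1) → X → ℝ) (hG : ∀ i, Bd (G i)) (c : ℝ)
    (hc : LimG μ T s U (fun i => if i = a then Qs (G i) else G i) c) :
    LimG μ T s U (fun i => if i = a then G i else Q (G i)) c := by
  choose P hPb hP using (fun f : BT X r => exP (s := s) (a := a) hT U f.2)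
  let Qt : BT X r → BT X r := fun f => ⟨fun i => Q (f.1 i), fun i => W.bQ _ (f.2 i)⟩
  let Rt : ℕ → BT X r → BT X r := fun l f =>
    ⟨fun i x => f.1 i (R l x), fun i => (f.2 i).comp (R l).measurable⟩
  have ha : ∀ (f : BT X r) (l : ℕ) (g : X → ℝ), Bd g →
      ∫ x, g x * P (Rt l f) x ∂μ = ∫ x, g x * P f (R l x) ∂μ := by
    intro f l g hg
    have t1 := hP (Rt l f) g hg
    have hg' : Bd (fun x => g ((R l).symm x)) := hg.comp (R l).symm.measurable
    have t2 := hP f _ hg'
    have e1 : ∀ n, Ln T s a μ n (Rt l f).1 g = Ln T s a μ n f.1 (fun x => g ((R l).symm x)) := fun n =>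
      Ln_comm hT (W.mp l) (W.cm l) n f.2 hg
    have t3 := t1.congr e1
    have e2 := tendsto_nhds_unique t3 t2
    rw [e2, ← ic (W.mp l) (g := fun x => g ((R l).symm x) * P f x) (hg'.1.mul (hPb f).1)]
    congr 1
    funext x
    rw [(R l).symm_apply_apply]
  have hd : ∀ (f : BT X r) (g : X → ℝ), Bd g →
      ∫ x, g x * P (Qt f) x ∂μ = ∫ x, g x * Q (P f) x ∂μ := by
    intro f g hg
    have t1 : Tendsto (fun l => ∫ x, g x * P (Rt l f) x ∂μ) atTop (𝓝 (∫ x, g x * Q (P f) x ∂μ)) :=
      (W.w (P f) g (hPb f) hg).congr (fun l => (ha f l g hg).symm)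
    have t2 : Tendsto (fun l => ∫ x, g x * P (Rt l f) x ∂μ) atTop (𝓝 (∫ x, g x * P (Qt f) x ∂μ)) := by
      refine E1 hT hfact hs U hU P hP g hg (fun l => Rt l f) (Qt f) (max (be μ f f) (be μ (Qt f) (Qt f)))
        ?_ (le_max_right _ _) (le_max_of_le_left (be_nonneg f)) (fun i g' hg' => W.w (f.1 i) g' (f.2 i) hg')
      intro l
      refine le_trans (le_of_eq ?_) (le_max_left _ _)
      unfold be
      apply Finset.prod_congr rfl
      intro i _
      exact ic (W.mp l) (g := fun x => f.1 i x * f.1 i x) ((f.2 i).1.mul (f.2 i).1)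
    exact tendsto_nhds_unique t2 t1
  let f : BT X r := ⟨fun i => G (a.succAbove i), fun i => hG _⟩
  have hne : ∀ i : Fin r, a.succAbove i ≠ a := fun i => Fin.succAbove_ne a i
  have t1 : Tendsto (fun n => Ln T s a μ n f.1 (Qs (G a))) U (𝓝 c) := by
    refine hc.congr (fun n => ?_)
    rw [corr_eq a]
    simp only [if_true, if_neg (hne _)]
    rfl
  have t2 := hP f (Qs (G a)) (W.bQs _ (hG a))
  have e1 := tendsto_nhds_unique t1 t2
  have t3 := hP (Qt f) (G a) (hG a)
  have e2 : ∫ x, G a x * P (Qt f) x ∂μ = c := by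
    rw [hd f (G a) (hG a), e1]
    have e3 := W.adj (G a) (P f) (hG a) (hPb f)
    calc ∫ x, G a x * Q (P f) x ∂μ = ∫ x, Q (P f) x * G a x ∂μ := by
          congr 1; funext x; ring
      _ = ∫ x, P f x * Qs (G a) x ∂μ := e3.symm
      _ = _ := by congr 1; funext x; ring
  rw [e2] at t3
  refine t3.congr (fun n => ?_)
  rw [corr_eq a]
  simp only [if_true, if_neg (hne _)]
  rfl

theorem WD.symm {R : ℕ → X ≃ᵐ X} {Q Qs : (X → ℝ) → X → ℝ} (W : WD μ T R Q Qs) :
    WD μ T (fun l => (R l).symm) Qs Q where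
  mp := fun l => (W.mp l).symm (R l)
  cm := by
    intro l
    have h := ((W.mp l).symm (R l)).quasiMeasurePreserving.ae (W.cm l)
    filter_upwards [h] with x hx
    rw [(R l).apply_symm_apply] at hx
    rw [← hx, (R l).symm_apply_apply]
  bQ := W.bQs
  bQs := W.bQ
  w := by
    intro f g hf hg
    have h := W.w g f hg hf
    have e : ∫ x, g x * Qs f x ∂μ = ∫ x, f x * Q g x ∂μ := by
      rw [W.adj f g hf hg]
      congr 1; funext x; ring
    rw [e]
    refine h.congr (fun l => ?_)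
    rw [← ic (W.mp l) (g := fun x => g x * f ((R l).symm x)) (hg.1.mul (hf.1.comp (R l).symm.measurable))]
    congr 1
    funext x
    rw [(R l).symm_apply_apply]
    ring
  adj := by
    intro f g hf hg
    have h := W.adj g f hg hf
    calc ∫ x, g x * Q f x ∂μ = ∫ x, Q f x * g x ∂μ := by congr 1; funext x; ring
      _ = ∫ x, f x * Qs g x ∂μ := h.symm
      _ = _ := by congr 1; funext x; ring

/-- `Q* Q` -/
def AA (Q Qs : (X → ℝ) → X → ℝ) (f : X → ℝ) : X → ℝ := Qs (Q f)

theorem RA (hT : MeasurePreserving T μ μ) (hfact : FactSet μ T r) (hs : Spread s)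
    (U : Ultrafilter ℕ) (hU : (U : Filter ℕ) ≤ atTop) (R : ℕ → X ≃ᵐ X) (Q Qs : (X → ℝ) → X → ℝ)
    (W : WD μ T R Q Qs) (a : Fin (r + 1)) (G : Fin (r + 1) → X → ℝ) (hG : ∀ i, Bd (G i)) (c : ℝ)
    (hc : LimG μ T s U (fun i => if i = a then AA Q Qs (G i) else G i) c) :
    LimG μ T s U (fun i => if i = a then G i else AA Q Qs (G i)) c := by
  have h1 := RR hT hfact hs U hU R Q Qs W a (fun i => if i = a then Q (G i) else G i)
    (fun i => by split_ifs; exacts [W.bQ _ (hG i), hG i]) c (by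
      refine (congrArg (fun H => LimG μ T s U H c) ?_).mp hc
      funext i
      by_cases hi : i = a
      · simp only [if_pos hi]; rfl
      · simp only [if_neg hi])
  have h2 := RR hT hfact hs U hU (fun l => (R l).symm) Qs Q W.symm a (fun i => if i = a then G i else Q (G i))
    (fun i => by split_ifs; exacts [hG i, W.bQ _ (hG i)]) c (by
      refine (congrArg (fun H => LimG μ T s U H c) ?_).mp h1
      funext i
      by_cases hi : i = a
      · simp only [if_pos hi]
      · simp only [if_neg hi])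
  refine (congrArg (fun H => LimG μ T s U H c) ?_).mp h2
  funext i
  by_cases hi : i = a
  · simp only [if_pos hi]
  · simp only [if_neg hi]; rfl

theorem star (hT : MeasurePreserving T μ μ) (hfact : FactSet μ T r) (hs : Spread s)
    (U : Ultrafilter ℕ) (hU : (U : Filter ℕ) ≤ atTop) (R : ℕ → X ≃ᵐ X) (Q Qs : (X → ℝ) → X → ℝ)
    (W : WD μ T R Q Qs) (a b : Fin (r + 1)) (hab : a ≠ b) (G : Fin (r + 1) → X → ℝ) (hG : ∀ i, Bd (G i))
    (c : ℝ) (hc : LimG μ T s U (fun i => if i = a then AA Q Qs (G i) else G i) c) :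
    LimG μ T s U (fun i => if i = a then AA Q Qs (G i) else if i = b then G i else AA Q Qs (AA Q Qs (G i))) c := by
  have bA : ∀ f, Bd f → Bd (AA Q Qs f) := fun f hf => W.bQs _ (W.bQ _ hf)
  have h1 := RA hT hfact hs U hU R Q Qs W a G hG c hc
  have h2 := RA hT hfact hs U hU R Q Qs W b (fun i => if i = a then G i else if i = b then G i else AA Q Qs (G i))
    (fun i => by split_ifs; exacts [hG i, hG i, bA _ (hG i)]) c (by
      refine (congrArg (fun H => LimG μ T s U H c) ?_).mp h1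
      funext i
      by_cases hi : i = a
      · have : ¬ i = b := fun h => hab (hi.symm.trans h)
        simp only [if_pos hi, if_neg this]
      · by_cases hb : i = b
        · simp only [if_neg hi, if_pos hb]
        · simp only [if_neg hi, if_neg hb])
  refine (congrArg (fun H => LimG μ T s U H c) ?_).mp h2
  funext i
  by_cases hi : i = a
  · have : ¬ i = b := fun h => hab (hi.symm.trans h)
    simp only [if_pos hi, if_neg this]
  · by_cases hb : i = b
    · simp only [if_neg hi, if_pos hb]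
    · simp only [if_neg hi, if_neg hb]

end core

end Pool.H359R3.RL
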