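import Mathlib
import Pool.Agent.H359R3.RL3
import Pool.Agent.H359R3.RK4

set_option autoImplicit false
set_option linter.unusedSectionVars false
set_option linter.unusedVariables false

/-!
Correlations vanish when the weak closure of the centralizer contains an injective strict contraction.
-/

namespace Pool.H359R3.RL

open MeasureTheory Filter Topology Pool.Agent.H716R2

section core

variable {X : Type*} [MeasurableSpace X] {μ : Measure X} [IsProbabilityMeasure μ] {r : ℕ}
variable {T : X ≃ᵐ X} {s : ℕ → Fin (r + 1) → ℕ}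

theorem mean0 {R : ℕ → X ≃ᵐ X} {Q Qs : (X → ℝ) → X → ℝ} (W : WD μ T R Q Qs) (g : X → ℝ) (hg : Bd g)
    (hg0 : ∫ x, g x ∂μ = 0) : ∫ x, Q g x ∂μ = 0 := by
  have t1 := W.w g (fun _ => 1) hg (Bd.const 1)
  have t2 : Tendsto (fun l : ℕ => (0 : ℝ)) atTop (𝓝 (∫ x, 1 * Q g x ∂μ)) := by
    refine t1.congr (fun l => ?_)
    simp only [one_mul]
    rw [ic (W.mp l) hg.1, hg0]
  have e2 := tendsto_nhds_unique t2 tendsto_const_nhds
  simpa using e2

theorem Bd.sub {f g : X → ℝ} (hf : Bd f) (hg : Bd g) : Bd (fun x => f x - g x) := by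
  have h := hf.add ((Bd.const (-1)).mul hg)
  refine (congrArg Bd ?_).mp h
  funext x
  ring

theorem ae_zero {p : X → ℝ} (hp : Bd p) (h : ∫ x, p x * p x ∂μ = 0) : p =ᵐ[μ] 0 := by
  have h3 := (integral_eq_zero_iff_of_nonneg (μ := μ) (f := fun x => p x * p x)
    (fun x => mul_self_nonneg _) (hp.mul hp).int).1 h
  filter_upwards [h3] with x hx
  exact mul_self_eq_zero.1 hx

theorem vanish2 (hT : MeasurePreserving T μ μ) (hfact : FactSet μ T r) (hr : 2 ≤ r) (hs : Spread s)
    (U : Ultrafilter ℕ) (hU : (U : Filter ℕ) ≤ atTop) (R : ℕ → X ≃ᵐ X) (Q Qs : (X → ℝ) → X → ℝ)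
    (W : WD μ T R Q Qs)
    (hinj : ∀ p, Bd p → ∫ x, p x ∂μ = 0 → ∫ x, Q p x * Q p x ∂μ = 0 → ∫ x, p x * p x ∂μ = 0)
    (hS : ∀ f, Bd f → ∫ x, f x ∂μ = 0 →
      Tendsto (fun m => ∫ x, (AA Q Qs)^[2 * m] f x * (AA Q Qs)^[2 * m] f x ∂μ) atTop (𝓝 0))
    (f : Fin r → X → ℝ) (hf : ∀ i, Bd (f i)) (hf0 : ∀ i, ∫ x, f i x ∂μ = 0) (h : X → ℝ) (hh : Bd h) :
    Tendsto (fun n => Ln T s (Fin.last r) μ n f h) U (𝓝 0) := by
  choose P hPb hP using (fun f : BT X r => exP (s := s) (a := Fin.last r) hT U f.2)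
  have bA : ∀ f, Bd f → Bd (AA Q Qs f) := fun f hf => W.bQs _ (W.bQ _ hf)
  have hA0 : ∀ f, Bd f → ∫ x, f x ∂μ = 0 → ∫ x, AA Q Qs f x ∂μ = 0 := fun f hf hf0 =>
    mean0 W.symm (Q f) (W.bQ _ hf) (mean0 W f hf hf0)
  let i0 : Fin r := ⟨0, by omega⟩
  let step : BT X r → BT X r := fun f =>
    ⟨fun i => if i = i0 then f.1 i else AA Q Qs (AA Q Qs (f.1 i)), fun i => by
      show Bd (if i = i0 then f.1 i else AA Q Qs (AA Q Qs (f.1 i)))
      split_ifs
      exacts [f.2 i, bA _ (bA _ (f.2 i))]⟩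
  have hstep0 : ∀ f : BT X r, (∀ i, ∫ x, f.1 i x ∂μ = 0) → ∀ i, ∫ x, (step f).1 i x ∂μ = 0 := by
    intro f hf i
    by_cases hi : i = i0
    · have e : (step f).1 i = f.1 i := if_pos hi
      rw [e]; exact hf i
    · have e : (step f).1 i = AA Q Qs (AA Q Qs (f.1 i)) := if_neg hi
      rw [e]; exact hA0 _ (bA _ (f.2 i)) (hA0 _ (f.2 i) (hf i))
  have hz : ∀ f : BT X r, (∀ i, ∫ x, f.1 i x ∂μ = 0) → ∫ x, P f x ∂μ = 0 := by
    intro f hf
    have t1 := hP f (fun _ => 1) (Bd.const 1)
    have t2 := (F_lim (a := Fin.last r) hT hfact hs f.2).mono_left hU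
    have e1 : ∏ i, ∫ x, f.1 i x ∂μ = 0 := Finset.prod_eq_zero (Finset.mem_univ i0) (hf _)
    rw [e1] at t2
    have t3 : Tendsto (fun n => Ln T s (Fin.last r) μ n f.1 (fun _ => 1)) U (𝓝 0) := by
      refine t2.congr (fun n => ?_)
      unfold Ln
      congr 1
      funext x
      rw [one_mul]
    have e2 := tendsto_nhds_unique t1 t3
    simpa using e2
  have key : ∀ (f : BT X r) (h : X → ℝ), Bd h →
      ∫ x, AA Q Qs h x * P f x ∂μ = ∫ x, AA Q Qs h x * P (step f) x ∂μ := by
    intro f h hh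
    let G : Fin (r + 1) → X → ℝ := Fin.snoc (α := fun _ => X → ℝ) f.1 h
    have G1 : ∀ i : Fin r, G i.castSucc = f.1 i := fun i => by simp [G]
    have G2 : G (Fin.last r) = h := by simp [G]
    have hG : ∀ i, Bd (G i) := by
      intro i
      refine Fin.lastCases ?_ (fun i => ?_) i
      · rw [G2]; exact hh
      · rw [G1]; exact f.2 i
    have hne : ∀ i : Fin r, ¬ i.castSucc = Fin.last r := fun i => (Fin.castSucc_lt_last i).ne
    have t1 : LimG μ T s U (fun i => if i = Fin.last r then AA Q Qs (G i) else G i)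
        (∫ x, AA Q Qs h x * P f x ∂μ) := by
      refine (hP f _ (bA h hh)).congr (fun n => ?_)
      rw [corr_eq (Fin.last r)]
      simp only [Fin.succAbove_last, if_true, if_neg (hne _), G1, G2]
    have t2 := star hT hfact hs U hU R Q Qs W (Fin.last r) i0.castSucc (Fin.castSucc_lt_last i0).ne' G hG _ t1
    have t3 : Tendsto (fun n => Ln T s (Fin.last r) μ n (step f).1 (AA Q Qs h)) U
        (𝓝 (∫ x, AA Q Qs h x * P f x ∂μ)) := by
      refine t2.congr (fun n => ?_)
      rw [corr_eq (Fin.last r)]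
      simp only [Fin.succAbove_last, if_true, if_neg (hne _), G1, G2, Fin.castSucc_inj]
      rfl
    exact tendsto_nhds_unique t3 (hP (step f) _ (bA h hh))
  have hst : ∀ f : BT X r, (∀ i, ∫ x, f.1 i x ∂μ = 0) → P f =ᵐ[μ] P (step f) := by
    intro f hf
    have hp : Bd (fun x => P f x - P (step f) x) := (hPb f).sub (hPb (step f))
    have hp0 : ∫ x, (P f x - P (step f) x) ∂μ = 0 := by
      rw [integral_sub (hPb f).int (hPb (step f)).int, hz f hf, hz (step f) (hstep0 f hf), sub_zero]
    have e1 := key f _ hp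
    have e2 : ∫ x, AA Q Qs (fun x => P f x - P (step f) x) x * (P f x - P (step f) x) ∂μ = 0 := by
      have : ∀ x, AA Q Qs (fun x => P f x - P (step f) x) x * (P f x - P (step f) x) =
          AA Q Qs (fun x => P f x - P (step f) x) x * P f x -
          AA Q Qs (fun x => P f x - P (step f) x) x * P (step f) x := fun x => by ring
      simp_rw [this]
      rw [integral_sub ((bA _ hp).mul (hPb f)).int ((bA _ hp).mul (hPb (step f))).int, e1, sub_self]
    have e3 := W.adj (Q (fun x => P f x - P (step f) x)) (fun x => P f x - P (step f) x) (W.bQ _ hp) hp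
    have e4 : ∫ x, Q (fun x => P f x - P (step f) x) x * Q (fun x => P f x - P (step f) x) x ∂μ = 0 := by
      rw [← e3, ← e2]
      congr 1
      funext x
      unfold AA
      ring
    have e5 := ae_zero hp (hinj _ hp hp0 e4)
    filter_upwards [e5] with x hx
    have : P f x - P (step f) x = 0 := hx
    linarith
  have hUB : ∀ f : BT X r, ∫ x, P f x * P f x ∂μ ≤ be μ f f := by
    intro f
    have h3 := psi_le (a := Fin.last r) hT hfact hs U hU P hP (P f) (hPb f) (Finsupp.single f 1)
    have e1 : psi μ P (P f) (Finsupp.single f 1) = ∫ x, P f x * P f x ∂μ := by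
      unfold psi
      rw [Finsupp.linearCombination_single, one_smul]
    rw [e1, BB_ss] at h3
    linarith
  let f0 : BT X r := ⟨f, hf⟩
  let fm : ℕ → BT X r := fun m => step^[m] f0
  have hfm : ∀ m, fm (m + 1) = step (fm m) := fun m => Function.iterate_succ_apply' _ _ _
  have c1 : ∀ m i, ∫ x, (fm m).1 i x ∂μ = 0 := by
    intro m
    induction m with
    | zero => exact hf0
    | succ m ih =>
      rw [hfm]
      exact hstep0 _ ih
  have c2 : ∀ m, P f0 =ᵐ[μ] P (fm m) := by
    intro m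
    induction m with
    | zero => exact ae_eq_refl _
    | succ m ih =>
      rw [hfm]
      exact ih.trans (hst _ (c1 m))
  have c3 : ∀ m i, (fm m).1 i = if i = i0 then f i else (AA Q Qs)^[2 * m] (f i) := by
    intro m
    induction m with
    | zero =>
      intro i
      simp [fm, f0]
    | succ m ih =>
      intro i
      rw [hfm]
      by_cases hi : i = i0
      · have e : (step (fm m)).1 i = (fm m).1 i := if_pos hi
        rw [e, ih i, if_pos hi, if_pos hi]
      · have e : (step (fm m)).1 i = AA Q Qs (AA Q Qs ((fm m).1 i)) := if_neg hi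
        rw [e, ih i, if_neg hi, if_neg hi, show 2 * (m + 1) = 2 * m + 1 + 1 by ring,
          Function.iterate_succ_apply', Function.iterate_succ_apply']
  have c4 : Tendsto (fun m => be μ (fm m) (fm m)) atTop (𝓝 0) := by
    have t1 : ∀ i : Fin r, Tendsto (fun m => ∫ x, (fm m).1 i x * (fm m).1 i x ∂μ) atTop
        (𝓝 (if i = i0 then ∫ x, f i x * f i x ∂μ else 0)) := by
      intro i
      by_cases hi : i = i0
      · simp only [c3, if_pos hi]
        exact tendsto_const_nhds
      · simp only [c3, if_neg hi]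
        exact hS _ (hf i) (hf0 i)
    have t2 := tendsto_finset_prod Finset.univ (fun i _ => t1 i)
    have e1 : ∏ i : Fin r, (if i = i0 then ∫ x, f i x * f i x ∂μ else 0) = 0 := by
      refine Finset.prod_eq_zero (Finset.mem_univ (⟨1, by omega⟩ : Fin r)) (if_neg ?_)
      intro h
      have := congrArg Fin.val h
      simp [i0] at this
    rw [e1] at t2
    exact t2
  have hA00 : ∫ x, P f0 x * P f0 x ∂μ = 0 := by
    refine le_antisymm (ge_of_tendsto' c4 (fun m => ?_)) (integral_nonneg (fun x => mul_self_nonneg _))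
    refine le_trans (le_of_eq ?_) (hUB (fm m))
    apply integral_congr_ae
    filter_upwards [c2 m] with x hx
    rw [hx]
  have hP0 := ae_zero (hPb f0) hA00
  have t6 := hP f0 h hh
  have e6 : ∫ x, h x * P f0 x ∂μ = 0 := by
    have : (fun x => h x * P f0 x) =ᵐ[μ] fun _ => (0 : ℝ) := by
      filter_upwards [hP0] with x hx
      rw [hx]
      simp
    rw [integral_congr_ae this]
    simp
  rw [e6] at t6
  exact t6

end core

end Pool.H359R3.RL
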