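import Mathlib
import Pool.Agent.H359R3.RL4

set_option autoImplicit false
set_option linter.unusedSectionVars false
set_option linter.unusedVariables false

/-!
Multiple mixing from an injective strict contraction in the weak closure of the centralizer.
-/

namespace Pool.H359R3.RL

open MeasureTheory Filter Topology Pool.Agent.H716R2

section core

variable {X : Type*} [MeasurableSpace X] {μ : Measure X} [IsProbabilityMeasure μ]
variable {T : X ≃ᵐ X}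

theorem exQs (R : ℕ → X ≃ᵐ X) (hR : ∀ l, MeasurePreserving (R l) μ μ)
    (Q : (X → ℝ) → X → ℝ) (hQ : ∀ f, Bd f → Bd (Q f))
    (hQw : ∀ f g, Bd f → Bd g →
      Tendsto (fun l => ∫ x, g x * f (R l x) ∂μ) atTop (𝓝 (∫ x, g x * Q f x ∂μ)))
    (f : X → ℝ) (hf : Bd f) :
    ∃ v : X → ℝ, Bd v ∧ (∀ g, Bd g → ∫ x, g x * v x ∂μ = ∫ x, Q g x * f x ∂μ) ∧
      ∫ x, v x * v x ∂μ ≤ ∫ x, f x * f x ∂μ := by
  obtain ⟨hfm, C, hC⟩ := hf
  have hf : Bd f := ⟨hfm, C, hC⟩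
  let V : Ultrafilter ℕ := hyperfilter ℕ
  have hV : (V : Filter ℕ) ≤ atTop := Nat.hyperfilter_le_atTop
  let y : ℕ → X → ℝ := fun l x => f ((R l).symm x)
  have hy : ∀ n, Measurable (y n) := fun n => hfm.comp (R n).symm.measurable
  have hb : ∀ n x, |y n x| ≤ C := fun n x => hC _
  have hyB : ∀ n, Bd (y n) := fun n => ⟨hy n, C, hb n⟩
  obtain ⟨v, hv1, hv2, hv3⟩ := exists_wlim μ V y hy C hb
  have hv : Bd v := ⟨hv1, C, hv2⟩
  refine ⟨v, hv, fun g hg => ?_, ?_⟩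
  · have t1 := hv3 g hg.1 hg.2
    have t2 := (hQw g f hg hf).mono_left hV
    have e : ∀ l, ∫ x, f x * g (R l x) ∂μ = ∫ x, g x * y l x ∂μ := by
      intro l
      rw [← ic (hR l) (g := fun x => g x * y l x) (hg.1.mul (hy l))]
      congr 1
      funext x
      simp only [y]
      rw [(R l).symm_apply_apply]
      ring
    have e2 := tendsto_nhds_unique t1 (t2.congr e)
    rw [e2]
    congr 1
    funext x
    ring
  · have t1 := hv3 v hv1 ⟨C, hv2⟩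
    have e : ∀ l, ∫ x, v x * y l x ∂μ ≤ (∫ x, v x * v x ∂μ) / 2 + (∫ x, f x * f x ∂μ) / 2 := by
      intro l
      have e3 : ∫ x, y l x * y l x ∂μ = ∫ x, f x * f x ∂μ := by
        rw [← ic (hR l) (g := fun x => y l x * y l x) ((hy l).mul (hy l))]
        congr 1
        funext x
        simp only [y]
        rw [(R l).symm_apply_apply]
      rw [← e3]
      have i1 : Integrable (fun x => v x * v x) μ := (hv.mul hv).int
      have i2 : Integrable (fun x => y l x * y l x) μ := ((hyB l).mul (hyB l)).int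
      calc ∫ x, v x * y l x ∂μ ≤ ∫ x, (v x * v x / 2 + y l x * y l x / 2) ∂μ := by
            refine integral_mono (hv.mul (hyB l)).int ((i1.div_const 2).add (i2.div_const 2)) (fun x => ?_)
            show v x * y l x ≤ v x * v x / 2 + y l x * y l x / 2
            nlinarith [mul_self_nonneg (v x - y l x)]
        _ = _ := by
            rw [integral_add (i1.div_const 2) (i2.div_const 2), integral_div, integral_div]
    have e4 := le_of_tendsto' t1 e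
    linarith

theorem exWD (R : ℕ → X ≃ᵐ X) (hR : ∀ l, MeasurePreserving (R l) μ μ)
    (hc : ∀ l, ∀ᵐ x ∂μ, R l (T x) = T (R l x))
    (Q : (X → ℝ) → X → ℝ) (hQ : ∀ f, Bd f → Bd (Q f))
    (hQw : ∀ f g, Bd f → Bd g →
      Tendsto (fun l => ∫ x, g x * f (R l x) ∂μ) atTop (𝓝 (∫ x, g x * Q f x ∂μ))) :
    ∃ Qs, WD μ T R Q Qs ∧ ∀ u, Bd u → ∫ x, Qs u x * Qs u x ∂μ ≤ ∫ x, u x * u x ∂μ := by
  classical
  choose G hG1 hG2 hG3 using exQs R hR Q hQ hQw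
  let Qs : (X → ℝ) → X → ℝ := fun f => if h : Bd f then G f h else 0
  have hQs : ∀ f (h : Bd f), Qs f = G f h := fun f h => dif_pos h
  refine ⟨Qs, ⟨hR, hc, hQ, ?_, hQw, ?_⟩, ?_⟩
  · intro f hf
    rw [hQs f hf]; exact hG1 f hf
  · intro f g hf hg
    rw [hQs f hf]; exact hG2 f hf g hg
  · intro f hf
    rw [hQs f hf]; exact hG3 f hf

theorem AA_props {R : ℕ → X ≃ᵐ X} {Q Qs : (X → ℝ) → X → ℝ} (W : WD μ T R Q Qs) (m : ℕ) (f : X → ℝ)
    (hf : Bd f) (hf0 : ∫ x, f x ∂μ = 0) :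
    Bd ((AA Q Qs)^[m] f) ∧ ∫ x, (AA Q Qs)^[m] f x ∂μ = 0 := by
  induction m with
  | zero => exact ⟨hf, hf0⟩
  | succ m ih =>
    rw [Function.iterate_succ_apply']
    exact ⟨W.bQs _ (W.bQ _ ih.1), mean0 W.symm _ (W.bQ _ ih.1) (mean0 W _ ih.1 ih.2)⟩

theorem iter_bound {R : ℕ → X ≃ᵐ X} {Q Qs : (X → ℝ) → X → ℝ} (W : WD μ T R Q Qs)
    (hQs : ∀ u, Bd u → ∫ x, Qs u x * Qs u x ∂μ ≤ ∫ x, u x * u x ∂μ) (ρ : ℝ)
    (hup : ∀ f, Bd f → ∫ x, f x ∂μ = 0 → ∫ x, Q f x * Q f x ∂μ ≤ ρ ^ 2 * ∫ x, f x * f x ∂μ)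
    (m : ℕ) (f : X → ℝ) (hf : Bd f) (hf0 : ∫ x, f x ∂μ = 0) :
    ∫ x, (AA Q Qs)^[m] f x * (AA Q Qs)^[m] f x ∂μ ≤ (ρ ^ 2) ^ m * ∫ x, f x * f x ∂μ := by
  induction m with
  | zero => simp
  | succ m ih =>
    obtain ⟨b1, b2⟩ := AA_props W m f hf hf0
    rw [Function.iterate_succ_apply']
    have h1 := hQs _ (W.bQ _ b1)
    have h2 := hup _ b1 b2
    have h3 : ρ ^ 2 * ∫ x, (AA Q Qs)^[m] f x * (AA Q Qs)^[m] f x ∂μ
        ≤ ρ ^ 2 * ((ρ ^ 2) ^ m * ∫ x, f x * f x ∂μ) := mul_le_mul_of_nonneg_left ih (sq_nonneg ρ)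
    have h4 : ρ ^ 2 * ((ρ ^ 2) ^ m * ∫ x, f x * f x ∂μ) = (ρ ^ 2) ^ (m + 1) * ∫ x, f x * f x ∂μ := by ring
    unfold AA at *
    linarith

theorem hS_of {R : ℕ → X ≃ᵐ X} {Q Qs : (X → ℝ) → X → ℝ} (W : WD μ T R Q Qs)
    (hQs : ∀ u, Bd u → ∫ x, Qs u x * Qs u x ∂μ ≤ ∫ x, u x * u x ∂μ) (ρ : ℝ) (hρ0 : 0 ≤ ρ) (hρ : ρ < 1)
    (hup : ∀ f, Bd f → ∫ x, f x ∂μ = 0 → ∫ x, Q f x * Q f x ∂μ ≤ ρ ^ 2 * ∫ x, f x * f x ∂μ)
    (f : X → ℝ) (hf : Bd f) (hf0 : ∫ x, f x ∂μ = 0) :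
    Tendsto (fun m => ∫ x, (AA Q Qs)^[2 * m] f x * (AA Q Qs)^[2 * m] f x ∂μ) atTop (𝓝 0) := by
  have h0 : Tendsto (fun m : ℕ => (ρ ^ 2) ^ m * ∫ x, f x * f x ∂μ) atTop (𝓝 0) := by
    have := (tendsto_pow_atTop_nhds_zero_of_lt_one (sq_nonneg ρ) (by nlinarith : ρ ^ 2 < 1)).mul_const
      (∫ x, f x * f x ∂μ)
    rwa [zero_mul] at this
  have h1 : Tendsto (fun m => ∫ x, (AA Q Qs)^[m] f x * (AA Q Qs)^[m] f x ∂μ) atTop (𝓝 0) :=
    tendsto_of_tendsto_of_tendsto_of_le_of_le tendsto_const_nhds h0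
      (fun m => integral_nonneg (fun x => mul_self_nonneg _))
      (fun m => iter_bound W hQs ρ hup m f hf hf0)
  have h2 : Tendsto (fun m : ℕ => 2 * m) atTop atTop := by
    refine tendsto_atTop_mono (fun m => ?_) tendsto_id
    simp only [id]
    omega
  exact h1.comp h2

theorem fact_step2 {r : ℕ} (hT : MeasurePreserving T μ μ) (hfact : FactSet μ T r) (hr : 2 ≤ r)
    (R : ℕ → X ≃ᵐ X) (Q Qs : (X → ℝ) → X → ℝ) (W : WD μ T R Q Qs)
    (hinj : ∀ p, Bd p → ∫ x, p x ∂μ = 0 → ∫ x, Q p x * Q p x ∂μ = 0 → ∫ x, p x * p x ∂μ = 0)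
    (hS : ∀ f, Bd f → ∫ x, f x ∂μ = 0 →
      Tendsto (fun m => ∫ x, (AA Q Qs)^[2 * m] f x * (AA Q Qs)^[2 * m] f x ∂μ) atTop (𝓝 0)) :
    FactSet μ T (r + 1) := by
  intro s hs A hA
  have hind : ∀ i, RK.Bd ((A i).indicator (fun _ => (1 : ℝ))) := by
    intro i
    refine ⟨measurable_const.indicator (hA i), 1, fun x => ?_⟩
    by_cases hx : x ∈ A i <;> simp [hx]
  have t := RK.centre hT hfact (by omega) hs (fun f hf hf0 h hh => by
    rw [tendsto_iff_ultrafilter]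
    intro U hU
    have h1 := vanish2 (s := s) hT hfact hr hs U hU R Q Qs W hinj hS f hf hf0 h hh
    refine h1.congr (fun n => ?_)
    unfold Ln F RK.Ln RK.F
    simp only [Fin.succAbove_last]) r
    (fun i => (A i).indicator (fun _ => (1 : ℝ))) hind (fun i hi => absurd i.2 (by omega))
  have e1 : ∏ i, ∫ x, (A i).indicator (fun _ => (1 : ℝ)) x ∂μ = ∏ i, μ.real (A i) := by
    apply Finset.prod_congr rfl
    intro i _
    rw [integral_indicator_const _ (hA i)]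
    simp
  rw [e1] at t
  refine t.congr (fun n => ?_)
  have e2 : ∀ x, ∏ i, (A i).indicator (fun _ => (1 : ℝ)) ((⇑T)^[s n i] x)
      = (⋂ i, (⇑T)^[s n i] ⁻¹' A i).indicator (fun _ => (1 : ℝ)) x := fun x =>
    prod_indicator_eq T (s n) A x
  simp_rw [e2]
  rw [integral_indicator_const _ (MeasurableSet.iInter (fun i => (iter_meas T _) (hA i)))]
  simp

theorem main2 {k : ℕ} (hk : 1 ≤ k) (hT : MeasurePreserving T μ μ) (hmix : RK.MixK μ T k)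
    (R : ℕ → X ≃ᵐ X) (hR : ∀ l, MeasurePreserving (R l) μ μ) (hc : ∀ l, ∀ᵐ x ∂μ, R l (T x) = T (R l x))
    (Q : (X → ℝ) → X → ℝ) (hQ : ∀ f, Bd f → Bd (Q f))
    (hQw : ∀ f g, Bd f → Bd g →
      Tendsto (fun l => ∫ x, g x * f (R l x) ∂μ) atTop (𝓝 (∫ x, g x * Q f x ∂μ)))
    (hinj : ∀ p, Bd p → ∫ x, p x ∂μ = 0 → ∫ x, Q p x * Q p x ∂μ = 0 → ∫ x, p x * p x ∂μ = 0)
    (ρ : ℝ) (hρ0 : 0 ≤ ρ) (hρ : ρ < 1)
    (hup : ∀ f, Bd f → ∫ x, f x ∂μ = 0 → ∫ x, Q f x * Q f x ∂μ ≤ ρ ^ 2 * ∫ x, f x * f x ∂μ)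
    (m : ℕ) (hm : k ≤ m) : RK.MixK μ T m := by
  obtain ⟨Qs, W, hQs⟩ := exWD (T := T) R hR hc Q hQ hQw
  apply RK.mixK_of_factSet
  induction m, hm using Nat.le_induction with
  | base => exact RK.factSet_of_mixK hT hmix
  | succ m hm ih =>
    exact fact_step2 hT ih (by omega) R Q Qs W hinj (hS_of W hQs ρ hρ0 hρ hup)

end core

end Pool.H359R3.RL
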