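import Mathlib
import Pool.Agent.H359R3.RL5

set_option autoImplicit false
set_option linter.unusedSectionVars false
set_option linter.unusedVariables false

/-!
The powers of `Q* Q` tend to zero when `Q` strictly contracts bounded functions.
-/

namespace Pool.H359R3.RL

open MeasureTheory Filter Topology Pool.Agent.H716R2

section core

variable {X : Type*} [MeasurableSpace X] {μ : Measure X} [IsProbabilityMeasure μ]
variable {T : X ≃ᵐ X}

theorem WD.contr {R : ℕ → X ≃ᵐ X} {Q Qs : (X → ℝ) → X → ℝ} (W : WD μ T R Q Qs) (f : X → ℝ) (hf : Bd f) :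
    ∫ x, Q f x * Q f x ∂μ ≤ ∫ x, f x * f x ∂μ := by
  have hv := W.bQ f hf
  have t1 := W.w f (Q f) hf hv
  have e : ∀ l, ∫ x, Q f x * f (R l x) ∂μ ≤ (∫ x, Q f x * Q f x ∂μ) / 2 + (∫ x, f x * f x ∂μ) / 2 := by
    intro l
    have hy : Bd (fun x => f (R l x)) := hf.comp (R l).measurable
    have e3 : ∫ x, f (R l x) * f (R l x) ∂μ = ∫ x, f x * f x ∂μ :=
      ic (W.mp l) (g := fun x => f x * f x) (hf.1.mul hf.1)
    rw [← e3]
    have i1 : Integrable (fun x => Q f x * Q f x) μ := (hv.mul hv).int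
    have i2 : Integrable (fun x => f (R l x) * f (R l x)) μ := (hy.mul hy).int
    calc ∫ x, Q f x * f (R l x) ∂μ ≤ ∫ x, (Q f x * Q f x / 2 + f (R l x) * f (R l x) / 2) ∂μ := by
          refine integral_mono (hv.mul hy).int ((i1.div_const 2).add (i2.div_const 2)) (fun x => ?_)
          show Q f x * f (R l x) ≤ Q f x * Q f x / 2 + f (R l x) * f (R l x) / 2
          nlinarith [mul_self_nonneg (Q f x - f (R l x))]
      _ = _ := by
          rw [integral_add (i1.div_const 2) (i2.div_const 2), integral_div, integral_div]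
  have e4 := le_of_tendsto' t1 e
  linarith

/-- truncation -/
noncomputable def clip (C : ℝ) (f : X → ℝ) : X → ℝ := fun x => max (-C) (min C (f x))

theorem clip_meas (C : ℝ) {f : X → ℝ} (hf : Measurable f) : Measurable (clip C f) :=
  measurable_const.max (measurable_const.min hf)

theorem clip_le {C : ℝ} (hC : 0 ≤ C) (f : X → ℝ) (x : X) : |clip C f x| ≤ C := by
  unfold clip
  rw [abs_le]
  exact ⟨le_max_left _ _, max_le (by linarith) (min_le_left _ _)⟩

theorem clip_eq {C : ℝ} {f : X → ℝ} {x : X} (h : |f x| ≤ C) : clip C f x = f x := by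
  unfold clip
  rw [abs_le] at h
  rw [min_eq_right h.2, max_eq_right h.1]

theorem WD.sup {R : ℕ → X ≃ᵐ X} {Q Qs : (X → ℝ) → X → ℝ} (W : WD μ T R Q Qs) {C : ℝ} (hC : 0 ≤ C)
    (f : X → ℝ) (hf : Bd f) (hfC : ∀ᵐ x ∂μ, |f x| ≤ C) : ∀ᵐ x ∂μ, |Q f x| ≤ C := by
  let V : Ultrafilter ℕ := hyperfilter ℕ
  have hV : (V : Filter ℕ) ≤ atTop := Nat.hyperfilter_le_atTop
  obtain ⟨v, hv1, hv2, hv3⟩ := exists_wlim μ V (fun l => clip C (fun x => f (R l x)))
    (fun l => clip_meas C (hf.1.comp (R l).measurable)) C (fun l x => clip_le hC _ x)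
  have hv : Bd v := ⟨hv1, C, hv2⟩
  have hae : ∀ l, clip C (fun x => f (R l x)) =ᵐ[μ] fun x => f (R l x) := by
    intro l
    have h1 := (W.mp l).quasiMeasurePreserving.ae hfC
    filter_upwards [h1] with x hx
    exact clip_eq hx
  have e1 : ∀ g, Bd g → ∫ x, g x * v x ∂μ = ∫ x, g x * Q f x ∂μ := by
    intro g hg
    have t1 := hv3 g hg.1 hg.2
    have t2 := (W.w f g hf hg).mono_left hV
    refine tendsto_nhds_unique t1 (t2.congr (fun l => ?_))
    apply integral_congr_ae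
    filter_upwards [hae l] with x hx
    rw [hx]
  have hd : Bd (fun x => Q f x - v x) := (W.bQ f hf).sub hv
  have e2 := e1 _ hd
  have e3 : ∫ x, (Q f x - v x) * (Q f x - v x) ∂μ = 0 := by
    have : ∀ x, (Q f x - v x) * (Q f x - v x) = (Q f x - v x) * Q f x - (Q f x - v x) * v x := fun x => by ring
    simp_rw [this]
    rw [integral_sub (hd.mul (W.bQ f hf)).int (hd.mul hv).int, e2, sub_self]
  filter_upwards [ae_zero hd e3] with x hx
  have h4 : Q f x - v x = 0 := hx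
  have h5 : Q f x = v x := by linarith
  rw [h5]
  exact hv2 x

theorem hS_strict {R : ℕ → X ≃ᵐ X} {Q Qs : (X → ℝ) → X → ℝ} (W : WD μ T R Q Qs)
    (hstr : ∀ p, Bd p → ∫ x, p x ∂μ = 0 → ∫ x, Q p x * Q p x ∂μ = ∫ x, p x * p x ∂μ →
      ∫ x, p x * p x ∂μ = 0)
    (f : X → ℝ) (hf : Bd f) (hf0 : ∫ x, f x ∂μ = 0) :
    Tendsto (fun m => ∫ x, (AA Q Qs)^[2 * m] f x * (AA Q Qs)^[2 * m] f x ∂μ) atTop (𝓝 0) := by
  let V : Ultrafilter ℕ := hyperfilter ℕ
  have hV : (V : Filter ℕ) ≤ atTop := Nat.hyperfilter_le_atTop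
  let y : ℕ → X → ℝ := fun m => (AA Q Qs)^[m] f
  have hy : ∀ m, Bd (y m) := fun m => (AA_props W m f hf hf0).1
  have hy0 : ∀ m, ∫ x, y m x ∂μ = 0 := fun m => (AA_props W m f hf hf0).2
  have hys : ∀ m, y (m + 1) = AA Q Qs (y m) := fun m => Function.iterate_succ_apply' _ _ _
  have sa : ∀ g h, Bd g → Bd h → ∫ x, g x * AA Q Qs h x ∂μ = ∫ x, Q g x * Q h x ∂μ := by
    intro g h hg hh
    exact W.adj (Q h) g (W.bQ _ hh) hg
  have sa2 : ∀ g h, Bd g → Bd h → ∫ x, g x * AA Q Qs h x ∂μ = ∫ x, h x * AA Q Qs g x ∂μ := by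
    intro g h hg hh
    rw [sa g h hg hh, sa h g hh hg]
    congr 1
    funext x
    ring
  obtain ⟨C0, hC0⟩ := hf.2
  let C : ℝ := |C0|
  have hC : 0 ≤ C := abs_nonneg _
  have hyC : ∀ m, ∀ᵐ x ∂μ, |y m x| ≤ C := by
    intro m
    induction m with
    | zero => exact Eventually.of_forall (fun x => (hC0 x).trans (le_abs_self _))
    | succ m ih =>
      rw [hys]
      exact W.symm.sup hC _ (W.bQ _ (hy m)) (W.sup hC _ (hy m) ih)
  obtain ⟨v, hv1, hv2, hv3⟩ := exists_wlim μ V (fun m => clip C (y m))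
    (fun l => clip_meas C (hy l).1) C (fun l x => clip_le hC _ x)
  have hv : Bd v := ⟨hv1, C, hv2⟩
  have hlim : ∀ g, Bd g → Tendsto (fun n => ∫ x, g x * y n x ∂μ) V (𝓝 (∫ x, g x * v x ∂μ)) := by
    intro g hg
    refine (hv3 g hg.1 hg.2).congr (fun n => ?_)
    apply integral_congr_ae
    filter_upwards [hyC n] with x hx
    rw [clip_eq hx]
  -- the numbers `b (m + n) = ∫ y m * y n`
  let b : ℕ → ℝ := fun k => ∫ x, y 0 x * y k x ∂μ
  have hb : ∀ m n, ∫ x, y m x * y n x ∂μ = b (m + n) := by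
    intro m
    induction m with
    | zero => intro n; simp only [b, Nat.zero_add]
    | succ m ih =>
      intro n
      have h1 : ∫ x, y (m + 1) x * y n x ∂μ = ∫ x, y n x * AA Q Qs (y m) x ∂μ := by
        rw [hys]
        congr 1
        funext x
        ring
      rw [h1, sa2 _ _ (hy n) (hy m), ← hys, ih (n + 1)]
      congr 1
      ring
  have hb2 : ∀ m, b (2 * m) = ∫ x, y m x * y m x ∂μ := by
    intro m
    rw [hb m m]
    congr 1
    ring
  have hb3 : ∀ m, b (2 * m + 1) = ∫ x, Q (y m) x * Q (y m) x ∂μ := by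
    intro m
    rw [← sa _ _ (hy m) (hy m), ← hys, hb m (m + 1)]
    congr 1
    ring
  have hb0 : ∀ k, 0 ≤ b k := by
    intro k
    rcases Nat.even_or_odd' k with ⟨m, rfl | rfl⟩
    · rw [hb2]; exact integral_nonneg (fun x => mul_self_nonneg _)
    · rw [hb3]; exact integral_nonneg (fun x => mul_self_nonneg _)
  have hanti : Antitone b := by
    apply antitone_nat_of_succ_le
    intro k
    rcases Nat.even_or_odd' k with ⟨m, rfl | rfl⟩
    · rw [hb2, hb3]; exact W.contr _ (hy m)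
    · have e : 2 * m + 1 + 1 = 2 * (m + 1) := by ring
      rw [e, hb2, hb3, hys]
      exact W.symm.contr _ (W.bQ _ (hy m))
  have hconv : Tendsto b atTop (𝓝 (⨅ i, b i)) := by
    refine tendsto_atTop_ciInf hanti ⟨0, ?_⟩
    rintro _ ⟨k, rfl⟩
    exact hb0 k
  set a : ℝ := ⨅ i, b i with ha
  have hshift : ∀ m, Tendsto (fun n => b (m + n)) atTop (𝓝 a) := by
    intro m
    have h1 := (tendsto_add_atTop_iff_nat m).2 hconv
    refine h1.congr (fun n => ?_)
    rw [Nat.add_comm]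
  have h1 : ∀ m, ∫ x, y m x * v x ∂μ = a := by
    intro m
    have t1 := hlim (y m) (hy m)
    have t2 := (hshift m).mono_left hV
    refine tendsto_nhds_unique t1 (t2.congr (fun n => ?_))
    exact (hb m n).symm
  have h1' : ∀ m, ∫ x, v x * y m x ∂μ = a := by
    intro m
    rw [← h1 m]
    congr 1
    funext x
    ring
  have h2 : ∫ x, v x * v x ∂μ = a := by
    have t1 := hlim v hv
    refine tendsto_nhds_unique t1 ?_
    refine (tendsto_const_nhds (x := a)).congr (fun n => ?_)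
    exact (h1' n).symm
  have h3 : ∫ x, Q v x * Q v x ∂μ = a := by
    rw [← sa v v hv hv]
    have bAv : Bd (AA Q Qs v) := W.bQs _ (W.bQ _ hv)
    have t1 := hlim (AA Q Qs v) bAv
    have e1 : ∀ n, ∫ x, AA Q Qs v x * y n x ∂μ = a := by
      intro n
      have e2 : ∫ x, AA Q Qs v x * y n x ∂μ = ∫ x, y n x * AA Q Qs v x ∂μ := by
        congr 1
        funext x
        ring
      rw [e2, sa2 _ _ (hy n) hv, ← hys]
      exact h1' (n + 1)
    have t2 : Tendsto (fun n => ∫ x, AA Q Qs v x * y n x ∂μ) V (𝓝 a) := by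
      simp only [e1]
      exact tendsto_const_nhds
    have e3 := tendsto_nhds_unique t1 t2
    rw [← e3]
    congr 1
    funext x
    ring
  have h4 : ∫ x, v x ∂μ = 0 := by
    have t1 := hlim (fun _ => 1) (Bd.const 1)
    have t2 : Tendsto (fun n => ∫ x, (1 : ℝ) * y n x ∂μ) V (𝓝 0) := by
      simp only [one_mul, hy0]
      exact tendsto_const_nhds
    have e3 := tendsto_nhds_unique t1 t2
    simpa using e3
  have h5 : a = 0 := by
    rw [← h2]
    exact hstr v hv h4 (h3.trans h2.symm)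
  rw [h5] at hconv
  have t3 : Tendsto (fun m : ℕ => 2 * (2 * m)) atTop atTop := by
    refine tendsto_atTop_mono (fun m => ?_) tendsto_id
    simp only [id]
    omega
  refine (hconv.comp t3).congr (fun m => ?_)
  exact hb2 (2 * m)

theorem main3 {k : ℕ} (hk : 1 ≤ k) (hT : MeasurePreserving T μ μ) (hmix : RK.MixK μ T k)
    (R : ℕ → X ≃ᵐ X) (hR : ∀ l, MeasurePreserving (R l) μ μ) (hc : ∀ l, ∀ᵐ x ∂μ, R l (T x) = T (R l x))
    (Q : (X → ℝ) → X → ℝ) (hQ : ∀ f, Bd f → Bd (Q f))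
    (hQw : ∀ f g, Bd f → Bd g →
      Tendsto (fun l => ∫ x, g x * f (R l x) ∂μ) atTop (𝓝 (∫ x, g x * Q f x ∂μ)))
    (hinj : ∀ p, Bd p → ∫ x, p x ∂μ = 0 → ∫ x, Q p x * Q p x ∂μ = 0 → ∫ x, p x * p x ∂μ = 0)
    (hstr : ∀ p, Bd p → ∫ x, p x ∂μ = 0 → ∫ x, Q p x * Q p x ∂μ = ∫ x, p x * p x ∂μ →
      ∫ x, p x * p x ∂μ = 0)
    (m : ℕ) (hm : k ≤ m) : RK.MixK μ T m := by
  obtain ⟨Qs, W, hQs⟩ := exWD (T := T) R hR hc Q hQ hQw
  apply RK.mixK_of_factSet
  induction m, hm using Nat.le_induction with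
  | base => exact RK.factSet_of_mixK hT hmix
  | succ m hm ih =>
    exact fact_step2 hT ih (by omega) R Q Qs W hinj (hS_strict W hstr)

end core

end Pool.H359R3.RL
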