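import Mathlib
import Pool.Agent.H359R3.RL6

set_option autoImplicit false
set_option linter.unusedSectionVars false
set_option linter.unusedVariables false

/-!
Local version: vanishing of the correlations of functions orthogonal to the kernel, respectively to
the isometric part, of a weak limit of commuting automorphisms.
-/

namespace Pool.H359R3.RL

open MeasureTheory Filter Topology Pool.Agent.H716R2

section core

variable {X : Type*} [MeasurableSpace X] {μ : Measure X} [IsProbabilityMeasure μ]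
variable {T : X ≃ᵐ X}

theorem hS_loc {R : ℕ → X ≃ᵐ X} {Q Qs : (X → ℝ) → X → ℝ} (W : WD μ T R Q Qs)
    (f : X → ℝ) (hf : Bd f) (hf0 : ∫ x, f x ∂μ = 0)
    (hstr : ∀ p, Bd p → ∫ x, p x ∂μ = 0 → ∫ x, Q p x * Q p x ∂μ = ∫ x, p x * p x ∂μ →
      ∫ x, f x * p x ∂μ = 0) :
    Tendsto (fun m => ∫ x, (AA Q Qs)^[2 * m] f x * (AA Q Qs)^[2 * m] f x ∂μ) atTop (𝓝 0) := by
  let V : Ultrafilter ℕ := hyperfilter ℕ
  have hV : (V : Filter ℕ) ≤ atTop := Nat.hyperfilter_le_atTop
  let y : ℕ → X → ℝ := fun m => (AA Q Qs)^[m] f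
  have hy : ∀ m, Bd (y m) := fun m => (AA_props W m f hf hf0).1
  have hy0 : ∀ m, ∫ x, y m x ∂μ = 0 := fun m => (AA_props W m f hf hf0).2
  have hys : ∀ m, y (m + 1) = AA Q Qs (y m) := fun m => Function.iterate_succ_apply' _ _ _
  have sa : ∀ g h, Bd g → Bd h → ∫ x, g x * AA Q Qs h x ∂μ = ∫ x, Q g x * Q h x ∂μ := by
    intro g h hg hh
    exact W.adj (Q h) g (W.bQ _ hh) hg
  have sa2 : ∀ g h, Bd g → Bd h → ∫ x, g x * AA Q Qs h x ∂μ = ∫ x, h x * AA Q Qs g x ∂μ := by
    intro g h hg hh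
    rw [sa g h hg hh, sa h g hh hg]
    congr 1
    funext x
    ring
  obtain ⟨C0, hC0⟩ := hf.2
  let C : ℝ := |C0|
  have hC : 0 ≤ C := abs_nonneg _
  have hyC : ∀ m, ∀ᵐ x ∂μ, |y m x| ≤ C := by
    intro m
    induction m with
    | zero => exact Eventually.of_forall (fun x => (hC0 x).trans (le_abs_self _))
    | succ m ih =>
      rw [hys]
      exact W.symm.sup hC _ (W.bQ _ (hy m)) (W.sup hC _ (hy m) ih)
  obtain ⟨v, hv1, hv2, hv3⟩ := exists_wlim μ V (fun m => clip C (y m))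
    (fun l => clip_meas C (hy l).1) C (fun l x => clip_le hC _ x)
  have hv : Bd v := ⟨hv1, C, hv2⟩
  have hlim : ∀ g, Bd g → Tendsto (fun n => ∫ x, g x * y n x ∂μ) V (𝓝 (∫ x, g x * v x ∂μ)) := by
    intro g hg
    refine (hv3 g hg.1 hg.2).congr (fun n => ?_)
    apply integral_congr_ae
    filter_upwards [hyC n] with x hx
    rw [clip_eq hx]
  -- the numbers `b (m + n) = ∫ y m * y n`
  let b : ℕ → ℝ := fun k => ∫ x, y 0 x * y k x ∂μ
  have hb : ∀ m n, ∫ x, y m x * y n x ∂μ = b (m + n) := by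
    intro m
    induction m with
    | zero => intro n; simp only [b, Nat.zero_add]
    | succ m ih =>
      intro n
      have h1 : ∫ x, y (m + 1) x * y n x ∂μ = ∫ x, y n x * AA Q Qs (y m) x ∂μ := by
        rw [hys]
        congr 1
        funext x
        ring
      rw [h1, sa2 _ _ (hy n) (hy m), ← hys, ih (n + 1)]
      congr 1
      ring
  have hb2 : ∀ m, b (2 * m) = ∫ x, y m x * y m x ∂μ := by
    intro m
    rw [hb m m]
    congr 1
    ring
  have hb3 : ∀ m, b (2 * m + 1) = ∫ x, Q (y m) x * Q (y m) x ∂μ := by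
    intro m
    rw [← sa _ _ (hy m) (hy m), ← hys, hb m (m + 1)]
    congr 1
    ring
  have hb0 : ∀ k, 0 ≤ b k := by
    intro k
    rcases Nat.even_or_odd' k with ⟨m, rfl | rfl⟩
    · rw [hb2]; exact integral_nonneg (fun x => mul_self_nonneg _)
    · rw [hb3]; exact integral_nonneg (fun x => mul_self_nonneg _)
  have hanti : Antitone b := by
    apply antitone_nat_of_succ_le
    intro k
    rcases Nat.even_or_odd' k with ⟨m, rfl | rfl⟩
    · rw [hb2, hb3]; exact W.contr _ (hy m)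
    · have e : 2 * m + 1 + 1 = 2 * (m + 1) := by ring
      rw [e, hb2, hb3, hys]
      exact W.symm.contr _ (W.bQ _ (hy m))
  have hconv : Tendsto b atTop (𝓝 (⨅ i, b i)) := by
    refine tendsto_atTop_ciInf hanti ⟨0, ?_⟩
    rintro _ ⟨k, rfl⟩
    exact hb0 k
  set a : ℝ := ⨅ i, b i with ha
  have hshift : ∀ m, Tendsto (fun n => b (m + n)) atTop (𝓝 a) := by
    intro m
    have h1 := (tendsto_add_atTop_iff_nat m).2 hconv
    refine h1.congr (fun n => ?_)
    rw [Nat.add_comm]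
  have h1 : ∀ m, ∫ x, y m x * v x ∂μ = a := by
    intro m
    have t1 := hlim (y m) (hy m)
    have t2 := (hshift m).mono_left hV
    refine tendsto_nhds_unique t1 (t2.congr (fun n => ?_))
    exact (hb m n).symm
  have h1' : ∀ m, ∫ x, v x * y m x ∂μ = a := by
    intro m
    rw [← h1 m]
    congr 1
    funext x
    ring
  have h2 : ∫ x, v x * v x ∂μ = a := by
    have t1 := hlim v hv
    refine tendsto_nhds_unique t1 ?_
    refine (tendsto_const_nhds (x := a)).congr (fun n => ?_)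
    exact (h1' n).symm
  have h3 : ∫ x, Q v x * Q v x ∂μ = a := by
    rw [← sa v v hv hv]
    have bAv : Bd (AA Q Qs v) := W.bQs _ (W.bQ _ hv)
    have t1 := hlim (AA Q Qs v) bAv
    have e1 : ∀ n, ∫ x, AA Q Qs v x * y n x ∂μ = a := by
      intro n
      have e2 : ∫ x, AA Q Qs v x * y n x ∂μ = ∫ x, y n x * AA Q Qs v x ∂μ := by
        congr 1
        funext x
        ring
      rw [e2, sa2 _ _ (hy n) hv, ← hys]
      exact h1' (n + 1)
    have t2 : Tendsto (fun n => ∫ x, AA Q Qs v x * y n x ∂μ) V (𝓝 a) := by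
      simp only [e1]
      exact tendsto_const_nhds
    have e3 := tendsto_nhds_unique t1 t2
    rw [← e3]
    congr 1
    funext x
    ring
  have h4 : ∫ x, v x ∂μ = 0 := by
    have t1 := hlim (fun _ => 1) (Bd.const 1)
    have t2 : Tendsto (fun n => ∫ x, (1 : ℝ) * y n x ∂μ) V (𝓝 0) := by
      simp only [one_mul, hy0]
      exact tendsto_const_nhds
    have e3 := tendsto_nhds_unique t1 t2
    simpa using e3
  have h5 : a = 0 := by
    rw [← h1 0]
    exact hstr v hv h4 (h3.trans h2.symm)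
  rw [h5] at hconv
  have t3 : Tendsto (fun m : ℕ => 2 * (2 * m)) atTop atTop := by
    refine tendsto_atTop_mono (fun m => ?_) tendsto_id
    simp only [id]
    omega
  refine (hconv.comp t3).congr (fun m => ?_)
  exact hb2 (2 * m)


theorem vanish3 {r : ℕ} {s : ℕ → Fin (r + 1) → ℕ} (hT : MeasurePreserving T μ μ) (hfact : FactSet μ T r)
    (hs : Spread s) (U : Ultrafilter ℕ) (hU : (U : Filter ℕ) ≤ atTop) (R : ℕ → X ≃ᵐ X)
    (Q Qs : (X → ℝ) → X → ℝ) (W : WD μ T R Q Qs) (a : Fin (r + 1)) (b c : Fin r) (hcb : c ≠ b)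
    (f : Fin r → X → ℝ) (hf : ∀ i, Bd (f i)) (hf0 : ∀ i, ∫ x, f i x ∂μ = 0)
    (hS : Tendsto (fun m => ∫ x, (AA Q Qs)^[2 * m] (f c) x * (AA Q Qs)^[2 * m] (f c) x ∂μ) atTop (𝓝 0))
    (h : X → ℝ) (hh : Bd h)
    (hker : ∀ p, Bd p → ∫ x, p x ∂μ = 0 → ∫ x, Q p x * Q p x ∂μ = 0 → ∫ x, h x * p x ∂μ = 0) :
    Tendsto (fun n => Ln T s a μ n f h) U (𝓝 0) := by
  choose P hPb hP using (fun f : BT X r => exP (s := s) (a := a) hT U f.2)
  have bA : ∀ f, Bd f → Bd (AA Q Qs f) := fun f hf => W.bQs _ (W.bQ _ hf)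
  have hA0 : ∀ f, Bd f → ∫ x, f x ∂μ = 0 → ∫ x, AA Q Qs f x ∂μ = 0 := fun f hf hf0 =>
    mean0 W.symm (Q f) (W.bQ _ hf) (mean0 W f hf hf0)
  have hAc : ∀ f, Bd f → ∫ x, AA Q Qs f x * AA Q Qs f x ∂μ ≤ ∫ x, f x * f x ∂μ := fun f hf =>
    (W.symm.contr _ (W.bQ _ hf)).trans (W.contr _ hf)
  let step : BT X r → BT X r := fun f =>
    ⟨fun i => if i = b then f.1 i else AA Q Qs (AA Q Qs (f.1 i)), fun i => by
      show Bd (if i = b then f.1 i else AA Q Qs (AA Q Qs (f.1 i)))
      split_ifs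
      exacts [f.2 i, bA _ (bA _ (f.2 i))]⟩
  have hstepb : ∀ (f : BT X r) (i : Fin r), i = b → (step f).1 i = f.1 i := fun f i hi => if_pos hi
  have hstepn : ∀ (f : BT X r) (i : Fin r), ¬ i = b → (step f).1 i = AA Q Qs (AA Q Qs (f.1 i)) :=
    fun f i hi => if_neg hi
  have hstep0 : ∀ f : BT X r, (∀ i, ∫ x, f.1 i x ∂μ = 0) → ∀ i, ∫ x, (step f).1 i x ∂μ = 0 := by
    intro f hf i
    by_cases hi : i = b
    · rw [hstepb f i hi]; exact hf i
    · rw [hstepn f i hi]; exact hA0 _ (bA _ (f.2 i)) (hA0 _ (f.2 i) (hf i))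
  have hz : ∀ f : BT X r, (∀ i, ∫ x, f.1 i x ∂μ = 0) → ∫ x, P f x ∂μ = 0 := by
    intro f hf
    have t1 := hP f (fun _ => 1) (Bd.const 1)
    have t2 := (F_lim (a := a) hT hfact hs f.2).mono_left hU
    have e1 : ∏ i, ∫ x, f.1 i x ∂μ = 0 := Finset.prod_eq_zero (Finset.mem_univ b) (hf _)
    rw [e1] at t2
    have t3 : Tendsto (fun n => Ln T s a μ n f.1 (fun _ => 1)) U (𝓝 0) := by
      refine t2.congr (fun n => ?_)
      unfold Ln
      congr 1
      funext x
      rw [one_mul]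
    have e2 := tendsto_nhds_unique t1 t3
    simpa using e2
  have key : ∀ (f : BT X r) (h : X → ℝ), Bd h →
      ∫ x, AA Q Qs h x * P f x ∂μ = ∫ x, AA Q Qs h x * P (step f) x ∂μ := by
    intro f h hh
    let G : Fin (r + 1) → X → ℝ := Fin.insertNth (α := fun _ => X → ℝ) a h f.1
    have G1 : ∀ i : Fin r, G (a.succAbove i) = f.1 i := fun i => by simp [G]
    have G2 : G a = h := by simp [G]
    have hG : ∀ i, Bd (G i) := by
      intro i
      rcases Fin.eq_self_or_eq_succAbove a i with h1 | ⟨j, h1⟩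
      · rw [h1, G2]; exact hh
      · rw [h1, G1]; exact f.2 j
    have hne : ∀ i : Fin r, ¬ a.succAbove i = a := fun i => Fin.succAbove_ne a i
    have hbe : ∀ i : Fin r, (a.succAbove i = a.succAbove b) = (i = b) := fun i => by
      rw [Fin.succAbove_right_inj]
    have t1 : LimG μ T s U (fun i => if i = a then AA Q Qs (G i) else G i)
        (∫ x, AA Q Qs h x * P f x ∂μ) := by
      refine (hP f _ (bA h hh)).congr (fun n => ?_)
      rw [corr_eq a]
      simp only [if_true, if_neg (hne _), G1, G2]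
    have t2 := star hT hfact hs U hU R Q Qs W a (a.succAbove b) (Fin.succAbove_ne a b).symm G hG _ t1
    have t3 : Tendsto (fun n => Ln T s a μ n (step f).1 (AA Q Qs h)) U
        (𝓝 (∫ x, AA Q Qs h x * P f x ∂μ)) := by
      refine t2.congr (fun n => ?_)
      rw [corr_eq a]
      simp only [if_true, if_neg (hne _), G1, G2, hbe]
      rfl
    exact tendsto_nhds_unique t3 (hP (step f) _ (bA h hh))
  have hst : ∀ f : BT X r, (∀ i, ∫ x, f.1 i x ∂μ = 0) →
      ∫ x, h x * P f x ∂μ = ∫ x, h x * P (step f) x ∂μ := by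
    intro f hf
    have hp : Bd (fun x => P f x - P (step f) x) := (hPb f).sub (hPb (step f))
    have hp0 : ∫ x, (P f x - P (step f) x) ∂μ = 0 := by
      rw [integral_sub (hPb f).int (hPb (step f)).int, hz f hf, hz (step f) (hstep0 f hf), sub_zero]
    have e1 := key f _ hp
    have e2 : ∫ x, AA Q Qs (fun x => P f x - P (step f) x) x * (P f x - P (step f) x) ∂μ = 0 := by
      have : ∀ x, AA Q Qs (fun x => P f x - P (step f) x) x * (P f x - P (step f) x) =
          AA Q Qs (fun x => P f x - P (step f) x) x * P f x -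
          AA Q Qs (fun x => P f x - P (step f) x) x * P (step f) x := fun x => by ring
      simp_rw [this]
      rw [integral_sub ((bA _ hp).mul (hPb f)).int ((bA _ hp).mul (hPb (step f))).int, e1, sub_self]
    have e3 := W.adj (Q (fun x => P f x - P (step f) x)) (fun x => P f x - P (step f) x) (W.bQ _ hp) hp
    have e4 : ∫ x, Q (fun x => P f x - P (step f) x) x * Q (fun x => P f x - P (step f) x) x ∂μ = 0 := by
      rw [← e3, ← e2]
      congr 1
      funext x
      unfold AA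
      ring
    have e5 := hker _ hp hp0 e4
    have e6 : ∀ x, h x * (P f x - P (step f) x) = h x * P f x - h x * P (step f) x := fun x => by ring
    simp_rw [e6] at e5
    rw [integral_sub (hh.mul (hPb f)).int (hh.mul (hPb (step f))).int] at e5
    linarith
  have hq : ∀ (f : BT X r) (t : ℝ),
      t * ∫ x, h x * P f x ∂μ ≤ t * t * be μ f f / 2 + (∫ x, h x * h x ∂μ) / 2 := by
    intro f t
    have h3 := psi_le (a := a) hT hfact hs U hU P hP h hh (Finsupp.single f t)
    have e0 : (Finsupp.single f t : BT X r →₀ ℝ) = t • Finsupp.single f (1 : ℝ) := by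
      rw [Finsupp.smul_single, smul_eq_mul, mul_one]
    have e1 : psi μ P h (Finsupp.single f t) = t * ∫ x, h x * P f x ∂μ := by
      unfold psi
      rw [Finsupp.linearCombination_single, smul_eq_mul]
    have e2 : BB μ r (Finsupp.single f t) (Finsupp.single f t) = t * t * be μ f f := by
      rw [e0]
      simp only [map_smul, LinearMap.smul_apply, BB_ss, smul_eq_mul]
      ring
    rw [e1, e2] at h3
    exact h3
  let f0 : BT X r := ⟨f, hf⟩
  let fm : ℕ → BT X r := fun m => step^[m] f0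
  have hfm : ∀ m, fm (m + 1) = step (fm m) := fun m => Function.iterate_succ_apply' _ _ _
  have c1 : ∀ m i, ∫ x, (fm m).1 i x ∂μ = 0 := by
    intro m
    induction m with
    | zero => exact hf0
    | succ m ih =>
      rw [hfm]
      exact hstep0 _ ih
  have c2 : ∀ m, ∫ x, h x * P f0 x ∂μ = ∫ x, h x * P (fm m) x ∂μ := by
    intro m
    induction m with
    | zero => rfl
    | succ m ih =>
      rw [hfm]
      exact ih.trans (hst _ (c1 m))
  have c3 : ∀ m, (fm m).1 c = (AA Q Qs)^[2 * m] (f c) := by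
    intro m
    induction m with
    | zero => rfl
    | succ m ih =>
      rw [hfm, hstepn _ _ hcb, ih, show 2 * (m + 1) = 2 * m + 1 + 1 by ring,
        Function.iterate_succ_apply', Function.iterate_succ_apply']
  have c5 : ∀ m i, ∫ x, (fm m).1 i x * (fm m).1 i x ∂μ ≤ ∫ x, f i x * f i x ∂μ := by
    intro m
    induction m with
    | zero => exact fun i => le_refl _
    | succ m ih =>
      intro i
      rw [hfm]
      by_cases hi : i = b
      · rw [hstepb _ _ hi]; exact ih i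
      · rw [hstepn _ _ hi]
        exact ((hAc _ (bA _ ((fm m).2 i))).trans (hAc _ ((fm m).2 i))).trans (ih i)
  have c4 : Tendsto (fun m => be μ (fm m) (fm m)) atTop (𝓝 0) := by
    have t1 : Tendsto (fun m => (∫ x, (fm m).1 c x * (fm m).1 c x ∂μ) *
        ∏ i ∈ Finset.univ.erase c, ∫ x, f i x * f i x ∂μ) atTop (𝓝 0) := by
      have := hS.mul_const (∏ i ∈ Finset.univ.erase c, ∫ x, f i x * f i x ∂μ)
      rw [zero_mul] at this
      refine this.congr (fun m => ?_)
      rw [c3]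
    refine tendsto_of_tendsto_of_tendsto_of_le_of_le tendsto_const_nhds t1
      (fun m => be_nonneg _) (fun m => ?_)
    show be μ (fm m) (fm m) ≤ _
    unfold be
    rw [← Finset.mul_prod_erase Finset.univ _ (Finset.mem_univ c)]
    refine mul_le_mul_of_nonneg_left ?_ (integral_nonneg (fun x => mul_self_nonneg _))
    exact Finset.prod_le_prod (fun i _ => integral_nonneg (fun x => mul_self_nonneg _)) (fun i _ => c5 m i)
  have hL : ∀ t : ℝ, t * ∫ x, h x * P f0 x ∂μ ≤ (∫ x, h x * h x ∂μ) / 2 := by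
    intro t
    have t1 : Tendsto (fun m => t * t * be μ (fm m) (fm m) / 2 + (∫ x, h x * h x ∂μ) / 2) atTop
        (𝓝 (t * t * 0 / 2 + (∫ x, h x * h x ∂μ) / 2)) :=
      (((c4.const_mul (t * t)).div_const 2).add_const _)
    have t2 := ge_of_tendsto' t1 (fun m => (c2 m ▸ hq (fm m) t :
      t * ∫ x, h x * P f0 x ∂μ ≤ t * t * be μ (fm m) (fm m) / 2 + (∫ x, h x * h x ∂μ) / 2))
    linarith
  have hL0 : ∫ x, h x * P f0 x ∂μ = 0 := by
    by_contra hne
    have h1 := hL ((∫ x, h x * h x ∂μ + 1) / ∫ x, h x * P f0 x ∂μ)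
    rw [div_mul_cancel₀ _ hne] at h1
    have h2 : 0 ≤ ∫ x, h x * h x ∂μ := integral_nonneg (fun x => mul_self_nonneg _)
    linarith
  have t6 := hP f0 h hh
  rw [hL0] at t6
  exact t6

theorem localThm {k : ℕ} (hk : 1 ≤ k) (hT : MeasurePreserving T μ μ) (hmix : RK.MixK μ T k)
    (R : ℕ → X ≃ᵐ X) (hR : ∀ l, MeasurePreserving (R l) μ μ) (hc : ∀ l, ∀ᵐ x ∂μ, R l (T x) = T (R l x))
    (Q : (X → ℝ) → X → ℝ) (hQ : ∀ f, Bd f → Bd (Q f))
    (hQw : ∀ f g, Bd f → Bd g →
      Tendsto (fun l => ∫ x, g x * f (R l x) ∂μ) atTop (𝓝 (∫ x, g x * Q f x ∂μ)))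
    (f : Fin (k + 2) → X → ℝ) (hf : ∀ i, Bd (f i)) (hf0 : ∀ i, ∫ x, f i x ∂μ = 0)
    (a c : Fin (k + 2)) (hac : a ≠ c)
    (hfa : ∀ p, Bd p → ∫ x, p x ∂μ = 0 → ∫ x, Q p x * Q p x ∂μ = 0 → ∫ x, f a x * p x ∂μ = 0)
    (hfc : ∀ p, Bd p → ∫ x, p x ∂μ = 0 → ∫ x, Q p x * Q p x ∂μ = ∫ x, p x * p x ∂μ →
      ∫ x, f c x * p x ∂μ = 0) (ε : ℝ) (hε : 0 < ε) :
    ∃ N : ℕ, ∀ t : Fin (k + 2) → ℕ, (∀ i j, i < j → t i + N ≤ t j) →
      |∫ x, ∏ i, f i ((⇑T)^[t i] x) ∂μ| < ε := by
  obtain ⟨Qs, W, hQs⟩ := exWD (T := T) R hR hc Q hQ hQw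
  have hfact : FactSet μ T (k + 1) := RK.factSet_of_mixK hT hmix
  by_contra hcon
  push Not at hcon
  choose s hs1 hs2 using hcon
  have hs : Spread s := by
    intro N
    filter_upwards [eventually_ge_atTop N] with n hn i j hij
    have := hs1 n i j hij
    omega
  obtain ⟨c', hc'⟩ := Fin.exists_succAbove_eq hac.symm
  obtain ⟨b', hb'⟩ : ∃ b' : Fin (k + 1), c' ≠ b' := by
    have : Nontrivial (Fin (k + 1)) := Fin.nontrivial_iff_two_le.2 (by omega)
    obtain ⟨b', hb'⟩ := exists_ne c'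
    exact ⟨b', hb'.symm⟩
  have t : Tendsto (fun n => ∫ x, ∏ i, f i ((⇑T)^[s n i] x) ∂μ) atTop (𝓝 0) := by
    rw [tendsto_iff_ultrafilter]
    intro U hU
    refine (vanish3 (s := s) hT hfact hs U hU R Q Qs W a b' c' hb' (fun i => f (a.succAbove i))
      (fun i => hf _) (fun i => hf0 _) ?_ (f a) (hf a) hfa).congr (fun n => (corr_eq a f n).symm)
    rw [hc']
    exact hS_loc W (f c) (hf c) (hf0 c) hfc
  have h1 := Metric.tendsto_nhds.1 t ε hε
  obtain ⟨n, hn⟩ := h1.exists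
  rw [dist_zero_right, Real.norm_eq_abs] at hn
  exact absurd hn (not_lt.2 (hs2 n))

end core

end Pool.H359R3.RL
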