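import Pool.Agent.H359R3.MS

set_option autoImplicit false

namespace Pool.H359R3

open MeasureTheory Set Filter Topology
open scoped ENNReal symmDiff

/-- point realization: an almost everywhere injective measure preserving map is almost everywhere
equal to a Borel automorphism of the line. -/
theorem realize (T : ℝ → ℝ) (hT : Measurable T) (hmp : MeasurePreserving T lam lam)
    (X : Set ℝ) (hX : MeasurableSet X) (hX1 : lam Xᶜ = 0) (hinj : InjOn T X) :
    ∃ e : Aut, ∀ᵐ x ∂lam, e.1 x = T x := by
  classical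
  let X1 : Set ℝ := X ∩ (Icc (0:ℝ) 1) ∩ T ⁻¹' (Icc (0:ℝ) 1)
  have hX1m : MeasurableSet X1 := (hX.inter measurableSet_Icc).inter (hT measurableSet_Icc)
  have hI : lam (Icc (0:ℝ) 1)ᶜ = 0 := by
    rw [Measure.restrict_apply measurableSet_Icc.compl]
    simp
  have hX1c : lam X1ᶜ = 0 := by
    have : X1ᶜ ⊆ Xᶜ ∪ (Icc (0:ℝ) 1)ᶜ ∪ T ⁻¹' (Icc (0:ℝ) 1)ᶜ := by
      intro x hx
      by_contra h
      apply hx
      simp only [mem_union, mem_compl_iff, not_or, not_not, mem_preimage] at h
      exact ⟨⟨h.1.1, h.1.2⟩, h.2⟩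
    refine measure_mono_null this ?_
    rw [measure_union_null_iff, measure_union_null_iff]
    refine ⟨⟨hX1, hI⟩, ?_⟩
    rw [hmp.measure_preimage measurableSet_Icc.compl.nullMeasurableSet]
    exact hI
  let f : X1 → ℝ := fun x => T x
  have hf : Measurable f := hT.comp measurable_subtype_coe
  have hfi : Function.Injective f := by
    intro x y h
    exact Subtype.ext (hinj x.2.1.1 y.2.1.1 h)
  have : StandardBorelSpace X1 := hX1m.standardBorel
  have hemb : MeasurableEmbedding f := hf.measurableEmbedding hfi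
  have hY1m : MeasurableSet (range f) := hemb.measurableSet_range
  have : StandardBorelSpace ((X1)ᶜ : Set ℝ) := hX1m.compl.standardBorel
  have : StandardBorelSpace ((range f)ᶜ : Set ℝ) := hY1m.compl.standardBorel
  have hbig : ∀ Z : Set ℝ, Z ⊆ Icc (0:ℝ) 1 → ¬ Countable (Zᶜ : Set ℝ) := by
    intro Z hZ hc
    have h1 : (Zᶜ : Set ℝ).Countable := hc
    have h2 : (Ioo (1:ℝ) 2).Countable := h1.mono (by
      intro x hx
      rw [mem_compl_iff]
      intro h
      have := hZ h
      have h3 := hx.1
      have h4 := this.2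
      linarith)
    exact absurd h2 (by
      intro h
      have := h.measure_zero (volume : Measure ℝ)
      rw [Real.volume_Ioo] at this
      norm_num at this)
  have hn1 : ¬ Countable ((X1)ᶜ : Set ℝ) := hbig X1 (fun x hx => hx.1.2)
  have hn2 : ¬ Countable ((range f)ᶜ : Set ℝ) := hbig (range f) (by
    rintro _ ⟨x, rfl⟩
    exact x.2.2)
  let e1 : X1 ≃ᵐ range f :=
    { toEquiv := Equiv.ofInjective f hfi
      measurable_toFun := hf.subtype_mk
      measurable_invFun := by
        intro u hu
        have h1 : (Equiv.ofInjective f hfi).symm ⁻¹' u = Subtype.val ⁻¹' (f '' u) := by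
          ext y
          constructor
          · intro hy
            refine ⟨_, hy, ?_⟩
            exact Equiv.apply_ofInjective_symm hfi y
          · rintro ⟨x, hx, hxy⟩
            have : y = Equiv.ofInjective f hfi x := Subtype.ext hxy.symm
            rw [this]
            simpa using hx
        show MeasurableSet ((Equiv.ofInjective f hfi).symm ⁻¹' u)
        rw [h1]
        exact measurable_subtype_coe (hemb.measurableSet_image' hu) }
  let e2 : ((X1)ᶜ : Set ℝ) ≃ᵐ ((range f)ᶜ : Set ℝ) :=
    PolishSpace.measurableEquivOfNotCountable hn1 hn2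
  let e : ℝ ≃ᵐ ℝ := (MeasurableEquiv.sumCompl hX1m).symm.trans
    ((MeasurableEquiv.sumCongr e1 e2).trans (MeasurableEquiv.sumCompl hY1m))
  have he : ∀ x ∈ X1, e x = T x := by
    intro x hx
    show (MeasurableEquiv.sumCompl hY1m) ((MeasurableEquiv.sumCongr e1 e2)
      ((MeasurableEquiv.sumCompl hX1m).symm x)) = T x
    have h1 : (MeasurableEquiv.sumCompl hX1m).symm x = Sum.inl ⟨x, hx⟩ := by
      rw [MeasurableEquiv.symm_apply_eq]
      rfl
    rw [h1]
    rfl
  have hae : ∀ᵐ x ∂lam, e x = T x := by
    rw [ae_iff]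
    refine measure_mono_null (fun x hx => ?_) hX1c
    intro hx1
    exact hx (he x hx1)
  refine ⟨⟨e, e.measurable, ?_⟩, hae⟩
  rw [Measure.map_congr hae]
  exact hmp.map_eq

theorem Aut.symm_mp (T : Aut) : MeasurePreserving (⇑T.1.symm) lam lam :=
  MeasurePreserving.symm T.1 T.2

end Pool.H359R3
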