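import Pool.Agent.H359R3.Real

set_option autoImplicit false

namespace Pool.H359R3

open MeasureTheory Set Filter Topology
open scoped ENNReal symmDiff

theorem real_not_countable : ¬ Countable ℝ := by
  intro h
  exact Cardinal.not_countable_real (Set.countable_univ_iff.2 h)

noncomputable def e0 : ℝ ≃ᵐ (ℕ → Bool) :=
  PolishSpace.measurableEquivNatBoolOfNotCountable real_not_countable

def AA (i : ℕ) : Set ℝ := {x | e0 x i = true}

theorem AA_meas (i : ℕ) : MeasurableSet (AA i) :=
  ((measurable_pi_apply i).comp e0.measurable) (measurableSet_singleton true)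

theorem AA_gen : (inferInstance : MeasurableSpace ℝ) = MeasurableSpace.generateFrom (range AA) := by
  apply le_antisymm
  · intro s hs
    have h1 : @Measurable ℝ (ℕ → Bool) (MeasurableSpace.generateFrom (range AA)) _ e0 := by
      apply @measurable_pi_lambda ℝ ℕ (fun _ => Bool) (MeasurableSpace.generateFrom (range AA)) _ e0
      intro i
      apply @measurable_to_bool ℝ (MeasurableSpace.generateFrom (range AA))
      exact MeasurableSpace.measurableSet_generateFrom ⟨i, rfl⟩
    have h2 : s = e0 ⁻¹' (e0.symm ⁻¹' s) := by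
      ext x; simp
    rw [h2]
    exact h1 (e0.symm.measurable hs)
  · apply MeasurableSpace.generateFrom_le
    rintro _ ⟨i, rfl⟩
    exact AA_meas i

theorem AA_sep {x y : ℝ} (h : ∀ i, x ∈ AA i ↔ y ∈ AA i) : x = y := by
  apply e0.injective
  funext i
  exact Bool.eq_iff_iff.2 (h i)

theorem real_symmDiff_union {s t s' t' : Set ℝ} :
    lam.real ((s ∪ t) ∆ (s' ∪ t')) ≤ lam.real (s ∆ s') + lam.real (t ∆ t') := by
  refine le_trans (measureReal_mono ?_) (measureReal_union_le _ _)
  intro x hx
  simp only [Set.mem_symmDiff, mem_union] at hx ⊢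
  tauto

theorem real_symmDiff_tri (s t u : Set ℝ) :
    lam.real (s ∆ u) ≤ lam.real (s ∆ t) + lam.real (t ∆ u) := by
  refine le_trans (measureReal_mono ?_) (measureReal_union_le _ _)
  intro x hx
  simp only [Set.mem_symmDiff, mem_union] at hx ⊢
  tauto

theorem mp_real {f : ℝ → ℝ} (hf : MeasurePreserving f lam lam) {s : Set ℝ} (hs : MeasurableSet s) :
    lam.real (f ⁻¹' s) = lam.real s := by
  rw [measureReal_def, hf.measure_preimage hs.nullMeasurableSet, ← measureReal_def]

theorem add_tend {β : Type*} {l : Filter β} {f g : β → ℝ} (hf : Tendsto f l (𝓝 0))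
    (hg : Tendsto g l (𝓝 0)) : Tendsto (fun b => f b + g b) l (𝓝 0) := by
  have := hf.add hg
  rwa [add_zero] at this

theorem squeeze0 {β : Type*} {l : Filter β} {f g : β → ℝ} (h0 : ∀ b, 0 ≤ f b) (h : ∀ b, f b ≤ g b)
    (hg : Tendsto g l (𝓝 0)) : Tendsto f l (𝓝 0) := squeeze_zero h0 h hg

/-- convergence of preimages on generators implies convergence on all measurable sets -/
theorem tend_all {β : Type*} (l : Filter β) (f : β → ℝ → ℝ) (g : ℝ → ℝ)
    (hf : ∀ b, MeasurePreserving (f b) lam lam) (hg : MeasurePreserving g lam lam)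
    (C : Set (Set ℝ)) (hgen : (inferInstance : MeasurableSpace ℝ) = MeasurableSpace.generateFrom C)
    (h : ∀ s ∈ C, Tendsto (fun b => lam.real ((f b ⁻¹' s) ∆ (g ⁻¹' s))) l (𝓝 0)) :
    ∀ s, MeasurableSet s → Tendsto (fun b => lam.real ((f b ⁻¹' s) ∆ (g ⁻¹' s))) l (𝓝 0) := by
  refine approx_induction lam C hgen _ h ?_ ?_ ?_ ?_
  · simpa using tendsto_const_nhds
  · intro s _ hs
    refine hs.congr fun b => ?_
    congr 1
    ext x
    simp only [Set.mem_symmDiff, mem_preimage, mem_compl_iff]
    tauto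
  · intro s t _ _ hs ht
    refine squeeze0 (fun b => measureReal_nonneg) (fun b => ?_) (add_tend hs ht)
    simp only [preimage_union]
    exact real_symmDiff_union
  · intro s hs hap
    rw [Metric.tendsto_nhds]
    intro ε hε
    obtain ⟨t, ht, hPt, hst⟩ := hap (ε / 3) (by positivity)
    rw [Metric.tendsto_nhds] at hPt
    filter_upwards [hPt (ε/3) (by positivity)] with b hb
    rw [Real.dist_eq, sub_zero, abs_of_nonneg measureReal_nonneg] at hb ⊢
    have h1 : lam.real ((f b ⁻¹' s) ∆ (f b ⁻¹' t)) = lam.real (s ∆ t) := by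
      rw [← preimage_symmDiff, mp_real (hf b) (hs.symmDiff ht)]
    have h2 : lam.real ((g ⁻¹' t) ∆ (g ⁻¹' s)) = lam.real (s ∆ t) := by
      rw [← preimage_symmDiff, mp_real hg (ht.symmDiff hs), symmDiff_comm]
    have h3 := real_symmDiff_tri (f b ⁻¹' s) (f b ⁻¹' t) (g ⁻¹' s)
    have h4 := real_symmDiff_tri (f b ⁻¹' t) (g ⁻¹' t) (g ⁻¹' s)
    rw [h1] at h3
    rw [h2] at h4
    linarith

/-- a measurable set as an element of the measure algebra -/
def mkS (s : Set ℝ) (hs : MeasurableSet s) : MeasuredSets lam := ⟨s, hs⟩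

theorem dist_mkS (s t : Set ℝ) (hs : MeasurableSet s) (ht : MeasurableSet t) :
    dist (mkS s hs) (mkS t ht) = lam.real (s ∆ t) := rfl

/-- the basic embedding of the automorphism group -/
noncomputable def iot (T : Aut) (i : ℕ) : MeasuredSets lam × MeasuredSets lam :=
  (mkS (T.1 ⁻¹' AA i) (T.1.measurable (AA_meas i)),
    mkS (T.1.symm ⁻¹' AA i) (T.1.symm.measurable (AA_meas i)))

noncomputable abbrev unif : UniformSpace Aut := UniformSpace.comap iot inferInstance

/-- the limit of the point maps -/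
theorem limit_map (f : ℕ → ℝ → ℝ) (hf : ∀ n, MeasurePreserving (f n) lam lam) (B : ℕ → Set ℝ)
    (hB : ∀ i, MeasurableSet (B i))
    (h : ∀ i, Tendsto (fun n => lam.real ((f n ⁻¹' AA i) ∆ B i)) atTop (𝓝 0)) :
    ∃ g : ℝ → ℝ, Measurable g ∧ MeasurePreserving g lam lam ∧
      ∀ s, MeasurableSet s → Tendsto (fun n => lam.real ((f n ⁻¹' s) ∆ (g ⁻¹' s))) atTop (𝓝 0) := by
  classical
  let g : ℝ → ℝ := fun x => e0.symm (fun i => decide (x ∈ B i))
  have hg : Measurable g := by
    apply e0.symm.measurable.comp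
    apply measurable_pi_lambda
    intro i
    apply measurable_to_bool
    have : (fun x => decide (x ∈ B i)) ⁻¹' {true} = B i := by ext x; simp
    rw [this]
    exact hB i
  have hgA : ∀ i, g ⁻¹' AA i = B i := by
    intro i
    ext x
    simp [g, AA]
  have hmp : MeasurePreserving g lam lam := by
    refine ⟨hg, ?_⟩
    have hpr : IsProbabilityMeasure (Measure.map g lam) := Measure.isProbabilityMeasure_map hg.aemeasurable
    let C : Set (Set ℝ) := {s | MeasurableSet s ∧
      Tendsto (fun n => lam.real ((f n ⁻¹' s) ∆ (g ⁻¹' s))) atTop (𝓝 0)}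
    have hAC : ∀ i, AA i ∈ C := by
      intro i
      refine ⟨AA_meas i, ?_⟩
      rw [hgA]
      exact h i
    have hgen : (inferInstance : MeasurableSpace ℝ) = MeasurableSpace.generateFrom C := by
      apply le_antisymm
      · refine le_trans (le_of_eq AA_gen) ?_
        apply MeasurableSpace.generateFrom_mono
        rintro _ ⟨i, rfl⟩
        exact hAC i
      · apply MeasurableSpace.generateFrom_le
        exact fun s hs => hs.1
    refine ext_of_generate_finite C hgen ?_ ?_ (by simp)
    · rintro s ⟨hs, hs'⟩ t ⟨ht, ht'⟩ _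
      refine ⟨hs.inter ht, ?_⟩
      refine squeeze0 (fun b => measureReal_nonneg) (fun b => ?_) (add_tend hs' ht')
      refine le_trans (measureReal_mono ?_) (measureReal_union_le _ _)
      intro x hx
      simp only [Set.mem_symmDiff, mem_union, mem_inter_iff, mem_preimage] at hx ⊢
      tauto
    · rintro s ⟨hs, hs'⟩
      rw [Measure.map_apply hg hs]
      have h1 : Tendsto (fun n => lam.real (f n ⁻¹' s)) atTop (𝓝 (lam.real (g ⁻¹' s))) := by
        rw [tendsto_iff_dist_tendsto_zero]
        refine squeeze0 (fun b => dist_nonneg) (fun n => ?_) hs'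
        rw [Real.dist_eq]
        have e1 := real_symmDiff_tri (f n ⁻¹' s) (g ⁻¹' s) ∅
        have e2 := real_symmDiff_tri (g ⁻¹' s) (f n ⁻¹' s) ∅
        simp only [← Set.bot_eq_empty, symmDiff_bot] at e1 e2
        rw [symmDiff_comm] at e2
        rw [abs_le]
        constructor <;> linarith
      have h2 : Tendsto (fun n => lam.real (f n ⁻¹' s)) atTop (𝓝 (lam.real s)) := by
        simp_rw [mp_real (hf _) hs]
        exact tendsto_const_nhds
      have h3 := tendsto_nhds_unique h1 h2
      rw [measureReal_def, measureReal_def] at h3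
      exact (ENNReal.toReal_eq_toReal_iff' (measure_ne_top _ _) (measure_ne_top _ _)).1 h3
  refine ⟨g, hg, hmp, ?_⟩
  refine tend_all atTop f g hf hmp (range AA) AA_gen ?_
  rintro _ ⟨i, rfl⟩
  rw [hgA]
  exact h i

end Pool.H359R3
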