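import Mathlib

/-!
Combinatorics of base-3 digits used for MP_365e45_an.
-/

open Finset

namespace Pool.H359R3.W

/-- number of small subsets -/
theorem card_small (n k : ℕ) (hk : k ≤ n) :
    (univ.filter (fun s : Finset (Fin n) => s.card ≤ k)).card * 2 ^ (n - k) ≤ 3 ^ n := by
  have h := Finset.sum_pow_mul_eq_add_pow (1 : ℕ) 2 (univ : Finset (Fin n))
  simp only [one_pow, one_mul, card_univ, Fintype.card_fin, powerset_univ] at h
  have h3 : (1 + 2 : ℕ) = 3 := rfl
  rw [h3] at h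
  rw [← h, ← smul_eq_mul, ← Finset.sum_const]
  calc ∑ s ∈ univ.filter (fun s : Finset (Fin n) => s.card ≤ k), 2 ^ (n - k)
      ≤ ∑ s ∈ univ.filter (fun s : Finset (Fin n) => s.card ≤ k), 2 ^ (n - s.card) := by
        apply Finset.sum_le_sum
        intro s hs
        rw [Finset.mem_filter] at hs
        exact Nat.pow_le_pow_right (by norm_num) (by omega)
    _ ≤ ∑ s : Finset (Fin n), 2 ^ (n - s.card) := by
        apply Finset.sum_le_sum_of_subset
        exact Finset.filter_subset _ _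

def ones (n : ℕ) (s : Finset (Fin n)) : ℕ := ∑ i ∈ s, 3 ^ (i : ℕ)

def D (n k : ℕ) : Finset ℕ :=
  (univ.filter (fun s : Finset (Fin n) => s.card ≤ k)).image (fun s => 3 ^ n + ones n s)

def F (n k : ℕ) : Finset ℕ :=
  (univ.filter (fun s : Finset (Fin n) => s.card ≤ k)).image (fun s => 2 * (3 ^ n + ones n sᶜ))

def G (n k : ℕ) : Finset ℕ :=
  (univ.filter (fun s : Finset (Fin n) => s.card ≤ k)).image (fun s => 2 * ones n s)

theorem card_D (n k : ℕ) (hk : k ≤ n) : (D n k).card * 2 ^ (n - k) ≤ 3 ^ n :=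
  (Nat.mul_le_mul_right _ card_image_le).trans (card_small n k hk)

theorem card_F (n k : ℕ) (hk : k ≤ n) : (F n k).card * 2 ^ (n - k) ≤ 3 ^ n :=
  (Nat.mul_le_mul_right _ card_image_le).trans (card_small n k hk)

theorem card_G (n k : ℕ) (hk : k ≤ n) : (G n k).card * 2 ^ (n - k) ≤ 3 ^ n :=
  (Nat.mul_le_mul_right _ card_image_le).trans (card_small n k hk)

theorem ones_lt (n : ℕ) (s : Finset (Fin n)) : ones n s < 3 ^ n := by
  have h1 : ones n s ≤ ∑ i : Fin n, 3 ^ (i : ℕ) := by
    unfold ones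
    exact Finset.sum_le_sum_of_subset (Finset.subset_univ _)
  have h2 : (∑ i : Fin n, 3 ^ (i : ℕ)) * 2 + 1 = 3 ^ n := by
    rw [Fin.sum_univ_eq_sum_range (fun i => 3 ^ i) n]
    have := Nat.geomSum_eq (m := 3) (by norm_num) n
    rw [this]
    have h3 : 2 ∣ 3 ^ n - 1 := by
      have := Nat.sub_dvd_pow_sub_pow 3 1 n
      simpa using this
    have h4 : 1 ≤ 3 ^ n := Nat.one_le_pow _ _ (by norm_num)
    omega
  omega

theorem D_mem (n k m : ℕ) (h : m ∈ D n k) : 3 ^ n ≤ m ∧ m < 2 * 3 ^ n := by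
  unfold D at h
  rw [Finset.mem_image] at h
  obtain ⟨s, _, rfl⟩ := h
  have := ones_lt n s
  omega

/-- value of a digit string -/
def dig (n : ℕ) (t : Fin n → Fin 3) : ℕ := ∑ i, (t i : ℕ) * 3 ^ (i : ℕ)

def cnt (n : ℕ) (c : Fin 3) (t : Fin n → Fin 3) : Finset (Fin n) :=
  univ.filter (fun i => t i = c)

theorem key1 (n : ℕ) (t : Fin n → Fin 3) :
    (3 ^ n + dig n t) + (3 ^ n + ones n (cnt n 1 t)) = 2 * (3 ^ n + ones n (cnt n 0 t)ᶜ) := by
  have : dig n t + ones n (cnt n 1 t) = 2 * ones n (cnt n 0 t)ᶜ := by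
    unfold dig ones cnt
    rw [Finset.sum_filter, ← Finset.sum_add_distrib, Finset.mul_sum]
    rw [← Finset.sum_filter_add_sum_filter_not (univ : Finset (Fin n)) (fun i => t i = 0)]
    have h0 : ∑ i ∈ univ.filter (fun i => t i = 0),
        (((t i : ℕ) * 3 ^ (i : ℕ)) + if t i = 1 then 3 ^ (i : ℕ) else 0) = 0 := by
      apply Finset.sum_eq_zero
      intro i hi
      rw [Finset.mem_filter] at hi
      rw [hi.2]; simp
    rw [h0, zero_add, Finset.compl_filter]
    apply Finset.sum_congr rfl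
    intro i hi
    rw [Finset.mem_filter] at hi
    have h1 : t i = 1 ∨ t i = 2 := by
      have h2 : ∀ a : Fin 3, a ≠ 0 → a = 1 ∨ a = 2 := by decide
      exact h2 _ hi.2
    rcases h1 with h | h <;> rw [h]
    · simp; ring
    · simp
  omega

theorem key2 (n : ℕ) (t : Fin n → Fin 3) :
    (3 ^ n + dig n t) = (3 ^ n + ones n (cnt n 1 t)) + 2 * ones n (cnt n 2 t) := by
  have : dig n t = ones n (cnt n 1 t) + 2 * ones n (cnt n 2 t) := by
    unfold dig ones cnt
    rw [Finset.sum_filter, Finset.sum_filter, Finset.mul_sum, ← Finset.sum_add_distrib]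
    apply Finset.sum_congr rfl
    intro i _
    have h2 : ∀ a : Fin 3, a = 0 ∨ a = 1 ∨ a = 2 := by decide
    rcases h2 (t i) with h | h | h <;> rw [h] <;> simp
  omega

/-- typical strings -/
def Typ (n k : ℕ) : Finset (Fin n → Fin 3) :=
  univ.filter (fun t => ∀ c : Fin 3, (cnt n c t).card ≤ k)

theorem dig_inj (n : ℕ) : Function.Injective (dig n) := by
  intro a b h
  apply (finFunctionFinEquiv (m := 3) (n := n)).injective
  apply Fin.ext
  rw [finFunctionFinEquiv_apply, finFunctionFinEquiv_apply]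
  exact h

theorem dig_lt (n : ℕ) (t : Fin n → Fin 3) : dig n t < 3 ^ n := by
  have := (finFunctionFinEquiv (m := 3) (n := n) t).2
  rw [finFunctionFinEquiv_apply] at this
  exact this

def Good (n k : ℕ) : Finset ℕ := (Typ n k).image (fun t => 3 ^ n + dig n t)

theorem card_Good (n k : ℕ) : (Good n k).card = (Typ n k).card := by
  unfold Good
  apply Finset.card_image_of_injective
  intro a b h
  simp only [Nat.add_left_cancel_iff] at h
  exact dig_inj n h

theorem Good_mem (n k x : ℕ) (h : x ∈ Good n k) :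
    x < 2 * 3 ^ n ∧ ∃ m ∈ D n k, x + m ∈ F n k ∧ ∃ y ∈ G n k, x = m + y := by
  unfold Good at h
  rw [Finset.mem_image] at h
  obtain ⟨t, ht, rfl⟩ := h
  unfold Typ at ht
  rw [Finset.mem_filter] at ht
  refine ⟨by have := dig_lt n t; omega, 3 ^ n + ones n (cnt n 1 t), ?_, ?_, 2 * ones n (cnt n 2 t), ?_, ?_⟩
  · unfold D
    rw [Finset.mem_image]
    exact ⟨cnt n 1 t, by simp [ht.2 1], rfl⟩
  · rw [key1]
    unfold F
    rw [Finset.mem_image]
    exact ⟨cnt n 0 t, by simp [ht.2 0], rfl⟩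
  · unfold G
    rw [Finset.mem_image]
    exact ⟨cnt n 2 t, by simp [ht.2 2], rfl⟩
  · exact key2 n t

/-- generating function -/
theorem gen (n : ℕ) (c : Fin 3) :
    ∑ t : Fin n → Fin 3, (14 : ℕ) ^ (cnt n c t).card * 13 ^ (n - (cnt n c t).card) = 40 ^ n := by
  have h1 : ∀ t : Fin n → Fin 3, (14 : ℕ) ^ (cnt n c t).card * 13 ^ (n - (cnt n c t).card)
      = ∏ i, (if t i = c then 14 else 13) := by
    intro t
    rw [Finset.prod_ite, Finset.prod_const, Finset.prod_const]
    have h2 : (univ.filter (fun i => t i = c)).card + (univ.filter (fun i => ¬ t i = c)).card = n := by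
      have := Finset.card_filter_add_card_filter_not (s := (univ : Finset (Fin n))) (fun i => t i = c)
      simpa using this
    have h3 : (univ.filter (fun i => ¬ t i = c)).card = n - (cnt n c t).card := by
      unfold cnt
      omega
    rw [h3]
    rfl
  simp_rw [h1]
  have h4 := Finset.prod_univ_sum (fun _ : Fin n => (univ : Finset (Fin 3)))
    (fun _ a => if a = c then (14 : ℕ) else 13)
  rw [Fintype.piFinset_univ] at h4
  rw [← h4]
  rw [Finset.prod_const, Finset.card_univ, Fintype.card_fin]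
  congr 1
  have : ∀ c : Fin 3, ∑ a : Fin 3, (if a = c then (14 : ℕ) else 13) = 40 := by decide
  exact this c

theorem atyp (n k : ℕ) (hk : k ≤ n) (c : Fin 3) :
    (univ.filter (fun t : Fin n → Fin 3 => k < (cnt n c t).card)).card * (14 ^ k * 13 ^ (n - k))
      ≤ 40 ^ n := by
  rw [← gen n c, ← smul_eq_mul, ← Finset.sum_const]
  calc ∑ t ∈ univ.filter (fun t : Fin n → Fin 3 => k < (cnt n c t).card), 14 ^ k * 13 ^ (n - k)
      ≤ ∑ t ∈ univ.filter (fun t : Fin n → Fin 3 => k < (cnt n c t).card),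
        14 ^ (cnt n c t).card * 13 ^ (n - (cnt n c t).card) := by
        apply Finset.sum_le_sum
        intro t ht
        rw [Finset.mem_filter] at ht
        have h1 := ht.2
        have h2 : (cnt n c t).card ≤ n := by
          have := Finset.card_le_univ (cnt n c t)
          simpa using this
        obtain ⟨d, hd⟩ := Nat.exists_eq_add_of_lt h1
        have h3 : n - k = (n - (cnt n c t).card) + (d + 1) := by omega
        rw [h3, hd, show k + d + 1 = k + (d + 1) by ring, pow_add, pow_add 14 k]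
        have h4 : (13 : ℕ) ^ (d + 1) ≤ 14 ^ (d + 1) := Nat.pow_le_pow_left (by norm_num) _
        calc 14 ^ k * (13 ^ (n - (k + (d + 1))) * 13 ^ (d + 1))
            ≤ 14 ^ k * (13 ^ (n - (k + (d + 1))) * 14 ^ (d + 1)) := by gcongr
          _ = _ := by ring
    _ ≤ _ := Finset.sum_le_sum_of_subset (Finset.filter_subset _ _)

theorem typ_compl (n k : ℕ) : 3 ^ n ≤ (Typ n k).card +
    ∑ c : Fin 3, (univ.filter (fun t : Fin n → Fin 3 => k < (cnt n c t).card)).card := by
  have h1 : (univ : Finset (Fin n → Fin 3)) ⊆ Typ n k ∪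
      (univ : Finset (Fin 3)).biUnion
        (fun c => univ.filter (fun t : Fin n → Fin 3 => k < (cnt n c t).card)) := by
    intro t _
    rw [Finset.mem_union, Finset.mem_biUnion]
    by_cases h : ∀ c : Fin 3, (cnt n c t).card ≤ k
    · left
      unfold Typ
      simp [h]
    · right
      push Not at h
      obtain ⟨c, hc⟩ := h
      exact ⟨c, mem_univ _, by simp [hc]⟩
  have h2 := Finset.card_le_card h1
  have h3 : (univ : Finset (Fin n → Fin 3)).card = 3 ^ n := by
    simp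
  rw [h3] at h2
  refine h2.trans ((Finset.card_union_le _ _).trans ?_)
  gcongr
  exact Finset.card_biUnion_le

/-- at least half of the strings are typical, for n = 20j, k = 7j, j large -/
theorem typ_large : ∃ J : ℕ, ∀ j ≥ J, 3 ^ (20 * j) ≤ 2 * (Typ (20 * j) (7 * j)).card := by
  have hρ : (40 : ℝ) ^ 20 / (14 ^ 7 * 13 ^ 13) / 3 ^ 20 < 1 := by norm_num
  have h0 : (0 : ℝ) ≤ (40 : ℝ) ^ 20 / (14 ^ 7 * 13 ^ 13) / 3 ^ 20 := by positivity
  obtain ⟨J, hJ⟩ := exists_pow_lt_of_lt_one (show (0 : ℝ) < 1 / 6 by norm_num) hρ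
  refine ⟨J, fun j hj => ?_⟩
  have h1 : ((40 : ℝ) ^ 20 / (14 ^ 7 * 13 ^ 13) / 3 ^ 20) ^ j ≤ 1 / 6 :=
    (pow_le_pow_of_le_one h0 hρ.le hj).trans hJ.le
  have h2 : ∀ c : Fin 3, ((univ.filter (fun t : Fin (20 * j) → Fin 3 =>
      7 * j < (cnt (20 * j) c t).card)).card : ℝ) ≤ (1 / 6) * 3 ^ (20 * j) := by
    intro c
    have h3 := atyp (20 * j) (7 * j) (by omega) c
    have h4 : 20 * j - 7 * j = 13 * j := by omega
    rw [h4] at h3
    have h5 : ((univ.filter (fun t : Fin (20 * j) → Fin 3 =>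
      7 * j < (cnt (20 * j) c t).card)).card : ℝ) * (14 ^ (7 * j) * 13 ^ (13 * j)) ≤ 40 ^ (20 * j) := by
      exact_mod_cast h3
    rw [div_pow, div_pow, mul_pow, ← pow_mul, ← pow_mul, ← pow_mul, ← pow_mul] at h1
    have h6 : (0 : ℝ) < 14 ^ (7 * j) * 13 ^ (13 * j) := by positivity
    have h7 : (0 : ℝ) < 3 ^ (20 * j) := by positivity
    rw [div_le_iff₀ h7, div_le_iff₀ h6] at h1
    exact le_of_mul_le_mul_right (h5.trans h1) h6
  have h8 := typ_compl (20 * j) (7 * j)
  have h9 : (3 : ℝ) ^ (20 * j) ≤ (Typ (20 * j) (7 * j)).card +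
    ∑ c : Fin 3, ((univ.filter (fun t : Fin (20 * j) → Fin 3 =>
      7 * j < (cnt (20 * j) c t).card)).card : ℝ) := by exact_mod_cast h8
  rw [Fin.sum_univ_three] at h9
  have h10 := h2 0
  have h11 := h2 1
  have h12 := h2 2
  have h13 : (3 : ℝ) ^ (20 * j) ≤ 2 * (Typ (20 * j) (7 * j)).card := by linarith
  exact_mod_cast h13

end Pool.H359R3.W
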