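import Mathlib
import Pool.Agent.H359R3.W1

/-!
The weight for MP_365e45_an and its estimates.
-/

open Finset

namespace Pool.H359R3.W

def N0 : ℕ := 3 ^ 20

noncomputable def gw (n : ℕ) : ℕ :=
  ∑ j ∈ (Finset.Icc 1 n).filter (fun j => n ∈ D (20 * j) (7 * j)), 64 ^ j

theorem N0_pow (j : ℕ) : N0 ^ j = 3 ^ (20 * j) := by
  unfold N0
  rw [← pow_mul]

theorem gw_zero : gw 0 = 0 := by
  unfold gw
  simp

theorem lt_N0_pow (j : ℕ) : j < N0 ^ j := Nat.lt_pow_self (by unfold N0; norm_num)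

theorem gw_ge (n j : ℕ) (hj : 1 ≤ j) (h : n ∈ D (20 * j) (7 * j)) : 64 ^ j ≤ gw n := by
  unfold gw
  have h1 := (D_mem _ _ _ h).1
  rw [← N0_pow] at h1
  have h2 := lt_N0_pow j
  apply Finset.single_le_sum (f := fun j => 64 ^ j) (fun _ _ => Nat.zero_le _)
  rw [Finset.mem_filter, Finset.mem_Icc]
  exact ⟨⟨hj, by omega⟩, h⟩

theorem mem_log (n N j : ℕ) (hn : n ≤ N) (h : n ∈ D (20 * j) (7 * j)) : j ≤ Nat.log N0 N := by
  have h1 := (D_mem _ _ _ h).1
  rw [← N0_pow] at h1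
  exact Nat.le_log_of_pow_le (by unfold N0; norm_num) (h1.trans hn)

theorem geom64 (J : ℕ) : ∑ j ∈ range (J + 1), 64 ^ j ≤ 2 * 64 ^ J := by
  induction J with
  | zero => simp
  | succ n ih =>
    rw [Finset.sum_range_succ]
    have : (64 : ℕ) ^ (n + 1) = 64 * 64 ^ n := by ring
    omega

theorem gw_le (n N : ℕ) (hn : n ≤ N) : gw n ≤ 2 * 64 ^ (Nat.log N0 N) := by
  refine le_trans ?_ (geom64 _)
  unfold gw
  apply Finset.sum_le_sum_of_subset
  intro j hj
  rw [Finset.mem_filter] at hj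
  rw [Finset.mem_range]
  have := mem_log n N j hn hj.2
  omega

theorem geomN (J : ℕ) : ∑ j ∈ range (J + 1), 128 ^ (J - j) * N0 ^ j ≤ 2 * N0 ^ J := by
  induction J with
  | zero => simp
  | succ n ih =>
    rw [Finset.sum_range_succ]
    have h1 : ∑ j ∈ range (n + 1), 128 ^ (n + 1 - j) * N0 ^ j
        = 128 * ∑ j ∈ range (n + 1), 128 ^ (n - j) * N0 ^ j := by
      rw [Finset.mul_sum]
      apply Finset.sum_congr rfl
      intro j hj
      rw [Finset.mem_range] at hj
      have : n + 1 - j = (n - j) + 1 := by omega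
      rw [this]
      ring
    rw [h1]
    have h2 : N0 ^ (n + 1) = N0 * N0 ^ n := by ring
    have h3 : 256 ≤ N0 := by unfold N0; norm_num
    have h4 : 256 * N0 ^ n ≤ N0 * N0 ^ n := Nat.mul_le_mul_right _ h3
    simp only [Nat.sub_self, pow_zero, one_mul]
    omega

theorem sum_gw (N : ℕ) (hN : 1 ≤ N) :
    128 ^ (Nat.log N0 N) * ∑ n ∈ Finset.Icc 1 N, gw n ≤ 2 * N := by
  set J := Nat.log N0 N with hJ
  have h1 : ∑ n ∈ Finset.Icc 1 N, gw n ≤ ∑ j ∈ range (J + 1), 64 ^ j * (D (20 * j) (7 * j)).card := by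
    calc ∑ n ∈ Finset.Icc 1 N, gw n
        ≤ ∑ n ∈ Finset.Icc 1 N, ∑ j ∈ range (J + 1), (if n ∈ D (20 * j) (7 * j) then 64 ^ j else 0) := by
          apply Finset.sum_le_sum
          intro n hn
          rw [Finset.mem_Icc] at hn
          unfold gw
          rw [← Finset.sum_filter]
          apply Finset.sum_le_sum_of_subset
          intro j hj
          rw [Finset.mem_filter] at hj ⊢
          rw [Finset.mem_range]
          have := mem_log n N j hn.2 hj.2
          exact ⟨by omega, hj.2⟩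
      _ = ∑ j ∈ range (J + 1), ∑ n ∈ Finset.Icc 1 N, (if n ∈ D (20 * j) (7 * j) then 64 ^ j else 0) :=
          Finset.sum_comm
      _ ≤ _ := by
          apply Finset.sum_le_sum
          intro j _
          rw [← Finset.sum_filter, Finset.sum_const, smul_eq_mul, mul_comm]
          apply Nat.mul_le_mul_left
          apply Finset.card_le_card
          intro n hn
          rw [Finset.mem_filter] at hn
          exact hn.2
  calc 128 ^ J * ∑ n ∈ Finset.Icc 1 N, gw n
      ≤ 128 ^ J * ∑ j ∈ range (J + 1), 64 ^ j * (D (20 * j) (7 * j)).card := Nat.mul_le_mul_left _ h1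
    _ = ∑ j ∈ range (J + 1), 128 ^ (J - j) * ((D (20 * j) (7 * j)).card * 8192 ^ j) := by
        rw [Finset.mul_sum]
        apply Finset.sum_congr rfl
        intro j hj
        rw [Finset.mem_range] at hj
        have h2 : 128 ^ J = 128 ^ (J - j) * 128 ^ j := by
          rw [← pow_add]
          congr 1
          omega
        have h3 : (8192 : ℕ) ^ j = 128 ^ j * 64 ^ j := by
          rw [← mul_pow]
          norm_num
        rw [h2, h3]
        ring
    _ ≤ ∑ j ∈ range (J + 1), 128 ^ (J - j) * N0 ^ j := by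
        apply Finset.sum_le_sum
        intro j _
        apply Nat.mul_le_mul_left
        have h4 := card_D (20 * j) (7 * j) (by omega)
        have h5 : 20 * j - 7 * j = 13 * j := by omega
        rw [h5] at h4
        rw [N0_pow]
        have h6 : (8192 : ℕ) ^ j = 2 ^ (13 * j) := by
          rw [pow_mul]
          norm_num
        rw [h6]
        exact h4
    _ ≤ 2 * N0 ^ J := geomN J
    _ ≤ 2 * N := by
        apply Nat.mul_le_mul_left
        exact Nat.pow_log_le_self _ (by omega)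

theorem lt_pow_log (N : ℕ) : N < N0 ^ (Nat.log N0 N + 1) :=
  Nat.lt_pow_succ_log_self (by unfold N0; norm_num) N

theorem rpow_five (N : ℕ) : (N : ℝ) ^ ((1 : ℝ) / 5) ≤ 128 * 128 ^ (Nat.log N0 N) := by
  have h1 := lt_pow_log N
  set J := Nat.log N0 N
  have h2 : N0 ^ (J + 1) ≤ (128 ^ (J + 1)) ^ 5 := by
    rw [← pow_mul, mul_comm (J + 1) 5, pow_mul]
    apply Nat.pow_le_pow_left
    unfold N0
    norm_num
  have h3 : (N : ℝ) ≤ ((128 : ℝ) ^ (J + 1)) ^ 5 := by
    exact_mod_cast (h1.le.trans h2)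
  calc (N : ℝ) ^ ((1 : ℝ) / 5) ≤ (((128 : ℝ) ^ (J + 1)) ^ 5) ^ ((1 : ℝ) / 5) :=
        Real.rpow_le_rpow (by positivity) h3 (by norm_num)
    _ = (128 : ℝ) ^ (J + 1) := by
        rw [← Real.rpow_natCast ((128 : ℝ) ^ (J + 1)) 5, ← Real.rpow_mul (by positivity)]
        norm_num
    _ = _ := by ring

theorem rpow_thirtytwo (N : ℕ) : (N : ℝ) ^ ((1 : ℝ) / 32) ≤ 2 * 2 ^ (Nat.log N0 N) := by
  have h1 := lt_pow_log N
  set J := Nat.log N0 N
  have h2 : N0 ^ (J + 1) ≤ (2 ^ (J + 1)) ^ 32 := by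
    rw [← pow_mul, mul_comm (J + 1) 32, pow_mul]
    apply Nat.pow_le_pow_left
    unfold N0
    norm_num
  have h3 : (N : ℝ) ≤ ((2 : ℝ) ^ (J + 1)) ^ 32 := by
    exact_mod_cast (h1.le.trans h2)
  calc (N : ℝ) ^ ((1 : ℝ) / 32) ≤ (((2 : ℝ) ^ (J + 1)) ^ 32) ^ ((1 : ℝ) / 32) :=
        Real.rpow_le_rpow (by positivity) h3 (by norm_num)
    _ = (2 : ℝ) ^ (J + 1) := by
        rw [← Real.rpow_natCast ((2 : ℝ) ^ (J + 1)) 32, ← Real.rpow_mul (by positivity)]
        norm_num
    _ = _ := by ring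

/-- average of the weight decays like N^{-1/5} -/
theorem avg_gw (N : ℕ) (hN : 1 ≤ N) :
    (∑ n ∈ Finset.Icc 1 N, (gw n : ℝ)) / N ≤ 256 * (N : ℝ) ^ (-((1 : ℝ) / 5)) := by
  have h1 := sum_gw N hN
  have h2 := rpow_five N
  set J := Nat.log N0 N
  have h3 : (128 : ℝ) ^ J * ∑ n ∈ Finset.Icc 1 N, (gw n : ℝ) ≤ 2 * N := by exact_mod_cast h1
  have hNpos : (0 : ℝ) < N := by exact_mod_cast hN
  rw [div_le_iff₀ hNpos, Real.rpow_neg hNpos.le]
  have h4 : (0 : ℝ) < (N : ℝ) ^ ((1 : ℝ) / 5) := Real.rpow_pos_of_pos hNpos _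
  set r := (N : ℝ) ^ ((1 : ℝ) / 5)
  set Sg := ∑ n ∈ Finset.Icc 1 N, (gw n : ℝ)
  have hS : 0 ≤ Sg := Finset.sum_nonneg (fun _ _ => by positivity)
  have h5 : r * Sg ≤ 256 * N := by
    calc r * Sg ≤ (128 * 128 ^ J) * Sg := by gcongr
      _ = 128 * (128 ^ J * Sg) := by ring
      _ ≤ 128 * (2 * N) := by gcongr
      _ = 256 * N := by ring
  rw [show 256 * r⁻¹ * (N : ℝ) = (256 * N) / r by field_simp]
  rw [le_div_iff₀ h4]
  linarith

/-- the weight -/
noncomputable def w (n : ℤ) : ℂ := 1 + (gw n.toNat : ℂ)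

theorem w_sub_one (n : ℤ) : w n - 1 = (gw n.toNat : ℂ) := by unfold w; ring

theorem sum_toNat {β : Type*} [AddCommMonoid β] (N : ℕ) (φ : ℕ → β) :
    ∑ n ∈ Finset.Icc (1 : ℤ) N, φ n.toNat = ∑ n ∈ Finset.Icc 1 N, φ n := by
  symm
  apply Finset.sum_bij (fun (n : ℕ) _ => (n : ℤ))
  · intro a ha
    rw [Finset.mem_Icc] at ha ⊢
    omega
  · intro a _ b _ h
    exact_mod_cast h
  · intro b hb
    rw [Finset.mem_Icc] at hb
    exact ⟨b.toNat, by rw [Finset.mem_Icc]; omega, by omega⟩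
  · intro a _
    simp

theorem sum_Icc_le (a b : ℤ) (hb : 0 ≤ b) :
    ∑ n ∈ Finset.Icc a b, (gw n.toNat : ℝ) ≤ ∑ n ∈ Finset.Icc 1 b.toNat, (gw n : ℝ) := by
  rw [← sum_toNat b.toNat (fun n => (gw n : ℝ))]
  have h1 : ((b.toNat : ℕ) : ℤ) = b := Int.toNat_of_nonneg hb
  rw [h1]
  rw [← Finset.sum_filter_ne_zero]
  apply Finset.sum_le_sum_of_subset_of_nonneg
  · intro n hn
    rw [Finset.mem_filter, Finset.mem_Icc] at hn
    rw [Finset.mem_Icc]
    refine ⟨?_, hn.1.2⟩
    by_contra hc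
    apply hn.2
    have : n.toNat = 0 := by omega
    rw [this, gw_zero]
    simp
  · intro i _ _
    positivity

/-- upper normalization with constant 12 -/
theorem w_upper (a b : ℤ) (hab : a ≤ b) (h : |a + b| ≤ 10 * (b - a + 1)) :
    ∑ n ∈ Finset.Icc a b, ‖w n‖ ≤ 12 * ((b - a + 1 : ℤ) : ℝ) := by
  have hw : ∀ n : ℤ, ‖w n‖ ≤ 1 + (gw n.toNat : ℝ) := by
    intro n
    unfold w
    refine (norm_add_le _ _).trans ?_
    simp
  have hcard : ((Finset.Icc a b).card : ℝ) = ((b - a + 1 : ℤ) : ℝ) := by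
    rw [Int.card_Icc]
    have : (((b + 1 - a).toNat : ℕ) : ℤ) = b - a + 1 := by omega
    exact_mod_cast this
  have h1 : ∑ n ∈ Finset.Icc a b, ‖w n‖ ≤ ((b - a + 1 : ℤ) : ℝ) + ∑ n ∈ Finset.Icc a b, (gw n.toNat : ℝ) := by
    refine (Finset.sum_le_sum (fun n _ => hw n)).trans ?_
    rw [Finset.sum_add_distrib, Finset.sum_const, nsmul_eq_mul, mul_one, hcard]
  have hlen : (0 : ℝ) ≤ ((b - a + 1 : ℤ) : ℝ) := by
    have : (0 : ℤ) ≤ b - a + 1 := by omega
    exact_mod_cast this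
  by_cases hb : b ≤ 0
  · have h2 : ∑ n ∈ Finset.Icc a b, (gw n.toNat : ℝ) = 0 := by
      apply Finset.sum_eq_zero
      intro n hn
      rw [Finset.mem_Icc] at hn
      have : n.toNat = 0 := by omega
      rw [this, gw_zero]
      simp
    linarith
  · push Not at hb
    have h2 := sum_Icc_le a b hb.le
    have h3 := sum_gw b.toNat (by omega)
    have h4 : ∑ n ∈ Finset.Icc 1 b.toNat, gw n ≤ 2 * b.toNat := by
      refine le_trans ?_ h3
      exact Nat.le_mul_of_pos_left _ (by positivity)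
    have h5 : ∑ n ∈ Finset.Icc 1 b.toNat, (gw n : ℝ) ≤ 2 * (b.toNat : ℝ) := by exact_mod_cast h4
    have h6 : ((b.toNat : ℕ) : ℝ) = (b : ℝ) := by
      have : ((b.toNat : ℕ) : ℤ) = b := by omega
      exact_mod_cast this
    have h7 : 2 * b ≤ 11 * (b - a + 1) := by
      have := (abs_le.mp h).2
      omega
    have h8 : 2 * (b : ℝ) ≤ 11 * ((b - a + 1 : ℤ) : ℝ) := by exact_mod_cast h7
    rw [h6] at h5
    linarith

/-- Gowers box bound -/
theorem box_le (a : ℤ → ℝ) (ha : ∀ n, 0 ≤ a n) (B : ℝ) (hB : ∀ n, a n ≤ B) (N : ℕ)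
    (hs : ∀ n, n ∉ Finset.Icc (1 : ℤ) N → a n = 0) :
    ∑ x ∈ Finset.Icc (1 : ℤ) N, ∑ h ∈ Fintype.piFinset (fun _ : Fin 3 => Finset.Icc (-(N : ℤ)) N),
      ∏ ω : Finset (Fin 3), a (x + ∑ i ∈ ω, h i) ≤ (B * ∑ n ∈ Finset.Icc (1 : ℤ) N, a n) ^ 4 := by
  have hu : (Finset.univ : Finset (Finset (Fin 3))) =
      {∅, {0}, {1}, {2}, {0, 1}, {0, 2}, {1, 2}, {0, 1, 2}} := by decide
  have hB0 : 0 ≤ B := (ha 0).trans (hB 0)
  have h1 : ∀ (x : ℤ) (h : Fin 3 → ℤ), ∏ ω : Finset (Fin 3), a (x + ∑ i ∈ ω, h i) ≤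
      B ^ 4 * (a x * ∏ i : Fin 3, a (x + h i)) := by
    intro x h
    rw [hu, Finset.prod_insert (by decide), Finset.prod_insert (by decide),
      Finset.prod_insert (by decide), Finset.prod_insert (by decide),
      Finset.prod_insert (by decide), Finset.prod_insert (by decide),
      Finset.prod_insert (by decide), Finset.prod_singleton]
    rw [Fin.prod_univ_three]
    simp only [Finset.sum_empty, add_zero, Finset.sum_singleton]
    have e1 := ha (x + ∑ i ∈ ({0, 1} : Finset (Fin 3)), h i)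
    have e2 := ha (x + ∑ i ∈ ({0, 2} : Finset (Fin 3)), h i)
    have e3 := ha (x + ∑ i ∈ ({1, 2} : Finset (Fin 3)), h i)
    have e4 := ha (x + ∑ i ∈ ({0, 1, 2} : Finset (Fin 3)), h i)
    have f1 := hB (x + ∑ i ∈ ({0, 1} : Finset (Fin 3)), h i)
    have f2 := hB (x + ∑ i ∈ ({0, 2} : Finset (Fin 3)), h i)
    have f3 := hB (x + ∑ i ∈ ({1, 2} : Finset (Fin 3)), h i)
    have f4 := hB (x + ∑ i ∈ ({0, 1, 2} : Finset (Fin 3)), h i)
    have g0 := ha x
    have g1 := ha (x + h 0)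
    have g2 := ha (x + h 1)
    have g3 := ha (x + h 2)
    generalize a (x + ∑ i ∈ ({0, 1} : Finset (Fin 3)), h i) = A1 at *
    generalize a (x + ∑ i ∈ ({0, 2} : Finset (Fin 3)), h i) = A2 at *
    generalize a (x + ∑ i ∈ ({1, 2} : Finset (Fin 3)), h i) = A3 at *
    generalize a (x + ∑ i ∈ ({0, 1, 2} : Finset (Fin 3)), h i) = A4 at *
    have h12 : A1 * (A2 * (A3 * A4)) ≤ B * (B * (B * B)) := by gcongr
    calc a x * (a (x + h 0) * (a (x + h 1) * (a (x + h 2) * (A1 * (A2 * (A3 * A4))))))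
        ≤ a x * (a (x + h 0) * (a (x + h 1) * (a (x + h 2) * (B * (B * (B * B)))))) := by gcongr
      _ = B ^ 4 * (a x * (a (x + h 0) * a (x + h 1) * a (x + h 2))) := by ring
  have h2 : ∀ x : ℤ, ∑ y ∈ Finset.Icc (-(N : ℤ)) N, a (x + y) ≤ ∑ n ∈ Finset.Icc (1 : ℤ) N, a n := by
    intro x
    have h3 : ∑ y ∈ Finset.Icc (-(N : ℤ)) N, a (x + y)
        = ∑ n ∈ (Finset.Icc (-(N : ℤ)) N).image (fun y => x + y), a n := by
      rw [Finset.sum_image]
      intro y _ z _ h
      simpa using h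
    rw [h3]
    have h4 : ∑ n ∈ (Finset.Icc (-(N : ℤ)) N).image (fun y => x + y), a n
       ≤ ∑ n ∈ ((Finset.Icc (-(N : ℤ)) N).image (fun y => x + y)).filter (fun n => a n ≠ 0), a n := by
      rw [Finset.sum_filter_ne_zero]
    refine h4.trans ?_
    apply Finset.sum_le_sum_of_subset_of_nonneg
    · intro n hn
      rw [Finset.mem_filter] at hn
      by_contra hc
      exact hn.2 (hs n hc)
    · intro i _ _
      exact ha i
  set Sa := ∑ n ∈ Finset.Icc (1 : ℤ) N, a n with hSa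
  have hS0 : 0 ≤ Sa := Finset.sum_nonneg (fun n _ => ha n)
  calc _ ≤ ∑ x ∈ Finset.Icc (1 : ℤ) N, ∑ h ∈ Fintype.piFinset (fun _ : Fin 3 => Finset.Icc (-(N : ℤ)) N),
      B ^ 4 * (a x * ∏ i : Fin 3, a (x + h i)) := by
        apply Finset.sum_le_sum; intro x _
        apply Finset.sum_le_sum; intro h _
        exact h1 x h
    _ = ∑ x ∈ Finset.Icc (1 : ℤ) N, B ^ 4 * (a x * ∏ i : Fin 3, ∑ y ∈ Finset.Icc (-(N : ℤ)) N, a (x + y)) := by
        apply Finset.sum_congr rfl
        intro x _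
        rw [← Finset.mul_sum, ← Finset.mul_sum]
        congr 2
        rw [Finset.prod_univ_sum]
    _ ≤ ∑ x ∈ Finset.Icc (1 : ℤ) N, B ^ 4 * (a x * ∏ i : Fin 3, Sa) := by
        apply Finset.sum_le_sum; intro x _
        apply mul_le_mul_of_nonneg_left _ (by positivity)
        apply mul_le_mul_of_nonneg_left _ (ha x)
        apply Finset.prod_le_prod
        · intro i _
          exact Finset.sum_nonneg (fun y _ => ha _)
        · intro i _
          exact h2 x
    _ = (B * Sa) ^ 4 := by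
        rw [← Finset.mul_sum, ← Finset.sum_mul, ← hSa, Finset.prod_const]
        simp
        ring

/-- lower bound for the normalizing box sum -/
theorem box_one (N : ℕ) :
    ((N / 4 : ℕ) : ℝ) ^ 4 ≤ ∑ x ∈ Finset.Icc (1 : ℤ) N,
      ∑ h ∈ Fintype.piFinset (fun _ : Fin 3 => Finset.Icc (-(N : ℤ)) N),
      ∏ ω : Finset (Fin 3), (if 1 ≤ x + ∑ i ∈ ω, h i ∧ x + ∑ i ∈ ω, h i ≤ N then (1 : ℝ) else 0) := by
  set K := N / 4 with hK
  have hK4 : 4 * K ≤ N := by omega
  have h1 : ((K : ℕ) : ℝ) ^ 4 ≤ ∑ x ∈ Finset.Icc (1 : ℤ) K,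
      ∑ h ∈ Fintype.piFinset (fun _ : Fin 3 => Finset.Icc (1 : ℤ) K), (1 : ℝ) := by
    simp only [Finset.sum_const, Fintype.card_piFinset, Int.card_Icc, nsmul_eq_mul, mul_one,
      Finset.prod_const]
    simp
    apply le_of_eq
    ring
  refine h1.trans ?_
  have hsub : Finset.Icc (1 : ℤ) K ⊆ Finset.Icc (1 : ℤ) N := by
    intro n hn
    rw [Finset.mem_Icc] at hn ⊢
    omega
  have hsub2 : Fintype.piFinset (fun _ : Fin 3 => Finset.Icc (1 : ℤ) K) ⊆
      Fintype.piFinset (fun _ : Fin 3 => Finset.Icc (-(N : ℤ)) N) := by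
    intro h hh
    rw [Fintype.mem_piFinset] at hh ⊢
    intro i
    have := hh i
    rw [Finset.mem_Icc] at this ⊢
    omega
  calc ∑ x ∈ Finset.Icc (1 : ℤ) K,
      ∑ h ∈ Fintype.piFinset (fun _ : Fin 3 => Finset.Icc (1 : ℤ) K), (1 : ℝ)
      = ∑ x ∈ Finset.Icc (1 : ℤ) K,
      ∑ h ∈ Fintype.piFinset (fun _ : Fin 3 => Finset.Icc (1 : ℤ) K),
      ∏ ω : Finset (Fin 3), (if 1 ≤ x + ∑ i ∈ ω, h i ∧ x + ∑ i ∈ ω, h i ≤ N then (1 : ℝ) else 0) := by
        apply Finset.sum_congr rfl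
        intro x hx
        rw [Finset.mem_Icc] at hx
        apply Finset.sum_congr rfl
        intro h hh
        rw [Fintype.mem_piFinset] at hh
        symm
        apply Finset.prod_eq_one
        intro ω _
        rw [if_pos]
        have h2 : 0 ≤ ∑ i ∈ ω, h i := by
          apply Finset.sum_nonneg
          intro i _
          have := hh i
          rw [Finset.mem_Icc] at this
          omega
        have h3 : ∑ i ∈ ω, h i ≤ 3 * K := by
          calc ∑ i ∈ ω, h i ≤ ∑ i ∈ ω, (K : ℤ) := by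
                apply Finset.sum_le_sum
                intro i _
                have := hh i
                rw [Finset.mem_Icc] at this
                omega
            _ = ω.card * K := by rw [Finset.sum_const, nsmul_eq_mul]
            _ ≤ 3 * K := by
                have : ω.card ≤ 3 := by
                  have := Finset.card_le_univ ω
                  simpa using this
                have h4 : (ω.card : ℤ) ≤ 3 := by exact_mod_cast this
                gcongr
        have h5 : (4 * K : ℤ) ≤ N := by exact_mod_cast hK4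
        constructor <;> omega
    _ ≤ ∑ x ∈ Finset.Icc (1 : ℤ) K,
      ∑ h ∈ Fintype.piFinset (fun _ : Fin 3 => Finset.Icc (-(N : ℤ)) N),
      ∏ ω : Finset (Fin 3), (if 1 ≤ x + ∑ i ∈ ω, h i ∧ x + ∑ i ∈ ω, h i ≤ N then (1 : ℝ) else 0) := by
        apply Finset.sum_le_sum
        intro x _
        apply Finset.sum_le_sum_of_subset_of_nonneg hsub2
        intro h _ _
        apply Finset.prod_nonneg
        intro ω _
        split_ifs <;> norm_num
    _ ≤ _ := by
        apply Finset.sum_le_sum_of_subset_of_nonneg hsub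
        intro x _ _
        apply Finset.sum_nonneg
        intro h _
        apply Finset.prod_nonneg
        intro ω _
        split_ifs <;> norm_num

end Pool.H359R3.W
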