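import Mathlib
import Pool.Agent.H359R3.W2

/-!
The measure-preserving system for MP_365e45_an.
-/

open MeasureTheory Filter Topology
open scoped ENNReal

namespace Pool.H359R3.W

def Mj (j : ℕ) : ℕ := 2 * 3 ^ (20 * j)

instance instNeZeroMj (j : ℕ) : NeZero (Mj j) := ⟨by unfold Mj; positivity⟩

abbrev XX : Type := ∀ j : ℕ, ZMod (Mj j)

noncomputable def nu (j : ℕ) : Measure (ZMod (Mj j)) := ((Mj j : ℕ) : ℝ≥0∞)⁻¹ • Measure.count

theorem Mj_ne (j : ℕ) : ((Mj j : ℕ) : ℝ≥0∞) ≠ 0 := by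
  have := NeZero.ne (Mj j)
  exact_mod_cast this

theorem nu_coe (j : ℕ) (s : Finset (ZMod (Mj j))) :
    nu j (s : Set (ZMod (Mj j))) = ((Mj j : ℕ) : ℝ≥0∞)⁻¹ * s.card := by
  unfold nu
  rw [Measure.smul_apply, Measure.count_apply_finset, smul_eq_mul]

instance instProbNu (j : ℕ) : IsProbabilityMeasure (nu j) := ⟨by
  have h := nu_coe j Finset.univ
  rw [Finset.coe_univ] at h
  rw [h, Finset.card_univ, ZMod.card]
  exact ENNReal.inv_mul_cancel (Mj_ne j) (ENNReal.natCast_ne_top _)⟩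

noncomputable def mu : Measure XX := Measure.infinitePi nu

instance instProbMu : IsProbabilityMeasure mu := by
  unfold mu
  infer_instance

noncomputable def Tj (j : ℕ) : ZMod (Mj j) ≃ᵐ ZMod (Mj j) where
  toEquiv := Equiv.addRight 1
  measurable_toFun := measurable_of_countable _
  measurable_invFun := measurable_of_countable _

noncomputable def TT : XX ≃ᵐ XX := MeasurableEquiv.piCongrRight Tj

theorem Tj_map (j : ℕ) : Measure.map (Tj j) (nu j) = nu j := by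
  ext s hs
  rw [Measure.map_apply (Tj j).measurable hs]
  unfold nu
  rw [Measure.smul_apply, Measure.smul_apply]
  congr 1
  have h1 : (Tj j) ⁻¹' s = (Tj j).toEquiv.symm '' s := by
    rw [Equiv.image_symm_eq_preimage]
    rfl
  rw [h1, Measure.count_injective_image (Equiv.injective _)]

theorem TT_apply (x : XX) (j : ℕ) : TT x j = x j + 1 := rfl

theorem TT_symm_apply (x : XX) (j : ℕ) : TT.symm x j = x j - 1 := by
  have h : TT (TT.symm x) = x := TT.apply_symm_apply x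
  have h2 : TT (TT.symm x) j = x j := congrFun h j
  rw [TT_apply] at h2
  rw [← h2]
  ring

theorem TT_iter (x : XX) (j m : ℕ) : ((TT : XX → XX)^[m] x) j = x j + m := by
  induction m with
  | zero => simp
  | succ m ih =>
    rw [Function.iterate_succ_apply', TT_apply, ih]
    push_cast
    ring

theorem TT_symm_iter (x : XX) (j m : ℕ) : ((TT.symm : XX → XX)^[m] x) j = x j - m := by
  induction m with
  | zero => simp
  | succ m ih =>
    rw [Function.iterate_succ_apply', TT_symm_apply, ih]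
    push_cast
    ring

theorem TT_mp : MeasurePreserving TT mu mu := by
  refine ⟨TT.measurable, ?_⟩
  unfold mu
  have h := Measure.infinitePi_map_pi nu (f := fun j => (Tj j : ZMod (Mj j) → ZMod (Mj j)))
    (fun j => (Tj j).measurable)
  have h2 : (fun (x : XX) (i : ℕ) => (Tj i) (x i)) = (TT : XX → XX) := rfl
  rw [h2] at h
  rw [h]
  congr 1
  funext j
  exact Tj_map j

/-- cylinder set -/
def Cyl (j : ℕ) (s : Finset ℕ) : Set XX :=
  {x | x j ∈ s.image (fun y : ℕ => (y : ZMod (Mj j)))}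

theorem Cyl_eq (j : ℕ) (s : Finset ℕ) :
    Cyl j s = Function.eval j ⁻¹' ((s.image (fun y : ℕ => (y : ZMod (Mj j))) : Finset _) : Set _) := rfl

theorem Cyl_meas (j : ℕ) (s : Finset ℕ) : MeasurableSet (Cyl j s) := by
  rw [Cyl_eq]
  exact (measurable_pi_apply j) (Set.to_countable _).measurableSet

theorem mu_Cyl (j : ℕ) (s : Finset ℕ) :
    mu (Cyl j s) = ((Mj j : ℕ) : ℝ≥0∞)⁻¹ * (s.image (fun y : ℕ => (y : ZMod (Mj j)))).card := by
  rw [Cyl_eq]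
  unfold mu
  rw [(measurePreserving_eval_infinitePi nu j).measure_preimage
    ((Set.to_countable _).measurableSet.nullMeasurableSet), nu_coe]

/-- small cylinder sets -/
theorem mu_small (j : ℕ) (s : Finset ℕ) (h : s.card * 2 ^ (20 * j - 7 * j) ≤ 3 ^ (20 * j)) :
    mu (Cyl j s) ≤ ((8192 : ℝ≥0∞)⁻¹) ^ j := by
  rw [mu_Cyl]
  have h1 : (s.image (fun y : ℕ => (y : ZMod (Mj j)))).card ≤ s.card := Finset.card_image_le
  have h2 : (s.image (fun y : ℕ => (y : ZMod (Mj j)))).card * 8192 ^ j ≤ Mj j := by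
    have h3 : 20 * j - 7 * j = 13 * j := by omega
    rw [h3, pow_mul, show (2 : ℕ) ^ 13 = 8192 by norm_num] at h
    unfold Mj
    calc _ ≤ s.card * 8192 ^ j := Nat.mul_le_mul_right _ h1
      _ ≤ _ := by omega
  set c := (s.image (fun y : ℕ => (y : ZMod (Mj j)))).card
  have h3 : (c : ℝ≥0∞) * 8192 ^ j ≤ (Mj j : ℕ) := by exact_mod_cast h2
  rw [← ENNReal.inv_pow]
  rw [ENNReal.le_inv_iff_mul_le, mul_assoc]
  calc ((Mj j : ℕ) : ℝ≥0∞)⁻¹ * ((c : ℝ≥0∞) * 8192 ^ j) ≤ ((Mj j : ℕ) : ℝ≥0∞)⁻¹ * (Mj j : ℕ) := by gcongr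
    _ = 1 := ENNReal.inv_mul_cancel (Mj_ne j) (ENNReal.natCast_ne_top _)

theorem mu_good : ∃ J : ℕ, ∀ j ≥ J, 4⁻¹ ≤ mu (Cyl j (Good (20 * j) (7 * j))) := by
  obtain ⟨J, hJ⟩ := typ_large
  refine ⟨J, fun j hj => ?_⟩
  rw [mu_Cyl]
  have h1 : ((Good (20 * j) (7 * j)).image (fun y : ℕ => (y : ZMod (Mj j)))).card
      = (Good (20 * j) (7 * j)).card := by
    apply Finset.card_image_of_injOn
    intro a ha b hb hab
    have ha' := (Good_mem _ _ _ ha).1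
    have hb' := (Good_mem _ _ _ hb).1
    simp only at hab
    rw [ZMod.natCast_eq_natCast_iff'] at hab
    rwa [Nat.mod_eq_of_lt (by unfold Mj; exact ha'), Nat.mod_eq_of_lt (by unfold Mj; exact hb')] at hab
  rw [h1, card_Good]
  have h2 := hJ j hj
  have h3 : Mj j ≤ 4 * (Typ (20 * j) (7 * j)).card := by
    unfold Mj
    omega
  have h4 : ((Mj j : ℕ) : ℝ≥0∞) ≤ 4 * (Typ (20 * j) (7 * j)).card := by exact_mod_cast h3
  calc (4 : ℝ≥0∞)⁻¹ = 4⁻¹ * (((Mj j : ℕ) : ℝ≥0∞)⁻¹ * (Mj j : ℕ)) := by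
        rw [ENNReal.inv_mul_cancel (Mj_ne j) (ENNReal.natCast_ne_top _), mul_one]
    _ ≤ 4⁻¹ * (((Mj j : ℕ) : ℝ≥0∞)⁻¹ * (4 * (Typ (20 * j) (7 * j)).card)) := by gcongr
    _ = (4⁻¹ * 4) * (((Mj j : ℕ) : ℝ≥0∞)⁻¹ * (Typ (20 * j) (7 * j)).card) := by ring
    _ = _ := by
        rw [ENNReal.inv_mul_cancel (by norm_num) (by norm_num), one_mul]

noncomputable def FF (A : ℕ → Set XX) (x : XX) : ℝ≥0∞ :=
  ⨆ j, (A j).indicator (fun _ => (7382 : ℝ≥0∞) ^ j) x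

theorem FF_meas (A : ℕ → Set XX) (hA : ∀ j, MeasurableSet (A j)) : Measurable (FF A) := by
  unfold FF
  exact Measurable.iSup (fun j => measurable_const.indicator (hA j))

theorem real_key : (7382 : ℝ) ^ ((101 : ℝ) / 100) < 8192 := by
  apply lt_of_pow_lt_pow_left₀ 100 (by norm_num)
  rw [← Real.rpow_natCast, ← Real.rpow_mul (by norm_num)]
  have : (101 : ℝ) / 100 * ((100 : ℕ) : ℝ) = ((101 : ℕ) : ℝ) := by norm_num
  rw [this, Real.rpow_natCast]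
  norm_num

theorem enn_key : (7382 : ℝ≥0∞) ^ ((101 : ℝ) / 100) < 8192 := by
  have h1 : (7382 : ℝ≥0∞) = ENNReal.ofReal 7382 := by norm_num
  have h2 : (8192 : ℝ≥0∞) = ENNReal.ofReal 8192 := by norm_num
  rw [h1, h2, ENNReal.ofReal_rpow_of_pos (by norm_num)]
  exact (ENNReal.ofReal_lt_ofReal_iff (by norm_num)).2 real_key

theorem FF_int (A : ℕ → Set XX) (hA : ∀ j, MeasurableSet (A j))
    (hμ : ∀ j, mu (A j) ≤ ((8192 : ℝ≥0∞)⁻¹) ^ j) :
    ∫⁻ x, (FF A x) ^ ((101 : ℝ) / 100) ∂mu < ⊤ := by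
  set p : ℝ := (101 : ℝ) / 100 with hp
  have hp0 : 0 < p := by rw [hp]; norm_num
  have h1 : ∀ x, (FF A x) ^ p ≤ ∑' j, (A j).indicator (fun _ => ((7382 : ℝ≥0∞) ^ j) ^ p) x := by
    intro x
    rw [← ENNReal.le_rpow_inv_iff hp0]
    unfold FF
    apply iSup_le
    intro j
    rw [ENNReal.le_rpow_inv_iff hp0]
    refine le_trans ?_ (ENNReal.le_tsum j)
    by_cases hx : x ∈ A j
    · rw [Set.indicator_of_mem hx, Set.indicator_of_mem hx]
    · rw [Set.indicator_of_notMem hx, Set.indicator_of_notMem hx, ENNReal.zero_rpow_of_pos hp0]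
  calc ∫⁻ x, (FF A x) ^ p ∂mu
      ≤ ∫⁻ x, ∑' j, (A j).indicator (fun _ => ((7382 : ℝ≥0∞) ^ j) ^ p) x ∂mu := lintegral_mono h1
    _ = ∑' j, ∫⁻ x, (A j).indicator (fun _ => ((7382 : ℝ≥0∞) ^ j) ^ p) x ∂mu :=
        lintegral_tsum (fun j => (measurable_const.indicator (hA j)).aemeasurable)
    _ = ∑' j, ((7382 : ℝ≥0∞) ^ j) ^ p * mu (A j) := by
        congr 1
        funext j
        rw [lintegral_indicator_const (hA j)]
    _ ≤ ∑' j, ((7382 : ℝ≥0∞) ^ p * 8192⁻¹) ^ j := by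
        apply ENNReal.tsum_le_tsum
        intro j
        rw [mul_pow]
        have : ((7382 : ℝ≥0∞) ^ j) ^ p = ((7382 : ℝ≥0∞) ^ p) ^ j := by
          rw [← ENNReal.rpow_natCast, ← ENNReal.rpow_mul, mul_comm, ENNReal.rpow_mul, ENNReal.rpow_natCast]
        rw [this]
        gcongr
        exact hμ j
    _ = (1 - (7382 : ℝ≥0∞) ^ p * 8192⁻¹)⁻¹ := ENNReal.tsum_geometric _
    _ < ⊤ := by
        rw [ENNReal.inv_lt_top]
        rw [tsub_pos_iff_lt]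
        rw [← div_eq_mul_inv]
        rw [ENNReal.div_lt_iff (Or.inl (by norm_num)) (Or.inl (by norm_num)), one_mul]
        exact enn_key

noncomputable def fR (A : ℕ → Set XX) (x : XX) : ℝ := (FF A x).toReal

theorem fR_memLp (A : ℕ → Set XX) (hA : ∀ j, MeasurableSet (A j))
    (hμ : ∀ j, mu (A j) ≤ ((8192 : ℝ≥0∞)⁻¹) ^ j) :
    MemLp (fun x => ((fR A x : ℝ) : ℂ)) (ENNReal.ofReal ((101 : ℝ) / 100)) mu := by
  have hm : Measurable (fun x => ((fR A x : ℝ) : ℂ)) := by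
    unfold fR
    exact Complex.measurable_ofReal.comp (FF_meas A hA).ennreal_toReal
  refine ⟨hm.aestronglyMeasurable, ?_⟩
  have hp1 : ENNReal.ofReal ((101 : ℝ) / 100) ≠ 0 := by
    have : 0 < ENNReal.ofReal ((101 : ℝ) / 100) := ENNReal.ofReal_pos.2 (by norm_num)
    exact this.ne'
  rw [eLpNorm_lt_top_iff_lintegral_rpow_enorm_lt_top hp1 ENNReal.ofReal_ne_top]
  rw [ENNReal.toReal_ofReal (by norm_num)]
  refine lt_of_le_of_lt (lintegral_mono ?_) (FF_int A hA hμ)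
  intro x
  simp only
  apply ENNReal.rpow_le_rpow _ (by norm_num)
  unfold fR
  have h1 : ‖(((FF A x).toReal : ℝ) : ℂ)‖ₑ = ENNReal.ofReal (FF A x).toReal := by
    rw [← ofReal_norm, Complex.norm_real, Real.norm_of_nonneg ENNReal.toReal_nonneg]
  rw [h1]
  exact ENNReal.ofReal_toReal_le

theorem FF_fin (A : ℕ → Set XX) (hA : ∀ j, MeasurableSet (A j))
    (hμ : ∀ j, mu (A j) ≤ ((8192 : ℝ≥0∞)⁻¹) ^ j) : ∀ᵐ x ∂mu, FF A x < ⊤ := by
  have h1 := ae_lt_top ((FF_meas A hA).pow_const ((101 : ℝ) / 100)) (FF_int A hA hμ).ne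
  filter_upwards [h1] with x hx
  by_contra hc
  rw [not_lt, top_le_iff] at hc
  rw [hc, ENNReal.top_rpow_of_pos (by norm_num)] at hx
  exact lt_irrefl _ hx

theorem fR_ge (A : ℕ → Set XX) (x : XX) (hx : FF A x < ⊤) (j : ℕ) (h : x ∈ A j) :
    (7382 : ℝ) ^ j ≤ fR A x := by
  unfold fR
  have h1 : (7382 : ℝ≥0∞) ^ j ≤ FF A x := by
    unfold FF
    refine le_trans ?_ (le_iSup _ j)
    rw [Set.indicator_of_mem h]
  have h2 := ENNReal.toReal_mono hx.ne h1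
  simpa using h2

theorem fR_nonneg (A : ℕ → Set XX) (x : XX) : 0 ≤ fR A x := ENNReal.toReal_nonneg

def AF (j : ℕ) : Set XX := Cyl j (F (20 * j) (7 * j))
def AG (j : ℕ) : Set XX := Cyl j (G (20 * j) (7 * j))
def AE (j : ℕ) : Set XX := Cyl j (Good (20 * j) (7 * j))

theorem AF_meas (j : ℕ) : MeasurableSet (AF j) := Cyl_meas _ _
theorem AG_meas (j : ℕ) : MeasurableSet (AG j) := Cyl_meas _ _
theorem AE_meas (j : ℕ) : MeasurableSet (AE j) := Cyl_meas _ _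

theorem AF_small (j : ℕ) : mu (AF j) ≤ ((8192 : ℝ≥0∞)⁻¹) ^ j :=
  mu_small _ _ (card_F _ _ (by omega))
theorem AG_small (j : ℕ) : mu (AG j) ≤ ((8192 : ℝ≥0∞)⁻¹) ^ j :=
  mu_small _ _ (card_G _ _ (by omega))

/-- the real average -/
noncomputable def avR (N : ℕ) (x : XX) : ℝ :=
  (1 / (N : ℝ)) * ∑ n ∈ Finset.Icc 1 N, (1 + (gw n : ℝ)) * (fR AF ((TT : XX → XX)^[n] x) *
    fR AG ((TT.symm : XX → XX)^[n] x))

theorem avR_big (x : XX) (hF : ∀ n : ℕ, FF AF ((TT : XX → XX)^[n] x) < ⊤)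
    (hG : ∀ n : ℕ, FF AG ((TT.symm : XX → XX)^[n] x) < ⊤) (j : ℕ) (hj : 1 ≤ j) (hx : x ∈ AE j) :
    (1 / 2) * ((64 * 7382 ^ 2 : ℝ) / 3 ^ 20) ^ j ≤ avR (Mj j) x := by
  unfold AE Cyl at hx
  rw [Set.mem_ofPred_eq, Finset.mem_image] at hx
  obtain ⟨y, hy, hyx⟩ := hx
  obtain ⟨hylt, m, hmD, hmF, z, hzG, hyz⟩ := Good_mem _ _ _ hy
  have hmb := D_mem _ _ _ hmD
  have h1 : (TT : XX → XX)^[m] x ∈ AF j := by
    unfold AF Cyl
    rw [Set.mem_ofPred_eq, TT_iter, ← hyx, Finset.mem_image]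
    exact ⟨y + m, hmF, by push_cast; ring⟩
  have h2 : (TT.symm : XX → XX)^[m] x ∈ AG j := by
    unfold AG Cyl
    rw [Set.mem_ofPred_eq, TT_symm_iter, ← hyx, Finset.mem_image]
    exact ⟨z, hzG, by rw [hyz]; push_cast; ring⟩
  have h3 := fR_ge AF _ (hF m) j h1
  have h4 := fR_ge AG _ (hG m) j h2
  have h5 := gw_ge m j hj hmD
  have h5' : (64 : ℝ) ^ j ≤ 1 + (gw m : ℝ) := by
    have : ((64 ^ j : ℕ) : ℝ) ≤ gw m := by exact_mod_cast h5
    push_cast at this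
    linarith
  have hMpos : (0 : ℝ) < (Mj j : ℕ) := by
    have := Nat.pos_of_ne_zero (NeZero.ne (Mj j))
    exact_mod_cast this
  have h6 : (64 : ℝ) ^ j * (7382 ^ j * 7382 ^ j) ≤ ∑ n ∈ Finset.Icc 1 (Mj j), (1 + (gw n : ℝ)) *
      (fR AF ((TT : XX → XX)^[n] x) * fR AG ((TT.symm : XX → XX)^[n] x)) := by
    have hmem : m ∈ Finset.Icc 1 (Mj j) := by
      rw [Finset.mem_Icc]
      have h7 : 0 < 3 ^ (20 * j) := by positivity
      unfold Mj
      omega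
    refine le_trans ?_ (Finset.single_le_sum (f := fun n => (1 + (gw n : ℝ)) *
      (fR AF ((TT : XX → XX)^[n] x) * fR AG ((TT.symm : XX → XX)^[n] x))) ?_ hmem)
    · have h9 := fR_nonneg AF ((TT : XX → XX)^[m] x)
      have h10 : (7382 : ℝ) ^ j * 7382 ^ j ≤ fR AF ((TT : XX → XX)^[m] x) *
          fR AG ((TT.symm : XX → XX)^[m] x) := mul_le_mul h3 h4 (by positivity) h9
      exact mul_le_mul h5' h10 (by positivity) (by positivity)
    · intro n _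
      have := fR_nonneg AF ((TT : XX → XX)^[n] x)
      have := fR_nonneg AG ((TT.symm : XX → XX)^[n] x)
      positivity
  unfold avR
  have h8 : (1 / 2) * ((64 * 7382 ^ 2 : ℝ) / 3 ^ 20) ^ j =
      (1 / ((Mj j : ℕ) : ℝ)) * ((64 : ℝ) ^ j * (7382 ^ j * 7382 ^ j)) := by
    unfold Mj
    push_cast
    have h9 : ((7382 : ℝ) ^ 2) ^ j = 7382 ^ j * 7382 ^ j := by
      rw [← pow_mul, mul_comm 2 j, pow_mul, sq]
    rw [div_pow, mul_pow, h9, ← pow_mul]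
    field_simp
  rw [h8]
  gcongr

theorem limsup_ge : 4⁻¹ ≤ mu (⋂ n : ℕ, ⋃ j : ℕ, ⋃ (_ : n ≤ j), AE j) := by
  obtain ⟨J, hJ⟩ := mu_good
  have hanti : Antitone (fun n : ℕ => ⋃ j : ℕ, ⋃ (_ : n ≤ j), AE j) := by
    intro a b hab x hx
    simp only [Set.mem_iUnion] at hx ⊢
    obtain ⟨j, hj, hx⟩ := hx
    exact ⟨j, hab.trans hj, hx⟩
  have ht := tendsto_measure_iInter_atTop (μ := mu) (s := fun n : ℕ => ⋃ j : ℕ, ⋃ (_ : n ≤ j), AE j)
    (fun n => (MeasurableSet.iUnion (fun j => MeasurableSet.iUnion (fun _ => AE_meas j))).nullMeasurableSet)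
    hanti ⟨0, measure_ne_top _ _⟩
  apply ge_of_tendsto ht
  filter_upwards [eventually_ge_atTop J] with n hn
  refine (hJ n hn).trans ?_
  simp only [Function.comp]
  apply measure_mono
  intro x hx
  simp only [Set.mem_iUnion]
  exact ⟨n, le_rfl, hx⟩

theorem ae_all_fin : ∀ᵐ x ∂mu, (∀ n : ℕ, FF AF ((TT : XX → XX)^[n] x) < ⊤) ∧
    (∀ n : ℕ, FF AG ((TT.symm : XX → XX)^[n] x) < ⊤) := by
  have h1 : ∀ᵐ x ∂mu, ∀ n : ℕ, FF AF ((TT : XX → XX)^[n] x) < ⊤ := by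
    rw [ae_all_iff]
    intro n
    exact (TT_mp.iterate n).quasiMeasurePreserving.ae (FF_fin AF AF_meas AF_small)
  have h2 : ∀ᵐ x ∂mu, ∀ n : ℕ, FF AG ((TT.symm : XX → XX)^[n] x) < ⊤ := by
    rw [ae_all_iff]
    intro n
    exact ((TT_mp.symm TT).iterate n).quasiMeasurePreserving.ae (FF_fin AG AG_meas AG_small)
  filter_upwards [h1, h2] with x hx1 hx2
  exact ⟨hx1, hx2⟩

/-- Divergence set has positive measure -/
theorem diverge : 0 < mu {x | ∀ R : ℝ, ∀ N₀ : ℕ, ∃ N ≥ N₀, R ≤ avR N x} := by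
  have h1 := limsup_ge
  have h2 : (⋂ n : ℕ, ⋃ j : ℕ, ⋃ (_ : n ≤ j), AE j) ≤ᵐ[mu]
      {x | ∀ R : ℝ, ∀ N₀ : ℕ, ∃ N ≥ N₀, R ≤ avR N x} := by
    filter_upwards [ae_all_fin] with x hx hmem
    have hmem' : x ∈ ⋂ n : ℕ, ⋃ j : ℕ, ⋃ (_ : n ≤ j), AE j := hmem
    show x ∈ {x | ∀ R : ℝ, ∀ N₀ : ℕ, ∃ N ≥ N₀, R ≤ avR N x}
    rw [Set.mem_ofPred_eq]
    intro R N₀
    have hr : (1 : ℝ) < (64 * 7382 ^ 2 : ℝ) / 3 ^ 20 := by norm_num
    obtain ⟨k, hk⟩ := pow_unbounded_of_one_lt (2 * R) hr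
    simp only [Set.mem_iInter, Set.mem_iUnion] at hmem'
    obtain ⟨j, hj, hxj⟩ := hmem' (max (max k N₀) 1)
    have hj1 : 1 ≤ j := (le_max_right _ _).trans hj
    have hjk : k ≤ j := ((le_max_left _ _).trans (le_max_left _ _)).trans hj
    have hjN : N₀ ≤ j := ((le_max_right _ _).trans (le_max_left _ _)).trans hj
    refine ⟨Mj j, ?_, ?_⟩
    · have h3 : j < 3 ^ j := Nat.lt_pow_self (by norm_num)
      have h4 : 3 ^ j ≤ 3 ^ (20 * j) := Nat.pow_le_pow_right (by norm_num) (by omega)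
      unfold Mj
      omega
    · refine le_trans ?_ (avR_big x hx.1 hx.2 j hj1 hxj)
      have h5 : ((64 * 7382 ^ 2 : ℝ) / 3 ^ 20) ^ k ≤ ((64 * 7382 ^ 2 : ℝ) / 3 ^ 20) ^ j :=
        pow_le_pow_right₀ hr.le hjk
      linarith
  exact lt_of_lt_of_le (by norm_num) (h1.trans (measure_mono_ae h2))

end Pool.H359R3.W
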