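import Mathlib
import Pool.Agent.H359R3.WG3

set_option autoImplicit false
set_option linter.unusedSectionVars false
set_option linter.unusedVariables false

/-!
Stages and the existence of the next stage.
-/

namespace Pool.H359R3.WH

open MeasureTheory Set Filter Topology
open scoped ENNReal symmDiff
open Pool.H359R3

/-- A stage: `Q` labels, `H = Q * g` intervals. -/
structure St where
  Q : ℕ
  g : ℕ
  hQ : 0 < Q
  hg : 0 < g
  τ : Equiv.Perm (Fin (Q * g))
  s : Equiv.Perm (Fin (Q * g))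
  K : Finset ℕ
  L : ℕ
  E : ℕ
  ε : ℝ
  N : ℕ
  r : ℝ
  ok : StageOK τ s (fun k : Fin (Q * g) => (k : ℕ) / g) K L ε ε
  hKE : ∀ k ∈ K, k + L ≤ E
  hε : 0 < ε
  hr : 0 < r
  hrN : r * N ≤ ε
  hrE : 2 * E * r ≤ ε
  hLN : 2 * L ≤ ε * N

instance (σ : St) : NeZero (σ.Q * σ.g) := ⟨(Nat.mul_pos σ.hQ σ.hg).ne'⟩

noncomputable def St.T (σ : St) : Aut := rz (σ.Q * σ.g) σ.τ
noncomputable def St.S (σ : St) : Aut := rz (σ.Q * σ.g) σ.s

/-- relation between consecutive stages -/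
structure Nxt (U : Set Aut) (δ : ℝ) (M : ℕ) (σ σ' : St) : Prop where
  eps : σ'.ε = δ
  dvd : (σ.Q * σ.g) ∣ σ'.Q
  dvdM : M ∣ σ'.Q
  lt : σ.N < σ'.N
  clT : ∀ T' : Aut, dl (σ'.Q * σ'.g) T'.1 σ'.T.1 ≤ σ'.r → T' ∈ U ∧ dl (σ.Q * σ.g) T'.1 σ.T.1 ≤ σ.r
  clS : dl (σ.Q * σ.g) σ'.S.1 σ.S.1 ≤ 2 * σ.ε
  est : ∀ N : ℕ, σ.N ≤ N → ∑ n ∈ Finset.Icc 1 N, nc (fun k : Fin (σ'.Q * σ'.g) =>
    ((σ'.τ⁻¹ ^ n) (σ'.s k) : ℕ) / (σ'.Q * σ'.g / σ.Q) ≠ ((σ'.τ⁻¹ ^ n) k : ℕ) / (σ'.Q * σ'.g / σ.Q)) ≤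
    N * (7 * σ.ε + 3 * δ) * (σ'.Q * σ'.g : ℕ)

theorem AP_mono {Y Lb : Type} [DecidableEq Lb] (τ : Equiv.Perm Y) (lab : Y → Lb) (L : ℕ) (ε ε' : ℝ)
    (h : ε ≤ ε') (k : ℕ) (hA : AP τ lab L ε k) : AP τ lab L ε' k := by
  intro z
  refine (hA z).trans ?_
  gcongr

/-- transport of a stage along an equivalence -/
theorem StageOK_transport {Y Y' Lb : Type} [Fintype Y] [Fintype Y'] [DecidableEq Lb]
    (e : Y ≃ Y') (τ s : Equiv.Perm Y) (lab : Y → Lb) (lab' : Y' → ℕ)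
    (K : Finset ℕ) (L : ℕ) (ε β ε' : ℝ) (hεε' : ε ≤ ε') (hββ' : β ≤ ε')
    (hlab : ∀ a b, lab a = lab b → lab' (e a) = lab' (e b))
    (h : StageOK τ s lab K L ε β) :
    StageOK (e.permCongr τ) (e.permCongr s) lab' K L ε' ε' := by
  have hpow : ∀ (n : ℤ) (w : Y'), ((e.permCongr τ) ^ n) w = e ((τ ^ n) (e.symm w)) := by
    intro n w
    have : (e.permCongr τ) ^ n = e.permCongr (τ ^ n) := by
      have h1 := map_zpow (Equiv.permCongrHom e) τ n
      exact h1.symm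
    rw [this]
    rfl
  refine ⟨h.hL, ?_, ?_⟩
  · intro k hk z
    have h1 := AP_mono τ lab L ε ε' hεε' k (h.hAP k hk) (e.symm z)
    refine le_trans (Finset.sum_le_sum ?_) h1
    intro u _
    rw [hpow, hpow]
    unfold ind
    by_cases hl : lab ((τ ^ ((k : ℤ) + (u : ℤ))) (e.symm z)) = lab ((τ ^ (u : ℤ)) (e.symm z))
    · rw [if_neg (not_not.2 (hlab _ _ hl)), if_neg (not_not.2 hl)]
    · rw [if_pos hl]
      split_ifs <;> norm_num
  · have h1 : nc (fun z : Y' => ¬ ∃ k ∈ K, (e.permCongr s) z = ((e.permCongr τ) ^ k) z) =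
        nc (fun z : Y => ¬ ∃ k ∈ K, s z = (τ ^ k) z) := by
      apply nc_bij _ _ e.symm
      intro z
      rw [not_iff_not]
      constructor
      · rintro ⟨k, hk, hz⟩
        refine ⟨k, hk, ?_⟩
        have h2 := hpow (k : ℤ) z
        rw [zpow_natCast, zpow_natCast] at h2
        rw [h2] at hz
        have h3 : e (s (e.symm z)) = e ((τ ^ k) (e.symm z)) := hz
        exact e.injective h3
      · rintro ⟨k, hk, hz⟩
        refine ⟨k, hk, ?_⟩
        have h2 := hpow (k : ℤ) z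
        rw [zpow_natCast, zpow_natCast] at h2
        rw [h2, ← hz]
        rfl
    rw [h1, ← Fintype.card_congr e]
    refine h.hs.trans ?_
    gcongr

/-- the equivalence of the product with a finite ordinal -/
noncomputable def eG (G : Type) [Fintype G] (n : ℕ) : G × Fin n ≃ Fin (n * Fintype.card G) :=
  (Equiv.prodComm G (Fin n)).trans ((Equiv.prodCongr (Equiv.refl _) (Fintype.equivFin G)).trans finProdFinEquiv)

theorem eG_div (G : Type) [Fintype G] [Nonempty G] (n : ℕ) (w : G × Fin n) :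
    ((eG G n w : Fin (n * Fintype.card G)) : ℕ) / Fintype.card G = (w.2 : ℕ) := by
  have h1 : ((eG G n w : Fin (n * Fintype.card G)) : ℕ) = (Fintype.equivFin G w.1 : ℕ) + Fintype.card G * (w.2 : ℕ) := rfl
  rw [h1, Nat.add_mul_div_left _ _ Fintype.card_pos, Nat.div_eq_of_lt (Fintype.equivFin G w.1).2, zero_add]

theorem permCongr_inv_pow {Y Y' : Type} (e : Y ≃ Y') (τ : Equiv.Perm Y) (n : ℕ) (w : Y') :
    ((e.permCongr τ)⁻¹ ^ n) w = e ((τ⁻¹ ^ n) (e.symm w)) := by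
  have : (e.permCongr τ)⁻¹ ^ n = e.permCongr (τ⁻¹ ^ n) := by
    have h1 := map_pow (Equiv.permCongrHom e) τ⁻¹ n
    rw [map_inv] at h1
    exact h1.symm
  rw [this]
  rfl

theorem next (σ : St) (U : Set Aut) (hUo : @IsOpen Aut unif.toTopologicalSpace U)
    (hUd : @Dense Aut unif.toTopologicalSpace U) (δ : ℝ) (hδ : 0 < δ) (hδ1 : δ ≤ 1) (M : ℕ) (hM : 0 < M) :
    ∃ σ' : St, Nxt U δ M σ σ' := by
  classical
  let _ := unif
  set H : ℕ := σ.Q * σ.g with hHdef
  have hH : 0 < H := Nat.mul_pos σ.hQ σ.hg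
  -- a target in U
  set W : Set Aut := {T' : Aut | dl H T'.1 σ.T.1 < σ.r} with hW
  have hWn : W ∈ nhds σ.T := dl_nhds σ.T H hH σ.r σ.hr
  obtain ⟨T, hTO, hTU⟩ : ∃ T, T ∈ interior W ∧ T ∈ U := by
    have h1 : (interior W ∩ U).Nonempty :=
      hUd.inter_open_nonempty _ isOpen_interior ⟨σ.T, mem_interior_iff_mem_nhds.2 hWn⟩
    obtain ⟨T, h2, h3⟩ := h1
    exact ⟨T, h2, h3⟩
  have hOopen : IsOpen (U ∩ interior W) := hUo.inter isOpen_interior
  obtain ⟨m1, hm1, θ1, hθ1, hball1⟩ := nhds_dl T (U ∩ interior W) (hOopen.mem_nhds ⟨hTU, hTO⟩) (H * M) (by positivity)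
  obtain ⟨n, _, hn, t0, ht0⟩ := perm_dense T (H * M * m1) (by positivity) θ1 hθ1
  have ht0O := hball1 _ ht0
  have hnpos : 0 < n := NeZero.pos n
  obtain ⟨m2, hm2, θ2, hθ2, hball2⟩ := nhds_dl (rz n t0) (U ∩ interior W) (hOopen.mem_nhds ht0O) n hnpos
  -- the lifted permutation
  have hHn : H ∣ n := (Dvd.intro _ (mul_assoc H M m1).symm).trans hn
  have hMn : M ∣ n := (Dvd.intro_left H rfl).trans ((Dvd.intro m1 rfl).trans hn)
  obtain ⟨c, hc⟩ := hHn
  have hcpos : 0 < c := by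
    rcases Nat.eq_zero_or_pos c with h | h
    · rw [h, mul_zero] at hc; omega
    · exact h
  set HX : ℕ := n * m2 with hHX
  have : NeZero HX := ⟨by positivity⟩
  set m : ℕ := c * m2 with hm
  have hmpos : 0 < m := by positivity
  have hHXm : HX = H * m := by rw [hHX, hc, hm]; ring
  set t : Equiv.Perm (Fin HX) := lft n m2 t0 with ht
  have htr : ∀ x, (rz HX t).1 x = (rz n t0).1 x := fun x => rz_lft n m2 hm2 t0 x
  let y : Fin HX → Fin H := fun l => ⟨(l : ℕ) / m, by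
    rw [Nat.div_lt_iff_lt_mul hmpos, ← hHXm]; exact l.2⟩
  have hNH : NeZero H := ⟨hH.ne'⟩
  have hHXr : (0 : ℝ) < (HX : ℝ) := by
    have : 0 < HX := NeZero.pos HX
    exact_mod_cast this
  have hfl : ∀ x, fl H x = fl HX x / m := by
    intro x
    rw [hHXm]
    exact fl_div H m hH hmpos x
  have hyf : ∀ x ∈ Ico (0 : ℝ) 1, y (flf HX x) = flf H x := by
    intro x hx
    apply Fin.ext
    show ((flf HX x : Fin HX) : ℕ) / m = (flf H x : ℕ)
    rw [flf_val _ _ hx, flf_val _ _ hx, hfl]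
  -- closeness of t to τ
  have hθ : nc (fun l : Fin HX => y (t l) ≠ σ.τ (y l)) ≤ σ.r * Fintype.card (Fin HX) := by
    have h1 : dl H (rz HX t).1 σ.T.1 < σ.r := by
      have h2 : rz n t0 ∈ W := interior_subset ht0O.2
      have h3 : dl H (rz n t0).1 σ.T.1 < σ.r := h2
      unfold dl at h3 ⊢
      simp_rw [htr]
      exact h3
    have h2 : lam.real {x | y (t (flf HX x)) ≠ σ.τ (y (flf HX x))} ≤ dl H (rz HX t).1 σ.T.1 := by
      unfold dl
      apply ENNReal.toReal_mono (measure_ne_top _ _)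
      apply measure_mono_ae
      filter_upwards [ae_Ico] with x hx hmem
      have hmem' : y (t (flf HX x)) ≠ σ.τ (y (flf HX x)) := hmem
      show fl H ((rz HX t).1 x) ≠ fl H (σ.T.1 x)
      intro h
      apply hmem'
      obtain ⟨e1, e2⟩ := rzf_mem HX t x hx
      have f1 := rzf_mem H σ.τ x hx
      rw [hyf x hx]
      have g1 : y (t (flf HX x)) = flf H ((rz HX t).1 x) := by
        rw [← e2, hyf _ e1]
        rfl
      have g2 : σ.τ (flf H x) = flf H (σ.T.1 x) := f1.2.symm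
      rw [g1, g2]
      apply Fin.ext
      have e1' : (rz HX t).1 x ∈ Ico (0 : ℝ) 1 := e1
      have f1' : σ.T.1 x ∈ Ico (0 : ℝ) 1 := f1.1
      rw [flf_val _ _ e1', flf_val _ _ f1']
      exact h
    rw [lam_lab HX (fun l => y (t l) ≠ σ.τ (y l)), div_le_iff₀ hHXr] at h2
    rw [Fintype.card_fin]
    refine h2.trans ?_
    gcongr
  have hfib : ∀ z : Fin H, (Fintype.card (Fin H) : ℝ) * nc (fun l : Fin HX => y l = z) = Fintype.card (Fin HX) := by
    intro z
    have h1 : lam.real {x | y (flf HX x) = z} = nc (fun l : Fin HX => y l = z) / HX :=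
      lam_lab HX (fun l => y l = z)
    have h2 : lam.real {x | y (flf HX x) = z} = lam.real {x | flf H x = z} := by
      apply measureReal_congr
      filter_upwards [ae_Ico] with x hx
      apply propext
      show y (flf HX x) = z ↔ flf H x = z
      rw [hyf x hx]
    have h3 : lam.real {x | flf H x = z} = 1 / H := by
      have h4 := lam_lab H (fun k => k = z)
      have h5 : nc (fun k : Fin H => k = z) = 1 := by
        rw [← nc_eq, Finset.filter_eq' Finset.univ z]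
        simp
      rw [h5] at h4
      exact h4
    have hHr : (0 : ℝ) < (H : ℝ) := by exact_mod_cast hH
    rw [h2, h3] at h1
    rw [Fintype.card_fin, Fintype.card_fin]
    field_simp at h1
    linarith
  -- apply the step
  set δ' : ℝ := min δ (min (θ2 / 4) 1) with hδ'
  have hδ'0 : 0 < δ' := by
    rw [hδ']
    exact lt_min hδ (lt_min (by positivity) one_pos)
  have hδ'1 : δ' ≤ 1 := (min_le_right _ _).trans (min_le_right _ _)
  have hδ'δ : δ' ≤ δ := min_le_left _ _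
  have hδ'θ : δ' ≤ θ2 / 4 := (min_le_right _ _).trans (min_le_left _ _)
  obtain ⟨G, _, _, T1, S1, K1, L1, c1, c2, c3, c4⟩ :=
    step σ.τ σ.s (fun k : Fin H => (k : ℕ) / σ.g) σ.K σ.L σ.ε σ.ε σ.hε.le σ.ok σ.E σ.hKE t y hfib σ.r hθ
      δ' hδ'0 hδ'1
  set g' : ℕ := Fintype.card G with hg'
  have hg'pos : 0 < g' := Fintype.card_pos
  have hNZ : NeZero (HX * g') := ⟨by positivity⟩
  have hHX0 : 0 < HX := NeZero.pos HX
  set e := eG G HX with he
  have hcardZ : (Fintype.card (G × Fin HX) : ℝ) = ((HX * g' : ℕ) : ℝ) := by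
    rw [Fintype.card_prod, Fintype.card_fin, mul_comm]
  have hZr : (0 : ℝ) < ((HX * g' : ℕ) : ℝ) := by
    have : 0 < HX * g' := by positivity
    exact_mod_cast this
  -- new parameters
  set E1 : ℕ := K1.sup id + L1 with hE1
  set N1 : ℕ := max (σ.N + 1) ⌈2 * (L1 : ℝ) / δ⌉₊ with hN1
  set r1 : ℝ := min (θ2 / 4) (min (δ / (N1 + 1)) (δ / (2 * E1 + 1))) with hr1
  have hr1pos : 0 < r1 := by
    rw [hr1]
    refine lt_min (by positivity) (lt_min (by positivity) (by positivity))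
  have hok : StageOK (e.permCongr T1) (e.permCongr S1) (fun k : Fin (HX * g') => (k : ℕ) / g') K1 L1 δ δ := by
    refine StageOK_transport e T1 S1 Prod.snd _ K1 L1 δ' δ' δ hδ'δ hδ'δ ?_ c3
    intro a b hab
    show ((e a : Fin (HX * g')) : ℕ) / g' = ((e b : Fin (HX * g')) : ℕ) / g'
    rw [eG_div, eG_div, hab]
  let σ' : St := {
    Q := HX
    g := g'
    hQ := hHX0
    hg := hg'pos
    τ := e.permCongr T1
    s := e.permCongr S1
    K := K1
    L := L1
    E := E1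
    ε := δ
    N := N1
    r := r1
    ok := hok
    hKE := by
      intro k hk
      have : k ≤ K1.sup id := Finset.le_sup (f := id) hk
      omega
    hε := hδ
    hr := hr1pos
    hrN := by
      have h1 : r1 ≤ δ / (N1 + 1) := (min_le_right _ _).trans (min_le_left _ _)
      have h2 : (0 : ℝ) ≤ (N1 : ℝ) := by positivity
      calc r1 * (N1 : ℝ) ≤ δ / (N1 + 1) * N1 := by gcongr
        _ ≤ δ := by
          rw [div_mul_eq_mul_div, div_le_iff₀ (by positivity)]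
          nlinarith
    hrE := by
      have h1 : r1 ≤ δ / (2 * E1 + 1) := (min_le_right _ _).trans (min_le_right _ _)
      have h2 : (0 : ℝ) ≤ (E1 : ℝ) := by positivity
      calc 2 * (E1 : ℝ) * r1 ≤ 2 * E1 * (δ / (2 * E1 + 1)) := by gcongr
        _ ≤ δ := by
          rw [mul_div_assoc', div_le_iff₀ (by positivity)]
          nlinarith
    hLN := by
      have h1 : 2 * (L1 : ℝ) / δ ≤ N1 := by
        have h0 : ⌈2 * (L1 : ℝ) / δ⌉₊ ≤ N1 := le_max_right _ _
        exact (Nat.le_ceil _).trans (Nat.cast_le.2 h0)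
      rw [div_le_iff₀ hδ] at h1
      linarith }
  -- labels of the new realizations
  have hlabX : ∀ x ∈ Ico (0 : ℝ) 1, ((flf (HX * g') x : Fin (HX * g')) : ℕ) / g' = (flf HX x : ℕ) := by
    intro x hx
    rw [flf_val _ _ hx, flf_val _ _ hx, ← fl_div HX g' hHX0 hg'pos]
  have hsnd : ∀ k : Fin (HX * g'), ((e.symm k).2 : ℕ) = (k : ℕ) / g' := by
    intro k
    have h1 := eG_div G HX (e.symm k)
    rw [← he, Equiv.apply_symm_apply] at h1
    exact h1.symm
  have hsndf : ∀ x ∈ Ico (0 : ℝ) 1, (e.symm (flf (HX * g') x)).2 = flf HX x := by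
    intro x hx
    apply Fin.ext
    rw [hsnd, hlabX x hx]
  -- general transfer
  have htrans : ∀ (R : Equiv.Perm (G × Fin HX)) (x : ℝ), x ∈ Ico (0 : ℝ) 1 →
      flf HX ((rz (HX * g') (e.permCongr R)).1 x) = (R (e.symm (flf (HX * g') x))).2 := by
    intro R x hx
    obtain ⟨e1, e2⟩ := rzf_mem (HX * g') (e.permCongr R) x hx
    rw [rz_apply, ← hsndf _ e1, e2]
    show (e.symm (e (R (e.symm (flf (HX * g') x))))).2 = _
    rw [Equiv.symm_apply_apply]
  have hdlT : dl HX σ'.T.1 (rz HX t).1 ≤ δ' := by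
    have h1 : dl HX σ'.T.1 (rz HX t).1 ≤
        lam.real {x | (T1 (e.symm (flf (HX * g') x))).2 ≠ t (e.symm (flf (HX * g') x)).2} := by
      unfold dl
      apply ENNReal.toReal_mono (measure_ne_top _ _)
      apply measure_mono_ae
      filter_upwards [ae_Ico] with x hx hmem
      have hmem' : fl HX (σ'.T.1 x) ≠ fl HX ((rz HX t).1 x) := hmem
      show (T1 (e.symm (flf (HX * g') x))).2 ≠ t (e.symm (flf (HX * g') x)).2
      intro h
      apply hmem'
      have h2 := htrans T1 x hx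
      obtain ⟨e1, e2⟩ := rzf_mem HX t x hx
      have e3 := (rzf_mem (HX * g') (e.permCongr T1) x hx).1
      rw [hsndf x hx] at h
      rw [h] at h2
      have h3 : flf HX (σ'.T.1 x) = flf HX ((rz HX t).1 x) := h2.trans e2.symm
      have e3' : σ'.T.1 x ∈ Ico (0 : ℝ) 1 := e3
      have e1' : (rz HX t).1 x ∈ Ico (0 : ℝ) 1 := e1
      rw [← flf_val _ _ e3', ← flf_val _ _ e1', h3]
    have h2 := lam_lab (HX * g') (fun k => (T1 (e.symm k)).2 ≠ t (e.symm k).2)
    have h3 : nc (fun k : Fin (HX * g') => (T1 (e.symm k)).2 ≠ t (e.symm k).2) =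
        nc (fun w : G × Fin HX => (T1 w).2 ≠ t w.2) := nc_bij _ _ e.symm (fun _ => Iff.rfl)
    rw [h3] at h2
    rw [h2] at h1
    refine h1.trans ?_
    rw [div_le_iff₀ hZr, ← hcardZ]
    exact c1
  refine ⟨σ', rfl, ?_, ?_, ?_, ?_, ?_, ?_⟩
  · show H ∣ HX
    rw [hHXm]
    exact Dvd.intro _ rfl
  · exact hMn.trans (Dvd.intro _ rfl)
  · show σ.N < N1
    rw [hN1]
    exact lt_of_lt_of_le (Nat.lt_succ_self _) (le_max_left _ _)
  · intro T' hT'
    have hT'r : dl (HX * g') T'.1 σ'.T.1 ≤ r1 := hT'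
    have h1 : dl HX T'.1 σ'.T.1 ≤ θ2 / 4 :=
      (dl_mono HX g' hHX0 hg'pos _ _).trans (hT'r.trans (min_le_left _ _))
    have h2 : dl HX T'.1 (rz HX t).1 ≤ θ2 / 4 + θ2 / 4 :=
      (dl_tri HX _ _ _).trans (add_le_add h1 (hdlT.trans hδ'θ))
    have h3 : dl (n * m2) T'.1 (rz n t0).1 < θ2 := by
      have h4 : dl (n * m2) T'.1 (rz n t0).1 = dl HX T'.1 (rz HX t).1 := by
        unfold dl
        simp_rw [htr]
        rfl
      rw [h4]
      linarith
    have h5 := hball2 T' h3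
    refine ⟨h5.1, ?_⟩
    have h6 : T' ∈ W := interior_subset h5.2
    exact le_of_lt h6
  · -- closeness of S
    have h1 : dl H σ'.S.1 σ.S.1 ≤
        lam.real {x | y (S1 (e.symm (flf (HX * g') x))).2 ≠ σ.s (y (e.symm (flf (HX * g') x)).2)} := by
      unfold dl
      apply ENNReal.toReal_mono (measure_ne_top _ _)
      apply measure_mono_ae
      filter_upwards [ae_Ico] with x hx hmem
      have hmem' : fl H (σ'.S.1 x) ≠ fl H (σ.S.1 x) := hmem
      show y (S1 (e.symm (flf (HX * g') x))).2 ≠ σ.s (y (e.symm (flf (HX * g') x)).2)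
      intro h
      apply hmem'
      have h2 := htrans S1 x hx
      have e3 : σ'.S.1 x ∈ Ico (0 : ℝ) 1 := (rzf_mem (HX * g') (e.permCongr S1) x hx).1
      obtain ⟨e1, e2⟩ := rzf_mem H σ.s x hx
      have e1' : σ.S.1 x ∈ Ico (0 : ℝ) 1 := e1
      rw [hsndf x hx, hyf x hx] at h
      have h3 : y (flf HX (σ'.S.1 x)) = σ.s (flf H x) := by
        have h4 : flf HX (σ'.S.1 x) = (S1 (e.symm (flf (HX * g') x))).2 := h2
        rw [h4]
        exact h
      rw [hyf _ e3] at h3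
      have h5 : flf H (σ'.S.1 x) = flf H (σ.S.1 x) := h3.trans e2.symm
      rw [← flf_val _ _ e3, ← flf_val _ _ e1', h5]
    have h2 := lam_lab (HX * g') (fun k => y (S1 (e.symm k)).2 ≠ σ.s (y (e.symm k).2))
    have h3 : nc (fun k : Fin (HX * g') => y (S1 (e.symm k)).2 ≠ σ.s (y (e.symm k).2)) =
        nc (fun w : G × Fin HX => y (S1 w).2 ≠ σ.s (y w.2)) := nc_bij _ _ e.symm (fun _ => Iff.rfl)
    rw [h3] at h2
    rw [h2] at h1
    refine h1.trans ?_
    rw [div_le_iff₀ hZr, ← hcardZ]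
    refine c2.trans ?_
    have h4 := σ.hrE
    gcongr
    linarith
  · intro N hN
    have h1 := c4 N
    have hdiv : HX * g' / σ.Q = σ.g * m * g' := by
      rw [hHXm, hHdef]
      apply Nat.div_eq_of_eq_mul_right σ.hQ
      ring
    have h2 : ∑ n ∈ Finset.Icc 1 N, nc (fun k : Fin (HX * g') =>
        (((e.permCongr T1)⁻¹ ^ n) ((e.permCongr S1) k) : ℕ) / (HX * g' / σ.Q) ≠
          (((e.permCongr T1)⁻¹ ^ n) k : ℕ) / (HX * g' / σ.Q)) =
        ∑ n ∈ Finset.Icc 1 N, nc (fun w : G × Fin HX =>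
        ((y ((T1⁻¹ ^ n) (S1 w)).2 : Fin H) : ℕ) / σ.g ≠ ((y ((T1⁻¹ ^ n) w).2 : Fin H) : ℕ) / σ.g) := by
      apply Finset.sum_congr rfl
      intro n _
      apply nc_bij _ _ e.symm
      intro k
      have hl : ∀ k' : Fin (HX * g'), ((y (e.symm k').2 : Fin H) : ℕ) / σ.g = (k' : ℕ) / (HX * g' / σ.Q) := by
        intro k'
        show ((e.symm k').2 : ℕ) / m / σ.g = _
        rw [hsnd, hdiv, Nat.div_div_eq_div_mul, Nat.div_div_eq_div_mul]
        congr 1
        ring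
      have e1 : (((e.permCongr T1)⁻¹ ^ n) ((e.permCongr S1) k) : ℕ) / (HX * g' / σ.Q) =
          ((y ((T1⁻¹ ^ n) (S1 (e.symm k))).2 : Fin H) : ℕ) / σ.g := by
        rw [← hl, permCongr_inv_pow, Equiv.symm_apply_apply]
        show ((y ((T1⁻¹ ^ n) (e.symm (e (S1 (e.symm k))))).2 : Fin H) : ℕ) / σ.g = _
        rw [Equiv.symm_apply_apply]
      have e2 : (((e.permCongr T1)⁻¹ ^ n) k : ℕ) / (HX * g' / σ.Q) =
          ((y ((T1⁻¹ ^ n) (e.symm k)).2 : Fin H) : ℕ) / σ.g := by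
        rw [← hl, permCongr_inv_pow, Equiv.symm_apply_apply]
      rw [e1, e2]
    show ∑ n ∈ Finset.Icc 1 N, nc (fun k : Fin (HX * g') =>
        (((e.permCongr T1)⁻¹ ^ n) ((e.permCongr S1) k) : ℕ) / (HX * g' / σ.Q) ≠
          (((e.permCongr T1)⁻¹ ^ n) k : ℕ) / (HX * g' / σ.Q)) ≤ N * (7 * σ.ε + 3 * δ) * ((HX * g' : ℕ) : ℝ)
    rw [h2]
    refine h1.trans ?_
    rw [hcardZ]
    have hN' : (σ.N : ℝ) ≤ N := by exact_mod_cast hN
    have h3 := σ.hrE
    have h4 := σ.hLN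
    have h5 := σ.hε
    have h6 : 2 * (σ.L : ℝ) ≤ σ.ε * N := h4.trans (by gcongr)
    have hN0 : (0 : ℝ) ≤ N := by positivity
    apply mul_le_mul_of_nonneg_right _ hZr.le
    have h7 : σ.ε + 2 * σ.E * σ.r + δ' + 2 * σ.ε + 2 * (δ' + 2 * σ.E * σ.r) ≤ 6 * σ.ε + 3 * δ := by
      linarith
    calc (N : ℝ) * (σ.ε + 2 * σ.E * σ.r + δ' + 2 * σ.ε + 2 * (δ' + 2 * σ.E * σ.r)) + 2 * σ.L
        ≤ N * (6 * σ.ε + 3 * δ) + σ.ε * N := by
          apply add_le_add _ h6
          apply mul_le_mul_of_nonneg_left h7 hN0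
      _ = N * (7 * σ.ε + 3 * δ) := by ring

end Pool.H359R3.WH
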