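import Mathlib
import Pool.Agent.H359R3.WG4

set_option autoImplicit false
set_option linter.unusedSectionVars false
set_option linter.unusedVariables false

/-!
The limit pair `(T, S)` inside a countable intersection of dense open sets.
-/

namespace Pool.H359R3.WH

open MeasureTheory Set Filter Topology
open scoped ENNReal symmDiff
open Pool.H359R3

/-- initial stage: two intervals, swapped -/
noncomputable def st0 : St where
  Q := 1
  g := 2
  hQ := one_pos
  hg := two_pos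
  τ := Equiv.swap (0 : Fin (1 * 2)) 1
  s := Equiv.swap (0 : Fin (1 * 2)) 1
  K := {1}
  L := 1
  E := 2
  ε := (1 / 2) ^ 4
  N := 32
  r := 1 / 1000
  ok := by
    refine ⟨one_pos, ?_, ?_⟩
    · intro k _ z
      have h0 : ∀ w : Fin (1 * 2), (w : ℕ) / 2 = 0 := by
        intro w
        have := w.2
        omega
      have h1 : ∀ u ∈ Finset.range 1, ind ((fun k : Fin (1 * 2) => (k : ℕ) / 2)
          (((Equiv.swap (0 : Fin (1 * 2)) 1) ^ ((k : ℤ) + (u : ℤ))) z) ≠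
          (fun k : Fin (1 * 2) => (k : ℕ) / 2) (((Equiv.swap (0 : Fin (1 * 2)) 1) ^ (u : ℤ)) z)) = 0 := by
        intro u _
        unfold ind
        rw [if_neg]
        rw [not_not]
        show (_ : ℕ) / 2 = (_ : ℕ) / 2
        rw [h0, h0]
      rw [Finset.sum_congr rfl h1]
      simp
    · have h1 : nc (fun z : Fin (1 * 2) => ¬ ∃ k ∈ ({1} : Finset ℕ), (Equiv.swap (0 : Fin (1 * 2)) 1) z =
          ((Equiv.swap (0 : Fin (1 * 2)) 1) ^ k) z) = 0 := by
        classical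
        rw [← nc_eq]
        have : Finset.univ.filter (fun z : Fin (1 * 2) => ¬ ∃ k ∈ ({1} : Finset ℕ), (Equiv.swap (0 : Fin (1 * 2)) 1) z =
          ((Equiv.swap (0 : Fin (1 * 2)) 1) ^ k) z) = ∅ := by
          apply Finset.filter_eq_empty_iff.2
          intro z _ h
          exact h ⟨1, Finset.mem_singleton_self _, by rw [pow_one]⟩
        rw [this]
        simp
      rw [h1]
      positivity
  hKE := by
    intro k hk
    rw [Finset.mem_singleton] at hk
    omega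
  hε := by positivity
  hr := by norm_num
  hrN := by norm_num
  hrE := by norm_num
  hLN := by norm_num

section seq

variable (U : ℕ → Set Aut) (hUo : ∀ n, @IsOpen Aut unif.toTopologicalSpace (U n))
  (hUd : ∀ n, @Dense Aut unif.toTopologicalSpace (U n))

noncomputable def epsj (j : ℕ) : ℝ := (1 / 2) ^ (j + 4)

theorem epsj_pos (j : ℕ) : 0 < epsj j := by unfold epsj; positivity
theorem epsj_le (j : ℕ) : epsj j ≤ 1 := by
  unfold epsj
  exact pow_le_one₀ (by norm_num) (by norm_num)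
theorem epsj_succ (j : ℕ) : epsj (j + 1) = epsj j / 2 := by unfold epsj; ring
theorem epsj_tend : Tendsto epsj atTop (𝓝 0) := by
  unfold epsj
  have h := (tendsto_pow_atTop_nhds_zero_of_lt_one (show (0 : ℝ) ≤ 1 / 2 by norm_num) (by norm_num))
  exact h.comp (tendsto_add_atTop_nat 4)

include hUo hUd in
/-- the sequence of stages -/
theorem exists_seq : ∃ σ : ℕ → St, σ 0 = st0 ∧
    ∀ j, Nxt (U j) (epsj (j + 1)) (j + 1).factorial (σ j) (σ (j + 1)) := by
  have h : ∀ (j : ℕ) (σ : St), ∃ σ' : St, Nxt (U j) (epsj (j + 1)) (j + 1).factorial σ σ' :=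
    fun j σ => next σ (U j) (hUo j) (hUd j) (epsj (j + 1)) (epsj_pos _) (epsj_le _) _ (Nat.factorial_pos _)
  choose F hF using h
  exact ⟨fun j => Nat.rec st0 (fun j σ => F j σ) j, rfl, fun j => hF j _⟩

end seq

theorem main_exists (U : ℕ → Set Aut) (hUo : ∀ n, @IsOpen Aut unif.toTopologicalSpace (U n))
    (hUd : ∀ n, @Dense Aut unif.toTopologicalSpace (U n)) :
    ∃ T S : Aut, (∀ n, T ∈ U n) ∧ (¬ ∀ᵐ x ∂lam, S.1 x = x) ∧
      ∀ A : Set ℝ, MeasurableSet A → ∀ η : ℝ, 0 < η → ∃ N₀ : ℕ, ∀ N ≥ N₀,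
        ∑ n ∈ Finset.Icc 1 N,
          lam.real ((((T.1.symm : ℝ → ℝ)^[n] ∘ (S.1 : ℝ → ℝ) ∘ (T.1 : ℝ → ℝ)^[n]) ⁻¹' A) ∆ A) ≤ η * N := by
  obtain ⟨σ, hσ0, hσ⟩ := exists_seq U hUo hUd
  set H : ℕ → ℕ := fun j => (σ j).Q * (σ j).g with hH
  have hHpos : ∀ j, 0 < H j := fun j => Nat.mul_pos (σ j).hQ (σ j).hg
  have heps : ∀ j, (σ j).ε = epsj j := by
    intro j
    cases j with
    | zero => rw [hσ0]; rfl
    | succ j => exact (hσ j).eps
  have hQdvd : ∀ j, H j ∣ (σ (j + 1)).Q := fun j => (hσ j).dvd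
  have hHdvd : ∀ j, H j ∣ H (j + 1) := fun j => (hQdvd j).mul_right _
  have hHdvd' : ∀ j i, j ≤ i → H j ∣ H i := by
    intro j i hji
    induction i, hji using Nat.le_induction with
    | base => exact dvd_rfl
    | succ i _ ih => exact ih.trans (hHdvd i)
  have hfac : ∀ j, (j + 1).factorial ∣ (σ (j + 1)).Q := fun j => (hσ j).dvdM
  have hQm : ∀ m : ℕ, 0 < m → ∀ j, m ≤ j → m ∣ (σ j).Q := by
    intro m hm j hj
    obtain ⟨i, rfl⟩ : ∃ i, j = i + 1 := ⟨j - 1, by omega⟩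
    exact (Nat.dvd_factorial hm hj).trans (hfac i)
  have hcof : ∀ m : ℕ, 0 < m → ∃ j, ∀ i ≥ j, m ∣ H i := by
    intro m hm
    exact ⟨m, fun i hi => (hQm m hm i hi).mul_right _⟩
  have hNlt : ∀ j, (σ j).N < (σ (j + 1)).N := fun j => (hσ j).lt
  have hNmono : StrictMono (fun j => (σ j).N) := strictMono_nat_of_lt_succ hNlt
  have hN1 : ∀ j, 1 ≤ (σ j).N := by
    intro j
    have h1 : (σ 0).N ≤ (σ j).N := hNmono.monotone (Nat.zero_le j)
    rw [hσ0] at h1
    have h2 : st0.N = 32 := rfl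
    omega
  have hr : ∀ j, (σ j).r ≤ epsj j := by
    intro j
    have h1 := (σ j).hrN
    rw [heps] at h1
    have h2 : (1 : ℝ) ≤ (σ j).N := by exact_mod_cast hN1 j
    have h3 := (σ j).hr
    nlinarith
  -- chain for T
  have hchain : ∀ j i, j ≤ i → ∀ T' : Aut, dl (H i) T'.1 (σ i).T.1 ≤ (σ i).r → dl (H j) T'.1 (σ j).T.1 ≤ (σ j).r := by
    intro j i hji
    induction i, hji using Nat.le_induction with
    | base => intro T' h; exact h
    | succ i _ ih =>
      intro T' h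
      exact ih T' ((hσ i).clT T' h).2
  have hself : ∀ (j : ℕ) (f : ℝ → ℝ), dl (H j) f f = 0 := by
    intro j f
    unfold dl
    simp
  have hT1 : ∀ j i, j ≤ i → dl (H j) (σ i).T.1 (σ j).T.1 ≤ (σ j).r := by
    intro j i hji
    apply hchain j i hji
    rw [hself]
    exact (σ i).hr.le
  have hrt : Tendsto (fun j => (σ j).r) atTop (𝓝 0) :=
    squeeze_zero (fun j => (σ j).hr.le) hr epsj_tend
  obtain ⟨T, hT⟩ := limit_exists H hHpos hcof (fun j => (σ j).T) (fun j => (σ j).r) hrt hT1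
    (fun j i hji => (inv_close _ (σ j).τ (σ i).T).trans (hT1 j i hji))
  -- chain for S
  have hS1 : ∀ j i, j ≤ i → dl (H j) (σ i).S.1 (σ j).S.1 ≤ 4 * epsj j - 4 * epsj i := by
    intro j i hji
    induction i, hji using Nat.le_induction with
    | base => rw [hself]; linarith
    | succ i hi ih =>
      have h1 := dl_tri (H j) (σ (i + 1)).S.1 (σ i).S.1 (σ j).S.1
      have h2 := dl_dvd (H j) (H i) (hHpos j) (hHpos i) (hHdvd' j i hi) (σ (i + 1)).S.1 (σ i).S.1
      have h3 := (hσ i).clS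
      rw [heps] at h3
      have h4 := epsj_succ i
      have h3' : dl (H i) (σ (i + 1)).S.1 (σ i).S.1 ≤ 2 * epsj i := h3
      linarith
  have hS2 : ∀ j i, j ≤ i → dl (H j) (σ i).S.1 (σ j).S.1 ≤ 4 * epsj j := by
    intro j i hji
    have := hS1 j i hji
    have := epsj_pos i
    linarith
  have h4t : Tendsto (fun j => 4 * epsj j) atTop (𝓝 0) := by
    have := epsj_tend.const_mul 4
    rwa [mul_zero] at this
  obtain ⟨S, hS⟩ := limit_exists H hHpos hcof (fun j => (σ j).S) (fun j => 4 * epsj j) h4t hS2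
    (fun j i hji => (inv_close _ (σ j).s (σ i).S).trans (hS2 j i hji))
  refine ⟨T, S, ?_, ?_, ?_⟩
  · intro n
    exact ((hσ n).clT T (hT (n + 1))).1
  · -- nontriviality
    intro hid
    have h0 := hS 0
    have h1 : dl (H 0) S.1 (σ 0).S.1 = 1 := by
      have hall : ∀ᵐ x ∂lam, fl (H 0) (S.1 x) ≠ fl (H 0) ((σ 0).S.1 x) := by
        filter_upwards [hid, ae_Ico] with x hx hxI
        rw [hx]
        have hH0 : H 0 = 1 * 2 := by rw [hH]; simp only; rw [hσ0]; rfl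
        show fl ((σ 0).Q * (σ 0).g) x ≠ fl ((σ 0).Q * (σ 0).g) ((σ 0).S.1 x)
        rw [hσ0]
        obtain ⟨e1, e2⟩ := rzf_mem (1 * 2) (Equiv.swap (0 : Fin (1 * 2)) 1) x hxI
        show fl (1 * 2) x ≠ fl (1 * 2) (rzf (1 * 2) (Equiv.swap (0 : Fin (1 * 2)) 1) x)
        rw [← flf_val _ _ hxI, ← flf_val _ _ e1, e2]
        intro h
        have h2 : flf (1 * 2) x = Equiv.swap (0 : Fin (1 * 2)) 1 (flf (1 * 2) x) := Fin.ext h
        have h3 : ∀ w : Fin (1 * 2), w ≠ Equiv.swap (0 : Fin (1 * 2)) 1 w := by decide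
        exact h3 _ h2
      unfold dl
      rw [measureReal_def]
      have h2 : lam {x | fl (H 0) (S.1 x) ≠ fl (H 0) ((σ 0).S.1 x)} = lam univ := by
        apply measure_congr
        filter_upwards [hall] with x hx
        apply propext
        exact ⟨fun _ => trivial, fun _ => hx⟩
      rw [h2, measure_univ]
      rfl
    rw [h1] at h0
    unfold epsj at h0
    norm_num at h0
  · intro A hA η hη
    obtain ⟨m, hm, B, hB⟩ := Apx A hA 1 one_pos (η / 8) (by positivity)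
    -- choose the first stage
    have h16 : Tendsto (fun j => 16 * epsj j) atTop (𝓝 0) := by
      have := epsj_tend.const_mul 16
      rwa [mul_zero] at this
    obtain ⟨j1, hj1⟩ := eventually_atTop.1 (h16.eventually (gt_mem_nhds (show (0 : ℝ) < η / 4 by positivity)))
    set j0 := max j1 (1 * m) with hj0
    refine ⟨(σ j0).N, fun N hN => ?_⟩
    -- stage with N_j ≤ N < N_{j+1}
    obtain ⟨j, hjj0, hjN, hNj⟩ : ∃ j, j0 ≤ j ∧ (σ j).N ≤ N ∧ N < (σ (j + 1)).N := by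
      have hex : ∃ i, N < (σ i).N := ⟨N + 1, by
        have := hNmono.le_apply (x := N + 1)
        omega⟩
      classical
      have hf := Nat.find_spec hex
      have hmin := fun i => Nat.find_min hex (m := i)
      set i := Nat.find hex with hi
      have hij : j0 < i := by
        by_contra hc
        push Not at hc
        have h1 : (σ i).N ≤ (σ j0).N := hNmono.monotone hc
        omega
      refine ⟨i - 1, by omega, ?_, ?_⟩
      · have := hmin (i - 1) (by omega)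
        omega
      · have : i - 1 + 1 = i := by omega
        rw [this]
        exact hf
    have hmQ : 1 * m ∣ (σ j).Q := hQm (1 * m) (by positivity) j ((le_max_right _ _).trans hjj0)
    have hQH : (σ j).Q ∣ H (j + 1) := (Dvd.intro _ rfl).trans (hHdvd j)
    set g' : ℕ := H (j + 1) / (σ j).Q with hg'
    have hHg : H (j + 1) = (σ j).Q * g' := (Nat.mul_div_cancel' hQH).symm
    have hg'pos : 0 < g' := by
      rcases Nat.eq_zero_or_pos g' with h | h
      · rw [h, mul_zero] at hHg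
        have := hHpos (j + 1)
        omega
      · exact h
    have hHr : (0 : ℝ) < (H (j + 1) : ℝ) := by exact_mod_cast hHpos (j + 1)
    -- pointwise bound for each n
    have hpt : ∀ n ∈ Finset.Icc 1 N,
        lam.real ((((T.1.symm : ℝ → ℝ)^[n] ∘ (S.1 : ℝ → ℝ) ∘ (T.1 : ℝ → ℝ)^[n]) ⁻¹' A) ∆ A) ≤
        η / 4 + 6 * epsj (j + 1) + nc (fun k : Fin ((σ (j + 1)).Q * (σ (j + 1)).g) =>
          (((σ (j + 1)).τ⁻¹ ^ n) ((σ (j + 1)).s k) : ℕ) / g' ≠ (((σ (j + 1)).τ⁻¹ ^ n) k : ℕ) / g') / (H (j + 1) : ℝ) := by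
      intro n hn
      rw [Finset.mem_Icc] at hn
      have hfmp : MeasurePreserving ((T.1.symm : ℝ → ℝ)^[n] ∘ (S.1 : ℝ → ℝ) ∘ (T.1 : ℝ → ℝ)^[n]) lam lam :=
        (iter_symm_mp T n).comp (S.2.comp (iter_mp T n))
      have h1 := close_set (1 * m) B A hA (η / 8) hB _ id hfmp (MeasurePreserving.id _)
      have h2 := dl_dvd (1 * m) (σ j).Q (by positivity) (σ j).hQ hmQ
        ((T.1.symm : ℝ → ℝ)^[n] ∘ (S.1 : ℝ → ℝ) ∘ (T.1 : ℝ → ℝ)^[n]) id
      have h3 := disp ((σ (j + 1)).Q * (σ (j + 1)).g) g' hg'pos (σ j).Q (σ j).hQ hHg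
        (σ (j + 1)).τ (σ (j + 1)).s T S n
      have h4 : dl ((σ (j + 1)).Q * (σ (j + 1)).g) T.1 (rz _ (σ (j + 1)).τ).1 ≤ (σ (j + 1)).r := hT (j + 1)
      have h5 : dl ((σ (j + 1)).Q * (σ (j + 1)).g) S.1 (rz _ (σ (j + 1)).s).1 ≤ 4 * epsj (j + 1) := hS (j + 1)
      have h6 : (n : ℝ) ≤ (σ (j + 1)).N := by
        have : n ≤ (σ (j + 1)).N := by omega
        exact_mod_cast this
      have h7 := (σ (j + 1)).hrN
      rw [heps] at h7
      have h8 : 2 * (n : ℝ) * dl ((σ (j + 1)).Q * (σ (j + 1)).g) T.1 (rz _ (σ (j + 1)).τ).1 ≤ 2 * epsj (j + 1) := by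
        have hn0 : (0 : ℝ) ≤ n := by positivity
        calc 2 * (n : ℝ) * dl ((σ (j + 1)).Q * (σ (j + 1)).g) T.1 (rz _ (σ (j + 1)).τ).1
            ≤ 2 * ((σ (j + 1)).N : ℝ) * (σ (j + 1)).r := by
              apply mul_le_mul _ h4 (dl_nonneg _ _ _) (by positivity)
              linarith
          _ = 2 * ((σ (j + 1)).r * (σ (j + 1)).N) := by ring
          _ ≤ 2 * epsj (j + 1) := by linarith
      have h9 : dl (σ j).Q ((T.1.symm : ℝ → ℝ)^[n] ∘ (S.1 : ℝ → ℝ) ∘ (T.1 : ℝ → ℝ)^[n]) id =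
          lam.real {x | fl (σ j).Q ((T.1.symm : ℝ → ℝ)^[n] (S.1 ((T.1 : ℝ → ℝ)^[n] x))) ≠ fl (σ j).Q x} := rfl
      have h10 : (fun x : ℝ => x) ⁻¹' A = A := rfl
      have h1' : lam.real ((((T.1.symm : ℝ → ℝ)^[n] ∘ (S.1 : ℝ → ℝ) ∘ (T.1 : ℝ → ℝ)^[n]) ⁻¹' A) ∆ A) ≤
        2 * (η / 8) + dl (1 * m) ((T.1.symm : ℝ → ℝ)^[n] ∘ (S.1 : ℝ → ℝ) ∘ (T.1 : ℝ → ℝ)^[n]) id := h1
      have h11 : ((((σ (j + 1)).Q * (σ (j + 1)).g : ℕ)) : ℝ) = (H (j + 1) : ℝ) := rfl
      rw [h11] at h3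
      linarith
    have hest := (hσ j).est N hjN
    rw [heps] at hest
    have hest' : ∑ n ∈ Finset.Icc 1 N, nc (fun k : Fin ((σ (j + 1)).Q * (σ (j + 1)).g) =>
          (((σ (j + 1)).τ⁻¹ ^ n) ((σ (j + 1)).s k) : ℕ) / g' ≠ (((σ (j + 1)).τ⁻¹ ^ n) k : ℕ) / g') ≤
          N * (7 * epsj j + 3 * epsj (j + 1)) * (H (j + 1) : ℝ) := hest
    have hN0 : (0 : ℝ) ≤ N := by positivity
    have hj16 := hj1 j ((le_max_left _ _).trans hjj0)
    have hes := epsj_succ j
    have hep := epsj_pos j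
    calc ∑ n ∈ Finset.Icc 1 N,
          lam.real ((((T.1.symm : ℝ → ℝ)^[n] ∘ (S.1 : ℝ → ℝ) ∘ (T.1 : ℝ → ℝ)^[n]) ⁻¹' A) ∆ A)
        ≤ ∑ n ∈ Finset.Icc 1 N, (η / 4 + 6 * epsj (j + 1) + nc (fun k : Fin ((σ (j + 1)).Q * (σ (j + 1)).g) =>
          (((σ (j + 1)).τ⁻¹ ^ n) ((σ (j + 1)).s k) : ℕ) / g' ≠ (((σ (j + 1)).τ⁻¹ ^ n) k : ℕ) / g') / (H (j + 1) : ℝ)) :=
          Finset.sum_le_sum hpt
      _ = N * (η / 4 + 6 * epsj (j + 1)) + (∑ n ∈ Finset.Icc 1 N, nc (fun k : Fin ((σ (j + 1)).Q * (σ (j + 1)).g) =>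
          (((σ (j + 1)).τ⁻¹ ^ n) ((σ (j + 1)).s k) : ℕ) / g' ≠ (((σ (j + 1)).τ⁻¹ ^ n) k : ℕ) / g')) / (H (j + 1) : ℝ) := by
          rw [Finset.sum_add_distrib, Finset.sum_const, Nat.card_Icc, nsmul_eq_mul, Nat.add_sub_cancel,
            Finset.sum_div]
      _ ≤ N * (η / 4 + 6 * epsj (j + 1)) + N * (7 * epsj j + 3 * epsj (j + 1)) := by
          gcongr
          rw [div_le_iff₀ hHr]
          exact hest'
      _ = N * (η / 4 + 6 * epsj (j + 1) + (7 * epsj j + 3 * epsj (j + 1))) := by ring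
      _ ≤ N * η := by
          apply mul_le_mul_of_nonneg_left _ hN0
          rw [hes]
          linarith
      _ = η * N := by ring

end Pool.H359R3.WH
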